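import Pool.Agent.Lib.MP_7c5fb9_nt.LC.Defs
import Pool.Agent.Lib.MP_7c5fb9_nt.LO.Stmts

set_option autoImplicit false

/-!
# Project LC (MP_7c5fb9_nt): statements of the modules

One module = one file `LC/<Name>.lean` proving `theorem st<Name> : St<Name>` with the listed earlier
statements as hypotheses. Never change this file.
-/

namespace Pool.Agent.Lib.MP_7c5fb9_nt

namespace LC

open MeasureTheory UpperHalfPlane Set Pool.Agent.Lib.MP_7c08ba_nt.RZ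
open LO (Mat disc act mir qv mb cyc Fund eps aut FormOf torPer NonVan)
open scoped MatrixGroups ComplexConjugate nonZeroDivisors

/-! ### the theta multiplier -/

/-- (Th) the transformation of the theta functions -/
def StTh : Prop :=
  ∀ (M : Mat) (τ z : ℂ) (ν : Fin 2), M.det = 1 → 0 < M 1 0 → 0 < τ.im →
    tht ν (mb M τ) (z / jf M τ) * ee (-(M 1 0 : ℂ) * z ^ 2 / jf M τ) =
      ∑ μ : Fin 2, rt (τ + M 1 1 / M 1 0) *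
        gs (M 0 0) (M 1 0) (M 1 1) ((ν : ℕ) : ℤ) ((μ : ℕ) : ℤ) * tht μ τ z

/-- (Gs) Gauss sums: periodicity and orthogonality -/
def StGs : Prop :=
  (∀ a b c d ν n : ℤ, a * d - b * c = 1 → 0 < c → gs a c d ν (n + 2) = gs a c d ν n) ∧
  ∀ (a b c d : ℤ) (ν ν' : Fin 2), a * d - b * c = 1 → 0 < c →
    ∑ μ : Fin 2, gs a c d ((ν : ℕ) : ℤ) ((μ : ℕ) : ℤ) *
      conj (gs a c d ((ν' : ℕ) : ℤ) ((μ : ℕ) : ℤ)) = if ν = ν' then 2 * (c : ℂ) else 0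

/-- (Ind) the theta functions are linearly independent -/
def StInd : Prop :=
  ∀ (τ : ℂ) (A : Fin 2 → ℂ), 0 < τ.im → (∀ z : ℂ, ∑ μ, A μ * tht μ τ z = 0) → A = 0

/-- (Um) the theta multiplier -/
def StUm : Prop :=
  (∀ (M : Mat) (τ z : ℂ) (ν : Fin 2), M.det = 1 → 0 < τ.im →
    tht ν (mb M τ) (z / jf M τ) * ee (-(M 1 0 : ℂ) * z ^ 2 / jf M τ) =
      ∑ μ, Um M τ ν μ * tht μ τ z) ∧
  (∀ (M N : Mat) (τ : ℂ), M.det = 1 → N.det = 1 → 0 < τ.im →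
    Um (M * N) τ = Um M (mb N τ) * Um N τ) ∧
  (∀ (M : Mat) (τ : ℂ), M.det = 1 → 0 < τ.im →
    Um M τ * (Um M τ).conjTranspose = ((‖jf M τ‖ : ℝ) : ℂ) • 1 ∧
    (Um M τ).conjTranspose * Um M τ = ((‖jf M τ‖ : ℝ) : ℂ) • 1 ∧
    ∀ ν μ, ‖Um M τ ν μ‖ ≤ ‖jf M τ‖ ^ (1 / 2 : ℝ)) ∧
  (∀ (M : Mat) (ν μ : Fin 2), M.det = 1 →
    ContinuousOn (fun τ => Um M τ ν μ) {τ | 0 < τ.im}) ∧
  (∀ (M : Mat) (τ : ℂ), Um (-M) τ = Um M τ) ∧
  ∀ (n : ℤ) (τ : ℂ) (ν μ : Fin 2), Um !![1, n; 0, 1] τ ν μ =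
    if ν = μ then ee ((n : ℂ) * ((ν : ℕ) : ℂ) ^ 2 / 4) else 0

/-! ### Poincaré series -/

/-- (PtS) Poincaré series: convergence, size, continuity -/
def StPtS : Prop :=
  (∀ (D k m : ℕ) (τ : ℂ) (μ : Fin 2), Ok D → 4 ≤ k → Adm m → 1 ≤ m → 0 < τ.im →
    Summable fun v : CopD D => ‖pM D k m (vm v.1.1) τ μ‖) ∧
  (∀ (D k : ℕ), Ok D → 4 ≤ k → ∃ C : ℝ, 0 ≤ C ∧ ∀ (m : ℕ) (τ : ℂ) (μ : Fin 2), Adm m → 1 ≤ m →
    0 < τ.im → |τ.re| ≤ 1 → ∑' v : CopD D, ‖pM D k m (vm v.1.1) τ μ‖ ≤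
      C * (1 + τ.im ^ (-((k : ℝ) / 2 + 7 / 4)))) ∧
  ∀ (D k m : ℕ) (μ : Fin 2), Ok D → 4 ≤ k → Adm m → 1 ≤ m →
    ContinuousOn (fun τ => PP D k m τ μ) {τ | 0 < τ.im}

/-- (PInv) Poincaré series: transformation -/
def StPInv : Prop :=
  (∀ (D k m : ℕ) (M A : Mat) (τ : ℂ) (μ : Fin 2), Ok D → Even k → Adm m → M.det = 1 → A.det = 1 →
    (D : ℤ) ∣ M 1 0 → (D : ℤ) ∣ A 1 0 → 0 < τ.im → pM D k m A (mb M τ) μ =
      (jacobiSym (M 1 1) D : ℂ) * jf M τ ^ k *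
        ∑ ρ, Um (cj D M) (D * τ) μ ρ * pM D k m (A * M) τ ρ) ∧
  (∀ (D k m : ℕ) (A : Mat) (n : ℤ) (τ : ℂ) (μ : Fin 2), Ok D → Adm m → A.det = 1 →
    (D : ℤ) ∣ A 1 0 → 0 < τ.im → pM D k m (!![1, n; 0, 1] * A) τ μ = pM D k m A τ μ) ∧
  ∀ (D k m : ℕ) (M : Mat) (τ : ℂ) (μ : Fin 2), Ok D → 4 ≤ k → Even k → Adm m → 1 ≤ m →
    M.det = 1 → (D : ℤ) ∣ M 1 0 → 0 < τ.im → PP D k m (mb M τ) μ =
      (jacobiSym (M 1 1) D : ℂ) * jf M τ ^ k *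
        ∑ ρ, Um (cj D M) (D * τ) μ ρ * PP D k m τ ρ

/-- (Rep) representatives -/
def StRep : Prop :=
  ∀ D : ℕ, 1 ≤ D → ∃ (ι : Type) (_ : Fintype ι) (R : ι → SL(2, ℤ)), IsRep D R

/-- (UnfD) unfolding for `Γ₀(D)` -/
def StUnfD : Prop :=
  ∀ (D : ℕ) (ι : Type) (_ : Fintype ι) (R : ι → SL(2, ℤ)), 1 ≤ D → IsRep D R → ∀ G : ℂ → ℂ,
    ContinuousOn G {z | 0 < z.im} → (∀ z : ℂ, 0 < z.im → G (z + 1) = G z) →
    IntegrableOn (fun z : ℍ => G z) strip →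
    (∀ i, ∀ᵐ z : ℍ, Summable fun v : CopD D => G (mob v.1.1 ((R i • z : ℍ) : ℂ))) ∧
    (∀ i, IntegrableOn (fun z : ℍ => ∑' v : CopD D, G (mob v.1.1 ((R i • z : ℍ) : ℂ)))
      ModularGroup.fd) ∧
    ∑ i, ∫ z : ℍ in ModularGroup.fd, ∑' v : CopD D, G (mob v.1.1 ((R i • z : ℍ) : ℂ)) =
      2 * ∫ z : ℍ in strip, G z

/-- (Gram) the scalar products of Poincaré series -/
def StGram : Prop :=
  ∀ (D k m m' : ℕ) (ι : Type) (_ : Fintype ι) (R : ι → SL(2, ℤ)), Ok D → 6 ≤ k → Even k →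
    Adm m → Adm m' → 1 ≤ m → 1 ≤ m' → IsRep D R →
    (∀ i, IntegrableOn (fun z : ℍ => GG D k m m' ((R i • z : ℍ) : ℂ)) ModularGroup.fd) ∧
    ∑ i, ∫ z : ℍ in ModularGroup.fd, GG D k m m' ((R i • z : ℍ) : ℂ) = PI D k m m'

/-- (Hil) the Hilbert space -/
def StHil : Prop :=
  ∀ (D k : ℕ), Ok D → 6 ≤ k → Even k →
    ∃ (E : Type) (_ : NormedAddCommGroup E) (_ : InnerProductSpace ℂ E) (_ : CompleteSpace E)
      (e : ℕ → E) (B : ℝ), (∀ m, Adm m → 1 ≤ m → ‖e m‖ ≤ B) ∧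
      ∀ m m', Adm m → Adm m' → 1 ≤ m → 1 ≤ m' → inner ℂ (e m') (e m) = PI D k m m'

/-- (Han) the integral over a horizontal line -/
def StHan : Prop :=
  ∀ (k : ℕ) (A B y : ℝ), 1 ≤ k → 0 ≤ A → 0 < B → 0 < y →
    Integrable (fun x : ℝ => (-Complex.I * (x + y * Complex.I)) ^ (-((k : ℂ) + 1 / 2)) *
      ee (-(A : ℂ) / (x + y * Complex.I)) * ee (-(B : ℂ) * (x + y * Complex.I))) ∧
    ∫ x : ℝ, (-Complex.I * (x + y * Complex.I)) ^ (-((k : ℂ) + 1 / 2)) *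
      ee (-(A : ℂ) / (x + y * Complex.I)) * ee (-(B : ℂ) * (x + y * Complex.I)) = Hk k A B

/-- (ExS) exponential sums with the character -/
def StExS : Prop :=
  ∀ (D : ℕ) (G : ℂ) (c : ℕ) (t : ℤ), Ok D → GS D G → 1 ≤ c →
    ∑ a ∈ Finset.range (D * c), (if Nat.Coprime a (D * c) then
      (jacobiSym a D : ℂ) * ee ((a : ℂ) * t / (D * c)) else 0) =
    G * ∑ h ∈ c.divisors, if ((c / h : ℕ) : ℤ) ∣ t then (ArithmeticFunction.moebius h : ℂ) *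
      (jacobiSym h D : ℂ) * ((c / h : ℕ) : ℂ) * (jacobiSym (t / ((c / h : ℕ) : ℤ)) D : ℂ) else 0

/-- (KS) the exponential sums of the Poincaré series -/
def StKS : Prop :=
  ∀ (D : ℕ) (G : ℂ) (c n m : ℕ), Ok D → GS D G → 1 ≤ c → 1 ≤ n → Adm m →
    KS D c n m = G * c * ∑ h ∈ (c.gcd n).divisors, (ArithmeticFunction.moebius h : ℂ) *
      (jacobiSym h D : ℂ) * AA D (c / h) (n / h) m

/-- (PF) the coefficients of index `D n^2` of the Poincaré series, with exponential sums -/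
def StPF : Prop :=
  ∀ (D k m n : ℕ) (y : ℝ), Ok D → 6 ≤ k → Even k → Adm m → 1 ≤ m → 1 ≤ n → 0 < y →
    (Summable fun c : ℕ => ((((D : ℂ) * (c + 1)) ^ (k + 1))⁻¹ * KS D (c + 1) n m *
      (Hk k (m / (4 * (D * (c + 1)) ^ 2)) (D * n ^ 2 / 4) : ℝ))) ∧
    ∫ x in (0 : ℝ)..1, PP D k m (x + y * Complex.I) (pr n) *
      ee (-((D : ℂ) * n ^ 2) * (x + y * Complex.I) / 4) =
    dl D m n + (-1) ^ (k / 2) * Real.sqrt (D / 2) * ∑' c : ℕ, (((D : ℂ) * (c + 1)) ^ (k + 1))⁻¹ *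
      KS D (c + 1) n m * (Hk k (m / (4 * (D * (c + 1)) ^ 2)) (D * n ^ 2 / 4) : ℝ)

/-- (Cm) the coefficients of index `D n^2` of the Poincaré series -/
def StCm : Prop :=
  ∀ (D k m n : ℕ) (G : ℂ) (y : ℝ), Ok D → GS D G → 6 ≤ k → Even k → Adm m → 1 ≤ m → 1 ≤ n →
    0 < y → ∫ x in (0 : ℝ)..1, PP D k m (x + y * Complex.I) (pr n) *
      ee (-((D : ℂ) * n ^ 2) * (x + y * Complex.I) / 4) = cm D k m G n

/-! ### forms of weight `2k` -/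

/-- (HC) sums over binary forms: convergence -/
def StHC : Prop :=
  (∀ (Q : LO.Frm) (z : ℂ), 0 < disc Q → 0 < z.im → qv Q z ≠ 0) ∧
  (∀ (Δ : ℤ) (k : ℕ) (z : ℂ), 0 < Δ → 4 ≤ k → 0 < z.im →
    Summable fun Q : DQ Δ => ‖((qv Q.1 z) ^ k)⁻¹‖) ∧
  ∀ (Δ : ℤ) (k : ℕ) (W : LO.Frm → ℂ), 0 < Δ → 4 ≤ k → (∀ Q, ‖W Q‖ ≤ 1) →
    (∀ Q, disc Q ≠ Δ → W Q = 0) →
    DifferentiableOn ℂ (fun z => ∑' Q : LO.Frm, W Q * ((qv Q z) ^ k)⁻¹) {z | 0 < z.im}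

/-- (Lip) a Lipschitz formula -/
def StLip : Prop :=
  ∀ (k : ℕ) (r : ℝ) (z : ℂ), 2 ≤ k → Even k → 0 ≤ r → Real.sqrt r < z.im →
    (Summable fun l : ℤ => ‖(((z - l) ^ 2 - r) ^ k)⁻¹‖) ∧
    (Summable fun n : ℕ => ((n : ℝ) + 1) ^ (2 * k - 1) * Phk k (-(r * (n + 1) ^ 2 / 4)) *
      Real.exp (-(2 * Real.pi * (n + 1) * z.im))) ∧
    (∀ X : ℝ, |Phk k X| ≤ Phk k (-|X|)) ∧
    ∑' l : ℤ, (((z - l) ^ 2 - r) ^ k)⁻¹ =
      2 * Real.pi ^ (2 * k) * Real.sqrt Real.pi / ((k - 1).factorial : ℂ) *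
        ∑' n : ℕ, ((n : ℂ) + 1) ^ (2 * k - 1) * (Phk k (r * (n + 1) ^ 2 / 4) : ℝ) *
          ee ((n + 1) * z)

/-- (HF) Fourier expansion of the forms of weight `2k`, far from the real line -/
def StHF : Prop :=
  ∀ (D k m : ℕ) (G : ℂ) (z : ℂ), Ok D → GS D G → 6 ≤ k → Even k → Adm m → 1 ≤ m →
    (m : ℝ) < z.im →
    HasSum (fun n : ℕ => an D k m G (n + 1) * ee (((n + 1 : ℕ) : ℂ) * z)) (hm D k m z)

/-- (HE) Fourier expansion of the forms of weight `2k` -/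
def StHE : Prop :=
  ∀ (D k m : ℕ) (G : ℂ) (z : ℂ), Ok D → GS D G → 6 ≤ k → Even k → Adm m → 1 ≤ m →
    (∃ (C : ℝ) (A : ℕ), ∀ n : ℕ, 1 ≤ n → ‖an D k m G n‖ ≤ C * (n : ℝ) ^ A) → 0 < z.im →
    HasSum (fun n : ℕ => an D k m G (n + 1) * ee (((n + 1 : ℕ) : ℂ) * z)) (hm D k m z)

/-- (Rec) a consequence of quadratic reciprocity -/
def StRec : Prop :=
  ∀ (D : ℕ) (g j C : ℤ), Ok D → D * j ^ 2 - 4 * g * C = 1 → jacobiSym C D = 1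

/-- (TrA) the trace of the form attached to `1` -/
def StTrA : Prop :=
  ∀ (D : ℕ) (ι : Type) (_ : Fintype ι) (R : ι → SL(2, ℤ)) (F : LO.Frm → ℂ), Ok D → IsRep D R →
    (Summable fun Q : DQ D => ‖F Q.1‖) →
    (∀ i, Summable fun Q : LO.Frm => ‖WD D 1 Q * F (act Q (sm (R i)))‖) ∧
    ∑ i, ∑' Q : LO.Frm, WD D 1 Q * F (act Q (sm (R i))) = ∑' Q : DQ D, F Q.1

/-- (TrB) the trace of the form attached to `D n^2` -/
def StTrB : Prop :=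
  ∀ (D n : ℕ) (ι : Type) (_ : Fintype ι) (R : ι → SL(2, ℤ)) (F : LO.Frm → ℂ), Ok D → 1 ≤ n →
    IsRep D R → (Summable fun Q : DQ ((D * n : ℕ) ^ 2 : ℕ) => ‖F Q.1‖) →
    (∀ C : ℕ, Summable fun g : SL(2, ℤ) => ‖F (act ![0, (D * n : ℕ), C] (sm g))‖) ∧
    (∀ i, Summable fun Q : LO.Frm => ‖WD D (D * n ^ 2) Q * F (act Q (sm (R i)))‖) ∧
    ∑ i, ∑' Q : LO.Frm, WD D (D * n ^ 2) Q * F (act Q (sm (R i))) =
      (1 / 2) * ∑ C ∈ Finset.range (D * n), (jacobiSym C D : ℂ) *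
        ∑' g : SL(2, ℤ), F (act ![0, (D * n : ℕ), C] (sm g))

/-! ### the kernel and the periods -/

/-- (Bt) a beta integral -/
def StBt : Prop :=
  ∀ (k : ℕ) (P P' : ℂ), 1 ≤ k → 0 < (P' * conj P).im →
    IntegrableOn (fun t : ℝ => ((Complex.I * t * P + P') ^ (2 * k))⁻¹ * (t : ℂ) ^ (k - 1))
      (Ioi 0) ∧
    (∫ t in Ioi (0 : ℝ), ((Complex.I * t * P + P') ^ (2 * k))⁻¹ * (t : ℂ) ^ (k - 1) =
      Bk k * ((Complex.I * P * P') ^ k)⁻¹) ∧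
    (∫ t in Ioi (0 : ℝ), ‖((Complex.I * t * P + P') ^ (2 * k))⁻¹ * (t : ℂ) ^ (k - 1)‖ ≤
      2 ^ k * Bk k * (‖P * P'‖ ^ k)⁻¹)

/-- (Cos) matrices of determinant `m` -/
def StCos : Prop :=
  ∀ m : ℕ, 1 ≤ m → ∃ e : (UP m × SL(2, ℤ)) ≃ DetM m,
    ∀ q : UP m × SL(2, ℤ), (e q).1 = sm q.2 * um m q.1.1

/-- (Stab) automorphs -/
def StStab : Prop :=
  ∀ (D : ℕ) (t u : ℤ) (Q : LO.Frm), Ok D → 1 < D → disc Q = D → Fund D t u →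
    ∃ A : SL(2, ℤ), sm A = aut Q t u ∧ (∀ n : ℤ, act Q (sm (A ^ n)) = Q) ∧
      ∀ g : SL(2, ℤ), act Q (sm g) = Q → ∃! p : ℤ × Bool, g = if p.2 then A ^ p.1 else -A ^ p.1

/-- (Geo) the kernel identity integrated along closed geodesics -/
def StGeo : Prop :=
  ∀ (k w D : ℕ) (f : CuspForm 𝒮ℒ (w : ℤ)) (β : ℕ →₀ ℂ) (t u : ℤ) (Q : LO.Frm) (z₀ : ℂ),
    w = 2 * k → 6 ≤ k → Even k → β 0 = 0 → KerId f β → Ok D → 1 < D → disc Q = D → 0 < Q 0 →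
    Fund D t u → 0 < z₀.im →
    2 * Cw w * f (ofComplex z₀) * cyc k f Q (eps D t u) =
      -2 * ((D : ℂ) ^ k / Real.sqrt D) * Bk k * β.sum fun m b => b * ∑ p ∈ UP m,
        ∑' Q' : Orb (mir Q), ((qv (act Q'.1 (um m p)) z₀) ^ k)⁻¹

/-- (Ver) the kernel identity integrated along vertical lines -/
def StVer : Prop :=
  ∀ (k w N C : ℕ) (f : CuspForm 𝒮ℒ (w : ℤ)) (β : ℕ →₀ ℂ) (z₀ : ℂ),
    w = 2 * k → 6 ≤ k → Even k → β 0 = 0 → KerId f β → 1 ≤ N → 0 < z₀.im →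
    2 * Cw w * f (ofComplex z₀) * Vt f k N C =
      Bk k * (Complex.I ^ k)⁻¹ * (N : ℂ) ^ k * β.sum fun m b => b * ∑ p ∈ UP m,
        ∑' g : SL(2, ℤ), ((qv (act (act ![0, N, C] (sm g)) (um m p)) z₀) ^ k)⁻¹

/-- (Dec) decay along vertical lines -/
def StDec : Prop :=
  ∀ (w : ℕ) (f : CuspForm 𝒮ℒ (w : ℤ)) (N : ℕ) (C : ℤ), 1 ≤ N →
    (∃ K δ : ℝ, 0 < δ ∧ ∀ t : ℝ, 0 < t → ‖f (ofComplex (Complex.I * t + C / N))‖ ≤
      K * Real.exp (-(δ * (t + 1 / t)))) ∧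
    ∀ s : ℂ, IntegrableOn (fun t : ℝ => f (ofComplex (Complex.I * t + C / N)) * (t : ℂ) ^ s)
      (Ioi 0)

/-- (Chi) the sums along vertical lines of level `D n` -/
def StChi : Prop :=
  ∀ (k w D n : ℕ) (f : CuspForm 𝒮ℒ (w : ℤ)) (G : ℂ), w = 2 * k → 1 ≤ k → IsEigen f → Ok D →
    GS D G → 1 ≤ n → Lx f k D = 0 →
    ∑ C ∈ Finset.range (D * n), (jacobiSym C D : ℂ) * Vt f k (D * n) C = 0

/-- (Lx) the twisted `L`-function -/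
def StLx : Prop :=
  ∀ (k w D : ℕ) (f : CuspForm 𝒮ℒ (w : ℤ)) (G : ℂ), w = 2 * k → 1 ≤ k → Ok D → GS D G →
    ∃ Λ : ℂ → ℂ, Differentiable ℂ Λ ∧ (∀ s : ℂ, (k : ℝ) + 1 < s.re →
      HasSum (fun n : ℕ => (jacobiSym ((n + 1 : ℕ) : ℤ) D : ℂ) * coef f (n + 1) *
        ((n + 1 : ℕ) : ℂ) ^ (-s)) (Λ s)) ∧ (Λ k = 0 → Lx f k D = 0)

/-! ### forms and classes of ideals -/

/-- Forms attached to oriented bases of ideals: `s` is the square root of `D`, and the second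
member of the basis, divided by the first one, is a root of the form. -/
def FormOr {K : Type} [Field K] [NumberField K] (s : K)
    (c : ClassGroup (NumberField.RingOfIntegers K)) (Q : LO.Frm) : Prop :=
  ∃ (I : (Ideal (NumberField.RingOfIntegers K))⁰) (x y : NumberField.RingOfIntegers K),
    ClassGroup.mk0 I = c ∧ x ≠ 0 ∧
    (∀ z : NumberField.RingOfIntegers K, z ∈ (I : Ideal (NumberField.RingOfIntegers K)) ↔
      ∃ m n : ℤ, z = (m : NumberField.RingOfIntegers K) * x +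
        (n : NumberField.RingOfIntegers K) * y) ∧
    2 * (Q 0 : K) * (y : K) = ((Q 1 : K) + s) * (x : K)

/-- (NaA) forms and oriented bases -/
def StNaA : Prop :=
  ∀ (D : ℕ) (K : Type) [Field K] [NumberField K] (s : K), Ok D → 1 < D →
    Module.finrank ℚ K = 2 → s ^ 2 = (D : K) →
    (∀ Q : LO.Frm, disc Q = D → ∃! c, FormOr s c Q) ∧
    (∀ (c : ClassGroup (NumberField.RingOfIntegers K)) (Q Q' : LO.Frm), disc Q = D →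
      disc Q' = D → FormOr s c Q → (FormOr s c Q' ↔
        ∃ g : SL(2, ℤ), Q' = act Q (sm g) ∨ Q' = -act (mir Q) (sm g))) ∧
    ∀ (c : ClassGroup (NumberField.RingOfIntegers K)) (Q : LO.Frm), FormOf c Q →
      disc Q = D ∧ (FormOr s c Q ∨ FormOr s c (mir Q))

/-- (NaB) the units of norm `-1` -/
def StNaB : Prop :=
  ∀ (D : ℕ) (Q Q' : LO.Frm), Ok D → 1 < D → disc Q = D → disc Q' = D →
    ((∃ g : SL(2, ℤ), -mir Q = act Q (sm g)) ↔ (∃ g : SL(2, ℤ), -mir Q' = act Q' (sm g)))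

/-- (Nar) the sum over the classes of forms -/
def StNar : Prop :=
  ∀ (D : ℕ) (K : Type) [Field K] [NumberField K] (s : K)
    (q : ClassGroup (NumberField.RingOfIntegers K) → LO.Frm), Ok D → 1 < D →
    Module.finrank ℚ K = 2 → s ^ 2 = (D : K) → (∀ c, FormOf c (q c)) →
    (∀ c, disc (q c) = D) ∧ ∃ κ : ℂ, κ ≠ 0 ∧ ∀ F : LO.Frm → ℂ, (∀ Q, F (-Q) = F Q) →
      (Summable fun Q : DQ D => ‖F Q.1‖) →
      ∑ c, (∑' Q' : Orb (q c), F Q'.1 + ∑' Q' : Orb (mir (q c)), F Q'.1) =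
        κ * ∑' Q : DQ D, F Q.1

/-! ### conclusions -/

/-- (Pr) the projection -/
def StPr : Prop :=
  ∀ (D k : ℕ) (G : ℂ) (ι : Type) (_ : Fintype ι) (R : ι → SL(2, ℤ)) (β : ℕ →₀ ℂ) (z₀ : ℂ),
    Ok D → GS D G → 6 ≤ k → Even k → 0 < z₀.im → β 0 = 0 →
    (∀ n : ℕ, 1 ≤ n → Lam k R β z₀ (hm D k (D * n ^ 2)) = 0) → Lam k R β z₀ (hm D k 1) = 0

/-- (GSx) the Gauss sum -/
def StGSx : Prop := ∀ D : ℕ, Ok D → ∃ G : ℂ, GS D G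

/-- (Fin) the theorem: the central value of the twisted `L`-function does not vanish if the toric
period does not vanish -/
def StFin : Prop :=
  ∀ (k w : ℕ) (f : CuspForm 𝒮ℒ (w : ℤ)), Even k → w = 2 * k → IsEigen f →
    ∀ (D : ℕ) (K : Type) [Field K] [NumberField K] (s : K), Ok D → 1 < D →
      Module.finrank ℚ K = 2 → s ^ 2 = (D : K) → NonVan k f K →
      ∃ Λ : ℂ → ℂ, Differentiable ℂ Λ ∧ (∀ s : ℂ, (k : ℝ) + 1 < s.re →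
        HasSum (fun n : ℕ => (jacobiSym ((n + 1 : ℕ) : ℤ) D : ℂ) * coef f (n + 1) *
          ((n + 1 : ℕ) : ℂ) ^ (-s)) (Λ s)) ∧ Λ k ≠ 0

end LC

end Pool.Agent.Lib.MP_7c5fb9_nt
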