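import Mathlib
import Pool.Agent.Lib.MP_7c5fb9_nt.LC.St

set_option autoImplicit false

/-!
A beta integral with complex parameters (module LC-Bt).
-/

namespace Pool.Agent.Lib.MP_7c5fb9_nt

namespace LC

open MeasureTheory Set Filter
open scoped ComplexConjugate Topology

namespace BtAux

/-- The primitive of `(z (1 - z)) ^ j`. -/
noncomputable def Q (𝕜 : Type*) [RCLike 𝕜] (j : ℕ) (z : 𝕜) : 𝕜 :=
  ∑ i ∈ Finset.range (j + 1), (-1) ^ i * (j.choose i : 𝕜) * (z ^ (j + i + 1) / (j + i + 1 : ℕ))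

theorem Q_zero (𝕜 : Type*) [RCLike 𝕜] (j : ℕ) : Q 𝕜 j 0 = 0 := by
  unfold Q
  exact Finset.sum_eq_zero fun i _ => by simp

theorem Q_deriv (𝕜 : Type*) [RCLike 𝕜] (j : ℕ) (z : 𝕜) :
    HasDerivAt (Q 𝕜 j) (z ^ j * (1 - z) ^ j) z := by
  have h : HasDerivAt (Q 𝕜 j) (∑ i ∈ Finset.range (j + 1), (-1) ^ i * (j.choose i : 𝕜) *
      z ^ (j + i)) z := by
    have h0 : Q 𝕜 j = ∑ i ∈ Finset.range (j + 1), fun z : 𝕜 => (-1) ^ i * (j.choose i : 𝕜) *
        (z ^ (j + i + 1) / (j + i + 1 : ℕ)) := by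
      ext z
      simp [Q]
    rw [h0]
    refine HasDerivAt.sum fun i _ => ?_
    have h1 := ((hasDerivAt_pow (j + i + 1) z).div_const ((j + i + 1 : ℕ) : 𝕜)).const_mul
      ((-1) ^ i * (j.choose i : 𝕜))
    refine h1.congr_deriv ?_
    have h2 : ((j + i + 1 : ℕ) : 𝕜) ≠ 0 := Nat.cast_ne_zero.2 (by omega)
    rw [Nat.add_sub_cancel, mul_div_assoc]
    field_simp
  refine h.congr_deriv ?_
  have h3 : (1 - z) ^ j = (-z + 1) ^ j := by rw [neg_add_eq_sub]
  rw [h3, add_pow, Finset.mul_sum]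
  refine Finset.sum_congr rfl fun i _ => ?_
  rw [neg_pow z i, pow_add]
  simp
  ring

theorem Q_one_complex (j : ℕ) : Q ℂ j 1 = (Bk (j + 1) : ℂ) := by
  have hF : ∫ v in (0 : ℝ)..1, (v : ℂ) ^ j * (1 - (v : ℂ)) ^ j = Q ℂ j 1 := by
    have h := intervalIntegral.integral_eq_sub_of_hasDerivAt (a := 0) (b := 1)
      (f := fun v : ℝ => Q ℂ j (v : ℂ)) (f' := fun v : ℝ => (v : ℂ) ^ j * (1 - (v : ℂ)) ^ j)
      (fun v _ => (Q_deriv ℂ j (v : ℂ)).comp_ofReal)
      (Continuous.intervalIntegrable (by fun_prop) _ _)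
    rw [h]
    simp [Q_zero]
  have h1 : Complex.betaIntegral (j + 1) (j + 1) =
      ∫ v in (0 : ℝ)..1, (v : ℂ) ^ j * (1 - (v : ℂ)) ^ j := by
    unfold Complex.betaIntegral
    simp only [add_sub_cancel_right, Complex.cpow_natCast]
  have h2 : Complex.Gamma (j + 1) * Complex.Gamma (j + 1) =
      Complex.Gamma (j + 1 + (j + 1)) * Complex.betaIntegral (j + 1) (j + 1) :=
    Complex.Gamma_mul_Gamma_eq_betaIntegral (by simp; positivity) (by simp; positivity)
  have h3 : (j : ℂ) + 1 + (j + 1) = ((2 * j + 1 : ℕ) : ℂ) + 1 := by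
    push_cast
    ring
  rw [h3, Complex.Gamma_nat_eq_factorial, Complex.Gamma_nat_eq_factorial] at h2
  rw [← hF, ← h1]
  have h4 : ((2 * j + 1).factorial : ℂ) ≠ 0 := by exact_mod_cast (2 * j + 1).factorial_ne_zero
  unfold Bk
  have h5 : 2 * (j + 1) - 1 = 2 * j + 1 := by omega
  rw [h5, Nat.add_sub_cancel]
  push_cast
  rw [eq_div_iff h4, mul_comm, ← h2]
  ring

theorem Q_one_real (j : ℕ) : Q ℝ j 1 = Bk (j + 1) := by
  have h := Q_one_complex j
  have h1 : ((Q ℝ j 1 : ℝ) : ℂ) = Q ℂ j 1 := by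
    unfold Q
    push_cast
    rfl
  exact_mod_cast h1.trans h

/-- The real integral. -/
theorem real_beta (j : ℕ) {p q : ℝ} (hp : 0 < p) (hq : 0 < q) :
    IntegrableOn (fun t : ℝ => ((t * p + q) ^ (2 * (j + 1)))⁻¹ * t ^ j) (Ioi 0) ∧
    ∫ t in Ioi (0 : ℝ), ((t * p + q) ^ (2 * (j + 1)))⁻¹ * t ^ j =
      Bk (j + 1) * ((p * q) ^ (j + 1))⁻¹ := by
  set g : ℝ → ℝ := fun t => ((p * q) ^ (j + 1))⁻¹ * Q ℝ j (t * p / (t * p + q)) with hg
  have hden : ∀ t ∈ Ici (0 : ℝ), 0 < t * p + q := fun t ht => by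
    have : (0 : ℝ) ≤ t := ht
    positivity
  have hder : ∀ t ∈ Ici (0 : ℝ), HasDerivAt g (((t * p + q) ^ (2 * (j + 1)))⁻¹ * t ^ j) t := by
    intro t ht
    have hd := (hden t ht).ne'
    have h1 : HasDerivAt (fun t : ℝ => t * p / (t * p + q)) (p * q / (t * p + q) ^ 2) t := by
      have h2 : HasDerivAt (fun t : ℝ => t * p) p t := by
        simpa using (hasDerivAt_id t).mul_const p
      refine (h2.div (h2.add_const q) hd).congr_deriv ?_
      ring
    have h3 := ((Q_deriv ℝ j (t * p / (t * p + q))).comp t h1).const_mul (((p * q) ^ (j + 1))⁻¹)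
    refine h3.congr_deriv ?_
    have h4 : 1 - t * p / (t * p + q) = q / (t * p + q) := by
      field_simp
      ring
    have e1 : (p * q) ^ (j + 1) = p ^ j * q ^ j * (p * q) := by rw [pow_succ, mul_pow]
    have e2 : (t * p + q) ^ (2 * (j + 1)) = (t * p + q) ^ j * (t * p + q) ^ j *
        (t * p + q) ^ 2 := by
      rw [← pow_add, ← pow_add]
      congr 1
      ring
    rw [h4, div_pow, div_pow, mul_pow t p, e1, e2]
    generalize t * p + q = D at hd ⊢
    field_simp
  have hlim : Tendsto g atTop (𝓝 (((p * q) ^ (j + 1))⁻¹ * Q ℝ j 1)) := by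
    refine Tendsto.const_mul _ ?_
    have h1 : Tendsto (fun t : ℝ => t * p / (t * p + q)) atTop (𝓝 1) := by
      have h2 : Tendsto (fun t : ℝ => 1 - q / (t * p + q)) atTop (𝓝 (1 - 0)) := by
        refine tendsto_const_nhds.sub ?_
        refine tendsto_const_nhds.div_atTop ?_
        exact tendsto_atTop_add_const_right _ _ (tendsto_id.atTop_mul_const hp)
      rw [sub_zero] at h2
      refine h2.congr' ?_
      filter_upwards [eventually_ge_atTop (0 : ℝ)] with t ht
      have hd := (hden t ht).ne'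
      field_simp
      ring
    exact (Q_deriv ℝ j 1).continuousAt.tendsto.comp h1
  have hnn : ∀ t ∈ Ioi (0 : ℝ), 0 ≤ ((t * p + q) ^ (2 * (j + 1)))⁻¹ * t ^ j := by
    intro t ht
    have h1 := hden t (Ioi_subset_Ici_self ht)
    have h2 : (0 : ℝ) < t := ht
    positivity
  refine ⟨integrableOn_Ioi_deriv_of_nonneg' hder hnn hlim, ?_⟩
  rw [integral_Ioi_of_hasDerivAt_of_nonneg' hder hnn hlim, Q_one_real]
  simp only [hg, zero_mul, zero_add, zero_div, Q_zero, mul_zero, sub_zero]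
  ring

theorem normSq_lower {P P' : ℂ} (h : 0 < (P' * conj P).im) {t : ℝ} (ht : 0 ≤ t) :
    (t * ‖P‖ + ‖P'‖) ^ 2 ≤ 2 * ‖Complex.I * t * P + P'‖ ^ 2 := by
  have h0 : ‖Complex.I * t * P + P'‖ ^ 2 = t ^ 2 * ‖P‖ ^ 2 + ‖P'‖ ^ 2 +
      2 * t * (P' * conj P).im := by
    rw [← Complex.normSq_eq_norm_sq, ← Complex.normSq_eq_norm_sq, ← Complex.normSq_eq_norm_sq]
    simp only [Complex.normSq_apply, Complex.add_re, Complex.add_im, Complex.mul_re,
      Complex.mul_im, Complex.I_re, Complex.I_im, Complex.ofReal_re, Complex.ofReal_im,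
      Complex.conj_re, Complex.conj_im]
    ring
  rw [h0]
  have h1 : 0 ≤ t * (P' * conj P).im := mul_nonneg ht h.le
  nlinarith [sq_nonneg (t * ‖P‖ - ‖P'‖)]

end BtAux

open BtAux

theorem stBt : StBt := by
  intro k P P' hk h
  obtain ⟨j, rfl⟩ : ∃ j, k = j + 1 := ⟨k - 1, by omega⟩
  rw [Nat.add_sub_cancel]
  have hP : P ≠ 0 := fun h0 => by simp [h0] at h
  have hP' : P' ≠ 0 := fun h0 => by simp [h0] at h
  have hp : 0 < ‖P‖ := norm_pos_iff.2 hP
  have hp' : 0 < ‖P'‖ := norm_pos_iff.2 hP'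
  obtain ⟨hi, hv⟩ := real_beta j hp hp'
  have hden : ∀ t ∈ Ici (0 : ℝ), Complex.I * t * P + P' ≠ 0 := fun t ht h0 => by
    have ht0 : (0 : ℝ) ≤ t := ht
    have h1 := normSq_lower h ht0
    rw [h0, norm_zero] at h1
    have h2 : 0 < t * ‖P‖ + ‖P'‖ := by positivity
    nlinarith
  have hbd : ∀ t ∈ Ioi (0 : ℝ), ‖((Complex.I * t * P + P') ^ (2 * (j + 1)))⁻¹ * (t : ℂ) ^ j‖ ≤
      2 ^ (j + 1) * (((t * ‖P‖ + ‖P'‖) ^ (2 * (j + 1)))⁻¹ * t ^ j) := by
    intro t ht
    have ht0 : (0 : ℝ) < t := ht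
    have h1 := normSq_lower h ht0.le
    have h2 : 0 < t * ‖P‖ + ‖P'‖ := by positivity
    have h3 : 0 < ‖Complex.I * t * P + P'‖ :=
      norm_pos_iff.2 (hden t (Ioi_subset_Ici_self ht))
    rw [norm_mul, norm_inv, norm_pow, norm_pow, Complex.norm_of_nonneg ht0.le, ← mul_assoc]
    refine mul_le_mul_of_nonneg_right ?_ (by positivity)
    rw [← div_eq_mul_inv, le_div_iff₀ (by positivity), inv_mul_le_iff₀ (by positivity)]
    rw [pow_mul, pow_mul, ← mul_pow, mul_comm (‖Complex.I * t * P + P'‖ ^ 2) 2]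
    exact pow_le_pow_left₀ (by positivity) h1 _
  have hmeas : AEStronglyMeasurable (fun t : ℝ => ((Complex.I * t * P + P') ^ (2 * (j + 1)))⁻¹ *
      (t : ℂ) ^ j) (volume.restrict (Ioi 0)) := by
    refine ContinuousOn.aestronglyMeasurable ?_ measurableSet_Ioi
    refine ContinuousOn.mul (ContinuousOn.inv₀ (Continuous.continuousOn (by fun_prop)) ?_)
      (Continuous.continuousOn (by fun_prop))
    intro t ht
    exact pow_ne_zero _ (hden t (Ioi_subset_Ici_self ht))
  have hae : ∀ᵐ t : ℝ ∂(volume.restrict (Ioi (0 : ℝ))),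
      ‖((Complex.I * t * P + P') ^ (2 * (j + 1)))⁻¹ * (t : ℂ) ^ j‖ ≤
      2 ^ (j + 1) * (((t * ‖P‖ + ‖P'‖) ^ (2 * (j + 1)))⁻¹ * t ^ j) :=
    (ae_restrict_iff' measurableSet_Ioi).2 (Eventually.of_forall hbd)
  have hint : IntegrableOn (fun t : ℝ => ((Complex.I * t * P + P') ^ (2 * (j + 1)))⁻¹ *
      (t : ℂ) ^ j) (Ioi 0) := Integrable.mono' (hi.const_mul _) hmeas hae
  refine ⟨hint, ?_, ?_⟩
  · set g : ℝ → ℂ := fun t => ((Complex.I * P * P') ^ (j + 1))⁻¹ *
      Q ℂ j (Complex.I * t * P / (Complex.I * t * P + P')) with hg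
    have hder : ∀ t ∈ Ici (0 : ℝ), HasDerivAt g
        (((Complex.I * t * P + P') ^ (2 * (j + 1)))⁻¹ * (t : ℂ) ^ j) t := by
      intro t ht
      have hd := hden t ht
      have h1 : HasDerivAt (fun t : ℝ => Complex.I * t * P / (Complex.I * t * P + P'))
          (Complex.I * P * P' / (Complex.I * t * P + P') ^ 2) t := by
        have h2 : HasDerivAt (fun t : ℝ => Complex.I * t * P) (Complex.I * P) t := by
          have := ((hasDerivAt_id (t : ℂ)).comp_ofReal.const_mul Complex.I).mul_const P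
          simpa using this
        refine (h2.div (h2.add_const P') hd).congr_deriv ?_
        ring
      have h3 := ((Q_deriv ℂ j (Complex.I * t * P / (Complex.I * t * P + P'))).comp t
        h1).const_mul (((Complex.I * P * P') ^ (j + 1))⁻¹)
      refine h3.congr_deriv ?_
      have h4 : 1 - Complex.I * t * P / (Complex.I * t * P + P') =
          P' / (Complex.I * t * P + P') := by
        field_simp
        ring
      have hI := Complex.I_ne_zero
      have e1 : (Complex.I * P * P') ^ (j + 1) = Complex.I ^ j * P ^ j * P' ^ j *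
          (Complex.I * P * P') := by rw [pow_succ, mul_pow, mul_pow]
      have e2 : (Complex.I * t * P + P') ^ (2 * (j + 1)) = (Complex.I * t * P + P') ^ j *
          (Complex.I * t * P + P') ^ j * (Complex.I * t * P + P') ^ 2 := by
        rw [← pow_add, ← pow_add]
        congr 1
        ring
      rw [h4, div_pow, div_pow, mul_pow (Complex.I * t) P, mul_pow Complex.I (t : ℂ), e1, e2]
      generalize Complex.I * t * P + P' = D at hd ⊢
      field_simp
    have hlim : Tendsto g atTop (𝓝 (((Complex.I * P * P') ^ (j + 1))⁻¹ * Q ℂ j 1)) := by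
      refine Tendsto.const_mul _ ?_
      have h1 : Tendsto (fun t : ℝ => Complex.I * t * P / (Complex.I * t * P + P')) atTop
          (𝓝 1) := by
        have h2 : Tendsto (fun t : ℝ => 1 - P' / (Complex.I * t * P + P')) atTop
            (𝓝 (1 - 0)) := by
          refine tendsto_const_nhds.sub ?_
          rw [tendsto_zero_iff_norm_tendsto_zero]
          simp only [norm_div]
          refine tendsto_const_nhds.div_atTop ?_
          have h3 : Tendsto (fun t : ℝ => (t * ‖P‖ + ‖P'‖) / 2) atTop atTop := by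
            refine Tendsto.atTop_div_const (by norm_num) ?_
            exact tendsto_atTop_add_const_right _ _ (tendsto_id.atTop_mul_const hp)
          refine tendsto_atTop_mono' _ ?_ h3
          filter_upwards [eventually_ge_atTop (0 : ℝ)] with t ht
          have h4 := normSq_lower h ht
          have h5 : 0 ≤ t * ‖P‖ + ‖P'‖ := by positivity
          have h6 := norm_nonneg (Complex.I * t * P + P')
          by_contra hcon
          push Not at hcon
          nlinarith
        rw [sub_zero] at h2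
        refine h2.congr' ?_
        filter_upwards [eventually_ge_atTop (0 : ℝ)] with t ht
        have hd := hden t ht
        field_simp
        ring
      exact (Q_deriv ℂ j 1).continuousAt.tendsto.comp h1
    rw [integral_Ioi_of_hasDerivAt_of_tendsto' hder hint hlim, Q_one_complex]
    simp only [hg, Complex.ofReal_zero, mul_zero, zero_mul, zero_add, zero_div, Q_zero, sub_zero]
    ring
  · calc ∫ t in Ioi (0 : ℝ), ‖((Complex.I * t * P + P') ^ (2 * (j + 1)))⁻¹ * (t : ℂ) ^ j‖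
        ≤ ∫ t in Ioi (0 : ℝ), 2 ^ (j + 1) *
          (((t * ‖P‖ + ‖P'‖) ^ (2 * (j + 1)))⁻¹ * t ^ j) :=
          integral_mono_ae hint.norm (hi.const_mul _) hae
      _ = _ := by
          rw [integral_const_mul, hv, norm_mul]
          ring

end LC

end Pool.Agent.Lib.MP_7c5fb9_nt
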