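import Mathlib
import Pool.Agent.Lib.MP_7c5fb9_nt.LC.St
import Pool.Agent.Lib.MP_7c08ba_nt.RZ.StA

set_option autoImplicit false

/-!
# Project LC, module Chi: the twisted sums of level `D n`
-/

namespace Pool.Agent.Lib.MP_7c5fb9_nt

namespace LC

open MeasureTheory UpperHalfPlane Set Pool.Agent.Lib.MP_7c08ba_nt.RZ
open scoped MatrixGroups ComplexConjugate

namespace ChiAux

theorem ee_add (a b : ℂ) : ee (a + b) = ee a * ee b := by
  unfold ee
  rw [← Complex.exp_add]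
  congr 1
  ring

theorem ee_mul_nat (a : ℂ) (m : ℕ) : ee (m * a) = ee a ^ m := by
  unfold ee
  rw [← Complex.exp_nat_mul]
  congr 1
  ring

theorem ee_int (n : ℤ) : ee n = 1 := by
  unfold ee
  rw [show 2 * (Real.pi : ℂ) * Complex.I * n = n * (2 * Real.pi * Complex.I) by ring]
  exact Complex.exp_int_mul_two_pi_mul_I n

theorem ee_eq_one {a : ℂ} (h : ee a = 1) : ∃ n : ℤ, a = n := by
  unfold ee at h
  obtain ⟨n, hn⟩ := Complex.exp_eq_one_iff.1 h
  refine ⟨n, ?_⟩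
  have h2 : (2 * Real.pi * Complex.I : ℂ) ≠ 0 := Complex.two_pi_I_ne_zero
  apply mul_left_cancel₀ h2
  rw [hn]
  ring

/-- splitting a range -/
theorem sum_range_mul (D n : ℕ) (φ : ℕ → ℂ) :
    ∑ C ∈ Finset.range (D * n), φ C =
      ∑ l ∈ Finset.range n, ∑ r ∈ Finset.range D, φ (D * l + r) := by
  induction n with
  | zero => simp
  | succ n ih =>
    rw [Finset.sum_range_succ, ← ih, Nat.mul_succ, Finset.sum_range_add]

/-- the exponential sum -/
theorem expsum {D : ℕ} {G : ℂ} (hD : Ok D) (hG : GS D G) {n : ℕ} (hn : 1 ≤ n) (N : ℕ) :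
    ∑ C ∈ Finset.range (D * n), (jacobiSym C D : ℂ) *
      ee ((N : ℂ) * ((C : ℂ) / ((D * n : ℕ) : ℂ))) =
      if n ∣ N then (n : ℂ) * (jacobiSym ((N / n : ℕ) : ℤ) D : ℂ) * G else 0 := by
  have hD0 : D ≠ 0 := by
    rintro rfl
    have := hD.mod
    omega
  have hDc : (D : ℂ) ≠ 0 := by exact_mod_cast hD0
  have hnc : (n : ℂ) ≠ 0 := by exact_mod_cast (by omega : n ≠ 0)
  rw [sum_range_mul]
  have h1 : ∀ l ∈ Finset.range n, ∑ r ∈ Finset.range D, (jacobiSym ((D * l + r : ℕ) : ℤ) D : ℂ) *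
      ee ((N : ℂ) * (((D * l + r : ℕ) : ℂ) / ((D * n : ℕ) : ℂ))) =
      ee ((N : ℂ) / n) ^ l * ∑ r ∈ Finset.range D, (jacobiSym (r : ℤ) D : ℂ) *
        ee ((N : ℂ) * ((r : ℂ) / ((D * n : ℕ) : ℂ))) := by
    intro l _
    rw [Finset.mul_sum]
    refine Finset.sum_congr rfl fun r _ => ?_
    have e1 : jacobiSym ((D * l + r : ℕ) : ℤ) D = jacobiSym (r : ℤ) D := by
      apply jacobiSym.mod_left'
      push_cast
      rw [Int.add_comm, Int.add_mul_emod_self_left]
    have e2 : (N : ℂ) * (((D * l + r : ℕ) : ℂ) / ((D * n : ℕ) : ℂ)) =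
        (l : ℂ) * ((N : ℂ) / n) + (N : ℂ) * ((r : ℂ) / ((D * n : ℕ) : ℂ)) := by
      push_cast
      field_simp
    rw [e1, e2, ee_add, ee_mul_nat]
    ring
  rw [Finset.sum_congr rfl h1, ← Finset.sum_mul]
  split_ifs with hd
  · obtain ⟨q, rfl⟩ := hd
    have e1 : ee (((n * q : ℕ) : ℂ) / n) = 1 := by
      have : ((n * q : ℕ) : ℂ) / n = ((q : ℤ) : ℂ) := by
        push_cast
        field_simp
      rw [this, ee_int]
    have e2 : ∑ r ∈ Finset.range D, (jacobiSym (r : ℤ) D : ℂ) *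
        ee (((n * q : ℕ) : ℂ) * ((r : ℂ) / ((D * n : ℕ) : ℂ))) =
        (jacobiSym (q : ℤ) D : ℂ) * G := by
      rw [← hG.eq (q : ℤ)]
      refine Finset.sum_congr rfl fun r _ => ?_
      congr 2
      push_cast
      field_simp
    rw [e1, e2, Nat.mul_div_cancel_left _ (by omega)]
    simp only [one_pow, Finset.sum_const, Finset.card_range, nsmul_eq_mul, mul_one]
    ring
  · have hne : ee ((N : ℂ) / n) ≠ 1 := by
      intro h
      obtain ⟨m, hm⟩ := ee_eq_one h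
      apply hd
      rw [div_eq_iff hnc] at hm
      have h2 : (N : ℤ) = m * n := by exact_mod_cast hm
      have h3 : (n : ℤ) ∣ (N : ℤ) := ⟨m, by rw [h2]; ring⟩
      exact_mod_cast h3
    have h0 : ∑ l ∈ Finset.range n, ee ((N : ℂ) / n) ^ l = 0 := by
      rw [geom_sum_eq hne, ← ee_mul_nat, mul_div_cancel₀ _ hnc]
      have : ee ((N : ℂ)) = 1 := by
        have := ee_int (N : ℤ)
        exact_mod_cast this
      rw [this, sub_self, zero_div]
    rw [h0, zero_mul]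

section

variable {w : ℕ} (f : CuspForm 𝒮ℒ (w : ℤ))

/-- the twisted sum of translates -/
noncomputable def Sn (D n : ℕ) (z : ℂ) : ℂ :=
  ∑ C ∈ Finset.range (D * n), (jacobiSym C D : ℂ) * f (ofComplex (z + (C : ℂ) / ((D * n : ℕ) : ℂ)))

/-- the Fourier expansion -/
theorem hasSum_f (h2 : StCoef) {z : ℂ} (hz : 0 < z.im) :
    HasSum (fun n : ℕ => coef f n * ee (n * z)) (f (ofComplex z)) := by
  obtain ⟨-, -, h, -, -⟩ := h2 w f
  obtain ⟨h3, h4⟩ := h z hz
  rw [h4]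
  exact h3.of_norm.hasSum

/-- the Fourier expansion of the twisted sum -/
theorem hasSum_Sn (h2 : StCoef) {D : ℕ} {G : ℂ} (hD : Ok D) (hG : GS D G) {n : ℕ} (hn : 1 ≤ n)
    {z : ℂ} (hz : 0 < z.im) :
    HasSum (fun N : ℕ => (n : ℂ) * (jacobiSym (N : ℤ) D : ℂ) * G * coef f (n * N) *
      ee ((n : ℂ) * N * z)) (Sn f D n z) := by
  have h3 : HasSum (fun N : ℕ => ∑ C ∈ Finset.range (D * n), (jacobiSym C D : ℂ) *
      (coef f N * ee (N * (z + (C : ℂ) / ((D * n : ℕ) : ℂ))))) (Sn f D n z) := by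
    refine hasSum_sum fun C _ => ?_
    refine HasSum.mul_left _ (hasSum_f f h2 ?_)
    have : ((C : ℂ) / ((D * n : ℕ) : ℂ)).im = 0 := by
      have h5 : (C : ℂ) / ((D * n : ℕ) : ℂ) = (((C : ℝ) / ((D * n : ℕ) : ℝ) : ℝ) : ℂ) := by
        push_cast
        rfl
      rw [h5, Complex.ofReal_im]
    rw [Complex.add_im, this, add_zero]
    exact hz
  have h4 : (fun N : ℕ => ∑ C ∈ Finset.range (D * n), (jacobiSym C D : ℂ) *
      (coef f N * ee (N * (z + (C : ℂ) / ((D * n : ℕ) : ℂ))))) =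
      fun N : ℕ => coef f N * ee (N * z) *
        (if n ∣ N then (n : ℂ) * (jacobiSym ((N / n : ℕ) : ℤ) D : ℂ) * G else 0) := by
    funext N
    rw [← expsum hD hG hn N, Finset.mul_sum]
    refine Finset.sum_congr rfl fun C _ => ?_
    rw [mul_add, ee_add]
    ring
  rw [h4] at h3
  have hinj : Function.Injective fun N : ℕ => n * N := fun a b h =>
    Nat.eq_of_mul_eq_mul_left (by omega) h
  rw [← hinj.hasSum_iff] at h3
  · have h5 : ((fun N : ℕ => coef f N * ee (N * z) *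
        (if n ∣ N then (n : ℂ) * (jacobiSym ((N / n : ℕ) : ℤ) D : ℂ) * G else 0)) ∘
        fun N : ℕ => n * N) = fun N : ℕ => (n : ℂ) * (jacobiSym (N : ℤ) D : ℂ) * G *
          coef f (n * N) * ee ((n : ℂ) * N * z) := by
      funext N
      simp only [Function.comp_apply]
      rw [if_pos (dvd_mul_right n N), Nat.mul_div_cancel_left _ (by omega)]
      push_cast
      ring
    rw [h5] at h3
    exact h3
  · intro N hN
    have : ¬ n ∣ N := by
      rintro ⟨q, rfl⟩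
      exact hN ⟨q, rfl⟩
    rw [if_neg this, mul_zero]

/-- inversion of the multiplication formula -/
theorem hecke_inv (he : IsEigen f) {n N : ℕ} (hn : 0 < n) (hN : 0 < N) :
    coef f (n * N) = ∑ d ∈ (n.gcd N).divisors, (ArithmeticFunction.moebius d : ℂ) *
      ((d : ℂ) ^ (w - 1) * coef f (n / d) * coef f (N / d)) := by
  set g := n.gcd N with hg
  have hg0 : 0 < g := Nat.gcd_pos_of_pos_left _ hn
  let H : ℕ → ℂ := fun c => (c : ℂ) ^ (w - 1) * coef f (n * N / c ^ 2)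
  let φ : ℕ → ℂ := fun j => H (g / j)
  let Γ : ℕ → ℂ := fun m => ∑ j ∈ m.divisors, φ j
  have h1 := (ArithmeticFunction.sum_eq_iff_sum_mul_moebius_eq (f := φ) (g := Γ)).1
    (fun m _ => rfl) g hg0
  have h2 : φ g = coef f (n * N) := by
    simp only [φ, H]
    rw [Nat.div_self hg0]
    simp
  rw [h2, Nat.sum_divisorsAntidiagonal (fun x y => ((ArithmeticFunction.moebius x : ℤ) : ℂ) * Γ y)]
    at h1
  rw [← h1]
  refine Finset.sum_congr rfl fun d hd => ?_
  congr 1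
  have hdg : d ∣ g := Nat.dvd_of_mem_divisors hd
  have hd0 : 0 < d := Nat.pos_of_dvd_of_pos hdg hg0
  obtain ⟨a, ha⟩ := hdg.trans (Nat.gcd_dvd_left n N)
  obtain ⟨b, hb⟩ := hdg.trans (Nat.gcd_dvd_right n N)
  have ha0 : 0 < a := Nat.pos_of_mul_pos_left (ha ▸ hn)
  have hb0 : 0 < b := Nat.pos_of_mul_pos_left (hb ▸ hN)
  have e1 : n / d = a := by rw [ha, Nat.mul_div_cancel_left _ hd0]
  have e2 : N / d = b := by rw [hb, Nat.mul_div_cancel_left _ hd0]
  have e3 : g / d = a.gcd b := by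
    rw [hg, ha, hb, Nat.gcd_mul_left, Nat.mul_div_cancel_left _ hd0]
  rw [e1, e2, mul_assoc, he.mul a b ha0 hb0, e3, Finset.mul_sum]
  simp only [Γ, φ, H]
  rw [← Nat.sum_div_divisors (a.gcd b) (fun e => (d : ℂ) ^ (w - 1) *
    ((e : ℂ) ^ (w - 1) * coef f (a * b / e ^ 2)))]
  refine Finset.sum_congr rfl fun j hj => ?_
  have hj' : j ∣ a.gcd b := Nat.dvd_of_mem_divisors hj
  obtain ⟨e, he'⟩ := hj'
  have hgab : 0 < a.gcd b := Nat.gcd_pos_of_pos_left _ ha0
  have hj0 : 0 < j := Nat.pos_of_mul_pos_right (he' ▸ hgab)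
  have hge : g = d * (j * e) := by rw [← he', ← e3, Nat.mul_div_cancel' hdg]
  have e4 : g / j = d * e := by
    rw [hge, show d * (j * e) = j * (d * e) by ring, Nat.mul_div_cancel_left _ hj0]
  have e5 : a.gcd b / j = e := by rw [he', Nat.mul_div_cancel_left _ hj0]
  have e6 : n * N / (d * e) ^ 2 = a * b / e ^ 2 := by
    rw [ha, hb, show d * a * (d * b) = d ^ 2 * (a * b) by ring, mul_pow,
      Nat.mul_div_mul_left _ _ (by positivity)]
  rw [e4, e5, e6]
  push_cast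
  ring

/-- the coefficients -/
theorem hecke_sum (he : IsEigen f) (h0 : coef f 0 = 0) {n : ℕ} (hn : 0 < n) (N : ℕ) :
    coef f (n * N) = ∑ d ∈ n.divisors, if d ∣ N then (ArithmeticFunction.moebius d : ℂ) *
      ((d : ℂ) ^ (w - 1) * coef f (n / d) * coef f (N / d)) else 0 := by
  rcases Nat.eq_zero_or_pos N with rfl | hN
  · rw [Nat.mul_zero, h0]
    symm
    refine Finset.sum_eq_zero fun d _ => ?_
    rw [Nat.zero_div, h0]
    simp
  · rw [hecke_inv f he hn hN, ← Finset.sum_filter]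
    refine Finset.sum_congr ?_ fun _ _ => rfl
    ext d
    simp only [Nat.mem_divisors, Finset.mem_filter]
    constructor
    · rintro ⟨h1, -⟩
      exact ⟨⟨h1.trans (Nat.gcd_dvd_left _ _), by omega⟩, h1.trans (Nat.gcd_dvd_right _ _)⟩
    · rintro ⟨⟨h1, -⟩, h2⟩
      exact ⟨Nat.dvd_gcd h1 h2, (Nat.gcd_pos_of_pos_left _ hn).ne'⟩

/-- the constants -/
noncomputable def cd (D n d : ℕ) : ℂ :=
  (n : ℂ) * (ArithmeticFunction.moebius d : ℂ) * (jacobiSym (d : ℤ) D : ℂ) * (d : ℂ) ^ (w - 1) *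
    coef f (n / d)

/-- the twisted sum of level `D n` in terms of the twisted sum of level `D` -/
theorem Sn_eq (h2 : StCoef) (he : IsEigen f) {D : ℕ} {G : ℂ} (hD : Ok D) (hG : GS D G) {n : ℕ}
    (hn : 1 ≤ n) {z : ℂ} (hz : 0 < z.im) :
    Sn f D n z = ∑ d ∈ n.divisors, cd f D n d * Sn f D 1 (((n * d : ℕ) : ℂ) * z) := by
  have h0 : coef f 0 = 0 := (h2 w f).1
  have h3 : HasSum (fun N : ℕ => ∑ d ∈ n.divisors, if d ∣ N then cd f D n d *
      ((1 : ℕ) * (jacobiSym ((N / d : ℕ) : ℤ) D : ℂ) * G * coef f (1 * (N / d)) *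
        ee (((1 : ℕ) : ℂ) * ((N / d : ℕ) : ℂ) * (((n * d : ℕ) : ℂ) * z))) else 0)
      (∑ d ∈ n.divisors, cd f D n d * Sn f D 1 (((n * d : ℕ) : ℂ) * z)) := by
    refine hasSum_sum fun d hd => ?_
    have hd0 : 0 < d := Nat.pos_of_mem_divisors hd
    have hnd : 0 < n * d := Nat.mul_pos hn hd0
    have him : 0 < (((n * d : ℕ) : ℂ) * z).im := by
      have : (((n * d : ℕ) : ℂ) * z).im = ((n * d : ℕ) : ℝ) * z.im := by
        rw [Complex.mul_im, Complex.natCast_re, Complex.natCast_im, zero_mul, add_zero]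
      rw [this]
      have : (0 : ℝ) < ((n * d : ℕ) : ℝ) := by exact_mod_cast hnd
      positivity
    have h4 := (hasSum_Sn f h2 hD hG le_rfl him).mul_left (cd f D n d)
    have hinj : Function.Injective fun N : ℕ => d * N := fun a b h =>
      Nat.eq_of_mul_eq_mul_left hd0 h
    rw [← hinj.hasSum_iff]
    · refine h4.congr_fun fun N => ?_
      simp only [Function.comp_apply]
      rw [if_pos (dvd_mul_right d N), Nat.mul_div_cancel_left _ hd0]
    · intro N hN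
      have : ¬ d ∣ N := by
        rintro ⟨q, rfl⟩
        exact hN ⟨q, rfl⟩
      rw [if_neg this]
  refine (hasSum_Sn f h2 hD hG hn hz).unique (h3.congr_fun fun N => ?_)
  rw [hecke_sum f he h0 hn N, Finset.mul_sum, Finset.sum_mul]
  refine Finset.sum_congr rfl fun d hd => ?_
  have hd0 : 0 < d := Nat.pos_of_mem_divisors hd
  split_ifs with hdN
  · obtain ⟨q, rfl⟩ := hdN
    rw [Nat.mul_div_cancel_left _ hd0, cd]
    have e1 : (jacobiSym ((d * q : ℕ) : ℤ) D : ℂ) =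
        (jacobiSym (d : ℤ) D : ℂ) * (jacobiSym (q : ℤ) D : ℂ) := by
      rw [Nat.cast_mul, jacobiSym.mul_left]
      push_cast
      rfl
    have e2 : (n : ℂ) * ((d * q : ℕ) : ℂ) * z =
        ((1 : ℕ) : ℂ) * (q : ℂ) * (((n * d : ℕ) : ℂ) * z) := by
      push_cast
      ring
    rw [e1, e2, one_mul]
    push_cast
    ring
  · rw [mul_zero, zero_mul]

/-- integrability of the twisted sums -/
theorem int_Sn (h1 : StDec) {D n : ℕ} (hDn : 1 ≤ D * n) (k : ℕ) :
    IntegrableOn (fun t : ℝ => Sn f D n (Complex.I * t) * (t : ℂ) ^ (k - 1)) (Ioi 0) ∧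
    ∫ t in Ioi (0 : ℝ), Sn f D n (Complex.I * t) * (t : ℂ) ^ (k - 1) =
      ∑ C ∈ Finset.range (D * n), (jacobiSym C D : ℂ) * Vt f k (D * n) C := by
  have h3 : ∀ C : ℕ, IntegrableOn (fun t : ℝ =>
      f (ofComplex (Complex.I * t + (C : ℂ) / ((D * n : ℕ) : ℂ))) * (t : ℂ) ^ (k - 1)) (Ioi 0) := by
    intro C
    have h4 := (h1 w f (D * n) (C : ℤ) hDn).2 ((k - 1 : ℕ) : ℂ)
    simp only [Complex.cpow_natCast, Int.cast_natCast] at h4
    exact h4
  have h4 : (fun t : ℝ => Sn f D n (Complex.I * t) * (t : ℂ) ^ (k - 1)) = fun t : ℝ =>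
      ∑ C ∈ Finset.range (D * n), (jacobiSym C D : ℂ) *
        (f (ofComplex (Complex.I * t + (C : ℂ) / ((D * n : ℕ) : ℂ))) * (t : ℂ) ^ (k - 1)) := by
    funext t
    rw [Sn, Finset.sum_mul]
    exact Finset.sum_congr rfl fun C _ => by ring
  rw [h4]
  refine ⟨integrable_finsetSum _ fun C _ => (h3 C).const_mul _, ?_⟩
  rw [integral_finsetSum _ fun C _ => (h3 C).const_mul _]
  refine Finset.sum_congr rfl fun C _ => ?_
  exact integral_const_mul _ _

/-- the scaled integral -/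
theorem int_scale {g : ℂ → ℂ} {k : ℕ} {b : ℕ} (hb : 0 < b)
    (hg : IntegrableOn (fun t : ℝ => g (Complex.I * t) * (t : ℂ) ^ (k - 1)) (Ioi 0)) :
    IntegrableOn (fun t : ℝ => g ((b : ℂ) * (Complex.I * t)) * (t : ℂ) ^ (k - 1)) (Ioi 0) ∧
    ∫ t in Ioi (0 : ℝ), g ((b : ℂ) * (Complex.I * t)) * (t : ℂ) ^ (k - 1) =
      ((b : ℂ) ^ (k - 1))⁻¹ * ((b : ℂ)⁻¹ *
        ∫ t in Ioi (0 : ℝ), g (Complex.I * t) * (t : ℂ) ^ (k - 1)) := by
  have hb' : (0 : ℝ) < b := by exact_mod_cast hb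
  have hbc : (b : ℂ) ≠ 0 := by exact_mod_cast hb.ne'
  set G : ℝ → ℂ := fun t : ℝ => g (Complex.I * t) * (t : ℂ) ^ (k - 1) with hG
  have h1 : (fun t : ℝ => g ((b : ℂ) * (Complex.I * t)) * (t : ℂ) ^ (k - 1)) =
      fun t : ℝ => ((b : ℂ) ^ (k - 1))⁻¹ * G ((b : ℝ) * t) := by
    funext t
    simp only [hG]
    have e1 : (b : ℂ) * (Complex.I * t) = Complex.I * (((b : ℝ) * t : ℝ) : ℂ) := by
      push_cast
      ring
    rw [e1]
    have e2 : ((((b : ℝ) * t : ℝ) : ℂ)) ^ (k - 1) = (b : ℂ) ^ (k - 1) * (t : ℂ) ^ (k - 1) := by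
      push_cast
      rw [mul_pow]
    rw [e2]
    have e3 : (b : ℂ) ^ (k - 1) ≠ 0 := pow_ne_zero _ hbc
    field_simp
  rw [h1]
  constructor
  · refine Integrable.const_mul ?_ _
    have h2 := (integrableOn_Ioi_comp_mul_left_iff G 0 hb').2 (by rwa [mul_zero])
    exact h2
  · rw [integral_const_mul, integral_comp_mul_left_Ioi G 0 hb', mul_zero]
    congr 1
    rw [Complex.real_smul]
    push_cast
    rfl

end

end ChiAux

open ChiAux

/-- Module Chi. -/
theorem stChi (h1 : StDec) (h2 : StCoef) : StChi := by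
  intro k w D n f G hw hk he hD hG hn hL
  have hD1 : 1 ≤ D := by
    have := hD.mod
    omega
  obtain ⟨h3, h4⟩ := int_Sn f h1 (D := D) (n := 1) (by omega) k
  have h5 : ∫ t in Ioi (0 : ℝ), Sn f D 1 (Complex.I * t) * (t : ℂ) ^ (k - 1) = 0 := by
    rw [h4, Nat.mul_one]
    exact hL
  obtain ⟨-, h6⟩ := int_Sn f h1 (D := D) (n := n) (Nat.mul_pos hD1 hn) k
  rw [← h6]
  have h7 : ∫ t in Ioi (0 : ℝ), Sn f D n (Complex.I * t) * (t : ℂ) ^ (k - 1) =
      ∫ t in Ioi (0 : ℝ), ∑ d ∈ n.divisors, cd f D n d *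
        (Sn f D 1 (((n * d : ℕ) : ℂ) * (Complex.I * t)) * (t : ℂ) ^ (k - 1)) := by
    refine setIntegral_congr_fun measurableSet_Ioi fun t ht => ?_
    have him : 0 < (Complex.I * (t : ℂ)).im := by
      rw [Complex.I_mul_im, Complex.ofReal_re]
      exact ht
    rw [Sn_eq f h2 he hD hG hn him, Finset.sum_mul]
    exact Finset.sum_congr rfl fun d _ => by ring
  rw [h7, integral_finsetSum]
  · refine Finset.sum_eq_zero fun d hd => ?_
    have hd0 : 0 < d := Nat.pos_of_mem_divisors hd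
    rw [integral_const_mul, (int_scale (Nat.mul_pos hn hd0) h3).2, h5]
    ring
  · intro d hd
    have hd0 : 0 < d := Nat.pos_of_mem_divisors hd
    exact (int_scale (Nat.mul_pos hn hd0) h3).1.const_mul _

end LC

end Pool.Agent.Lib.MP_7c5fb9_nt
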