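import Mathlib
import Pool.Agent.Lib.MP_7c5fb9_nt.LC.St

set_option autoImplicit false

/-!
Project LC: the coefficients of index `D n^2` of the Poincaré series, rearranged.
-/

namespace Pool.Agent.Lib.MP_7c5fb9_nt

namespace LC

open MeasureTheory UpperHalfPlane Set Pool.Agent.Lib.MP_7c08ba_nt.RZ

namespace CmAux

/-! ### bounds -/

lemma norm_ee_real (x : ℝ) : ‖ee x‖ = 1 := by
  unfold ee
  rw [show 2 * (Real.pi : ℂ) * Complex.I * (x : ℂ) = ((2 * Real.pi * x : ℝ) : ℂ) * Complex.I by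
    push_cast; ring]
  exact Complex.norm_exp_ofReal_mul_I _

lemma norm_jac (a : ℤ) (D : ℕ) : ‖(jacobiSym a D : ℂ)‖ ≤ 1 := by
  rcases jacobiSym.trichotomy a D with h | h | h <;> rw [h] <;> simp

lemma AA_bound (D g n m : ℕ) : ‖AA D g n m‖ ≤ g := by
  unfold AA
  refine (norm_sum_le _ _).trans ?_
  have h : ∀ j ∈ Finset.range g, ‖(if (g : ℤ) ∣ tj D m j then
      (jacobiSym (tj D m j / g) D : ℂ) * ee (-((n : ℂ) * (jj m j : ℤ)) / (2 * g)) else 0 : ℂ)‖ ≤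
      1 := by
    intro j _
    split_ifs
    · rw [norm_mul]
      have e : -((n : ℂ) * (jj m j : ℤ)) / (2 * g) =
          ((-((n : ℝ) * (jj m j : ℤ)) / (2 * g) : ℝ) : ℂ) := by push_cast; ring
      rw [e, norm_ee_real, mul_one]
      exact norm_jac _ _
    · simp
  refine (Finset.sum_le_sum h).trans ?_
  simp

lemma Gamma_ge (k i : ℕ) (hk : 6 ≤ k) : 1 ≤ Real.Gamma (k + 1 / 2 + i) := by
  have hk' : (6 : ℝ) ≤ k := by exact_mod_cast hk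
  have hi : (0 : ℝ) ≤ i := Nat.cast_nonneg i
  have h := Real.Gamma_strictMonoOn_Ici.monotoneOn (show (2 : ℝ) ∈ Ici (2 : ℝ) from Set.mem_Ici.mpr le_rfl)
    (show (k + 1 / 2 + i : ℝ) ∈ Ici 2 by rw [mem_Ici]; linarith) (by linarith)
  rwa [Real.Gamma_two] at h

lemma Phk_bound (k : ℕ) (hk : 6 ≤ k) (X : ℝ) :
    ‖Phk k X‖ ≤ Real.exp (4 * Real.pi ^ 2 * |X|) := by
  unfold Phk
  have h := NormedSpace.expSeries_div_hasSum_exp (𝔸 := ℝ) (4 * Real.pi ^ 2 * |X|)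
  rw [← Real.exp_eq_exp_ℝ] at h
  refine tsum_of_norm_bounded h fun i => ?_
  have hG := Gamma_ge k i hk
  have hf : (0 : ℝ) < i.factorial := by exact_mod_cast i.factorial_pos
  have e1 : ‖(-(4 * Real.pi ^ 2 * X)) ^ i‖ = (4 * Real.pi ^ 2 * |X|) ^ i := by
    rw [norm_pow, norm_neg, Real.norm_eq_abs, abs_mul,
      abs_of_nonneg (by positivity : (0 : ℝ) ≤ 4 * Real.pi ^ 2)]
  have hG0 : 0 < Real.Gamma (k + 1 / 2 + i) := lt_of_lt_of_le one_pos hG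
  have e2 : ‖(i.factorial : ℝ) * Real.Gamma (k + 1 / 2 + i)‖ =
      (i.factorial : ℝ) * Real.Gamma (k + 1 / 2 + i) := by
    rw [Real.norm_eq_abs, abs_of_pos (mul_pos hf hG0)]
  rw [norm_div, e1, e2]
  refine div_le_div_of_nonneg_left (by positivity) hf ?_
  exact le_mul_of_one_le_right hf.le hG

/-! ### constants -/

lemma const_id (D k : ℕ) (hD : 1 ≤ D) :
    Real.sqrt (D / 2) * (((D : ℝ) ^ (k + 1))⁻¹ * ((2 * Real.pi) ^ ((k : ℝ) + 1 / 2) *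
      ((D : ℝ) / 4) ^ ((k : ℝ) - 1 / 2))) =
    1 / D * 2 * (Real.pi / 2) ^ k * Real.sqrt Real.pi := by
  have hD0 : (0 : ℝ) < D := by exact_mod_cast hD
  have hpi := Real.pi_pos
  have e1 : (2 * Real.pi) ^ ((k : ℝ) + 1 / 2) =
      (2 * Real.pi) ^ k * (Real.sqrt 2 * Real.sqrt Real.pi) := by
    rw [Real.rpow_add (by positivity), Real.rpow_natCast, ← Real.sqrt_eq_rpow,
      Real.sqrt_mul (by norm_num)]
  have e2 : ((D : ℝ) / 4) ^ ((k : ℝ) - 1 / 2) = ((D : ℝ) / 4) ^ k * (2 / Real.sqrt D) := by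
    rw [Real.rpow_sub (by positivity), Real.rpow_natCast, ← Real.sqrt_eq_rpow,
      Real.sqrt_div hD0.le, show (4 : ℝ) = 2 ^ 2 by norm_num, Real.sqrt_sq (by norm_num)]
    rw [div_div_eq_mul_div, mul_div_assoc]
  have e3 : Real.sqrt ((D : ℝ) / 2) = Real.sqrt D / Real.sqrt 2 := Real.sqrt_div hD0.le 2
  have hs2 : Real.sqrt 2 ≠ 0 := by positivity
  have hsD : Real.sqrt (D : ℝ) ≠ 0 := by positivity
  rw [e1, e2, e3, mul_pow, div_pow, div_pow, show (4 : ℝ) = 2 * 2 by norm_num, mul_pow, pow_succ]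
  field_simp

lemma rpow_sq (D k n : ℕ) (hD : 1 ≤ D) (hk : 1 ≤ k) :
    ((D : ℝ) * n ^ 2 / 4) ^ ((k : ℝ) - 1 / 2) =
      ((D : ℝ) / 4) ^ ((k : ℝ) - 1 / 2) * (n : ℝ) ^ (2 * k - 1) := by
  have hD0 : (0 : ℝ) < D := by exact_mod_cast hD
  have e : (D : ℝ) * n ^ 2 / 4 = D / 4 * (n : ℝ) ^ 2 := by ring
  rw [e, Real.mul_rpow (by positivity) (by positivity)]
  congr 1
  rw [← Real.rpow_natCast (n : ℝ) 2, ← Real.rpow_mul (Nat.cast_nonneg n),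
    ← Real.rpow_natCast (n : ℝ) (2 * k - 1)]
  congr 1
  rw [Nat.cast_sub (by omega)]
  push_cast
  ring

/-! ### the terms -/

/-- The constant of the rearranged series. -/
noncomputable def kap (D k : ℕ) (G : ℂ) : ℂ :=
  G * (((D : ℝ) ^ (k + 1))⁻¹ * ((2 * Real.pi) ^ ((k : ℝ) + 1 / 2) *
      ((D : ℝ) / 4) ^ ((k : ℝ) - 1 / 2)) : ℝ)

lemma kap_c2 (D k : ℕ) (G : ℂ) (hD : 1 ≤ D) :
    (-1) ^ (k / 2) * (Real.sqrt (D / 2) : ℂ) * kap D k G = c2 D k G := by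
  have h := const_id D k hD
  have h' : (Real.sqrt (D / 2) : ℂ) * ((((D : ℝ) ^ (k + 1))⁻¹ *
      ((2 * Real.pi) ^ ((k : ℝ) + 1 / 2) * ((D : ℝ) / 4) ^ ((k : ℝ) - 1 / 2)) : ℝ) : ℂ) =
      1 / D * 2 * (Real.pi / 2) ^ k * Real.sqrt Real.pi := by
    rw [← Complex.ofReal_mul, h]
    push_cast
    ring
  unfold kap c2
  calc (-1) ^ (k / 2) * (Real.sqrt (D / 2) : ℂ) * (G * ((((D : ℝ) ^ (k + 1))⁻¹ *
      ((2 * Real.pi) ^ ((k : ℝ) + 1 / 2) * ((D : ℝ) / 4) ^ ((k : ℝ) - 1 / 2)) : ℝ) : ℂ))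
      = (-1) ^ (k / 2) * G * ((Real.sqrt (D / 2) : ℂ) * ((((D : ℝ) ^ (k + 1))⁻¹ *
      ((2 * Real.pi) ^ ((k : ℝ) + 1 / 2) * ((D : ℝ) / 4) ^ ((k : ℝ) - 1 / 2)) : ℝ) : ℂ)) := by
        ring
    _ = _ := by rw [h']; ring

/-- The terms of the inner series. -/
noncomputable def tS (D k m n' g : ℕ) : ℂ :=
  (((g : ℂ)) ^ k)⁻¹ * AA D g n' m * (Phk k (m * n' ^ 2 / (16 * D * (g : ℝ) ^ 2)) : ℝ)

/-- The coefficient of the inner series. -/
noncomputable def cS (D k n h : ℕ) (G : ℂ) : ℂ :=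
  kap D k G * ((ArithmeticFunction.moebius h : ℂ) * (jacobiSym h D : ℂ) * (h : ℂ) ^ (k - 1) *
    ((n / h : ℕ) : ℂ) ^ (2 * k - 1))

/-- The terms, extended by zero. -/
noncomputable def tF (D k m n : ℕ) (G : ℂ) (h c : ℕ) : ℂ :=
  if h ∣ c then cS D k n h G * tS D k m (n / h) (c / h) else 0

lemma Hk_id (D k m h g n' : ℕ) (hD : 1 ≤ D) (hk : 1 ≤ k) (hh : 1 ≤ h) (hg : 1 ≤ g) :
    Hk k (m / (4 * (D * ((h * g : ℕ) : ℝ)) ^ 2)) (D * ((h * n' : ℕ) : ℝ) ^ 2 / 4) =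
      (2 * Real.pi) ^ ((k : ℝ) + 1 / 2) * (((D : ℝ) / 4) ^ ((k : ℝ) - 1 / 2) *
        ((h * n' : ℕ) : ℝ) ^ (2 * k - 1)) *
        Phk k (m * n' ^ 2 / (16 * D * (g : ℝ) ^ 2)) := by
  unfold Hk
  rw [rpow_sq D k (h * n') hD hk]
  congr 2
  have hD0 : (D : ℝ) ≠ 0 := by exact_mod_cast (by omega : D ≠ 0)
  have hh0 : (h : ℝ) ≠ 0 := by exact_mod_cast (by omega : h ≠ 0)
  have hg0 : (g : ℝ) ≠ 0 := by exact_mod_cast (by omega : g ≠ 0)
  push_cast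
  field_simp
  ring

lemma term_id (D k m n : ℕ) (G : ℂ) (c : ℕ) (hK : StKS) (hO : Ok D) (hG : GS D G)
    (hA : Adm m) (hD : 1 ≤ D) (hk : 1 ≤ k) (hn : 1 ≤ n) (hc : 1 ≤ c) :
    (((D : ℂ) * c) ^ (k + 1))⁻¹ * KS D c n m *
      (Hk k (m / (4 * (D * (c : ℝ)) ^ 2)) (D * (n : ℝ) ^ 2 / 4) : ℝ) =
    ∑ h ∈ n.divisors, tF D k m n G h c := by
  rw [hK D G c n m hO hG hc hn hA]
  have hsub : (c.gcd n).divisors ⊆ n.divisors :=
    Nat.divisors_subset_of_dvd (by omega) (Nat.gcd_dvd_right c n)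
  rw [← Finset.sum_subset hsub (fun h hh hh' => by
    unfold tF
    rw [if_neg]
    intro hc'
    refine hh' (Nat.mem_divisors.mpr ⟨Nat.dvd_gcd hc' (Nat.mem_divisors.mp hh).1, ?_⟩)
    exact Nat.gcd_ne_zero_right (by omega))]
  rw [Finset.mul_sum, Finset.mul_sum, Finset.sum_mul]
  refine Finset.sum_congr rfl fun h hh => ?_
  have hd := (Nat.mem_divisors.mp hh).1
  obtain ⟨g, hg⟩ := hd.trans (Nat.gcd_dvd_left c n)
  obtain ⟨n', hn'⟩ := hd.trans (Nat.gcd_dvd_right c n)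
  subst hg
  subst hn'
  have hh1 : 1 ≤ h := Nat.pos_of_ne_zero (by rintro rfl; simp at hc)
  have hg1 : 1 ≤ g := Nat.pos_of_ne_zero (by rintro rfl; simp at hc)
  unfold tF
  rw [if_pos (Dvd.intro g rfl), Nat.mul_div_cancel_left g hh1, Nat.mul_div_cancel_left n' hh1,
    Hk_id D k m h g n' hD hk hh1 hg1]
  unfold cS tS kap
  rw [Nat.mul_div_cancel_left n' hh1]
  have hD0 : (D : ℂ) ≠ 0 := by exact_mod_cast (by omega : D ≠ 0)
  have hh0 : (h : ℂ) ≠ 0 := by exact_mod_cast (by omega : h ≠ 0)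
  have hg0 : (g : ℂ) ≠ 0 := by exact_mod_cast (by omega : g ≠ 0)
  obtain ⟨q, rfl⟩ : ∃ q, k = q + 1 := ⟨k - 1, by omega⟩
  have e1 : 2 * (q + 1) - 1 = 2 * q + 1 := by omega
  have e2 : q + 1 - 1 = q := by omega
  rw [e1, e2]
  push_cast
  have e3 : (h : ℂ) ^ (2 * q + 1) = (h : ℂ) ^ q * (h : ℂ) ^ (q + 1) := by
    rw [← pow_add]; congr 1; omega
  have e4 : (((D : ℂ) * ((h : ℂ) * g)) ^ (q + 1 + 1))⁻¹ =
      ((D : ℂ) ^ (q + 1 + 1))⁻¹ * ((h : ℂ) ^ (q + 1))⁻¹ * (h : ℂ)⁻¹ * ((g : ℂ) ^ (q + 1))⁻¹ *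
        (g : ℂ)⁻¹ := by
    rw [mul_pow, mul_pow, mul_inv, mul_inv, pow_succ (h : ℂ) (q + 1), pow_succ (g : ℂ) (q + 1),
      mul_inv, mul_inv]
    ring
  have e5 : (h : ℂ)⁻¹ * h = 1 := inv_mul_cancel₀ hh0
  have e6 : (g : ℂ)⁻¹ * g = 1 := inv_mul_cancel₀ hg0
  have e7 : ((h : ℂ) ^ (q + 1))⁻¹ * (h : ℂ) ^ (q + 1) = 1 :=
    inv_mul_cancel₀ (pow_ne_zero _ hh0)
  rw [e4, mul_pow (h : ℂ), e3]
  generalize AA D g n' m = a
  generalize ((Phk (q + 1) (m * n' ^ 2 / (16 * D * (g : ℝ) ^ 2)) : ℝ) : ℂ) = b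
  generalize ((((2 : ℝ) * Real.pi) ^ (((q : ℝ) + 1) + 1 / 2) : ℝ) : ℂ) = u
  generalize ((((D : ℝ) / 4) ^ (((q : ℝ) + 1) - 1 / 2) : ℝ) : ℂ) = v
  generalize (ArithmeticFunction.moebius h : ℂ) = μ
  generalize (jacobiSym h D : ℂ) = χ
  generalize ((D : ℂ) ^ (q + 1 + 1))⁻¹ = w
  generalize ((g : ℂ) ^ (q + 1))⁻¹ = y
  generalize ((h : ℂ) ^ (q + 1))⁻¹ = z at e7 ⊢
  generalize (h : ℂ) ^ (q + 1) = z' at e7 ⊢
  generalize (h : ℂ) ^ q = x
  generalize (h : ℂ)⁻¹ = hi at e5 ⊢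
  generalize (g : ℂ)⁻¹ = gi at e6 ⊢
  generalize (n' : ℂ) ^ (2 * q + 1) = s
  calc w * z * hi * y * gi * (G * (h * g) * (μ * χ * a)) * (u * (v * (x * z' * s)) * b)
      = (hi * h) * (gi * g) * (z * z') * (G * (w * (u * v)) * (μ * χ * x * s) * (y * a * b)) := by
        ring
    _ = _ := by rw [e5, e6, e7]; ring

/-! ### summability -/

lemma tS_summable (D k m n' : ℕ) (hD : 1 ≤ D) (hk : 6 ≤ k) :
    Summable fun g : ℕ => tS D k m n' (g + 1) := by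
  set B : ℝ := Real.exp (4 * Real.pi ^ 2 * ((m : ℝ) * n' ^ 2)) with hB
  have h1 : Summable fun g : ℕ => B * (1 / ((g : ℝ) + 1) ^ 2) := by
    refine Summable.mul_left _ ?_
    have := (summable_nat_add_iff 1).mpr (Real.summable_one_div_nat_pow.mpr (by norm_num :
      1 < 2))
    simpa using this
  refine Summable.of_norm_bounded h1 fun g => ?_
  unfold tS
  have hg : (1 : ℝ) ≤ (g : ℝ) + 1 := by
    have : (0 : ℝ) ≤ g := Nat.cast_nonneg g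
    linarith
  have hg0 : (0 : ℝ) < (g : ℝ) + 1 := by linarith
  have hD1 : (1 : ℝ) ≤ D := by exact_mod_cast hD
  have a1 : ‖AA D (g + 1) n' m‖ ≤ (g : ℝ) + 1 := by
    have := AA_bound D (g + 1) n' m
    push_cast at this
    exact this
  have a2 : ‖((Phk k (m * n' ^ 2 / (16 * D * ((g + 1 : ℕ) : ℝ) ^ 2)) : ℝ) : ℂ)‖ ≤ B := by
    rw [Complex.norm_real]
    refine (Phk_bound k hk _).trans ?_
    rw [hB]
    apply Real.exp_le_exp.mpr
    refine mul_le_mul_of_nonneg_left ?_ (by positivity)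
    rw [abs_of_nonneg (by positivity)]
    refine div_le_self (by positivity) ?_
    push_cast
    have : (1 : ℝ) ≤ ((g : ℝ) + 1) ^ 2 := one_le_pow₀ hg
    calc (1 : ℝ) = 1 * 1 * 1 := by norm_num
      _ ≤ 16 * D * ((g : ℝ) + 1) ^ 2 := by gcongr; norm_num
  have a3 : ‖((((g + 1 : ℕ) : ℂ)) ^ k)⁻¹‖ = (((g : ℝ) + 1) ^ k)⁻¹ := by
    rw [norm_inv, norm_pow]
    congr 2
    rw [Complex.norm_natCast]
    push_cast
    ring
  rw [norm_mul, norm_mul, a3]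
  have a4 : (((g : ℝ) + 1) ^ k)⁻¹ * ((g : ℝ) + 1) ≤ 1 / ((g : ℝ) + 1) ^ 2 := by
    rw [inv_mul_eq_div, div_le_div_iff₀ (by positivity) (by positivity), one_mul, ← pow_succ']
    exact pow_le_pow_right₀ hg (by omega)
  calc (((g : ℝ) + 1) ^ k)⁻¹ * ‖AA D (g + 1) n' m‖ *
      ‖((Phk k (m * n' ^ 2 / (16 * D * ((g + 1 : ℕ) : ℝ) ^ 2)) : ℝ) : ℂ)‖
      ≤ (((g : ℝ) + 1) ^ k)⁻¹ * ((g : ℝ) + 1) * B := by gcongr
    _ ≤ 1 / ((g : ℝ) + 1) ^ 2 * B := by gcongr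
    _ = _ := by ring

/-- The embedding of the multiples. -/
def emb (h g : ℕ) : ℕ := h * (g + 1) - 1

lemma emb_inj (h : ℕ) (hh : 1 ≤ h) : Function.Injective (emb h) := by
  intro a b hab
  unfold emb at hab
  have h1 : 1 ≤ h * (a + 1) := Nat.mul_pos hh (Nat.succ_pos a)
  have h2 : 1 ≤ h * (b + 1) := Nat.mul_pos hh (Nat.succ_pos b)
  have h3 : h * (a + 1) = h * (b + 1) := by omega
  have := Nat.eq_of_mul_eq_mul_left hh h3
  omega

lemma emb_add (h g : ℕ) (hh : 1 ≤ h) : emb h g + 1 = h * (g + 1) := by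
  unfold emb
  have h1 : 1 ≤ h * (g + 1) := Nat.mul_pos hh (Nat.succ_pos g)
  omega

lemma tF_emb (D k m n : ℕ) (G : ℂ) (h g : ℕ) (hh : 1 ≤ h) :
    tF D k m n G h (emb h g + 1) = cS D k n h G * tS D k m (n / h) (g + 1) := by
  unfold tF
  rw [emb_add h g hh, if_pos (Dvd.intro _ rfl), Nat.mul_div_cancel_left _ hh]

lemma tF_zero (D k m n : ℕ) (G : ℂ) (h c : ℕ) (hc : c ∉ Set.range (emb h)) :
    tF D k m n G h (c + 1) = 0 := by
  unfold tF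
  rw [if_neg]
  rintro ⟨g, hg⟩
  apply hc
  have hg0 : g ≠ 0 := by rintro rfl; simp at hg
  refine ⟨g - 1, ?_⟩
  unfold emb
  rw [Nat.sub_add_cancel (Nat.pos_of_ne_zero hg0), ← hg]
  rfl

lemma tF_summable (D k m n : ℕ) (G : ℂ) (h : ℕ) (hD : 1 ≤ D) (hk : 6 ≤ k) (hh : 1 ≤ h) :
    Summable fun c : ℕ => tF D k m n G h (c + 1) := by
  rw [← (emb_inj h hh).summable_iff (fun c hc => tF_zero D k m n G h c hc)]
  have e : ((fun c : ℕ => tF D k m n G h (c + 1)) ∘ emb h) =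
      fun g => cS D k n h G * tS D k m (n / h) (g + 1) := by
    funext g
    exact tF_emb D k m n G h g hh
  rw [e]
  exact (tS_summable D k m (n / h) hD hk).mul_left _

lemma tF_tsum (D k m n : ℕ) (G : ℂ) (h : ℕ) (hh : 1 ≤ h) :
    ∑' c : ℕ, tF D k m n G h (c + 1) =
      cS D k n h G * ∑' g : ℕ, tS D k m (n / h) (g + 1) := by
  have h1 := (emb_inj h hh).tsum_eq (f := fun c : ℕ => tF D k m n G h (c + 1)) (by
    intro c hc
    by_contra hne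
    exact hc (tF_zero D k m n G h c hne))
  rw [← h1, ← tsum_mul_left]
  exact tsum_congr fun g => tF_emb D k m n G h g hh

lemma bn_eq (D k m n' : ℕ) :
    bn D k m n' = (n' : ℂ) ^ (2 * k - 1) * ∑' g : ℕ, tS D k m n' (g + 1) := by
  unfold bn tS
  congr 1
  refine tsum_congr fun g => ?_
  push_cast
  rfl

end CmAux

open CmAux in
/-- (Cm) the coefficients of index `D n^2` of the Poincaré series -/
theorem stCm (h1 : StPF) (h2 : StKS) : StCm := by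
  intro D k m n G y hO hG hk hev hA hm hn hy
  have hD : 1 ≤ D := by
    have := hO.mod
    omega
  have hk1 : 1 ≤ k := by omega
  obtain ⟨-, hI⟩ := h1 D k m n y hO hk hev hA hm hn hy
  rw [hI]
  unfold cm
  congr 1
  have hT : ∀ c : ℕ, (((D : ℂ) * (c + 1)) ^ (k + 1))⁻¹ * KS D (c + 1) n m *
      (Hk k (m / (4 * (D * (c + 1)) ^ 2)) (D * n ^ 2 / 4) : ℝ) =
      ∑ h ∈ n.divisors, tF D k m n G h (c + 1) := by
    intro c
    have := term_id D k m n G (c + 1) h2 hO hG hA hD hk1 hn (by omega)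
    push_cast at this
    exact this
  rw [tsum_congr hT, Summable.tsum_finsetSum (fun h hh =>
    tF_summable D k m n G h hD hk (Nat.pos_of_mem_divisors hh)), ← kap_c2 D k G hD,
    Finset.mul_sum, Finset.mul_sum]
  refine Finset.sum_congr rfl fun h hh => ?_
  rw [tF_tsum D k m n G h (Nat.pos_of_mem_divisors hh), bn_eq]
  unfold cS
  ring

end LC

end Pool.Agent.Lib.MP_7c5fb9_nt
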