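import Mathlib
import Pool.Agent.Lib.MP_7c5fb9_nt.LC.St

set_option autoImplicit false

/-!
Project LC, module Cos: integral matrices of determinant `m` are products of elements of
`SL(2, ℤ)` and triangular matrices.
-/

namespace Pool.Agent.Lib.MP_7c5fb9_nt

namespace LC

open MeasureTheory UpperHalfPlane Set Pool.Agent.Lib.MP_7c08ba_nt.RZ
open LO (Mat disc act mir qv mb cyc Fund eps aut FormOf torPer NonVan)
open scoped MatrixGroups ComplexConjugate nonZeroDivisors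

namespace CosAux

theorem mem_UP {m : ℕ} {p : ℕ × ℕ} : p ∈ UP m ↔ p.1 ∣ m ∧ 0 < m ∧ p.2 < m ∧ p.2 < p.1 := by
  unfold UP
  rw [Finset.mem_filter, Finset.mem_product, Nat.mem_divisors, Finset.mem_range]
  constructor
  · rintro ⟨⟨⟨h1, h2⟩, h3⟩, h4⟩
    exact ⟨h1, Nat.pos_of_ne_zero h2, h3, h4⟩
  · rintro ⟨h1, h2, h3, h4⟩
    exact ⟨⟨⟨h1, h2.ne'⟩, h3⟩, h4⟩

theorem det_sm (g : SL(2, ℤ)) : (sm g) 0 0 * (sm g) 1 1 - (sm g) 0 1 * (sm g) 1 0 = 1 := by
  have h := g.2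
  rw [Matrix.det_fin_two] at h
  exact h

theorem e00 (m : ℕ) (g : SL(2, ℤ)) (p : ℕ × ℕ) :
    (sm g * um m p) 0 0 = sm g 0 0 * (m / p.1 : ℕ) := by
  simp [Matrix.mul_apply, Fin.sum_univ_two, um]

theorem e10 (m : ℕ) (g : SL(2, ℤ)) (p : ℕ × ℕ) :
    (sm g * um m p) 1 0 = sm g 1 0 * (m / p.1 : ℕ) := by
  simp [Matrix.mul_apply, Fin.sum_univ_two, um]

theorem e01 (m : ℕ) (g : SL(2, ℤ)) (p : ℕ × ℕ) :
    (sm g * um m p) 0 1 = sm g 0 0 * p.2 + sm g 0 1 * p.1 := by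
  simp [Matrix.mul_apply, Fin.sum_univ_two, um]

theorem e11 (m : ℕ) (g : SL(2, ℤ)) (p : ℕ × ℕ) :
    (sm g * um m p) 1 1 = sm g 1 0 * p.2 + sm g 1 1 * p.1 := by
  simp [Matrix.mul_apply, Fin.sum_univ_two, um]

theorem det_eq {m : ℕ} (g : SL(2, ℤ)) {p : ℕ × ℕ} (hp : p.1 ∣ m) :
    (sm g * um m p).det = m := by
  rw [Matrix.det_fin_two, e00, e10, e01, e11]
  have h1 : ((m / p.1 : ℕ) : ℤ) * p.1 = m := by exact_mod_cast Nat.div_mul_cancel hp
  have h2 := det_sm g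
  linear_combination (((m / p.1 : ℕ) : ℤ) * p.1) * h2 + h1

theorem eq_of_lt {x y n : ℕ} (hx : x < n) (hy : y < n) (h : (n : ℤ) ∣ (y : ℤ) - x) : x = y := by
  have h2 : (y : ℤ) % n = (x : ℤ) % n :=
    Int.emod_eq_emod_iff_emod_sub_eq_zero.2 (Int.emod_eq_zero_of_dvd h)
  rw [Int.emod_eq_of_lt (by omega) (by omega), Int.emod_eq_of_lt (by omega) (by omega)] at h2
  omega

theorem dvd_of {e e' x z x' z' w y : ℤ} (h : x * w - y * z = 1) (h1 : x * e = x' * e')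
    (h2 : z * e = z' * e') : e' ∣ e :=
  ⟨x' * w - y * z', by linear_combination (-e) * h + w * h1 - y * h2⟩

theorem inj {m : ℕ} {g g' : SL(2, ℤ)} {p p' : ℕ × ℕ} (hp : p ∈ UP m) (hp' : p' ∈ UP m)
    (h : sm g * um m p = sm g' * um m p') : p = p' ∧ g = g' := by
  obtain ⟨hd, hm, -, hb⟩ := mem_UP.1 hp
  obtain ⟨hd', -, -, hb'⟩ := mem_UP.1 hp'
  have h00 := congrFun (congrFun h 0) 0
  have h10 := congrFun (congrFun h 1) 0
  have h01 := congrFun (congrFun h 0) 1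
  have h11 := congrFun (congrFun h 1) 1
  rw [e00, e00] at h00
  rw [e10, e10] at h10
  rw [e01, e01] at h01
  rw [e11, e11] at h11
  have z1 := det_sm g
  have z2 := det_sm g'
  have hee : m / p.1 = m / p'.1 := by
    apply Nat.dvd_antisymm
    · exact Int.natCast_dvd_natCast.1 (dvd_of z2 h00.symm h10.symm)
    · exact Int.natCast_dvd_natCast.1 (dvd_of z1 h00 h10)
  have he1 := Nat.div_mul_cancel hd
  have he2 := Nat.div_mul_cancel hd'
  have he0 : 0 < m / p.1 := by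
    rcases Nat.eq_zero_or_pos (m / p.1) with h0 | h0
    · rw [h0] at he1
      omega
    · exact h0
  have hdd : p.1 = p'.1 := by
    apply Nat.eq_of_mul_eq_mul_left he0
    rw [he1]
    rw [hee]
    exact he2.symm
  have hez : ((m / p.1 : ℕ) : ℤ) ≠ 0 := by exact_mod_cast he0.ne'
  rw [← hee] at h00 h10
  have k00 : sm g 0 0 = sm g' 0 0 := mul_right_cancel₀ hez h00
  have k10 : sm g 1 0 = sm g' 1 0 := mul_right_cancel₀ hez h10
  have hd0 : 0 < p.1 := Nat.pos_of_dvd_of_pos hd hm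
  have hdz : (p.1 : ℤ) ≠ 0 := by exact_mod_cast hd0.ne'
  rw [← hdd, ← k00] at h01
  rw [← hdd, ← k10] at h11
  have hbb : p.2 = p'.2 := by
    refine eq_of_lt hb (hdd ▸ hb') ⟨sm g 0 1 * sm g' 1 1 - sm g 1 1 * sm g' 0 1, ?_⟩
    linear_combination (-((p'.2 : ℤ) - p.2)) * z1 - sm g 1 1 * h01 + sm g 0 1 * h11
  rw [← hbb] at h01 h11
  have k01 : sm g 0 1 = sm g' 0 1 := mul_right_cancel₀ hdz (by linear_combination h01)
  have k11 : sm g 1 1 = sm g' 1 1 := mul_right_cancel₀ hdz (by linear_combination h11)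
  refine ⟨Prod.ext hdd hbb, Subtype.ext ?_⟩
  ext i j
  fin_cases i <;> fin_cases j
  · exact k00
  · exact k01
  · exact k10
  · exact k11

theorem surj {m : ℕ} (hm : 1 ≤ m) (M : Matrix (Fin 2) (Fin 2) ℤ) (hM : M.det = m) :
    ∃ (p : ℕ × ℕ) (g : SL(2, ℤ)), p ∈ UP m ∧ sm g * um m p = M := by
  rw [Matrix.det_fin_two] at hM
  obtain ⟨A, hA⟩ : ∃ A, A = M 0 0 := ⟨_, rfl⟩
  obtain ⟨B, hB⟩ : ∃ B, B = M 0 1 := ⟨_, rfl⟩
  obtain ⟨C, hC⟩ : ∃ C, C = M 1 0 := ⟨_, rfl⟩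
  obtain ⟨D, hD⟩ : ∃ D, D = M 1 1 := ⟨_, rfl⟩
  rw [← hA, ← hB, ← hC, ← hD] at hM
  obtain ⟨e, he⟩ : ∃ e : ℕ, e = Int.gcd A C := ⟨_, rfl⟩
  have hmz : (0 : ℤ) < m := by exact_mod_cast hm
  have he0 : 0 < e := by
    rcases Nat.eq_zero_or_pos e with h | h
    · rw [he, Int.gcd_eq_zero_iff] at h
      rw [h.1, h.2] at hM
      simp at hM
      omega
    · exact h
  have hez : (e : ℤ) ≠ 0 := by exact_mod_cast he0.ne'
  have hez' : (0 : ℤ) < e := by exact_mod_cast he0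
  obtain ⟨a1, ha1⟩ : (e : ℤ) ∣ A := he ▸ Int.gcd_dvd_left ..
  obtain ⟨c1, hc1⟩ : (e : ℤ) ∣ C := he ▸ Int.gcd_dvd_right ..
  obtain ⟨x, y, h1⟩ : ∃ x y : ℤ, a1 * x + c1 * y = 1 := by
    refine ⟨Int.gcdA A C, Int.gcdB A C, ?_⟩
    have hbez : (e : ℤ) = A * Int.gcdA A C + C * Int.gcdB A C := he ▸ Int.gcd_eq_gcd_ab A C
    apply mul_left_cancel₀ hez
    generalize Int.gcdA A C = x at *
    generalize Int.gcdB A C = y at *
    rw [ha1, hc1] at hbez
    linear_combination -hbez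
  have hd0 : (e : ℤ) * (a1 * D - c1 * B) = m := by
    rw [ha1, hc1] at hM
    linear_combination hM
  have hpos : 0 < a1 * D - c1 * B := by
    by_contra hcon
    push Not at hcon
    have := mul_nonpos_of_nonneg_of_nonpos hez'.le hcon
    omega
  obtain ⟨d, hd⟩ : ∃ d : ℕ, (d : ℤ) = a1 * D - c1 * B := ⟨(a1 * D - c1 * B).toNat, by omega⟩
  have hdpos : 0 < d := by
    have : (0 : ℤ) < d := by rw [hd]; exact hpos
    exact_mod_cast this
  have hdz : (d : ℤ) ≠ 0 := by exact_mod_cast hdpos.ne'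
  obtain ⟨b0, hb0⟩ : ∃ b0, b0 = x * B + y * D := ⟨_, rfl⟩
  have hm0 := Int.emod_nonneg b0 hdz
  have hm1 := Int.emod_lt_of_pos b0 (by exact_mod_cast hdpos : (0 : ℤ) < d)
  obtain ⟨b, hb⟩ : ∃ b : ℕ, (b : ℤ) = b0 % d := ⟨(b0 % d).toNat, by omega⟩
  obtain ⟨k, hk⟩ : ∃ k, k = b0 / d := ⟨_, rfl⟩
  have hbk : b0 = b + k * d := by
    have := Int.emod_add_mul_ediv b0 d
    rw [hb, hk]
    linear_combination -this
  have hed : e * d = m := by
    have : ((e * d : ℕ) : ℤ) = m := by push_cast; rw [hd]; exact hd0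
    exact_mod_cast this
  have hbd : b < d := by
    have : (b : ℤ) < d := by rw [hb]; exact hm1
    exact_mod_cast this
  have hdm : d ≤ m := by
    rw [← hed]
    exact Nat.le_mul_of_pos_left d he0
  have hmd : m / d = e := by
    rw [← hed]
    exact Nat.mul_div_cancel _ hdpos
  let g : SL(2, ℤ) := ⟨!![a1, a1 * k - y; c1, c1 * k + x], by
    rw [Matrix.det_fin_two_of]
    linear_combination h1⟩
  have g00 : sm g 0 0 = a1 := rfl
  have g01 : sm g 0 1 = a1 * k - y := rfl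
  have g10 : sm g 1 0 = c1 := rfl
  have g11 : sm g 1 1 = c1 * k + x := rfl
  refine ⟨(d, b), g, mem_UP.2 ⟨Dvd.intro_left e hed, hm, by omega, hbd⟩, ?_⟩
  ext i j
  fin_cases i <;> fin_cases j
  · change (sm g * um m (d, b)) 0 0 = M 0 0
    rw [e00, g00, ← hA, ha1]
    dsimp only
    rw [hmd]
    ring
  · change (sm g * um m (d, b)) 0 1 = M 0 1
    rw [e01, g00, g01, ← hB]
    dsimp only
    have e4 : a1 * b0 - y * d = B := by
      rw [hb0, hd]
      linear_combination B * h1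
    rw [hbk] at e4
    linear_combination e4
  · change (sm g * um m (d, b)) 1 0 = M 1 0
    rw [e10, g10, ← hC, hc1]
    dsimp only
    rw [hmd]
    ring
  · change (sm g * um m (d, b)) 1 1 = M 1 1
    rw [e11, g10, g11, ← hD]
    dsimp only
    have e4 : c1 * b0 + x * d = D := by
      rw [hb0, hd]
      linear_combination D * h1
    rw [hbk] at e4
    linear_combination e4

end CosAux

open CosAux in
theorem stCos : StCos := by
  intro m hm
  let f : UP m × SL(2, ℤ) → DetM m := fun q =>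
    ⟨sm q.2 * um m q.1.1, det_eq q.2 (mem_UP.1 q.1.2).1⟩
  have hf : Function.Bijective f := by
    constructor
    · rintro ⟨⟨p, hp⟩, g⟩ ⟨⟨p', hp'⟩, g'⟩ h
      obtain ⟨h1, h2⟩ := inj hp hp' (congrArg Subtype.val h)
      subst h1
      subst h2
      rfl
    · rintro ⟨M, hM⟩
      obtain ⟨p, g, hp, h⟩ := surj hm M hM
      exact ⟨⟨⟨p, hp⟩, g⟩, Subtype.ext h⟩
  exact ⟨Equiv.ofBijective f hf, fun q => rfl⟩

end LC

end Pool.Agent.Lib.MP_7c5fb9_nt
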