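import Mathlib
import Pool.Agent.Lib.MP_7c5fb9_nt.LC.St

set_option autoImplicit false

/-! (Dec) Decay of cusp forms of level one along vertical lines with rational real part. -/

namespace Pool.Agent.Lib.MP_7c5fb9_nt

namespace LC

open MeasureTheory UpperHalfPlane Set Pool.Agent.Lib.MP_7c08ba_nt.RZ
open scoped MatrixGroups ComplexConjugate

namespace DecAux

variable {w : ℕ}

/-- A rational number as the opposite of the quotient of the members of a bottom row. -/
theorem exists_row (N : ℕ) (C : ℤ) (hN : 1 ≤ N) :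
    ∃ (g : SL(2, ℤ)), 1 ≤ g 1 0 ∧ (g 1 0 : ℂ) * (C / N) + g 1 1 = 0 := by
  have hN0 : (N : ℤ) ≠ 0 := by exact_mod_cast (by omega : N ≠ 0)
  set c : ℤ := N / Int.gcd C N with hc
  set d : ℤ := -(C / Int.gcd C N) with hd
  have hg : 0 < Int.gcd C N := Int.gcd_pos_of_ne_zero_right _ hN0
  have hg' : (0 : ℤ) < Int.gcd C N := by exact_mod_cast hg
  have hc1 : (Int.gcd C N : ℤ) * c = N := Int.mul_ediv_cancel' (Int.gcd_dvd_right C N)
  have hd1 : (Int.gcd C N : ℤ) * d = -C := by
    rw [hd, mul_neg, Int.mul_ediv_cancel' (Int.gcd_dvd_left C N)]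
  have hcop : IsCoprime c d := by
    have h := Int.isCoprime_iff_gcd_eq_one.2
      (Int.gcd_ediv_gcd_ediv_gcd (i := C) (j := N) hg)
    rw [hc, hd]
    exact h.symm.neg_right
  have hcpos : 0 < c := by
    rcases lt_trichotomy c 0 with h | h | h
    · nlinarith
    · rw [h, mul_zero] at hc1
      exact absurd hc1.symm hN0
    · exact h
  obtain ⟨u, v, huv⟩ := hcop
  have hdet : (!![v, -u; c, d] : Matrix (Fin 2) (Fin 2) ℤ).det = 1 := by
    rw [Matrix.det_fin_two_of]
    linear_combination huv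
  refine ⟨⟨!![v, -u; c, d], hdet⟩, ?_, ?_⟩
  · exact hcpos
  · change (c : ℂ) * (C / N) + (d : ℂ) = 0
    have h1 : ((Int.gcd C N : ℤ) : ℂ) * c = N := by exact_mod_cast congrArg (Int.cast (R := ℂ)) hc1
    have h2 : ((Int.gcd C N : ℤ) : ℂ) * d = -C := by
      exact_mod_cast congrArg (Int.cast (R := ℂ)) hd1
    have h3 : (N : ℂ) ≠ 0 := by exact_mod_cast (by omega : N ≠ 0)
    have h4 : ((Int.gcd C N : ℤ) : ℂ) ≠ 0 := by exact_mod_cast hg'.ne'
    have h5 : (c : ℂ) * C + d * N = 0 := by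
      apply mul_left_cancel₀ h4
      linear_combination (C : ℂ) * h1 + (N : ℂ) * h2
    field_simp
    linear_combination h5

theorem im_pt (N : ℕ) (C : ℤ) (t : ℝ) : (Complex.I * t + C / N : ℂ).im = t := by
  have : ((C : ℂ) / N) = (((C : ℝ) / N : ℝ) : ℂ) := by push_cast; rfl
  rw [this]
  simp

/-- The value of `f` at the point with real part `C / N` and its value at the image. -/
theorem exists_pt (f : CuspForm 𝒮ℒ (w : ℤ)) (N : ℕ) (C : ℤ) (hN : 1 ≤ N) :
    ∃ c : ℝ, 1 ≤ c ∧ ∀ t : ℝ, 0 < t → ∃ z : ℂ, z.im = 1 / (c ^ 2 * t) ∧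
      ‖f (ofComplex (Complex.I * t + C / N))‖ = ‖f (ofComplex z)‖ / (c * t) ^ w := by
  obtain ⟨g, hg1, hg2⟩ := exists_row N C hN
  refine ⟨g 1 0, by exact_mod_cast hg1, fun t ht => ?_⟩
  have hc : (0 : ℝ) < (g 1 0 : ℝ) := by exact_mod_cast hg1
  have hz : 0 < (Complex.I * t + C / N : ℂ).im := by rw [im_pt]; exact ht
  set τ : ℍ := ⟨Complex.I * t + C / N, hz⟩ with hτ
  have h := SlashInvariantForm.slash_action_eqn'' (Γ := 𝒮ℒ) f
    (γ := (g : GL (Fin 2) ℝ)) ⟨g, rfl⟩ τ
  have hden : denom (g : GL (Fin 2) ℝ) τ = (((g 1 0 : ℝ) * t : ℝ) : ℂ) * Complex.I := by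
    rw [ModularGroup.denom_apply g τ]
    change (g 1 0 : ℂ) * (Complex.I * t + C / N) + g 1 1 = _
    push_cast
    linear_combination hg2
  have h1 : f (g • τ) = (denom (g : GL (Fin 2) ℝ) τ) ^ w * f τ := by
    rw [zpow_natCast] at h
    exact h
  have h2 : (g • τ).im = τ.im / Complex.normSq (denom (g : GL (Fin 2) ℝ) τ) :=
    ModularGroup.im_smul_eq_div_normSq g τ
  have hn : ‖denom (g : GL (Fin 2) ℝ) τ‖ = (g 1 0 : ℝ) * t := by
    rw [hden, norm_mul, Complex.norm_I, mul_one, Complex.norm_real, Real.norm_eq_abs,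
      abs_of_pos (mul_pos hc ht)]
  refine ⟨((g • τ : ℍ) : ℂ), ?_, ?_⟩
  · change (g • τ).im = _
    have hi : τ.im = t := im_pt N C t
    rw [h2, Complex.normSq_eq_norm_sq, hn, hi]
    field_simp
  · rw [ofComplex_apply, ofComplex_apply_of_im_pos hz, h1, norm_mul, norm_pow, hn,
      mul_div_cancel_left₀ _ (pow_ne_zero _ (mul_pos hc ht).ne')]

theorem pow_mul_exp_le (n : ℕ) {δ x : ℝ} (hδ : 0 < δ) (hx : 0 ≤ x) :
    x ^ n * Real.exp (-(δ * x)) ≤ n.factorial / δ ^ n := by
  have h := Real.pow_div_factorial_le_exp (δ * x) (mul_nonneg hδ.le hx) n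
  rw [div_le_iff₀ (by positivity)] at h
  rw [Real.exp_neg, ← div_eq_mul_inv, div_le_div_iff₀ (Real.exp_pos _) (by positivity),
    ← mul_pow, mul_comm x δ, mul_comm]
  rw [mul_comm] at h
  simpa [mul_comm] using h

theorem decay (h : StCoef) (f : CuspForm 𝒮ℒ (w : ℤ)) (N : ℕ) (C : ℤ) (hN : 1 ≤ N) :
    ∃ K δ : ℝ, 0 < δ ∧ ∀ t : ℝ, 0 < t → ‖f (ofComplex (Complex.I * t + C / N))‖ ≤
      K * Real.exp (-(δ * (t + 1 / t))) := by
  obtain ⟨-, -, -, ⟨C4, h4⟩, C5, h5⟩ := h w f
  obtain ⟨c, hc, hpt⟩ := exists_pt f N C hN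
  have hc0 : 0 < c := by linarith
  have hc2 : 1 ≤ c ^ 2 := by nlinarith
  set δ : ℝ := Real.pi / c ^ 2 with hδ
  have hδ0 : 0 < δ := by positivity
  have hδπ : δ ≤ Real.pi := by
    rw [hδ, div_le_iff₀ (by positivity)]
    nlinarith [Real.pi_pos]
  set m : ℝ := (2 / c ^ 2) ^ ((w : ℝ) / 2) with hm
  have hm0 : 0 < m := by positivity
  set K' : ℝ := w.factorial / δ ^ w with hK'
  have hK'0 : 0 < K' := by positivity
  refine ⟨|C5| * Real.exp (2 * δ) + |C5| * K' * Real.exp (δ / 2) +
    |C4| / m * Real.exp (δ * (1 / 2 + c ^ 2 / 2)), δ, hδ0, fun t ht => ?_⟩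
  have hA : 0 ≤ |C5| * Real.exp (2 * δ) := by positivity
  have hB : 0 ≤ |C5| * K' * Real.exp (δ / 2) := by positivity
  have hC : 0 ≤ |C4| / m * Real.exp (δ * (1 / 2 + c ^ 2 / 2)) := by positivity
  have hE := (Real.exp_pos (-(δ * (t + 1 / t)))).le
  have hz := im_pt N C t
  have key : ∀ X Y Z : ℝ, 0 ≤ X → 0 ≤ Y → 0 ≤ Z → ∀ E r : ℝ, 0 ≤ E →
      (r ≤ X * E ∨ r ≤ Y * E ∨ r ≤ Z * E) → r ≤ (X + Y + Z) * E := by
    intro X Y Z hX hY hZ E r hE h
    have h1 := mul_nonneg hX hE
    have h2 := mul_nonneg hY hE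
    have h3 := mul_nonneg hZ hE
    rcases h with h | h | h <;> nlinarith
  apply key _ _ _ hA hB hC _ _ hE
  rcases le_or_gt (1 / 2) t with h1 | h1
  · left
    have h2 := h5 (Complex.I * t + C / N) (by rw [hz]; exact h1)
    rw [hz] at h2
    refine h2.trans ?_
    rw [mul_assoc |C5|, ← Real.exp_add]
    refine mul_le_mul (le_abs_self _) (Real.exp_le_exp.2 ?_) (Real.exp_pos _).le (abs_nonneg _)
    have h3 : 1 / t ≤ 2 := by
      rw [div_le_iff₀ ht]
      linarith
    have h6 : δ * (1 / t) ≤ δ * 2 := mul_le_mul_of_nonneg_left h3 hδ0.le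
    have h7 : δ * t ≤ Real.pi * t := mul_le_mul_of_nonneg_right hδπ ht.le
    have h8 : 0 ≤ Real.pi * t := by positivity
    nlinarith
  · right
    rcases le_or_gt (1 / 2) (1 / (c ^ 2 * t)) with h2 | h2
    · left
      obtain ⟨z, hz1, hz2⟩ := hpt t ht
      have h3 := h5 z (by rw [hz1]; exact h2)
      rw [hz2]
      have hct : t ^ w ≤ (c * t) ^ w := pow_le_pow_left₀ ht.le (by nlinarith) w
      have h6 : ‖f (ofComplex z)‖ / (c * t) ^ w ≤ ‖f (ofComplex z)‖ / t ^ w :=
        div_le_div_of_nonneg_left (norm_nonneg _) (by positivity) hct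
      refine h6.trans ?_
      have h7 : ‖f (ofComplex z)‖ ≤ |C5| * Real.exp (-(2 * (δ * (1 / t)))) := by
        refine h3.trans ?_
        rw [hz1]
        refine (mul_le_mul_of_nonneg_right (le_abs_self C5) (Real.exp_pos _).le).trans
          (le_of_eq ?_)
        congr 2
        rw [hδ]
        field_simp
      rw [div_eq_mul_inv, ← inv_pow, ← one_div]
      have h8 := pow_mul_exp_le w hδ0 (by positivity : 0 ≤ 1 / t)
      have h9 : Real.exp (-(2 * (δ * (1 / t)))) =
          Real.exp (-(δ * (1 / t))) * Real.exp (-(δ * (1 / t))) := by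
        rw [← Real.exp_add]
        congr 1
        ring
      have h10 : Real.exp (-(δ * (1 / t))) ≤
          Real.exp (δ / 2) * Real.exp (-(δ * (t + 1 / t))) := by
        rw [← Real.exp_add]
        refine Real.exp_le_exp.2 ?_
        nlinarith
      have hp : 0 ≤ (1 / t) ^ w := by positivity
      calc ‖f (ofComplex z)‖ * (1 / t) ^ w
          ≤ |C5| * Real.exp (-(2 * (δ * (1 / t)))) * (1 / t) ^ w :=
            mul_le_mul_of_nonneg_right h7 hp
        _ = |C5| * ((1 / t) ^ w * Real.exp (-(δ * (1 / t)))) * Real.exp (-(δ * (1 / t))) := by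
            rw [h9]
            ring
        _ ≤ |C5| * K' * (Real.exp (δ / 2) * Real.exp (-(δ * (t + 1 / t)))) := by
            refine mul_le_mul (mul_le_mul_of_nonneg_left h8 (abs_nonneg _)) h10
              (Real.exp_pos _).le (by positivity)
        _ = _ := by ring
    · right
      have h3 : 2 / c ^ 2 < t := by
        rw [div_lt_iff₀ (by positivity)]
        rw [div_lt_div_iff₀ (by positivity) (by positivity)] at h2
        linarith
      have h6 := h4 (Complex.I * t + C / N) (by rw [hz]; exact ht)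
      rw [hz] at h6
      have h7 : m ≤ t ^ ((w : ℝ) / 2) := Real.rpow_le_rpow (by positivity) h3.le (by positivity)
      have h8 : ‖f (ofComplex (Complex.I * t + C / N))‖ * m ≤ |C4| :=
        ((mul_le_mul_of_nonneg_left h7 (norm_nonneg _)).trans h6).trans (le_abs_self _)
      have h9 : ‖f (ofComplex (Complex.I * t + C / N))‖ ≤ |C4| / m := by
        rw [le_div_iff₀ hm0]
        exact h8
      refine h9.trans ?_
      rw [mul_assoc, ← Real.exp_add]
      have h10 : 1 / t ≤ c ^ 2 / 2 := by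
        rw [div_le_div_iff₀ ht (by norm_num)]
        rw [div_lt_iff₀ (by positivity)] at h3
        linarith
      have h11 : δ * (t + 1 / t) ≤ δ * (1 / 2 + c ^ 2 / 2) :=
        mul_le_mul_of_nonneg_left (by linarith) hδ0.le
      have h12 : 1 ≤ Real.exp (δ * (1 / 2 + c ^ 2 / 2) + -(δ * (t + 1 / t))) :=
        Real.one_le_exp (by linarith)
      exact le_mul_of_one_le_right (by positivity) h12

theorem cont (f : CuspForm 𝒮ℒ (w : ℤ)) (N : ℕ) (C : ℤ) :
    ContinuousOn (fun t : ℝ => f (ofComplex (Complex.I * t + C / N))) (Ioi 0) := by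
  have h1 : ContinuousOn (fun z : ℂ => f (ofComplex z)) {z | 0 < z.im} :=
    (UpperHalfPlane.mdifferentiable_iff.1 (CuspFormClass.holo f)).continuousOn
  have h2 : Continuous fun t : ℝ => (Complex.I * t + C / N : ℂ) := by fun_prop
  refine h1.comp h2.continuousOn fun t ht => ?_
  change 0 < (Complex.I * t + C / N : ℂ).im
  rw [im_pt]
  exact ht

end DecAux

open DecAux in
theorem stDec (h : StCoef) : StDec := by
  intro w f N C hN
  have hd := decay h f N C hN
  refine ⟨hd, fun s => ?_⟩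
  obtain ⟨K, δ, hδ, hK⟩ := hd
  obtain ⟨n, hn⟩ := exists_nat_ge (-s.re)
  have hint : IntegrableOn (fun t : ℝ => |K| * (n.factorial / δ ^ n) *
      (t ^ ((n : ℝ) + s.re) * Real.exp (-δ * t ^ (1 : ℝ)))) (Ioi 0) :=
    (integrableOn_rpow_mul_exp_neg_mul_rpow (by linarith) one_pos hδ).const_mul _
  refine Integrable.mono' hint ?_ ?_
  · refine ContinuousOn.aestronglyMeasurable ((cont f N C).mul ?_) measurableSet_Ioi
    intro t ht
    have ht : 0 < t := ht
    refine ContinuousAt.continuousWithinAt ?_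
    exact (continuousAt_cpow_const (Or.inl (by simpa using ht))).comp
      Complex.continuous_ofReal.continuousAt
  · refine (ae_restrict_iff' measurableSet_Ioi).2 (Filter.Eventually.of_forall fun t ht => ?_)
    have ht : 0 < t := ht
    rw [norm_mul, Complex.norm_cpow_eq_rpow_re_of_pos ht, Real.rpow_one]
    have h1 := hK t ht
    have h2 := pow_mul_exp_le n hδ (by positivity : 0 ≤ 1 / t)
    have h3 : Real.exp (-(δ * (1 / t))) ≤ (n.factorial / δ ^ n) * t ^ n := by
      have h4 : Real.exp (-(δ * (1 / t))) =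
          ((1 / t) ^ n * Real.exp (-(δ * (1 / t)))) * t ^ n := by
        rw [one_div, inv_pow]
        field_simp
      rw [h4]
      exact mul_le_mul_of_nonneg_right h2 (by positivity)
    have h5 : Real.exp (-(δ * (t + 1 / t))) = Real.exp (-(δ * (1 / t))) * Real.exp (-δ * t) := by
      rw [← Real.exp_add]
      congr 1
      ring
    have h6 : t ^ ((n : ℝ) + s.re) = t ^ n * t ^ s.re := by
      rw [Real.rpow_add ht, Real.rpow_natCast]
    have h7 : 0 ≤ t ^ s.re := by positivity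
    calc ‖f (ofComplex (Complex.I * t + C / N))‖ * t ^ s.re
        ≤ |K| * Real.exp (-(δ * (t + 1 / t))) * t ^ s.re := by
          refine mul_le_mul_of_nonneg_right (h1.trans ?_) h7
          exact mul_le_mul_of_nonneg_right (le_abs_self K) (Real.exp_pos _).le
      _ = |K| * (Real.exp (-(δ * (1 / t)))) * (Real.exp (-δ * t) * t ^ s.re) := by
          rw [h5]
          ring
      _ ≤ |K| * ((n.factorial / δ ^ n) * t ^ n) * (Real.exp (-δ * t) * t ^ s.re) := by
          refine mul_le_mul_of_nonneg_right (mul_le_mul_of_nonneg_left h3 (abs_nonneg K))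
            (by positivity)
      _ = _ := by
          rw [h6]
          ring

end LC

end Pool.Agent.Lib.MP_7c5fb9_nt
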