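import Mathlib
import Pool.Agent.Lib.MP_7c5fb9_nt.LC.St

set_option autoImplicit false

/-!
Project LC (MP_7c5fb9_nt), module ExS: exponential sums with the primitive character.
-/

namespace Pool.Agent.Lib.MP_7c5fb9_nt

namespace LC

open MeasureTheory UpperHalfPlane Set Pool.Agent.Lib.MP_7c08ba_nt.RZ

namespace ExSAux

lemma ee_add (a b : ℂ) : ee (a + b) = ee a * ee b := by
  unfold ee
  rw [← Complex.exp_add]
  congr 1
  ring

lemma ee_int (m : ℤ) : ee (m : ℂ) = 1 := by
  unfold ee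
  rw [show (2 * Real.pi * Complex.I * m : ℂ) = m * (2 * Real.pi * Complex.I) by ring]
  exact Complex.exp_int_mul_two_pi_mul_I m

lemma ee_pow (z : ℂ) (l : ℕ) : ee (l * z) = ee z ^ l := by
  unfold ee
  rw [← Complex.exp_nat_mul]
  congr 1
  ring

lemma ee_eq_one {z : ℂ} (h : ee z = 1) : ∃ n : ℤ, z = n := by
  unfold ee at h
  obtain ⟨n, hn⟩ := Complex.exp_eq_one_iff.1 h
  refine ⟨n, ?_⟩
  have h2 : (2 * Real.pi * Complex.I : ℂ) ≠ 0 := Complex.two_pi_I_ne_zero
  have h3 : (2 * Real.pi * Complex.I) * z = (2 * Real.pi * Complex.I) * n := by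
    rw [hn]; ring
  exact mul_left_cancel₀ h2 h3

/-- sums over multiples -/
lemma sum_mult (f : ℕ → ℂ) (h : ℕ) (hh : 0 < h) (N : ℕ) :
    ∑ a ∈ Finset.range (h * N), (if h ∣ a then f a else 0) =
      ∑ a ∈ Finset.range N, f (h * a) := by
  induction N with
  | zero => simp
  | succ N ih =>
    rw [Nat.mul_succ, Finset.sum_range_add, ih, Finset.sum_range_succ]
    congr 1
    rw [Finset.sum_eq_single 0]
    · rw [add_zero, if_pos (dvd_mul_right _ _)]
    · intro r hr hr0
      rw [Finset.mem_range] at hr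
      rw [if_neg]
      intro hd
      have h1 : h ∣ r := (Nat.dvd_add_right (dvd_mul_right h N)).1 hd
      exact absurd (Nat.le_of_dvd (Nat.pos_of_ne_zero hr0) h1) (by omega)
    · intro h0
      exact absurd (Finset.mem_range.2 hh) h0

/-- splitting of sums -/
lemma sum_split (f : ℕ → ℂ) (D g : ℕ) :
    ∑ a ∈ Finset.range (D * g), f a =
      ∑ l ∈ Finset.range g, ∑ a ∈ Finset.range D, f (D * l + a) := by
  induction g with
  | zero => simp
  | succ g ih =>
    rw [Nat.mul_succ, Finset.sum_range_add, ih, Finset.sum_range_succ]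

/-- geometric sums -/
lemma geo (g : ℕ) (hg : 0 < g) (t : ℤ) :
    ∑ l ∈ Finset.range g, ee ((l : ℂ) * (t / g)) = if (g : ℤ) ∣ t then (g : ℂ) else 0 := by
  have hg0 : (g : ℂ) ≠ 0 := by exact_mod_cast hg.ne'
  simp only [ee_pow]
  split_ifs with hd
  · obtain ⟨s, rfl⟩ := hd
    have h1 : (((g : ℤ) * s : ℤ) : ℂ) / g = (s : ℂ) := by
      push_cast
      field_simp
    rw [h1, ee_int]
    simp
  · have h1 : ee ((t : ℂ) / g) ≠ 1 := by
      intro h
      obtain ⟨n, hn⟩ := ee_eq_one h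
      apply hd
      refine ⟨n, ?_⟩
      have h2 : (t : ℂ) = g * n := by
        rw [div_eq_iff hg0] at hn
        rw [hn]; ring
      exact_mod_cast h2
    have h2 : ee ((t : ℂ) / g) ^ g = 1 := by
      rw [← ee_pow]
      have : (g : ℂ) * ((t : ℂ) / g) = (t : ℂ) := by field_simp
      rw [this, ee_int]
    rw [geom_sum_eq h1, h2, sub_self, zero_div]

lemma jac_add (D : ℕ) (l a : ℕ) :
    jacobiSym ((D * l + a : ℕ) : ℤ) D = jacobiSym (a : ℤ) D := by
  rw [jacobiSym.mod_left ((D * l + a : ℕ) : ℤ), jacobiSym.mod_left (a : ℤ)]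
  congr 1
  push_cast
  rw [Int.add_emod, Int.mul_emod_right, zero_add, Int.emod_emod]

/-- the sum for one divisor -/
lemma inner (D : ℕ) (G : ℂ) (hD : 0 < D) (hG : GS D G) (g : ℕ) (hg : 0 < g) (t : ℤ) :
    ∑ a ∈ Finset.range (D * g), (jacobiSym a D : ℂ) * ee ((a : ℂ) * t / (D * g)) =
      if (g : ℤ) ∣ t then (g : ℂ) * ((jacobiSym (t / (g : ℤ)) D : ℂ) * G) else 0 := by
  have hg0 : (g : ℂ) ≠ 0 := by exact_mod_cast hg.ne'
  have hD0 : (D : ℂ) ≠ 0 := by exact_mod_cast hD.ne'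
  rw [sum_split, Finset.sum_comm]
  have h1 : ∀ a : ℕ, ∑ l ∈ Finset.range g, (jacobiSym ((D * l + a : ℕ) : ℤ) D : ℂ) *
      ee (((D * l + a : ℕ) : ℂ) * t / (D * g)) =
      (jacobiSym a D : ℂ) * ee ((a : ℂ) * t / (D * g)) *
        if (g : ℤ) ∣ t then (g : ℂ) else 0 := by
    intro a
    rw [← geo g hg t, Finset.mul_sum]
    refine Finset.sum_congr rfl fun l _ => ?_
    rw [jac_add, mul_assoc, ← ee_add]
    congr 2
    push_cast
    field_simp
    ring
  rw [Finset.sum_congr rfl fun a _ => h1 a, ← Finset.sum_mul]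
  split_ifs with hd
  · obtain ⟨s, rfl⟩ := hd
    have hgz : (g : ℤ) ≠ 0 := by exact_mod_cast hg.ne'
    rw [Int.mul_ediv_cancel_left _ hgz, ← hG.eq s, mul_comm]
    congr 1
    refine Finset.sum_congr rfl fun a _ => ?_
    congr 2
    push_cast
    field_simp
  · rw [mul_zero]

lemma moeb (a c : ℕ) (hc : 0 < c) (x : ℂ) :
    (if Nat.Coprime a c then x else 0) =
      ∑ h ∈ c.divisors, if h ∣ a then (ArithmeticFunction.moebius h : ℂ) * x else 0 := by
  have h1 : c.divisors.filter (fun h => h ∣ a) = (Nat.gcd a c).divisors := by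
    ext h
    simp only [Finset.mem_filter, Nat.mem_divisors, Nat.dvd_gcd_iff]
    constructor
    · rintro ⟨⟨h2, _⟩, h3⟩
      exact ⟨⟨h3, h2⟩, (Nat.gcd_pos_of_pos_right a hc).ne'⟩
    · rintro ⟨⟨h3, h2⟩, _⟩
      exact ⟨⟨h2, hc.ne'⟩, h3⟩
  rw [← Finset.sum_filter, h1, ← Finset.sum_mul]
  have h2 : (∑ h ∈ (Nat.gcd a c).divisors, (ArithmeticFunction.moebius h : ℂ)) =
      if Nat.gcd a c = 1 then 1 else 0 := by
    have h3 := ArithmeticFunction.coe_mul_zeta_apply (f := ArithmeticFunction.moebius)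
      (x := Nat.gcd a c)
    rw [ArithmeticFunction.moebius_mul_coe_zeta, ArithmeticFunction.one_apply] at h3
    have h4 := congrArg (fun z : ℤ => (z : ℂ)) h3
    push_cast at h4
    rw [← h4]
  rw [h2]
  unfold Nat.Coprime
  split_ifs <;> simp

end ExSAux

open ExSAux in
/-- (ExS) exponential sums with the character -/
theorem stExS : StExS := by
  intro D G c t hD hG hc
  have hD0 : 0 < D := Nat.pos_of_ne_zero hD.sf.ne_zero
  haveI : NeZero D := ⟨hD0.ne'⟩
  have hDC : (D : ℂ) ≠ 0 := by exact_mod_cast hD0.ne'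
  -- only the coprimality with `c` matters
  have h1 : ∀ a : ℕ, (if Nat.Coprime a (D * c) then
      (jacobiSym a D : ℂ) * ee ((a : ℂ) * t / (D * c)) else 0) =
      ∑ h ∈ c.divisors, if h ∣ a then (ArithmeticFunction.moebius h : ℂ) *
        ((jacobiSym a D : ℂ) * ee ((a : ℂ) * t / (D * c))) else 0 := by
    intro a
    rw [← moeb a c hc]
    by_cases hac : Nat.Coprime a c
    · rw [if_pos hac]
      by_cases haD : Nat.Coprime a D
      · rw [if_pos (Nat.Coprime.mul_right haD hac)]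
      · rw [if_neg (fun h => haD (Nat.Coprime.coprime_mul_right_right h))]
        have h2 : jacobiSym (a : ℤ) D = 0 := by
          rw [jacobiSym.eq_zero_iff_not_coprime]
          rw [Int.gcd_natCast_natCast]
          exact haD
        rw [h2]
        simp
    · rw [if_neg hac, if_neg (fun h => hac (Nat.Coprime.coprime_mul_left_right h))]
  rw [Finset.sum_congr rfl fun a _ => h1 a, Finset.sum_comm, Finset.mul_sum]
  refine Finset.sum_congr rfl fun h hh => ?_
  have hhc : h ∣ c := Nat.dvd_of_mem_divisors hh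
  have hh0 : 0 < h := Nat.pos_of_dvd_of_pos hhc hc
  obtain ⟨g, rfl⟩ := hhc
  have hg0 : 0 < g := Nat.pos_of_ne_zero (by rintro rfl; simp at hc)
  have hhC : (h : ℂ) ≠ 0 := by exact_mod_cast hh0.ne'
  have hgC : (g : ℂ) ≠ 0 := by exact_mod_cast hg0.ne'
  rw [Nat.mul_div_cancel_left _ hh0]
  have e1 : D * (h * g) = h * (D * g) := by ring
  rw [e1, sum_mult _ h hh0]
  have e2 : ∀ a : ℕ, (ArithmeticFunction.moebius h : ℂ) *
      ((jacobiSym ((h * a : ℕ) : ℤ) D : ℂ) *
        ee (((h * a : ℕ) : ℂ) * t / (D * ((h * g : ℕ) : ℂ)))) =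
      ((ArithmeticFunction.moebius h : ℂ) * (jacobiSym h D : ℂ)) *
        ((jacobiSym a D : ℂ) * ee ((a : ℂ) * t / (D * g))) := by
    intro a
    have e3 : ((h * a : ℕ) : ℂ) * t / (D * ((h * g : ℕ) : ℂ)) = (a : ℂ) * t / (D * g) := by
      push_cast
      field_simp
    rw [e3]
    push_cast
    rw [jacobiSym.mul_left]
    push_cast
    ring
  rw [Finset.sum_congr rfl fun a _ => e2 a, ← Finset.mul_sum, inner D G hD0 hG g hg0 t]
  split_ifs with hd
  · ring
  · ring

end LC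

end Pool.Agent.Lib.MP_7c5fb9_nt
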