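import Mathlib
import Pool.Agent.Lib.MP_7c5fb9_nt.LC.St
import Pool.Agent.Lib.MP_7c5fb9_nt.LO.Basic

set_option autoImplicit false

/-!
# Project LC (MP_7c5fb9_nt): conclusion (module Fin)
-/

namespace Pool.Agent.Lib.MP_7c5fb9_nt

namespace LC

open MeasureTheory UpperHalfPlane Set Pool.Agent.Lib.MP_7c08ba_nt.RZ
open LO (Mat disc act mir qv mb cyc Fund eps aut FormOf torPer NonVan)
open scoped MatrixGroups ComplexConjugate nonZeroDivisors

namespace FinA

theorem jf_ne {M : Mat} (hdet : 0 < M.det) {z : ℂ} (hz : 0 < z.im) : jf M z ≠ 0 := by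
  unfold jf
  rw [Matrix.det_fin_two] at hdet
  intro h
  have him := congrArg Complex.im h
  simp only [Complex.add_im, Complex.mul_im, Complex.intCast_re, Complex.intCast_im, zero_mul,
    add_zero, Complex.zero_im] at him
  have h5 : (M 1 0 : ℝ) = 0 := by
    rcases mul_eq_zero.mp him with h6 | h6
    · exact h6
    · exact absurd h6 hz.ne'
  have h7 : M 1 0 = 0 := by exact_mod_cast h5
  rw [h7] at h
  simp only [Int.cast_zero, zero_mul, zero_add, Int.cast_eq_zero] at h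
  rw [h7, h] at hdet
  simp at hdet

theorem mb_im {M : Mat} (hdet : 0 < M.det) {z : ℂ} (hz : 0 < z.im) : 0 < (mb M z).im := by
  have hden : ((M 1 0 : ℂ) * z + M 1 1) ≠ 0 := jf_ne hdet hz
  rw [Matrix.det_fin_two] at hdet
  have key : (mb M z).im = ((M 0 0 * M 1 1 - M 0 1 * M 1 0 : ℤ) : ℝ) * z.im /
      Complex.normSq ((M 1 0 : ℂ) * z + M 1 1) := by
    unfold LO.mb
    rw [Complex.div_im]
    simp only [Complex.add_im, Complex.mul_im, Complex.intCast_re, Complex.intCast_im, zero_mul,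
      add_zero, Complex.add_re, Complex.mul_re, sub_zero]
    push_cast
    ring
  rw [key]
  have h8 : 0 < Complex.normSq ((M 1 0 : ℂ) * z + M 1 1) := Complex.normSq_pos.mpr hden
  have h9 : (0 : ℝ) < ((M 0 0 * M 1 1 - M 0 1 * M 1 0 : ℤ) : ℝ) := by exact_mod_cast hdet
  positivity

theorem qv_act (Q : LO.Frm) {A : Mat} {z : ℂ} (h : jf A z ≠ 0) :
    qv (act Q A) z = jf A z ^ 2 * qv Q (mb A z) := by
  unfold jf at h
  unfold LO.qv LO.act LO.mb jf
  simp only [Matrix.cons_val_zero, Matrix.cons_val_one, Matrix.cons_val]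
  push_cast
  field_simp
  ring

theorem um_det {m : ℕ} {p : ℕ × ℕ} (hp : p ∈ UP m) : 0 < (um m p).det := by
  have h1 : p.1 ∈ m.divisors := by
    unfold UP at hp
    exact (Finset.mem_product.mp (Finset.mem_filter.mp hp).1).1
  have h2 : p.1 ∣ m := Nat.dvd_of_mem_divisors h1
  have h3 : 0 < p.1 := Nat.pos_of_mem_divisors h1
  have h4 : 0 < m / p.1 := Nat.div_pos (Nat.le_of_dvd (Nat.pos_of_ne_zero
    (Nat.mem_divisors.mp h1).2) h2) h3
  unfold um
  rw [Matrix.det_fin_two_of]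
  simp only [mul_zero, sub_zero]
  positivity

theorem sm_det (g : SL(2, ℤ)) : (sm g).det = 1 := g.2

/-- the function of the forms -/
noncomputable def FF (k : ℕ) (z₀ : ℂ) (M : Mat) (Q : LO.Frm) : ℂ := ((qv (act Q M) z₀) ^ k)⁻¹

theorem ff_neg {k : ℕ} (hk : Even k) (z₀ : ℂ) (M : Mat) (Q : LO.Frm) :
    FF k z₀ M (-Q) = FF k z₀ M Q := by
  unfold FF
  have h : qv (act (-Q) M) z₀ = -qv (act Q M) z₀ := by
    unfold LO.qv LO.act
    simp only [Matrix.cons_val_zero, Matrix.cons_val_one, Matrix.cons_val, Pi.neg_apply]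
    push_cast
    ring
  rw [h, hk.neg_pow]

theorem ff_summable (hHC : StHC) {k : ℕ} (hk : 4 ≤ k) {z₀ : ℂ} (hz : 0 < z₀.im) {M : Mat}
    (hM : 0 < M.det) {Δ : ℤ} (hΔ : 0 < Δ) : Summable fun Q : DQ Δ => ‖FF k z₀ M Q.1‖ := by
  have h1 := hHC.2.1 Δ k (mb M z₀) hΔ hk (mb_im hM hz)
  have h2 : (fun Q : DQ Δ => ‖FF k z₀ M Q.1‖) =
      fun Q : DQ Δ => ‖((jf M z₀ ^ 2) ^ k)⁻¹‖ * ‖((qv Q.1 (mb M z₀)) ^ k)⁻¹‖ := by
    funext Q
    unfold FF
    rw [qv_act _ (jf_ne hM hz), mul_pow, mul_inv, norm_mul]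
  rw [h2]
  exact h1.mul_left _

/-- the terms of the functional -/
theorem lam_term {D k m' : ℕ} {z₀ : ℂ} (hz : 0 < z₀.im) (g : SL(2, ℤ)) {M : Mat}
    (hM : 0 < M.det) :
    ((jf (sm g * M) z₀) ^ (2 * k))⁻¹ * hm D k m' (mb (sm g * M) z₀) =
      ∑' Q : LO.Frm, WD D m' Q * FF k z₀ M (act Q (sm g)) := by
  have hA : 0 < (sm g * M).det := by
    rw [Matrix.det_mul, sm_det, one_mul]
    exact hM
  unfold hm
  rw [← tsum_mul_left]
  apply tsum_congr
  intro Q
  unfold FF
  rw [LO.act_act, qv_act _ (jf_ne hA hz), mul_pow, mul_inv, ← pow_mul]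
  ring

theorem exists_ne {w : ℕ} (f : CuspForm 𝒮ℒ (w : ℤ)) (hf : IsEigen f) :
    ∃ z : ℂ, 0 < z.im ∧ f (ofComplex z) ≠ 0 := by
  by_contra hcon
  push Not at hcon
  have h0 : (f : ℍ → ℂ) = 0 := by
    funext z
    have := hcon (z : ℂ) z.im_pos
    rw [ofComplex_apply] at this
    exact this
  have h1 := hf.one
  unfold coef at h1
  rw [h0] at h1
  simp [UpperHalfPlane.qExpansion_zero] at h1

theorem cw_ne (w : ℕ) : Cw w ≠ 0 := by
  unfold Cw
  have h1 : (2 * (Real.pi : ℂ) * Complex.I) ≠ 0 := by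
    simp [Real.pi_ne_zero, Complex.I_ne_zero]
  exact div_ne_zero (pow_ne_zero _ h1) (by exact_mod_cast Nat.factorial_ne_zero _)

theorem bk_pos (k : ℕ) : 0 < Bk k := by
  unfold Bk
  positivity

end FinA

open FinA in
theorem stFin (hPr : StPr) (hGSx : StGSx) (hRep : StRep) (hTrA : StTrA) (hTrB : StTrB)
    (hGeo : StGeo) (hVer : StVer) (hChi : StChi) (hLx : StLx) (hNar : StNar) (hHC : StHC)
    (hSpan : StSpan) (hKer : StKer) (hW : StW12) (hDis : LO.StDiscr) : StFin := by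
  intro k w f hk2 hw hf D K _ _ s hD hD1 hK hs hNV
  obtain ⟨G, hG⟩ := hGSx D hD
  obtain ⟨hw12, hwe⟩ := hW w f hf
  have hk6 : 6 ≤ k := by omega
  obtain ⟨Λ, hΛd, hΛs, hΛ0⟩ := hLx k w D f G hw (by omega) hD hG
  refine ⟨Λ, hΛd, hΛs, ?_⟩
  intro hzero
  have hLx0 := hΛ0 hzero
  obtain ⟨β, hβ0, hβ⟩ := hSpan w f (by omega) hwe
  have hKerId := hKer w f β hf hβ0 hβ
  obtain ⟨z₀, hz₀, hfz⟩ := exists_ne f hf
  obtain ⟨ι, iι, R, hR⟩ := hRep D (by omega)
  -- the toric period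
  obtain ⟨D', hD', ⟨t, u, hFund⟩, ⟨q, hq⟩, hNV2⟩ := hNV
  have hdis : NumberField.discr K = ((D : ℕ) : ℤ) := by
    apply hDis K s (D : ℤ) hK
    · rw [hs]
      simp
    · simpa using hD.sf
    · simpa using hD1
    · have := hD.mod
      omega
  have hDD : D' = D := by
    rw [hD'] at hdis
    exact_mod_cast hdis
  subst hDD
  apply hNV2 t u q hFund hq
  have hDpos : (0 : ℤ) < (D' : ℤ) := by
    have : 0 < D' := by omega
    exact_mod_cast this
  -- the vanishing of the functional at the forms attached to `D n ^ 2`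
  have hvan : ∀ n : ℕ, 1 ≤ n → Lam k R β z₀ (hm D' k (D' * n ^ 2)) = 0 := by
    intro n hn
    have hN : 1 ≤ D' * n := Nat.mul_pos (by omega) hn
    have hNpos : (0 : ℤ) < ((((D' * n : ℕ) : ℕ) ^ 2 : ℕ) : ℤ) := by
      have : 0 < (D' * n) ^ 2 := by positivity
      exact_mod_cast this
    -- each term of the functional
    have e1 : Lam k R β z₀ (hm D' k (D' * n ^ 2)) = (1 / 2) *
        ∑ C ∈ Finset.range (D' * n), (jacobiSym C D' : ℂ) * β.sum fun m b => b * ∑ p ∈ UP m,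
          ∑' g : SL(2, ℤ), ((qv (act (act ![0, (D' * n : ℕ), C] (sm g)) (um m p)) z₀) ^ k)⁻¹ := by
      unfold Lam Finsupp.sum
      have e2 : ∀ m ∈ β.support, β m * ∑ p ∈ UP m, ∑ i,
          ((jf (sm (R i) * um m p) z₀) ^ (2 * k))⁻¹ *
            hm D' k (D' * n ^ 2) (mb (sm (R i) * um m p) z₀) =
          β m * ∑ p ∈ UP m, (1 / 2) * ∑ C ∈ Finset.range (D' * n), (jacobiSym C D' : ℂ) *
            ∑' g : SL(2, ℤ), ((qv (act (act ![0, (D' * n : ℕ), C] (sm g)) (um m p)) z₀) ^ k)⁻¹ := by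
        intro m _
        congr 1
        apply Finset.sum_congr rfl
        intro p hp
        have e3 := (hTrB D' n ι iι R (FF k z₀ (um m p)) hD hn hR
          (ff_summable hHC (by omega) hz₀ (um_det hp) hNpos)).2.2
        rw [← show ∑ i, ∑' Q : LO.Frm, WD D' (D' * n ^ 2) Q *
            FF k z₀ (um m p) (act Q (sm (R i))) = ∑ i,
          ((jf (sm (R i) * um m p) z₀) ^ (2 * k))⁻¹ *
            hm D' k (D' * n ^ 2) (mb (sm (R i) * um m p) z₀) from
          Finset.sum_congr rfl fun i _ => (lam_term hz₀ (R i) (um_det hp)).symm]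
        rw [e3]
        rfl
      rw [Finset.sum_congr rfl e2]
      simp only [Finset.mul_sum]
      rw [Finset.sum_congr rfl fun m _ => Finset.sum_comm, Finset.sum_comm]
      apply Finset.sum_congr rfl
      intro C _
      apply Finset.sum_congr rfl
      intro m _
      apply Finset.sum_congr rfl
      intro p _
      ring
    rw [e1]
    have e4 : ∀ C ∈ Finset.range (D' * n), (jacobiSym C D' : ℂ) * (β.sum fun m b => b *
        ∑ p ∈ UP m, ∑' g : SL(2, ℤ),
          ((qv (act (act ![0, (D' * n : ℕ), C] (sm g)) (um m p)) z₀) ^ k)⁻¹) =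
        (2 * Cw w * f (ofComplex z₀) / (Bk k * (Complex.I ^ k)⁻¹ * ((D' * n : ℕ) : ℂ) ^ k)) *
          ((jacobiSym C D' : ℂ) * Vt f k (D' * n) C) := by
      intro C _
      have e5 := hVer k w (D' * n) C f β z₀ hw hk6 hk2 hβ0 hKerId hN hz₀
      have e6 : (Bk k * (Complex.I ^ k)⁻¹ * ((D' * n : ℕ) : ℂ) ^ k : ℂ) ≠ 0 := by
        have a1 : ((Bk k : ℝ) : ℂ) ≠ 0 := by exact_mod_cast (bk_pos k).ne'
        have a2 : (Complex.I ^ k)⁻¹ ≠ 0 := inv_ne_zero (pow_ne_zero _ Complex.I_ne_zero)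
        have a3 : (((D' * n : ℕ) : ℂ) ^ k) ≠ 0 := by
          apply pow_ne_zero
          exact_mod_cast (by omega : D' * n ≠ 0)
        exact mul_ne_zero (mul_ne_zero a1 a2) a3
      rw [div_mul_eq_mul_div, eq_div_iff e6]
      linear_combination (-(jacobiSym C D' : ℂ)) * e5
    rw [Finset.sum_congr rfl e4, ← Finset.mul_sum, hChi k w D' n f G hw (by omega) hf hD hG hn hLx0,
      mul_zero, mul_zero]
  have hLam1 := hPr D' k G ι iι R β z₀ hD hG hk6 hk2 hz₀ hβ0 hvan
  -- the functional at the form attached to `1`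
  have hLamE : Lam k R β z₀ (hm D' k 1) =
      β.sum fun m b => b * ∑ p ∈ UP m, ∑' Q : DQ D', FF k z₀ (um m p) Q.1 := by
    unfold Lam Finsupp.sum
    apply Finset.sum_congr rfl
    intro m _
    show β m * _ = β m * _
    congr 1
    apply Finset.sum_congr rfl
    intro p hp
    have e3 := (hTrA D' ι iι R (FF k z₀ (um m p)) hD hR
      (ff_summable hHC (by omega) hz₀ (um_det hp) hDpos)).2
    rw [← e3]
    apply Finset.sum_congr rfl
    intro i _
    exact lam_term hz₀ (R i) (um_det hp)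
  rw [hLamE] at hLam1
  -- the periods
  obtain ⟨hdq, κ, hκ, hNarE⟩ := hNar D' K s q hD hD1 hK hs hq
  set c : ℂ := -2 * ((D' : ℂ) ^ k / Real.sqrt D') * Bk k with hc
  have hcyc : ∀ Q : LO.Frm, disc Q = D' → 0 < Q 0 →
      2 * Cw w * f (ofComplex z₀) * cyc k f Q (eps D' t u) =
        c * β.sum fun m b => b * ∑ p ∈ UP m, ∑' Q' : Orb (mir Q), FF k z₀ (um m p) Q'.1 := by
    intro Q hQ hQ0
    exact hGeo k w D' f β t u Q z₀ hw hk6 hk2 hβ0 hKerId hD hD1 hQ hQ0 hFund hz₀
  have hsumm : 2 * Cw w * f (ofComplex z₀) * torPer k f D' t u q = 0 := by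
    unfold LO.torPer
    rw [Finset.mul_sum]
    have e7 : ∀ a ∈ (Finset.univ : Finset (ClassGroup (NumberField.RingOfIntegers K))),
        2 * Cw w * f (ofComplex z₀) * (cyc k f (q a) (eps D' t u) +
          cyc k f (mir (q a)) (eps D' t u)) =
        c * β.sum fun m b => b * ∑ p ∈ UP m, (∑' Q' : Orb (q a), FF k z₀ (um m p) Q'.1 +
          ∑' Q' : Orb (mir (q a)), FF k z₀ (um m p) Q'.1) := by
      intro a _
      have h1 : disc (mir (q a)) = D' := by
        rw [LO.disc_mir]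
        exact hdq a
      have h2 : 0 < (mir (q a)) 0 := (hq a).1
      have h3 := hcyc (mir (q a)) h1 h2
      rw [LO.mir_mir] at h3
      rw [mul_add, hcyc (q a) (hdq a) (hq a).1, h3, ← mul_add]
      congr 1
      unfold Finsupp.sum
      rw [← Finset.sum_add_distrib]
      apply Finset.sum_congr rfl
      intro m _
      rw [← mul_add, ← Finset.sum_add_distrib]
      congr 1
      apply Finset.sum_congr rfl
      intro p _
      rw [add_comm]
    rw [Finset.sum_congr rfl e7, ← Finset.mul_sum]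
    have e8 : ∑ a : ClassGroup (NumberField.RingOfIntegers K), (β.sum fun m b => b *
        ∑ p ∈ UP m, (∑' Q' : Orb (q a), FF k z₀ (um m p) Q'.1 +
          ∑' Q' : Orb (mir (q a)), FF k z₀ (um m p) Q'.1)) =
        κ * β.sum fun m b => b * ∑ p ∈ UP m, ∑' Q : DQ D', FF k z₀ (um m p) Q.1 := by
      unfold Finsupp.sum
      rw [Finset.sum_comm, Finset.mul_sum]
      apply Finset.sum_congr rfl
      intro m _
      show ∑ a : ClassGroup (NumberField.RingOfIntegers K), β m * _ = κ * (β m * _)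
      rw [← Finset.mul_sum, mul_left_comm κ (β m)]
      congr 1
      rw [Finset.sum_comm, Finset.mul_sum]
      apply Finset.sum_congr rfl
      intro p hp
      exact hNarE (FF k z₀ (um m p)) (ff_neg hk2 z₀ _)
        (ff_summable hHC (by omega) hz₀ (um_det hp) hDpos)
    rw [e8, hLam1, mul_zero, mul_zero]
  rcases mul_eq_zero.mp hsumm with h | h
  · exact absurd h (mul_ne_zero (mul_ne_zero two_ne_zero (cw_ne w)) hfz)
  · exact h

end LC

end Pool.Agent.Lib.MP_7c5fb9_nt
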