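import Mathlib
import Pool.Agent.Lib.MP_7c5fb9_nt.LC.St

set_option autoImplicit false

/-!
# Project LC (MP_7c5fb9_nt): Möbius inversion (module Moe)
-/

namespace Pool.Agent.Lib.MP_7c5fb9_nt

namespace LC

namespace MoeA

open Pool.Agent.Lib.MP_7c08ba_nt.RZ ArithmeticFunction

/-- the completely multiplicative function `χ(h) h^(k-1)` -/
noncomputable def ph (D k : ℕ) (h : ℕ) : ℂ := (jacobiSym h D : ℂ) * (h : ℂ) ^ (k - 1)

theorem ph_mul (D k a b : ℕ) : ph D k (a * b) = ph D k a * ph D k b := by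
  unfold ph
  push_cast
  rw [jacobiSym.mul_left]
  push_cast
  rw [mul_pow]
  ring

theorem ph_one (D k : ℕ) : ph D k 1 = 1 := by
  unfold ph
  simp [jacobiSym.one_left]

theorem ph_norm (D k h : ℕ) : ‖ph D k h‖ ≤ (h : ℝ) ^ (k - 1) := by
  unfold ph
  rw [norm_mul, norm_pow, Complex.norm_natCast]
  have h1 : ‖((jacobiSym (h : ℤ) D : ℤ) : ℂ)‖ ≤ 1 := by
    rcases jacobiSym.trichotomy (h : ℤ) D with h0 | h0 | h0 <;> rw [h0] <;> simp
  calc _ ≤ 1 * (h : ℝ) ^ (k - 1) := by gcongr
    _ = _ := one_mul _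

/-- as an arithmetic function -/
noncomputable def phA (D k : ℕ) : ArithmeticFunction ℂ :=
  ⟨fun n => if n = 0 then 0 else ph D k n, by simp⟩

/-- an arithmetic function from a function -/
noncomputable def toA (f : ℕ → ℂ) : ArithmeticFunction ℂ :=
  ⟨fun n => if n = 0 then 0 else f n, by simp⟩

theorem toA_apply (f : ℕ → ℂ) {n : ℕ} (hn : n ≠ 0) : toA f n = f n := if_neg hn

theorem toA_mul (f g : ℕ → ℂ) {n : ℕ} (hn : n ≠ 0) :
    (toA f * toA g) n = ∑ h ∈ n.divisors, f h * g (n / h) := by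
  rw [ArithmeticFunction.mul_apply, Nat.sum_divisorsAntidiagonal (fun a b => toA f a * toA g b)]
  apply Finset.sum_congr rfl
  intro h hh
  have h1 := Nat.dvd_of_mem_divisors hh
  have h2 : h ≠ 0 := by
    rintro rfl
    exact hn (Nat.eq_zero_of_zero_dvd h1)
  have h3 : n / h ≠ 0 := by
    have := Nat.div_pos (Nat.le_of_dvd (Nat.pos_of_ne_zero hn) h1) (Nat.pos_of_ne_zero h2)
    omega
  rw [toA_apply f h2, toA_apply g h3]

theorem ph_inv (D k : ℕ) :
    toA (ph D k) * toA (fun h => (ArithmeticFunction.moebius h : ℂ) * ph D k h) = 1 := by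
  ext n
  rcases Nat.eq_zero_or_pos n with h0 | h0
  · subst h0
    simp
  · have hn : n ≠ 0 := by omega
    rw [toA_mul _ _ hn]
    have h1 : ∀ h ∈ n.divisors, ph D k h * ((ArithmeticFunction.moebius (n / h) : ℂ) *
        ph D k (n / h)) = ph D k n * (ArithmeticFunction.moebius (n / h) : ℂ) := by
      intro h hh
      have h2 : h * (n / h) = n := Nat.mul_div_cancel' (Nat.dvd_of_mem_divisors hh)
      calc _ = (ph D k h * ph D k (n / h)) * (ArithmeticFunction.moebius (n / h) : ℂ) := by ring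
        _ = _ := by rw [← ph_mul, h2]
    rw [Finset.sum_congr rfl h1, ← Finset.mul_sum,
      Nat.sum_div_divisors n (fun h => ((ArithmeticFunction.moebius h : ℤ) : ℂ))]
    have h3 : ∑ i ∈ n.divisors, ArithmeticFunction.moebius i = (1 : ArithmeticFunction ℤ) n := by
      rw [← ArithmeticFunction.moebius_mul_coe_zeta, ArithmeticFunction.coe_mul_zeta_apply]
    rw [← Int.cast_sum, h3, ArithmeticFunction.one_apply, ArithmeticFunction.one_apply]
    split_ifs with h4
    · subst h4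
      simp [ph_one]
    · simp

theorem dl_zero {D m : ℕ} (hm : 1 ≤ m) : dl D m 0 = 0 := by
  unfold dl
  rw [if_neg]
  simp only [ne_eq, OfNat.ofNat_ne_zero, not_false_eq_true, zero_pow, mul_zero]
  omega

theorem c_rel (D k : ℕ) (G : ℂ) (hD : 1 ≤ D) (hG : G ^ 2 = D) :
    c3 D k G * c2 D k G = c1 D k := by
  unfold c1 c2 c3
  have h1 : ((D : ℕ) : ℂ) ≠ 0 := by exact_mod_cast (by omega : D ≠ 0)
  have h2 : (((k - 1).factorial : ℕ) : ℂ) ≠ 0 := by exact_mod_cast (Nat.factorial_ne_zero _)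
  have h3 : ((-1 : ℂ) ^ (k / 2)) ^ 2 = 1 := by
    rw [← pow_mul, mul_comm, pow_mul]
    simp
  have h4 : ((2 * Real.pi : ℂ) ^ k) * ((Real.pi / 2 : ℂ) ^ k) = (Real.pi : ℂ) ^ (2 * k) := by
    rw [← mul_pow, pow_mul]
    congr 1
    ring
  calc _ = ((-1 : ℂ) ^ (k / 2)) ^ 2 * ((2 * Real.pi : ℂ) ^ k * ((Real.pi / 2 : ℂ) ^ k)) * G ^ 2 *
        (4 * Real.sqrt Real.pi) / (D * (D ^ k * ((k - 1).factorial : ℂ))) := by
        field_simp
        ring
    _ = _ := by
        rw [h3, h4, hG]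
        field_simp

/-- the relation between the two kinds of coefficients -/
theorem an_eq (D k m : ℕ) (G : ℂ) (hD : 1 ≤ D) (hG : G ^ 2 = D) {n : ℕ} (hn : n ≠ 0) :
    an D k m G n = c3 D k G * ∑ h ∈ n.divisors, ph D k h * cm D k m G (n / h) := by
  have e1 : an D k m G n = (c3 D k G • (toA (ph D k) * toA (dl D m)) +
      c1 D k • toA (bn D k m)) n := by
    rw [ArithmeticFunction.add_apply, ArithmeticFunction.smul_map, ArithmeticFunction.smul_map,
      toA_mul _ _ hn, toA_apply _ hn]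
    rfl
  have e2 : toA (cm D k m G) = toA (dl D m) + c2 D k G •
      (toA (fun h => (ArithmeticFunction.moebius h : ℂ) * ph D k h) * toA (bn D k m)) := by
    ext l
    rcases Nat.eq_zero_or_pos l with h0 | h0
    · subst h0
      simp
    · have hl : l ≠ 0 := by omega
      rw [ArithmeticFunction.add_apply, ArithmeticFunction.smul_map, toA_mul _ _ hl, toA_apply _ hl,
        toA_apply _ hl]
      unfold cm ph
      rw [smul_eq_mul]
      congr 2
      apply Finset.sum_congr rfl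
      intro h _
      ring
  have e3 : c3 D k G • (toA (ph D k) * toA (cm D k m G)) =
      c3 D k G • (toA (ph D k) * toA (dl D m)) + c1 D k • toA (bn D k m) := by
    rw [e2, mul_add, smul_add, mul_smul_comm, ← mul_assoc, ph_inv, one_mul, smul_smul,
      c_rel D k G hD hG]
  rw [e1, ← e3, ArithmeticFunction.smul_map, toA_mul _ _ hn]
  rfl

end MoeA

end LC

end Pool.Agent.Lib.MP_7c5fb9_nt
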