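import Mathlib
import Pool.Agent.Lib.MP_7c5fb9_nt.LC.St
import Pool.Agent.Lib.MP_7c5fb9_nt.LC.Moe

set_option autoImplicit false

/-!
# Project LC (MP_7c5fb9_nt): the projection (module Pr)
-/

namespace Pool.Agent.Lib.MP_7c5fb9_nt

namespace LC

open MeasureTheory UpperHalfPlane Set Pool.Agent.Lib.MP_7c08ba_nt.RZ
open LO (Mat disc act mir qv mb cyc Fund eps aut FormOf torPer NonVan)
open scoped MatrixGroups ComplexConjugate

namespace PrA

/-! ### the scalar products with the elements of index `D n^2` -/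

theorem pr_eq {D : ℕ} (hD : Ok D) (n : ℕ) : pr (D * n ^ 2) = pr n := by
  have h1 : D % 2 = 1 := by
    have := hD.mod
    omega
  have h2 : (D * n ^ 2) % 2 = n % 2 := by
    rw [Nat.mul_mod, h1, Nat.pow_mod]
    rcases Nat.mod_two_eq_zero_or_one n with h | h <;> rw [h]
  unfold pr
  rw [h2]

theorem adm_sq {D : ℕ} (hD : Ok D) (n : ℕ) : Adm (D * n ^ 2) := by
  have h1 := hD.mod
  have h2 : n % 4 = 0 ∨ n % 4 = 1 ∨ n % 4 = 2 ∨ n % 4 = 3 := by omega
  unfold Adm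
  rw [Nat.mul_mod, h1, Nat.pow_mod]
  rcases h2 with h | h | h | h <;> rw [h] <;> simp

theorem conj_ee (r x y : ℝ) : conj (ee ((r : ℂ) * (x + y * Complex.I) / 4)) =
    ee (-(r : ℂ) * (x + y * Complex.I) / 4) * ((Real.exp (-(Real.pi * r * y)) : ℝ) : ℂ) := by
  unfold ee
  rw [← Complex.exp_conj, Complex.ofReal_exp, ← Complex.exp_add]
  congr 1
  simp only [map_mul, map_div₀, map_add, Complex.conj_ofReal, Complex.conj_I, map_ofNat]
  push_cast
  linear_combination ((Real.pi : ℂ) * r * y) * Complex.I_sq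

theorem gam_int {k : ℕ} (hk : 1 ≤ k) {r : ℝ} (hr : 0 < r) :
    ∫ y in Ioi (0 : ℝ), Real.exp (-(r * y)) * y ^ ((k : ℝ) - 3 / 2) =
      (1 / r) ^ ((k : ℝ) - 1 / 2) * Real.Gamma ((k : ℝ) - 1 / 2) := by
  have h1 : (1 : ℝ) ≤ k := by exact_mod_cast hk
  rw [← Real.integral_rpow_mul_exp_neg_mul_Ioi (by linarith) hr]
  apply setIntegral_congr_fun measurableSet_Ioi
  intro y _
  show Real.exp (-(r * y)) * y ^ ((k : ℝ) - 3 / 2) =
    y ^ ((k : ℝ) - 1 / 2 - 1) * Real.exp (-(r * y))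
  rw [mul_comm, show (k : ℝ) - 1 / 2 - 1 = (k : ℝ) - 3 / 2 by ring]

/-- the constant of index `n` -/
noncomputable def kp (D k n : ℕ) : ℝ :=
  (Real.pi * (D * n ^ 2 : ℕ)) ^ ((k : ℝ) - 1 / 2) / Real.Gamma ((k : ℝ) - 1 / 2)

theorem pi_eq (hCm : StCm) (D k m n : ℕ) (G : ℂ) (hD : Ok D) (hG : GS D G) (hk : 6 ≤ k)
    (hk2 : Even k) (hm : Adm m) (hm1 : 1 ≤ m) (hn : 1 ≤ n) :
    cm D k m G n = (kp D k n : ℂ) * PI D k m (D * n ^ 2) := by
  have hD1 : 1 ≤ D := by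
    have := hD.mod
    omega
  have hr : 0 < Real.pi * ((D * n ^ 2 : ℕ) : ℝ) := by
    have : 0 < D * n ^ 2 := by positivity
    have : (0 : ℝ) < ((D * n ^ 2 : ℕ) : ℝ) := by exact_mod_cast this
    positivity
  have h0 : (1 : ℝ) ≤ k := by exact_mod_cast (by omega : 1 ≤ k)
  have hg : 0 < Real.Gamma ((k : ℝ) - 1 / 2) := Real.Gamma_pos_of_pos (by linarith)
  have h1 : PI D k m (D * n ^ 2) = cm D k m G n *
      (((1 / (Real.pi * (D * n ^ 2 : ℕ))) ^ ((k : ℝ) - 1 / 2) *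
        Real.Gamma ((k : ℝ) - 1 / 2) : ℝ) : ℂ) := by
    rw [← gam_int (by omega : 1 ≤ k) hr, ← integral_complex_ofReal, ← integral_const_mul]
    unfold PI
    apply setIntegral_congr_fun measurableSet_Ioi
    intro y hy
    have hy' : 0 < y := hy
    show (∫ x in (0 : ℝ)..1, PP D k m (x + y * Complex.I) (pr (D * n ^ 2)) *
      conj (ee (((D * n ^ 2 : ℕ) : ℂ) * (x + y * Complex.I) / 4))) *
        ((y ^ ((k : ℝ) - 3 / 2) : ℝ) : ℂ) = cm D k m G n *
          ((Real.exp (-(Real.pi * (D * n ^ 2 : ℕ) * y)) * y ^ ((k : ℝ) - 3 / 2) : ℝ) : ℂ)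
    rw [Complex.ofReal_mul, ← mul_assoc, pr_eq hD]
    congr 1
    rw [← hCm D k m n G y hD hG hk hk2 hm hm1 hn hy', ← intervalIntegral.integral_mul_const]
    congr 1
    funext x
    have h2 := conj_ee ((D * n ^ 2 : ℕ) : ℝ) x y
    rw [mul_assoc (PP D k m (x + y * Complex.I) (pr n))]
    congr 1
    push_cast at h2 ⊢
    rw [h2]
  rw [h1]
  unfold kp
  rw [mul_comm, mul_assoc, ← Complex.ofReal_mul]
  have h3 : (1 / (Real.pi * ((D * n ^ 2 : ℕ) : ℝ))) ^ ((k : ℝ) - 1 / 2) *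
      Real.Gamma ((k : ℝ) - 1 / 2) * ((Real.pi * ((D * n ^ 2 : ℕ) : ℝ)) ^ ((k : ℝ) - 1 / 2) /
        Real.Gamma ((k : ℝ) - 1 / 2)) = 1 := by
    rw [one_div, Real.inv_rpow hr.le]
    have h4 : 0 < (Real.pi * ((D * n ^ 2 : ℕ) : ℝ)) ^ ((k : ℝ) - 1 / 2) := Real.rpow_pos_of_pos hr _
    generalize (Real.pi * ((D * n ^ 2 : ℕ) : ℝ)) ^ ((k : ℝ) - 1 / 2) = a at h4 ⊢
    generalize Real.Gamma ((k : ℝ) - 1 / 2) = b at hg ⊢
    field_simp
  rw [h3]
  simp

theorem kp_nonneg {D k n : ℕ} (hk : 1 ≤ k) : 0 ≤ kp D k n := by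
  have h0 : (1 : ℝ) ≤ k := by exact_mod_cast hk
  have hg : 0 < Real.Gamma ((k : ℝ) - 1 / 2) := Real.Gamma_pos_of_pos (by linarith)
  unfold kp
  positivity

theorem kp_le {D k n n' : ℕ} (hk : 1 ≤ k) (h : n ≤ n') (hn : 1 ≤ n') :
    kp D k n ≤ kp D k 1 * (n' : ℝ) ^ (2 * k) := by
  have h0 : (1 : ℝ) ≤ k := by exact_mod_cast hk
  have hg : 0 < Real.Gamma ((k : ℝ) - 1 / 2) := Real.Gamma_pos_of_pos (by linarith)
  unfold kp
  rw [div_mul_eq_mul_div]
  apply div_le_div_of_nonneg_right _ hg.le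
  have h1 : (Real.pi * ((D * n ^ 2 : ℕ) : ℝ)) ≤ (Real.pi * ((D * 1 ^ 2 : ℕ) : ℝ)) *
      (n' : ℝ) ^ 2 := by
    push_cast
    have : (n : ℝ) ≤ n' := by exact_mod_cast h
    have h3 : (n : ℝ) ^ 2 ≤ (n' : ℝ) ^ 2 := by gcongr
    have h4 : 0 ≤ Real.pi * (D : ℝ) := by positivity
    nlinarith
  have h2 : (1 : ℝ) ≤ n' := by exact_mod_cast hn
  calc _ ≤ ((Real.pi * ((D * 1 ^ 2 : ℕ) : ℝ)) * (n' : ℝ) ^ 2) ^ ((k : ℝ) - 1 / 2) :=
        Real.rpow_le_rpow (by positivity) h1 (by linarith)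
    _ = (Real.pi * ((D * 1 ^ 2 : ℕ) : ℝ)) ^ ((k : ℝ) - 1 / 2) *
        ((n' : ℝ) ^ 2) ^ ((k : ℝ) - 1 / 2) := Real.mul_rpow (by positivity) (by positivity)
    _ ≤ _ := by
        apply mul_le_mul_of_nonneg_left _ (by positivity)
        rw [pow_mul, ← Real.rpow_natCast ((n' : ℝ) ^ 2) k]
        apply Real.rpow_le_rpow_of_exponent_le _ (by linarith)
        nlinarith

/-! ### the functionals -/

section

variable {E : Type} [NormedAddCommGroup E] [InnerProductSpace ℂ E] (e : ℕ → E)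

/-- the functional giving the coefficient of index `n` -/
noncomputable def Tn (D k : ℕ) (G : ℂ) (n : ℕ) : E →L[ℂ] ℂ :=
  c3 D k G • ∑ h ∈ n.divisors, (MoeA.ph D k h * (kp D k (n / h) : ℂ)) •
    innerSL ℂ (e (D * (n / h) ^ 2))

theorem tn_apply (D k : ℕ) (G : ℂ) (n : ℕ) (v : E) : Tn e D k G n v =
    c3 D k G * ∑ h ∈ n.divisors, (MoeA.ph D k h * (kp D k (n / h) : ℂ)) *
      inner ℂ (e (D * (n / h) ^ 2)) v := by
  unfold Tn
  rw [ContinuousLinearMap.coe_smul', Pi.smul_apply, ContinuousLinearMap.sum_apply, smul_eq_mul]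
  congr 1

theorem div_pos' {n h : ℕ} (hn : 1 ≤ n) (hh : h ∈ n.divisors) : 1 ≤ n / h ∧ n / h ≤ n ∧ h ≤ n := by
  have h1 := Nat.dvd_of_mem_divisors hh
  have h2 : 0 < h := Nat.pos_of_mem_divisors hh
  exact ⟨Nat.div_pos (Nat.le_of_dvd hn h1) h2, Nat.div_le_self _ _, Nat.le_of_dvd hn h1⟩

theorem tn_coef (hCm : StCm) (D k m : ℕ) (G : ℂ) (hD : Ok D) (hG : GS D G) (hk : 6 ≤ k)
    (hk2 : Even k) (hm : Adm m) (hm1 : 1 ≤ m)
    (he : ∀ m m', Adm m → Adm m' → 1 ≤ m → 1 ≤ m' → inner ℂ (e m') (e m) = PI D k m m')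
    {n : ℕ} (hn : 1 ≤ n) : Tn e D k G n (e m) = an D k m G n := by
  have hD1 : 1 ≤ D := by
    have := hD.mod
    omega
  rw [tn_apply, MoeA.an_eq D k m G hD1 hG.sq (by omega)]
  congr 1
  apply Finset.sum_congr rfl
  intro h hh
  obtain ⟨h1, -, -⟩ := div_pos' hn hh
  have h3 : 1 ≤ D * (n / h) ^ 2 := Nat.mul_pos hD1 (pow_pos (by omega) 2)
  rw [pi_eq hCm D k m (n / h) G hD hG hk hk2 hm hm1 h1,
    he m (D * (n / h) ^ 2) hm (adm_sq hD _) hm1 h3]
  ring

theorem tn_norm (D k : ℕ) (G : ℂ) (hD : Ok D) (hk : 6 ≤ k) {B : ℝ}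
    (hB : ∀ m, Adm m → 1 ≤ m → ‖e m‖ ≤ B) {n : ℕ} (hn : 1 ≤ n) :
    ‖Tn e D k G n‖ ≤ (‖c3 D k G‖ * kp D k 1 * B) * (n : ℝ) ^ (3 * k) := by
  have hD1 : 1 ≤ D := by
    have := hD.mod
    omega
  have hB0 : 0 ≤ B := le_trans (norm_nonneg _) (hB 4 (Or.inl rfl) (by norm_num))
  have hn' : (1 : ℝ) ≤ n := by exact_mod_cast hn
  unfold Tn
  rw [norm_smul]
  have h1 : ‖∑ h ∈ n.divisors, (MoeA.ph D k h * (kp D k (n / h) : ℂ)) •
      innerSL ℂ (e (D * (n / h) ^ 2))‖ ≤ ∑ h ∈ n.divisors,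
        (n : ℝ) ^ (k - 1) * (kp D k 1 * (n : ℝ) ^ (2 * k)) * B := by
    apply (norm_sum_le _ _).trans
    apply Finset.sum_le_sum
    intro h hh
    obtain ⟨g1, g2, g3⟩ := div_pos' hn hh
    have h3 : 1 ≤ D * (n / h) ^ 2 := Nat.mul_pos hD1 (pow_pos (by omega) 2)
    rw [norm_smul, norm_mul, innerSL_apply_norm, Complex.norm_real, Real.norm_of_nonneg
      (kp_nonneg (by omega))]
    have a1 : ‖MoeA.ph D k h‖ ≤ (n : ℝ) ^ (k - 1) :=
      (MoeA.ph_norm D k h).trans (by gcongr)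
    have a2 := kp_le (D := D) (k := k) (by omega) g2 hn
    have a3 := hB _ (adm_sq hD (n / h)) h3
    have a4 := kp_nonneg (D := D) (k := k) (n := n / h) (by omega)
    have a5 := kp_nonneg (D := D) (k := k) (n := 1) (by omega)
    gcongr
  have h2 : ∑ h ∈ n.divisors, (n : ℝ) ^ (k - 1) * (kp D k 1 * (n : ℝ) ^ (2 * k)) * B ≤
      (kp D k 1 * B) * (n : ℝ) ^ (3 * k) := by
    rw [Finset.sum_const, nsmul_eq_mul]
    have h3 : ((n.divisors.card : ℕ) : ℝ) ≤ n := by exact_mod_cast Nat.card_divisors_le_self n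
    have a5 := kp_nonneg (D := D) (k := k) (n := 1) (by omega)
    calc _ ≤ (n : ℝ) * ((n : ℝ) ^ (k - 1) * (kp D k 1 * (n : ℝ) ^ (2 * k)) * B) := by gcongr
      _ = (kp D k 1 * B) * ((n : ℝ) ^ (k - 1) * n * (n : ℝ) ^ (2 * k)) := by ring
      _ = _ := by
          rw [← pow_succ, ← pow_add]
          congr 2
          omega
  calc _ ≤ ‖c3 D k G‖ * ((kp D k 1 * B) * (n : ℝ) ^ (3 * k)) := by
        gcongr
        exact h1.trans h2
    _ = _ := by ring

theorem norm_ee (z : ℂ) : ‖ee z‖ = Real.exp (-(2 * Real.pi * z.im)) := by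
  unfold ee
  rw [Complex.norm_exp]
  congr 1
  simp only [Complex.mul_re, Complex.mul_im, Complex.re_ofNat, Complex.im_ofNat, Complex.ofReal_re,
    Complex.ofReal_im, Complex.I_re, Complex.I_im]
  ring

theorem exists_L (hCm : StCm) (hHE : StHE) (D k : ℕ) (G : ℂ) (hD : Ok D) (hG : GS D G)
    (hk : 6 ≤ k) (hk2 : Even k) {B : ℝ} (hB : ∀ m, Adm m → 1 ≤ m → ‖e m‖ ≤ B)
    (he : ∀ m m', Adm m → Adm m' → 1 ≤ m → 1 ≤ m' → inner ℂ (e m') (e m) = PI D k m m')
    (z : ℂ) (hz : 0 < z.im) :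
    ∃ L : E →L[ℂ] ℂ, (∀ m, Adm m → 1 ≤ m → L (e m) = hm D k m z) ∧
      ∀ v : E, (∀ n, 1 ≤ n → inner ℂ (e (D * n ^ 2)) v = 0) → L v = 0 := by
  set C := ‖c3 D k G‖ * kp D k 1 * B with hC
  -- summability
  have hsum : Summable fun n : ℕ => ee (((n + 1 : ℕ) : ℂ) * z) • Tn e D k G (n + 1) := by
    apply Summable.of_norm_bounded (g := fun n : ℕ => C * (((n + 1 : ℕ) : ℝ) ^ (3 * k) *
      Real.exp (-(2 * Real.pi * z.im)) ^ (n + 1)))
    · apply Summable.mul_left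
      have h1 : Summable fun n : ℕ => ((n : ℝ) ^ (3 * k) *
          Real.exp (-(2 * Real.pi * z.im)) ^ n) := by
        apply summable_pow_mul_geometric_of_norm_lt_one
        rw [Real.norm_of_nonneg (Real.exp_pos _).le, Real.exp_lt_one_iff]
        have := Real.pi_pos
        have : 0 < 2 * Real.pi * z.im := by positivity
        linarith
      exact (summable_nat_add_iff 1).mpr h1
    · intro n
      rw [norm_smul, norm_ee]
      have h2 := tn_norm e D k G hD hk hB (n := n + 1) (by omega)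
      have h3 : Real.exp (-(2 * Real.pi * (((n + 1 : ℕ) : ℂ) * z).im)) =
          Real.exp (-(2 * Real.pi * z.im)) ^ (n + 1) := by
        rw [← Real.exp_nat_mul]
        congr 1
        rw [Complex.mul_im, Complex.natCast_re, Complex.natCast_im]
        push_cast
        ring
      rw [h3]
      calc _ ≤ Real.exp (-(2 * Real.pi * z.im)) ^ (n + 1) *
            (C * ((n + 1 : ℕ) : ℝ) ^ (3 * k)) := by gcongr
        _ = _ := by ring
  refine ⟨∑' n : ℕ, ee (((n + 1 : ℕ) : ℂ) * z) • Tn e D k G (n + 1), ?_, ?_⟩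
  · intro m hm hm1
    have hbd : ∃ (C : ℝ) (A : ℕ), ∀ n : ℕ, 1 ≤ n → ‖an D k m G n‖ ≤ C * (n : ℝ) ^ A := by
      refine ⟨C * ‖e m‖, 3 * k, ?_⟩
      intro n hn
      rw [← tn_coef e hCm D k m G hD hG hk hk2 hm hm1 he hn]
      calc _ ≤ ‖Tn e D k G n‖ * ‖e m‖ := ContinuousLinearMap.le_opNorm _ _
        _ ≤ (C * (n : ℝ) ^ (3 * k)) * ‖e m‖ := by
            gcongr
            exact tn_norm e D k G hD hk hB hn
        _ = _ := by ring
    have h1 := hHE D k m G z hD hG hk hk2 hm hm1 hbd hz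
    have h2 := (ContinuousLinearMap.apply ℂ ℂ (e m)).hasSum hsum.hasSum
    have h3 : (fun n : ℕ => (ContinuousLinearMap.apply ℂ ℂ (e m))
        (ee (((n + 1 : ℕ) : ℂ) * z) • Tn e D k G (n + 1))) =
        fun n : ℕ => an D k m G (n + 1) * ee (((n + 1 : ℕ) : ℂ) * z) := by
      funext n
      rw [ContinuousLinearMap.apply_apply, ContinuousLinearMap.coe_smul', Pi.smul_apply,
        tn_coef e hCm D k m G hD hG hk hk2 hm hm1 he (by omega), smul_eq_mul, mul_comm]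
    rw [h3] at h2
    exact h2.unique h1
  · intro v hv
    have h2 := (ContinuousLinearMap.apply ℂ ℂ v).hasSum hsum.hasSum
    have h3 : (fun n : ℕ => (ContinuousLinearMap.apply ℂ ℂ v)
        (ee (((n + 1 : ℕ) : ℂ) * z) • Tn e D k G (n + 1))) = fun _ => 0 := by
      funext n
      rw [ContinuousLinearMap.apply_apply, ContinuousLinearMap.coe_smul', Pi.smul_apply, tn_apply]
      rw [Finset.sum_eq_zero, mul_zero, smul_zero]
      intro h hh
      obtain ⟨g1, -, -⟩ := div_pos' (by omega : 1 ≤ n + 1) hh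
      rw [hv _ g1, mul_zero]
    rw [h3] at h2
    exact h2.unique hasSum_zero

end

/-! ### points -/

theorem um_im {m : ℕ} {p : ℕ × ℕ} (hp : p ∈ UP m) (g : SL(2, ℤ)) {z : ℂ} (hz : 0 < z.im) :
    0 < (mb (sm g * um m p) z).im := by
  have h1 : p.1 ∈ m.divisors := by
    unfold UP at hp
    exact (Finset.mem_product.mp (Finset.mem_filter.mp hp).1).1
  have h2 : p.1 ∣ m := Nat.dvd_of_mem_divisors h1
  have h3 : 0 < p.1 := Nat.pos_of_mem_divisors h1
  have h4 : 0 < m / p.1 := Nat.div_pos (Nat.le_of_dvd (Nat.pos_of_ne_zero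
    (Nat.mem_divisors.mp h1).2) h2) h3
  have hdet : 0 < (sm g * um m p).det := by
    rw [Matrix.det_mul]
    have : (sm g).det = 1 := g.2
    rw [this, one_mul]
    unfold um
    rw [Matrix.det_fin_two_of]
    simp only [mul_zero, sub_zero]
    positivity
  set M := sm g * um m p with hM
  rw [Matrix.det_fin_two] at hdet
  have hden : ((M 1 0 : ℂ) * z + M 1 1) ≠ 0 := by
    intro h
    have him := congrArg Complex.im h
    simp only [Complex.add_im, Complex.mul_im, Complex.intCast_re, Complex.intCast_im, zero_mul,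
      add_zero, Complex.zero_im] at him
    have h5 : (M 1 0 : ℝ) = 0 := by
      rcases mul_eq_zero.mp him with h6 | h6
      · exact h6
      · exact absurd h6 hz.ne'
    have h7 : M 1 0 = 0 := by exact_mod_cast h5
    rw [h7] at h
    simp only [Int.cast_zero, zero_mul, zero_add, Int.cast_eq_zero] at h
    rw [h7, h] at hdet
    simp at hdet
  have key : (mb M z).im = ((M 0 0 * M 1 1 - M 0 1 * M 1 0 : ℤ) : ℝ) * z.im /
      Complex.normSq ((M 1 0 : ℂ) * z + M 1 1) := by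
    unfold LO.mb
    rw [Complex.div_im]
    simp only [Complex.add_im, Complex.mul_im, Complex.intCast_re, Complex.intCast_im, zero_mul,
      add_zero, Complex.add_re, Complex.mul_re, sub_zero]
    push_cast
    ring
  rw [key]
  have h8 : 0 < Complex.normSq ((M 1 0 : ℂ) * z + M 1 1) := Complex.normSq_pos.mpr hden
  have h9 : (0 : ℝ) < ((M 0 0 * M 1 1 - M 0 1 * M 1 0 : ℤ) : ℝ) := by exact_mod_cast hdet
  positivity

end PrA

open PrA in
theorem stPr (hHil : StHil) (hCm : StCm) (hHE : StHE) : StPr := by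
  intro D k G ι _ R β z₀ hD hG hk hk2 hz₀ hβ hvan
  have hD1 : 1 ≤ D := by
    have := hD.mod
    omega
  obtain ⟨E, i1, i2, i3, e, B, hB, he⟩ := hHil D k hD hk hk2
  have hL := exists_L e hCm hHE D k G hD hG hk hk2 hB he
  choose! L hL1 hL2 using hL
  -- the functional
  set Λ : E →L[ℂ] ℂ := ∑ m ∈ β.support, β m • ∑ p ∈ UP m, ∑ i,
    ((jf (sm (R i) * um m p) z₀) ^ (2 * k))⁻¹ • L (mb (sm (R i) * um m p) z₀) with hΛ
  have hΛ1 : ∀ m', Adm m' → 1 ≤ m' → Λ (e m') = Lam k R β z₀ (hm D k m') := by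
    intro m' hm' hm1'
    rw [hΛ]
    unfold Lam Finsupp.sum
    simp only [ContinuousLinearMap.sum_apply, ContinuousLinearMap.coe_smul', Pi.smul_apply, smul_eq_mul]
    apply Finset.sum_congr rfl
    intro m _
    congr 1
    apply Finset.sum_congr rfl
    intro p hp
    apply Finset.sum_congr rfl
    intro i _
    rw [hL1 _ (um_im hp (R i) hz₀) m' hm' hm1']
  have hΛ2 : ∀ v : E, (∀ n, 1 ≤ n → inner ℂ (e (D * n ^ 2)) v = 0) → Λ v = 0 := by
    intro v hv
    rw [hΛ]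
    simp only [ContinuousLinearMap.sum_apply, ContinuousLinearMap.coe_smul', Pi.smul_apply, smul_eq_mul]
    apply Finset.sum_eq_zero
    intro m _
    rw [Finset.sum_eq_zero, mul_zero]
    intro p hp
    apply Finset.sum_eq_zero
    intro i _
    rw [hL2 _ (um_im hp (R i) hz₀) v hv, mul_zero]
  -- the subspace
  set S : Set E := {v | ∃ n, 1 ≤ n ∧ v = e (D * n ^ 2)} with hS
  set W : Submodule ℂ E := (Submodule.span ℂ S).topologicalClosure with hW
  have : CompleteSpace W := (Submodule.isClosed_topologicalClosure _).completeSpace_coe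
  have hWker : ∀ v ∈ W, Λ v = 0 := by
    have h1 : W ≤ LinearMap.ker Λ.toLinearMap := by
      apply Submodule.topologicalClosure_minimal
      · rw [Submodule.span_le]
        rintro v ⟨n, hn, rfl⟩
        show Λ (e (D * n ^ 2)) = 0
        have h3 : 1 ≤ D * n ^ 2 := Nat.mul_pos hD1 (pow_pos (by omega) 2)
        rw [hΛ1 _ (adm_sq hD n) h3]
        exact hvan n hn
      · exact Λ.isClosed_ker
    intro v hv
    exact h1 hv
  obtain ⟨u, hu, v, hv, huv⟩ := W.exists_add_mem_mem_orthogonal (e 1)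
  rw [← hΛ1 1 (Or.inr rfl) le_rfl, huv, map_add, hWker u hu, zero_add]
  apply hΛ2
  intro n hn
  have h1 : e (D * n ^ 2) ∈ W :=
    Submodule.le_topologicalClosure _ (Submodule.subset_span ⟨n, hn, rfl⟩)
  exact Submodule.inner_right_of_mem_orthogonal h1 hv

end LC

end Pool.Agent.Lib.MP_7c5fb9_nt
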