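import Mathlib
import Pool.Agent.Lib.MP_7c5fb9_nt.LC.Pr

set_option autoImplicit false

/-!
# Project LC (MP_7c5fb9_nt): the projection, all indices (module PrG)
-/

namespace Pool.Agent.Lib.MP_7c5fb9_nt

namespace LC

open MeasureTheory UpperHalfPlane Set Pool.Agent.Lib.MP_7c08ba_nt.RZ
open LO (Mat disc act mir qv mb)
open scoped MatrixGroups ComplexConjugate

/-- The projection, for all indices. -/
def StPrG : Prop :=
  ∀ (D k : ℕ) (G : ℂ) (ι : Type) (_ : Fintype ι) (R : ι → SL(2, ℤ)) (β : ℕ →₀ ℂ) (z₀ : ℂ),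
    Ok D → GS D G → 6 ≤ k → Even k → 0 < z₀.im →
    (∀ n : ℕ, 1 ≤ n → Lam k R β z₀ (hm D k (D * n ^ 2)) = 0) →
    ∀ m : ℕ, Adm m → 1 ≤ m → Lam k R β z₀ (hm D k m) = 0

open PrA in
theorem stPrG (hHil : StHil) (hCm : StCm) (hHE : StHE) : StPrG := by
  intro D k G ι _ R β z₀ hD hG hk hk2 hz₀ hvan m₀ hm₀ hm₀1
  have hD1 : 1 ≤ D := by
    have := hD.mod
    omega
  obtain ⟨E, i1, i2, i3, e, B, hB, he⟩ := hHil D k hD hk hk2
  have hL := exists_L e hCm hHE D k G hD hG hk hk2 hB he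
  choose! L hL1 hL2 using hL
  -- the functional
  set Λ : E →L[ℂ] ℂ := ∑ m ∈ β.support, β m • ∑ p ∈ UP m, ∑ i,
    ((jf (sm (R i) * um m p) z₀) ^ (2 * k))⁻¹ • L (mb (sm (R i) * um m p) z₀) with hΛ
  have hΛ1 : ∀ m', Adm m' → 1 ≤ m' → Λ (e m') = Lam k R β z₀ (hm D k m') := by
    intro m' hm' hm1'
    rw [hΛ]
    unfold Lam Finsupp.sum
    simp only [FunLike.coe_sum, Finset.sum_apply, FunLike.coe_smul, Pi.smul_apply, smul_eq_mul]
    apply Finset.sum_congr rfl
    intro m _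
    congr 1
    apply Finset.sum_congr rfl
    intro p hp
    apply Finset.sum_congr rfl
    intro i _
    rw [hL1 _ (um_im hp (R i) hz₀) m' hm' hm1']
  have hΛ2 : ∀ v : E, (∀ n, 1 ≤ n → inner ℂ (e (D * n ^ 2)) v = 0) → Λ v = 0 := by
    intro v hv
    rw [hΛ]
    simp only [FunLike.coe_sum, Finset.sum_apply, FunLike.coe_smul, Pi.smul_apply, smul_eq_mul]
    apply Finset.sum_eq_zero
    intro m _
    rw [Finset.sum_eq_zero, mul_zero]
    intro p hp
    apply Finset.sum_eq_zero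
    intro i _
    rw [hL2 _ (um_im hp (R i) hz₀) v hv, mul_zero]
  -- the subspace
  set S : Set E := {v | ∃ n, 1 ≤ n ∧ v = e (D * n ^ 2)} with hS
  set W : Submodule ℂ E := (Submodule.span ℂ S).topologicalClosure with hW
  have : CompleteSpace W := (Submodule.isClosed_topologicalClosure _).completeSpace_coe
  have hWker : ∀ v ∈ W, Λ v = 0 := by
    have h1 : W ≤ LinearMap.ker Λ.toLinearMap := by
      apply Submodule.topologicalClosure_minimal
      · rw [Submodule.span_le]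
        rintro v ⟨n, hn, rfl⟩
        show Λ (e (D * n ^ 2)) = 0
        have h3 : 1 ≤ D * n ^ 2 := Nat.mul_pos hD1 (pow_pos (by omega) 2)
        rw [hΛ1 _ (adm_sq hD n) h3]
        exact hvan n hn
      · exact Λ.isClosed_ker
    intro v hv
    exact h1 hv
  obtain ⟨u, hu, v, hv, huv⟩ := W.exists_add_mem_mem_orthogonal (e m₀)
  rw [← hΛ1 m₀ hm₀ hm₀1, huv, map_add, hWker u hu, zero_add]
  apply hΛ2
  intro n hn
  have h1 : e (D * n ^ 2) ∈ W :=
    Submodule.le_topologicalClosure _ (Submodule.subset_span ⟨n, hn, rfl⟩)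
  exact Submodule.inner_right_of_mem_orthogonal h1 hv

end LC

end Pool.Agent.Lib.MP_7c5fb9_nt
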