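import Mathlib
import Pool.Agent.Lib.MP_7c5fb9_nt.LC.Fin
import Pool.Agent.Lib.MP_7c5fb9_nt.LC.PrG

set_option autoImplicit false

/-!
# Project LC (MP_7c5fb9_nt): the central value of the form itself (module Fin1)
-/

namespace Pool.Agent.Lib.MP_7c5fb9_nt

namespace LC

open MeasureTheory UpperHalfPlane Set Pool.Agent.Lib.MP_7c08ba_nt.RZ
open LO (Mat disc act mir qv mb cyc Fund eps aut FormOf torPer NonVan)
open scoped MatrixGroups ComplexConjugate nonZeroDivisors

/-- The central value of the `L`-function of the form does not vanish if some toric period does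
not vanish. -/
def StFin1 : Prop :=
  ∀ (k w : ℕ) (f : CuspForm 𝒮ℒ (w : ℤ)), Even k → w = 2 * k → IsEigen f →
    ∀ (D : ℕ) (K : Type) [Field K] [NumberField K] (s : K), Ok D → 1 < D →
      Module.finrank ℚ K = 2 → s ^ 2 = (D : K) → NonVan k f K →
      ∃ Λ : ℂ → ℂ, Differentiable ℂ Λ ∧ (∀ s : ℂ, (k : ℝ) + 1 < s.re →
        HasSum (fun n : ℕ => coef f (n + 1) * ((n + 1 : ℕ) : ℂ) ^ (-s)) (Λ s)) ∧ Λ k ≠ 0

namespace Fin1A

theorem ok_one : Ok 1 := ⟨squarefree_one, rfl⟩

theorem rep_one : IsRep 1 (fun _ : Unit => (1 : SL(2, ℤ))) :=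
  ⟨fun g => ⟨(), by simp, fun _ _ => rfl⟩⟩

theorem sm_one : sm (1 : SL(2, ℤ)) = 1 := rfl

theorem wd_one (m : ℕ) (Q : LO.Frm) : WD 1 m Q = if disc Q = m then 1 else 0 := by
  unfold WD
  rw [jacobiSym.one_right]
  simp

/-- the sum over the forms of discriminant `m` -/
theorem sum_one (m : ℕ) (F : LO.Frm → ℂ) :
    ∑' Q : LO.Frm, WD 1 m Q * F Q = ∑' Q : DQ m, F Q.1 := by
  have h1 : (fun Q : LO.Frm => WD 1 m Q * F Q) =
      Set.indicator {Q : LO.Frm | disc Q = m} F := by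
    funext Q
    rw [wd_one]
    by_cases h : disc Q = m
    · rw [if_pos h, one_mul, Set.indicator_of_mem]
      exact h
    · rw [if_neg h, zero_mul, Set.indicator_of_notMem]
      exact h
  rw [h1, ← tsum_subtype]
  rfl

end Fin1A

open FinA Fin1A in
theorem stFin1 (hPr : StPrG) (hTrB : StTrB)
    (hGeo : StGeo) (hVer : StVer) (hChi : StChi) (hLx : StLx) (hNar : StNar) (hHC : StHC)
    (hSpan : StSpan) (hKer : StKer) (hW : StW12) (hDis : LO.StDiscr) : StFin1 := by
  intro k w f hk2 hw hf D K _ _ s hD hD1 hK hs hNV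
  have hG : GS 1 1 := by
    refine ⟨by norm_num, ?_⟩
    intro n
    rw [Finset.sum_range_one]
    rw [jacobiSym.one_right, jacobiSym.one_right]
    simp [ee]
  obtain ⟨hw12, hwe⟩ := hW w f hf
  have hk6 : 6 ≤ k := by omega
  obtain ⟨Λ, hΛd, hΛs, hΛ0⟩ := hLx k w 1 f 1 hw (by omega) ok_one hG
  refine ⟨Λ, hΛd, ?_, ?_⟩
  · intro z hz
    have h1 := hΛs z hz
    simp only [jacobiSym.one_right, Int.cast_one, one_mul] at h1
    exact h1
  intro hzero
  have hLx0 := hΛ0 hzero
  obtain ⟨β, hβ0, hβ⟩ := hSpan w f (by omega) hwe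
  have hKerId := hKer w f β hf hβ0 hβ
  obtain ⟨z₀, hz₀, hfz⟩ := exists_ne f hf
  -- the toric period
  obtain ⟨D', hD', ⟨t, u, hFund⟩, ⟨q, hq⟩, hNV2⟩ := hNV
  have hdis : NumberField.discr K = ((D : ℕ) : ℤ) := by
    apply hDis K s (D : ℤ) hK
    · rw [hs]
      simp
    · simpa using hD.sf
    · simpa using hD1
    · have := hD.mod
      omega
  have hDD : D' = D := by
    rw [hD'] at hdis
    exact_mod_cast hdis
  subst hDD
  apply hNV2 t u q hFund hq
  have hDpos : (0 : ℤ) < (D' : ℤ) := by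
    have : 0 < D' := by omega
    exact_mod_cast this
  have hAdm : Adm D' := Or.inr hD.mod
  -- the vanishing of the functional at the forms attached to `n ^ 2`
  have hvan : ∀ n : ℕ, 1 ≤ n →
      Lam k (fun _ : Unit => (1 : SL(2, ℤ))) β z₀ (hm 1 k (1 * n ^ 2)) = 0 := by
    intro n hn
    have hN : 1 ≤ 1 * n := by omega
    have hNpos : (0 : ℤ) < ((((1 * n : ℕ) : ℕ) ^ 2 : ℕ) : ℤ) := by
      have : 0 < (1 * n) ^ 2 := by positivity
      exact_mod_cast this
    -- each term of the functional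
    have e1 : Lam k (fun _ : Unit => (1 : SL(2, ℤ))) β z₀ (hm 1 k (1 * n ^ 2)) = (1 / 2) *
        ∑ C ∈ Finset.range (1 * n), (jacobiSym C 1 : ℂ) * β.sum fun m b => b * ∑ p ∈ UP m,
          ∑' g : SL(2, ℤ), ((qv (act (act ![0, (1 * n : ℕ), C] (sm g)) (um m p)) z₀) ^ k)⁻¹ := by
      unfold Lam Finsupp.sum
      have e2 : ∀ m ∈ β.support, β m * ∑ p ∈ UP m, ∑ _i : Unit,
          ((jf (sm (1 : SL(2, ℤ)) * um m p) z₀) ^ (2 * k))⁻¹ *
            hm 1 k (1 * n ^ 2) (mb (sm (1 : SL(2, ℤ)) * um m p) z₀) =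
          β m * ∑ p ∈ UP m, (1 / 2) * ∑ C ∈ Finset.range (1 * n), (jacobiSym C 1 : ℂ) *
            ∑' g : SL(2, ℤ), ((qv (act (act ![0, (1 * n : ℕ), C] (sm g)) (um m p)) z₀) ^ k)⁻¹ := by
        intro m _
        congr 1
        apply Finset.sum_congr rfl
        intro p hp
        have e3 := (hTrB 1 n Unit inferInstance (fun _ : Unit => (1 : SL(2, ℤ)))
          (FF k z₀ (um m p)) ok_one hn rep_one
          (ff_summable hHC (by omega) hz₀ (um_det hp) hNpos)).2.2
        rw [← show ∑ _i : Unit, ∑' Q : LO.Frm, WD 1 (1 * n ^ 2) Q *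
            FF k z₀ (um m p) (act Q (sm (1 : SL(2, ℤ)))) = ∑ _i : Unit,
          ((jf (sm (1 : SL(2, ℤ)) * um m p) z₀) ^ (2 * k))⁻¹ *
            hm 1 k (1 * n ^ 2) (mb (sm (1 : SL(2, ℤ)) * um m p) z₀) from
          Finset.sum_congr rfl fun i _ => (lam_term hz₀ (1 : SL(2, ℤ)) (um_det hp)).symm]
        rw [e3]
        rfl
      rw [Finset.sum_congr rfl e2]
      simp only [Finset.mul_sum]
      rw [Finset.sum_congr rfl fun m _ => Finset.sum_comm, Finset.sum_comm]
      apply Finset.sum_congr rfl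
      intro C _
      apply Finset.sum_congr rfl
      intro m _
      apply Finset.sum_congr rfl
      intro p _
      ring
    rw [e1]
    have e4 : ∀ C ∈ Finset.range (1 * n), (jacobiSym C 1 : ℂ) * (β.sum fun m b => b *
        ∑ p ∈ UP m, ∑' g : SL(2, ℤ),
          ((qv (act (act ![0, (1 * n : ℕ), C] (sm g)) (um m p)) z₀) ^ k)⁻¹) =
        (2 * Cw w * f (ofComplex z₀) / (Bk k * (Complex.I ^ k)⁻¹ * ((1 * n : ℕ) : ℂ) ^ k)) *
          ((jacobiSym C 1 : ℂ) * Vt f k (1 * n) C) := by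
      intro C _
      have e5 := hVer k w (1 * n) C f β z₀ hw hk6 hk2 hβ0 hKerId hN hz₀
      have e6 : (Bk k * (Complex.I ^ k)⁻¹ * ((1 * n : ℕ) : ℂ) ^ k : ℂ) ≠ 0 := by
        have a1 : ((Bk k : ℝ) : ℂ) ≠ 0 := by exact_mod_cast (bk_pos k).ne'
        have a2 : (Complex.I ^ k)⁻¹ ≠ 0 := inv_ne_zero (pow_ne_zero _ Complex.I_ne_zero)
        have a3 : (((1 * n : ℕ) : ℂ) ^ k) ≠ 0 := by
          apply pow_ne_zero
          exact_mod_cast (by omega : 1 * n ≠ 0)
        exact mul_ne_zero (mul_ne_zero a1 a2) a3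
      rw [div_mul_eq_mul_div, eq_div_iff e6]
      linear_combination (-(jacobiSym C 1 : ℂ)) * e5
    rw [Finset.sum_congr rfl e4, ← Finset.mul_sum,
      hChi k w 1 n f 1 hw (by omega) hf ok_one hG hn hLx0, mul_zero, mul_zero]
  have hLam1 := hPr 1 k 1 Unit inferInstance (fun _ : Unit => (1 : SL(2, ℤ))) β z₀ ok_one hG hk6
    hk2 hz₀ hvan D' hAdm (by omega)
  -- the functional at the form attached to `D`
  have hLamE : Lam k (fun _ : Unit => (1 : SL(2, ℤ))) β z₀ (hm 1 k D') =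
      β.sum fun m b => b * ∑ p ∈ UP m, ∑' Q : DQ D', FF k z₀ (um m p) Q.1 := by
    unfold Lam Finsupp.sum
    apply Finset.sum_congr rfl
    intro m _
    show β m * _ = β m * _
    congr 1
    apply Finset.sum_congr rfl
    intro p hp
    rw [Finset.univ_unique, Finset.sum_singleton, lam_term hz₀ (1 : SL(2, ℤ)) (um_det hp)]
    simp only [sm_one, LO.act_one]
    exact sum_one D' (FF k z₀ (um m p))
  rw [hLamE] at hLam1
  -- the periods
  obtain ⟨hdq, κ, hκ, hNarE⟩ := hNar D' K s q hD hD1 hK hs hq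
  set c : ℂ := -2 * ((D' : ℂ) ^ k / Real.sqrt D') * Bk k with hc
  have hcyc : ∀ Q : LO.Frm, disc Q = D' → 0 < Q 0 →
      2 * Cw w * f (ofComplex z₀) * cyc k f Q (eps D' t u) =
        c * β.sum fun m b => b * ∑ p ∈ UP m, ∑' Q' : Orb (mir Q), FF k z₀ (um m p) Q'.1 := by
    intro Q hQ hQ0
    exact hGeo k w D' f β t u Q z₀ hw hk6 hk2 hβ0 hKerId hD hD1 hQ hQ0 hFund hz₀
  have hsumm : 2 * Cw w * f (ofComplex z₀) * torPer k f D' t u q = 0 := by
    unfold LO.torPer
    rw [Finset.mul_sum]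
    have e7 : ∀ a ∈ (Finset.univ : Finset (ClassGroup (NumberField.RingOfIntegers K))),
        2 * Cw w * f (ofComplex z₀) * (cyc k f (q a) (eps D' t u) +
          cyc k f (mir (q a)) (eps D' t u)) =
        c * β.sum fun m b => b * ∑ p ∈ UP m, (∑' Q' : Orb (q a), FF k z₀ (um m p) Q'.1 +
          ∑' Q' : Orb (mir (q a)), FF k z₀ (um m p) Q'.1) := by
      intro a _
      have h1 : disc (mir (q a)) = D' := by
        rw [LO.disc_mir]
        exact hdq a
      have h2 : 0 < (mir (q a)) 0 := (hq a).1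
      have h3 := hcyc (mir (q a)) h1 h2
      rw [LO.mir_mir] at h3
      rw [mul_add, hcyc (q a) (hdq a) (hq a).1, h3, ← mul_add]
      congr 1
      unfold Finsupp.sum
      rw [← Finset.sum_add_distrib]
      apply Finset.sum_congr rfl
      intro m _
      rw [← mul_add, ← Finset.sum_add_distrib]
      congr 1
      apply Finset.sum_congr rfl
      intro p _
      rw [add_comm]
    rw [Finset.sum_congr rfl e7, ← Finset.mul_sum]
    have e8 : ∑ a : ClassGroup (NumberField.RingOfIntegers K), (β.sum fun m b => b *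
        ∑ p ∈ UP m, (∑' Q' : Orb (q a), FF k z₀ (um m p) Q'.1 +
          ∑' Q' : Orb (mir (q a)), FF k z₀ (um m p) Q'.1)) =
        κ * β.sum fun m b => b * ∑ p ∈ UP m, ∑' Q : DQ D', FF k z₀ (um m p) Q.1 := by
      unfold Finsupp.sum
      rw [Finset.sum_comm, Finset.mul_sum]
      apply Finset.sum_congr rfl
      intro m _
      show ∑ a : ClassGroup (NumberField.RingOfIntegers K), β m * _ = κ * (β m * _)
      rw [← Finset.mul_sum, mul_left_comm κ (β m)]
      congr 1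
      rw [Finset.sum_comm, Finset.mul_sum]
      apply Finset.sum_congr rfl
      intro p hp
      exact hNarE (FF k z₀ (um m p)) (ff_neg hk2 z₀ _)
        (ff_summable hHC (by omega) hz₀ (um_det hp) hDpos)
    rw [e8, hLam1, mul_zero, mul_zero]
  rcases mul_eq_zero.mp hsumm with h | h
  · exact absurd h (mul_ne_zero (mul_ne_zero two_ne_zero (cw_ne w)) hfz)
  · exact h

end LC

end Pool.Agent.Lib.MP_7c5fb9_nt
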