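import Mathlib
import Pool.Agent.Lib.MP_7c5fb9_nt.LC.St

set_option autoImplicit false

/-!
# Project LC (MP_7c5fb9_nt): the Gauss sum (module GSx)
-/

namespace Pool.Agent.Lib.MP_7c5fb9_nt

namespace LC

open MeasureTheory UpperHalfPlane Set Pool.Agent.Lib.MP_7c08ba_nt.RZ

theorem stGSx (h : LO.StGauss) : StGSx := by
  intro D hD
  have hodd : Odd D := by
    have := hD.mod
    rw [Nat.odd_iff]
    omega
  have hpos : 0 < D := by
    have := hD.mod
    omega
  rcases Nat.eq_or_lt_of_le (Nat.succ_le_of_lt hpos) with h1 | h1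
  · have h1' : D = 1 := by omega
    subst h1'
    refine ⟨1, ⟨by norm_num, ?_⟩⟩
    intro n
    rw [Finset.sum_range_one]
    have h2 : ∀ a : ℤ, jacobiSym a 1 = 1 := fun a => jacobiSym.one_right a
    rw [h2, h2]
    simp [ee]
  · obtain ⟨τ, h2, h3⟩ := h D hodd hD.sf h1
    refine ⟨τ, ⟨?_, h3⟩⟩
    rw [h2, jacobiSym.at_neg_one hodd, ZMod.χ₄_nat_one_mod_four hD.mod]
    simp

end LC

end Pool.Agent.Lib.MP_7c5fb9_nt
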