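import Mathlib
import Pool.Agent.Lib.MP_7c5fb9_nt.LC.St
import Pool.Agent.Lib.MP_7c5fb9_nt.LO.Basic
import Pool.Agent.Lib.MP_7c08ba_nt.RZ.MatS

set_option autoImplicit false

/-!
# Project LC (MP_7c5fb9_nt): the kernel identity integrated along closed geodesics
-/

namespace Pool.Agent.Lib.MP_7c5fb9_nt

namespace LC

open MeasureTheory UpperHalfPlane Set Pool.Agent.Lib.MP_7c08ba_nt.RZ
open LO (Mat disc act mir qv mb cyc Fund eps aut geo)
open scoped MatrixGroups ComplexConjugate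

namespace GeoAux

/-- The linear form `w₁ + α w₂` at the vector `h (z, 1)`. -/
noncomputable def Pf (α : ℝ) (h : Mat) (z : ℂ) : ℂ :=
  ((h 0 0 : ℂ) * z + h 0 1) + α * ((h 1 0 : ℂ) * z + h 1 1)

/-- The integrand. -/
noncomputable def Tf (k : ℕ) (P P' : ℂ) (θ : ℝ) : ℂ :=
  ((Complex.I * (Real.exp θ : ℝ) * P + P') ^ (2 * k))⁻¹ * ((Real.exp θ : ℝ) : ℂ) ^ k

lemma im_pf (α α' : ℝ) (h : Mat) (z : ℂ) :
    (Pf α' h z * conj (Pf α h z)).im = (α - α') * (h.det : ℝ) * z.im := by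
  rw [Matrix.det_fin_two]
  unfold Pf
  simp only [Complex.mul_im, Complex.add_im, Complex.add_re, Complex.mul_re, Complex.conj_re,
    Complex.conj_im, Complex.intCast_re, Complex.intCast_im, Complex.ofReal_re, Complex.ofReal_im]
  push_cast
  ring

lemma normSq_eq (P P' : ℂ) (t : ℝ) : Complex.normSq (Complex.I * t * P + P') =
    t ^ 2 * Complex.normSq P + Complex.normSq P' + 2 * t * (P' * conj P).im := by
  simp only [Complex.normSq_apply, Complex.add_re, Complex.add_im, Complex.mul_re, Complex.mul_im,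
    Complex.I_re, Complex.I_im, Complex.ofReal_re, Complex.ofReal_im, Complex.conj_re,
    Complex.conj_im]
  ring

lemma ne_zero {P P' : ℂ} (h : 0 < (P' * conj P).im) {t : ℝ} (ht : 0 < t) :
    Complex.I * t * P + P' ≠ 0 := by
  rw [← Complex.normSq_pos, normSq_eq]
  have h1 := Complex.normSq_nonneg P
  have h2 := Complex.normSq_nonneg P'
  positivity

lemma norm_mono {P P' : ℂ} (h : 0 < (P' * conj P).im) {t : ℝ} (ht : 1 ≤ t) :
    ‖Complex.I * P + P'‖ ≤ ‖Complex.I * t * P + P'‖ := by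
  have h0 := normSq_eq P P' 1
  rw [Complex.ofReal_one, mul_one] at h0
  have h1 := normSq_eq P P' t
  rw [Complex.normSq_eq_norm_sq] at h0 h1
  have h2 := Complex.normSq_nonneg P
  have h3 : ‖Complex.I * P + P'‖ ^ 2 ≤ ‖Complex.I * t * P + P'‖ ^ 2 := by
    rw [h0, h1]
    have : 1 ≤ t ^ 2 := one_le_pow₀ ht
    nlinarith
  exact (pow_le_pow_iff_left₀ (norm_nonneg _) (norm_nonneg _) two_ne_zero).1 h3

lemma Tf_eq (k : ℕ) (hk : 1 ≤ k) (P P' : ℂ) (θ : ℝ) :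
    Tf k P P' θ = |Real.exp θ| • (((Complex.I * (Real.exp θ : ℝ) * P + P') ^ (2 * k))⁻¹ *
      ((Real.exp θ : ℝ) : ℂ) ^ (k - 1)) := by
  obtain ⟨j, rfl⟩ : ∃ j, k = j + 1 := ⟨k - 1, by omega⟩
  rw [abs_of_pos (Real.exp_pos θ), Tf, Nat.add_sub_cancel, pow_succ, Complex.real_smul]
  ring

lemma Tf_integral (hB : StBt) {k : ℕ} (hk : 1 ≤ k) {P P' : ℂ} (h : 0 < (P' * conj P).im) :
    Integrable (Tf k P P') ∧ ∫ θ, Tf k P P' θ = Bk k * ((Complex.I * P * P') ^ k)⁻¹ := by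
  obtain ⟨h1, h2, -⟩ := hB k P P' hk h
  have himg : Real.exp '' univ = Ioi 0 := by rw [image_univ, Real.range_exp]
  have hT : Tf k P P' = fun θ => |Real.exp θ| •
      (((Complex.I * (Real.exp θ : ℝ) * P + P') ^ (2 * k))⁻¹ *
        ((Real.exp θ : ℝ) : ℂ) ^ (k - 1)) := funext fun θ => Tf_eq k hk P P' θ
  constructor
  · rw [← himg, integrableOn_image_iff_integrableOn_abs_deriv_smul MeasurableSet.univ
      (fun x _ => (Real.hasDerivAt_exp x).hasDerivWithinAt) Real.exp_injective.injOn,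
      integrableOn_univ] at h1
    rw [hT]
    exact h1
  · rw [← h2, ← himg, integral_image_eq_integral_abs_deriv_smul MeasurableSet.univ
      (fun x _ => (Real.hasDerivAt_exp x).hasDerivWithinAt) Real.exp_injective.injOn, hT,
      setIntegral_univ]

/-- The integral over one period. -/
noncomputable def If (k : ℕ) (L : ℝ) (P P' : ℂ) : ℂ := ∫ θ in (0 : ℝ)..L, Tf k P P' θ

lemma sum_periods {F : ℝ → ℂ} (hF : Integrable F) {L : ℝ} (hL : 0 < L) :
    HasSum (fun n : ℤ => ∫ θ in (0 : ℝ)..L, F (θ + n * L)) (∫ θ, F θ) := by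
  have h := hasSum_integral_iUnion (μ := volume) (f := F)
    (s := fun n : ℤ => Ioc (n • L) ((n + 1) • L)) (fun n => measurableSet_Ioc)
    (pairwise_disjoint_Ioc_zsmul L) (by rw [iUnion_Ioc_zsmul hL]; exact hF.integrableOn)
  rw [iUnion_Ioc_zsmul hL, setIntegral_univ] at h
  have e : (fun n : ℤ => ∫ θ in (0 : ℝ)..L, F (θ + n * L)) =
      fun n : ℤ => ∫ θ in Ioc (n • L) ((n + 1) • L), F θ := by
    funext n
    rw [intervalIntegral.integral_comp_add_right (fun x => F x) ((n : ℝ) * L),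
      intervalIntegral.integral_of_le (by linarith)]
    have e1 : 0 + (n : ℝ) * L = n • L := by rw [zsmul_eq_mul]; ring
    have e2 : L + (n : ℝ) * L = (n + 1) • L := by rw [zsmul_eq_mul]; push_cast; ring
    rw [e1, e2]
  rw [e]
  exact h

/-- The shift by the unit. -/
lemma Tf_shift (k : ℕ) (P P' : ℂ) {ε : ℝ} (hε : 0 < ε) (n : ℤ) (θ : ℝ) :
    Tf k ((ε ^ n : ℝ) * P) (((ε ^ n)⁻¹ : ℝ) * P') θ =
      Tf k P P' (θ + n * (2 * Real.log ε)) := by
  have h1 : Real.exp (θ + n * (2 * Real.log ε)) = Real.exp θ * (ε ^ n) ^ 2 := by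
    rw [Real.exp_add]
    congr 1
    rw [show (n : ℝ) * (2 * Real.log ε) = Real.log ((ε ^ n) ^ 2) by
      rw [Real.log_pow, Real.log_zpow]; push_cast; ring, Real.exp_log (by positivity)]
  have hx : (ε ^ n : ℝ) ≠ 0 := by positivity
  unfold Tf
  rw [h1]
  generalize (ε ^ n : ℝ) = x at hx
  have hx' : (x : ℂ) ≠ 0 := by exact_mod_cast hx
  have e1 : Complex.I * ((Real.exp θ : ℝ) : ℂ) * ((x : ℂ) * P) + ((x⁻¹ : ℝ) : ℂ) * P' =
      (x : ℂ)⁻¹ * (Complex.I * ((Real.exp θ * x ^ 2 : ℝ) : ℂ) * P + P') := by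
    push_cast
    field_simp
  rw [e1, mul_pow, mul_inv, inv_pow, inv_inv]
  push_cast
  rw [mul_pow, ← pow_mul (x : ℂ) 2 k]
  ring

lemma If_sum (hB : StBt) {k : ℕ} (hk : 1 ≤ k) {P P' : ℂ} (h : 0 < (P' * conj P).im) {ε : ℝ}
    (hε : 1 < ε) : HasSum (fun n : ℤ => If k (2 * Real.log ε) ((ε ^ n : ℝ) * P)
      (((ε ^ n)⁻¹ : ℝ) * P')) (Bk k * ((Complex.I * P * P') ^ k)⁻¹) := by
  obtain ⟨h1, h2⟩ := Tf_integral hB hk h
  rw [← h2]
  have h3 := sum_periods h1 (L := 2 * Real.log ε) (by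
    have := Real.log_pos hε
    linarith)
  have e : (fun n : ℤ => If k (2 * Real.log ε) ((ε ^ n : ℝ) * P) (((ε ^ n)⁻¹ : ℝ) * P')) =
      fun n : ℤ => ∫ θ in (0 : ℝ)..(2 * Real.log ε), Tf k P P' (θ + n * (2 * Real.log ε)) := by
    funext n
    unfold If
    exact intervalIntegral.integral_congr fun θ _ => Tf_shift k P P' (by linarith) n θ
  rw [e]
  exact h3

/-! ### sums over matrices of determinant `m` -/

/-- The adjugate. -/
def adj (m : ℕ) : DetM m ≃ DetM m where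
  toFun g := ⟨!![g.1 1 1, -g.1 0 1; -g.1 1 0, g.1 0 0], by
    have := g.2
    rw [Matrix.det_fin_two] at this ⊢
    simp only [Matrix.of_apply, Matrix.cons_val', Matrix.cons_val_zero, Matrix.cons_val_one,
      Matrix.cons_val_fin_one]
    linarith⟩
  invFun g := ⟨!![g.1 1 1, -g.1 0 1; -g.1 1 0, g.1 0 0], by
    have := g.2
    rw [Matrix.det_fin_two] at this ⊢
    simp only [Matrix.of_apply, Matrix.cons_val', Matrix.cons_val_zero, Matrix.cons_val_one,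
      Matrix.cons_val_fin_one]
    linarith⟩
  left_inv g := by
    apply Subtype.ext
    ext i j
    fin_cases i <;> fin_cases j <;> simp
  right_inv g := by
    apply Subtype.ext
    ext i j
    fin_cases i <;> fin_cases j <;> simp

lemma bil_adj {m : ℕ} (g : DetM m) (z : ℂ) (α α' t : ℝ) :
    bil g.1 z 1 (-(Complex.I * t * α + α')) (Complex.I * t + 1) =
      -(Complex.I * t * Pf α (adj m g).1 z + Pf α' (adj m g).1 z) := by
  have h00 : (adj m g).1 0 0 = g.1 1 1 := rfl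
  have h01 : (adj m g).1 0 1 = -g.1 0 1 := rfl
  have h10 : (adj m g).1 1 0 = -g.1 1 0 := rfl
  have h11 : (adj m g).1 1 1 = g.1 0 0 := rfl
  unfold bil Pf
  rw [h00, h01, h10, h11]
  push_cast
  ring

lemma y_im (α α' t : ℝ) (h : α' < α) (ht : 0 < t) :
    (-(Complex.I * t * α + α') * conj (Complex.I * t + 1)).im < 0 := by
  have : (-(Complex.I * t * α + α') * conj (Complex.I * t + 1)).im = -(t * (α - α')) := by
    simp only [Complex.mul_im, Complex.add_im, Complex.add_re, Complex.mul_re, Complex.conj_re,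
      Complex.conj_im, Complex.ofReal_re, Complex.ofReal_im, Complex.neg_re, Complex.neg_im,
      Complex.I_re, Complex.I_im, Complex.one_re, Complex.one_im, map_add, map_mul]
    ring
  rw [this]
  have : 0 < t * (α - α') := mul_pos ht (by linarith)
  linarith

lemma tsum_bil {m k : ℕ} (z : ℂ) (α α' t : ℝ) :
    ∑' g : DetM m, ((bil g.1 z 1 (-(Complex.I * t * α + α')) (Complex.I * t + 1)) ^ (2 * k))⁻¹ =
      ∑' h : DetM m, ((Complex.I * t * Pf α h.1 z + Pf α' h.1 z) ^ (2 * k))⁻¹ := by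
  rw [← (adj m).tsum_eq fun h : DetM m =>
    ((Complex.I * t * Pf α h.1 z + Pf α' h.1 z) ^ (2 * k))⁻¹]
  refine tsum_congr fun g => ?_
  rw [bil_adj, Even.neg_pow (even_two_mul k)]

/-- The bound. -/
noncomputable def bd (k : ℕ) (L : ℝ) (P P' : ℂ) : ℝ :=
  ‖((Complex.I * P + P') ^ (2 * k))⁻¹‖ * Real.exp L ^ k

lemma Tf_le {k : ℕ} {L : ℝ} {P P' : ℂ} (h : 0 < (P' * conj P).im) {θ : ℝ} (h0 : 0 ≤ θ)
    (hθ : θ ≤ L) : ‖Tf k P P' θ‖ ≤ bd k L P P' := by
  unfold Tf bd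
  rw [norm_mul, norm_inv, norm_inv, norm_pow, norm_pow, norm_pow, Complex.norm_real,
    Real.norm_of_nonneg (Real.exp_pos θ).le]
  have h1 : 0 < ‖Complex.I * P + P'‖ := by
    rw [norm_pos_iff]
    have := ne_zero h (t := 1) one_pos
    rwa [Complex.ofReal_one, mul_one] at this
  have h2 := norm_mono h (Real.one_le_exp h0)
  have h3 : Real.exp θ ≤ Real.exp L := Real.exp_le_exp.2 hθ
  refine mul_le_mul ?_ (pow_le_pow_left₀ (Real.exp_pos θ).le h3 k) (by positivity) (by positivity)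
  exact inv_anti₀ (by positivity) (pow_le_pow_left₀ h1.le h2 _)

lemma summable_bd {m k : ℕ} (hm : 1 ≤ m) (hk : 3 ≤ k) {z : ℂ} (hz : 0 < z.im) {α α' : ℝ}
    (h : α' < α) (L : ℝ) : Summable fun g : DetM m => bd k L (Pf α g.1 z) (Pf α' g.1 z) := by
  have h1 := (stMatS (2 * k) m z 1 (-(Complex.I * (1 : ℝ) * α + α')) (Complex.I * (1 : ℝ) + 1)
    (by omega) hm (by simpa using hz) (y_im α α' 1 h one_pos)).2
  have h2 : Summable fun g : DetM m =>
      ‖((Complex.I * Pf α g.1 z + Pf α' g.1 z) ^ (2 * k))⁻¹‖ := by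
    rw [← (adj m).summable_iff]
    refine h1.congr fun g => ?_
    rw [bil_adj, Even.neg_pow (even_two_mul k), Complex.ofReal_one, mul_one]
    rfl
  exact h2.mul_right _

lemma im_pos_pf {m : ℕ} (hm : 1 ≤ m) {z : ℂ} (hz : 0 < z.im) {α α' : ℝ} (h : α' < α)
    (g : DetM m) : 0 < (Pf α' g.1 z * conj (Pf α g.1 z)).im := by
  rw [im_pf, g.2]
  have : (0 : ℝ) < m := by exact_mod_cast hm
  have h1 : 0 < α - α' := by linarith
  push_cast
  positivity

lemma Tf_cont {k : ℕ} {P P' : ℂ} (h : 0 < (P' * conj P).im) : Continuous (Tf k P P') := by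
  unfold Tf
  refine Continuous.mul (Continuous.inv₀ (by fun_prop) fun θ => ?_) (by fun_prop)
  exact pow_ne_zero _ (ne_zero h (Real.exp_pos θ))

lemma cont_tsum {m k : ℕ} (hm : 1 ≤ m) (hk : 3 ≤ k) {z : ℂ} (hz : 0 < z.im) {α α' : ℝ}
    (h : α' < α) (L : ℝ) :
    ContinuousOn (fun θ => ∑' g : DetM m, Tf k (Pf α g.1 z) (Pf α' g.1 z) θ) (Icc 0 L) :=
  continuousOn_tsum (fun g => (Tf_cont (im_pos_pf hm hz h g)).continuousOn)
    (summable_bd hm hk hz h L) fun g _ hθ => Tf_le (im_pos_pf hm hz h g) hθ.1 hθ.2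

lemma hasSum_DetM {m k : ℕ} (hm : 1 ≤ m) (hk : 3 ≤ k) {z : ℂ} (hz : 0 < z.im) {α α' : ℝ}
    (h : α' < α) {L : ℝ} (hL : 0 ≤ L) :
    HasSum (fun g : DetM m => If k L (Pf α g.1 z) (Pf α' g.1 z))
      (∫ θ in (0 : ℝ)..L, ∑' g : DetM m, Tf k (Pf α g.1 z) (Pf α' g.1 z) θ) := by
  have : Countable (DetM m) :=
    (MatSAux.rows_inj.comp (Subtype.val_injective (p := fun g : Mat => g.det = m))).countable
  refine intervalIntegral.hasSum_integral_of_dominated_convergence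
    (fun g _ => bd k L (Pf α g.1 z) (Pf α' g.1 z))
    (fun g => (Tf_cont (im_pos_pf hm hz h g)).aestronglyMeasurable) ?_ ?_ ?_ ?_
  · intro g
    refine Filter.Eventually.of_forall fun θ hθ => ?_
    rw [uIoc_of_le hL] at hθ
    exact Tf_le (im_pos_pf hm hz h g) hθ.1.le hθ.2
  · exact Filter.Eventually.of_forall fun θ _ => summable_bd hm hk hz h L
  · exact intervalIntegrable_const
  · refine Filter.Eventually.of_forall fun θ hθ => ?_
    rw [uIoc_of_le hL] at hθ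
    exact (Summable.of_norm_bounded (summable_bd hm hk hz h L)
      fun g => Tf_le (im_pos_pf hm hz h g) hθ.1.le hθ.2).hasSum

lemma If_le {k : ℕ} {L : ℝ} (hL : 0 ≤ L) {P P' : ℂ} (h : 0 < (P' * conj P).im) :
    ‖If k L P P'‖ ≤ bd k L P P' * L := by
  have h1 := intervalIntegral.norm_integral_le_of_norm_le_const (a := 0) (b := L)
    (C := bd k L P P') (f := Tf k P P') (fun θ hθ => by
      rw [uIoc_of_le hL] at hθ
      exact Tf_le h hθ.1.le hθ.2)
  rwa [sub_zero, abs_of_nonneg hL] at h1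

lemma summable_If {m k : ℕ} (hm : 1 ≤ m) (hk : 3 ≤ k) {z : ℂ} (hz : 0 < z.im) {α α' : ℝ}
    (h : α' < α) {L : ℝ} (hL : 0 ≤ L) :
    Summable fun g : DetM m => ‖If k L (Pf α g.1 z) (Pf α' g.1 z)‖ :=
  Summable.of_nonneg_of_le (fun _ => norm_nonneg _) (fun g => If_le hL (im_pos_pf hm hz h g))
    ((summable_bd hm hk hz h L).mul_right L)

/-! ### the cycle integral -/

/-- The larger root. -/
noncomputable def rp (Q : LO.Frm) (D : ℕ) : ℝ := (-(Q 1 : ℝ) + Real.sqrt D) / (2 * Q 0)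

/-- The smaller root. -/
noncomputable def rm (Q : LO.Frm) (D : ℕ) : ℝ := (-(Q 1 : ℝ) - Real.sqrt D) / (2 * Q 0)

lemma geo_eq {Q : LO.Frm} {D : ℕ} (hD : disc Q = D) (θ : ℝ) : geo Q θ =
    (rp Q D * (Complex.I * (Real.exp θ : ℝ)) + rm Q D) / (Complex.I * (Real.exp θ : ℝ) + 1) := by
  unfold geo rp rm
  rw [hD]
  push_cast
  rfl

lemma den_ne (T : ℝ) : Complex.I * (T : ℂ) + 1 ≠ 0 := by
  intro h
  have := congrArg Complex.re h
  simp at this

lemma hasDeriv_geo {Q : LO.Frm} {D : ℕ} (hD : disc Q = D) (θ : ℝ) : HasDerivAt (geo Q)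
    (Complex.I * (Real.exp θ : ℝ) * (rp Q D - rm Q D) / (Complex.I * (Real.exp θ : ℝ) + 1) ^ 2)
    θ := by
  have h0 : HasDerivAt (fun θ : ℝ => ((Real.exp θ : ℝ) : ℂ)) ((Real.exp θ : ℝ) : ℂ) θ :=
    (Real.hasDerivAt_exp θ).ofReal_comp
  have h1 : HasDerivAt (fun θ : ℝ => Complex.I * ((Real.exp θ : ℝ) : ℂ))
      (Complex.I * ((Real.exp θ : ℝ) : ℂ)) θ := h0.const_mul _
  have h2 := ((h1.const_mul (rp Q D : ℂ)).add_const (rm Q D : ℂ)).div (h1.add_const (1 : ℂ))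
    (den_ne _)
  have e : geo Q = fun θ : ℝ => (rp Q D * (Complex.I * (Real.exp θ : ℝ)) + rm Q D) /
      (Complex.I * (Real.exp θ : ℝ) + 1) := funext fun θ => geo_eq hD θ
  rw [e]
  refine h2.congr_deriv ?_
  ring

lemma cyc_eq {k w D : ℕ} (f : CuspForm 𝒮ℒ (w : ℤ)) {Q : LO.Frm} (hw : w = 2 * k) (hk : 1 ≤ k)
    (he : Even k) (hD : disc Q = D) (hD0 : 0 < D) (hQ : 0 < Q 0) (ε : ℝ) :
    cyc k f Q ε = -((D : ℂ) ^ k / Real.sqrt D) * ((Q 0 : ℂ) ^ k)⁻¹ * Complex.I ^ k *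
      ∫ θ in (0 : ℝ)..(2 * Real.log ε), lf f (Complex.I * (Real.exp θ : ℝ) * rp Q D + rm Q D)
        (Complex.I * (Real.exp θ : ℝ) + 1) * ((Real.exp θ : ℝ) : ℂ) ^ k := by
  unfold cyc
  rw [← intervalIntegral.integral_const_mul]
  refine intervalIntegral.integral_congr fun θ _ => ?_
  rw [(hasDeriv_geo hD θ).deriv]
  have hs : 0 < Real.sqrt D := Real.sqrt_pos.2 (by exact_mod_cast hD0)
  have hs2 : ((Real.sqrt D : ℝ) : ℂ) ^ 2 = D := by
    rw [← Complex.ofReal_pow, Real.sq_sqrt (Nat.cast_nonneg D)]; simp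
  have hs0 : ((Real.sqrt D : ℝ) : ℂ) ≠ 0 := by exact_mod_cast hs.ne'
  have ha : (Q 0 : ℂ) ≠ 0 := by exact_mod_cast hQ.ne'
  have hdc : (D : ℂ) = (Q 1 : ℂ) ^ 2 - 4 * Q 0 * Q 2 := by
    have h := hD
    unfold LO.disc at h
    exact_mod_cast h.symm
  have hM := den_ne (Real.exp θ)
  have hqv : qv Q (geo Q θ) = -((D : ℂ) / Q 0) * (Complex.I * (Real.exp θ : ℝ)) /
      (Complex.I * (Real.exp θ : ℝ) + 1) ^ 2 := by
    rw [geo_eq hD]
    unfold LO.qv rp rm
    push_cast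
    push_cast at hs2 hM
    generalize Complex.exp (θ : ℂ) = T at hM
    generalize ((Real.sqrt D : ℝ) : ℂ) = s at hs2 hs0
    rw [div_pow, eq_div_iff (pow_ne_zero 2 hM)]
    field_simp
    have e1 : (D : ℂ) = s ^ 2 := hs2.symm
    have e2 : (Q 1 : ℂ) ^ 2 = s ^ 2 + 4 * Q 0 * Q 2 := by rw [hs2, hdc]; ring
    rw [e1]
    linear_combination (-(Complex.I * T + 1) ^ 2) * e2
  have hlf : lf f (Complex.I * (Real.exp θ : ℝ) * rp Q D + rm Q D)
      (Complex.I * (Real.exp θ : ℝ) + 1) =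
      ((Complex.I * (Real.exp θ : ℝ) + 1) ^ (2 * k))⁻¹ * f (ofComplex (geo Q θ)) := by
    have hw' : (Complex.I * ((Real.exp θ : ℝ) : ℂ) + 1) ^ w =
        (Complex.I * ((Real.exp θ : ℝ) : ℂ) + 1) ^ (2 * k) := by rw [hw]
    have e : Complex.I * ((Real.exp θ : ℝ) : ℂ) * rp Q D + rm Q D =
        rp Q D * (Complex.I * ((Real.exp θ : ℝ) : ℂ)) + rm Q D := by ring
    unfold lf
    rw [hw', geo_eq hD, e]
  rw [hqv, hlf]
  obtain ⟨j, rfl⟩ : ∃ j, k = j + 1 := ⟨k - 1, by omega⟩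
  have hj : Odd j := by
    rcases Nat.even_or_odd j with h | h
    · exact absurd he (Nat.not_even_iff_odd.2 h.add_one)
    · exact h
  rw [Nat.add_sub_cancel]
  have hrr : ((rp Q D : ℝ) : ℂ) - (rm Q D : ℝ) = Real.sqrt D / Q 0 := by
    unfold rp rm
    push_cast
    field_simp
    ring
  rw [hrr, div_pow, mul_pow, Odd.neg_pow hj, div_pow]
  generalize f (ofComplex (geo Q θ)) = F
  generalize ((Real.exp θ : ℝ) : ℂ) = T at hM
  have e3 : (D : ℂ) ^ (j + 1) / (Real.sqrt D : ℝ) = D ^ j * (Real.sqrt D : ℝ) := by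
    rw [pow_succ, div_eq_iff hs0, mul_assoc, ← pow_two, hs2]
  rw [e3, ← pow_mul, show 2 * (j + 1) = 2 * j + 2 by ring, pow_add _ (2 * j) 2, pow_succ _ j,
    pow_succ Complex.I j, pow_succ T j, mul_pow Complex.I T j]
  field_simp

/-! ### automorphs -/

lemma Pf_aut {Q : LO.Frm} {D : ℕ} {t u : ℤ} (hD : disc Q = D) (hQ : 0 < Q 0)
    (h : t ^ 2 - D * u ^ 2 = 4) (N : Mat) (z : ℂ) :
    Pf (rp Q D) (aut (mir Q) t u * N) z = ((t + u * Real.sqrt D) / 2 : ℝ) * Pf (rp Q D) N z ∧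
    Pf (rm Q D) (aut (mir Q) t u * N) z = ((t - u * Real.sqrt D) / 2 : ℝ) * Pf (rm Q D) N z := by
  have hD' : disc (mir Q) = D := by rw [LO.disc_mir, hD]
  obtain ⟨h1, h2⟩ := LO.aut_two hD' h
  have e1 : (mir Q) 1 = -Q 1 := rfl
  have e0 : (mir Q) 0 = Q 0 := rfl
  have e2 : (mir Q) 2 = Q 2 := rfl
  have hs2 : ((Real.sqrt D : ℝ) : ℂ) ^ 2 = D := by
    rw [← Complex.ofReal_pow, Real.sq_sqrt (Nat.cast_nonneg D)]; simp
  have ha : (Q 0 : ℂ) ≠ 0 := by exact_mod_cast hQ.ne'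
  have hdc : (D : ℂ) = (Q 1 : ℂ) ^ 2 - 4 * Q 0 * Q 2 := by
    have h := hD
    unfold LO.disc at h
    exact_mod_cast h.symm
  have h1' : ((((t - (mir Q) 1 * u) / 2 : ℤ)) : ℂ) = (t + Q 1 * u) / 2 := by
    have : (2 : ℂ) * ((((t - (mir Q) 1 * u) / 2 : ℤ)) : ℂ) = (t + Q 1 * u) := by
      rw [e1] at h1 ⊢
      have h3 : 2 * ((t - -Q 1 * u) / 2) = t + Q 1 * u := by rw [h1]; ring
      exact_mod_cast h3
    rw [← this]; ring
  have h2' : ((((t + (mir Q) 1 * u) / 2 : ℤ)) : ℂ) = (t - Q 1 * u) / 2 := by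
    have : (2 : ℂ) * ((((t + (mir Q) 1 * u) / 2 : ℤ)) : ℂ) = (t - Q 1 * u) := by
      rw [e1] at h2 ⊢
      have h3 : 2 * ((t + -Q 1 * u) / 2) = t - Q 1 * u := by rw [h2]; ring
      exact_mod_cast h3
    rw [← this]; ring
  have m : ∀ i j, ((aut (mir Q) t u * N) i j : ℤ) =
      (aut (mir Q) t u) i 0 * N 0 j + (aut (mir Q) t u) i 1 * N 1 j := by
    intro i j
    rw [Matrix.mul_apply, Fin.sum_univ_two]
  have a00 : (aut (mir Q) t u) 0 0 = (t - (mir Q) 1 * u) / 2 := rfl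
  have a01 : (aut (mir Q) t u) 0 1 = -(mir Q) 2 * u := rfl
  have a10 : (aut (mir Q) t u) 1 0 = (mir Q) 0 * u := rfl
  have a11 : (aut (mir Q) t u) 1 1 = (t + (mir Q) 1 * u) / 2 := rfl
  have key : ((Real.sqrt D : ℝ) : ℂ) ^ 2 = (Q 1 : ℂ) ^ 2 - 4 * Q 0 * Q 2 := hs2.trans hdc
  constructor
  · unfold Pf rp
    rw [m, m, m, m, a00, a01, a10, a11]
    push_cast [h1', h2', e0, e2]
    field_simp
    linear_combination (-(u : ℂ) * (N 1 0 * z + N 1 1)) * key
  · unfold Pf rm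
    rw [m, m, m, m, a00, a01, a10, a11]
    push_cast [h1', h2', e0, e2]
    field_simp
    linear_combination (-(u : ℂ) * (N 1 0 * z + N 1 1)) * key

/-! ### the kernel identity -/

lemma kern {k w : ℕ} (f : CuspForm 𝒮ℒ (w : ℤ)) {β : ℕ →₀ ℂ} (hw : w = 2 * k) (hK : KerId f β)
    {z : ℂ} (hz : 0 < z.im) {α α' : ℝ} (h : α' < α) {T : ℝ} (hT : 0 < T) :
    β.sum (fun m b => b * ∑' g : DetM m,
      ((Complex.I * T * Pf α g.1 z + Pf α' g.1 z) ^ (2 * k))⁻¹) =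
      2 * Cw w * f (ofComplex z) * lf f (Complex.I * T * α + α') (Complex.I * T + 1) := by
  have h1 := hK z 1 (-(Complex.I * T * α + α')) (Complex.I * T + 1) (by simpa using hz)
    (y_im α α' T h hT)
  have h2 : lf f z 1 = f (ofComplex z) := by
    unfold lf
    rw [one_pow, inv_one, one_mul, div_one]
  have h3 : ∀ m : ℕ, ∑' g : DetM m,
      ((bil g.1 z 1 (-(Complex.I * T * α + α')) (Complex.I * T + 1)) ^ w)⁻¹ =
      ∑' g : DetM m, ((Complex.I * T * Pf α g.1 z + Pf α' g.1 z) ^ (2 * k))⁻¹ := by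
    intro m
    rw [hw]
    exact tsum_bil z α α' T
  rw [neg_neg, h2] at h1
  rw [← h1]
  refine Finsupp.sum_congr fun m _ => ?_
  rw [h3]

lemma int_kern {k w : ℕ} (f : CuspForm 𝒮ℒ (w : ℤ)) {β : ℕ →₀ ℂ} (hw : w = 2 * k) (hk : 3 ≤ k)
    (hβ : β 0 = 0) (hK : KerId f β) {z : ℂ} (hz : 0 < z.im) {α α' : ℝ} (h : α' < α) {L : ℝ}
    (hL : 0 ≤ L) :
    2 * Cw w * f (ofComplex z) * ∫ θ in (0 : ℝ)..L,
      lf f (Complex.I * (Real.exp θ : ℝ) * α + α') (Complex.I * (Real.exp θ : ℝ) + 1) *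
        ((Real.exp θ : ℝ) : ℂ) ^ k =
      β.sum fun m b => b * ∑' g : DetM m, If k L (Pf α g.1 z) (Pf α' g.1 z) := by
  have hm : ∀ m ∈ β.support, 1 ≤ m := by
    intro m hm
    rcases Nat.eq_zero_or_pos m with h0 | h0
    · rw [h0, Finsupp.mem_support_iff] at hm
      exact absurd hβ hm
    · exact h0
  rw [← intervalIntegral.integral_const_mul]
  have e1 : ∀ θ : ℝ, 2 * Cw w * f (ofComplex z) *
      (lf f (Complex.I * (Real.exp θ : ℝ) * α + α') (Complex.I * (Real.exp θ : ℝ) + 1) *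
        ((Real.exp θ : ℝ) : ℂ) ^ k) =
      ∑ m ∈ β.support, β m * ∑' g : DetM m, Tf k (Pf α g.1 z) (Pf α' g.1 z) θ := by
    intro θ
    rw [← mul_assoc, ← kern f hw hK hz h (Real.exp_pos θ), Finsupp.sum, Finset.sum_mul]
    refine Finset.sum_congr rfl fun m _ => ?_
    rw [mul_assoc, ← tsum_mul_right]
    rfl
  rw [intervalIntegral.integral_congr fun θ _ => e1 θ, intervalIntegral.integral_finsetSum,
    Finsupp.sum]
  · refine Finset.sum_congr rfl fun m hm' => ?_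
    rw [intervalIntegral.integral_const_mul, (hasSum_DetM (hm m hm') hk hz h hL).tsum_eq]
  · intro m hm'
    refine IntervalIntegrable.const_mul (ContinuousOn.intervalIntegrable ?_) _
    rw [uIcc_of_le hL]
    exact cont_tsum (hm m hm') hk hz h L

lemma tsum_cos (hC : StCos) {m : ℕ} (hm : 1 ≤ m) {G : Mat → ℂ}
    (hG : Summable fun g : DetM m => ‖G g.1‖) :
    (∀ p ∈ UP m, Summable fun γ : SL(2, ℤ) => ‖G (sm γ * um m p)‖) ∧
      ∑' g : DetM m, G g.1 = ∑ p ∈ UP m, ∑' γ : SL(2, ℤ), G (sm γ * um m p) := by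
  obtain ⟨e, he⟩ := hC m hm
  have h1 : Summable fun q : UP m × SL(2, ℤ) => ‖G (sm q.2 * um m q.1.1)‖ := by
    have h2 := e.summable_iff.2 hG
    refine h2.congr fun q => ?_
    simp only [Function.comp_apply]
    rw [he]
  constructor
  · intro p hp
    exact h1.comp_injective (i := fun γ : SL(2, ℤ) => ((⟨p, hp⟩ : UP m), γ)) fun a b hab => by
      simpa using hab
  · rw [← e.tsum_eq]
    have h3 : (fun q => G (e q).1) = fun q : UP m × SL(2, ℤ) => G (sm q.2 * um m q.1.1) :=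
      funext fun q => by rw [he]
    rw [h3, h1.of_norm.tsum_prod, tsum_fintype,
      Finset.sum_coe_sort (UP m) fun p => ∑' γ : SL(2, ℤ), G (sm γ * um m p)]

/-! ### orbits -/

lemma sm_mul (g h : SL(2, ℤ)) : sm (g * h) = sm g * sm h := rfl

lemma sm_one : sm 1 = 1 := rfl

lemma sm_neg (g : SL(2, ℤ)) : sm (-g) = -sm g := rfl

lemma act_mul (q : LO.Frm) (g h : SL(2, ℤ)) : act q (sm (g * h)) = act (act q (sm g)) (sm h) := by
  rw [LO.act_act, sm_mul]

lemma act_inv (q : LO.Frm) (g : SL(2, ℤ)) : act (act q (sm g)) (sm g⁻¹) = q := by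
  rw [← act_mul, mul_inv_cancel, sm_one, LO.act_one]

lemma tsum_orb {q : LO.Frm} {A : SL(2, ℤ)} (hA : ∀ n : ℤ, act q (sm (A ^ n)) = q)
    (hu : ∀ g : SL(2, ℤ), act q (sm g) = q →
      ∃! p : ℤ × Bool, g = if p.2 then A ^ p.1 else -A ^ p.1)
    {G : SL(2, ℤ) → ℂ} {H : LO.Frm → ℂ} (hG : Summable fun g => ‖G g‖)
    (hneg : ∀ g, G (-g) = G g)
    (hs : ∀ g, HasSum (fun n : ℤ => G (A ^ n * g)) (H (act q (sm g)))) :
    ∑' g, G g = 2 * ∑' Q' : Orb q, H Q'.1 := by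
  choose s hs' using fun Q' : Orb q => Q'.2
  set c : ℤ × Bool → SL(2, ℤ) := fun p => if p.2 then A ^ p.1 else -A ^ p.1 with hc
  have hcq : ∀ p, act q (sm (c p)) = q := by
    intro p
    simp only [hc]
    split_ifs
    · exact hA _
    · rw [sm_neg, LO.act_neg]
      exact hA _
  have hcinj : Function.Injective c := by
    intro p p' h
    obtain ⟨r, -, hr⟩ := hu (c p) (hcq p)
    rw [hr p rfl, hr p' h]
  set Φ : Orb q × (ℤ × Bool) → SL(2, ℤ) := fun x => c x.2 * s x.1 with hΦ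
  have hΦa : ∀ x, act q (sm (Φ x)) = x.1.1 := by
    intro x
    simp only [hΦ]
    rw [act_mul, hcq, ← hs']
  have hbij : Function.Bijective Φ := by
    constructor
    · intro x y hxy
      have h1 : x.1 = y.1 := Subtype.ext (by rw [← hΦa, ← hΦa, hxy])
      have h2 : c x.2 * s x.1 = c y.2 * s y.1 := hxy
      rw [h1] at h2
      exact Prod.ext h1 (hcinj (mul_right_cancel h2))
    · intro g
      set Q' : Orb q := ⟨act q (sm g), g, rfl⟩
      have h1 : act q (sm (g * (s Q')⁻¹)) = q := by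
        rw [act_mul]
        have h2 : act q (sm g) = act q (sm (s Q')) := hs' Q'
        rw [h2, act_inv]
      obtain ⟨r, hr, -⟩ := hu _ h1
      refine ⟨(Q', r), ?_⟩
      have h3 : g * (s Q')⁻¹ = c r := hr
      simp only [hΦ]
      rw [← h3, inv_mul_cancel_right]
  have e := (Equiv.ofBijective Φ hbij).tsum_eq G
  have hG' : Summable fun x => ‖G (Φ x)‖ := hG.comp_injective hbij.1
  rw [← e]
  simp only [Equiv.ofBijective_apply]
  rw [hG'.of_norm.tsum_prod, ← tsum_mul_left]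
  refine tsum_congr fun Q' => ?_
  have h4 : Summable fun p : ℤ × Bool => ‖G (Φ (Q', p))‖ :=
    hG'.comp_injective (i := fun p : ℤ × Bool => (Q', p)) fun a b hab => by simpa using hab
  rw [h4.of_norm.tsum_prod]
  have h5 : ∀ n : ℤ, ∑' b : Bool, G (Φ (Q', (n, b))) = 2 * G (A ^ n * s Q') := by
    intro n
    rw [tsum_bool]
    simp only [hΦ, hc, if_true, Bool.false_eq_true, if_false]
    rw [neg_mul, hneg]
    ring
  rw [tsum_congr h5, tsum_mul_left, (hs (s Q')).tsum_eq, ← hs' Q']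

/-! ### the linear forms -/

lemma Pf_zpow {α c : ℝ} {A : SL(2, ℤ)} {z : ℂ} (hc : c ≠ 0)
    (h : ∀ N : Mat, Pf α (sm A * N) z = (c : ℝ) * Pf α N z) (n : ℤ) (N : Mat) :
    Pf α (sm (A ^ n) * N) z = ((c ^ n : ℝ) : ℂ) * Pf α N z := by
  have hn : ∀ (n : ℕ) (N : Mat), Pf α (sm (A ^ n) * N) z = ((c ^ n : ℝ) : ℂ) * Pf α N z := by
    intro n
    induction n with
    | zero =>
      intro N
      rw [pow_zero, sm_one, one_mul, pow_zero, Complex.ofReal_one, one_mul]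
    | succ n ih =>
      intro N
      rw [pow_succ, sm_mul, mul_assoc, ih, h, pow_succ, Complex.ofReal_mul]
      ring
  rcases Int.eq_nat_or_neg n with ⟨j, rfl | rfl⟩
  · rw [zpow_natCast, zpow_natCast]
    exact hn j N
  · have h1 := hn j (sm (A ^ (-(j : ℤ))) * N)
    rw [← mul_assoc, ← sm_mul, ← zpow_natCast A, ← zpow_add, add_neg_cancel, zpow_zero, sm_one,
      one_mul] at h1
    rw [h1, zpow_neg c, zpow_natCast c, Complex.ofReal_inv, inv_mul_cancel_left₀]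
    exact_mod_cast pow_ne_zero j hc

lemma Pf_neg (α : ℝ) (N : Mat) (z : ℂ) : Pf α (-N) z = -Pf α N z := by
  unfold Pf
  simp only [Matrix.neg_apply, Int.cast_neg]
  ring

lemma If_neg (k : ℕ) (L : ℝ) (P P' : ℂ) : If k L (-P) (-P') = If k L P P' := by
  unfold If
  refine intervalIntegral.integral_congr fun θ _ => ?_
  simp only [Tf]
  rw [show Complex.I * ((Real.exp θ : ℝ) : ℂ) * -P + -P' =
    -(Complex.I * ((Real.exp θ : ℝ) : ℂ) * P + P') by ring, Even.neg_pow (even_two_mul k)]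

lemma Pf_mul {Q : LO.Frm} {D : ℕ} (hD : disc Q = D) (hQ : 0 < Q 0) (N : Mat) (z : ℂ) :
    (Q 0 : ℂ) * (Pf (rp Q D) N z * Pf (rm Q D) N z) = qv (act (mir Q) N) z := by
  have hs2 : ((Real.sqrt D : ℝ) : ℂ) ^ 2 = D := by
    rw [← Complex.ofReal_pow, Real.sq_sqrt (Nat.cast_nonneg D)]; simp
  have ha : (Q 0 : ℂ) ≠ 0 := by exact_mod_cast hQ.ne'
  have hdc : (D : ℂ) = (Q 1 : ℂ) ^ 2 - 4 * Q 0 * Q 2 := by
    have h := hD
    unfold LO.disc at h
    exact_mod_cast h.symm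
  have key : ((Real.sqrt D : ℝ) : ℂ) ^ 2 = (Q 1 : ℂ) ^ 2 - 4 * Q 0 * Q 2 := hs2.trans hdc
  have e0 : act (mir Q) N 0 = Q 0 * N 0 0 ^ 2 - Q 1 * (N 0 0 * N 1 0) + Q 2 * N 1 0 ^ 2 := by
    simp only [LO.act, LO.mir]
    simp
    ring
  have e1 : act (mir Q) N 1 = 2 * Q 0 * (N 0 0 * N 0 1) -
      Q 1 * (N 0 0 * N 1 1 + N 0 1 * N 1 0) + 2 * Q 2 * (N 1 0 * N 1 1) := by
    simp only [LO.act, LO.mir]
    simp
    ring
  have e2 : act (mir Q) N 2 = Q 0 * N 0 1 ^ 2 - Q 1 * (N 0 1 * N 1 1) + Q 2 * N 1 1 ^ 2 := by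
    simp only [LO.act, LO.mir]
    simp
    ring
  unfold LO.qv
  rw [e0, e1, e2]
  unfold Pf rp rm
  push_cast
  field_simp
  linear_combination (-(N 1 0 * z + N 1 1) ^ 2) * key

end GeoAux

open GeoAux in
theorem stGeo (h1 : StBt) (h2 : StCos) (h3 : StStab) : StGeo := by
  intro k w D f β t u Q z hw hk he hβ hK hO hD1 hD hQ hF hz
  set ε : ℝ := eps D t u with hε
  have hs : 0 < Real.sqrt D := Real.sqrt_pos.2 (by exact_mod_cast (by omega : 0 < D))
  have hs2 : Real.sqrt D ^ 2 = D := Real.sq_sqrt (Nat.cast_nonneg D)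
  have heq : (t : ℝ) ^ 2 - D * (u : ℝ) ^ 2 = 4 := by exact_mod_cast hF.eq
  have ht : (0 : ℝ) < t := by exact_mod_cast hF.pt
  have hu : (0 : ℝ) < u := by exact_mod_cast hF.pu
  have hε1 : 1 < ε := by
    have h4 : 2 < (t : ℝ) := by
      have : (2 : ℝ) ^ 2 < (t : ℝ) ^ 2 := by
        have : (0 : ℝ) < D * (u : ℝ) ^ 2 := by
          have : (0 : ℝ) < D := by exact_mod_cast (by omega : 0 < D)
          positivity
        linarith
      exact lt_of_pow_lt_pow_left₀ 2 ht.le this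
    have h5 : 0 < (u : ℝ) * Real.sqrt D := mul_pos hu hs
    rw [hε]
    unfold eps
    linarith
  have hε0 : ε ≠ 0 := by linarith
  have hinv : ((t : ℝ) - u * Real.sqrt D) / 2 = ε⁻¹ := by
    refine eq_inv_of_mul_eq_one_left ?_
    rw [hε]
    unfold eps
    linear_combination (1 / 4 : ℝ) * heq - ((u : ℝ) ^ 2 / 4) * hs2
  set L : ℝ := 2 * Real.log ε with hLdef
  have hL : 0 ≤ L := by
    have := Real.log_pos hε1
    linarith
  have hk3 : 3 ≤ k := by omega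
  have ha : (Q 0 : ℂ) ≠ 0 := by exact_mod_cast hQ.ne'
  have hrr : rm Q D < rp Q D := by
    unfold rm rp
    have : (0 : ℝ) < 2 * Q 0 := by
      have : (0 : ℝ) < Q 0 := by exact_mod_cast hQ
      linarith
    refine (div_lt_div_iff_of_pos_right this).2 ?_
    linarith
  obtain ⟨A, hA1, hA2, hA3⟩ := h3 D t u (mir Q) hO hD1 (by rw [LO.disc_mir, hD]) hF
  have hp1 : ∀ N : Mat, Pf (rp Q D) (sm A * N) z = (ε : ℝ) * Pf (rp Q D) N z := by
    intro N
    rw [hA1, (Pf_aut hD hQ hF.eq N z).1]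
    rfl
  have hp2 : ∀ N : Mat, Pf (rm Q D) (sm A * N) z = ((ε⁻¹ : ℝ) : ℂ) * Pf (rm Q D) N z := by
    intro N
    rw [hA1, (Pf_aut hD hQ hF.eq N z).2, hinv]
  have hm : ∀ m ∈ β.support, 1 ≤ m := by
    intro m hm
    rcases Nat.eq_zero_or_pos m with h0 | h0
    · rw [h0, Finsupp.mem_support_iff] at hm
      exact absurd hβ hm
    · exact h0
  have key : ∀ m ∈ β.support, ∑' g : DetM m, If k L (Pf (rp Q D) g.1 z) (Pf (rm Q D) g.1 z) =
      2 * Bk k * (Complex.I ^ k)⁻¹ * (Q 0 : ℂ) ^ k *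
        ∑ p ∈ UP m, ∑' Q' : Orb (mir Q), ((qv (act Q'.1 (um m p)) z) ^ k)⁻¹ := by
    intro m hm'
    have hm1 := hm m hm'
    obtain ⟨h4, h5⟩ := tsum_cos h2 hm1
      (G := fun g : Mat => If k L (Pf (rp Q D) g z) (Pf (rm Q D) g z))
      (summable_If hm1 hk3 hz hrr hL)
    rw [h5, Finset.mul_sum]
    refine Finset.sum_congr rfl fun p hp => ?_
    have h6 := tsum_orb hA2 hA3
      (G := fun γ : SL(2, ℤ) => If k L (Pf (rp Q D) (sm γ * um m p) z)
        (Pf (rm Q D) (sm γ * um m p) z))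
      (H := fun Q' => Bk k * (Complex.I ^ k)⁻¹ * (Q 0 : ℂ) ^ k *
        ((qv (act Q' (um m p)) z) ^ k)⁻¹) (h4 p hp) ?_ ?_
    · rw [h6, tsum_mul_left]
      ring
    · intro g
      rw [sm_neg, neg_mul, Pf_neg, Pf_neg, If_neg]
    · intro g
      have hdet : (sm g * um m p).det = m := by
        obtain ⟨e, he'⟩ := h2 m hm1
        rw [← he' (⟨p, hp⟩, g)]
        exact (e (⟨p, hp⟩, g)).2
      have h7 := If_sum h1 (k := k) (by omega)
        (im_pos_pf hm1 hz hrr (⟨sm g * um m p, hdet⟩ : DetM m)) hε1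
      have e1 : (fun n : ℤ => If k L (Pf (rp Q D) (sm (A ^ n * g) * um m p) z)
          (Pf (rm Q D) (sm (A ^ n * g) * um m p) z)) =
          fun n : ℤ => If k (2 * Real.log ε) ((ε ^ n : ℝ) * Pf (rp Q D) (sm g * um m p) z)
            (((ε ^ n)⁻¹ : ℝ) * Pf (rm Q D) (sm g * um m p) z) := by
        funext n
        rw [sm_mul, mul_assoc, Pf_zpow hε0 hp1, Pf_zpow (inv_ne_zero hε0) hp2, inv_zpow]
      rw [e1]
      have e2 : (Bk k : ℂ) * (Complex.I ^ k)⁻¹ * (Q 0 : ℂ) ^ k *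
          ((qv (act (act (mir Q) (sm g)) (um m p)) z) ^ k)⁻¹ =
          Bk k * ((Complex.I * Pf (rp Q D) (sm g * um m p) z *
            Pf (rm Q D) (sm g * um m p) z) ^ k)⁻¹ := by
        rw [LO.act_act, ← Pf_mul hD hQ, mul_pow, mul_inv, mul_assoc Complex.I, mul_pow Complex.I,
          mul_inv]
        have hQk : (Q 0 : ℂ) ^ k ≠ 0 := pow_ne_zero _ ha
        rw [mul_assoc _ ((Q 0 : ℂ) ^ k), mul_inv_cancel_left₀ hQk, mul_assoc]
      rw [e2]
      exact h7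
  have hcyc := cyc_eq f hw (by omega : 1 ≤ k) he hD (by omega) hQ ε
  have hint := int_kern f hw hk3 hβ hK hz hrr hL
  rw [hcyc]
  calc 2 * Cw w * f (ofComplex z) * (-((D : ℂ) ^ k / Real.sqrt D) * ((Q 0 : ℂ) ^ k)⁻¹ *
        Complex.I ^ k * ∫ θ in (0 : ℝ)..(2 * Real.log ε),
          lf f (Complex.I * (Real.exp θ : ℝ) * rp Q D + rm Q D)
            (Complex.I * (Real.exp θ : ℝ) + 1) * ((Real.exp θ : ℝ) : ℂ) ^ k) =
      -((D : ℂ) ^ k / Real.sqrt D) * ((Q 0 : ℂ) ^ k)⁻¹ * Complex.I ^ k *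
        (2 * Cw w * f (ofComplex z) * ∫ θ in (0 : ℝ)..L,
          lf f (Complex.I * (Real.exp θ : ℝ) * rp Q D + rm Q D)
            (Complex.I * (Real.exp θ : ℝ) + 1) * ((Real.exp θ : ℝ) : ℂ) ^ k) := by ring
    _ = _ := by
      rw [hint, Finsupp.sum, Finsupp.sum, Finset.mul_sum, Finset.mul_sum]
      refine Finset.sum_congr rfl fun m hm' => ?_
      rw [key m hm']
      have hI : Complex.I ^ k ≠ 0 := pow_ne_zero _ Complex.I_ne_zero
      have hQk : (Q 0 : ℂ) ^ k ≠ 0 := pow_ne_zero _ ha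
      field_simp

end LC

end Pool.Agent.Lib.MP_7c5fb9_nt
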