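import Mathlib
import Pool.Agent.Lib.MP_7c5fb9_nt.LC.St
import Pool.Agent.Lib.MP_7c08ba_nt.RZ.PetU

set_option autoImplicit false

/-!
(Gram) the scalar products of Poincaré series
-/

namespace Pool.Agent.Lib.MP_7c5fb9_nt

namespace LC

namespace GramAux

open MeasureTheory UpperHalfPlane Set Pool.Agent.Lib.MP_7c08ba_nt.RZ
open LO (Mat mb)
open scoped MatrixGroups ComplexConjugate

theorem det_vm {v : ℤ × ℤ} (h : IsCoprime v.1 v.2) : (vm v).det = 1 := by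
  unfold vm
  rw [Matrix.det_fin_two_of]
  linear_combination PetX.bez h

theorem jf_vm (v : ℤ × ℤ) (z : ℂ) : jf (vm v) z = (v.1 : ℂ) * z + v.2 := rfl

theorem mb_vm (v : ℤ × ℤ) (z : ℂ) : mb (vm v) z = mob v z := by
  show (((Int.gcdB v.1 v.2 : ℤ) : ℂ) * z + ((-Int.gcdA v.1 v.2 : ℤ) : ℂ)) /
    ((v.1 : ℂ) * z + v.2) = mob v z
  unfold mob
  push_cast
  rw [sub_eq_add_neg]

theorem chi_sq {D : ℕ} {c d : ℤ} (h : IsCoprime c d) (hD : (D : ℤ) ∣ c) :
    (jacobiSym d D : ℂ) * (jacobiSym d D : ℂ) = 1 := by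
  have h1 : IsCoprime (D : ℤ) d := IsCoprime.of_isCoprime_of_dvd_left h hD
  have h2 : Int.gcd d D = 1 := by
    rw [Int.gcd_comm]
    exact Int.isCoprime_iff_gcd_eq_one.1 h1
  have h3 := jacobiSym.sq_one h2
  rw [← sq]
  exact_mod_cast h3

/-- the function to be unfolded -/
noncomputable def gf (D k m m' : ℕ) (τ : ℂ) : ℂ :=
  PP D k m τ (pr m') * conj (ee (m' * τ / 4)) * ((τ.im ^ ((k : ℝ) + 1 / 2) : ℝ) : ℂ)

theorem im_pow (k : ℕ) {y : ℝ} (hy : 0 < y) {j : ℂ} (hj : j ≠ 0) :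
    (((y / Complex.normSq j) ^ ((k : ℝ) + 1 / 2) : ℝ) : ℂ) =
      ((y ^ ((k : ℝ) + 1 / 2) : ℝ) : ℂ) * (j ^ k * conj j ^ k * ((‖j‖ : ℝ) : ℂ))⁻¹ := by
  have hn : 0 < ‖j‖ := norm_pos_iff.2 hj
  have e1 : (Complex.normSq j) ^ ((k : ℝ) + 1 / 2) = (‖j‖ ^ 2) ^ k * ‖j‖ := by
    rw [Complex.normSq_eq_norm_sq, Real.rpow_add (by positivity), Real.rpow_natCast]
    congr 1
    rw [← Real.sqrt_eq_rpow, Real.sqrt_sq hn.le]
  rw [Real.div_rpow hy.le (Complex.normSq_nonneg j), e1]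
  push_cast
  rw [← mul_pow, Complex.mul_conj']
  rw [div_eq_mul_inv]

theorem term (hI : StPInv) (h6 : StPoiS) {D k m m' : ℕ} (hD : Ok D) (hk : 4 ≤ k) (hev : Even k)
    (hm : Adm m) (hm1 : 1 ≤ m) (v : CopD D) {τ : ℂ} (hτ : 0 < τ.im) :
    gf D k m m' (mob v.1.1 τ) = (∑ μ, PP D k m τ μ * conj (pM D k m' (vm v.1.1) τ μ)) *
      ((τ.im ^ ((k : ℝ) + 1 / 2) : ℝ) : ℂ) := by
  obtain ⟨⟨⟨c, d⟩, hv⟩, hc⟩ := v
  simp only at hv hc ⊢
  have hdet : (vm (c, d)).det = 1 := det_vm hv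
  have h10 : (D : ℤ) ∣ (vm (c, d)) 1 0 := hc
  have e1 := hI.2.2 D k m (vm (c, d)) τ (pr m') hD hk hev hm hm1 hdet h10 hτ
  rw [mb_vm] at e1
  have hχ := chi_sq hv hc
  have h11 : (vm (c, d)) 1 1 = d := rfl
  rw [h11] at e1
  have him := (h6.2 ⟨(c, d), hv⟩ τ hτ).2
  simp only at him
  have hj0 : (c : ℂ) * τ + d ≠ 0 := PetX.den_ne hτ.ne' hv
  have hj : jf (vm (c, d)) τ = (c : ℂ) * τ + d := rfl
  unfold gf
  rw [e1, him, im_pow k hτ hj0, ← hj]
  rw [← hj] at hj0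
  set j := jf (vm (c, d)) τ with hjdef
  set χ : ℂ := (jacobiSym d D : ℂ) with hχdef
  set S : Fin 2 → ℂ := fun ρ => Um (cj D (vm (c, d))) (D * τ) (pr m') ρ with hS
  have hsum : ∑ μ, PP D k m τ μ * conj (pM D k m' (vm (c, d)) τ μ) =
      χ * (conj j ^ k)⁻¹ * ((‖j‖ : ℝ) : ℂ)⁻¹ * conj (ee (m' * mob (c, d) τ / 4)) *
        ∑ ρ, S ρ * PP D k m τ ρ := by
    rw [Finset.mul_sum]
    refine Finset.sum_congr rfl fun μ _ => ?_
    unfold pM
    rw [h11, mb_vm, ← hjdef]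
    simp only [map_mul, map_inv₀, map_pow, Complex.conj_ofReal, map_intCast, Complex.conj_conj]
    rw [← hχdef]
    ring
  rw [hsum]
  have hjc : conj j ≠ 0 := (map_ne_zero _).2 hj0
  have hn : ((‖j‖ : ℝ) : ℂ) ≠ 0 := by exact_mod_cast (norm_pos_iff.2 hj0).ne'
  rw [mul_inv, mul_inv]
  have hjk : j ^ k * (j ^ k)⁻¹ = 1 := mul_inv_cancel₀ (pow_ne_zero k hj0)
  linear_combination (χ * (∑ ρ, S ρ * PP D k m τ ρ) * conj (ee (m' * mob (c, d) τ / 4)) *
    ((τ.im ^ ((k : ℝ) + 1 / 2) : ℝ) : ℂ) * (conj j ^ k)⁻¹ * ((‖j‖ : ℝ) : ℂ)⁻¹) * hjk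

theorem GG_eq (hI : StPInv) (hS : StPtS) (h6 : StPoiS) {D k m m' : ℕ} (hD : Ok D) (hk : 4 ≤ k)
    (hev : Even k) (hm : Adm m) (hm1 : 1 ≤ m) (hm' : Adm m') (hm1' : 1 ≤ m') {τ : ℂ}
    (hτ : 0 < τ.im) :
    GG D k m m' τ = (1 / 2) * ∑' v : CopD D, gf D k m m' (mob v.1.1 τ) := by
  have h1 : ∀ μ : Fin 2, HasSum (fun v : CopD D => PP D k m τ μ *
      conj (pM D k m' (vm v.1.1) τ μ)) (PP D k m τ μ *
        conj (∑' v : CopD D, pM D k m' (vm v.1.1) τ μ)) := by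
    intro μ
    have h2 : Summable fun v : CopD D => pM D k m' (vm v.1.1) τ μ :=
      (hS.1 D k m' τ μ hD hk hm' hm1' hτ).of_norm
    exact (h2.hasSum.star).mul_left _
  have h3 := (hasSum_sum (s := Finset.univ) fun μ _ => h1 μ).mul_right
    ((τ.im ^ ((k : ℝ) + 1 / 2) : ℝ) : ℂ)
  have h4 : ∑' v : CopD D, gf D k m m' (mob v.1.1 τ) =
      (∑ μ, PP D k m τ μ * conj (∑' v : CopD D, pM D k m' (vm v.1.1) τ μ)) *
        ((τ.im ^ ((k : ℝ) + 1 / 2) : ℝ) : ℂ) := by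
    rw [← h3.tsum_eq]
    exact tsum_congr fun v => term hI h6 hD hk hev hm hm1 v hτ
  rw [h4]
  unfold GG
  have h5 : ∀ μ, conj (PP D k m' τ μ) =
      (1 / 2) * conj (∑' v : CopD D, pM D k m' (vm v.1.1) τ μ) := by
    intro μ
    unfold PP
    rw [map_mul]
    congr 1
    rw [map_div₀, map_one, map_ofNat]
  simp_rw [h5]
  rw [← mul_assoc, Finset.mul_sum]
  congr 1
  exact Finset.sum_congr rfl fun μ _ => by ring

theorem ee_int_mul (n : ℤ) : ee (n : ℂ) = 1 := by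
  have := PetX.ee_add_int 0 n
  rw [zero_add] at this
  rw [this]
  unfold ee
  simp

theorem ee_add (a b : ℂ) : ee (a + b) = ee a * ee b := by
  unfold ee
  rw [mul_add, Complex.exp_add]

theorem gf_add (hI : StPInv) (hU : StUm) {D k m m' : ℕ} (hD : Ok D) (hk : 4 ≤ k)
    (hev : Even k) (hm : Adm m) (hm1 : 1 ≤ m) (hm' : Adm m') {τ : ℂ} (hτ : 0 < τ.im) :
    gf D k m m' (τ + 1) = gf D k m m' τ := by
  have e1 := hI.2.2 D k m !![1, 1; 0, 1] τ (pr m') hD hk hev hm hm1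
    (by rw [Matrix.det_fin_two_of]; norm_num) (by simp) hτ
  have e2 : mb !![1, 1; 0, 1] τ = τ + 1 := by
    unfold mb
    simp
  have e3 : jf !![1, 1; 0, 1] τ = 1 := by
    unfold jf
    simp
  have e4 : cj D !![1, 1; 0, 1] = !![1, (D : ℤ); 0, 1] := by
    unfold cj
    simp
  rw [e2, e3, e4] at e1
  have e5 : ∑ ρ, Um !![1, (D : ℤ); 0, 1] (D * τ) (pr m') ρ * PP D k m τ ρ =
      ee (((D : ℤ) : ℂ) * (((pr m' : Fin 2) : ℕ) : ℂ) ^ 2 / 4) * PP D k m τ (pr m') := by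
    simp_rw [hU.2.2.2.2.2]
    simp [Finset.sum_ite_eq]
  rw [e5] at e1
  have e6 : (jacobiSym ((!![1, 1; 0, 1] : Mat) 1 1) D : ℂ) = 1 := by
    have : (!![1, 1; 0, 1] : Mat) 1 1 = 1 := rfl
    rw [this, jacobiSym.one_left]
    norm_num
  rw [e6] at e1
  unfold gf
  rw [e1]
  have him : (τ + 1).im = τ.im := by simp
  rw [him]
  have e7 : ee ((m' : ℂ) * (τ + 1) / 4) = ee (m' * τ / 4) * ee ((m' : ℂ) / 4) := by
    rw [← ee_add]
    congr 1
    ring
  have e8 : ee (((D : ℤ) : ℂ) * (((pr m' : Fin 2) : ℕ) : ℂ) ^ 2 / 4) * conj (ee ((m' : ℂ) / 4)) =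
      1 := by
    rw [PetX.conj_ee, ← ee_add]
    obtain ⟨n, hn⟩ : ∃ n : ℤ, (D : ℤ) * (((pr m' : Fin 2) : ℕ) : ℤ) ^ 2 - m' = 4 * n := by
      have hD4 := hD.mod
      rcases hm' with h | h
      · have h0 : m' % 2 = 0 := by omega
        refine ⟨-(m' / 4 : ℕ), ?_⟩
        unfold pr
        rw [if_pos h0]
        simp only [Fin.val_zero, Nat.cast_zero]
        push_cast
        omega
      · have h0 : ¬ m' % 2 = 0 := by omega
        refine ⟨(D / 4 : ℕ) - (m' / 4 : ℕ), ?_⟩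
        unfold pr
        rw [if_neg h0]
        simp only [Fin.val_one, Nat.cast_one, one_pow, mul_one]
        push_cast
        omega
    rw [← ee_int_mul n]
    congr 1
    have hn' : (D : ℂ) * (((pr m' : Fin 2) : ℕ) : ℂ) ^ 2 - m' = 4 * n := by exact_mod_cast hn
    rw [map_div₀, Complex.conj_natCast]
    have h4 : conj (4 : ℂ) = 4 := map_ofNat (starRingEnd ℂ) 4
    rw [h4]
    push_cast
    linear_combination (1 / 4 : ℂ) * hn'
  rw [e7, map_mul, one_pow]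
  linear_combination (PP D k m τ (pr m') * conj (ee (m' * τ / 4)) *
    ((τ.im ^ ((k : ℝ) + 1 / 2) : ℝ) : ℂ)) * e8

theorem norm_ee4 (m : ℕ) (z : ℂ) :
    ‖conj (ee (m * z / 4))‖ = Real.exp (-(Real.pi * m / 2) * z.im) := by
  have h := PetX.norm_conj_ee m (z / 4)
  rw [← mul_div_assoc] at h
  rw [h]
  congr 1
  have : (z / 4).im = z.im / 4 := by
    rw [show (4 : ℂ) = ((4 : ℝ) : ℂ) by norm_num, Complex.div_ofReal_im]
  rw [this]
  ring

end GramAux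

open MeasureTheory UpperHalfPlane Set Pool.Agent.Lib.MP_7c08ba_nt.RZ
open scoped MatrixGroups ComplexConjugate

open GramAux in
/-- (Gram) the scalar products of Poincaré series -/
theorem stGram (h1 : StPInv) (h2 : StPtS) (h3 : StUm) (h4 : StUnfD) (h5 : StStrip)
    (h6 : StPoiS) : StGram := by
  intro D k m m' ι _ R hD hk hev hm hm' hm1 hm1' hR
  have hk4 : 4 ≤ k := by omega
  have hk6 : (6 : ℝ) ≤ k := by exact_mod_cast hk
  have hm0 : (0 : ℝ) < m' := by exact_mod_cast hm1'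
  have hD1 : 1 ≤ D := by
    have := hD.mod
    omega
  have hGc : ContinuousOn (gf D k m m') {z | 0 < z.im} := by
    have e1 : Continuous fun z : ℂ => conj (ee (m' * z / 4)) := by
      unfold ee
      have := Complex.continuous_conj
      fun_prop
    have e3 : Continuous fun z : ℂ => ((z.im ^ ((k : ℝ) + 1 / 2) : ℝ) : ℂ) :=
      Complex.continuous_ofReal.comp
        ((Real.continuous_rpow_const (by positivity)).comp Complex.continuous_im)
    exact ((h2.2.2 D k m (pr m') hD hk4 hm hm1).mul e1.continuousOn).mul e3.continuousOn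
  have hGp : ∀ z : ℂ, 0 < z.im → gf D k m m' (z + 1) = gf D k m m' z := fun z hz =>
    gf_add h1 h3 hD hk4 hev hm hm1 hm' hz
  obtain ⟨C, hC0, hC⟩ := h2.2.1 D k hD hk4
  set b : ℝ → ℝ := fun y => C * ((1 + y ^ (-((k : ℝ) / 2 + 7 / 4))) *
    (Real.exp (-(Real.pi * m' / 2) * y) * y ^ ((k : ℝ) + 1 / 2))) with hb
  have hGb : ∀ x y : ℝ, 0 < x → x ≤ 1 → 0 < y →
      ‖gf D k m m' (x + y * Complex.I)‖ ≤ b y := by
    intro x y hx hx1 hy
    have him : ((x : ℂ) + y * Complex.I).im = y := by simp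
    have hre : ((x : ℂ) + y * Complex.I).re = x := by simp
    have e1 := hC m (x + y * Complex.I) (pr m') hm hm1 (by rw [him]; exact hy)
      (by rw [hre, abs_of_pos hx]; exact hx1)
    rw [him] at e1
    have e2 : ‖PP D k m (x + y * Complex.I) (pr m')‖ ≤
        C * (1 + y ^ (-((k : ℝ) / 2 + 7 / 4))) := by
      unfold PP
      rw [norm_mul]
      have e3 : ‖(1 / 2 : ℂ)‖ ≤ 1 := by norm_num
      have hs := h2.1 D k m (x + y * Complex.I) (pr m') hD hk4 hm hm1 (by rw [him]; exact hy)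
      have e4 := norm_tsum_le_tsum_norm hs
      calc ‖(1 / 2 : ℂ)‖ * ‖∑' v : CopD D, pM D k m (vm v.1.1) (x + y * Complex.I) (pr m')‖
          ≤ 1 * ‖∑' v : CopD D, pM D k m (vm v.1.1) (x + y * Complex.I) (pr m')‖ :=
            mul_le_mul_of_nonneg_right e3 (norm_nonneg _)
        _ ≤ C * (1 + y ^ (-((k : ℝ) / 2 + 7 / 4))) := by
            rw [one_mul]
            exact e4.trans e1
    unfold gf
    rw [norm_mul, norm_mul, norm_ee4, him, Complex.norm_real,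
      Real.norm_of_nonneg (Real.rpow_nonneg hy.le _), hb]
    have e5 : 0 ≤ Real.exp (-(Real.pi * m' / 2) * y) * y ^ ((k : ℝ) + 1 / 2) := by positivity
    calc ‖PP D k m (x + y * Complex.I) (pr m')‖ * Real.exp (-(Real.pi * m' / 2) * y) *
          y ^ ((k : ℝ) + 1 / 2)
        = ‖PP D k m (x + y * Complex.I) (pr m')‖ *
          (Real.exp (-(Real.pi * m' / 2) * y) * y ^ ((k : ℝ) + 1 / 2)) := by ring
      _ ≤ C * (1 + y ^ (-((k : ℝ) / 2 + 7 / 4))) *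
          (Real.exp (-(Real.pi * m' / 2) * y) * y ^ ((k : ℝ) + 1 / 2)) :=
        mul_le_mul_of_nonneg_right e2 e5
      _ = _ := by ring
  have hbi : IntegrableOn (fun y : ℝ => b y / y ^ 2) (Ioi 0) := by
    have hpi : 0 < Real.pi * m' / 2 := by positivity
    have e1 : IntegrableOn (fun y : ℝ => y ^ ((k : ℝ) - 3 / 2) *
        Real.exp (-(Real.pi * m' / 2) * y ^ (1 : ℝ))) (Ioi 0) :=
      integrableOn_rpow_mul_exp_neg_mul_rpow (by linarith) one_pos hpi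
    have e2 : IntegrableOn (fun y : ℝ => y ^ ((k : ℝ) / 2 - 13 / 4) *
        Real.exp (-(Real.pi * m' / 2) * y ^ (1 : ℝ))) (Ioi 0) :=
      integrableOn_rpow_mul_exp_neg_mul_rpow (by linarith) one_pos hpi
    refine IntegrableOn.congr_fun ((e1.add e2).const_mul C) ?_ measurableSet_Ioi
    intro y hy
    have hy' : (0 : ℝ) < y := hy
    have a1 : y ^ ((k : ℝ) + 1 / 2) = y ^ ((k : ℝ) - 3 / 2) * y ^ 2 := by
      rw [← Real.rpow_natCast y 2, ← Real.rpow_add hy']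
      congr 1
      push_cast
      ring
    have a2 : y ^ (-((k : ℝ) / 2 + 7 / 4)) * y ^ ((k : ℝ) - 3 / 2) =
        y ^ ((k : ℝ) / 2 - 13 / 4) := by
      rw [← Real.rpow_add hy']
      congr 1
      ring
    simp only [hb, Real.rpow_one, Pi.add_apply]
    rw [a1, ← a2]
    have hy2 : y ^ 2 ≠ 0 := pow_ne_zero 2 hy'.ne'
    field_simp
  obtain ⟨hstr, hint⟩ := h5 _ b hGc hGb hbi
  obtain ⟨-, hfi, hfe⟩ := h4 D ι _ R hD1 hR _ hGc hGp hstr
  have hkey : ∀ i (z : ℍ), GG D k m m' ((R i • z : ℍ) : ℂ) =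
      (1 / 2) * ∑' v : CopD D, gf D k m m' (mob v.1.1 ((R i • z : ℍ) : ℂ)) := fun i z =>
    GG_eq h1 h2 h6 hD hk4 hev hm hm1 hm' hm1' (R i • z : ℍ).im_pos
  refine ⟨?_, ?_⟩
  · intro i
    simp_rw [hkey]
    exact (hfi i).const_mul (1 / 2)
  · simp_rw [hkey]
    have e0 : ∀ i, ∫ z : ℍ in ModularGroup.fd, (1 / 2 : ℂ) *
        ∑' v : CopD D, gf D k m m' (mob v.1.1 ((R i • z : ℍ) : ℂ)) = (1 / 2 : ℂ) *
        ∫ z : ℍ in ModularGroup.fd, ∑' v : CopD D, gf D k m m' (mob v.1.1 ((R i • z : ℍ) : ℂ)) :=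
      fun i => integral_const_mul _ _
    simp_rw [e0]
    rw [← Finset.mul_sum, hfe, hint]
    have e1 : (1 / 2 : ℂ) * (2 * ∫ y in Ioi (0 : ℝ),
        (∫ x in (0 : ℝ)..1, gf D k m m' (x + y * Complex.I)) / (y : ℂ) ^ 2) =
        ∫ y in Ioi (0 : ℝ),
          (∫ x in (0 : ℝ)..1, gf D k m m' (x + y * Complex.I)) / (y : ℂ) ^ 2 := by ring
    rw [e1]
    unfold PI
    refine setIntegral_congr_fun measurableSet_Ioi fun y hy => ?_
    have hy' : (0 : ℝ) < y := hy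
    have hy0 : (y : ℂ) ≠ 0 := by exact_mod_cast hy'.ne'
    have e2 : ∀ x : ℝ, gf D k m m' (x + y * Complex.I) =
        PP D k m (x + y * Complex.I) (pr m') * conj (ee (m' * (x + y * Complex.I) / 4)) *
          ((y ^ ((k : ℝ) + 1 / 2) : ℝ) : ℂ) := by
      intro x
      have him : ((x : ℂ) + y * Complex.I).im = y := by simp
      unfold gf
      rw [him]
    have a1 : y ^ ((k : ℝ) + 1 / 2) = y ^ ((k : ℝ) - 3 / 2) * y ^ 2 := by
      rw [← Real.rpow_natCast y 2, ← Real.rpow_add hy']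
      congr 1
      push_cast
      ring
    simp_rw [e2]
    rw [intervalIntegral.integral_mul_const, a1]
    push_cast
    rw [mul_div_assoc, mul_div_assoc, div_self (pow_ne_zero 2 hy0), mul_one]

end LC

end Pool.Agent.Lib.MP_7c5fb9_nt
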