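import Mathlib
import Pool.Agent.Lib.MP_7c5fb9_nt.LC.St

set_option autoImplicit false

/-!
# Project LC (MP_7c5fb9_nt): Gauss sums, periodicity and orthogonality
-/

namespace Pool.Agent.Lib.MP_7c5fb9_nt

namespace LC

open MeasureTheory UpperHalfPlane Set Pool.Agent.Lib.MP_7c08ba_nt.RZ
open LO (Mat disc act mir qv mb)
open scoped MatrixGroups ComplexConjugate

namespace GsAux

/-- The exponential. -/
noncomputable def E (c t : ℤ) : ℂ := ee ((t : ℂ) / (4 * c))

theorem E_add (c s t : ℤ) : E c (s + t) = E c s * E c t := by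
  unfold E ee
  rw [← Complex.exp_add]
  congr 1
  push_cast
  ring

theorem E_zero (c : ℤ) : E c 0 = 1 := by
  unfold E ee
  simp

theorem E_mul {c : ℤ} (hc : c ≠ 0) (n : ℤ) : E c (4 * c * n) = 1 := by
  have hc' : (c : ℂ) ≠ 0 := Int.cast_ne_zero.2 hc
  unfold E ee
  rw [Complex.exp_eq_one_iff]
  refine ⟨n, ?_⟩
  push_cast
  field_simp

theorem E_congr {c : ℤ} (hc : c ≠ 0) {s t n : ℤ} (h : s = t + 4 * c * n) : E c s = E c t := by
  rw [h, E_add, E_mul hc, mul_one]

theorem E_conj (c t : ℤ) : conj (E c t) = E c (-t) := by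
  unfold E ee
  rw [← Complex.exp_conj]
  congr 1
  simp only [map_mul, map_div₀, Complex.conj_I, Complex.conj_ofReal, map_intCast]
  have h2 : conj (2 : ℂ) = 2 := map_ofNat _ 2
  have h4 : conj (4 : ℂ) = 4 := map_ofNat _ 4
  rw [h2, h4]
  push_cast
  ring

theorem E_pow (c t : ℤ) (m : ℕ) : E c (m * t) = E c t ^ m := by
  induction m with
  | zero => rw [Nat.cast_zero, zero_mul, E_zero, pow_zero]
  | succ m ih =>
    rw [pow_succ, ← ih, ← E_add]
    congr 1
    push_cast
    ring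

theorem E_eq_one {c t : ℤ} (hc : c ≠ 0) (h : E c t = 1) : 4 * c ∣ t := by
  have hc' : (c : ℂ) ≠ 0 := Int.cast_ne_zero.2 hc
  unfold E ee at h
  rw [Complex.exp_eq_one_iff] at h
  obtain ⟨n, hn⟩ := h
  refine ⟨n, ?_⟩
  have hpi : (2 * (Real.pi : ℂ) * Complex.I) ≠ 0 := Complex.two_pi_I_ne_zero
  have h1 : (t : ℂ) / (4 * c) = n := by
    apply mul_left_cancel₀ hpi
    rw [hn]
    ring
  have h2 : (t : ℂ) = 4 * c * n := by
    rw [← h1]
    field_simp
  exact_mod_cast h2

/-- The exponent. -/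
def q (a d x μ : ℤ) : ℤ := a * x ^ 2 + 2 * μ * x + d * μ ^ 2

theorem gs_eq (a c d ν μ : ℤ) : gs a c d ν μ =
    ∑ j ∈ Finset.range c.natAbs, E c (q a d (2 * j + ν) μ) := rfl

theorem sum_shift (N : ℕ) (f : ℤ → ℂ) (hf : ∀ x, f (x + N) = f x) (s : ℤ) :
    ∑ j ∈ Finset.range N, f (j + s) = ∑ j ∈ Finset.range N, f j := by
  have key : ∀ s : ℤ, ∑ j ∈ Finset.range N, f (j + (s + 1)) = ∑ j ∈ Finset.range N, f (j + s) := by
    intro s
    have h1 := Finset.sum_range_succ (fun j : ℕ => f (j + s)) N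
    have h2 := Finset.sum_range_succ' (fun j : ℕ => f (j + s)) N
    rw [h1] at h2
    have h3 : f ((N : ℕ) + s) = f (((0 : ℕ) : ℤ) + s) := by
      rw [Nat.cast_zero, zero_add, add_comm, hf]
    rw [h3] at h2
    have h4 := add_right_cancel h2
    rw [h4]
    refine Finset.sum_congr rfl fun j _ => ?_
    congr 1
    push_cast
    ring
  induction s using Int.induction_on with
  | zero => simp
  | succ i ih => rw [key, ih]
  | pred i ih =>
    have := key (-(i : ℤ) - 1)
    rw [sub_add_cancel] at this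
    rw [← this, ih]

theorem periodic_j {c : ℤ} (hc : 0 < c) (a d ν μ : ℤ) (x : ℤ) :
    E c (q a d (2 * (x + c.natAbs) + ν) μ) = E c (q a d (2 * x + ν) μ) := by
  have hN : (c.natAbs : ℤ) = c := Int.natAbs_of_nonneg hc.le
  rw [hN]
  refine E_congr hc.ne' (n := a * (2 * x + ν) + a * c + μ) ?_
  unfold q
  ring

theorem gs_add_two {a b c d : ℤ} (ν n : ℤ) (h : a * d - b * c = 1) (hc : 0 < c) :
    gs a c d ν (n + 2) = gs a c d ν n := by
  rw [gs_eq, gs_eq, ← sum_shift c.natAbs (fun x => E c (q a d (2 * x + ν) (n + 2)))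
    (fun x => periodic_j hc a d ν (n + 2) x) (-d)]
  refine Finset.sum_congr rfl fun j _ => ?_
  refine E_congr hc.ne' (n := b * (d - (2 * j + ν))) ?_
  unfold q
  linear_combination (4 * (d - (2 * (j : ℤ) + ν))) * h

theorem gs_add_even {a b c d : ℤ} (ν n : ℤ) (m : ℕ) (h : a * d - b * c = 1) (hc : 0 < c) :
    gs a c d ν (n + 2 * m) = gs a c d ν n := by
  induction m with
  | zero => simp
  | succ m ih =>
    rw [← ih, ← gs_add_two ν (n + 2 * m) h hc]
    congr 1
    push_cast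
    ring

/-- Sums over two periods. -/
theorem sum_two (N : ℕ) (f : ℕ → ℂ) (hf : ∀ x, f (x + 2) = f x) :
    ∑ μ ∈ Finset.range (2 * N), f μ = N * ∑ μ ∈ Finset.range 2, f μ := by
  induction N with
  | zero => simp
  | succ N ih =>
    have h0 : ∀ m : ℕ, ∀ x, f (x + 2 * m) = f x := by
      intro m
      induction m with
      | zero => intro x; simp
      | succ m ihm =>
        intro x
        rw [← ihm x, ← hf (x + 2 * m), mul_add, mul_one, add_assoc]
    rw [show 2 * (N + 1) = 2 * N + 1 + 1 by ring, Finset.sum_range_succ, Finset.sum_range_succ, ih]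
    have e1 : f (2 * N) = f 0 := by
      have := h0 N 0
      rwa [zero_add] at this
    have e2 : f (2 * N + 1) = f 1 := by
      have := h0 N 1
      rwa [add_comm 1] at this
    rw [e1, e2, Finset.sum_range_succ, Finset.sum_range_succ, Finset.sum_range_zero]
    push_cast
    ring

/-- The geometric sum. -/
theorem geo {c : ℤ} (hc : 0 < c) {y : ℤ} (hy : ¬ (2 * c ∣ y)) :
    ∑ μ ∈ Finset.range (2 * c.natAbs), E c (2 * (μ : ℤ) * y) = 0 := by
  have hN : (c.natAbs : ℤ) = c := Int.natAbs_of_nonneg hc.le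
  have h1 : ∀ μ : ℕ, E c (2 * (μ : ℤ) * y) = E c (2 * y) ^ μ := by
    intro μ
    rw [← E_pow]
    congr 1
    ring
  have hne : E c (2 * y) ≠ 1 := by
    intro h
    obtain ⟨n, hn⟩ := E_eq_one hc.ne' h
    exact hy ⟨n, by linarith⟩
  simp only [h1]
  rw [geom_sum_eq hne, ← h1]
  have h2 : E c (2 * ((2 * c.natAbs : ℕ) : ℤ) * y) = 1 := by
    rw [Nat.cast_mul, Nat.cast_ofNat, hN, show 2 * (2 * c) * y = 4 * c * y by ring]
    exact E_mul hc.ne' y
  rw [h2, sub_self, zero_div]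

theorem gs_prod (a c d ν ν' μ : ℤ) : gs a c d ν μ * conj (gs a c d ν' μ) =
    ∑ j ∈ Finset.range c.natAbs, ∑ j' ∈ Finset.range c.natAbs,
      E c (a * ((2 * (j : ℤ) + ν) ^ 2 - (2 * (j' : ℤ) + ν') ^ 2)) *
        E c (2 * μ * ((2 * (j : ℤ) + ν) - (2 * (j' : ℤ) + ν'))) := by
  rw [gs_eq, gs_eq, map_sum, Finset.sum_mul_sum]
  refine Finset.sum_congr rfl fun j _ => Finset.sum_congr rfl fun j' _ => ?_
  rw [E_conj, ← E_add, ← E_add]
  congr 1
  unfold q
  ring

end GsAux

open GsAux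

theorem stGs : StGs := by
  refine ⟨fun a b c d ν n h hc => gs_add_two ν n h hc, ?_⟩
  intro a b c d ν ν' h hc
  have hN : (c.natAbs : ℤ) = c := Int.natAbs_of_nonneg hc.le
  have hNpos : 0 < c.natAbs := Int.natAbs_pos.2 hc.ne'
  have hcC : ((c.natAbs : ℕ) : ℂ) = (c : ℂ) := by rw [← Int.cast_natCast, hN]
  have hc0 : (c : ℂ) ≠ 0 := Int.cast_ne_zero.2 hc.ne'
  set f : ℕ → ℂ := fun μ => gs a c d ((ν : ℕ) : ℤ) (μ : ℤ) *
    conj (gs a c d ((ν' : ℕ) : ℤ) (μ : ℤ)) with hf
  have hper : ∀ x, f (x + 2) = f x := by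
    intro x
    simp only [hf]
    push_cast
    rw [gs_add_two _ _ h hc, gs_add_two _ _ h hc]
  have h1 : ∑ μ : Fin 2, gs a c d ((ν : ℕ) : ℤ) ((μ : ℕ) : ℤ) *
      conj (gs a c d ((ν' : ℕ) : ℤ) ((μ : ℕ) : ℤ)) = ∑ μ ∈ Finset.range 2, f μ :=
    Fin.sum_univ_eq_sum_range f 2
  rw [h1]
  have h2 := sum_two c.natAbs f hper
  have h3 : ∑ μ ∈ Finset.range (2 * c.natAbs), f μ =
      if ν = ν' then 2 * (c : ℂ) * c else 0 := by
    simp only [hf, gs_prod]
    rw [Finset.sum_comm]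
    have h4 : ∀ j ∈ Finset.range c.natAbs, ∑ μ ∈ Finset.range (2 * c.natAbs),
        ∑ j' ∈ Finset.range c.natAbs,
          E c (a * ((2 * (j : ℤ) + ((ν : ℕ) : ℤ)) ^ 2 - (2 * (j' : ℤ) + ((ν' : ℕ) : ℤ)) ^ 2)) *
            E c (2 * (μ : ℤ) * ((2 * (j : ℤ) + ((ν : ℕ) : ℤ)) -
              (2 * (j' : ℤ) + ((ν' : ℕ) : ℤ)))) = if ν = ν' then 2 * (c : ℂ) else 0 := by
      intro j hj
      rw [Finset.sum_comm]
      have h5 : ∀ j' ∈ Finset.range c.natAbs, ∑ μ ∈ Finset.range (2 * c.natAbs),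
          E c (a * ((2 * (j : ℤ) + ((ν : ℕ) : ℤ)) ^ 2 - (2 * (j' : ℤ) + ((ν' : ℕ) : ℤ)) ^ 2)) *
            E c (2 * (μ : ℤ) * ((2 * (j : ℤ) + ((ν : ℕ) : ℤ)) -
              (2 * (j' : ℤ) + ((ν' : ℕ) : ℤ)))) =
          if j' = j ∧ ν = ν' then 2 * (c : ℂ) else 0 := by
        intro j' hj'
        rw [← Finset.mul_sum]
        by_cases hjj : j' = j ∧ ν = ν'
        · obtain ⟨rfl, rfl⟩ := hjj
          rw [if_pos ⟨rfl, rfl⟩]
          simp only [sub_self, mul_zero, E_zero, one_mul, Finset.sum_const, Finset.card_range,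
            nsmul_eq_mul, mul_one]
          push_cast
          rw [hcC]
        · rw [if_neg hjj, geo hc, mul_zero]
          intro hdvd
          apply hjj
          obtain ⟨n, hn⟩ := hdvd
          have b1 : (j : ℤ) < c := by rw [← hN]; exact_mod_cast Finset.mem_range.1 hj
          have b2 : (j' : ℤ) < c := by rw [← hN]; exact_mod_cast Finset.mem_range.1 hj'
          have b3 : ((ν : ℕ) : ℤ) ≤ 1 := by have := ν.2; omega
          have b4 : ((ν' : ℕ) : ℤ) ≤ 1 := by have := ν'.2; omega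
          have b5 : (0 : ℤ) ≤ ((ν : ℕ) : ℤ) := Int.natCast_nonneg _
          have b6 : (0 : ℤ) ≤ ((ν' : ℕ) : ℤ) := Int.natCast_nonneg _
          have b7 : (0 : ℤ) ≤ (j : ℤ) := Int.natCast_nonneg _
          have b8 : (0 : ℤ) ≤ (j' : ℤ) := Int.natCast_nonneg _
          have hn0 : n = 0 := by
            by_contra hn0
            rcases lt_or_gt_of_ne hn0 with h6 | h6
            · have : 2 * c * n ≤ 2 * c * (-1) := by
                apply mul_le_mul_of_nonneg_left (by omega) (by omega)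
              omega
            · have : 2 * c * 1 ≤ 2 * c * n := by
                apply mul_le_mul_of_nonneg_left (by omega) (by omega)
              omega
          rw [hn0, mul_zero] at hn
          refine ⟨by omega, ?_⟩
          apply Fin.ext
          omega
      rw [Finset.sum_congr rfl h5]
      by_cases hν : ν = ν'
      · simp only [hν, and_true, if_true]
        rw [Finset.sum_ite_eq' (Finset.range c.natAbs) j, if_pos hj]
      · simp only [hν, and_false, if_false, Finset.sum_const_zero]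
    rw [Finset.sum_congr rfl h4, Finset.sum_const, Finset.card_range, nsmul_eq_mul, hcC]
    by_cases hν : ν = ν'
    · rw [if_pos hν, if_pos hν]
      ring
    · rw [if_neg hν, if_neg hν, mul_zero]
  rw [h3, hcC] at h2
  by_cases hν : ν = ν'
  · rw [if_pos hν] at h2 ⊢
    apply mul_left_cancel₀ hc0
    rw [← h2]
    ring
  · rw [if_neg hν] at h2 ⊢
    rcases mul_eq_zero.1 h2.symm with h6 | h6
    · exact absurd h6 hc0
    · exact h6

end LC

end Pool.Agent.Lib.MP_7c5fb9_nt
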