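import Mathlib
import Pool.Agent.Lib.MP_7c5fb9_nt.LC.St

set_option autoImplicit false

/-!
# Project LC (MP_7c5fb9_nt): sums over binary forms of given discriminant
-/

namespace Pool.Agent.Lib.MP_7c5fb9_nt

namespace LC

open LO (Mat disc act mir qv)

namespace HCAux

/-- the square of the absolute value of `Q(z, 1)` -/
theorem normSq_qv (Q : LO.Frm) (z : ℂ) :
    ‖qv Q z‖ ^ 2 = ((Q 0 : ℝ) * (z.re ^ 2 + z.im ^ 2) + Q 1 * z.re + Q 2) ^ 2 +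
      z.im ^ 2 * (disc Q : ℝ) := by
  rw [← Complex.normSq_eq_norm_sq, Complex.normSq_apply]
  have h1 : (qv Q z).re = (Q 0 : ℝ) * (z.re ^ 2 - z.im ^ 2) + Q 1 * z.re + Q 2 := by
    simp [qv, pow_two]
  have h2 : (qv Q z).im = z.im * (2 * (Q 0 : ℝ) * z.re + Q 1) := by
    simp [qv, pow_two]
    ring
  rw [h1, h2]
  unfold disc
  push_cast
  ring

theorem im_qv (Q : LO.Frm) (z : ℂ) : (qv Q z).im = z.im * (2 * (Q 0 : ℝ) * z.re + Q 1) := by
  simp [qv, pow_two]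
  ring

theorem qv_ne (Q : LO.Frm) (z : ℂ) (hQ : 0 < disc Q) (hz : 0 < z.im) : qv Q z ≠ 0 := by
  intro h
  have h1 := normSq_qv Q z
  rw [h, norm_zero] at h1
  have h2 : 0 < z.im ^ 2 * (disc Q : ℝ) := mul_pos (pow_pos hz 2) (by exact_mod_cast hQ)
  nlinarith [sq_nonneg ((Q 0 : ℝ) * (z.re ^ 2 + z.im ^ 2) + Q 1 * z.re + Q 2)]

/-- the constant of the lower bound -/
noncomputable def K (X y Y : ℝ) : ℝ :=
  1 / y + 3 / (2 * y ^ 2) + (1 + 3 / (2 * y ^ 2) * (X ^ 2 + Y ^ 2) + (1 / y + 3 * X / y ^ 2) * X)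

theorem lower (Q : LO.Frm) (z : ℂ) {X y Y : ℝ} (hX : 0 ≤ X) (hy : 0 < y) (hQ : 0 < disc Q)
    (h1 : y ≤ z.im) (h2 : z.im ≤ Y) (h3 : |z.re| ≤ X) :
    0 < K X y Y ∧ 1 ≤ K X y Y * ‖qv Q z‖ ∧ |(Q 0 : ℝ)| ≤ K X y Y * ‖qv Q z‖ ∧
      |(Q 2 : ℝ)| ≤ K X y Y * ‖qv Q z‖ := by
  set R := ‖qv Q z‖ with hR
  have hR0 : 0 ≤ R := norm_nonneg _
  have hz : 0 < z.im := hy.trans_le h1
  have hd : (1 : ℝ) ≤ disc Q := by exact_mod_cast hQ
  have hsq := normSq_qv Q z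
  rw [← hR] at hsq
  set t : ℝ := (Q 0 : ℝ) * (z.re ^ 2 + z.im ^ 2) + Q 1 * z.re + Q 2 with ht
  -- first bounds
  have hyR : y ≤ R := by
    have h4 : y ^ 2 ≤ R ^ 2 := by
      rw [hsq]
      have h5 : y ^ 2 ≤ z.im ^ 2 := by
        apply pow_le_pow_left₀ hy.le h1
      nlinarith [sq_nonneg t, pow_pos hz 2]
    exact le_of_sq_le_sq h4 hR0
  have htR : |t| ≤ R := by
    have h4 : t ^ 2 ≤ R ^ 2 := by
      rw [hsq]
      have : 0 ≤ z.im ^ 2 * (disc Q : ℝ) := by positivity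
      linarith
    exact abs_le_of_sq_le_sq h4 hR0
  have hbR : |2 * (Q 0 : ℝ) * z.re + Q 1| ≤ R / y := by
    rw [le_div_iff₀ hy]
    have h4 := Complex.abs_im_le_norm (qv Q z)
    rw [im_qv, abs_mul, abs_of_pos hz, ← hR] at h4
    have h5 := mul_le_mul_of_nonneg_left h1 (abs_nonneg (2 * (Q 0 : ℝ) * z.re + Q 1))
    linarith
  -- the bound for the first coefficient
  have hdisc : (disc Q : ℝ) = (Q 1 + 2 * Q 0 * z.re) ^ 2 + 4 * (Q 0 : ℝ) ^ 2 * z.im ^ 2 -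
      4 * Q 0 * t := by
    rw [ht]
    unfold disc
    push_cast
    ring
  have hdR : y ^ 2 * (disc Q : ℝ) ≤ R ^ 2 := by
    rw [hsq]
    have h5 : y ^ 2 ≤ z.im ^ 2 := pow_le_pow_left₀ hy.le h1 2
    nlinarith [sq_nonneg t]
  have haR : |(Q 0 : ℝ)| ≤ 3 / (2 * y ^ 2) * R := by
    by_contra hcon
    push Not at hcon
    have h4 : 3 * R < 2 * y ^ 2 * |(Q 0 : ℝ)| := by
      have h5 : 3 / (2 * y ^ 2) * R * (2 * y ^ 2) < |(Q 0 : ℝ)| * (2 * y ^ 2) :=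
        mul_lt_mul_of_pos_right hcon (by positivity)
      have h6 : 3 / (2 * y ^ 2) * R * (2 * y ^ 2) = 3 * R := by
        field_simp
      linarith
    have h5 : 4 * (Q 0 : ℝ) ^ 2 * z.im ^ 2 ≤ disc Q + 4 * |(Q 0 : ℝ)| * R := by
      have h6 : (Q 0 : ℝ) * t ≤ |(Q 0 : ℝ)| * R := by
        calc (Q 0 : ℝ) * t ≤ |(Q 0 : ℝ) * t| := le_abs_self _
          _ = |(Q 0 : ℝ)| * |t| := abs_mul _ _
          _ ≤ |(Q 0 : ℝ)| * R := mul_le_mul_of_nonneg_left htR (abs_nonneg _)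
      nlinarith [sq_nonneg ((Q 1 : ℝ) + 2 * Q 0 * z.re)]
    have h6 : 4 * (Q 0 : ℝ) ^ 2 * y ^ 2 ≤ 4 * (Q 0 : ℝ) ^ 2 * z.im ^ 2 := by
      have : y ^ 2 ≤ z.im ^ 2 := pow_le_pow_left₀ hy.le h1 2
      nlinarith [sq_nonneg (Q 0 : ℝ)]
    have h7 : (Q 0 : ℝ) ^ 2 = |(Q 0 : ℝ)| ^ 2 := (sq_abs _).symm
    rw [h7] at h6 h5
    -- multiply by `y ^ 2`
    have h8 : y ^ 2 * (4 * |(Q 0 : ℝ)| ^ 2 * y ^ 2) ≤ R ^ 2 + y ^ 2 * (4 * |(Q 0 : ℝ)| * R) := by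
      have h9 := mul_le_mul_of_nonneg_left (h6.trans h5) (sq_nonneg y)
      linarith
    nlinarith [abs_nonneg (Q 0 : ℝ), mul_nonneg (sq_nonneg y) (abs_nonneg (Q 0 : ℝ))]
  have hB1 : 0 ≤ 3 / (2 * y ^ 2) := by positivity
  have hb : |(Q 1 : ℝ)| ≤ (1 / y + 3 * X / y ^ 2) * R := by
    have h4 : |(Q 1 : ℝ)| ≤ |2 * (Q 0 : ℝ) * z.re + Q 1| + 2 * |(Q 0 : ℝ)| * |z.re| := by
      have h5 : (Q 1 : ℝ) = (2 * (Q 0 : ℝ) * z.re + Q 1) - 2 * (Q 0 : ℝ) * z.re := by ring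
      have h6 : |2 * (Q 0 : ℝ) * z.re| = 2 * |(Q 0 : ℝ)| * |z.re| := by
        rw [abs_mul, abs_mul, abs_two]
      calc |(Q 1 : ℝ)| = |(2 * (Q 0 : ℝ) * z.re + Q 1) - 2 * (Q 0 : ℝ) * z.re| := by rw [← h5]
        _ ≤ |2 * (Q 0 : ℝ) * z.re + Q 1| + |2 * (Q 0 : ℝ) * z.re| := abs_sub _ _
        _ = _ := by rw [h6]
    have h5 : |(Q 0 : ℝ)| * |z.re| ≤ 3 / (2 * y ^ 2) * R * X :=
      mul_le_mul haR h3 (abs_nonneg _) (by positivity)
    have h6 : (1 / y + 3 * X / y ^ 2) * R = R / y + 2 * (3 / (2 * y ^ 2) * R * X) := by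
      field_simp
    rw [h6]
    linarith
  have hc : |(Q 2 : ℝ)| ≤ (1 + 3 / (2 * y ^ 2) * (X ^ 2 + Y ^ 2) +
      (1 / y + 3 * X / y ^ 2) * X) * R := by
    have h4 : (Q 2 : ℝ) = t - (Q 0 : ℝ) * (z.re ^ 2 + z.im ^ 2) - Q 1 * z.re := by
      rw [ht]
      ring
    have h5 : |(Q 2 : ℝ)| ≤ |t| + |(Q 0 : ℝ)| * (z.re ^ 2 + z.im ^ 2) + |(Q 1 : ℝ)| * |z.re| := by
      rw [h4]
      have h6 : |(Q 0 : ℝ) * (z.re ^ 2 + z.im ^ 2)| = |(Q 0 : ℝ)| * (z.re ^ 2 + z.im ^ 2) := by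
        rw [abs_mul, abs_of_nonneg (by positivity : (0 : ℝ) ≤ z.re ^ 2 + z.im ^ 2)]
      calc |t - (Q 0 : ℝ) * (z.re ^ 2 + z.im ^ 2) - Q 1 * z.re|
          ≤ |t - (Q 0 : ℝ) * (z.re ^ 2 + z.im ^ 2)| + |(Q 1 : ℝ) * z.re| := abs_sub _ _
        _ ≤ (|t| + |(Q 0 : ℝ) * (z.re ^ 2 + z.im ^ 2)|) + |(Q 1 : ℝ) * z.re| := by
          gcongr
          exact abs_sub _ _
        _ = _ := by rw [h6, abs_mul]
    have h6 : z.re ^ 2 + z.im ^ 2 ≤ X ^ 2 + Y ^ 2 := by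
      have h7 : z.re ^ 2 ≤ X ^ 2 := by
        rw [← sq_abs]
        exact pow_le_pow_left₀ (abs_nonneg _) h3 2
      have h8 : z.im ^ 2 ≤ Y ^ 2 := pow_le_pow_left₀ hz.le h2 2
      linarith
    have h7 : |(Q 0 : ℝ)| * (z.re ^ 2 + z.im ^ 2) ≤ 3 / (2 * y ^ 2) * R * (X ^ 2 + Y ^ 2) :=
      mul_le_mul haR h6 (by positivity) (by positivity)
    have h8 : |(Q 1 : ℝ)| * |z.re| ≤ (1 / y + 3 * X / y ^ 2) * R * X :=
      mul_le_mul hb h3 (abs_nonneg _) (by positivity)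
    nlinarith
  have hB2 : 0 ≤ 1 + 3 / (2 * y ^ 2) * (X ^ 2 + Y ^ 2) + (1 / y + 3 * X / y ^ 2) * X := by
    positivity
  have hB0 : 0 < 1 / y := by positivity
  have hKe : K X y Y = 1 / y + 3 / (2 * y ^ 2) + (1 + 3 / (2 * y ^ 2) * (X ^ 2 + Y ^ 2) +
      (1 / y + 3 * X / y ^ 2) * X) := rfl
  refine ⟨by rw [hKe]; linarith, ?_, ?_, ?_⟩
  · have h4 : 1 ≤ 1 / y * R := by
      rw [one_div, inv_mul_eq_div, le_div_iff₀ hy]
      linarith
    rw [hKe]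
    nlinarith [mul_nonneg hB1 hR0, mul_nonneg hB2 hR0]
  · rw [hKe]
    nlinarith [mul_nonneg hB0.le hR0, mul_nonneg hB2 hR0]
  · rw [hKe]
    nlinarith [mul_nonneg hB0.le hR0, mul_nonneg hB1 hR0]

/-- the dominating function -/
noncomputable def g (x : Fin 2 → ℤ) : ℝ := ‖x‖ ^ (-(4 : ℝ)) + if x = 0 then 1 else 0

theorem g_nonneg (x : Fin 2 → ℤ) : 0 ≤ g x := by
  unfold g
  split_ifs <;> positivity

theorem g_summable : Summable g := by
  refine (EisensteinSeries.summable_one_div_norm_rpow (k := 4) (by norm_num)).add ?_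
  refine summable_of_hasFiniteSupport ((Set.finite_singleton (0 : Fin 2 → ℤ)).subset ?_)
  intro x hx
  by_contra hcon
  exact hx (if_neg hcon)

/-- the pair of the outer coefficients -/
def oc (Q : LO.Frm) : Fin 2 → ℤ := ![Q 0, Q 2]

theorem bound (Q : LO.Frm) (z : ℂ) {X y Y : ℝ} (hX : 0 ≤ X) (hy : 0 < y) (hQ : 0 < disc Q)
    (h1 : y ≤ z.im) (h2 : z.im ≤ Y) (h3 : |z.re| ≤ X) {k : ℕ} (hk : 4 ≤ k) :
    ‖((qv Q z) ^ k)⁻¹‖ ≤ K X y Y ^ k * g (oc Q) := by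
  obtain ⟨hK, hl1, hl2, hl3⟩ := lower Q z hX hy hQ h1 h2 h3
  have hR : 0 < ‖qv Q z‖ := norm_pos_iff.mpr (qv_ne Q z hQ (hy.trans_le h1))
  have hn : ‖oc Q‖ ≤ K X y Y * ‖qv Q z‖ := by
    rw [pi_norm_le_iff_of_nonneg (by positivity)]
    intro i
    fin_cases i
    · simpa [oc, Int.norm_eq_abs] using hl2
    · simpa [oc, Int.norm_eq_abs] using hl3
  set N : ℝ := max 1 ‖oc Q‖ with hN
  have hN1 : 1 ≤ N := le_max_left _ _
  have hNK : N ≤ K X y Y * ‖qv Q z‖ := max_le hl1 hn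
  have hg : (N ^ 4)⁻¹ ≤ g (oc Q) := by
    unfold g
    by_cases h0 : oc Q = 0
    · rw [if_pos h0]
      have h4 : (N ^ 4)⁻¹ ≤ 1 := inv_le_one_of_one_le₀ (one_le_pow₀ hN1)
      have h5 : 0 ≤ ‖oc Q‖ ^ (-(4 : ℝ)) := by positivity
      linarith
    · rw [if_neg h0, add_zero]
      have h4 : 1 ≤ ‖oc Q‖ := by
        have h5 : ∃ i, oc Q i ≠ 0 := by
          by_contra hcon
          push Not at hcon
          exact h0 (funext hcon)
        obtain ⟨i, hi⟩ := h5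
        refine le_trans ?_ (norm_le_pi_norm (oc Q) i)
        rw [Int.norm_eq_abs]
        exact_mod_cast Int.one_le_abs hi
      have h5 : N = ‖oc Q‖ := max_eq_right h4
      rw [h5, Real.rpow_neg (norm_nonneg _)]
      have h6 : ‖oc Q‖ ^ (4 : ℝ) = ‖oc Q‖ ^ 4 := by
        rw [← Real.rpow_natCast]
        norm_num
      rw [h6]
  rw [norm_inv, norm_pow]
  have h4 : (‖qv Q z‖ ^ k)⁻¹ ≤ K X y Y ^ k * (N ^ k)⁻¹ := by
    rw [inv_le_iff_one_le_mul₀ (pow_pos hR k)]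
    have h5 : N ^ k ≤ (K X y Y * ‖qv Q z‖) ^ k := pow_le_pow_left₀ (by linarith) hNK k
    have h6 : 0 < N ^ k := pow_pos (by linarith) k
    rw [mul_pow] at h5
    calc (1 : ℝ) = N ^ k * (N ^ k)⁻¹ := (mul_inv_cancel₀ h6.ne').symm
      _ ≤ (K X y Y ^ k * ‖qv Q z‖ ^ k) * (N ^ k)⁻¹ :=
        mul_le_mul_of_nonneg_right h5 (inv_nonneg.mpr h6.le)
      _ = _ := by ring
  refine h4.trans (mul_le_mul_of_nonneg_left (le_trans ?_ hg) (pow_nonneg hK.le k))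
  exact inv_anti₀ (by positivity) (pow_le_pow_right₀ hN1 hk)

/-- the outer coefficients and the sign of the middle coefficient -/
noncomputable def code {Δ : ℤ} (Q : DQ Δ) : (Fin 2 → ℤ) × Bool := (oc Q.1, decide (0 ≤ Q.1 1))

theorem code_inj {Δ : ℤ} : Function.Injective (code (Δ := Δ)) := by
  rintro ⟨Q, hQ⟩ ⟨Q', hQ'⟩ h
  have h1 : oc Q = oc Q' := congrArg Prod.fst h
  have h2 : (0 ≤ Q 1) ↔ (0 ≤ Q' 1) := by
    have := congrArg Prod.snd h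
    simpa [code] using this
  have h3 : Q 0 = Q' 0 := by simpa [oc] using congrFun h1 0
  have h4 : Q 2 = Q' 2 := by simpa [oc] using congrFun h1 1
  have h5 : Q 1 ^ 2 = Q' 1 ^ 2 := by
    unfold disc at hQ hQ'
    rw [h3, h4] at hQ
    linarith
  have h6 : Q 1 = Q' 1 := by
    rcases sq_eq_sq_iff_eq_or_eq_neg.mp h5 with h6 | h6
    · exact h6
    · omega
  apply Subtype.ext
  funext i
  fin_cases i
  · exact h3
  · exact h6
  · exact h4

theorem dom_summable (Δ : ℤ) (C : ℝ) : Summable fun Q : DQ Δ => C * g (oc Q.1) := by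
  have h1 : Summable fun x : (Fin 2 → ℤ) × Bool => g x.1 * (1 : ℝ) :=
    g_summable.mul_of_nonneg (g := fun _ : Bool => (1 : ℝ)) (Summable.of_finite)
      g_nonneg (fun _ => zero_le_one)
  have h2 := h1.comp_injective (code_inj (Δ := Δ))
  refine (h2.mul_left C).congr fun Q => ?_
  simp [code]

end HCAux

open HCAux in
/-- Sums over binary forms of given discriminant: convergence, holomorphy. -/
theorem stHC : StHC := by
  refine ⟨fun Q z hQ hz => qv_ne Q z hQ hz, ?_, ?_⟩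
  · intro Δ k z hΔ hk hz
    refine Summable.of_nonneg_of_le (fun _ => norm_nonneg _) (fun Q => ?_)
      (dom_summable Δ (K |z.re| z.im z.im ^ k))
    exact bound Q.1 z (abs_nonneg _) hz (by rw [Q.2]; exact hΔ) le_rfl le_rfl le_rfl hk
  · intro Δ k W hΔ hk hW hW0
    have hfun : (fun z => ∑' Q : LO.Frm, W Q * ((qv Q z) ^ k)⁻¹) =
        fun z => ∑' Q : DQ Δ, W Q.1 * ((qv Q.1 z) ^ k)⁻¹ := by
      funext z
      refine (tsum_subtype_eq_of_support_subset (s := {Q : LO.Frm | disc Q = Δ}) ?_).symm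
      intro Q hQ
      by_contra hcon
      refine hQ ?_
      change W Q * ((qv Q z) ^ k)⁻¹ = 0
      rw [hW0 Q hcon, zero_mul]
    rw [hfun]
    intro z hz
    have hz' : 0 < z.im := hz
    set U : Set ℂ := {w | z.im / 2 < w.im ∧ w.im < 2 * z.im ∧ |w.re| < |z.re| + 1} with hU
    have hUo : IsOpen U := by
      have h1 : IsOpen {w : ℂ | z.im / 2 < w.im} := isOpen_lt continuous_const Complex.continuous_im
      have h2 : IsOpen {w : ℂ | w.im < 2 * z.im} := isOpen_lt Complex.continuous_im continuous_const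
      have h3 : IsOpen {w : ℂ | |w.re| < |z.re| + 1} :=
        isOpen_lt (Complex.continuous_re.abs) continuous_const
      exact h1.inter (h2.inter h3)
    have hzU : z ∈ U := ⟨by linarith, by linarith, by linarith⟩
    have key : DifferentiableOn ℂ (fun z => ∑' Q : DQ Δ, W Q.1 * ((qv Q.1 z) ^ k)⁻¹) U := by
      refine Complex.differentiableOn_tsum_of_summable_norm
        (dom_summable Δ (K (|z.re| + 1) (z.im / 2) (2 * z.im) ^ k)) ?_ hUo ?_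
      · intro Q
        refine DifferentiableOn.const_mul (DifferentiableOn.inv (DifferentiableOn.pow ?_ k) ?_) _
        · unfold qv
          fun_prop
        · intro w hw
          exact pow_ne_zero k (qv_ne Q.1 w (by rw [Q.2]; exact hΔ) (by
            have := hw.1
            linarith))
      · intro Q w hw
        obtain ⟨hw1, hw2, hw3⟩ := hw
        have h1 := bound Q.1 w (X := |z.re| + 1) (by positivity) (by linarith : 0 < z.im / 2)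
          (by rw [Q.2]; exact hΔ) hw1.le hw2.le hw3.le hk
        rw [norm_mul]
        calc ‖W Q.1‖ * ‖((qv Q.1 w) ^ k)⁻¹‖ ≤ 1 * ‖((qv Q.1 w) ^ k)⁻¹‖ :=
              mul_le_mul_of_nonneg_right (hW _) (norm_nonneg _)
          _ = ‖((qv Q.1 w) ^ k)⁻¹‖ := one_mul _
          _ ≤ _ := h1
    exact (key.differentiableAt (hUo.mem_nhds hzU)).differentiableWithinAt

end LC

end Pool.Agent.Lib.MP_7c5fb9_nt
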