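import Mathlib
import Pool.Agent.Lib.MP_7c5fb9_nt.LC.St
import Pool.Agent.Lib.MP_7c08ba_nt.RZ.Wk

set_option autoImplicit false

/-!
(HF) Fourier expansion of the forms of weight `2k` attached to `m`, far from the real line.
-/

namespace Pool.Agent.Lib.MP_7c5fb9_nt

namespace LC

namespace HFAux

open MeasureTheory UpperHalfPlane Set Pool.Agent.Lib.MP_7c08ba_nt.RZ
open LO (Mat disc act mir qv mb)
open scoped MatrixGroups ComplexConjugate nonZeroDivisors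

/-! ### the character -/

lemma ok_pos {D : ℕ} (h : Ok D) : 0 < D := by
  have := h.mod
  omega

lemma js_congr (D : ℕ) {a b : ℤ} (h : a % D = b % D) : jacobiSym a D = jacobiSym b D :=
  jacobiSym.mod_left' h

lemma js_neg_one {D : ℕ} (h : Ok D) : jacobiSym (-1) D = 1 := by
  have hm := h.mod
  rw [jacobiSym.at_neg_one (Nat.odd_iff.2 (by omega))]
  exact ZMod.χ₄_nat_one_mod_four hm

lemma js_neg {D : ℕ} (h : Ok D) (a : ℤ) : jacobiSym (-a) D = jacobiSym a D := by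
  rw [show -a = -1 * a by ring, jacobiSym.mul_left, js_neg_one h, one_mul]

lemma js_le (a : ℤ) (D : ℕ) : ‖((jacobiSym a D : ℤ) : ℂ)‖ ≤ 1 := by
  rcases jacobiSym.trichotomy a D with h | h | h <;> simp [h]

lemma js_add_mul (D : ℕ) (a b : ℤ) : jacobiSym (a + D * b) D = jacobiSym a D :=
  js_congr D (by rw [Int.add_mul_emod_self_left])

/-! ### the function `Phk` -/

/-- the terms of the series at a negative argument -/
noncomputable def ph (k : ℕ) (Y : ℝ) (i : ℕ) : ℝ :=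
  (4 * Real.pi ^ 2 * Y) ^ i / (i.factorial * Real.Gamma (k + 1 / 2 + i))

lemma Phk_neg (k : ℕ) (Y : ℝ) : Phk k (-Y) = ∑' i, ph k Y i := by
  unfold Phk ph
  refine tsum_congr fun i => ?_
  congr 2
  ring

lemma gam_ge {k : ℕ} (hk : 2 ≤ k) (i : ℕ) : 1 ≤ Real.Gamma (k + 1 / 2 + i) := by
  have h2 : (2 : ℝ) ≤ (k : ℝ) + 1 / 2 + i := by
    have : (2 : ℝ) ≤ k := by exact_mod_cast hk
    have : (0 : ℝ) ≤ i := by positivity
    linarith
  have h := Real.Gamma_strictMonoOn_Ici.monotoneOn (a := 2) (b := (k : ℝ) + 1 / 2 + i)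
    (by simp) (by simpa using h2) h2
  rwa [Real.Gamma_two] at h

lemma ph_le {k : ℕ} (hk : 2 ≤ k) {Y : ℝ} (hY : 0 ≤ Y) (i : ℕ) :
    ph k Y i ≤ (4 * Real.pi ^ 2 * Y) ^ i / i.factorial := by
  unfold ph
  have h1 := gam_ge hk i
  have h2 : (0 : ℝ) < i.factorial := by positivity
  refine div_le_div_of_nonneg_left (by positivity) h2 ?_
  nlinarith

lemma ph_nonneg {k : ℕ} (hk : 2 ≤ k) {Y : ℝ} (hY : 0 ≤ Y) (i : ℕ) : 0 ≤ ph k Y i := by
  unfold ph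
  have h1 := gam_ge hk i
  have h2 : (0 : ℝ) < i.factorial := by positivity
  positivity

lemma ph_summable {k : ℕ} (hk : 2 ≤ k) {Y : ℝ} (hY : 0 ≤ Y) : Summable (ph k Y) :=
  Summable.of_nonneg_of_le (ph_nonneg hk hY) (ph_le hk hY)
    (Real.summable_pow_div_factorial _)

lemma Phk_mono {k : ℕ} (hk : 2 ≤ k) {X Y : ℝ} (hX : 0 ≤ X) (h : X ≤ Y) :
    Phk k (-X) ≤ Phk k (-Y) := by
  rw [Phk_neg, Phk_neg]
  refine (ph_summable hk hX).tsum_le_tsum (fun i => ?_) (ph_summable hk (hX.trans h))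
  unfold ph
  have h1 := gam_ge hk i
  have h2 : (0 : ℝ) < i.factorial := by positivity
  have h3 : 4 * Real.pi ^ 2 * X ≤ 4 * Real.pi ^ 2 * Y := by
    have : 0 < 4 * Real.pi ^ 2 := by positivity
    nlinarith
  have h4 : (4 * Real.pi ^ 2 * X) ^ i ≤ (4 * Real.pi ^ 2 * Y) ^ i :=
    pow_le_pow_left₀ (by positivity) h3 i
  gcongr

lemma Phk_neg_nonneg {k : ℕ} (hk : 2 ≤ k) {Y : ℝ} (hY : 0 ≤ Y) : 0 ≤ Phk k (-Y) := by
  rw [Phk_neg]
  exact tsum_nonneg (ph_nonneg hk hY)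

/-! ### the parametrisation of the forms -/

/-- the form attached to three integers -/
def io (D : ℕ) (p : ℤ × (ℤ × ℤ)) : LO.Frm := ![D * p.1, -(D * p.2.1), p.2.2]

/-- the terms of the sum over the forms -/
noncomputable def Fg (D k m : ℕ) (z : ℂ) (p : ℤ × (ℤ × ℤ)) : ℂ :=
  if (D : ℤ) * p.2.1 ^ 2 - 4 * p.1 * p.2.2 = m then
    (jacobiSym p.2.2 D : ℂ) * (((D : ℂ) * p.1 * z ^ 2 - D * p.2.1 * z + p.2.2) ^ k)⁻¹ else 0

lemma io_inj {D : ℕ} (hD : 0 < D) : Function.Injective (io D) := by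
  rintro ⟨g, J, C⟩ ⟨g', J', C'⟩ h
  have hD' : (D : ℤ) ≠ 0 := by exact_mod_cast hD.ne'
  have h0 : (D : ℤ) * g = D * g' := congrFun h 0
  have h1 : -((D : ℤ) * J) = -(D * J') := congrFun h 1
  have h2 : C = C' := congrFun h 2
  have h3 := mul_left_cancel₀ hD' h0
  have h4 := mul_left_cancel₀ hD' (neg_injective h1)
  rw [h3, h4, h2]

lemma io_term {D : ℕ} (hD : 0 < D) (k m : ℕ) (z : ℂ) (p : ℤ × (ℤ × ℤ)) :
    WD D m (io D p) * ((qv (io D p) z) ^ k)⁻¹ = Fg D k m z p := by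
  have hD' : (D : ℤ) ≠ 0 := by exact_mod_cast hD.ne'
  have e0 : io D p 0 = D * p.1 := rfl
  have e1 : io D p 1 = -(D * p.2.1) := rfl
  have e2 : io D p 2 = p.2.2 := rfl
  unfold WD Fg
  have hiff : (disc (io D p) = D * m ∧ (D : ℤ) ∣ io D p 0 ∧ (D : ℤ) ∣ io D p 1) ↔
      (D : ℤ) * p.2.1 ^ 2 - 4 * p.1 * p.2.2 = m := by
    unfold disc
    rw [e0, e1, e2]
    constructor
    · rintro ⟨h, -, -⟩
      apply mul_left_cancel₀ hD'
      linear_combination h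
    · intro h
      refine ⟨?_, Dvd.intro _ rfl, Dvd.intro (-p.2.1) (by ring)⟩
      linear_combination (D : ℤ) * h
  by_cases hc : (D : ℤ) * p.2.1 ^ 2 - 4 * p.1 * p.2.2 = m
  · rw [if_pos (hiff.2 hc), if_pos hc, e2]
    congr 3
    unfold qv
    rw [e0, e1, e2]
    push_cast
    ring
  · rw [if_neg (fun h => hc (hiff.1 h)), if_neg hc, zero_mul]

lemma io_range {D m : ℕ} (Q : LO.Frm) (h : WD D m Q ≠ 0) : ∃ p, io D p = Q := by
  unfold WD at h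
  have h1 : disc Q = D * m ∧ (D : ℤ) ∣ Q 0 ∧ (D : ℤ) ∣ Q 1 := by
    by_contra hc
    exact h (if_neg hc)
  obtain ⟨-, ⟨g, hg⟩, ⟨J, hJ⟩⟩ := h1
  refine ⟨(g, -J, Q 2), ?_⟩
  funext i
  fin_cases i
  · exact hg.symm
  · show -((D : ℤ) * (-J)) = Q 1
    rw [hJ]
    ring
  · rfl

lemma WD_le (D m : ℕ) (Q : LO.Frm) : ‖WD D m Q‖ ≤ 1 := by
  unfold WD
  split_ifs
  · exact js_le _ _
  · simp

lemma WD_disc {D m : ℕ} {Q : LO.Frm} (h : disc Q ≠ D * m) : WD D m Q = 0 := by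
  unfold WD
  rw [if_neg]
  rintro ⟨h1, -⟩
  exact h h1

lemma sum_frm (h2 : StHC) {D k m : ℕ} {z : ℂ} (hD : 0 < D) (hk : 4 ≤ k) (hm : 1 ≤ m)
    (hz : 0 < z.im) : Summable fun Q : LO.Frm => ‖WD D m Q * ((qv Q z) ^ k)⁻¹‖ := by
  have hΔ : (0 : ℤ) < D * m := by
    have : 0 < D * m := Nat.mul_pos hD (by omega)
    exact_mod_cast this
  have h3 := h2.2.1 (D * m) k z hΔ hk hz
  have h4 : Summable (fun Q : DQ (D * m) => ‖WD D m Q.1 * ((qv Q.1 z) ^ k)⁻¹‖) := by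
    refine Summable.of_nonneg_of_le (fun _ => norm_nonneg _) (fun Q => ?_) h3
    rw [norm_mul]
    exact mul_le_of_le_one_left (norm_nonneg _) (WD_le _ _ _)
  refine (Function.Injective.summable_iff (g := (Subtype.val : DQ (D * m) → LO.Frm))
    Subtype.val_injective ?_).1 h4
  intro Q hQ
  have : disc Q ≠ D * m := by
    intro hd
    exact hQ ⟨⟨Q, hd⟩, rfl⟩
  rw [WD_disc this, zero_mul, norm_zero]

lemma sum_Fg (h2 : StHC) {D k m : ℕ} {z : ℂ} (hD : 0 < D) (hk : 4 ≤ k) (hm : 1 ≤ m)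
    (hz : 0 < z.im) : Summable fun p : ℤ × (ℤ × ℤ) => ‖Fg D k m z p‖ := by
  have h := (sum_frm h2 (D := D) (k := k) hD hk hm hz).comp_injective (io_inj hD)
  refine h.congr fun p => ?_
  show ‖WD D m (io D p) * ((qv (io D p) z) ^ k)⁻¹‖ = _
  rw [io_term hD]

lemma hm_eq {D : ℕ} (hD : 0 < D) (k m : ℕ) (z : ℂ) :
    hm D k m z = ∑' p : ℤ × (ℤ × ℤ), Fg D k m z p := by
  unfold hm
  have h := (io_inj hD).tsum_eq (f := fun Q : LO.Frm => WD D m Q * ((qv Q z) ^ k)⁻¹) ?_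
  · rw [← h]
    exact tsum_congr fun p => io_term hD k m z p
  · intro Q hQ
    have : WD D m Q ≠ 0 := by
      intro h0
      apply hQ
      show WD D m Q * ((qv Q z) ^ k)⁻¹ = 0
      rw [h0, zero_mul]
    exact io_range Q this

/-- the sum over the forms with given first coefficient -/
noncomputable def Pg (D k m : ℕ) (z : ℂ) (g : ℤ) : ℂ := ∑' q : ℤ × ℤ, Fg D k m z (g, q)

lemma Fg_neg {D k m : ℕ} (hD : Ok D) (hk : Even k) (z : ℂ) (g J C : ℤ) :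
    Fg D k m z (-g, (-J, -C)) = Fg D k m z (g, (J, C)) := by
  unfold Fg
  simp only
  have h1 : ((D : ℤ) * (-J) ^ 2 - 4 * (-g) * (-C) = m) ↔ ((D : ℤ) * J ^ 2 - 4 * g * C = m) := by
    rw [show (D : ℤ) * (-J) ^ 2 - 4 * (-g) * (-C) = (D : ℤ) * J ^ 2 - 4 * g * C by ring]
  have h3 : ((D : ℂ) * ((-g : ℤ) : ℂ) * z ^ 2 - D * ((-J : ℤ) : ℂ) * z + ((-C : ℤ) : ℂ)) =
      -((D : ℂ) * g * z ^ 2 - D * J * z + C) := by
    push_cast
    ring
  rw [js_neg hD, h3, hk.neg_pow]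
  by_cases hc : (D : ℤ) * J ^ 2 - 4 * g * C = m
  · rw [if_pos (h1.2 hc), if_pos hc]
  · rw [if_neg (fun h => hc (h1.1 h)), if_neg hc]

lemma Pg_neg {D k m : ℕ} (hD : Ok D) (hk : Even k) (z : ℂ) (g : ℤ) :
    Pg D k m z (-g) = Pg D k m z g := by
  unfold Pg
  rw [← (Equiv.neg (ℤ × ℤ)).tsum_eq (fun q => Fg D k m z (-g, q))]
  refine tsum_congr fun q => ?_
  obtain ⟨J, C⟩ := q
  exact Fg_neg hD hk z g J C

lemma hm_split (h2 : StHC) {D k m : ℕ} {z : ℂ} (hD : Ok D) (he : Even k) (hk : 4 ≤ k)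
    (hm1 : 1 ≤ m) (hz : 0 < z.im) :
    hm D k m z = Pg D k m z 0 + 2 * ∑' n : ℕ, Pg D k m z ((n : ℤ) + 1) := by
  have hs : Summable (Fg D k m z) := (sum_Fg h2 (ok_pos hD) hk hm1 hz).of_norm
  rw [hm_eq (ok_pos hD), hs.tsum_prod]
  have hg : Summable (Pg D k m z) := hs.prod
  have h1 : Summable fun n : ℕ => Pg D k m z (n : ℤ) := hg.comp_injective Nat.cast_injective
  have h3 : Summable fun n : ℕ => Pg D k m z (-((n : ℤ) + 1)) := by
    refine hg.comp_injective (i := fun n : ℕ => -((n : ℤ) + 1)) ?_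
    intro a b hab
    simpa using hab
  have h4 := tsum_of_nat_of_neg_add_one h1 h3
  have h5 : ∑' n : ℕ, Pg D k m z (-((n : ℤ) + 1)) = ∑' n : ℕ, Pg D k m z ((n : ℤ) + 1) :=
    tsum_congr fun n => Pg_neg hD he z _
  have h6 := h1.tsum_eq_zero_add
  have h7 : ∑' g : ℤ, ∑' q : ℤ × ℤ, Fg D k m z (g, q) = ∑' g : ℤ, Pg D k m z g := rfl
  rw [h7, h4, h6, h5]
  push_cast
  ring

/-! ### the terms with a positive first coefficient -/

lemma jj_add (m : ℕ) (g l i : ℤ) : jj m (l * g + i) = jj m i + 2 * (g * l) := by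
  unfold jj
  ring

lemma four_tj {D m : ℕ} (hD : Ok D) (hm : Adm m) (j : ℤ) :
    4 * tj D m j = m - D * jj m j ^ 2 := by
  unfold tj
  refine Int.mul_ediv_cancel' ?_
  obtain ⟨d, hd⟩ : ∃ d : ℤ, (D : ℤ) = 4 * d + 1 := by
    have := hD.mod
    exact ⟨(D : ℤ) / 4, by omega⟩
  unfold jj
  rcases hm with h | h
  · have h2 : m % 2 = 0 := by omega
    obtain ⟨a, ha⟩ : ∃ a : ℤ, (m : ℤ) = 4 * a := ⟨(m : ℤ) / 4, by omega⟩
    rw [h2, hd, ha]
    refine ⟨a - (4 * d + 1) * j ^ 2, ?_⟩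
    push_cast
    ring
  · have h2 : m % 2 = 1 := by omega
    obtain ⟨a, ha⟩ : ∃ a : ℤ, (m : ℤ) = 4 * a + 1 := ⟨(m : ℤ) / 4, by omega⟩
    rw [h2, hd, ha]
    refine ⟨a - (4 * d + 1) * (j ^ 2 + j) - d, ?_⟩
    push_cast
    ring

lemma tj_add {D m : ℕ} (hD : Ok D) (hm : Adm m) (g l i : ℤ) :
    tj D m (l * g + i) = tj D m i - g * (D * (l * (jj m i + g * l))) := by
  have h1 := four_tj hD hm (l * g + i)
  have h2 := four_tj hD hm i
  rw [jj_add] at h1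
  have h4 : (4 : ℤ) ≠ 0 := by norm_num
  apply mul_left_cancel₀ h4
  linear_combination h1 - h2

/-- the parametrisation of the forms with the first coefficient `D g` -/
def ka (D m : ℕ) (g : ℤ) (j : ℤ) : ℤ × ℤ := (jj m j, -(tj D m j / g))

lemma jj_inj {m : ℕ} {a b : ℤ} (h : jj m a = jj m b) : a = b := by
  unfold jj at h
  omega

lemma ka_inj (D m : ℕ) (g : ℤ) : Function.Injective (ka D m g) := by
  intro a b h
  exact jj_inj (congrArg Prod.fst h)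

/-- the terms as functions of `j` -/
noncomputable def Tj (D k m g : ℕ) (z : ℂ) (j : ℤ) : ℂ :=
  if (g : ℤ) ∣ tj D m j then (jacobiSym (tj D m j / g) D : ℂ) * (((D : ℂ) * g) ^ k)⁻¹ *
    (((z - (jj m j : ℤ) / (2 * g)) ^ 2 - ((m / (4 * D * g ^ 2) : ℝ) : ℂ)) ^ k)⁻¹ else 0

lemma ka_term {D k m g : ℕ} (hD : Ok D) (hm : Adm m) (hg : 1 ≤ g) (z : ℂ) (j : ℤ) :
    Fg D k m z (g, ka D m g j) = Tj D k m g z j := by
  have hg' : (g : ℤ) ≠ 0 := by
    have : g ≠ 0 := by omega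
    exact_mod_cast this
  have hgC : (g : ℂ) ≠ 0 := by exact_mod_cast hg'
  have hDC : (D : ℂ) ≠ 0 := by exact_mod_cast (ok_pos hD).ne'
  have h4 := four_tj hD hm j
  unfold Fg Tj ka
  simp only
  have hiff : ((D : ℤ) * jj m j ^ 2 - 4 * (g : ℤ) * -(tj D m j / g) = m) ↔
      (g : ℤ) ∣ tj D m j := by
    constructor
    · intro h
      refine Dvd.intro (tj D m j / g) ?_
      have : (4 : ℤ) * (g * (tj D m j / g)) = 4 * tj D m j := by linear_combination h - h4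
      exact mul_left_cancel₀ (by norm_num) this
    · intro h
      have h5 : (g : ℤ) * (tj D m j / g) = tj D m j := Int.mul_ediv_cancel' h
      linear_combination 4 * h5 + h4
  by_cases hc : (g : ℤ) ∣ tj D m j
  · rw [if_pos (hiff.2 hc), if_pos hc, js_neg hD]
    have h5 : (g : ℤ) * (tj D m j / g) = tj D m j := Int.mul_ediv_cancel' hc
    have h6 : (4 : ℂ) * (g * ((tj D m j / g : ℤ) : ℂ)) = m - D * ((jj m j : ℤ) : ℂ) ^ 2 := by
      have : (4 : ℤ) * (g * (tj D m j / g)) = m - D * jj m j ^ 2 := by rw [h5, h4]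
      exact_mod_cast this
    have h7 : ((tj D m j / g : ℤ) : ℂ) = (m - D * ((jj m j : ℤ) : ℂ) ^ 2) / (4 * g) := by
      rw [← h6]
      field_simp
    have h8 : ((D : ℂ) * ((g : ℤ) : ℂ) * z ^ 2 - D * ((jj m j : ℤ) : ℂ) * z +
        ((-(tj D m j / g) : ℤ) : ℂ)) = (D * g) *
        ((z - (jj m j : ℤ) / (2 * g)) ^ 2 - ((m / (4 * D * g ^ 2) : ℝ) : ℂ)) := by
      rw [Int.cast_neg, h7]
      push_cast
      field_simp
      ring
    rw [h8, mul_pow, mul_inv]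
    exact (mul_assoc _ _ _).symm
  · rw [if_neg (fun h => hc (hiff.1 h)), if_neg hc]

lemma ka_range {D k m g : ℕ} (hD : Ok D) (hm : Adm m) (hg : 1 ≤ g) (z : ℂ) (q : ℤ × ℤ)
    (h : Fg D k m z (g, q) ≠ 0) : ∃ j, ka D m g j = q := by
  obtain ⟨J, C⟩ := q
  have hg' : (g : ℤ) ≠ 0 := by
    have : g ≠ 0 := by omega
    exact_mod_cast this
  have hc : (D : ℤ) * J ^ 2 - 4 * g * C = m := by
    by_contra hc
    exact h (if_neg hc)
  obtain ⟨d, hd⟩ : ∃ d : ℤ, (D : ℤ) = 4 * d + 1 := by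
    have := hD.mod
    exact ⟨(D : ℤ) / 4, by omega⟩
  have hJ : J = jj m (J / 2) := by
    unfold jj
    have h1 : J % 2 = (m : ℤ) % 2 := by
      have h2 : (J ^ 2) % 2 = J % 2 := by
        rcases Int.emod_two_eq_zero_or_one J with h0 | h0 <;> simp [pow_two, Int.mul_emod, h0]
      have h3 : J ^ 2 + 2 * (2 * d * J ^ 2 - 2 * g * C) = m := by
        rw [hd] at hc
        linear_combination hc
      omega
    push_cast
    omega
  refine ⟨J / 2, ?_⟩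
  unfold ka
  have h4 := four_tj hD hm (J / 2)
  rw [← hJ] at h4 ⊢
  have h5 : tj D m (J / 2) = g * (-C) := by
    have h4' : (4 : ℤ) ≠ 0 := by norm_num
    apply mul_left_cancel₀ h4'
    linear_combination h4 - hc
  rw [h5, Int.mul_ediv_cancel_left _ hg', neg_neg]

lemma Pg_eq {D k m g : ℕ} (hD : Ok D) (hm : Adm m) (hg : 1 ≤ g) (z : ℂ) :
    Pg D k m z g = ∑' j : ℤ, Tj D k m g z j := by
  unfold Pg
  have h := (ka_inj D m g).tsum_eq (f := fun q => Fg D k m z ((g : ℤ), q)) ?_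
  · rw [← h]
    exact tsum_congr fun j => ka_term hD hm hg z j
  · intro q hq
    exact ka_range hD hm hg z q hq

lemma Tj_summable (h2 : StHC) {D k m g : ℕ} {z : ℂ} (hD : Ok D) (hm : Adm m) (hk : 4 ≤ k)
    (hm1 : 1 ≤ m) (hz : 0 < z.im) (hg : 1 ≤ g) : Summable (Tj D k m g z) := by
  have hs : Summable (Fg D k m z) := (sum_Fg h2 (ok_pos hD) hk hm1 hz).of_norm
  have h := hs.comp_injective (i := fun j : ℤ => ((g : ℤ), ka D m g j)) (fun a b hab =>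
    ka_inj D m g (congrArg Prod.snd hab))
  exact h.congr fun j => ka_term hD hm hg z j

lemma Tj_shift {D k m g : ℕ} (hD : Ok D) (hm : Adm m) (hg : 1 ≤ g) (z : ℂ) (l i : ℤ) :
    Tj D k m g z (l * g + i) = (if (g : ℤ) ∣ tj D m i then
      (jacobiSym (tj D m i / g) D : ℂ) * (((D : ℂ) * g) ^ k)⁻¹ else 0) *
      ((((z - (jj m i : ℤ) / (2 * g)) - l) ^ 2 - ((m / (4 * D * g ^ 2) : ℝ) : ℂ)) ^ k)⁻¹ := by
  have hg' : (g : ℤ) ≠ 0 := by
    have : g ≠ 0 := by omega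
    exact_mod_cast this
  have hgC : (g : ℂ) ≠ 0 := by exact_mod_cast hg'
  unfold Tj
  rw [tj_add hD hm, jj_add]
  have hiff : ((g : ℤ) ∣ tj D m i - g * (D * (l * (jj m i + g * l)))) ↔ (g : ℤ) ∣ tj D m i := by
    constructor
    · intro h
      have := dvd_add h (Dvd.intro (D * (l * (jj m i + g * l))) rfl :
        (g : ℤ) ∣ g * (D * (l * (jj m i + g * l))))
      rwa [sub_add_cancel] at this
    · intro h
      exact dvd_sub h (Dvd.intro _ rfl)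
  by_cases hc : (g : ℤ) ∣ tj D m i
  · rw [if_pos (hiff.2 hc), if_pos hc]
    obtain ⟨t, ht⟩ := hc
    rw [ht, ← mul_sub, Int.mul_ediv_cancel_left _ hg', Int.mul_ediv_cancel_left _ hg']
    have e1 : jacobiSym (t - D * (l * (jj m i + g * l))) D = jacobiSym t D := by
      have := js_add_mul D t (-(l * (jj m i + g * l)))
      rwa [mul_neg, ← sub_eq_add_neg] at this
    rw [e1]
    congr 4
    push_cast
    field_simp
    ring
  · rw [if_neg (fun h => hc (hiff.1 h)), if_neg hc, zero_mul]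

lemma tsum_split {g : ℕ} (hg : 1 ≤ g) {f : ℤ → ℂ} (hf : Summable f) :
    ∑' j, f j = ∑ i ∈ Finset.range g, ∑' l : ℤ, f (l * g + (i : ℕ)) := by
  have : NeZero g := ⟨by omega⟩
  have e0 : ∀ p : Fin g × ℤ, ((Equiv.prodComm (Fin g) ℤ).trans (Int.divModEquiv g).symm) p =
      p.2 * g + ((p.1 : ℕ) : ℤ) := fun p => rfl
  rw [← ((Equiv.prodComm (Fin g) ℤ).trans (Int.divModEquiv g).symm).tsum_eq f]
  have hs : Summable fun p : Fin g × ℤ =>
      f (((Equiv.prodComm (Fin g) ℤ).trans (Int.divModEquiv g).symm) p) :=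
    hf.comp_injective (((Equiv.prodComm (Fin g) ℤ).trans (Int.divModEquiv g).symm).injective)
  rw [hs.tsum_prod, tsum_fintype, Finset.sum_range]
  rfl

/-- the coefficients of the sums over the residues -/
noncomputable def cf (D k m g : ℕ) (i : ℤ) : ℂ :=
  if (g : ℤ) ∣ tj D m i then (jacobiSym (tj D m i / g) D : ℂ) * (((D : ℂ) * g) ^ k)⁻¹ else 0

lemma Pg_sum (h2 : StHC) {D k m g : ℕ} {z : ℂ} (hD : Ok D) (hm : Adm m) (hk : 4 ≤ k)
    (hm1 : 1 ≤ m) (hz : 0 < z.im) (hg : 1 ≤ g) :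
    Pg D k m z g = ∑ i ∈ Finset.range g, cf D k m g i *
      ∑' l : ℤ, ((((z - (jj m i : ℤ) / (2 * g)) - l) ^ 2 -
        ((m / (4 * D * g ^ 2) : ℝ) : ℂ)) ^ k)⁻¹ := by
  rw [Pg_eq hD hm hg, tsum_split hg (Tj_summable h2 hD hm hk hm1 hz hg)]
  refine Finset.sum_congr rfl fun i _ => ?_
  rw [← tsum_mul_left]
  exact tsum_congr fun l => Tj_shift hD hm hg z l i

/-- the first constant divided by two, without the power of `D` -/
noncomputable def kap (k : ℕ) : ℂ :=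
  2 * Real.pi ^ (2 * k) * Real.sqrt Real.pi / ((k - 1).factorial : ℂ)

/-- the majorant -/
noncomputable def bb (k : ℕ) (r y : ℝ) (n : ℕ) : ℝ :=
  ((n : ℝ) + 1) ^ (2 * k - 1) * Phk k (-(r * (n + 1) ^ 2 / 4)) *
    Real.exp (-(2 * Real.pi * (n + 1) * y))

lemma ee_shift (z : ℂ) (x : ℝ) (n : ℕ) : ee (((n : ℂ) + 1) * (z - x)) =
    ee (((n : ℂ) + 1) * z) * ee (-(((n : ℂ) + 1) * x)) := by
  rw [← wk_ee_add]
  congr 1
  ring

lemma norm_ee (z : ℂ) (n : ℕ) :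
    ‖ee (((n : ℂ) + 1) * z)‖ = Real.exp (-(2 * Real.pi * (n + 1) * z.im)) := by
  rw [wk_ee_norm]
  congr 2
  have : (((n : ℂ) + 1) * z).im = ((n : ℝ) + 1) * z.im := by
    rw [show ((n : ℂ) + 1) = (((n : ℝ) + 1 : ℝ) : ℂ) by push_cast; rfl, Complex.im_ofReal_mul]
  rw [this]
  ring

lemma norm_n1 (n : ℕ) : ‖((n : ℂ) + 1)‖ = (n : ℝ) + 1 := by
  rw [show ((n : ℂ) + 1) = (((n : ℝ) + 1 : ℝ) : ℂ) by push_cast; rfl, Complex.norm_real,
    Real.norm_eq_abs, abs_of_pos (by positivity)]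

lemma lip_le (h1 : StLip) {k : ℕ} (hk : 2 ≤ k) (he : Even k) {r r' : ℝ} (hr : 0 ≤ r)
    (hrr : r ≤ r') {z : ℂ} (hy : Real.sqrt r' < z.im) (n : ℕ) :
    ‖((n : ℂ) + 1) ^ (2 * k - 1) * (Phk k (r * (n + 1) ^ 2 / 4) : ℝ) * ee ((n + 1) * z)‖ ≤
      bb k r' z.im n := by
  rw [norm_mul, norm_mul, norm_pow, norm_n1, norm_ee, Complex.norm_real, Real.norm_eq_abs]
  unfold bb
  have h3 := (h1 k r' z hk he (hr.trans hrr) hy).2.2.1 (r * (n + 1) ^ 2 / 4)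
  rw [abs_of_nonneg (show 0 ≤ r * (n + 1) ^ 2 / 4 by positivity)] at h3
  have h4 : Phk k (-(r * (n + 1) ^ 2 / 4)) ≤ Phk k (-(r' * (n + 1) ^ 2 / 4)) := by
    apply Phk_mono hk (by positivity)
    gcongr
  have h5 := h3.trans h4
  gcongr

lemma bb_nonneg {k : ℕ} (hk : 2 ≤ k) {r : ℝ} (hr : 0 ≤ r) (y : ℝ) (n : ℕ) :
    0 ≤ bb k r y n := by
  unfold bb
  have := Phk_neg_nonneg hk (Y := r * (n + 1) ^ 2 / 4) (by positivity)
  positivity

/-- the terms of the double series -/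
noncomputable def Tt (D k m : ℕ) (z : ℂ) (g n : ℕ) : ℂ :=
  kap k * (((D : ℂ) * g) ^ k)⁻¹ * (((n : ℂ) + 1) ^ (2 * k - 1) *
    (Phk k (m / (4 * D * g ^ 2) * (n + 1) ^ 2 / 4) : ℝ) * ee ((n + 1) * z)) *
    AA D g (n + 1) m

lemma Pg_hasSum (h1 : StLip) (h2 : StHC) {D k m g : ℕ} {z : ℂ} (hD : Ok D) (hm : Adm m)
    (hk : 4 ≤ k) (he : Even k) (hm1 : 1 ≤ m) (hz : (m : ℝ) < z.im) (hg : 1 ≤ g) :
    HasSum (Tt D k m z g) (Pg D k m z g) := by
  have hm1' : (1 : ℝ) ≤ m := by exact_mod_cast hm1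
  have hz0 : 0 < z.im := by linarith
  have hD1 : (1 : ℝ) ≤ D := by exact_mod_cast ok_pos hD
  have hg1 : (1 : ℝ) ≤ g := by exact_mod_cast hg
  set r : ℝ := m / (4 * D * g ^ 2) with hr
  have hr0 : 0 ≤ r := by positivity
  have hry : Real.sqrt r < z.im := by
    rw [Real.sqrt_lt' hz0]
    have h3 : r ≤ m := by
      rw [hr, div_le_iff₀ (by positivity)]
      have : 1 ≤ 4 * (D : ℝ) * g ^ 2 := by nlinarith [one_le_pow₀ hg1 (n := 2)]
      nlinarith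
    nlinarith
  rw [Pg_sum h2 hD hm hk hm1 hz0 hg]
  have key : ∀ i ∈ Finset.range g, HasSum (fun n : ℕ => cf D k m g i * (kap k *
      (((n : ℂ) + 1) ^ (2 * k - 1) * (Phk k (r * (n + 1) ^ 2 / 4) : ℝ) *
        ee ((n + 1) * (z - (jj m i : ℤ) / (2 * g))))))
      (cf D k m g i * ∑' l : ℤ, ((((z - (jj m i : ℤ) / (2 * g)) - l) ^ 2 - (r : ℂ)) ^ k)⁻¹) := by
    intro i _
    have him : (z - (jj m i : ℤ) / (2 * g)).im = z.im := by
      rw [show ((jj m i : ℤ) : ℂ) / (2 * g) = (((jj m i : ℤ) / (2 * g) : ℝ) : ℂ) by push_cast; rfl,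
        Complex.sub_im, Complex.ofReal_im, sub_zero]
    have hry' : Real.sqrt r < (z - (jj m i : ℤ) / (2 * g)).im := by rw [him]; exact hry
    obtain ⟨-, h4, -, h5⟩ := h1 k r (z - (jj m i : ℤ) / (2 * g)) (by omega) he hr0 hry'
    rw [h5]
    refine HasSum.mul_left _ ?_
    refine HasSum.mul_left _ ?_
    refine Summable.hasSum ?_
    refine Summable.of_norm_bounded h4 fun n => ?_
    exact lip_le h1 (by omega) he hr0 le_rfl hry' n
  have h6 := hasSum_sum key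
  have h7 : Tt D k m z g = fun n : ℕ => ∑ i ∈ Finset.range g, cf D k m g i * (kap k *
      (((n : ℂ) + 1) ^ (2 * k - 1) * (Phk k (r * (n + 1) ^ 2 / 4) : ℝ) *
        ee ((n + 1) * (z - (jj m i : ℤ) / (2 * g))))) := by
    funext n
    unfold Tt AA
    rw [← hr, Finset.mul_sum]
    refine Finset.sum_congr rfl fun i _ => ?_
    have h8 := ee_shift z ((jj m i : ℤ) / (2 * g) : ℝ) n
    rw [show (((jj m i : ℤ) / (2 * g) : ℝ) : ℂ) = ((jj m i : ℤ) : ℂ) / (2 * g) by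
      push_cast; rfl] at h8
    rw [h8]
    have h9 : (-(((n : ℂ) + 1) * (((jj m i : ℤ) : ℂ) / (2 * g)))) =
        -(((n + 1 : ℕ) : ℂ) * ((jj m i : ℤ) : ℂ)) / (2 * g) := by
      push_cast
      ring
    rw [h9]
    unfold cf
    split_ifs
    · ring
    · ring
  rw [h7]
  exact h6

lemma AA_le (D g n m : ℕ) : ‖AA D g n m‖ ≤ g := by
  unfold AA
  refine (norm_sum_le _ _).trans ?_
  have h : ∀ j ∈ Finset.range g, ‖(if (g : ℤ) ∣ tj D m j then
      (jacobiSym (tj D m j / g) D : ℂ) * ee (-((n : ℂ) * (jj m j : ℤ)) / (2 * g)) else 0)‖ ≤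
        (1 : ℝ) := by
    intro j _
    split_ifs
    · rw [norm_mul, wk_ee_norm]
      have h3 : (-((n : ℂ) * ((jj m j : ℤ) : ℂ)) / (2 * g)).im = 0 := by
        rw [show (-((n : ℂ) * ((jj m j : ℤ) : ℂ)) / (2 * g)) =
          ((-((n : ℝ) * ((jj m j : ℤ) : ℝ)) / (2 * g) : ℝ) : ℂ) by push_cast; rfl,
          Complex.ofReal_im]
      rw [h3]
      simpa using js_le _ D
    · simp
  refine (Finset.sum_le_sum h).trans ?_
  simp

lemma Tt_le (h1 : StLip) {D k m : ℕ} {z : ℂ} (hD : Ok D)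
    (hk : 4 ≤ k) (he : Even k) (hm1 : 1 ≤ m) (hz : (m : ℝ) < z.im) (g n : ℕ) :
    ‖Tt D k m z (g + 1) n‖ ≤ (‖kap k‖ * (((g : ℝ) + 1) ^ 2)⁻¹) * bb k (m / 4) z.im n := by
  have hm1' : (1 : ℝ) ≤ m := by exact_mod_cast hm1
  have hz0 : 0 < z.im := by linarith
  have hD1 : (1 : ℝ) ≤ D := by exact_mod_cast ok_pos hD
  have hg1 : (1 : ℝ) ≤ (g : ℝ) + 1 := by
    have : (0 : ℝ) ≤ g := by positivity
    linarith
  have hry : Real.sqrt (m / 4) < z.im := by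
    rw [Real.sqrt_lt' hz0]
    nlinarith
  have h3 : (m : ℝ) / (4 * D * ((g + 1 : ℕ) : ℝ) ^ 2) ≤ m / 4 := by
    push_cast
    apply div_le_div_of_nonneg_left (by positivity) (by norm_num)
    nlinarith [one_le_pow₀ hg1 (n := 2)]
  have h4 := lip_le h1 (by omega : 2 ≤ k) he (r := (m : ℝ) / (4 * D * ((g + 1 : ℕ) : ℝ) ^ 2))
    (by positivity) h3 hry n
  unfold Tt
  rw [norm_mul, norm_mul, norm_mul, norm_inv, norm_pow, norm_mul, Complex.norm_natCast,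
    Complex.norm_natCast]
  have h5 := AA_le D (g + 1) (n + 1) m
  have h6 : (((D : ℝ) * ((g + 1 : ℕ) : ℝ)) ^ k)⁻¹ ≤ ((((g : ℝ) + 1)) ^ 3)⁻¹ := by
    push_cast
    apply inv_anti₀ (by positivity)
    calc ((g : ℝ) + 1) ^ 3 ≤ ((g : ℝ) + 1) ^ k := pow_le_pow_right₀ hg1 (by omega)
      _ ≤ ((D : ℝ) * ((g : ℝ) + 1)) ^ k := by
        apply pow_le_pow_left₀ (by positivity)
        nlinarith
  have hb := bb_nonneg (by omega : 2 ≤ k) (r := (m : ℝ) / 4) (by positivity) z.im n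
  calc _ ≤ ‖kap k‖ * ((((g : ℝ) + 1)) ^ 3)⁻¹ * bb k (m / 4) z.im n * ((g + 1 : ℕ) : ℝ) := by
        gcongr
    _ = (‖kap k‖ * (((g : ℝ) + 1) ^ 2)⁻¹) * bb k (m / 4) z.im n := by
        push_cast
        field_simp

lemma Tt_summable (h1 : StLip) {D k m : ℕ} {z : ℂ} (hD : Ok D)
    (hk : 4 ≤ k) (he : Even k) (hm1 : 1 ≤ m) (hz : (m : ℝ) < z.im) :
    Summable fun p : ℕ × ℕ => Tt D k m z (p.1 + 1) p.2 := by
  have hm1' : (1 : ℝ) ≤ m := by exact_mod_cast hm1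
  have hz0 : 0 < z.im := by linarith
  have hry : Real.sqrt (m / 4) < z.im := by
    rw [Real.sqrt_lt' hz0]
    nlinarith
  have hs1 : Summable fun g : ℕ => ‖kap k‖ * (((g : ℝ) + 1) ^ 2)⁻¹ := by
    refine Summable.mul_left _ ?_
    have h := (summable_nat_add_iff 1).2 (Real.summable_nat_pow_inv.2 (by norm_num : 1 < 2))
    refine h.congr fun n => ?_
    push_cast
    rfl
  have hs2 : Summable (bb k (m / 4) z.im) :=
    (h1 k (m / 4) z (by omega) he (by positivity) hry).2.1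
  have hs3 := hs1.mul_of_nonneg hs2 (fun g => by positivity)
    (bb_nonneg (by omega : 2 ≤ k) (by positivity) z.im)
  exact Summable.of_norm_bounded hs3 fun p => Tt_le h1 hD hk he hm1 hz p.1 p.2

lemma Tt_bn {D k m : ℕ} {z : ℂ} (hD : Ok D) (n : ℕ) :
    ∑' g : ℕ, Tt D k m z (g + 1) n = kap k * ((D : ℂ) ^ k)⁻¹ *
      (bn D k m (n + 1) * ee (((n + 1 : ℕ) : ℂ) * z)) := by
  have hDC : (D : ℝ) ≠ 0 := by exact_mod_cast (ok_pos hD).ne'
  unfold bn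
  rw [← tsum_mul_left, ← tsum_mul_right, ← tsum_mul_left]
  refine tsum_congr fun g => ?_
  unfold Tt
  have h3 : (m : ℝ) / (4 * D * ((g + 1 : ℕ) : ℝ) ^ 2) * (n + 1) ^ 2 / 4 =
      m * ((n + 1 : ℕ) : ℝ) ^ 2 / (16 * D * ((g : ℝ) + 1) ^ 2) := by
    push_cast
    field_simp
    ring
  rw [h3, mul_pow, mul_inv]
  push_cast
  ring

lemma Pg_tail (h1 : StLip) (h2 : StHC) {D k m : ℕ} {z : ℂ} (hD : Ok D) (hm : Adm m)
    (hk : 4 ≤ k) (he : Even k) (hm1 : 1 ≤ m) (hz : (m : ℝ) < z.im) :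
    HasSum (fun n : ℕ => c1 D k * bn D k m (n + 1) * ee (((n + 1 : ℕ) : ℂ) * z))
      (2 * ∑' n : ℕ, Pg D k m z ((n : ℤ) + 1)) := by
  have hs := Tt_summable h1 hD hk he hm1 hz
  have h3 : ∑' n : ℕ, Pg D k m z ((n : ℤ) + 1) =
      ∑' p : ℕ × ℕ, Tt D k m z (p.1 + 1) p.2 := by
    rw [hs.tsum_prod]
    refine tsum_congr fun n => ?_
    have := (Pg_hasSum h1 h2 hD hm hk he hm1 hz (by omega : 1 ≤ n + 1)).tsum_eq
    push_cast at this
    exact this.symm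
  have hs' : Summable fun p : ℕ × ℕ => Tt D k m z (p.2 + 1) p.1 := hs.prod_symm
  have h4 : ∑' p : ℕ × ℕ, Tt D k m z (p.1 + 1) p.2 =
      ∑' p : ℕ × ℕ, Tt D k m z (p.2 + 1) p.1 :=
    ((Equiv.prodComm ℕ ℕ).tsum_eq (fun p : ℕ × ℕ => Tt D k m z (p.1 + 1) p.2)).symm
  have h5 : HasSum (fun n : ℕ => ∑' g : ℕ, Tt D k m z (g + 1) n)
      (∑' p : ℕ × ℕ, Tt D k m z (p.2 + 1) p.1) :=
    hs'.hasSum.prod_fiberwise fun n => (hs'.prod_factor n).hasSum
  have h6 := h5.mul_left 2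
  rw [h3, h4]
  have h7 : (fun n : ℕ => c1 D k * bn D k m (n + 1) * ee (((n + 1 : ℕ) : ℂ) * z)) =
      fun n : ℕ => 2 * ∑' g : ℕ, Tt D k m z (g + 1) n := by
    funext n
    rw [Tt_bn hD n]
    unfold c1 kap
    rw [mul_comm ((D : ℂ) ^ k) ((k - 1).factorial : ℂ), ← div_div]
    ring
  rw [h7]
  exact h6

/-! ### the terms with first coefficient zero -/

lemma P0_none {D k m : ℕ} (h : ∀ n : ℕ, m ≠ D * n ^ 2) (z : ℂ) : Pg D k m z 0 = 0 := by
  unfold Pg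
  rw [show (fun q : ℤ × ℤ => Fg D k m z (0, q)) = fun _ => 0 from ?_, tsum_zero]
  funext q
  unfold Fg
  rw [if_neg]
  intro hc
  simp only [mul_zero, zero_mul, sub_zero] at hc
  apply h q.1.natAbs
  have : ((D * q.1.natAbs ^ 2 : ℕ) : ℤ) = m := by
    push_cast
    rw [sq_abs]
    exact hc
  exact_mod_cast this.symm

/-- the terms of the sum over the last coefficient -/
noncomputable def Cc (D k n : ℕ) (z : ℂ) (C : ℤ) : ℂ :=
  (jacobiSym C D : ℂ) * (((D : ℂ) * n * z + C) ^ k)⁻¹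

lemma P0_eq (h2 : StHC) {D k n : ℕ} {z : ℂ} (hD : Ok D) (he : Even k) (hk : 4 ≤ k)
    (hn : 1 ≤ n) (hz : 0 < z.im) :
    Summable (Cc D k n z) ∧ Pg D k (D * n ^ 2) z 0 = 2 * ∑' C : ℤ, Cc D k n z C := by
  have hm1 : 1 ≤ D * n ^ 2 := Nat.mul_pos (ok_pos hD) (by positivity)
  have hD' : (D : ℤ) ≠ 0 := by exact_mod_cast (ok_pos hD).ne'
  have hs : Summable (Fg D k (D * n ^ 2) z) := (sum_Fg h2 (ok_pos hD) hk hm1 hz).of_norm
  have hs1 : Summable fun q : ℤ × ℤ => Fg D k (D * n ^ 2) z (0, q) := hs.prod_factor 0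
  have e1 : ∀ C : ℤ, Fg D k (D * n ^ 2) z (0, (-(n : ℤ), C)) = Cc D k n z C := by
    intro C
    unfold Fg Cc
    rw [if_pos (by push_cast; ring)]
    congr 3
    push_cast
    ring
  have e2 : ∀ C : ℤ, Fg D k (D * n ^ 2) z (0, ((n : ℤ), C)) = Cc D k n z (-C) := by
    intro C
    rw [← e1 (-C)]
    have := Fg_neg (m := D * n ^ 2) hD he z 0 (n : ℤ) C
    rw [neg_zero] at this
    exact this.symm
  have hc : Summable (Cc D k n z) := by
    have h := hs1.prod_factor (-(n : ℤ))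
    exact h.congr fun C => e1 C
  refine ⟨hc, ?_⟩
  unfold Pg
  rw [hs1.tsum_prod]
  have hne : (n : ℤ) ≠ -(n : ℤ) := by omega
  rw [tsum_eq_sum (s := {(n : ℤ), -(n : ℤ)}), Finset.sum_pair hne]
  · have e3 : ∑' C : ℤ, Fg D k (D * n ^ 2) z (0, ((n : ℤ), C)) = ∑' C : ℤ, Cc D k n z C := by
      rw [← (Equiv.neg ℤ).tsum_eq (Cc D k n z)]
      exact tsum_congr fun C => e2 C
    have e4 : ∑' C : ℤ, Fg D k (D * n ^ 2) z (0, (-(n : ℤ), C)) = ∑' C : ℤ, Cc D k n z C :=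
      tsum_congr fun C => e1 C
    rw [e3, e4]
    ring
  · intro J hJ
    rw [show (fun C : ℤ => Fg D k (D * n ^ 2) z (0, (J, C))) = fun _ => 0 from ?_, tsum_zero]
    funext C
    unfold Fg
    rw [if_neg]
    intro hc
    simp only [mul_zero, zero_mul, sub_zero] at hc
    push_cast at hc
    have h3 := mul_left_cancel₀ hD' hc
    rcases sq_eq_sq_iff_eq_or_eq_neg.1 h3 with h | h <;> simp [h] at hJ

lemma Cc_shift {D k n : ℕ} (hD : Ok D) (z : ℂ) (l i : ℤ) :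
    Cc D k n z (l * D + i) = (jacobiSym i D : ℂ) * (((D : ℂ) ^ k)⁻¹ *
      (((((n : ℂ) * z + ((i : ℝ) / D : ℝ))) + l) ^ k)⁻¹) := by
  have hDC : (D : ℂ) ≠ 0 := by exact_mod_cast (ok_pos hD).ne'
  unfold Cc
  have e1 : jacobiSym (l * D + i) D = jacobiSym i D := by
    have := js_add_mul D i l
    rwa [show i + (D : ℤ) * l = l * D + i by ring] at this
  rw [e1, ← mul_inv, ← mul_pow]
  congr 3
  push_cast
  field_simp
  ring

lemma P0_sum (h2 : StHC) {D k n : ℕ} {G z : ℂ} (hD : Ok D) (hG : GS D G) (he : Even k)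
    (hk : 6 ≤ k) (hn : 1 ≤ n) (hz : 0 < z.im) :
    HasSum (fun N : ℕ => c3 D k G * ((jacobiSym ((N + 1 : ℕ) : ℤ) D : ℂ) *
      ((N + 1 : ℕ) : ℂ) ^ (k - 1) * ee (((N + 1 : ℕ) : ℂ) * (n * z))))
      (Pg D k (D * n ^ 2) z 0) := by
  obtain ⟨hc, hP⟩ := P0_eq h2 hD he (by omega : 4 ≤ k) hn hz
  have hn1 : (0 : ℝ) < n := by exact_mod_cast hn
  rw [hP, tsum_split (ok_pos hD) hc]
  have him : ∀ i : ℤ, (((n : ℂ) * z + ((i : ℝ) / D : ℝ))).im = n * z.im := by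
    intro i
    rw [Complex.add_im, Complex.ofReal_im, add_zero,
      show ((n : ℂ) * z) = ((n : ℝ) : ℂ) * z by push_cast; rfl, Complex.im_ofReal_mul]
  have hpos : ∀ i : ℤ, 0 < (((n : ℂ) * z + ((i : ℝ) / D : ℝ))).im := by
    intro i
    rw [him]
    positivity
  have key : ∀ i ∈ Finset.range D, HasSum (fun N : ℕ => (jacobiSym (i : ℤ) D : ℂ) *
      (((D : ℂ) ^ k)⁻¹ * (Cw k * (((N : ℂ) + 1) ^ (k - 1) *
        ee (((N : ℂ) + 1) * ((n : ℂ) * z + (((i : ℤ) : ℝ) / D : ℝ)))))))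
      (∑' l : ℤ, Cc D k n z (l * D + (i : ℤ))) := by
    intro i _
    have h3 : ∑' l : ℤ, Cc D k n z (l * D + (i : ℤ)) = (jacobiSym (i : ℤ) D : ℂ) *
        (((D : ℂ) ^ k)⁻¹ * (Cw k * ∑' N : ℕ, ((N : ℂ) + 1) ^ (k - 1) *
        ee (((N : ℂ) + 1) * ((n : ℂ) * z + (((i : ℤ) : ℝ) / D : ℝ))))) := by
      rw [← wk_lip k (by omega) he _ (hpos i), ← tsum_mul_left, ← tsum_mul_left]
      exact tsum_congr fun l => Cc_shift hD z l i
    rw [h3]
    have h4 := (wk_geo (k - 1) _ (hpos i)).of_norm.hasSum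
    exact ((h4.mul_left _).mul_left _).mul_left _
  have h6 := (hasSum_sum key).mul_left 2
  have h7 : (fun N : ℕ => c3 D k G * ((jacobiSym ((N + 1 : ℕ) : ℤ) D : ℂ) *
      ((N + 1 : ℕ) : ℂ) ^ (k - 1) * ee (((N + 1 : ℕ) : ℂ) * (n * z)))) = fun N : ℕ =>
      2 * ∑ i ∈ Finset.range D, (jacobiSym (i : ℤ) D : ℂ) *
      (((D : ℂ) ^ k)⁻¹ * (Cw k * (((N : ℂ) + 1) ^ (k - 1) *
        ee (((N : ℂ) + 1) * ((n : ℂ) * z + (((i : ℤ) : ℝ) / D : ℝ)))))) := by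
    funext N
    have h8 := hG.eq ((N + 1 : ℕ) : ℤ)
    have h9 : ∀ i ∈ Finset.range D, (jacobiSym (i : ℤ) D : ℂ) *
      (((D : ℂ) ^ k)⁻¹ * (Cw k * (((N : ℂ) + 1) ^ (k - 1) *
        ee (((N : ℂ) + 1) * ((n : ℂ) * z + (((i : ℤ) : ℝ) / D : ℝ)))))) =
        (((D : ℂ) ^ k)⁻¹ * Cw k * ((N : ℂ) + 1) ^ (k - 1) * ee (((N + 1 : ℕ) : ℂ) * (n * z))) *
        ((jacobiSym (i : ℤ) D : ℂ) * ee ((i : ℂ) * (((N + 1 : ℕ) : ℤ) : ℂ) / D)) := by
      intro i _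
      rw [mul_add, wk_ee_add]
      have e1 : ((N : ℂ) + 1) * ((((i : ℤ) : ℝ) / D : ℝ) : ℂ) =
          (i : ℂ) * (((N + 1 : ℕ) : ℤ) : ℂ) / D := by
        push_cast
        ring
      have e2 : ((N : ℂ) + 1) = ((N + 1 : ℕ) : ℂ) := by push_cast; rfl
      rw [e1, ← e2]
      ring
    rw [Finset.sum_congr rfl h9, ← Finset.mul_sum, h8]
    obtain ⟨q, hq⟩ := he
    have h10 : (2 * (Real.pi : ℂ) * Complex.I) ^ k = (-1) ^ (k / 2) * (2 * Real.pi) ^ k := by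
      rw [mul_pow, show k / 2 = q by omega]
      have : Complex.I ^ k = (-1) ^ q := by
        rw [hq, ← two_mul, pow_mul, Complex.I_sq]
      rw [this]
      ring
    unfold c3 Cw
    rw [h10]
    push_cast
    rw [← div_div]
    ring
  rw [h7]
  exact h6

lemma dl_eq {D : ℕ} (hD : 0 < D) (n0 n : ℕ) :
    dl D (D * n0 ^ 2) n = if n = n0 then 1 else 0 := by
  unfold dl
  have h : (D * n0 ^ 2 = D * n ^ 2) ↔ n = n0 := by
    constructor
    · intro h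
      have h2 : n0 ^ 2 = n ^ 2 := Nat.eq_of_mul_eq_mul_left hD h
      exact ((Nat.pow_left_injective (by norm_num : 2 ≠ 0)) h2).symm
    · intro h
      rw [h]
  by_cases hc : n = n0
  · rw [if_pos (h.2 hc), if_pos hc]
  · rw [if_neg (fun h' => hc (h.1 h')), if_neg hc]

lemma dsum_pos {D k n0 q : ℕ} (hD : 0 < D) (hn0 : 1 ≤ n0) (hq : 1 ≤ q) :
    ∑ h ∈ (q * n0).divisors, (jacobiSym h D : ℂ) * (h : ℂ) ^ (k - 1) *
      dl D (D * n0 ^ 2) (q * n0 / h) = (jacobiSym q D : ℂ) * (q : ℂ) ^ (k - 1) := by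
  have hne : q * n0 ≠ 0 := by positivity
  rw [Finset.sum_eq_single q]
  · rw [dl_eq hD, if_pos (Nat.mul_div_cancel_left n0 hq), mul_one]
  · intro h hh hhq
    rw [dl_eq hD, if_neg, mul_zero]
    intro hc
    have h1 := (Nat.mem_divisors.1 hh).1
    have h2 : q * n0 = n0 * h := by
      rw [← Nat.div_mul_cancel h1, hc]
    rw [mul_comm n0 h] at h2
    exact hhq (Nat.eq_of_mul_eq_mul_right hn0 h2).symm
  · intro h
    exact absurd (Nat.mem_divisors.2 ⟨Dvd.intro _ rfl, hne⟩) h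

lemma dsum_zero {D k n0 n : ℕ} (hD : 0 < D) (h : ¬ n0 ∣ n) :
    ∑ h ∈ n.divisors, (jacobiSym h D : ℂ) * (h : ℂ) ^ (k - 1) *
      dl D (D * n0 ^ 2) (n / h) = 0 := by
  refine Finset.sum_eq_zero fun x hx => ?_
  rw [dl_eq hD, if_neg, mul_zero]
  intro hc
  apply h
  rw [← hc]
  exact Nat.div_dvd_of_dvd (Nat.mem_divisors.1 hx).1

lemma P0_pos (h2 : StHC) {D k n0 : ℕ} {G z : ℂ} (hD : Ok D) (hG : GS D G) (he : Even k)
    (hk : 6 ≤ k) (hn : 1 ≤ n0) (hz : 0 < z.im) :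
    HasSum (fun n : ℕ => c3 D k G * (∑ h ∈ (n + 1).divisors, (jacobiSym h D : ℂ) *
      (h : ℂ) ^ (k - 1) * dl D (D * n0 ^ 2) ((n + 1) / h)) * ee (((n + 1 : ℕ) : ℂ) * z))
      (Pg D k (D * n0 ^ 2) z 0) := by
  have h3 := P0_sum h2 hD hG he hk hn hz
  have hinj : Function.Injective fun N : ℕ => (N + 1) * n0 - 1 := by
    intro a b hab
    have ha : 1 ≤ (a + 1) * n0 := Nat.mul_pos (by omega) hn
    have hb : 1 ≤ (b + 1) * n0 := Nat.mul_pos (by omega) hn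
    have h4 : (a + 1) * n0 = (b + 1) * n0 := by
      have : (a + 1) * n0 - 1 = (b + 1) * n0 - 1 := hab
      omega
    have := Nat.eq_of_mul_eq_mul_right hn h4
    omega
  refine (hinj.hasSum_iff ?_).1 ?_
  · intro x hx
    have h4 : ¬ n0 ∣ x + 1 := by
      rintro ⟨q, hq⟩
      apply hx
      rcases q with _ | q
      · omega
      · refine ⟨q, ?_⟩
        show (q + 1) * n0 - 1 = x
        rw [mul_comm, ← hq]
        omega
    rw [dsum_zero (ok_pos hD) h4, mul_zero, zero_mul]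
  · have h5 : ((fun n : ℕ => c3 D k G * (∑ h ∈ (n + 1).divisors, (jacobiSym h D : ℂ) *
        (h : ℂ) ^ (k - 1) * dl D (D * n0 ^ 2) ((n + 1) / h)) * ee (((n + 1 : ℕ) : ℂ) * z)) ∘
        fun N : ℕ => (N + 1) * n0 - 1) = fun N : ℕ => c3 D k G *
        ((jacobiSym ((N + 1 : ℕ) : ℤ) D : ℂ) * ((N + 1 : ℕ) : ℂ) ^ (k - 1) *
          ee (((N + 1 : ℕ) : ℂ) * (n0 * z))) := by
      funext N
      have h6 : (N + 1) * n0 - 1 + 1 = (N + 1) * n0 := by
        have : 1 ≤ (N + 1) * n0 := Nat.mul_pos (by omega) hn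
        omega
      simp only [Function.comp]
      rw [h6, dsum_pos (ok_pos hD) hn (by omega : 1 ≤ N + 1)]
      have h7 : (((N + 1) * n0 : ℕ) : ℂ) * z = ((N + 1 : ℕ) : ℂ) * (n0 * z) := by
        push_cast
        ring
      rw [h7]
      ring
    rw [h5]
    exact h3

lemma P0_all (h2 : StHC) {D k m : ℕ} {G z : ℂ} (hD : Ok D) (hG : GS D G) (he : Even k)
    (hk : 6 ≤ k) (hm1 : 1 ≤ m) (hz : 0 < z.im) :
    HasSum (fun n : ℕ => c3 D k G * (∑ h ∈ (n + 1).divisors, (jacobiSym h D : ℂ) *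
      (h : ℂ) ^ (k - 1) * dl D m ((n + 1) / h)) * ee (((n + 1 : ℕ) : ℂ) * z))
      (Pg D k m z 0) := by
  by_cases h : ∃ n : ℕ, m = D * n ^ 2
  · obtain ⟨n0, rfl⟩ := h
    refine P0_pos h2 hD hG he hk ?_ hz
    rcases n0 with _ | n0
    · simp at hm1
    · omega
  · have h3 : ∀ n : ℕ, m ≠ D * n ^ 2 := fun n hn => h ⟨n, hn⟩
    rw [P0_none h3]
    have h4 : (fun n : ℕ => c3 D k G * (∑ h ∈ (n + 1).divisors, (jacobiSym h D : ℂ) *
      (h : ℂ) ^ (k - 1) * dl D m ((n + 1) / h)) * ee (((n + 1 : ℕ) : ℂ) * z)) = fun _ => 0 := by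
      funext n
      rw [Finset.sum_eq_zero, mul_zero, zero_mul]
      intro x _
      unfold dl
      rw [if_neg (h3 _), mul_zero]
    rw [h4]
    exact hasSum_zero

end HFAux

/-- (HF) Fourier expansion of the forms of weight `2k`, far from the real line -/
theorem stHF (h1 : StLip) (h2 : StHC) : StHF := by
  intro D k m G z hD hG hk he hm hm1 hz
  have hm1' : (1 : ℝ) ≤ m := by exact_mod_cast hm1
  have hz0 : 0 < z.im := by linarith
  have h3 := HFAux.P0_all h2 hD hG he hk hm1 hz0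
  have h4 := HFAux.Pg_tail h1 h2 hD hm (by omega : 4 ≤ k) he hm1 hz
  have h5 := h3.add h4
  rw [HFAux.hm_split h2 hD he (by omega : 4 ≤ k) hm1 hz0]
  have h6 : (fun n : ℕ => an D k m G (n + 1) *
      Pool.Agent.Lib.MP_7c08ba_nt.RZ.ee (((n + 1 : ℕ) : ℂ) * z)) = fun n : ℕ =>
      c3 D k G * (∑ h ∈ (n + 1).divisors, (jacobiSym h D : ℂ) *
      (h : ℂ) ^ (k - 1) * dl D m ((n + 1) / h)) * Pool.Agent.Lib.MP_7c08ba_nt.RZ.ee (((n + 1 : ℕ) : ℂ) * z) +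
      c1 D k * bn D k m (n + 1) * Pool.Agent.Lib.MP_7c08ba_nt.RZ.ee (((n + 1 : ℕ) : ℂ) * z) := by
    funext n
    unfold an
    ring
  rw [h6]
  exact h5

end LC

end Pool.Agent.Lib.MP_7c5fb9_nt
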