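import Mathlib
import Pool.Agent.Lib.MP_7c5fb9_nt.LC.St
import Pool.Agent.Lib.MP_973905_nt.F4.GammaC

set_option autoImplicit false

/-!
Project LC, (Han): the integral over a horizontal line.
-/

namespace Pool.Agent.Lib.MP_7c5fb9_nt

namespace LC

open MeasureTheory Set Filter Topology Pool.Agent.Lib.MP_7c08ba_nt.RZ
open scoped FourierTransform

namespace HanAux

/-- `- i w` for `w = x + i y` -/
noncomputable def mw (y x : ℝ) : ℂ := -Complex.I * (x + y * Complex.I)

lemma mw_eq (y x : ℝ) : mw y x = y - x * Complex.I := by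
  unfold mw
  linear_combination (-(y : ℂ)) * Complex.I_sq

lemma mw_re (y x : ℝ) : (mw y x).re = y := by
  rw [mw_eq]; simp

lemma mw_ne {y : ℝ} (hy : 0 < y) (x : ℝ) : mw y x ≠ 0 := by
  intro h
  have := mw_re y x
  rw [h, Complex.zero_re] at this
  exact hy.ne this

lemma norm_mw_sq (y x : ℝ) : ‖mw y x‖ ^ 2 = x ^ 2 + y ^ 2 := by
  rw [mw_eq, ← Complex.normSq_eq_norm_sq, Complex.normSq_apply]
  simp
  ring

lemma le_norm_mw {y : ℝ} (hy : 0 < y) (x : ℝ) : y ≤ ‖mw y x‖ := by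
  have h := norm_mw_sq y x
  have h0 := norm_nonneg (mw y x)
  nlinarith [sq_nonneg x]

lemma continuous_mw (y : ℝ) : Continuous (mw y) := by
  unfold mw
  fun_prop

lemma continuous_cpow {y : ℝ} (hy : 0 < y) (s : ℂ) : Continuous fun x => mw y x ^ s := by
  refine continuous_iff_continuousAt.2 fun x => ?_
  exact (continuous_mw y).continuousAt.cpow continuousAt_const
    (Or.inl (by rw [mw_re]; exact hy))

lemma norm_cpow_mw {y : ℝ} (hy : 0 < y) (s x : ℝ) : ‖mw y x ^ (-(s : ℂ))‖ = ‖mw y x‖ ^ (-s) := by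
  have := Complex.norm_cpow_of_ne_zero (mw_ne hy x) (-(s : ℂ))
  rw [this]
  simp

/-- integrability of the modulus -/
lemma integrable_norm {y s : ℝ} (hy : 0 < y) (hs : 1 < s) :
    Integrable fun x : ℝ => ‖mw y x‖ ^ (-s) := by
  have h1 := integrable_rpow_neg_one_add_norm_sq (E := ℝ) (μ := volume) (r := s)
    (by simpa using hs)
  have hm0 : 0 < min 1 (y ^ 2) := lt_min one_pos (by positivity)
  refine (h1.const_mul ((min 1 (y ^ 2)) ^ (-s / 2))).mono' ?_ ?_
  · refine Continuous.aestronglyMeasurable ?_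
    exact ((continuous_mw y).norm).rpow_const fun x => Or.inl (norm_ne_zero_iff.2 (mw_ne hy x))
  · refine Eventually.of_forall fun x => ?_
    have hp : 0 < ‖mw y x‖ := norm_pos_iff.2 (mw_ne hy x)
    rw [Real.norm_of_nonneg (Real.rpow_nonneg hp.le _)]
    have h2 : ‖mw y x‖ ^ (-s) = (x ^ 2 + y ^ 2) ^ (-s / 2) := by
      rw [← norm_mw_sq, ← Real.rpow_natCast, ← Real.rpow_mul hp.le]
      congr 1
      push_cast
      ring
    rw [h2, ← Real.mul_rpow hm0.le (by positivity)]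
    refine Real.rpow_le_rpow_of_nonpos (by positivity) ?_ (by linarith)
    have h3 : min 1 (y ^ 2) ≤ 1 := min_le_left _ _
    have h4 : min 1 (y ^ 2) ≤ y ^ 2 := min_le_right _ _
    rw [Real.norm_eq_abs, sq_abs]
    nlinarith [sq_nonneg x]

lemma norm_ee_B (B y x : ℝ) : ‖ee (-(B : ℂ) * (x + y * Complex.I))‖ = Real.exp (2 * Real.pi * B * y) := by
  unfold ee
  rw [Complex.norm_exp]
  congr 1
  simp [Complex.mul_re, Complex.mul_im]
  ring

lemma continuous_ee {f : ℝ → ℂ} (hf : Continuous f) : Continuous fun x => ee (f x) := by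
  unfold ee
  fun_prop

lemma integrable_main {y s : ℝ} (hy : 0 < y) (hs : 1 < s) (B : ℝ) :
    Integrable fun x : ℝ => mw y x ^ (-(s : ℂ)) * ee (-(B : ℂ) * (x + y * Complex.I)) := by
  refine ((integrable_norm hy hs).mul_const (Real.exp (2 * Real.pi * B * y))).mono' ?_ ?_
  · refine Continuous.aestronglyMeasurable ?_
    exact (continuous_cpow hy _).mul (continuous_ee (by fun_prop))
  · refine Eventually.of_forall fun x => ?_
    rw [norm_mul, norm_cpow_mw hy, norm_ee_B]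

/-- the function whose Fourier transform is used -/
noncomputable def gg (s y : ℝ) (t : ℝ) : ℂ :=
  (Ioi (0 : ℝ)).indicator (fun t : ℝ => (t : ℂ) ^ ((s : ℂ) - 1) *
    Complex.exp (-(((2 * Real.pi * y : ℝ) : ℂ) * t))) t

lemma integrable_gg {s y : ℝ} (hy : 0 < y) (hs : 1 < s) : Integrable (gg s y) := by
  have h := Pool.Agent.Lib.MP_973905_nt.F4.GammaC.integrable_main (a := (s : ℂ))
    (r := ((2 * Real.pi * y : ℝ) : ℂ)) (by simpa using (by linarith : (0 : ℝ) < s))
    (by rw [Complex.ofReal_re]; positivity)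
  exact (integrable_indicator_iff measurableSet_Ioi).2 h

lemma real_mul_cpow {r : ℝ} (hr : 0 < r) {z : ℂ} (hz : z ≠ 0) (a : ℂ) :
    ((r : ℂ) * z) ^ a = (r : ℂ) ^ a * z ^ a := by
  have hr' : (r : ℂ) ≠ 0 := Complex.ofReal_ne_zero.2 hr.ne'
  rw [Complex.cpow_def_of_ne_zero (mul_ne_zero hr' hz), Complex.log_ofReal_mul hr hz,
    Complex.ofReal_log hr.le, add_mul, Complex.exp_add, ← Complex.cpow_def_of_ne_zero hr',
    ← Complex.cpow_def_of_ne_zero hz]

lemma fourier_gg {s y : ℝ} (hy : 0 < y) (hs : 1 < s) (ξ : ℝ) :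
    𝓕 (gg s y) ξ = ((2 * Real.pi : ℝ) : ℂ) ^ (-(s : ℂ)) * Complex.Gamma s *
      mw y (-ξ) ^ (-(s : ℂ)) := by
  rw [Real.fourier_real_eq_integral_exp_smul]
  have h1 : ∀ v : ℝ, Complex.exp ((↑(-2 * Real.pi * v * ξ) : ℂ) * Complex.I) • gg s y v =
      (Ioi (0 : ℝ)).indicator (fun t : ℝ => (t : ℂ) ^ ((s : ℂ) - 1) *
        Complex.exp (-((((2 * Real.pi : ℝ) : ℂ) * mw y (-ξ)) * t))) v := by
    intro v
    unfold gg
    by_cases hv : v ∈ Ioi (0 : ℝ)
    · rw [indicator_of_mem hv, indicator_of_mem hv, smul_eq_mul, mul_left_comm, ← Complex.exp_add]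
      congr 2
      rw [mw_eq]
      push_cast
      ring
    · rw [indicator_of_notMem hv, indicator_of_notMem hv, smul_zero]
  rw [integral_congr_ae (Eventually.of_forall h1), integral_indicator measurableSet_Ioi]
  have hre : 0 < (((2 * Real.pi : ℝ) : ℂ) * mw y (-ξ)).re := by
    rw [Complex.re_ofReal_mul, mw_re]
    positivity
  rw [Pool.Agent.Lib.MP_973905_nt.F4.GammaC.gammaC
    (by simpa using (by linarith : (0 : ℝ) < s)) hre]
  have h2 : (1 / (((2 * Real.pi : ℝ) : ℂ) * mw y (-ξ))) ^ (s : ℂ) =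
      ((2 * Real.pi : ℝ) : ℂ) ^ (-(s : ℂ)) * mw y (-ξ) ^ (-(s : ℂ)) := by
    have harg : (((2 * Real.pi : ℝ) : ℂ) * mw y (-ξ)).arg ≠ Real.pi := by
      intro h
      have := (Complex.arg_eq_pi_iff.1 h).1
      linarith
    rw [one_div, Complex.inv_cpow _ _ harg, ← Complex.cpow_neg,
      real_mul_cpow Real.two_pi_pos (mw_ne hy _)]
  rw [h2]
  ring

/-- the basic integral -/
lemma main_integral {s y B : ℝ} (hy : 0 < y) (hs : 1 < s) (hB : 0 < B) :
    ∫ x : ℝ, mw y x ^ (-(s : ℂ)) * ee (-(B : ℂ) * (x + y * Complex.I)) =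
      (((2 * Real.pi) ^ s * B ^ (s - 1) / Real.Gamma s : ℝ) : ℂ) := by
  have hG : Complex.Gamma s ≠ 0 := by
    rw [Complex.Gamma_ofReal]
    exact Complex.ofReal_ne_zero.2 (Real.Gamma_pos_of_pos (by linarith)).ne'
  have hpi : ((2 * Real.pi : ℝ) : ℂ) ≠ 0 := Complex.ofReal_ne_zero.2 Real.two_pi_pos.ne'
  have hint : Integrable (𝓕 (gg s y)) := by
    have h1 : (𝓕 (gg s y)) = fun ξ => ((2 * Real.pi : ℝ) : ℂ) ^ (-(s : ℂ)) * Complex.Gamma s *
        mw y (-ξ) ^ (-(s : ℂ)) := funext fun ξ => fourier_gg hy hs ξ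
    rw [h1]
    refine Integrable.const_mul ?_ _
    have h2 : Integrable fun x : ℝ => mw y x ^ (-(s : ℂ)) := by
      refine (integrable_norm hy hs).mono' (continuous_cpow hy _).aestronglyMeasurable ?_
      exact Eventually.of_forall fun x => (norm_cpow_mw hy s x).le
    exact h2.comp_neg
  have hcont : ContinuousAt (gg s y) B := by
    have h1 : (fun t : ℝ => (t : ℂ) ^ ((s : ℂ) - 1) *
        Complex.exp (-(((2 * Real.pi * y : ℝ) : ℂ) * t))) =ᶠ[𝓝 B] gg s y := by
      filter_upwards [Ioi_mem_nhds hB] with t ht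
      unfold gg
      rw [indicator_of_mem ht]
    refine ContinuousAt.congr ?_ h1
    refine ContinuousAt.mul ?_ (by fun_prop)
    exact (Complex.continuous_ofReal.continuousAt).cpow continuousAt_const
      (Or.inl (by simpa using hB))
  have hinv := (integrable_gg hy hs).fourierInv_fourier_eq hint hcont
  rw [Real.fourierInv_eq'] at hinv
  have h3 : ∀ v : ℝ, Complex.exp ((↑(2 * Real.pi * (inner ℝ v B : ℝ)) : ℂ) * Complex.I) •
      𝓕 (gg s y) v = (fun x : ℝ => (((2 * Real.pi : ℝ) : ℂ) ^ (-(s : ℂ)) * Complex.Gamma s *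
        Complex.exp (-((2 * Real.pi * y : ℝ) : ℂ) * B)) *
        (mw y x ^ (-(s : ℂ)) * ee (-(B : ℂ) * (x + y * Complex.I)))) (-v) := by
    intro v
    rw [fourier_gg hy hs, smul_eq_mul]
    have h4 : Complex.exp ((↑(2 * Real.pi * (inner ℝ v B : ℝ)) : ℂ) * Complex.I) =
        Complex.exp (-((2 * Real.pi * y : ℝ) : ℂ) * B) *
          ee (-(B : ℂ) * (((-v : ℝ) : ℂ) + y * Complex.I)) := by
      unfold ee
      rw [← Complex.exp_add]
      congr 1
      have : (inner ℝ v B : ℝ) = B * v := by simp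
      rw [this]
      push_cast
      linear_combination (2 * Real.pi * B * y : ℂ) * Complex.I_sq
    rw [h4]
    ring
  rw [integral_congr_ae (Eventually.of_forall h3), integral_neg_eq_self
    (fun x : ℝ => (((2 * Real.pi : ℝ) : ℂ) ^ (-(s : ℂ)) * Complex.Gamma s *
        Complex.exp (-((2 * Real.pi * y : ℝ) : ℂ) * B)) *
        (mw y x ^ (-(s : ℂ)) * ee (-(B : ℂ) * (x + y * Complex.I)))),
    integral_const_mul] at hinv
  have hg : gg s y B = (B : ℂ) ^ ((s : ℂ) - 1) *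
      Complex.exp (-((2 * Real.pi * y : ℝ) : ℂ) * B) := by
    unfold gg
    rw [indicator_of_mem (show B ∈ Ioi (0 : ℝ) from hB), neg_mul]
  rw [hg] at hinv
  have hE : Complex.exp (-((2 * Real.pi * y : ℝ) : ℂ) * B) ≠ 0 := Complex.exp_ne_zero _
  have hp : ((2 * Real.pi : ℝ) : ℂ) ^ (-(s : ℂ)) * ((2 * Real.pi : ℝ) : ℂ) ^ (s : ℂ) = 1 := by
    rw [← Complex.cpow_add _ _ hpi, neg_add_cancel, Complex.cpow_zero]
  set J := ∫ x : ℝ, mw y x ^ (-(s : ℂ)) * ee (-(B : ℂ) * (x + y * Complex.I)) with hJ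
  have h5 : ((2 * Real.pi : ℝ) : ℂ) ^ (-(s : ℂ)) * Complex.Gamma s * J =
      (B : ℂ) ^ ((s : ℂ) - 1) := by
    apply mul_right_cancel₀ hE
    linear_combination hinv
  have h6 : (((2 * Real.pi) ^ s * B ^ (s - 1) / Real.Gamma s : ℝ) : ℂ) =
      ((2 * Real.pi : ℝ) : ℂ) ^ (s : ℂ) * (B : ℂ) ^ ((s : ℂ) - 1) / Complex.Gamma s := by
    rw [Complex.ofReal_div, Complex.ofReal_mul, Complex.ofReal_cpow Real.two_pi_pos.le,
      Complex.ofReal_cpow hB.le, Complex.Gamma_ofReal]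
    push_cast
    rfl
  rw [h6, eq_div_iff hG, ← h5]
  linear_combination (-(J * Complex.Gamma s)) * hp

lemma ee_A (A : ℝ) {y : ℝ} (x : ℝ) :
    ee (-(A : ℂ) / (x + y * Complex.I)) =
      Complex.exp (((-(2 * Real.pi * A) : ℝ) : ℂ) * (mw y x)⁻¹) := by
  unfold ee mw
  congr 1
  rw [mul_inv, inv_neg, Complex.inv_I]
  push_cast
  ring

lemma hasSum_F {A B y s : ℝ} (hy : 0 < y) (x : ℝ) :
    HasSum (fun i : ℕ => (((-(2 * Real.pi * A)) ^ i / (i.factorial : ℝ) : ℝ) : ℂ) *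
      (mw y x ^ (-((s + i : ℝ) : ℂ)) * ee (-(B : ℂ) * (x + y * Complex.I))))
      (mw y x ^ (-(s : ℂ)) * ee (-(A : ℂ) / (x + y * Complex.I)) *
        ee (-(B : ℂ) * (x + y * Complex.I))) := by
  have h1 := NormedSpace.expSeries_div_hasSum_exp (((-(2 * Real.pi * A) : ℝ) : ℂ) * (mw y x)⁻¹)
  rw [← Complex.exp_eq_exp_ℂ, ← ee_A] at h1
  have h2 := (h1.mul_left (mw y x ^ (-(s : ℂ)))).mul_right (ee (-(B : ℂ) * (x + y * Complex.I)))
  refine h2.congr_fun ?_
  intro i
  have h3 : mw y x ^ (-((s + i : ℝ) : ℂ)) = mw y x ^ (-(s : ℂ)) * (mw y x)⁻¹ ^ i := by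
    have h4 : -((s + i : ℝ) : ℂ) = -(s : ℂ) + -(i : ℂ) := by push_cast; ring
    rw [h4, Complex.cpow_add _ _ (mw_ne hy x), Complex.cpow_neg _ (i : ℂ), Complex.cpow_natCast,
      inv_pow]
  rw [h3]
  push_cast
  ring

end HanAux

open HanAux in
theorem stHan : StHan := by
  intro k A B y hk hA hB hy
  obtain ⟨s, hs⟩ : ∃ s : ℝ, s = (k : ℝ) + 1 / 2 := ⟨_, rfl⟩
  have hk1 : (1 : ℝ) ≤ k := by exact_mod_cast hk
  have hs1 : 1 < s := by rw [hs]; linarith
  have hsc : -((k : ℂ) + 1 / 2) = -(s : ℂ) := by rw [hs]; push_cast; ring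
  rw [hsc]
  change Integrable (fun x : ℝ => mw y x ^ (-(s : ℂ)) * ee (-(A : ℂ) / (x + y * Complex.I)) *
      ee (-(B : ℂ) * (x + y * Complex.I))) ∧
    ∫ x : ℝ, mw y x ^ (-(s : ℂ)) * ee (-(A : ℂ) / (x + y * Complex.I)) *
      ee (-(B : ℂ) * (x + y * Complex.I)) = Hk k A B
  have hw : ∀ x : ℝ, (x : ℂ) + y * Complex.I ≠ 0 := by
    intro x h
    have := mw_ne hy x
    unfold mw at this
    rw [h, mul_zero] at this
    exact this rfl
  have hcont : Continuous fun x : ℝ => mw y x ^ (-(s : ℂ)) *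
      ee (-(A : ℂ) / (x + y * Complex.I)) * ee (-(B : ℂ) * (x + y * Complex.I)) := by
    refine ((continuous_cpow hy _).mul (continuous_ee ?_)).mul (continuous_ee (by fun_prop))
    exact Continuous.div continuous_const (by fun_prop) hw
  have hnA : ∀ x : ℝ, ‖ee (-(A : ℂ) / (x + y * Complex.I))‖ ≤ Real.exp (2 * Real.pi * A / y) := by
    intro x
    rw [ee_A]
    refine (Complex.norm_exp_le_exp_norm _).trans (Real.exp_le_exp.2 ?_)
    rw [norm_mul, norm_inv, Complex.norm_real, Real.norm_eq_abs, abs_neg,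
      abs_of_nonneg (by positivity), ← div_eq_mul_inv]
    exact div_le_div_of_nonneg_left (by positivity) hy (le_norm_mw hy x)
  refine ⟨?_, ?_⟩
  · refine ((integrable_norm hy hs1).mul_const
      (Real.exp (2 * Real.pi * A / y) * Real.exp (2 * Real.pi * B * y))).mono'
      hcont.aestronglyMeasurable (Eventually.of_forall fun x => ?_)
    rw [norm_mul, norm_mul, norm_cpow_mw hy, norm_ee_B, mul_assoc]
    exact mul_le_mul_of_nonneg_left (mul_le_mul_of_nonneg_right (hnA x) (Real.exp_pos _).le)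
      (Real.rpow_nonneg (norm_nonneg _) _)
  · have hsi : ∀ i : ℕ, 1 < s + i := fun i => by
      have : (0 : ℝ) ≤ i := Nat.cast_nonneg i
      linarith
    have hF1 : ∀ i : ℕ, Integrable (fun x : ℝ =>
        (((-(2 * Real.pi * A)) ^ i / (i.factorial : ℝ) : ℝ) : ℂ) *
        (mw y x ^ (-((s + i : ℝ) : ℂ)) * ee (-(B : ℂ) * (x + y * Complex.I)))) :=
      fun i => (integrable_main hy (hsi i) B).const_mul _
    have hF2 : Summable fun i : ℕ => ∫ x : ℝ,
        ‖(((-(2 * Real.pi * A)) ^ i / (i.factorial : ℝ) : ℝ) : ℂ) *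
        (mw y x ^ (-((s + i : ℝ) : ℂ)) * ee (-(B : ℂ) * (x + y * Complex.I)))‖ := by
      have hsum := (Real.summable_pow_div_factorial (2 * Real.pi * A / y)).mul_right
        (∫ x : ℝ, ‖mw y x‖ ^ (-s) * Real.exp (2 * Real.pi * B * y))
      refine Summable.of_nonneg_of_le (fun i => integral_nonneg fun x => norm_nonneg _)
        (fun i => ?_) hsum
      rw [← integral_const_mul]
      refine integral_mono (hF1 i).norm
        (((integrable_norm hy hs1).mul_const _).const_mul _) fun x => ?_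
      simp only
      rw [norm_mul, norm_mul, norm_cpow_mw hy, norm_ee_B, Complex.norm_real, norm_div, norm_pow,
        norm_neg, Real.norm_of_nonneg (by positivity : (0 : ℝ) ≤ 2 * Real.pi * A),
        Real.norm_of_nonneg (by positivity : (0 : ℝ) ≤ (i.factorial : ℝ))]
      have hp : 0 < ‖mw y x‖ := norm_pos_iff.2 (mw_ne hy x)
      have h1 : ‖mw y x‖ ^ (-(s + i)) ≤ (1 / y ^ i) * ‖mw y x‖ ^ (-s) := by
        have h2 : -(s + (i : ℝ)) = -(i : ℝ) + -s := by ring
        rw [h2, Real.rpow_add hp, Real.rpow_neg hp.le, Real.rpow_natCast, ← one_div]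
        refine mul_le_mul_of_nonneg_right ?_ (Real.rpow_nonneg hp.le _)
        exact one_div_le_one_div_of_le (pow_pos hy i) (pow_le_pow_left₀ hy.le (le_norm_mw hy x) i)
      calc (2 * Real.pi * A) ^ i / (i.factorial : ℝ) *
            (‖mw y x‖ ^ (-(s + i)) * Real.exp (2 * Real.pi * B * y))
          ≤ (2 * Real.pi * A) ^ i / (i.factorial : ℝ) *
            (((1 / y ^ i) * ‖mw y x‖ ^ (-s)) * Real.exp (2 * Real.pi * B * y)) := by
            gcongr
        _ = (2 * Real.pi * A / y) ^ i / (i.factorial : ℝ) *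
            (‖mw y x‖ ^ (-s) * Real.exp (2 * Real.pi * B * y)) := by
            rw [div_pow]
            ring
    have h := hasSum_integral_of_summable_integral_norm hF1 hF2
    rw [integral_congr_ae (Eventually.of_forall fun x => (hasSum_F (A := A) (B := B) (s := s)
      hy x).tsum_eq)] at h
    have hterm : ∀ i : ℕ, ∫ x : ℝ, (((-(2 * Real.pi * A)) ^ i / (i.factorial : ℝ) : ℝ) : ℂ) *
        (mw y x ^ (-((s + i : ℝ) : ℂ)) * ee (-(B : ℂ) * (x + y * Complex.I))) =
        (((2 * Real.pi) ^ s * B ^ (s - 1) * ((-(4 * Real.pi ^ 2 * (A * B))) ^ i /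
          (i.factorial * Real.Gamma (k + 1 / 2 + i))) : ℝ) : ℂ) := by
      intro i
      rw [integral_const_mul, main_integral hy (hsi i) hB, ← Complex.ofReal_mul]
      congr 1
      have e1 : (2 * Real.pi) ^ (s + i) = (2 * Real.pi) ^ s * (2 * Real.pi) ^ i := by
        rw [Real.rpow_add Real.two_pi_pos, Real.rpow_natCast]
      have e2 : B ^ (s + i - 1) = B ^ (s - 1) * B ^ i := by
        rw [show s + (i : ℝ) - 1 = (s - 1) + i by ring, Real.rpow_add hB, Real.rpow_natCast]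
      have e3 : (-(4 * Real.pi ^ 2 * (A * B))) ^ i =
          (-(2 * Real.pi * A)) ^ i * (2 * Real.pi) ^ i * B ^ i := by
        rw [← mul_pow, ← mul_pow]
        congr 1
        ring
      rw [e1, e2, e3, hs]
      have hG : Real.Gamma ((k : ℝ) + 1 / 2 + i) ≠ 0 :=
        (Real.Gamma_pos_of_pos (by positivity)).ne'
      have hf : (i.factorial : ℝ) ≠ 0 := by positivity
      field_simp
    rw [funext hterm] at h
    rw [← h.tsum_eq, ← Complex.ofReal_tsum, tsum_mul_left]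
    unfold Hk Phk
    rw [hs]
    congr 2
    rw [show (k : ℝ) + 1 / 2 - 1 = (k : ℝ) - 1 / 2 by ring]

end LC

end Pool.Agent.Lib.MP_7c5fb9_nt
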