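import Mathlib
import Pool.Agent.Lib.MP_7c5fb9_nt.LC.St

set_option autoImplicit false

/-!
(Hil) the Hilbert space of the Poincaré series.
-/

namespace Pool.Agent.Lib.MP_7c5fb9_nt

namespace LC

open MeasureTheory UpperHalfPlane Set Pool.Agent.Lib.MP_7c08ba_nt.RZ
open LO (Mat disc act mir qv mb cyc Fund eps aut FormOf torPer NonVan)
open scoped MatrixGroups ComplexConjugate nonZeroDivisors

namespace HilAux

/-- The vector valued function attached to a Poincaré series. -/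
noncomputable def FF (D k m : ℕ) {ι : Type} [Fintype ι] (R : ι → SL(2, ℤ)) (z : ℍ) :
    EuclideanSpace ℂ (ι × Fin 2) :=
  WithLp.toLp 2 fun p => PP D k m ((R p.1 • z : ℍ) : ℂ) p.2 *
    ((((R p.1 • z : ℍ) : ℂ).im ^ (((k : ℝ) + 1 / 2) / 2) : ℝ) : ℂ)

theorem inner_FF (D k m m' : ℕ) {ι : Type} [Fintype ι] (R : ι → SL(2, ℤ)) (z : ℍ) :
    inner ℂ (FF D k m' R z) (FF D k m R z) = ∑ i, GG D k m m' ((R i • z : ℍ) : ℂ) := by
  rw [PiLp.inner_apply, Fintype.sum_prod_type]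
  refine Finset.sum_congr rfl fun i _ => ?_
  unfold GG
  rw [Finset.sum_mul]
  refine Finset.sum_congr rfl fun μ _ => ?_
  have hy : 0 < ((R i • z : ℍ) : ℂ).im := (R i • z : ℍ).im_pos
  have e : ((((R i • z : ℍ) : ℂ).im ^ (((k : ℝ) + 1 / 2) / 2) : ℝ) : ℂ) *
      ((((R i • z : ℍ) : ℂ).im ^ (((k : ℝ) + 1 / 2) / 2) : ℝ) : ℂ) =
      ((((R i • z : ℍ) : ℂ).im ^ ((k : ℝ) + 1 / 2) : ℝ) : ℂ) := by
    rw [← Complex.ofReal_mul, ← Real.rpow_add hy]
    congr 2
    ring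
  rw [RCLike.inner_apply]
  simp only [FF, map_mul, Complex.conj_ofReal]
  rw [← e]
  ring

theorem cont_FF (h2 : StPtS) {D k m : ℕ} (hD : Ok D) (hk : 6 ≤ k) (hm : Adm m) (h1 : 1 ≤ m)
    {ι : Type} [Fintype ι] (R : ι → SL(2, ℤ)) : Continuous (FF D k m R) := by
  obtain ⟨-, -, hc⟩ := h2
  have hg : ∀ i, Continuous fun z : ℍ => ((R i • z : ℍ) : ℂ) := fun i =>
    UpperHalfPlane.continuous_coe.comp (continuous_const_smul (R i : GL (Fin 2) ℝ))
  have key : Continuous fun z : ℍ => fun p : ι × Fin 2 => PP D k m ((R p.1 • z : ℍ) : ℂ) p.2 *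
    ((((R p.1 • z : ℍ) : ℂ).im ^ (((k : ℝ) + 1 / 2) / 2) : ℝ) : ℂ) := by
    refine continuous_pi fun p => ?_
    refine Continuous.mul ?_ ?_
    · exact (hc D k m p.2 hD (by omega) hm h1).comp_continuous (hg p.1)
        fun z => (R p.1 • z : ℍ).im_pos
    · refine Complex.continuous_ofReal.comp ?_
      refine Continuous.rpow_const (Complex.continuous_im.comp (hg p.1)) fun z => ?_
      exact Or.inl (ne_of_gt (R p.1 • z : ℍ).im_pos)
  exact (PiLp.continuous_toLp 2 _).comp key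

theorem memLp_FF (h1 : StGram) (h2 : StPtS) {D k m : ℕ} (hD : Ok D) (hk : 6 ≤ k) (he : Even k)
    (hm : Adm m) (hm1 : 1 ≤ m) {ι : Type} [Fintype ι] (R : ι → SL(2, ℤ)) (hR : IsRep D R) :
    MemLp (FF D k m R) 2 (volume.restrict (ModularGroup.fd : Set ℍ)) := by
  rw [memLp_two_iff_integrable_sq_norm (cont_FF h2 hD hk hm hm1 R).aestronglyMeasurable]
  obtain ⟨hi, -⟩ := h1 D k m m ι inferInstance R hD hk he hm hm hm1 hm1 hR
  have hs : Integrable (fun z : ℍ => ∑ i, GG D k m m ((R i • z : ℍ) : ℂ))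
      (volume.restrict (ModularGroup.fd : Set ℍ)) :=
    integrable_finsetSum _ fun i _ => hi i
  have hn : (fun z : ℍ => ‖FF D k m R z‖ ^ 2) =
      fun z : ℍ => (∑ i, GG D k m m ((R i • z : ℍ) : ℂ)).re := by
    funext z
    rw [← inner_FF D k m m R z, inner_self_eq_norm_sq_to_K]
    norm_cast
  rw [hn]
  exact hs.re

/-- the bound of the integrand -/
theorem int_bound (k : ℕ) (hk : 6 ≤ k) (C : ℝ) :
    IntegrableOn (fun y : ℝ => C * (1 + y ^ (-((k : ℝ) / 2 + 7 / 4))) *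
      Real.exp (-(Real.pi / 2 * y)) * y ^ ((k : ℝ) - 3 / 2)) (Ioi 0) := by
  have hk' : (6 : ℝ) ≤ k := by exact_mod_cast hk
  have hb : 0 < Real.pi / 2 := by positivity
  have i1 := integrableOn_rpow_mul_exp_neg_mul_rpow (p := 1) (s := (k : ℝ) - 3 / 2)
    (b := Real.pi / 2) (by linarith) one_pos hb
  have i2 := integrableOn_rpow_mul_exp_neg_mul_rpow (p := 1) (s := (k : ℝ) / 2 - 13 / 4)
    (b := Real.pi / 2) (by linarith) one_pos hb
  have i3 : IntegrableOn (fun y : ℝ => C * (y ^ ((k : ℝ) - 3 / 2) * Real.exp (-(Real.pi / 2) * y ^ (1 : ℝ)) +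
      y ^ ((k : ℝ) / 2 - 13 / 4) * Real.exp (-(Real.pi / 2) * y ^ (1 : ℝ)))) (Ioi 0) :=
    (i1.add i2).const_mul C
  refine i3.congr_fun ?_ measurableSet_Ioi
  intro y hy
  have hy0 : (0 : ℝ) < y := hy
  have e : y ^ (-((k : ℝ) / 2 + 7 / 4)) * y ^ ((k : ℝ) - 3 / 2) = y ^ ((k : ℝ) / 2 - 13 / 4) := by
    rw [← Real.rpow_add hy0]
    congr 1
    ring
  simp only [Real.rpow_one]
  rw [← e, neg_mul]
  ring

theorem norm_ee' (m : ℕ) (x y : ℝ) :
    ‖ee ((m : ℂ) * (x + y * Complex.I) / 4)‖ = Real.exp (-(Real.pi / 2 * (m * y))) := by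
  unfold ee
  rw [Complex.norm_exp]
  congr 1
  have : 2 * (Real.pi : ℂ) * Complex.I * ((m : ℂ) * (x + y * Complex.I) / 4) =
      ((-(Real.pi / 2 * (m * y)) : ℝ) : ℂ) + ((Real.pi / 2 * (m * x) : ℝ) : ℂ) * Complex.I := by
    push_cast
    ring_nf
    rw [Complex.I_sq]
    ring
  rw [this]
  simp

theorem PI_le (h2 : StPtS) {D k : ℕ} (hD : Ok D) (hk : 6 ≤ k) :
    ∃ B : ℝ, 0 ≤ B ∧ ∀ m : ℕ, Adm m → 1 ≤ m → ‖PI D k m m‖ ≤ B := by
  obtain ⟨-, hb, -⟩ := h2
  obtain ⟨C, hC, hb⟩ := hb D k hD (by omega)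
  refine ⟨∫ y in Ioi (0 : ℝ), C * (1 + y ^ (-((k : ℝ) / 2 + 7 / 4))) *
      Real.exp (-(Real.pi / 2 * y)) * y ^ ((k : ℝ) - 3 / 2), ?_, ?_⟩
  · refine setIntegral_nonneg measurableSet_Ioi fun y hy => ?_
    have hy0 : (0 : ℝ) < y := hy
    positivity
  intro m hm hm1
  unfold PI
  refine norm_integral_le_of_norm_le (int_bound k hk C) ?_
  refine (ae_restrict_iff' measurableSet_Ioi).2 (Filter.Eventually.of_forall fun y hy => ?_)
  have hy0 : (0 : ℝ) < y := hy
  rw [norm_mul, Complex.norm_real, Real.norm_of_nonneg (Real.rpow_nonneg hy0.le _)]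
  refine mul_le_mul_of_nonneg_right ?_ (Real.rpow_nonneg hy0.le _)
  have hbd : ∀ x ∈ Set.uIoc (0 : ℝ) 1, ‖PP D k m (x + y * Complex.I) (pr m) *
      conj (ee (m * (x + y * Complex.I) / 4))‖ ≤
      C * (1 + y ^ (-((k : ℝ) / 2 + 7 / 4))) * Real.exp (-(Real.pi / 2 * y)) := by
    intro x hx
    rw [uIoc_of_le zero_le_one] at hx
    have him : ((x : ℂ) + y * Complex.I).im = y := by simp
    have hre : ((x : ℂ) + y * Complex.I).re = x := by simp
    rw [norm_mul, RCLike.norm_conj, norm_ee']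
    refine mul_le_mul ?_ ?_ (Real.exp_nonneg _) (by positivity)
    · have h3 := hb m (x + y * Complex.I) (pr m) hm hm1 (by rw [him]; exact hy0)
        (by rw [hre, abs_of_pos hx.1]; exact hx.2)
      rw [him] at h3
      refine le_trans ?_ h3
      unfold PP
      rw [norm_mul]
      by_cases hs : Summable fun v : CopD D => ‖pM D k m (vm v.1.1) (x + y * Complex.I) (pr m)‖
      · have h4 := norm_tsum_le_tsum_norm hs
        have h5 : ‖(1 / 2 : ℂ)‖ ≤ 1 := by norm_num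
        have h6 : 0 ≤ ‖∑' v : CopD D, pM D k m (vm v.1.1) (x + y * Complex.I) (pr m)‖ :=
          norm_nonneg _
        nlinarith
      · have : ¬ Summable fun v : CopD D => pM D k m (vm v.1.1) (x + y * Complex.I) (pr m) :=
          fun h => hs h.norm
        rw [tsum_eq_zero_of_not_summable this, norm_zero, mul_zero]
        exact tsum_nonneg fun _ => norm_nonneg _
    · refine Real.exp_le_exp.2 ?_
      have hm' : (1 : ℝ) ≤ m := by exact_mod_cast hm1
      have hp := Real.pi_pos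
      have : y ≤ m * y := by nlinarith
      nlinarith
  have h7 := intervalIntegral.norm_integral_le_of_norm_le_const hbd
  simpa using h7

end HilAux

open HilAux

/-- (Hil) the Hilbert space. -/
theorem stHil (h1 : StGram) (h2 : StPtS) (h3 : StRep) : StHil := by
  classical
  intro D k hD hk he
  have hD1 : 1 ≤ D := by
    have := hD.mod
    omega
  obtain ⟨ι, _, R, hR⟩ := h3 D hD1
  obtain ⟨B, hB0, hB⟩ := PI_le h2 hD hk
  let e : ℕ → Lp (EuclideanSpace ℂ (ι × Fin 2)) 2 (volume.restrict (ModularGroup.fd : Set ℍ)) :=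
    fun m => if h : Adm m ∧ 1 ≤ m then
      (memLp_FF h1 h2 hD hk he h.1 h.2 R hR).toLp (FF D k m R) else 0
  have hin : ∀ m m', Adm m → Adm m' → 1 ≤ m → 1 ≤ m' →
      inner ℂ (e m') (e m) = PI D k m m' := by
    intro m m' hm hm' hm1 hm1'
    have e1 : e m = (memLp_FF h1 h2 hD hk he hm hm1 R hR).toLp (FF D k m R) :=
      dif_pos ⟨hm, hm1⟩
    have e2 : e m' = (memLp_FF h1 h2 hD hk he hm' hm1' R hR).toLp (FF D k m' R) :=
      dif_pos ⟨hm', hm1'⟩
    rw [e1, e2, MeasureTheory.L2.inner_def]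
    obtain ⟨hi, hs⟩ := h1 D k m m' ι _ R hD hk he hm hm' hm1 hm1' hR
    rw [← hs, ← integral_finsetSum _ fun i _ => hi i]
    refine integral_congr_ae ?_
    filter_upwards [(memLp_FF h1 h2 hD hk he hm hm1 R hR).coeFn_toLp,
      (memLp_FF h1 h2 hD hk he hm' hm1' R hR).coeFn_toLp] with z hz hz'
    rw [hz, hz', inner_FF]
  refine ⟨_, inferInstance, inferInstance, inferInstance, e, Real.sqrt B, ?_, hin⟩
  intro m hm hm1
  refine Real.le_sqrt_of_sq_le ?_
  have h4 := hin m m hm hm hm1 hm1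
  rw [inner_self_eq_norm_sq_to_K] at h4
  have h5 := hB m hm hm1
  rw [← h4] at h5
  simpa using h5

end LC

end Pool.Agent.Lib.MP_7c5fb9_nt
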