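import Mathlib
import Pool.Agent.Lib.MP_7c5fb9_nt.LC.St

set_option autoImplicit false

/-!
Project LC, module Ind: the two theta functions are linearly independent.
-/

namespace Pool.Agent.Lib.MP_7c5fb9_nt

namespace LC

open MeasureTheory UpperHalfPlane Set Pool.Agent.Lib.MP_7c08ba_nt.RZ

namespace IndAux

theorem ee_add (a b : ℂ) : ee (a + b) = ee a * ee b := by
  unfold ee
  rw [← Complex.exp_add]
  ring_nf

theorem ee_int (n : ℤ) : ee n = 1 := by
  unfold ee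
  rw [show (2 * Real.pi * Complex.I * (n : ℂ)) = n * (2 * Real.pi * Complex.I) by ring]
  exact Complex.exp_int_mul_two_pi_mul_I n

theorem ee_ne (a : ℂ) : ee a ≠ 0 := Complex.exp_ne_zero _

theorem norm_ee (z : ℂ) : ‖ee z‖ = Real.exp (-(2 * Real.pi * z.im)) := by
  unfold ee
  rw [Complex.norm_exp]
  congr 1
  simp [Complex.mul_re, Complex.mul_im]

theorem ee_half : ee (1 / 2) = -1 := by
  unfold ee
  rw [show (2 * Real.pi * Complex.I * (1 / 2)) = Real.pi * Complex.I by ring]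
  exact Complex.exp_pi_mul_I

theorem tht_half (ν : Fin 2) (τ z : ℂ) :
    tht ν τ (z + 1 / 2) = ee ((ν : ℕ) / 2) * tht ν τ z := by
  unfold tht
  rw [← tsum_mul_left]
  congr 1
  funext r
  rw [show ((2 * (r : ℂ) + (ν : ℕ)) ^ 2 * τ / 4 + (2 * (r : ℂ) + (ν : ℕ)) * (z + 1 / 2)) =
    (((ν : ℕ) : ℂ) / 2 + ((2 * (r : ℂ) + (ν : ℕ)) ^ 2 * τ / 4 + (2 * (r : ℂ) + (ν : ℕ)) * z)) + r
    by ring, ee_add, ee_add, ee_int, mul_one]

/-- the terms -/
noncomputable def F (ν : Fin 2) (τ : ℂ) (r : ℤ) (x : ℝ) : ℂ :=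
  ee ((2 * (r : ℂ) + (ν : ℕ)) ^ 2 * τ / 4 + (2 * (r : ℂ) + (ν : ℕ)) * x) * ee (-((ν : ℕ) * x))

theorem F_eq (ν : Fin 2) (τ : ℂ) (r : ℤ) (x : ℝ) :
    F ν τ r x = ee ((2 * (r : ℂ) + (ν : ℕ)) ^ 2 * τ / 4) * ee ((2 * r : ℤ) * x) := by
  unfold F
  rw [← ee_add, ← ee_add]
  congr 1
  push_cast
  ring

theorem norm_F (ν : Fin 2) (τ : ℂ) (r : ℤ) (x : ℝ) :
    ‖F ν τ r x‖ = ‖ee ((2 * (r : ℂ) + (ν : ℕ)) ^ 2 * τ / 4)‖ := by
  rw [F_eq, norm_mul]
  have : ‖ee ((2 * r : ℤ) * x)‖ = 1 := by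
    rw [norm_ee]
    have : (((2 * r : ℤ) : ℂ) * (x : ℂ)).im = 0 := by
      rw [← Complex.ofReal_intCast, ← Complex.ofReal_mul, Complex.ofReal_im]
    rw [this]
    simp
  rw [this, mul_one]

theorem cont_F (ν : Fin 2) (τ : ℂ) (r : ℤ) : Continuous (F ν τ r) := by
  unfold F ee
  fun_prop

theorem summ (ν : Fin 2) (τ : ℂ) (hτ : 0 < τ.im) :
    Summable fun r : ℤ => ‖ee ((2 * (r : ℂ) + (ν : ℕ)) ^ 2 * τ / 4)‖ := by
  have h := ((summable_jacobiTheta₂_term_iff ((ν : ℕ) * τ) (2 * τ)).2 (by simpa using hτ)).norm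
  have h2 := h.mul_left ‖ee (((ν : ℕ) : ℂ) ^ 2 * τ / 4)‖
  refine h2.congr fun r => ?_
  rw [← norm_mul]
  congr 1
  unfold jacobiTheta₂_term ee
  rw [← Complex.exp_add]
  congr 1
  ring

theorem int_F (ν : Fin 2) (τ : ℂ) (r : ℤ) :
    ∫ x in (0 : ℝ)..1, F ν τ r x =
      if r = 0 then ee (((ν : ℕ) : ℂ) ^ 2 * τ / 4) else 0 := by
  simp_rw [F_eq]
  rw [intervalIntegral.integral_const_mul]
  by_cases hr : r = 0
  · subst hr
    simp [ee]
  · rw [if_neg hr]
    have : ∫ x in (0 : ℝ)..1, ee ((2 * r : ℤ) * x) = 0 := by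
      unfold ee
      have hc : (2 * Real.pi * Complex.I * (2 * r : ℤ) : ℂ) ≠ 0 := by
        simp [Real.pi_ne_zero, hr]
      have := integral_exp_mul_complex (a := 0) (b := 1) hc
      have h2 : (fun x : ℝ => Complex.exp (2 * Real.pi * Complex.I * ((2 * r : ℤ) * x))) =
          fun x : ℝ => Complex.exp (2 * Real.pi * Complex.I * (2 * r : ℤ) * x) := by
        funext x
        congr 1
        ring
      rw [h2, this]
      have h3 : Complex.exp (2 * Real.pi * Complex.I * (2 * r : ℤ) * (1 : ℝ)) = 1 := by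
        rw [show (2 * Real.pi * Complex.I * (2 * r : ℤ) * (1 : ℝ) : ℂ) =
          (2 * r : ℤ) * (2 * Real.pi * Complex.I) by push_cast; ring]
        exact Complex.exp_int_mul_two_pi_mul_I _
      rw [h3]
      simp
    rw [this, mul_zero]

theorem int_tht (ν : Fin 2) (τ : ℂ) (hτ : 0 < τ.im) :
    ∫ x in (0 : ℝ)..1, tht ν τ x * ee (-((ν : ℕ) * x)) = ee (((ν : ℕ) : ℂ) ^ 2 * τ / 4) := by
  have h1 : ∀ x : ℝ, tht ν τ x * ee (-((ν : ℕ) * x)) = ∑' r : ℤ, F ν τ r x := by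
    intro x
    unfold tht F
    rw [tsum_mul_right]
  simp_rw [h1]
  rw [intervalIntegral.integral_of_le zero_le_one]
  have hint : ∀ r : ℤ, Integrable (F ν τ r) (volume.restrict (Ioc (0 : ℝ) 1)) := fun r =>
    ((cont_F ν τ r).integrableOn_Ioc)
  have hsum : Summable fun r : ℤ => ∫ x in Ioc (0 : ℝ) 1, ‖F ν τ r x‖ := by
    refine (summ ν τ hτ).congr fun r => ?_
    simp_rw [norm_F]
    simp
  have h2 := hasSum_integral_of_summable_integral_norm hint hsum
  rw [← h2.tsum_eq]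
  have h3 : ∀ r : ℤ, ∫ x in Ioc (0 : ℝ) 1, F ν τ r x =
      if r = 0 then ee (((ν : ℕ) : ℂ) ^ 2 * τ / 4) else 0 := by
    intro r
    rw [← intervalIntegral.integral_of_le zero_le_one]
    exact int_F ν τ r
  simp_rw [h3]
  rw [tsum_ite_eq]

end IndAux

open IndAux in
/-- (Ind) the theta functions are linearly independent -/
theorem stInd : StInd := by
  intro τ A hτ h
  have key : ∀ ν : Fin 2, ∀ z : ℂ, A ν * tht ν τ z = 0 := by
    have h0 : ∀ z : ℂ, A 0 * tht 0 τ z = 0 ∧ A 1 * tht 1 τ z = 0 := by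
      intro z
      have e1 := h z
      have e2 := h (z + 1 / 2)
      rw [Fin.sum_univ_two] at e1 e2
      rw [tht_half, tht_half] at e2
      have u0 : ee (((0 : Fin 2) : ℕ) / 2) = 1 := by
        have := ee_int 0
        simpa using this
      have u1 : ee (((1 : Fin 2) : ℕ) / 2) = -1 := by
        have := ee_half
        simpa using this
      rw [u0, u1] at e2
      constructor
      · linear_combination (e1 + e2) / 2
      · linear_combination (e1 - e2) / 2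
    intro ν z
    fin_cases ν
    · exact (h0 z).1
    · exact (h0 z).2
  funext ν
  by_contra hne
  have hne' : A ν ≠ 0 := hne
  have hz : ∀ z : ℂ, tht ν τ z = 0 := fun z => by
    rcases mul_eq_zero.1 (key ν z) with h | h
    · exact absurd h hne'
    · exact h
  have := int_tht ν τ hτ
  simp only [hz, zero_mul, intervalIntegral.integral_zero] at this
  exact ee_ne _ this.symm

end LC

end Pool.Agent.Lib.MP_7c5fb9_nt
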