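import Mathlib
import Pool.Agent.Lib.MP_7c5fb9_nt.LC.St

set_option autoImplicit false

/-!
Project LC: the exponential sums of the Poincaré series.
-/

namespace Pool.Agent.Lib.MP_7c5fb9_nt

namespace LC

open MeasureTheory UpperHalfPlane Set Pool.Agent.Lib.MP_7c08ba_nt.RZ

namespace KSmAux

lemma jj_shift (m g : ℕ) (j l : ℤ) : jj m (j + g * l) = jj m j + 2 * g * l := by
  unfold jj
  ring

lemma tj_shift (D m g : ℕ) (j l : ℤ) :
    tj D m (j + g * l) = tj D m j + -(D * (l * (jj m j + g * l))) * g := by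
  unfold tj
  rw [jj_shift]
  have h : (m : ℤ) - D * (jj m j + 2 * g * l) ^ 2 =
      ((m : ℤ) - D * jj m j ^ 2) + (-(D * (l * (jj m j + g * l))) * g) * 4 := by ring
  rw [h, Int.add_mul_ediv_right _ _ (by norm_num)]

lemma sum_split (g h : ℕ) (F : ℕ → ℂ) :
    ∑ j ∈ Finset.range (g * h), F j =
      ∑ l ∈ Finset.range h, ∑ j ∈ Finset.range g, F (g * l + j) := by
  induction h with
  | zero => simp
  | succ h ih => rw [Nat.mul_succ, Finset.sum_range_add, ih, Finset.sum_range_succ]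

lemma ee_add (x y : ℂ) : ee (x + y) = ee x * ee y := by
  unfold ee
  rw [← Complex.exp_add]
  ring_nf

lemma ee_int (n : ℤ) : ee n = 1 := by
  unfold ee
  rw [Complex.exp_eq_one_iff]
  exact ⟨n, by ring⟩

lemma sum_ee (h n : ℕ) (hh : 1 ≤ h) :
    ∑ l ∈ Finset.range h, ee (-((n : ℂ) * l) / h) = if h ∣ n then (h : ℂ) else 0 := by
  have hne : (h : ℂ) ≠ 0 := by exact_mod_cast (by omega : h ≠ 0)
  split_ifs with hd
  · obtain ⟨k, rfl⟩ := hd
    have : ∀ l ∈ Finset.range h, ee (-(((h * k : ℕ) : ℂ) * l) / h) = 1 := by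
      intro l _
      have e : -(((h * k : ℕ) : ℂ) * l) / h = ((-(k * l : ℤ) : ℤ) : ℂ) := by
        push_cast
        field_simp
      rw [e, ee_int]
    rw [Finset.sum_congr rfl this]
    simp
  · have hprim := Complex.isPrimitiveRoot_exp h (by omega)
    set ζ := Complex.exp (2 * Real.pi * Complex.I / h) with hζ
    have hζn : ζ⁻¹ ^ n ≠ 1 := by
      intro h1
      apply hd
      apply hprim.dvd_of_pow_eq_one
      rw [inv_pow, inv_eq_one] at h1
      exact h1
    have hpow : (ζ⁻¹ ^ n) ^ h = 1 := by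
      rw [← pow_mul, mul_comm, pow_mul, inv_pow, hprim.pow_eq_one]
      simp
    have : ∀ l ∈ Finset.range h, ee (-((n : ℂ) * l) / h) = (ζ⁻¹ ^ n) ^ l := by
      intro l _
      rw [← pow_mul, hζ, ← Complex.exp_neg, ← Complex.exp_nat_mul]
      unfold ee
      congr 1
      push_cast
      field_simp
    rw [Finset.sum_congr rfl this]
    have := geom_sum_mul (ζ⁻¹ ^ n) h
    rw [hpow, sub_self] at this
    exact (mul_eq_zero.mp this).resolve_right (sub_ne_zero.mpr hζn)

/-- The terms. -/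
noncomputable def F (D g c n m : ℕ) (j : ℤ) : ℂ :=
  if (g : ℤ) ∣ tj D m j then
    (jacobiSym (tj D m j / g) D : ℂ) * ee (-((n : ℂ) * (jj m j : ℤ)) / (2 * c)) else 0

lemma F_shift (D g h n m : ℕ) (hg : 1 ≤ g) (hh : 1 ≤ h) (l j : ℕ) :
    F D g (g * h) n m ((g * l + j : ℕ) : ℤ) =
      F D g (g * h) n m j * ee (-((n : ℂ) * l) / h) := by
  have hgz : (g : ℤ) ≠ 0 := by omega
  have hgc : (g : ℂ) ≠ 0 := by exact_mod_cast hgz
  have hhc : (h : ℂ) ≠ 0 := by exact_mod_cast (by omega : h ≠ 0)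
  have e1 : ((g * l + j : ℕ) : ℤ) = (j : ℤ) + g * (l : ℤ) := by push_cast; ring
  unfold F
  rw [e1, tj_shift, jj_shift]
  have hdiv : ((g : ℤ) ∣ tj D m j + -(D * (l * (jj m j + g * l))) * g) ↔ (g : ℤ) ∣ tj D m j :=
    dvd_add_left (Dvd.intro_left _ rfl)
  by_cases hd : (g : ℤ) ∣ tj D m j
  · rw [if_pos (hdiv.mpr hd), if_pos hd]
    have e2 : jacobiSym ((tj D m j + -(D * (l * (jj m j + g * l))) * g) / g) D =
        jacobiSym (tj D m j / g) D := by
      rw [Int.add_mul_ediv_right _ _ hgz, jacobiSym.mod_left, jacobiSym.mod_left (tj D m j / g)]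
      congr 1
      rw [← mul_neg, Int.add_mul_emod_self_left]
    rw [e2, mul_assoc ((jacobiSym (tj D m j / g) D : ℤ) : ℂ), ← ee_add]
    congr 2
    push_cast
    field_simp
    ring
  · rw [if_neg (fun h' => hd (hdiv.mp h')), if_neg hd, zero_mul]

lemma sum_F (D g h n m : ℕ) (hg : 1 ≤ g) (hh : 1 ≤ h) :
    ∑ j ∈ Finset.range (g * h), F D g (g * h) n m j =
      if h ∣ n then h * AA D g (n / h) m else 0 := by
  have hgc : (g : ℂ) ≠ 0 := by exact_mod_cast (by omega : g ≠ 0)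
  have hhc : (h : ℂ) ≠ 0 := by exact_mod_cast (by omega : h ≠ 0)
  rw [sum_split g h (fun j => F D g (g * h) n m j)]
  simp only [F_shift D g h n m hg hh]
  simp only [← Finset.sum_mul]
  rw [← Finset.mul_sum, sum_ee h n hh]
  split_ifs with hd
  · rw [mul_comm]
    congr 1
    unfold AA F
    refine Finset.sum_congr rfl fun j _ => ?_
    obtain ⟨k, rfl⟩ := hd
    rw [Nat.mul_div_cancel_left k (by omega)]
    split_ifs
    · congr 2
      push_cast
      field_simp
    · rfl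
  · rw [mul_zero]

end KSmAux

open KSmAux

theorem stKS (h : StExS) : StKS := by
  intro D G c n m hD hG hc hn hm
  have h1 : KS D c n m = ∑ j ∈ Finset.range c, ee (-((n : ℂ) * (jj m j : ℤ)) / (2 * c)) *
      ∑ a ∈ Finset.range (D * c), (if Nat.Coprime a (D * c) then
        (jacobiSym a D : ℂ) * ee ((a : ℂ) * (tj D m j : ℤ) / (D * c)) else 0) := by
    unfold KS
    simp only [Finset.mul_sum]
    rw [Finset.sum_comm]
    refine Finset.sum_congr rfl fun a _ => ?_
    split_ifs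
    · refine Finset.sum_congr rfl fun j _ => ?_
      ring
    · simp
  rw [h1]
  have h2 : ∀ j ∈ Finset.range c, ee (-((n : ℂ) * (jj m j : ℤ)) / (2 * c)) *
      ∑ a ∈ Finset.range (D * c), (if Nat.Coprime a (D * c) then
        (jacobiSym a D : ℂ) * ee ((a : ℂ) * (tj D m j : ℤ) / (D * c)) else 0) =
      ∑ h ∈ c.divisors, G * ((ArithmeticFunction.moebius h : ℂ) *
        (jacobiSym h D : ℂ) * ((c / h : ℕ) : ℂ)) * F D (c / h) c n m j := by
    intro j _
    rw [h D G c (tj D m j) hD hG hc, Finset.mul_sum, Finset.mul_sum]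
    refine Finset.sum_congr rfl fun h _ => ?_
    unfold F
    split_ifs
    · ring
    · simp
  rw [Finset.sum_congr rfl h2, Finset.sum_comm]
  have h3 : ∀ h ∈ c.divisors, ∑ j ∈ Finset.range c, G * ((ArithmeticFunction.moebius h : ℂ) *
        (jacobiSym h D : ℂ) * ((c / h : ℕ) : ℂ)) * F D (c / h) c n m j =
      if h ∣ n then G * c * ((ArithmeticFunction.moebius h : ℂ) *
        (jacobiSym h D : ℂ) * AA D (c / h) (n / h) m) else 0 := by
    intro h hh
    have hdvd := Nat.dvd_of_mem_divisors hh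
    have hh1 : 1 ≤ h := Nat.pos_of_mem_divisors hh
    have hg1 : 1 ≤ c / h := Nat.div_pos (Nat.le_of_dvd (by omega) hdvd) (by omega)
    have hcg : c / h * h = c := Nat.div_mul_cancel hdvd
    rw [← Finset.mul_sum]
    have := sum_F D (c / h) h n m hg1 hh1
    rw [hcg] at this
    rw [this]
    split_ifs with hd
    · have e : (c : ℂ) = ((c / h : ℕ) : ℂ) * h := by exact_mod_cast hcg.symm
      rw [e]
      ring
    · simp
  rw [Finset.sum_congr rfl h3, ← Finset.sum_filter, Finset.mul_sum]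
  refine Finset.sum_congr ?_ fun _ _ => rfl
  ext h
  simp only [Finset.mem_filter, Nat.mem_divisors, Nat.dvd_gcd_iff]
  constructor
  · rintro ⟨⟨h1, h2⟩, h3⟩
    exact ⟨⟨h1, h3⟩, Nat.gcd_ne_zero_left h2⟩
  · rintro ⟨⟨h1, h3⟩, h2⟩
    exact ⟨⟨h1, by omega⟩, h3⟩

end LC

end Pool.Agent.Lib.MP_7c5fb9_nt
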