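import Mathlib
import Pool.Agent.Lib.MP_7c5fb9_nt.LC.St
import Pool.Agent.Lib.MP_7c08ba_nt.RZ.Wk

set_option autoImplicit false

/-! Module Lip of project LC: a Lipschitz formula. -/

namespace Pool.Agent.Lib.MP_7c5fb9_nt

namespace LC

open MeasureTheory UpperHalfPlane Set Pool.Agent.Lib.MP_7c08ba_nt.RZ

namespace LipAux

/-- the binomial series -/
lemma binom {𝕜 : Type*} [NormedField 𝕜] [CompleteSpace 𝕜] (K : ℕ) (r w : 𝕜) (hw : w ≠ 0)
    (h : ‖r / w‖ < 1) :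
    HasSum (fun i : ℕ => (((i + K).choose K : ℕ) : 𝕜) * r ^ i * (w ^ (K + 1 + i))⁻¹)
      (((w - r) ^ (K + 1))⁻¹) := by
  have h1 := (hasSum_choose_mul_geometric_of_norm_lt_one K h).mul_left ((w ^ (K + 1))⁻¹)
  have e1 : (fun i : ℕ => (((i + K).choose K : ℕ) : 𝕜) * r ^ i * (w ^ (K + 1 + i))⁻¹) =
      fun i : ℕ => (w ^ (K + 1))⁻¹ * ((((i + K).choose K : ℕ) : 𝕜) * (r / w) ^ i) := by
    funext i
    rw [div_pow, pow_add w (K + 1) i, mul_inv]
    ring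
  have e2 : ((w - r) ^ (K + 1))⁻¹ = (w ^ (K + 1))⁻¹ * (1 / (1 - r / w) ^ (K + 1)) := by
    rw [one_div, ← mul_inv, ← mul_pow, mul_sub, mul_one, mul_div_cancel₀ r hw]
  rw [e1, e2]
  exact h1

/-- a lower bound for the Gamma function -/
lemma gamma_lb (k i : ℕ) (hk : 1 ≤ k) : Real.Gamma (k + 1 / 2) ≤ Real.Gamma (k + 1 / 2 + i) := by
  have hk1 : (1 : ℝ) ≤ k := by exact_mod_cast hk
  induction i with
  | zero => simp
  | succ i ih =>
    have h0 : (0 : ℝ) ≤ i := Nat.cast_nonneg i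
    have h1 : (0 : ℝ) < k + 1 / 2 + i := by positivity
    have h2 := Real.Gamma_add_one h1.ne'
    have h3 : (k : ℝ) + 1 / 2 + ((i + 1 : ℕ) : ℝ) = k + 1 / 2 + i + 1 := by push_cast; ring
    rw [h3, h2]
    have h4 := Real.Gamma_pos_of_pos h1
    nlinarith

lemma ph_summable (k : ℕ) (hk : 1 ≤ k) (X : ℝ) :
    Summable fun i : ℕ => (-(4 * Real.pi ^ 2 * X)) ^ i /
      (i.factorial * Real.Gamma (k + 1 / 2 + i)) := by
  have hG : 0 < Real.Gamma (k + 1 / 2) := Real.Gamma_pos_of_pos (by positivity)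
  have h1 := (Real.summable_pow_div_factorial (|4 * Real.pi ^ 2 * X|)).mul_left
    (Real.Gamma (k + 1 / 2))⁻¹
  refine Summable.of_norm_bounded h1 fun i => ?_
  have h2 := gamma_lb k i hk
  rw [norm_div, norm_mul, norm_pow, Real.norm_eq_abs, Real.norm_eq_abs, Real.norm_eq_abs, abs_neg,
    abs_of_nonneg (Nat.cast_nonneg (i.factorial) : (0 : ℝ) ≤ (i.factorial : ℝ)), abs_of_pos (hG.trans_le h2),
    ← div_eq_inv_mul, div_div]
  have : (0 : ℝ) < i.factorial := by exact_mod_cast Nat.factorial_pos i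
  gcongr

/-- the third statement -/
lemma ph_abs (k : ℕ) (hk : 1 ≤ k) (X : ℝ) : |Phk k X| ≤ Phk k (-|X|) := by
  unfold Phk
  have h1 := ph_summable k hk X
  have h2 := ph_summable k hk (-|X|)
  have h3 : ∀ i : ℕ, ‖(-(4 * Real.pi ^ 2 * X)) ^ i /
      (i.factorial * Real.Gamma (k + 1 / 2 + i))‖ = (-(4 * Real.pi ^ 2 * (-|X|))) ^ i /
      (i.factorial * Real.Gamma (k + 1 / 2 + i)) := by
    intro i
    have hG : 0 < Real.Gamma (k + 1 / 2 + i) := Real.Gamma_pos_of_pos (by positivity)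
    rw [norm_div, norm_mul, norm_pow, Real.norm_eq_abs, Real.norm_eq_abs, Real.norm_eq_abs,
      abs_neg, abs_of_nonneg (Nat.cast_nonneg (i.factorial) : (0 : ℝ) ≤ (i.factorial : ℝ)), abs_of_pos hG, abs_mul,
      abs_of_pos (show 0 < 4 * Real.pi ^ 2 by positivity)]
    congr 2
    ring
  have h4 := norm_tsum_le_tsum_norm (h2.congr fun i => (h3 i).symm)
  rw [Real.norm_eq_abs] at h4
  refine h4.trans (le_of_eq ?_)
  exact tsum_congr h3

/-- the duplication formula -/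
lemma dupl (K i : ℕ) : (((i + K).choose K : ℕ) : ℝ) * ((2 * Real.pi) ^ (2 * (K + 1 + i)) /
      ((2 * (K + 1 + i) - 1).factorial : ℝ)) =
    2 * Real.pi ^ (2 * (K + 1)) * Real.sqrt Real.pi / (K.factorial : ℝ) *
      ((Real.pi ^ 2) ^ i / (i.factorial * Real.Gamma (((K + 1 : ℕ) : ℝ) + 1 / 2 + i))) := by
  have h1 := Real.Gamma_mul_Gamma_add_half ((K + 1 + i : ℕ) : ℝ)
  have h2 : Real.Gamma ((K + 1 + i : ℕ) : ℝ) = ((K + i).factorial : ℝ) := by
    rw [show ((K + 1 + i : ℕ) : ℝ) = ((K + i : ℕ) : ℝ) + 1 by push_cast; ring,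
      Real.Gamma_nat_eq_factorial]
  have h3 : Real.Gamma (2 * ((K + 1 + i : ℕ) : ℝ)) = ((2 * (K + 1 + i) - 1).factorial : ℝ) := by
    rw [show 2 * ((K + 1 + i : ℕ) : ℝ) = ((2 * (K + 1 + i) - 1 : ℕ) : ℝ) + 1 by
      rw [Nat.cast_sub (by omega)]; push_cast; ring, Real.Gamma_nat_eq_factorial]
  have h4 : (2 : ℝ) ^ (1 - 2 * ((K + 1 + i : ℕ) : ℝ)) = 2 / 2 ^ (2 * (K + 1 + i)) := by
    rw [Real.rpow_sub (by norm_num), Real.rpow_one, ← Real.rpow_natCast]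
    push_cast
    rfl
  have h5 : ((K + 1 + i : ℕ) : ℝ) + 1 / 2 = ((K + 1 : ℕ) : ℝ) + 1 / 2 + i := by push_cast; ring
  rw [h2, h3, h4, h5] at h1
  have hG : 0 < Real.Gamma (((K + 1 : ℕ) : ℝ) + 1 / 2 + i) := Real.Gamma_pos_of_pos (by positivity)
  have hc : (((i + K).choose K : ℕ) : ℝ) * (i.factorial : ℝ) * (K.factorial : ℝ) =
      ((K + i).factorial : ℝ) := by
    have := Nat.add_choose_mul_factorial_mul_factorial i K
    rw [add_comm K i, ← this]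
    push_cast
    ring
  have hf1 : (0 : ℝ) < (2 * (K + 1 + i) - 1).factorial := by exact_mod_cast Nat.factorial_pos _
  have hf2 : (0 : ℝ) < K.factorial := by exact_mod_cast Nat.factorial_pos _
  have hf3 : (0 : ℝ) < i.factorial := by exact_mod_cast Nat.factorial_pos _
  have hpi : (Real.pi ^ 2) ^ i * Real.pi ^ (2 * (K + 1)) = Real.pi ^ (2 * (K + 1 + i)) := by
    rw [← pow_mul, ← pow_add]
    congr 1
    ring
  rw [← hc] at h1
  have h7 : (((i + K).choose K : ℕ) : ℝ) * (i.factorial : ℝ) * (K.factorial : ℝ) *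
      Real.Gamma (((K + 1 : ℕ) : ℝ) + 1 / 2 + i) * 2 ^ (2 * (K + 1 + i)) =
      2 * ((2 * (K + 1 + i) - 1).factorial : ℝ) * Real.sqrt Real.pi := by
    rw [h1]
    field_simp
  rw [mul_pow, div_mul_div_comm, mul_div_assoc', div_eq_div_iff hf1.ne' (by positivity)]
  calc _ = Real.pi ^ (2 * (K + 1 + i)) * ((((i + K).choose K : ℕ) : ℝ) * (i.factorial : ℝ) *
        (K.factorial : ℝ) * Real.Gamma (((K + 1 : ℕ) : ℝ) + 1 / 2 + i) *
        2 ^ (2 * (K + 1 + i))) := by ring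
    _ = _ := by rw [h7, ← hpi]; ring

/-- the formula of Lipschitz -/
lemma lips (q : ℕ) (hq : 1 ≤ q) (z : ℂ) (hz : 0 < z.im) :
    ∑' l : ℤ, ((z - l) ^ (2 * q))⁻¹ = (-1) ^ q * (2 * Real.pi) ^ (2 * q) /
      ((2 * q - 1).factorial : ℂ) *
      ∑' n : ℕ, ((n : ℂ) + 1) ^ (2 * q - 1) * ee (((n : ℂ) + 1) * z) := by
  obtain ⟨m, hm⟩ : ∃ m, 2 * q = m + 1 := ⟨2 * q - 1, by omega⟩
  have h := EisensteinSeries.qExpansion_identity_pnat (k := m) (by omega) ⟨z, hz⟩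
  simp only [one_div] at h
  have h0 : ∑' l : ℤ, ((z - l) ^ (2 * q))⁻¹ = ∑' l : ℤ, ((z + l) ^ (2 * q))⁻¹ := by
    rw [← (Equiv.neg ℤ).tsum_eq fun l : ℤ => ((z + l) ^ (2 * q))⁻¹]
    refine tsum_congr fun l => ?_
    simp only [Equiv.neg_apply, Int.cast_neg]
    rw [sub_eq_add_neg]
  rw [h0, hm, Nat.add_sub_cancel]
  refine h.trans ?_
  rw [tsum_pnat_eq_tsum_succ (f := fun n : ℕ => (n : ℂ) ^ m *
    Complex.exp (2 * Real.pi * Complex.I * z) ^ n)]
  have hC : ((-2 * (Real.pi : ℂ) * Complex.I) ^ (m + 1) / (m.factorial : ℂ)) =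
      (-1) ^ q * (2 * Real.pi) ^ (m + 1) / (m.factorial : ℂ) := by
    rw [← hm, pow_mul, pow_mul (2 * (Real.pi : ℂ))]
    rw [show (-2 * (Real.pi : ℂ) * Complex.I) ^ 2 = -1 * (2 * Real.pi) ^ 2 by
      rw [mul_pow, Complex.I_sq]; ring, mul_pow]
  rw [hC]
  congr 1
  apply tsum_congr
  intro n
  have h2 : ee (((n : ℂ) + 1) * z) = Complex.exp (2 * Real.pi * Complex.I * z) ^ (n + 1) := by
    have := wk_ee_nat (n + 1) z
    push_cast at this
    rw [this]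
    rfl
  rw [h2]
  push_cast
  rfl

/-- the terms of the double series -/
noncomputable def t (K : ℕ) (r : ℝ) (z : ℂ) (l : ℤ) (i : ℕ) : ℂ :=
  (((i + K).choose K : ℕ) : ℂ) * (r : ℂ) ^ i * (((z - l) ^ 2) ^ (K + 1 + i))⁻¹

lemma norm_t (K : ℕ) (r : ℝ) (hr : 0 ≤ r) (z : ℂ) (l : ℤ) (i : ℕ) : ‖t K r z l i‖ =
    (((i + K).choose K : ℕ) : ℝ) * r ^ i * ((‖z - l‖ ^ 2) ^ (K + 1 + i))⁻¹ := by
  unfold t
  rw [norm_mul, norm_mul, norm_inv, norm_pow, norm_pow, norm_pow, Complex.norm_natCast,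
    Complex.norm_real, Real.norm_eq_abs, abs_of_nonneg hr]

lemma im_le (z : ℂ) (l : ℤ) (hz : 0 < z.im) : z.im ^ 2 ≤ ‖z - l‖ ^ 2 := by
  have h1 : z.im ≤ ‖z - l‖ := by
    have := Complex.abs_im_le_norm (z - l)
    simp only [Complex.sub_im, Complex.intCast_im, sub_zero] at this
    exact (le_abs_self _).trans this
  exact pow_le_pow_left₀ hz.le h1 2

lemma r_lt {r : ℝ} {z : ℂ} (hr : 0 ≤ r) (hz : Real.sqrt r < z.im) : 0 < z.im ∧ r < z.im ^ 2 := by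
  have h0 : 0 < z.im := (Real.sqrt_nonneg r).trans_lt hz
  refine ⟨h0, ?_⟩
  exact (Real.sqrt_lt' h0).1 hz

lemma hasSum_norm_t (K : ℕ) {r : ℝ} {z : ℂ} (hr : 0 ≤ r) (hz : Real.sqrt r < z.im) (l : ℤ) :
    HasSum (fun i => ‖t K r z l i‖) (((‖z - l‖ ^ 2 - r) ^ (K + 1))⁻¹) := by
  obtain ⟨h0, h1⟩ := r_lt hr hz
  have h2 := im_le z l h0
  have h3 : 0 < ‖z - l‖ ^ 2 := (by positivity : 0 < z.im ^ 2).trans_le h2
  simp_rw [norm_t K r hr]
  refine binom K r _ h3.ne' ?_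
  rw [Real.norm_eq_abs, abs_of_nonneg (by positivity), div_lt_one h3]
  linarith

lemma hasSum_t (K : ℕ) {r : ℝ} {z : ℂ} (hr : 0 ≤ r) (hz : Real.sqrt r < z.im) (l : ℤ) :
    HasSum (fun i => t K r z l i) ((((z - l) ^ 2 - r) ^ (K + 1))⁻¹) := by
  obtain ⟨h0, h1⟩ := r_lt hr hz
  have h2 := im_le z l h0
  have h3 : 0 < ‖z - l‖ ^ 2 := (by positivity : 0 < z.im ^ 2).trans_le h2
  have h4 : (z - l) ^ 2 ≠ 0 := by
    intro h
    rw [← norm_pow, h, norm_zero] at h3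
    exact lt_irrefl _ h3
  refine binom K (r : ℂ) _ h4 ?_
  rw [norm_div, norm_pow, Complex.norm_real, Real.norm_eq_abs, abs_of_nonneg hr, div_lt_one h3]
  linarith

lemma summable_l (K : ℕ) {r : ℝ} {z : ℂ} (hr : 0 ≤ r) (hz : Real.sqrt r < z.im) :
    Summable fun l : ℤ => (((‖z - l‖ ^ 2 - r) ^ (K + 1))⁻¹) := by
  obtain ⟨h0, h1⟩ := r_lt hr hz
  have hy2 : 0 < z.im ^ 2 := by positivity
  set c := 1 - r / z.im ^ 2 with hc
  have hc0 : 0 < c := by
    rw [hc, sub_pos, div_lt_one hy2]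
    exact h1
  have h5 : Summable fun l : ℤ => ((‖z - l‖ ^ 2) ^ (K + 1))⁻¹ := by
    have h6 := (EisensteinSeries.linear_right_summable z 1 (k := ((2 * (K + 1) : ℕ) : ℤ))
      (by push_cast; omega)).norm
    have h7 := (Equiv.neg ℤ).summable_iff.2 h6
    refine h7.congr fun l => ?_
    simp only [Function.comp, Equiv.neg_apply, Int.cast_neg, Int.cast_one, one_mul, zpow_natCast,
      norm_inv, norm_pow]
    rw [← pow_mul, sub_eq_add_neg]
  refine Summable.of_nonneg_of_le (fun l => ?_) (fun l => ?_) (h5.mul_left ((c ^ (K + 1))⁻¹))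
  · have h2 := im_le z l h0
    have : 0 ≤ ‖z - l‖ ^ 2 - r := by linarith
    positivity
  · have h2 := im_le z l h0
    have h3 : 0 < ‖z - l‖ ^ 2 := hy2.trans_le h2
    have h4 : c * ‖z - l‖ ^ 2 ≤ ‖z - l‖ ^ 2 - r := by
      have : r / z.im ^ 2 * ‖z - l‖ ^ 2 ≥ r := by
        calc r = r / z.im ^ 2 * z.im ^ 2 := by field_simp
          _ ≤ _ := by gcongr
      rw [hc, sub_mul, one_mul]
      linarith
    rw [← mul_inv, ← mul_pow]
    have : 0 < c * ‖z - l‖ ^ 2 := by positivity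
    gcongr

lemma summable_t (K : ℕ) {r : ℝ} {z : ℂ} (hr : 0 ≤ r) (hz : Real.sqrt r < z.im) :
    Summable (fun p : ℤ × ℕ => ‖t K r z p.1 p.2‖) := by
  rw [summable_prod_of_nonneg (fun _ => norm_nonneg _)]
  refine ⟨fun l => (hasSum_norm_t K hr hz l).summable, ?_⟩
  refine (summable_l K hr hz).congr fun l => ?_
  exact (hasSum_norm_t K hr hz l).tsum_eq.symm

/-- the terms of the second double series -/
noncomputable def u (K : ℕ) (r : ℝ) (z : ℂ) (i n : ℕ) : ℂ :=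
  (((i + K).choose K : ℕ) : ℂ) * (r : ℂ) ^ i * ((-1) ^ (K + 1 + i) *
    (2 * Real.pi) ^ (2 * (K + 1 + i)) / ((2 * (K + 1 + i) - 1).factorial : ℂ) *
      (((n : ℂ) + 1) ^ (2 * (K + 1 + i) - 1) * ee (((n : ℂ) + 1) * z)))

lemma tsum_t (K : ℕ) (r : ℝ) (z : ℂ) (hz : 0 < z.im) (i : ℕ) :
    ∑' l : ℤ, t K r z l i = ∑' n : ℕ, u K r z i n := by
  unfold t u
  rw [tsum_mul_left, tsum_mul_left, tsum_mul_left, ← lips (K + 1 + i) (by omega) z hz]
  simp_rw [← pow_mul]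

lemma norm_u (K : ℕ) (r : ℝ) (hr : 0 ≤ r) (z : ℂ) (i n : ℕ) : ‖u K r z i n‖ =
    (((i + K).choose K : ℕ) : ℝ) * r ^ i * ((2 * Real.pi) ^ (2 * (K + 1 + i)) /
      ((2 * (K + 1 + i) - 1).factorial : ℝ) * (((n : ℝ) + 1) ^ (2 * (K + 1 + i) - 1) *
        Real.exp (-(2 * Real.pi * (n + 1) * z.im)))) := by
  unfold u
  have h1 : ‖(n : ℂ) + 1‖ = (n : ℝ) + 1 := by
    have := Complex.norm_natCast (n + 1)
    push_cast at this
    exact this
  have h2 : (((n : ℂ) + 1) * z).im = ((n : ℝ) + 1) * z.im := by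
    simp [Complex.mul_im]
  have h3 : ‖(2 : ℂ) * (Real.pi : ℂ)‖ = 2 * Real.pi := by
    rw [norm_mul, Complex.norm_real, Real.norm_eq_abs, abs_of_pos Real.pi_pos]
    norm_num
  simp only [norm_mul, norm_div, norm_pow, Complex.norm_natCast, Complex.norm_real,
    Real.norm_eq_abs, abs_of_nonneg hr, norm_neg, norm_one, one_pow, one_mul, h1, wk_ee_norm, h2]
  rw [← h3, norm_mul, Complex.norm_real, Real.norm_eq_abs, mul_assoc (‖(2 : ℂ)‖ * |Real.pi|)]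

/-- along the imaginary axis the terms have constant signs -/
lemma u_im (K : ℕ) (r : ℝ) (hr : 0 ≤ r) (y : ℝ) (z : ℂ) (hz : z.im = y) (i n : ℕ) :
    u K r (y * Complex.I) i n = (-1) ^ (K + 1 + i) * ((‖u K r z i n‖ : ℝ) : ℂ) := by
  rw [norm_u K r hr, hz]
  unfold u
  have h1 : ee (((n : ℂ) + 1) * (y * Complex.I)) =
      ((Real.exp (-(2 * Real.pi * (n + 1) * y)) : ℝ) : ℂ) := by
    unfold ee
    rw [Complex.ofReal_exp]
    congr 1
    push_cast
    linear_combination (2 * Real.pi * (n + 1) * y : ℂ) * Complex.I_sq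
  rw [h1]
  push_cast
  ring

lemma summable_u1 (K : ℕ) (r : ℝ) (z : ℂ) (hz : 0 < z.im) (i : ℕ) :
    Summable fun n => ‖u K r z i n‖ := by
  unfold u
  simp_rw [← mul_assoc]
  simp_rw [mul_assoc (((((i + K).choose K : ℕ) : ℂ) * (r : ℂ) ^ i * ((-1) ^ (K + 1 + i) *
    (2 * Real.pi) ^ (2 * (K + 1 + i)) / ((2 * (K + 1 + i) - 1).factorial : ℂ))))]
  simp_rw [norm_mul (((((i + K).choose K : ℕ) : ℂ) * (r : ℂ) ^ i * ((-1) ^ (K + 1 + i) *
    (2 * Real.pi) ^ (2 * (K + 1 + i)) / ((2 * (K + 1 + i) - 1).factorial : ℂ))))]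
  exact (wk_geo _ z hz).mul_left _

lemma summable_u (K : ℕ) {r : ℝ} {z : ℂ} (hr : 0 ≤ r) (hz : Real.sqrt r < z.im) :
    Summable (fun p : ℕ × ℕ => ‖u K r z p.1 p.2‖) := by
  obtain ⟨h0, h1⟩ := r_lt hr hz
  rw [summable_prod_of_nonneg (fun _ => norm_nonneg _)]
  refine ⟨fun i => summable_u1 K r z h0 i, ?_⟩
  set w : ℂ := z.im * Complex.I with hw
  have hwim : w.im = z.im := by simp [hw]
  have hw' : Real.sqrt r < w.im := by rw [hwim]; exact hz
  have h2 := (summable_t K hr hw').prod_symm.prod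
  refine Summable.of_nonneg_of_le (fun i => tsum_nonneg fun n => norm_nonneg _) (fun i => ?_) h2
  have h3 : ∑' n, u K r w i n = (-1) ^ (K + 1 + i) * ((∑' n, ‖u K r z i n‖ : ℝ) : ℂ) := by
    rw [Complex.ofReal_tsum, ← tsum_mul_left]
    exact tsum_congr fun n => u_im K r hr z.im z rfl i n
  have h4 : ∑' n, ‖u K r z i n‖ = ‖∑' n, u K r w i n‖ := by
    rw [h3, norm_mul, norm_pow, norm_neg, norm_one, one_pow, one_mul, Complex.norm_real,
      Real.norm_eq_abs, abs_of_nonneg (tsum_nonneg fun n => norm_nonneg _)]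
  show ∑' n, ‖u K r z i n‖ ≤ _
  rw [h4, ← tsum_t K r w (by rw [hwim]; exact h0) i]
  have h5 : Summable fun l : ℤ => ‖t K r w l i‖ :=
    (summable_t K hr hw').prod_symm.prod_factor i
  exact norm_tsum_le_tsum_norm h5

/-- the terms with the entire function -/
lemma u_eq (K : ℕ) (hK : Even (K + 1)) (r : ℝ) (z : ℂ) (i n : ℕ) : u K r z i n =
    ((2 * Real.pi ^ (2 * (K + 1)) * Real.sqrt Real.pi / (K.factorial : ℝ) *
      ((n : ℝ) + 1) ^ (2 * (K + 1) - 1) : ℝ) : ℂ) * ee (((n : ℂ) + 1) * z) *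
      (((-(4 * Real.pi ^ 2 * (r * (n + 1) ^ 2 / 4))) ^ i /
      (i.factorial * Real.Gamma (((K + 1 : ℕ) : ℝ) + 1 / 2 + i)) : ℝ) : ℂ) := by
  have h1 := dupl K i
  have h2 : ((-1 : ℝ)) ^ (K + 1 + i) = (-1) ^ i := by rw [pow_add, hK.neg_one_pow, one_mul]
  have h3 : ((n : ℝ) + 1) ^ (2 * (K + 1 + i) - 1) =
      ((n : ℝ) + 1) ^ (2 * (K + 1) - 1) * (((n : ℝ) + 1) ^ 2) ^ i := by
    rw [← pow_mul, ← pow_add]
    congr 1
    omega
  have key : (((i + K).choose K : ℕ) : ℝ) * r ^ i * ((-1) ^ (K + 1 + i) *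
    (2 * Real.pi) ^ (2 * (K + 1 + i)) / ((2 * (K + 1 + i) - 1).factorial : ℝ) *
      (((n : ℝ) + 1) ^ (2 * (K + 1 + i) - 1))) =
      (2 * Real.pi ^ (2 * (K + 1)) * Real.sqrt Real.pi / (K.factorial : ℝ) *
      ((n : ℝ) + 1) ^ (2 * (K + 1) - 1)) * ((-(4 * Real.pi ^ 2 * (r * (n + 1) ^ 2 / 4))) ^ i /
      (i.factorial * Real.Gamma (((K + 1 : ℕ) : ℝ) + 1 / 2 + i))) := by
    rw [h2, h3]
    have h4 : (-(4 * Real.pi ^ 2 * (r * ((n : ℝ) + 1) ^ 2 / 4))) ^ i =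
        (-1) ^ i * r ^ i * (((n : ℝ) + 1) ^ 2) ^ i * (Real.pi ^ 2) ^ i := by
      rw [← mul_pow, ← mul_pow, ← mul_pow]
      congr 1
      ring
    rw [h4]
    calc _ = ((((i + K).choose K : ℕ) : ℝ) * ((2 * Real.pi) ^ (2 * (K + 1 + i)) /
      ((2 * (K + 1 + i) - 1).factorial : ℝ))) * (r ^ i * (-1) ^ i *
        (((n : ℝ) + 1) ^ (2 * (K + 1) - 1) * (((n : ℝ) + 1) ^ 2) ^ i)) := by ring
      _ = _ := by rw [h1]; ring
  have key' := congrArg (fun x : ℝ => (x : ℂ)) key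
  beta_reduce at key'
  calc u K r z i n = (((((i + K).choose K : ℕ) : ℝ) * r ^ i * ((-1) ^ (K + 1 + i) *
    (2 * Real.pi) ^ (2 * (K + 1 + i)) / ((2 * (K + 1 + i) - 1).factorial : ℝ) *
      (((n : ℝ) + 1) ^ (2 * (K + 1 + i) - 1))) : ℝ) : ℂ) * ee (((n : ℂ) + 1) * z) := by
        unfold u
        push_cast
        ring
    _ = _ := by
      rw [key']
      push_cast
      ring

end LipAux

open LipAux in
theorem stLip : StLip := by
  intro k r z hk he hr hz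
  obtain ⟨K, rfl⟩ : ∃ K, k = K + 1 := ⟨k - 1, by omega⟩
  obtain ⟨h0, h1⟩ := r_lt hr hz
  have hsu := summable_u K hr hz
  have hst := summable_t K hr hz
  refine ⟨?_, ?_, fun X => ph_abs _ (by omega) X, ?_⟩
  · have h2 : Summable fun l : ℤ => ∑' i, ‖t K r z l i‖ := hst.prod
    refine Summable.of_nonneg_of_le (fun l => norm_nonneg _) (fun l => ?_) h2
    rw [← (hasSum_t K hr hz l).tsum_eq]
    exact norm_tsum_le_tsum_norm (hasSum_norm_t K hr hz l).summable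
  · have h2 : Summable fun n : ℕ => ∑' i, ‖u K r z i n‖ := hsu.prod_symm.prod
    set c : ℝ := 2 * Real.pi ^ (2 * (K + 1)) * Real.sqrt Real.pi / (K.factorial : ℝ) with hc
    have hc0 : 0 < c := by
      have := Real.pi_pos
      have := Real.sqrt_pos.2 Real.pi_pos
      positivity
    have h3 := h2.mul_left c⁻¹
    refine h3.congr fun n => ?_
    have h4 : ∀ i, ‖u K r z i n‖ = (c * ((n : ℝ) + 1) ^ (2 * (K + 1) - 1) *
        Real.exp (-(2 * Real.pi * (n + 1) * z.im))) *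
        ((-(4 * Real.pi ^ 2 * (-(r * (n + 1) ^ 2 / 4)))) ^ i /
      (i.factorial * Real.Gamma (((K + 1 : ℕ) : ℝ) + 1 / 2 + i))) := by
      intro i
      have hG : 0 < Real.Gamma (((K + 1 : ℕ) : ℝ) + 1 / 2 + i) :=
        Real.Gamma_pos_of_pos (by positivity)
      have h5 : (((n : ℂ) + 1) * z).im = ((n : ℝ) + 1) * z.im := by
        simp [Complex.mul_im]
      rw [u_eq K he, norm_mul, norm_mul, Complex.norm_real, Complex.norm_real, wk_ee_norm, h5,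
        Real.norm_eq_abs, Real.norm_eq_abs, abs_of_pos (by positivity), abs_div, abs_mul,
        abs_of_pos hG, abs_pow, abs_neg, abs_of_nonneg (Nat.cast_nonneg (i.factorial) : (0 : ℝ) ≤ (i.factorial : ℝ)),
        abs_of_nonneg (by positivity : 0 ≤ 4 * Real.pi ^ 2 * (r * ((n : ℝ) + 1) ^ 2 / 4))]
      rw [show -(4 * Real.pi ^ 2 * (-(r * ((n : ℝ) + 1) ^ 2 / 4))) =
        4 * Real.pi ^ 2 * (r * ((n : ℝ) + 1) ^ 2 / 4) by ring,
        show 2 * Real.pi * (((n : ℝ) + 1) * z.im) = 2 * Real.pi * (n + 1) * z.im by ring]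
    rw [tsum_congr h4, tsum_mul_left]
    unfold Phk
    field_simp
  · have h2 : Summable (Function.uncurry fun (l : ℤ) (i : ℕ) => t K r z l i) := hst.of_norm
    have h3 : Summable (Function.uncurry fun (i : ℕ) (n : ℕ) => u K r z i n) := hsu.of_norm
    calc ∑' l : ℤ, (((z - l) ^ 2 - r) ^ (K + 1))⁻¹ = ∑' l : ℤ, ∑' i, t K r z l i :=
          tsum_congr fun l => (hasSum_t K hr hz l).tsum_eq.symm
      _ = ∑' i, ∑' l : ℤ, t K r z l i := h2.tsum_comm.symm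
      _ = ∑' i, ∑' n, u K r z i n := tsum_congr fun i => tsum_t K r z h0 i
      _ = ∑' n, ∑' i, u K r z i n := h3.tsum_comm.symm
      _ = _ := by
        rw [← tsum_mul_left]
        refine tsum_congr fun n => ?_
        rw [tsum_congr fun i => u_eq K he r z i n, tsum_mul_left, ← Complex.ofReal_tsum]
        unfold Phk
        push_cast
        ring

end LC

end Pool.Agent.Lib.MP_7c5fb9_nt
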