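import Mathlib
import Pool.Agent.Lib.MP_7c5fb9_nt.LC.St
import Pool.Agent.Lib.MP_7c5fb9_nt.LO.Form
import Pool.Agent.Lib.MP_7c5fb9_nt.LO.Discr

set_option autoImplicit false

/-!
Project LC: binary forms and oriented bases of the ideals of a real quadratic field.
-/

namespace Pool.Agent.Lib.MP_7c5fb9_nt

namespace LC

open NumberField
open LO (Mat disc act mir FormOf)
open LO.FormAux (Gen)
open scoped MatrixGroups nonZeroDivisors

namespace NaAAux

/-- Real quadratic fields of discriminant `D` congruent to `1` modulo `4`. -/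
structure Fld (D : ℕ) (K : Type) [Field K] [NumberField K] (s : K) : Prop where
  hF : Module.finrank ℚ K = 2
  hs : s ^ 2 = ((D : ℤ) : K)
  sf : Squarefree (D : ℤ).natAbs
  h1 : 1 < (D : ℤ).natAbs
  h4 : (D : ℤ) % 4 = 1

section coe

variable {K : Type} [Field K]

theorem cadd (x y : 𝓞 K) : ((x + y : 𝓞 K) : K) = x + y := rfl

theorem csub (x y : 𝓞 K) : ((x - y : 𝓞 K) : K) = x - y := rfl

theorem cneg (x : 𝓞 K) : ((-x : 𝓞 K) : K) = -x := rfl

theorem cmul (x y : 𝓞 K) : ((x * y : 𝓞 K) : K) = x * y := rfl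

theorem czero : ((0 : 𝓞 K) : K) = 0 := rfl

theorem cint (n : ℤ) : ((n : 𝓞 K) : K) = n := map_intCast (algebraMap (𝓞 K) K) n

end coe

variable {K : Type} [Field K] [NumberField K] {s : K} {D : ℕ}

theorem indZ (h : Fld D K s) (a b : ℤ) (e : (a : K) + b * s = 0) : a = 0 ∧ b = 0 := by
  have e' : (((a : ℤ) : ℚ) : K) + ((b : ℤ) : ℚ) * s = 0 := by
    push_cast
    exact e
  obtain ⟨h1, h2⟩ := LO.DiscrAux.ind h.hs h.sf h.h1 _ _ e'
  exact ⟨by exact_mod_cast h1, by exact_mod_cast h2⟩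

theorem Q0_ne (h : Fld D K s) (Q : LO.Frm) (hQ : disc Q = D) : Q 0 ≠ 0 := by
  intro h0
  have h1 : ((Q 1 : ℤ) : K) ^ 2 = s ^ 2 := by
    rw [h.hs, ← hQ, disc, h0]
    push_cast
    ring
  have h2 : (s - Q 1) * (s + Q 1) = 0 := by linear_combination -h1
  rcases mul_eq_zero.mp h2 with h3 | h3
  · have := (indZ h (-Q 1) 1 (by push_cast; linear_combination h3)).2
    omega
  · have := (indZ h (Q 1) 1 (by push_cast; linear_combination h3)).2
    omega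

theorem coordsO (h : Fld D K s) : ∃ ω : 𝓞 K, 2 * (ω : K) = 1 + s ∧
    ∀ z : 𝓞 K, ∃ m n : ℤ, z = (m : 𝓞 K) + (n : 𝓞 K) * ω := by
  obtain ⟨ω, b, hω, hb0, hb1⟩ := LO.DiscrAux.exists_ibasis h.hF h.hs h.sf h.h1 h.h4
  refine ⟨ω, hω, fun z => ⟨b.repr z 0, b.repr z 1, ?_⟩⟩
  have h2 := b.sum_repr z
  rw [Fin.sum_univ_two, hb0, hb1, zsmul_eq_mul, zsmul_eq_mul, mul_one] at h2
  exact h2.symm

omit [NumberField K] in
theorem gen_span {ω x y : 𝓞 K} (hz : ∀ z : 𝓞 K, ∃ m n : ℤ, z = (m : 𝓞 K) + (n : 𝓞 K) * ω)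
    (hx : ∃ m n : ℤ, ω * x = (m : 𝓞 K) * x + (n : 𝓞 K) * y)
    (hy : ∃ m n : ℤ, ω * y = (m : 𝓞 K) * x + (n : 𝓞 K) * y) :
    Gen (Ideal.span {x, y}) x y := by
  intro z
  rw [Ideal.mem_span_pair]
  constructor
  · rintro ⟨a, b, rfl⟩
    obtain ⟨a1, a2, rfl⟩ := hz a
    obtain ⟨b1, b2, rfl⟩ := hz b
    obtain ⟨m, n, hx⟩ := hx
    obtain ⟨m', n', hy⟩ := hy
    refine ⟨a1 + a2 * m + b2 * m', b1 + a2 * n + b2 * n', ?_⟩
    push_cast
    linear_combination (a2 : 𝓞 K) * hx + (b2 : 𝓞 K) * hy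
  · rintro ⟨m, n, rfl⟩
    exact ⟨m, n, rfl⟩

/-- the ideal with the basis `Q 0`, `(Q 1 + s) / 2` -/
theorem exists_or (h : Fld D K s) (Q : LO.Frm) (hQ : disc Q = D) : ∃ c, FormOr s c Q := by
  obtain ⟨ω, hω, hz⟩ := coordsO h
  have hA := Q0_ne h Q hQ
  obtain ⟨k, hk⟩ : ∃ k, Q 1 = 2 * k + 1 := by
    have h4 := h.h4
    rcases Int.even_or_odd (Q 1) with he | ho
    · exfalso
      obtain ⟨j, hj⟩ := he
      have h5 : (D : ℤ) = 4 * (j ^ 2 - Q 0 * Q 2) := by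
        rw [← hQ, disc, hj]
        ring
      omega
    · exact ho
  have hsq : s ^ 2 = (Q 1 : K) ^ 2 - 4 * Q 0 * Q 2 := by
    rw [h.hs, ← hQ, disc]
    push_cast
    ring
  have hy : 2 * ((ω + (k : 𝓞 K) : 𝓞 K) : K) = Q 1 + s := by
    rw [hk, cadd, cint]
    push_cast
    linear_combination hω
  have hy2 : (ω + (k : 𝓞 K)) * (ω + (k : 𝓞 K)) =
      (Q 1 : 𝓞 K) * (ω + (k : 𝓞 K)) - (Q 0 : 𝓞 K) * (Q 2 : 𝓞 K) := by
    apply RingOfIntegers.ext
    have h2 : (4 : K) ≠ 0 := by norm_num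
    rw [csub, cmul, cmul, cmul, cint, cint, cint]
    apply mul_left_cancel₀ h2
    generalize ((ω + (k : 𝓞 K) : 𝓞 K) : K) = Y at hy ⊢
    linear_combination (2 * Y + (Q 1 : K) + s - 2 * (Q 1 : K)) * hy + hsq
  have g : Gen (Ideal.span {(Q 0 : 𝓞 K), ω + (k : 𝓞 K)}) (Q 0 : 𝓞 K) (ω + (k : 𝓞 K)) := by
    refine gen_span hz ⟨-k, Q 0, ?_⟩ ⟨-Q 2, Q 1 - k, ?_⟩
    · push_cast
      ring
    · push_cast
      linear_combination hy2
  have hA' : (Q 0 : 𝓞 K) ≠ 0 := by exact_mod_cast hA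
  have hI : Ideal.span {(Q 0 : 𝓞 K), ω + (k : 𝓞 K)} ≠ ⊥ := by
    intro hb
    have h6 : (Q 0 : 𝓞 K) ∈ Ideal.span {(Q 0 : 𝓞 K), ω + (k : 𝓞 K)} :=
      Ideal.subset_span (by simp)
    rw [hb, Ideal.mem_bot] at h6
    exact hA' h6
  refine ⟨ClassGroup.mk0 ⟨_, mem_nonZeroDivisors_of_ne_zero hI⟩, ⟨_,
    mem_nonZeroDivisors_of_ne_zero hI⟩, (Q 0 : 𝓞 K), ω + (k : 𝓞 K), rfl, hA', g, ?_⟩
  rw [cint]
  linear_combination (Q 0 : K) * hy

omit [NumberField K] in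
theorem span_eq (I I' : Ideal (𝓞 K)) (x y x' y' : 𝓞 K) (g : Gen I x y)
    (g' : Gen I' x' y') (e : x' * y = x * y') : Ideal.span {x'} * I = Ideal.span {x} * I' := by
  ext z
  rw [Ideal.mem_span_singleton_mul, Ideal.mem_span_singleton_mul]
  constructor
  · rintro ⟨w, hw, rfl⟩
    obtain ⟨m, n, rfl⟩ := (g w).1 hw
    refine ⟨_, (g' _).2 ⟨m, n, rfl⟩, ?_⟩
    linear_combination -(n : 𝓞 K) * e
  · rintro ⟨w, hw, rfl⟩
    obtain ⟨m, n, rfl⟩ := (g' w).1 hw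
    refine ⟨_, (g _).2 ⟨m, n, rfl⟩, ?_⟩
    linear_combination (n : 𝓞 K) * e

theorem uniq_or (h : Fld D K s) (Q : LO.Frm) (hQ : disc Q = D)
    (c c' : ClassGroup (𝓞 K)) (hc : FormOr s c Q) (hc' : FormOr s c' Q) : c = c' := by
  obtain ⟨I, x, y, rfl, hx, g, e⟩ := hc
  obtain ⟨I', x', y', rfl, hx', g', e'⟩ := hc'
  rw [ClassGroup.mk0_eq_mk0_iff]
  refine ⟨x', x, hx', hx, span_eq _ _ x y x' y' g g' ?_⟩
  have hA : (Q 0 : K) ≠ 0 := by exact_mod_cast Q0_ne h Q hQ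
  have h2 : (2 * (Q 0 : K)) ≠ 0 := mul_ne_zero two_ne_zero hA
  apply RingOfIntegers.ext
  rw [cmul, cmul]
  apply mul_left_cancel₀ h2
  linear_combination (x' : K) * e - (x : K) * e'

/-- change of the basis -/
theorem key {F : Type} [Field F] [CharZero F] {A B C p q r t ε x y s : F} (hA : A ≠ 0)
    (h : 2 * A * y = (B + s) * x) (hs : s ^ 2 = B ^ 2 - 4 * A * C)
    (hd : (p * t - q * r) * ε = 1) :
    2 * (ε * (A * p ^ 2 + B * (p * r) + C * r ^ 2)) * (q * x + t * y) =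
      (ε * (2 * A * (p * q) + B * (p * t + q * r) + 2 * C * (r * t)) + s) * (p * x + r * y) := by
  apply mul_left_cancel₀ (mul_ne_zero (two_ne_zero) hA)
  linear_combination (2 * (ε * (A * p ^ 2 + B * (p * r) + C * r ^ 2)) * t -
    (ε * (2 * A * (p * q) + B * (p * t + q * r) + 2 * C * (r * t)) + s) * r) * h +
    x * ((B ^ 2 - 4 * A * C) * r + s * (2 * A * p + B * r)) * hd - x * r * hs

theorem lin_ind (h : Fld D K s) (Q : LO.Frm) (hQ : disc Q = D) {x y : 𝓞 K} (hx : x ≠ 0)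
    (e : 2 * (Q 0 : K) * (y : K) = ((Q 1 : K) + s) * (x : K)) (m n : ℤ)
    (h0 : (m : 𝓞 K) * x + (n : 𝓞 K) * y = 0) : m = 0 ∧ n = 0 := by
  have hx' : (x : K) ≠ 0 := by
    intro h1
    exact hx (RingOfIntegers.ext (by rw [h1, czero]))
  have h1 : (m : K) * x + n * y = 0 := by
    have := congrArg (fun z : 𝓞 K => (z : K)) h0
    simp only [cadd, cmul, cint, czero] at this
    exact this
  have h2 : ((2 * Q 0 * m + n * Q 1 : ℤ) : K) + ((n : ℤ) : K) * s = 0 := by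
    push_cast
    apply mul_right_cancel₀ hx'
    linear_combination 2 * (Q 0 : K) * h1 - (n : K) * e
  obtain ⟨h3, h4⟩ := indZ h _ _ h2
  subst h4
  refine ⟨?_, rfl⟩
  have hA := Q0_ne h Q hQ
  have h5 : Q 0 * m = 0 := by linarith
  exact (mul_eq_zero.mp h5).resolve_left hA

/-- forms in another basis -/
theorem change (h : Fld D K s) (Q Q' : LO.Frm) (hQ : disc Q = D) (c : ClassGroup (𝓞 K))
    (hc : FormOr s c Q) (p q r t ε : ℤ) (hd : (p * t - q * r) * ε = 1)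
    (h0 : Q' 0 = ε * (Q 0 * p ^ 2 + Q 1 * (p * r) + Q 2 * r ^ 2))
    (h1 : Q' 1 = ε * (2 * Q 0 * (p * q) + Q 1 * (p * t + q * r) + 2 * Q 2 * (r * t))) :
    FormOr s c Q' := by
  obtain ⟨I, x, y, rfl, hx, g, e⟩ := hc
  have hA : (Q 0 : K) ≠ 0 := by exact_mod_cast Q0_ne h Q hQ
  have hsq : s ^ 2 = (Q 1 : K) ^ 2 - 4 * Q 0 * Q 2 := by
    rw [h.hs, ← hQ, disc]
    push_cast
    ring
  have hd' : ((p : K) * t - q * r) * ε = 1 := by exact_mod_cast hd
  have k := key hA e hsq hd'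
  refine ⟨I, (p : 𝓞 K) * x + (r : 𝓞 K) * y, (q : 𝓞 K) * x + (t : 𝓞 K) * y, rfl, ?_, ?_, ?_⟩
  · intro h2
    obtain ⟨h3, h4⟩ := lin_ind h Q hQ hx e p r h2
    subst h3 h4
    simp at hd
  · intro z
    rw [g z]
    constructor
    · rintro ⟨m, n, rfl⟩
      refine ⟨ε * (t * m - q * n), ε * (-r * m + p * n), ?_⟩
      have hd2 : ((p : 𝓞 K) * t - q * r) * ε = 1 := by exact_mod_cast hd
      push_cast
      linear_combination (-(m : 𝓞 K) * x - (n : 𝓞 K) * y) * hd2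
    · rintro ⟨m, n, rfl⟩
      refine ⟨p * m + q * n, r * m + t * n, ?_⟩
      push_cast
      ring
  · rw [h0, h1]
    simp only [cadd, cmul, cint]
    push_cast
    exact k

/-- the form is determined by the root -/
theorem det_or (h : Fld D K s) (Q Q' : LO.Frm) (hQ : disc Q = D) (hQ' : disc Q' = D) {x y : K}
    (hx : x ≠ 0) (e : 2 * (Q 0 : K) * y = ((Q 1 : K) + s) * x)
    (e' : 2 * (Q' 0 : K) * y = ((Q' 1 : K) + s) * x) : Q = Q' := by
  have h1 : ((Q' 0 * Q 1 - Q 0 * Q' 1 : ℤ) : K) + ((Q' 0 - Q 0 : ℤ) : K) * s = 0 := by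
    push_cast
    apply mul_right_cancel₀ hx
    linear_combination (Q 0 : K) * e' - (Q' 0 : K) * e
  obtain ⟨h2, h3⟩ := indZ h _ _ h1
  have hA := Q0_ne h Q hQ
  have h4 : Q 0 = Q' 0 := by omega
  have h5 : Q 1 = Q' 1 := by
    rw [← h4] at h2
    have h6 : Q 0 * (Q 1 - Q' 1) = 0 := by linarith
    have := (mul_eq_zero.mp h6).resolve_left hA
    omega
  have h6 : Q 2 = Q' 2 := by
    rw [disc] at hQ hQ'
    rw [← h4, ← h5] at hQ'
    have h7 : Q 0 * (Q 2 - Q' 2) = 0 := by linarith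
    have := (mul_eq_zero.mp h7).resolve_left hA
    omega
  funext i
  fin_cases i
  · exact h4
  · exact h5
  · exact h6

theorem disc_smul (Q : LO.Frm) (M : Mat) (ε : ℤ) (Q' : LO.Frm) (hε : (M.det * ε) ^ 2 = 1)
    (h : ∀ i, Q' i = ε * act Q M i) : disc Q' = disc Q := by
  rw [disc, h 0, h 1, h 2]
  have h0 : act Q M 0 = Q 0 * M 0 0 ^ 2 + Q 1 * (M 0 0 * M 1 0) + Q 2 * M 1 0 ^ 2 := rfl
  have h1 : act Q M 1 = 2 * Q 0 * (M 0 0 * M 0 1) + Q 1 * (M 0 0 * M 1 1 + M 0 1 * M 1 0) +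
      2 * Q 2 * (M 1 0 * M 1 1) := rfl
  have h2 : act Q M 2 = Q 0 * M 0 1 ^ 2 + Q 1 * (M 0 1 * M 1 1) + Q 2 * M 1 1 ^ 2 := rfl
  rw [h0, h1, h2, disc]
  rw [Matrix.det_fin_two] at hε
  linear_combination (Q 1 ^ 2 - 4 * Q 0 * Q 2) * hε

/-- two forms attached to one class -/
theorem conv (h : Fld D K s) (Q Q' : LO.Frm) (hQ : disc Q = D) (hQ' : disc Q' = D)
    (c : ClassGroup (𝓞 K)) (hc : FormOr s c Q) (hc' : FormOr s c Q') :
    ∃ p q r t ε : ℤ, (p * t - q * r) * ε = 1 ∧ ∀ i, Q' i = ε * act Q !![p, q; r, t] i := by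
  obtain ⟨I, x, y, hI, hx, g, e⟩ := hc
  obtain ⟨I', x', y', hI', hx', g', e'⟩ := hc'
  have hII := hI.trans hI'.symm
  rw [ClassGroup.mk0_eq_mk0_iff] at hII
  obtain ⟨u, v, hu, hv, huv⟩ := hII
  have hA : ∀ w ∈ (I' : Ideal (𝓞 K)), ∃ m n : ℤ,
      v * w = u * ((m : 𝓞 K) * x + (n : 𝓞 K) * y) := by
    intro w hw
    have h1 : v * w ∈ Ideal.span {u} * (I : Ideal (𝓞 K)) := by
      rw [huv, Ideal.mem_span_singleton_mul]
      exact ⟨w, hw, rfl⟩
    rw [Ideal.mem_span_singleton_mul] at h1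
    obtain ⟨z, hz, h2⟩ := h1
    obtain ⟨m, n, rfl⟩ := (g z).1 hz
    exact ⟨m, n, h2.symm⟩
  have hB : ∀ w ∈ (I : Ideal (𝓞 K)), ∃ m n : ℤ,
      u * w = v * ((m : 𝓞 K) * x' + (n : 𝓞 K) * y') := by
    intro w hw
    have h1 : u * w ∈ Ideal.span {v} * (I' : Ideal (𝓞 K)) := by
      rw [← huv, Ideal.mem_span_singleton_mul]
      exact ⟨w, hw, rfl⟩
    rw [Ideal.mem_span_singleton_mul] at h1
    obtain ⟨z, hz, h2⟩ := h1
    obtain ⟨m, n, rfl⟩ := (g' z).1 hz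
    exact ⟨m, n, h2.symm⟩
  obtain ⟨p, r, h1⟩ := hA x' ((g' x').2 ⟨1, 0, by simp⟩)
  obtain ⟨q, t, h2⟩ := hA y' ((g' y').2 ⟨0, 1, by simp⟩)
  obtain ⟨p', r', h3⟩ := hB x ((g x).2 ⟨1, 0, by simp⟩)
  obtain ⟨q', t', h4⟩ := hB y ((g y).2 ⟨0, 1, by simp⟩)
  have h5 := lin_ind h Q hQ hx e (p' * p + r' * q - 1) (p' * r + r' * t) (by
    apply mul_left_cancel₀ hu
    push_cast
    linear_combination -(p' : 𝓞 K) * h1 - (r' : 𝓞 K) * h2 - h3)
  have h6 := lin_ind h Q hQ hx e (q' * p + t' * q) (q' * r + t' * t - 1) (by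
    apply mul_left_cancel₀ hu
    push_cast
    linear_combination -(q' : 𝓞 K) * h1 - (t' : 𝓞 K) * h2 - h4)
  obtain ⟨h5a, h5b⟩ := h5
  obtain ⟨h6a, h6b⟩ := h6
  have hdet : (p * t - q * r) * (p' * t' - r' * q') = 1 := by
    have i1 : p' * p + r' * q = 1 := by omega
    have i2 : q' * r + t' * t = 1 := by omega
    calc (p * t - q * r) * (p' * t' - r' * q') =
        (p' * p + r' * q) * (q' * r + t' * t) - (p' * r + r' * t) * (q' * p + t' * q) := by ring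
      _ = 1 := by rw [i1, i2, h5b, h6a]; norm_num
  refine ⟨p, q, r, t, p' * t' - r' * q', hdet, ?_⟩
  set ε := p' * t' - r' * q' with hε
  have hd' : ((p : K) * t - q * r) * ε = 1 := by exact_mod_cast hdet
  have hA0 : (Q 0 : K) ≠ 0 := by exact_mod_cast Q0_ne h Q hQ
  have hsq : s ^ 2 = (Q 1 : K) ^ 2 - 4 * Q 0 * Q 2 := by
    rw [h.hs, ← hQ, disc]
    push_cast
    ring
  have k := key hA0 e hsq hd'
  have k1 : (v : K) * x' = u * ((p : K) * x + r * y) := by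
    have := congrArg (fun z : 𝓞 K => (z : K)) h1
    simp only [cadd, cmul, cint] at this
    exact this
  have k2 : (v : K) * y' = u * ((q : K) * x + t * y) := by
    have := congrArg (fun z : 𝓞 K => (z : K)) h2
    simp only [cadd, cmul, cint] at this
    exact this
  have hu' : (u : K) ≠ 0 := fun h1 => hu (RingOfIntegers.ext (by rw [h1, czero]))
  have hv' : (v : K) ≠ 0 := fun h1 => hv (RingOfIntegers.ext (by rw [h1, czero]))
  have hx'' : (x' : K) ≠ 0 := fun h1 => hx' (RingOfIntegers.ext (by rw [h1, czero]))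
  have hx1 : (p : K) * x + r * y ≠ 0 := by
    intro h7
    rw [h7, mul_zero] at k1
    exact (mul_ne_zero hv' hx'') k1
  have k3 : 2 * (Q' 0 : K) * ((q : K) * x + t * y) = ((Q' 1 : K) + s) * ((p : K) * x + r * y) := by
    apply mul_left_cancel₀ hu'
    linear_combination (v : K) * e' - 2 * (Q' 0 : K) * k2 + ((Q' 1 : K) + s) * k1
  have hfin : Q' = fun i => ε * act Q !![p, q; r, t] i := by
    refine det_or h Q' (fun i => ε * act Q !![p, q; r, t] i) hQ' ?_ hx1 k3 ?_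
    · rw [← hQ]
      refine disc_smul Q !![p, q; r, t] ε _ ?_ fun i => rfl
      rw [Matrix.det_fin_two_of, hdet]
      norm_num
    · have a0 : ((ε * act Q !![p, q; r, t] 0 : ℤ) : K) =
          ε * (Q 0 * p ^ 2 + Q 1 * (p * r) + Q 2 * r ^ 2) := by
        simp [act]
      have a1 : ((ε * act Q !![p, q; r, t] 1 : ℤ) : K) =
          ε * (2 * Q 0 * (p * q) + Q 1 * (p * t + q * r) + 2 * Q 2 * (r * t)) := by
        simp [act]
      rw [a0, a1]
      exact k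
  intro i
  rw [hfin]

theorem two (h : Fld D K s) (Q Q' : LO.Frm) (hQ : disc Q = D) (hQ' : disc Q' = D)
    (c : ClassGroup (𝓞 K)) (hc : FormOr s c Q) :
    FormOr s c Q' ↔ ∃ g : SL(2, ℤ), Q' = act Q (sm g) ∨ Q' = -act (mir Q) (sm g) := by
  constructor
  · intro hc'
    obtain ⟨p, q, r, t, ε, hd, hi⟩ := conv h Q Q' hQ hQ' c hc hc'
    rcases Int.isUnit_iff.1 (IsUnit.of_mul_eq_one_right _ hd) with rfl | rfl
    · refine ⟨⟨!![p, q; r, t], by rw [Matrix.det_fin_two_of]; linarith⟩, Or.inl ?_⟩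
      funext i
      rw [hi i, one_mul]
      rfl
    · refine ⟨⟨!![p, q; -r, -t], by rw [Matrix.det_fin_two_of]; linarith⟩, Or.inr ?_⟩
      funext i
      rw [hi i]
      fin_cases i
      · simp [act, mir, sm]
      · simp [act, mir, sm]
        ring
      · simp [act, mir, sm]
  · rintro ⟨g, rfl | rfl⟩
    · have hd : g 0 0 * g 1 1 - g 0 1 * g 1 0 = 1 := by
        have := g.det_coe
        rwa [Matrix.det_fin_two] at this
      refine change h Q _ hQ c hc (g 0 0) (g 0 1) (g 1 0) (g 1 1) 1 (by rw [hd, one_mul]) ?_ ?_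
      · rw [one_mul]
        rfl
      · rw [one_mul]
        rfl
    · have hd : g 0 0 * g 1 1 - g 0 1 * g 1 0 = 1 := by
        have := g.det_coe
        rwa [Matrix.det_fin_two] at this
      refine change h Q _ hQ c hc (g 0 0) (g 0 1) (-g 1 0) (-g 1 1) (-1) (by linarith) ?_ ?_
      · simp [act, mir, sm]
      · simp [act, mir, sm]
        ring

theorem three (h : Fld D K s) (c : ClassGroup (𝓞 K)) (Q : LO.Frm) (hf : FormOf c Q) :
    disc Q = D ∧ (FormOr s c Q ∨ FormOr s c (mir Q)) := by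
  have hd : discr K = (D : ℤ) := LO.stDiscr K s (D : ℤ) h.hF h.hs h.sf h.h1 h.h4
  have hDpos : (0 : ℤ) < D := by
    have := h.h1
    have h2 : (D : ℤ).natAbs = D := Int.natAbs_natCast D
    rw [h2] at this
    exact_mod_cast (by omega : 0 < D)
  have hQ : disc Q = D := by
    rw [← hd]
    exact (LO.stForm K h.hF (by rw [hd]; exact hDpos)).2 c Q hf
  refine ⟨hQ, ?_⟩
  obtain ⟨hQ0, I, x, y, hI, g, hN⟩ := hf
  have hn0 : (Ideal.absNorm (I : Ideal (𝓞 K)) : ℤ) ≠ 0 := by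
    have h5 : Ideal.absNorm (I : Ideal (𝓞 K)) ≠ 0 := fun h6 =>
      nonZeroDivisors.coe_ne_zero I (Ideal.absNorm_eq_zero_iff.1 h6)
    exact_mod_cast h5
  set n : ℤ := (Ideal.absNorm (I : Ideal (𝓞 K)) : ℤ) with hn
  obtain ⟨a, b, hx⟩ := LO.DiscrAux.coords h.hF h.hs h.sf h.h1 (x : K)
  obtain ⟨a', b', hy⟩ := LO.DiscrAux.coords h.hF h.hs h.sf h.h1 (y : K)
  have hN' : ∀ m k : ℤ, ((m : ℚ) * a + k * a') ^ 2 - (D : ℤ) * (m * b + k * b') ^ 2 =
      n * (Q 0 * m ^ 2 + Q 1 * (m * k) + Q 2 * k ^ 2) := by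
    intro m k
    have h1 := LO.DiscrAux.nrm h.hF h.hs h.sf h.h1 ((m : ℚ) * a + k * a') (m * b + k * b')
    rw [← h1]
    have h2 : ((((m : ℚ) * a + k * a' : ℚ) : K) + ((m * b + k * b' : ℚ) : K) * s) =
        (((m : 𝓞 K) * x + (k : 𝓞 K) * y : 𝓞 K) : K) := by
      rw [cadd, cmul, cmul, cint, cint, hx, hy]
      push_cast
      ring
    rw [h2, ← Algebra.coe_norm_int, hN m k]
    push_cast
    ring
  have e1 := hN' 1 0
  have e2 := hN' 0 1
  have e3 := hN' 1 1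
  have hQd : ((Q 1 : ℚ)) ^ 2 - 4 * Q 0 * Q 2 = (D : ℤ) := by
    rw [← hQ, disc]
    push_cast
    ring
  push_cast at e1 e2 e3 hQd
  have e4 : 2 * (a * a') - 2 * D * (b * b') = n * Q 1 := by linear_combination e3 - e1 - e2
  have e5 : (2 * (a * b' - a' * b)) ^ 2 = (n : ℚ) ^ 2 := by
    have hD0 : (D : ℚ) ≠ 0 := by
      have : (D : ℤ) ≠ 0 := hDpos.ne'
      exact_mod_cast this
    apply mul_left_cancel₀ hD0
    have i1 : (n : ℚ) * Q 0 = a ^ 2 - D * b ^ 2 := by linear_combination -e1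
    have i2 : (n : ℚ) * Q 2 = a' ^ 2 - D * b' ^ 2 := by linear_combination -e2
    calc (D : ℚ) * (2 * (a * b' - a' * b)) ^ 2 =
        (2 * (a * a') - 2 * D * (b * b')) ^ 2 -
          4 * ((a ^ 2 - D * b ^ 2) * (a' ^ 2 - D * b' ^ 2)) := by ring
      _ = (n : ℚ) ^ 2 * ((Q 1 : ℚ) ^ 2 - 4 * Q 0 * Q 2) := by rw [e4, ← i1, ← i2]; ring
      _ = (D : ℚ) * (n : ℚ) ^ 2 := by rw [hQd]; ring
  have hsD : s ^ 2 = (D : K) := by
    have := h.hs
    push_cast at this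
    exact this
  have f1 : (n : K) * Q 0 = (a : K) ^ 2 - D * (b : K) ^ 2 := by
    have i1 : (n : ℚ) * Q 0 = a ^ 2 - D * b ^ 2 := by linear_combination -e1
    exact_mod_cast congrArg (fun z : ℚ => (z : K)) i1
  have f4 : 2 * ((a : K) * a') - 2 * D * ((b : K) * b') = n * Q 1 := by
    exact_mod_cast congrArg (fun z : ℚ => (z : K)) e4
  have hnK : (n : K) ≠ 0 := by exact_mod_cast hn0
  have hx0 : x ≠ 0 := by
    rintro rfl
    have h1 := hN 1 0
    rw [show ((1 : ℤ) : 𝓞 K) * 0 + ((0 : ℤ) : 𝓞 K) * y = 0 by simp, Algebra.norm_zero] at h1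
    have h2 : n * Q 0 = 0 := by linarith
    rcases mul_eq_zero.mp h2 with h3 | h3
    · exact hn0 h3
    · omega
  rcases sq_eq_sq_iff_eq_or_eq_neg.mp e5 with h6 | h6
  · left
    have f6 : 2 * ((a : K) * b' - a' * b) = n := by
      exact_mod_cast congrArg (fun z : ℚ => (z : K)) h6
    refine ⟨I, x, y, hI, hx0, g, ?_⟩
    apply mul_left_cancel₀ hnK
    rw [hx, hy]
    linear_combination 2 * ((a' : K) + b' * s) * f1 + ((a : K) + b * s) * f4 +
      ((a : K) + b * s) * s * f6 - 2 * ((a : K) * b * b' - a' * b ^ 2) * hsD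
  · right
    have f6 : 2 * ((a : K) * b' - a' * b) = -n := by
      exact_mod_cast congrArg (fun z : ℚ => (z : K)) h6
    refine ⟨I, x, -y, hI, hx0, ?_, ?_⟩
    · intro z
      rw [g z]
      constructor
      · rintro ⟨m, k, rfl⟩
        exact ⟨m, -k, by push_cast; ring⟩
      · rintro ⟨m, k, rfl⟩
        exact ⟨m, -k, by push_cast; ring⟩
    · have g0 : mir Q 0 = Q 0 := rfl
      have g1 : mir Q 1 = -Q 1 := rfl
      rw [g0, g1, cneg]
      push_cast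
      apply mul_left_cancel₀ hnK
      rw [hx, hy]
      linear_combination -2 * ((a' : K) + b' * s) * f1 - ((a : K) + b * s) * f4 -
        ((a : K) + b * s) * s * f6 + 2 * ((a : K) * b * b' - a' * b ^ 2) * hsD

end NaAAux

open NaAAux in
/-- (NaA) forms and oriented bases -/
theorem stNaA : StNaA := by
  intro D K _ _ s hD h1 hF hs
  have h : Fld D K s := ⟨hF, by rw [hs]; push_cast; rfl, by simpa using hD.sf,
    by simpa using h1, by have := hD.mod; omega⟩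
  refine ⟨fun Q hQ => ?_, fun c Q Q' hQ hQ' hc => two h Q Q' hQ hQ' c hc,
    fun c Q hf => three h c Q hf⟩
  obtain ⟨c, hc⟩ := exists_or h Q hQ
  exact ⟨c, hc, fun c' hc' => uniq_or h Q hQ c' c hc' hc⟩

end LC

end Pool.Agent.Lib.MP_7c5fb9_nt
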