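import Mathlib
import Pool.Agent.Lib.MP_7c5fb9_nt.LC.St

set_option autoImplicit false

/-!
(NaB) `-mir Q` is equivalent to `Q` if and only if `t ^ 2 - D u ^ 2 = -4` is solvable.
-/

namespace Pool.Agent.Lib.MP_7c5fb9_nt

namespace LC

open LO (Mat disc act mir)
open scoped MatrixGroups

namespace NaBAux

/-- Forms of squarefree discriminant are primitive. -/
theorem primitive {D : ℕ} (hD : Squarefree D) {a b c : ℤ} (h : b ^ 2 - 4 * a * c = D) :
    ∃ x y z : ℤ, x * a + y * b + z * c = 1 := by
  set g : ℕ := Int.gcd a (Int.gcd b c) with hg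
  have h1 : (g : ℤ) ∣ a := Int.gcd_dvd_left _ _
  have h0 : (g : ℤ) ∣ (Int.gcd b c : ℤ) := Int.gcd_dvd_right _ _
  have h2 : (g : ℤ) ∣ b := h0.trans (Int.gcd_dvd_left _ _)
  have h3 : (g : ℤ) ∣ c := h0.trans (Int.gcd_dvd_right _ _)
  have h4 : g * g ∣ D := by
    have h5 : ((g * g : ℕ) : ℤ) ∣ (D : ℤ) := by
      obtain ⟨a', ha⟩ := h1
      obtain ⟨b', hb⟩ := h2
      obtain ⟨c', hc⟩ := h3
      refine ⟨b' ^ 2 - 4 * a' * c', ?_⟩
      rw [← h, ha, hb, hc]
      push_cast
      ring
    exact_mod_cast h5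
  have h6 : g = 1 := Nat.isUnit_iff.1 (hD g h4)
  have e1 := Int.gcd_eq_gcd_ab a (Int.gcd b c)
  have e2 := Int.gcd_eq_gcd_ab b c
  rw [← hg, h6] at e1
  rw [e2] at e1
  refine ⟨Int.gcdA a (b * Int.gcdA b c + c * Int.gcdB b c),
    Int.gcdB a (b * Int.gcdA b c + c * Int.gcdB b c) * Int.gcdA b c,
    Int.gcdB a (b * Int.gcdA b c + c * Int.gcdB b c) * Int.gcdB b c, ?_⟩
  push_cast at e1
  linear_combination -e1

theorem key {D : ℕ} {Q : LO.Frm} (hD : Squarefree D) (hQ : disc Q = D) :
    (∃ g : SL(2, ℤ), -mir Q = act Q (sm g)) ↔ ∃ t u : ℤ, t ^ 2 - D * u ^ 2 = -4 := by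
  have hQ' : Q 1 ^ 2 - 4 * Q 0 * Q 2 = D := hQ
  constructor
  · rintro ⟨g, hg⟩
    have hdet : sm g 0 0 * sm g 1 1 - sm g 0 1 * sm g 1 0 = 1 := by
      have := g.det_coe
      rw [Matrix.det_fin_two] at this
      exact this
    have h0 := congrFun hg 0
    have h1 := congrFun hg 1
    have h2 := congrFun hg 2
    simp only [Pi.neg_apply, mir, act, Matrix.cons_val_zero, Matrix.cons_val_one,
      Matrix.cons_val] at h0 h1 h2
    generalize sm g 0 0 = p at *
    generalize sm g 0 1 = q at *
    generalize sm g 1 0 = r at *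
    generalize sm g 1 1 = s at *
    obtain ⟨x, y, z, hxyz⟩ := primitive hD hQ'
    generalize Q 0 = a at *
    generalize Q 1 = b at *
    generalize Q 2 = c at *
    -- the matrix `(-p, q; -r, s)`
    have k1 : a * (s + p) + b * r = 0 := by
      have : 2 * (a * (s + p) + b * r) = 0 := by
        linear_combination (-2 * s) * h0 + r * h1 - (2 * a * p + b * r) * hdet
      linarith
    have k2 : a * q - r * c = 0 := by
      have : 2 * (a * q - r * c) = 0 := by
        linear_combination (-s) * h1 + 2 * r * h2 - (2 * a * q + b * s) * hdet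
      linarith
    have k3 : b * q + c * (p + s) = 0 := by
      have : 2 * (b * q + c * (p + s)) = 0 := by
        linear_combination q * h1 - 2 * p * h2 - (b * q + 2 * c * s) * hdet
      linarith
    -- the coordinate `u` of the unit
    set u := -(x * r) + y * (s + p) - z * q with hu
    have u1 : a * u = -r := by
      rw [hu]
      linear_combination y * k1 - z * k2 - r * hxyz
    have u2 : b * u = s + p := by
      rw [hu]
      linear_combination -x * k1 - z * k3 + (s + p) * hxyz
    have u3 : c * u = -q := by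
      rw [hu]
      linear_combination x * k2 + y * k3 - q * hxyz
    refine ⟨s - p, u, ?_⟩
    rw [← hQ']
    linear_combination (-(b * u) - (s + p)) * u2 + 4 * (c * u) * u1 - 4 * r * u3 - 4 * hdet
  · rintro ⟨t, u, htu⟩
    have h5 : (t - Q 1 * u) * (t + Q 1 * u) = 4 * (-1 - Q 0 * Q 2 * u ^ 2) := by
      rw [← hQ'] at htu
      linear_combination htu
    have h6 : Even ((t - Q 1 * u) * (t + Q 1 * u)) := by
      rw [h5]
      exact ⟨2 * (-1 - Q 0 * Q 2 * u ^ 2), by ring⟩
    have h7 : Even (t - Q 1 * u) ∧ Even (t + Q 1 * u) := by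
      rcases Int.even_mul.1 h6 with h4 | h4
      · refine ⟨h4, ?_⟩
        have : t + Q 1 * u = (t - Q 1 * u) + 2 * (Q 1 * u) := by ring
        rw [this]
        exact h4.add ⟨Q 1 * u, by ring⟩
      · refine ⟨?_, h4⟩
        have : t - Q 1 * u = (t + Q 1 * u) + 2 * (-(Q 1 * u)) := by ring
        rw [this]
        exact h4.add ⟨-(Q 1 * u), by ring⟩
    obtain ⟨⟨p, hp⟩, ⟨s, hs⟩⟩ := h7
    rw [← hQ'] at htu
    generalize ha : Q 0 = a at *
    generalize hb : Q 1 = b at *
    generalize hc : Q 2 = c at *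
    have hps : p * s + a * c * u ^ 2 = -1 := by
      have : 4 * (p * s + a * c * u ^ 2) = 4 * (-1) := by
        linear_combination htu - (t + b * u) * hp - 2 * p * hs
      linarith
    have hdiff : s - p = b * u := by linarith
    -- the matrix `(p, -c u; a u, s)` times the mirror
    refine ⟨⟨!![-p, -c * u; -(a * u), s], ?_⟩, ?_⟩
    · rw [Matrix.det_fin_two]
      simp only [Matrix.of_apply, Matrix.cons_val', Matrix.cons_val_zero, Matrix.cons_val_one,
        Matrix.cons_val_fin_one]
      linear_combination -hps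
    · funext i
      fin_cases i
      · simp only [Pi.neg_apply, mir, act, sm, Matrix.of_apply, Matrix.cons_val',
          Matrix.cons_val_zero, Matrix.cons_val_one, Matrix.cons_val_fin_one, Fin.zero_eta, ha, hb,
          hc]
        linear_combination -a * hps + a * p * hdiff
      · simp only [Pi.neg_apply, mir, act, sm, Matrix.of_apply, Matrix.cons_val',
          Matrix.cons_val_zero, Matrix.cons_val_one, Matrix.cons_val_fin_one, Fin.mk_one, ha, hb,
          hc]
        linear_combination b * hps + 2 * a * c * u * hdiff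
      · simp only [Pi.neg_apply, mir, act, sm, Matrix.of_apply, Matrix.cons_val',
          Matrix.cons_val_zero, Matrix.cons_val_one, Matrix.cons_val_fin_one, Fin.reduceFinMk,
          Matrix.cons_val, ha, hb, hc]
        linear_combination -c * hps - c * s * hdiff

end NaBAux

open NaBAux in
/-- (NaB) the units of norm `-1` -/
theorem stNaB : StNaB := by
  intro D Q Q' hD _ hQ hQ'
  rw [key hD.sf hQ, key hD.sf hQ']

end LC

end Pool.Agent.Lib.MP_7c5fb9_nt
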