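import Mathlib
import Pool.Agent.Lib.MP_7c5fb9_nt.LC.St
import Pool.Agent.Lib.MP_7c5fb9_nt.LO.Basic

set_option autoImplicit false

/-!
# Project LC (MP_7c5fb9_nt): the sum over the classes of forms
-/

namespace Pool.Agent.Lib.MP_7c5fb9_nt

namespace LC

open Set
open LO (Mat disc act mir FormOf)
open scoped MatrixGroups

namespace NarAux

theorem neg_act (Q : LO.Frm) (M : Mat) : act (-Q) M = -act Q M := by
  funext i
  fin_cases i <;> simp [act] <;> ring

theorem disc_neg (Q : LO.Frm) : disc (-Q) = disc Q := by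
  simp [disc]

theorem sm_mul (g h : SL(2, ℤ)) : sm (g * h) = sm g * sm h := by
  simp [sm]

theorem sm_one : sm (1 : SL(2, ℤ)) = 1 := by
  simp [sm]

theorem disc_sm (Q : LO.Frm) (g : SL(2, ℤ)) : disc (act Q (sm g)) = disc Q := by
  rw [LO.disc_act]
  have : (sm g).det = 1 := g.2
  rw [this, one_pow, one_mul]

theorem act_inv {Q Q' : LO.Frm} {g : SL(2, ℤ)} (h : Q' = act Q (sm g)) :
    Q = act Q' (sm g⁻¹) := by
  rw [h, LO.act_act, ← sm_mul, mul_inv_cancel, sm_one, LO.act_one]

theorem mem_orb_trans {Q Q' Q'' : LO.Frm} (h : Q' ∈ Orb Q) (h' : Q'' ∈ Orb Q') :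
    Q'' ∈ Orb Q := by
  obtain ⟨g, hg⟩ := h
  obtain ⟨g', hg'⟩ := h'
  exact ⟨g * g', by rw [hg', hg, LO.act_act, sm_mul]⟩

theorem mem_orb_symm {Q Q' : LO.Frm} (h : Q' ∈ Orb Q) : Q ∈ Orb Q' := by
  obtain ⟨g, hg⟩ := h
  exact ⟨g⁻¹, act_inv hg⟩

theorem orb_eq {Q Q' : LO.Frm} (h : Q' ∈ Orb Q) : Orb Q' = Orb Q := by
  ext R
  exact ⟨fun hR => mem_orb_trans h hR, fun hR => mem_orb_trans (mem_orb_symm h) hR⟩

theorem neg_mem_orb {Q R : LO.Frm} : -R ∈ Orb Q ↔ R ∈ Orb (-Q) := by
  constructor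
  · rintro ⟨g, hg⟩
    exact ⟨g, by rw [neg_act, ← hg, neg_neg]⟩
  · rintro ⟨g, hg⟩
    exact ⟨g, by rw [hg, neg_act, neg_neg]⟩

/-- the sums over the classes of `Q` and `-Q` -/
theorem tsum_neg {F : LO.Frm → ℂ} (hF : ∀ Q, F (-Q) = F Q) (Q : LO.Frm) :
    ∑' R, (Orb (-Q)).indicator F R = ∑' R, (Orb Q).indicator F R := by
  rw [← (Equiv.neg LO.Frm).tsum_eq ((Orb Q).indicator F)]
  refine tsum_congr fun R => ?_
  rw [Equiv.neg_apply]
  by_cases h : R ∈ Orb (-Q)
  · rw [Set.indicator_of_mem h, Set.indicator_of_mem (neg_mem_orb.2 h), hF]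
  · rw [Set.indicator_of_notMem h, Set.indicator_of_notMem fun h' => h (neg_mem_orb.1 h')]

variable {D : ℕ} {K : Type} [Field K] [NumberField K] {s : K}

/-- the forms of a class -/
def CC (D : ℕ) {K : Type} [Field K] [NumberField K] (s : K)
    (c : ClassGroup (NumberField.RingOfIntegers K)) : Set LO.Frm :=
  {R | disc R = D ∧ FormOr s c R}

theorem CC_eq (h2 : ∀ (c : ClassGroup (NumberField.RingOfIntegers K)) (Q Q' : LO.Frm),
      disc Q = D → disc Q' = D → FormOr s c Q → (FormOr s c Q' ↔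
        ∃ g : SL(2, ℤ), Q' = act Q (sm g) ∨ Q' = -act (mir Q) (sm g)))
    {c : ClassGroup (NumberField.RingOfIntegers K)} {Q : LO.Frm} (hd : disc Q = D)
    (hQ : FormOr s c Q) : CC D s c = Orb Q ∪ Orb (-mir Q) := by
  ext R
  constructor
  · rintro ⟨hR, hR'⟩
    obtain ⟨g, hg | hg⟩ := (h2 c Q R hd hR hQ).1 hR'
    · exact Or.inl ⟨g, hg⟩
    · exact Or.inr ⟨g, by rw [neg_act]; exact hg⟩
  · rintro (⟨g, hg⟩ | ⟨g, hg⟩)
    · have hR : disc R = D := by rw [hg, disc_sm, hd]
      exact ⟨hR, (h2 c Q R hd hR hQ).2 ⟨g, Or.inl hg⟩⟩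
    · have hR : disc R = D := by rw [hg, disc_sm, disc_neg, LO.disc_mir, hd]
      exact ⟨hR, (h2 c Q R hd hR hQ).2 ⟨g, Or.inr (by rw [hg, neg_act])⟩⟩

end NarAux

open NarAux in
/-- (Nar) the sum over the classes of forms -/
theorem stNar (h1 : StNaA) (h2 : StNaB) : StNar := by
  intro D K _ _ s q hD hD1 hK hs hq
  obtain ⟨a1, a2, a3⟩ := h1 D K s hD hD1 hK hs
  refine ⟨fun c => (a3 c (q c) (hq c)).1, ?_⟩
  -- the statement that the opposite class is the same
  set A : Prop := ∀ Q : LO.Frm, disc Q = D → ∃ g : SL(2, ℤ), -mir Q = act Q (sm g) with hA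
  by_cases hAt : A
  · refine ⟨2, two_ne_zero, fun F hF hsum => ?_⟩
    have hT : Summable ({R : LO.Frm | disc R = D}.indicator F) := by
      rw [← summable_subtype_iff_indicator]
      exact hsum.of_norm
    have hCs : ∀ c, Summable ((CC D s c).indicator F) := fun c => by
      have h3 := hT.indicator (CC D s c)
      rw [Set.indicator_indicator] at h3
      have h4 : CC D s c ∩ {R : LO.Frm | disc R = D} = CC D s c :=
        Set.inter_eq_left.2 fun R hR => hR.1
      rwa [h4] at h3
    have key : ∀ c, ∀ Q : LO.Frm, disc Q = D → FormOr s c Q →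
        ∑' Q' : Orb Q, F Q'.1 + ∑' Q' : Orb (mir Q), F Q'.1 =
          2 * ∑' R, (CC D s c).indicator F R := by
      intro c Q hd hQ
      have e1 : Orb (-mir Q) = Orb Q := orb_eq (hAt Q hd)
      have e2 : CC D s c = Orb Q := by rw [CC_eq a2 hd hQ, e1, Set.union_self]
      rw [tsum_subtype (Orb Q) F, tsum_subtype (Orb (mir Q)) F, ← tsum_neg hF (mir Q), e1, e2]
      ring
    have tot : ∑' Q : DQ D, F Q.1 = ∑ c, ∑' R, (CC D s c).indicator F R := by
      rw [← Summable.tsum_finsetSum fun c _ => hCs c]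
      have e1 : ∑' Q : DQ D, F Q.1 = ∑' R, {R : LO.Frm | disc R = D}.indicator F R :=
        tsum_subtype {R : LO.Frm | disc R = D} F
      rw [e1]
      refine tsum_congr fun R => ?_
      by_cases hR : disc R = D
      · obtain ⟨c, hc, hc'⟩ := a1 R hR
        rw [Set.indicator_of_mem (show R ∈ {R : LO.Frm | disc R = D} from hR),
          Finset.sum_eq_single c]
        · rw [Set.indicator_of_mem (show R ∈ CC D s c from ⟨hR, hc⟩)]
        · intro c' _ hcc
          exact Set.indicator_of_notMem (fun h => hcc (hc' c' h.2)) _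
        · intro h
          exact absurd (Finset.mem_univ c) h
      · rw [Set.indicator_of_notMem (show R ∉ {R : LO.Frm | disc R = D} from hR)]
        exact (Finset.sum_eq_zero fun c _ => Set.indicator_of_notMem (fun h => hR h.1) _).symm
    rw [tot, Finset.mul_sum]
    refine Finset.sum_congr rfl fun c _ => ?_
    obtain ⟨hd, hc | hc⟩ := a3 c (q c) (hq c)
    · exact key c (q c) hd hc
    · have := key c (mir (q c)) (by rw [LO.disc_mir, hd]) hc
      rw [LO.mir_mir] at this
      rw [add_comm]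
      exact this
  · refine ⟨1, one_ne_zero, fun F hF hsum => ?_⟩
    have hno : ∀ Q : LO.Frm, disc Q = D → ¬ ∃ g : SL(2, ℤ), -mir Q = act Q (sm g) := by
      intro Q hQ hg
      refine hAt fun Q' hQ' => ?_
      exact (h2 D Q Q' hD hD1 hQ hQ').1 hg
    have hT : Summable ({R : LO.Frm | disc R = D}.indicator F) := by
      rw [← summable_subtype_iff_indicator]
      exact hsum.of_norm
    have hCs : ∀ T : Set LO.Frm, (∀ R ∈ T, disc R = D) → Summable (T.indicator F) := fun T h => by
      have h3 := hT.indicator T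
      rw [Set.indicator_indicator] at h3
      have h4 : T ∩ {R : LO.Frm | disc R = D} = T :=
        Set.inter_eq_left.2 fun R hR => h R hR
      rwa [h4] at h3
    have key : ∀ c, ∀ Q : LO.Frm, disc Q = D → FormOr s c Q →
        ∑' Q' : Orb Q, F Q'.1 + ∑' Q' : Orb (mir Q), F Q'.1 =
          1 * ∑' R, (CC D s c).indicator F R := by
      intro c Q hd hQ
      have dj : Disjoint (Orb Q) (Orb (-mir Q)) := by
        rw [Set.disjoint_left]
        intro R hR hR'
        exact hno Q hd (mem_orb_trans hR (mem_orb_symm hR'))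
      rw [tsum_subtype (Orb Q) F, tsum_subtype (Orb (mir Q)) F, ← tsum_neg hF (mir Q),
        CC_eq a2 hd hQ, one_mul, ← Summable.tsum_add]
      · refine tsum_congr fun R => ?_
        rw [Set.indicator_union_of_disjoint dj F]
      · refine hCs _ ?_
        rintro R ⟨g, hg⟩
        rw [hg, disc_sm, hd]
      · refine hCs _ ?_
        rintro R ⟨g, hg⟩
        rw [hg, disc_sm, disc_neg, LO.disc_mir, hd]
    have tot : ∑' Q : DQ D, F Q.1 = ∑ c, ∑' R, (CC D s c).indicator F R := by
      rw [← Summable.tsum_finsetSum fun c _ => hCs _ fun R hR => hR.1]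
      have e1 : ∑' Q : DQ D, F Q.1 = ∑' R, {R : LO.Frm | disc R = D}.indicator F R :=
        tsum_subtype {R : LO.Frm | disc R = D} F
      rw [e1]
      refine tsum_congr fun R => ?_
      by_cases hR : disc R = D
      · obtain ⟨c, hc, hc'⟩ := a1 R hR
        rw [Set.indicator_of_mem (show R ∈ {R : LO.Frm | disc R = D} from hR),
          Finset.sum_eq_single c]
        · rw [Set.indicator_of_mem (show R ∈ CC D s c from ⟨hR, hc⟩)]
        · intro c' _ hcc
          exact Set.indicator_of_notMem (fun h => hcc (hc' c' h.2)) _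
        · intro h
          exact absurd (Finset.mem_univ c) h
      · rw [Set.indicator_of_notMem (show R ∉ {R : LO.Frm | disc R = D} from hR)]
        exact (Finset.sum_eq_zero fun c _ => Set.indicator_of_notMem (fun h => hR h.1) _).symm
    rw [tot, Finset.mul_sum]
    refine Finset.sum_congr rfl fun c _ => ?_
    obtain ⟨hd, hc | hc⟩ := a3 c (q c) (hq c)
    · exact key c (q c) hd hc
    · have := key c (mir (q c)) (by rw [LO.disc_mir, hd]) hc
      rw [LO.mir_mir] at this
      rw [add_comm]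
      exact this

end LC

end Pool.Agent.Lib.MP_7c5fb9_nt
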