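import Mathlib
import Pool.Agent.Lib.MP_7c5fb9_nt.LC.St

set_option autoImplicit false

/-!
Project LC (MP_7c5fb9_nt), module PF, first part: the terms of the Poincaré series.
-/

namespace Pool.Agent.Lib.MP_7c5fb9_nt

namespace LC

open MeasureTheory UpperHalfPlane Set Pool.Agent.Lib.MP_7c08ba_nt.RZ
open LO (Mat disc act mir qv mb)
open scoped MatrixGroups ComplexConjugate

namespace PFAux

/-! ### exponentials -/

lemma ee_add (z w : ℂ) : ee (z + w) = ee z * ee w := by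
  unfold ee
  rw [← Complex.exp_add]
  congr 1
  ring

lemma ee_int (n : ℤ) : ee n = 1 := by
  unfold ee
  rw [Complex.exp_eq_one_iff]
  exact ⟨n, by ring⟩

lemma ee_ne (z : ℂ) : ee z ≠ 0 := Complex.exp_ne_zero _

lemma ee_eq_of {z w : ℂ} (n : ℤ) (h : z = w + n) : ee z = ee w := by
  rw [h, ee_add, ee_int, mul_one]

lemma conj_ee_real {z : ℂ} (hz : conj z = z) : conj (ee z) = ee (-z) := by
  unfold ee
  rw [← Complex.exp_conj]
  congr 1
  simp only [map_mul, Complex.conj_I, Complex.conj_ofReal, hz]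
  have : conj (2 : ℂ) = 2 := Complex.conj_ofNat 2
  rw [this]
  ring

/-! ### elementary facts -/

lemma okpos {D : ℕ} (h : Ok D) : 0 < D := by
  have := h.mod
  omega

lemma okne {D : ℕ} (h : Ok D) : (D : ℂ) ≠ 0 := Nat.cast_ne_zero.2 (okpos h).ne'

/-- the exponential sums in the variable `a` -/
noncomputable def SS (D c n m : ℕ) (a : ℤ) : ℂ :=
  ∑ j ∈ Finset.range c, ee (-((n : ℂ) * (jj m j : ℤ)) / (2 * c)) *
      ee ((a : ℂ) * (tj D m j : ℤ) / (D * c))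

lemma SS_congr {D c n m : ℕ} (hD : 0 < D) (hc : 1 ≤ c) {a b : ℤ} (h : ((D * c : ℕ) : ℤ) ∣ a - b) :
    SS D c n m a = SS D c n m b := by
  obtain ⟨l, hl⟩ := h
  have hD' : (D : ℂ) ≠ 0 := Nat.cast_ne_zero.2 hD.ne'
  have hc' : (c : ℂ) ≠ 0 := Nat.cast_ne_zero.2 (by omega)
  unfold SS
  refine Finset.sum_congr rfl fun j _ => ?_
  congr 1
  refine ee_eq_of (l * tj D m j) ?_
  have : (a : ℂ) = b + D * c * l := by
    have : a = b + D * c * l := by push_cast at hl; linarith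
    rw [this]; push_cast; ring
  rw [this]
  push_cast
  field_simp

/-- `4 t = m - D J²` -/
lemma four_tj {D m : ℕ} (hD : Ok D) (hm : Adm m) (j : ℤ) :
    4 * tj D m j = m - D * jj m j ^ 2 := by
  unfold tj jj
  have h1 := hD.mod
  have h2 : (4 : ℤ) ∣ (m - D * (2 * j + (m % 2 : ℕ)) ^ 2) := by
    have e1 : (D : ℤ) = 4 * (D / 4 : ℕ) + 1 := by omega
    rcases hm with h | h
    · have e2 : (m : ℤ) = 4 * (m / 4 : ℕ) := by omega
      have e3 : m % 2 = 0 := by omega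
      rw [e3, e1]
      refine ⟨(m / 4 : ℕ) - (4 * (D / 4 : ℕ) + 1) * j ^ 2, ?_⟩
      rw [e2]
      push_cast
      ring
    · have e2 : (m : ℤ) = 4 * (m / 4 : ℕ) + 1 := by omega
      have e3 : m % 2 = 1 := by omega
      rw [e3, e1]
      refine ⟨(m / 4 : ℕ) - (4 * (D / 4 : ℕ) + 1) * (j ^ 2 + j) - (D / 4 : ℕ), ?_⟩
      rw [e2]
      push_cast
      ring
  exact Int.mul_ediv_cancel' h2

lemma pr_cast (n : ℕ) : (((pr n : Fin 2) : ℕ) : ℤ) = (n : ℤ) % 2 := by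
  unfold pr
  split_ifs with h
  · simp; omega
  · simp; omega

lemma gs_pr (h1 : StGs) {a b c d ν : ℤ} (hdet : a * d - b * c = 1) (hc : 0 < c) (n : ℕ) :
    gs a c d ν (((pr n : Fin 2) : ℕ) : ℤ) = gs a c d ν n := by
  rw [pr_cast]
  have key : ∀ l : ℕ, ∀ r : ℤ, gs a c d ν (r + 2 * l) = gs a c d ν r := by
    intro l
    induction l with
    | zero => intro r; simp
    | succ l ih =>
      intro r
      rw [show r + 2 * ((l + 1 : ℕ) : ℤ) = (r + 2 * l) + 2 by push_cast; ring,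
        h1.1 a b c d ν _ hdet hc, ih]
  have h2 := key (n / 2) ((n : ℤ) % 2)
  rw [← h2]
  congr 1
  omega

/-- the Gauss sum of the term -/
lemma conj_gs {D m n c : ℕ} (hD : Ok D) (hm : Adm m) (hc : 1 ≤ c) (a d : ℤ) :
    conj (gs a c d (((pr m : Fin 2) : ℕ) : ℤ) n) * ee ((m : ℂ) * a / (4 * (D * c))) *
      ee ((n : ℂ) ^ 2 * d / (4 * c)) = SS D c n m a := by
  have hD' : (D : ℂ) ≠ 0 := okne hD
  have hc' : (c : ℂ) ≠ 0 := Nat.cast_ne_zero.2 (by omega)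
  unfold gs SS
  rw [Int.natAbs_natCast, map_sum, Finset.sum_mul, Finset.sum_mul]
  refine Finset.sum_congr rfl fun j _ => ?_
  rw [conj_ee_real (by simp only [map_div₀, map_mul, map_intCast, Complex.conj_ofNat]),
    ← ee_add, ← ee_add, ← ee_add]
  congr 1
  have h4 : (4 : ℂ) * (tj D m j : ℤ) = m - D * (jj m j : ℤ) ^ 2 := by
    exact_mod_cast congrArg (fun z : ℤ => (z : ℂ)) (four_tj hD hm j)
  have h5 : (tj D m j : ℂ) = (m - D * (jj m j : ℤ) ^ 2) / 4 := by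
    rw [← h4]; ring
  have h6 : (2 * (j : ℤ) + (((pr m : Fin 2) : ℕ) : ℤ)) = jj m j := by
    rw [pr_cast]; unfold jj; push_cast; rfl
  rw [h6, h5]
  push_cast
  field_simp
  ring

/-! ### square roots -/

lemma conj_sqrt {z : ℂ} (hz : z ≠ 0) :
    conj (z ^ (1 / 2 : ℂ)) = ((‖z‖ : ℝ) : ℂ) * z ^ (-(1 / 2) : ℂ) := by
  have h1 : z ^ (1 / 2 : ℂ) ≠ 0 := by
    rw [Complex.cpow_def_of_ne_zero hz]; exact Complex.exp_ne_zero _
  have h2 : z ^ (1 / 2 : ℂ) * conj (z ^ (1 / 2 : ℂ)) = ((‖z‖ : ℝ) : ℂ) := by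
    rw [Complex.mul_conj, Complex.normSq_eq_norm_sq]
    congr 1
    have h3 : ‖z ^ (((1 / 2 : ℝ)) : ℂ)‖ = ‖z‖ ^ (1 / 2 : ℝ) := Complex.norm_cpow_real z (1 / 2)
    rw [show (((1 / 2 : ℝ)) : ℂ) = 1 / 2 by push_cast; rfl] at h3
    rw [h3, ← Real.rpow_natCast, ← Real.rpow_mul (norm_nonneg _)]
    norm_num
  rw [Complex.cpow_neg, ← h2]
  field_simp

lemma real_mul_sqrt {r : ℝ} (hr : 0 < r) {z : ℂ} (hz : z ≠ 0) :
    ((r : ℂ) * z) ^ (1 / 2 : ℂ) = (Real.sqrt r : ℂ) * z ^ (1 / 2 : ℂ) := by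
  have hr' : (r : ℂ) ≠ 0 := Complex.ofReal_ne_zero.2 hr.ne'
  rw [Complex.cpow_def_of_ne_zero (mul_ne_zero hr' hz), Complex.cpow_def_of_ne_zero hz,
    Complex.log_ofReal_mul hr hz, add_mul, Complex.exp_add]
  congr 1
  rw [Real.sqrt_eq_rpow, Real.rpow_def_of_pos hr]
  push_cast
  rfl

lemma conj_rt {D : ℕ} (hD : 0 < D) {w : ℂ} (hw : w ≠ 0) :
    conj (rt (D * w)) = (Real.sqrt (D / 2) : ℂ) * (((‖w‖ : ℝ) : ℂ) *
      (-Complex.I * w) ^ (-(1 / 2) : ℂ)) := by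
  have hz : -Complex.I * w ≠ 0 := mul_ne_zero (neg_ne_zero.2 Complex.I_ne_zero) hw
  unfold rt
  rw [show -Complex.I * (D * w) / 2 = (((D : ℝ) / 2 : ℝ) : ℂ) * (-Complex.I * w) by
    push_cast; ring, real_mul_sqrt (by positivity) hz, map_mul, Complex.conj_ofReal, conj_sqrt hz]
  simp

/-- the function on horizontal lines -/
noncomputable def hh (k : ℕ) (A B : ℝ) (w : ℂ) : ℂ :=
  (-Complex.I * w) ^ (-((k : ℂ) + 1 / 2)) * ee (-(A : ℂ) / w) * ee (-(B : ℂ) * w)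

lemma neg_I_pow {k : ℕ} (hk : Even k) : (-Complex.I) ^ k = (-1) ^ (k / 2) := by
  obtain ⟨j, rfl⟩ := hk
  rw [← two_mul, pow_mul, Nat.mul_div_cancel_left _ (by norm_num : 0 < 2)]
  simp

lemma hh_eq {k : ℕ} (hk : Even k) (A B : ℝ) {w : ℂ} (hw : w ≠ 0) :
    hh k A B w = (-1) ^ (k / 2) * (w ^ k)⁻¹ * (-Complex.I * w) ^ (-(1 / 2) : ℂ) *
      ee (-(A : ℂ) / w) * ee (-(B : ℂ) * w) := by
  have hz : -Complex.I * w ≠ 0 := mul_ne_zero (neg_ne_zero.2 Complex.I_ne_zero) hw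
  unfold hh
  rw [neg_add, Complex.cpow_add _ _ hz, Complex.cpow_neg, Complex.cpow_natCast, mul_pow,
    neg_I_pow hk, mul_inv]
  have : ((-1 : ℂ) ^ (k / 2))⁻¹ = (-1) ^ (k / 2) := by
    rw [← inv_pow]; norm_num
  rw [this]

/-- the terms of the Poincaré series -/
lemma term (h1 : StGs) {D k m n c : ℕ} (hD : Ok D) (hk : Even k) (hm : Adm m) (hc : 1 ≤ c)
    (A : Mat) (hA : A.det = 1) (h10 : A 1 0 = D * c) {τ : ℂ} (hτ : 0 < τ.im) :
    pM D k m A τ (pr n) * ee (-((D : ℂ) * n ^ 2) * τ / 4) =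
      (Real.sqrt (D / 2) : ℂ) * (-1) ^ (k / 2) * (((D : ℂ) * c) ^ (k + 1))⁻¹ *
        ((jacobiSym (A 1 1) D : ℂ) * SS D c n m (A 0 0)) *
        hh k (m / (4 * (D * c) ^ 2)) (D * n ^ 2 / 4) (τ + (A 1 1 : ℂ) / (D * c)) := by
  have hD0 : (D : ℂ) ≠ 0 := okne hD
  have hDp := okpos hD
  have hc0 : (c : ℂ) ≠ 0 := Nat.cast_ne_zero.2 (by omega)
  have hDz : (D : ℤ) ≠ 0 := by exact_mod_cast hDp.ne'
  set w : ℂ := τ + (A 1 1 : ℂ) / (D * c) with hw
  have hwim : w.im = τ.im := by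
    have e : (A 1 1 : ℂ) / (D * c) = (((A 1 1 : ℝ) / (D * c) : ℝ) : ℂ) := by push_cast; rfl
    rw [hw, e, Complex.add_im, Complex.ofReal_im, add_zero]
  have hw0 : w ≠ 0 := by
    intro h
    rw [h, Complex.zero_im] at hwim
    linarith
  have hjf : jf A τ = (D : ℂ) * c * w := by
    unfold jf
    rw [h10, hw]
    push_cast
    field_simp
  have hnj : (‖jf A τ‖ : ℝ) = (D : ℝ) * c * ‖w‖ := by
    rw [hjf, norm_mul, norm_mul, Complex.norm_natCast, Complex.norm_natCast]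
  have hcj10 : (cj D A) 1 0 = c := by
    unfold cj
    simp only [Matrix.of_apply, Matrix.cons_val', Matrix.cons_val_zero, Matrix.cons_val_fin_one,
      Matrix.cons_val_one]
    rw [h10, Int.mul_ediv_cancel_left _ hDz]
  have hcj00 : (cj D A) 0 0 = A 0 0 := by simp [cj]
  have hcj11 : (cj D A) 1 1 = A 1 1 := by simp [cj]
  have hcp : (0 : ℤ) < c := by exact_mod_cast hc
  have hdet : A 0 0 * A 1 1 - A 0 1 * A 1 0 = 1 := by
    rw [← hA, Matrix.det_fin_two]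
  have hdet' : A 0 0 * A 1 1 - (D * A 0 1) * c = 1 := by
    rw [← hdet, h10]; ring
  have hUm : Um (cj D A) (D * τ) (pr m) (pr n) =
      rt (D * w) * gs (A 0 0) c (A 1 1) (((pr m : Fin 2) : ℕ) : ℤ) n := by
    unfold Um
    rw [if_pos (by rw [hcj10]; exact hcp), hcj10, hcj00, hcj11, gs_pr h1 hdet' hcp]
    congr 2
    rw [hw]
    push_cast
    field_simp
  have hmb : (m : ℂ) * mb A τ / 4 = (m : ℂ) * A 0 0 / (4 * (D * c)) +
      -(((m / (4 * (D * c) ^ 2) : ℝ)) : ℂ) / w := by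
    have e : mb A τ = (A 0 0 : ℂ) / (D * c) - 1 / ((D * c) ^ 2 * w) := by
      have e1 : mb A τ = ((A 0 0 : ℂ) * τ + A 0 1) / ((D : ℂ) * c * w) := by
        rw [← hjf]; rfl
      have e2 : (A 0 0 : ℂ) * A 1 1 - A 0 1 * (D * c) = 1 := by
        have := congrArg (fun z : ℤ => (z : ℂ)) hdet
        rw [h10] at this
        push_cast at this
        exact this
      have e3 : (A 1 1 : ℂ) = (D * c) * (w - τ) := by
        rw [hw]; field_simp; ring
      rw [e1]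
      rw [e3] at e2
      field_simp
      linear_combination -e2
    rw [e]
    push_cast
    field_simp
    ring
  have hτw : -((D : ℂ) * n ^ 2) * τ / 4 = -(((D * n ^ 2 / 4 : ℝ)) : ℂ) * w +
      (n : ℂ) ^ 2 * A 1 1 / (4 * c) := by
    rw [hw]
    push_cast
    field_simp
    ring
  unfold pM
  rw [hnj, hUm, map_mul, conj_rt hDp hw0, hmb, ee_add, hτw, ee_add, hjf, hh_eq hk _ _ hw0,
    ← conj_gs hD hm hc (A 0 0) (A 1 1)]
  have hnw : ((‖w‖ : ℝ) : ℂ) ≠ 0 := Complex.ofReal_ne_zero.2 (norm_ne_zero_iff.2 hw0)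
  have h11 : ((-1 : ℂ) ^ (k / 2)) ^ 2 = 1 := by
    rw [← pow_mul, mul_comm, pow_mul]; norm_num
  push_cast
  field_simp
  rw [h11]
  ring_nf

/-! ### bottom rows -/

lemma vm_det {v : ℤ × ℤ} (hv : IsCoprime v.1 v.2) : (vm v).det = 1 := by
  unfold vm
  rw [Matrix.det_fin_two]
  simp only [Matrix.of_apply, Matrix.cons_val', Matrix.cons_val_zero, Matrix.cons_val_fin_one,
    Matrix.cons_val_one]
  have h1 := Int.gcd_eq_gcd_ab v.1 v.2
  have h2 : (Int.gcd v.1 v.2 : ℤ) = 1 := by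
    exact_mod_cast Int.isCoprime_iff_gcd_eq_one.1 hv
  rw [h2] at h1
  linarith

lemma vm_10 (v : ℤ × ℤ) : (vm v) 1 0 = v.1 := rfl
lemma vm_11 (v : ℤ × ℤ) : (vm v) 1 1 = v.2 := rfl

lemma cj_det {D : ℕ} {A : Mat} (hA : A.det = 1) (hDA : (D : ℤ) ∣ A 1 0) : (cj D A).det = 1 := by
  obtain ⟨c, hc⟩ := hDA
  rw [Matrix.det_fin_two] at hA
  unfold cj
  rw [Matrix.det_fin_two]
  simp only [Matrix.of_apply, Matrix.cons_val', Matrix.cons_val_zero, Matrix.cons_val_fin_one,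
    Matrix.cons_val_one]
  rcases eq_or_ne (D : ℤ) 0 with h | h
  · rw [h] at hc ⊢
    rw [hc] at hA ⊢
    simp at hA ⊢
    exact hA
  · rw [hc, Int.mul_ediv_cancel_left _ h, ← hA, hc]
    ring

/-- the same bottom row -/
lemma pM_row (h4 : StPInv) {D k m : ℕ} (hD : Ok D) (hm : Adm m) {A B : Mat} (hA : A.det = 1)
    (hB : B.det = 1) (h10 : B 1 0 = A 1 0) (h11 : B 1 1 = A 1 1) (hDA : (D : ℤ) ∣ A 1 0) {τ : ℂ}
    (hτ : 0 < τ.im) (μ : Fin 2) : pM D k m B τ μ = pM D k m A τ μ := by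
  rw [← h4.2.1 D k m A (B 0 1 * A 0 0 - B 0 0 * A 0 1) τ μ hD hm hA hDA hτ]
  congr 1
  rw [Matrix.det_fin_two] at hA hB
  rw [h10, h11] at hB
  ext i j
  fin_cases i <;> fin_cases j <;>
    simp only [Matrix.mul_apply, Fin.sum_univ_two, Matrix.of_apply, Matrix.cons_val',
      Matrix.cons_val_zero, Matrix.cons_val_fin_one, Matrix.cons_val_one, Fin.zero_eta, Fin.mk_one,
      Fin.isValue]
  · linear_combination A 0 0 * hB - B 0 0 * hA
  · linear_combination A 0 1 * hB - B 0 1 * hA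
  · rw [h10]; ring
  · rw [h11]; ring

lemma chi_neg {D : ℕ} (hD : Ok D) (d : ℤ) : jacobiSym (-d) D = jacobiSym d D := by
  have h1 := hD.mod
  rw [jacobiSym.neg _ (Nat.odd_iff.2 (by omega)), ZMod.χ₄_nat_one_mod_four h1, one_mul]

/-- the opposite matrix -/
lemma pM_neg (h2 : StUm) {D k m : ℕ} (hD : Ok D) (hk : Even k) {A : Mat} (hDA : (D : ℤ) ∣ A 1 0)
    (τ : ℂ) (μ : Fin 2) : pM D k m (-A) τ μ = pM D k m A τ μ := by
  have hcj : cj D (-A) = -cj D A := by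
    ext i j
    fin_cases i <;> fin_cases j <;> simp [cj, Int.neg_ediv_of_dvd hDA]
  have hjf : jf (-A) τ = -jf A τ := by
    unfold jf
    simp only [Matrix.neg_apply]
    push_cast
    ring
  have hmb : mb (-A) τ = mb A τ := by
    unfold mb
    simp only [Matrix.neg_apply]
    push_cast
    rw [← neg_div_neg_eq]
    congr 1 <;> ring
  unfold pM
  rw [hcj, h2.2.2.2.2.1, hjf, hmb, norm_neg, hk.neg_pow, Matrix.neg_apply, chi_neg hD]

/-- continuity of the terms -/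
lemma pM_cont (h2 : StUm) {D k m : ℕ} (hD : Ok D) {A : Mat} (hA : A.det = 1)
    (hDA : (D : ℤ) ∣ A 1 0) (μ : Fin 2) :
    ContinuousOn (fun τ => pM D k m A τ μ) {τ | 0 < τ.im} := by
  have hne : ∀ τ : ℂ, 0 < τ.im → jf A τ ≠ 0 := by
    intro τ hτ h
    unfold jf at h
    have h3 := congrArg Complex.im h
    simp only [Complex.add_im, Complex.mul_im, Complex.intCast_im, Complex.intCast_re, zero_mul,
      add_zero, Complex.zero_im] at h3
    have h5 : (A 1 0 : ℝ) = 0 := by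
      rcases mul_eq_zero.1 h3 with h6 | h6
      · exact h6
      · linarith
    have h6 : A 1 0 = 0 := by exact_mod_cast h5
    rw [h6, Int.cast_zero, zero_mul, zero_add] at h
    have h7 : A 1 1 = 0 := by exact_mod_cast h
    rw [Matrix.det_fin_two, h6, h7] at hA
    simp at hA
  have hjc : Continuous (jf A) := by unfold jf; fun_prop
  have hU : ContinuousOn (fun τ : ℂ => Um (cj D A) (D * τ) (pr m) μ) {τ | 0 < τ.im} := by
    refine (h2.2.2.2.1 (cj D A) (pr m) μ (cj_det hA hDA)).comp (f := fun τ : ℂ => (D : ℂ) * τ)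
      (by fun_prop) ?_
    intro τ hτ
    have : 0 < (D : ℝ) := by exact_mod_cast okpos hD
    simp only [Set.mem_ofPred_eq, Complex.mul_im, Complex.natCast_re, Complex.natCast_im, zero_mul,
      add_zero] at hτ ⊢
    positivity
  unfold pM
  refine ContinuousOn.mul (ContinuousOn.mul (ContinuousOn.mul (ContinuousOn.mul
    continuousOn_const ?_) ?_) ?_) ?_
  · exact (hjc.pow k).continuousOn.inv₀ fun τ hτ => pow_ne_zero _ (hne τ hτ)
  · refine ContinuousOn.inv₀ (Complex.continuous_ofReal.comp hjc.norm).continuousOn fun τ hτ => ?_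
    exact Complex.ofReal_ne_zero.2 (norm_ne_zero_iff.2 (hne τ hτ))
  · exact Complex.continuous_conj.comp_continuousOn hU
  · unfold ee mb
    refine Complex.continuous_exp.comp_continuousOn ?_
    refine ContinuousOn.mul continuousOn_const ((ContinuousOn.mul continuousOn_const ?_).div_const _)
    refine ContinuousOn.div (by fun_prop) (by fun_prop) fun τ hτ => ?_
    exact hne τ hτ

/-- the term of the identity -/
lemma pM_one (h2 : StUm) (D k m : ℕ) (τ : ℂ) (μ : Fin 2) :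
    pM D k m (vm (0, 1)) τ μ = if pr m = μ then ee (m * τ / 4) else 0 := by
  have h : vm (0, 1) = !![1, 0; 0, 1] := by
    have e1 : Int.gcdA 0 1 = 0 := Nat.gcdA_zero_left
    have e2 : Int.gcdB 0 1 = 1 := Nat.gcdB_zero_left
    unfold vm
    simp only [e1, e2, neg_zero]
  have hcj : cj D !![1, 0; 0, 1] = !![1, 0; 0, 1] := by
    ext i j
    fin_cases i <;> fin_cases j <;> simp [cj]
  unfold pM
  rw [h, hcj, h2.2.2.2.2.2 0]
  have h1 : jf !![1, 0; 0, 1] τ = 1 := by simp [jf]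
  have h3 : mb !![1, 0; 0, 1] τ = τ := by simp [mb]
  rw [h1, h3]
  have h4 : ee 0 = 1 := by simpa using ee_int 0
  split_ifs with h5
  · simp [h4, jacobiSym.one_left]
  · simp

/-! ### the inverse modulo `c` -/

/-- the inverse modulo `C` -/
def iv (C : ℕ) (r : ℕ) : ℕ := (Int.gcdB C r % C).toNat

lemma gcdB_mul {C : ℕ} {r : ℤ} (h : IsCoprime (C : ℤ) r) : (C : ℤ) ∣ Int.gcdB C r * r - 1 := by
  have h1 := Int.gcd_eq_gcd_ab (C : ℤ) r
  have h2 : (Int.gcd (C : ℤ) r : ℤ) = 1 := by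
    exact_mod_cast Int.isCoprime_iff_gcd_eq_one.1 h
  rw [h2] at h1
  exact ⟨-Int.gcdA C r, by linarith⟩

lemma iv_lt {C : ℕ} (hC : 0 < C) (r : ℕ) : iv C r < C := by
  unfold iv
  have h1 := Int.emod_lt_of_pos (Int.gcdB C r) (by exact_mod_cast hC : (0 : ℤ) < C)
  have h2 := Int.emod_nonneg (Int.gcdB C r) (by exact_mod_cast hC.ne' : (C : ℤ) ≠ 0)
  omega

lemma iv_dvd {C : ℕ} (hC : 0 < C) (r : ℕ) : (C : ℤ) ∣ Int.gcdB C r - iv C r := by
  unfold iv
  have h2 := Int.emod_nonneg (Int.gcdB C r) (by exact_mod_cast hC.ne' : (C : ℤ) ≠ 0)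
  rw [Int.toNat_of_nonneg h2]
  exact Int.dvd_self_sub_emod

lemma iv_mul {C : ℕ} (hC : 0 < C) {r : ℕ} (h : Nat.Coprime r C) :
    (C : ℤ) ∣ (iv C r : ℤ) * r - 1 := by
  have h1 : IsCoprime (C : ℤ) r := (Nat.isCoprime_iff_coprime.2 h).symm
  have h2 := gcdB_mul h1
  have h3 := iv_dvd hC r
  have h4 := dvd_sub h2 (h3.mul_right (r : ℤ))
  rwa [show Int.gcdB C r * r - 1 - (Int.gcdB C r - iv C r) * r = (iv C r : ℤ) * r - 1 by ring] at h4

lemma iv_coprime {C : ℕ} (hC : 0 < C) {r : ℕ} (h : Nat.Coprime r C) : Nat.Coprime (iv C r) C := by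
  obtain ⟨q, hq⟩ := iv_mul hC h
  rw [← Nat.isCoprime_iff_coprime]
  exact ⟨r, -q, by linarith⟩

lemma iv_iv {C : ℕ} (hC : 0 < C) {r : ℕ} (h : Nat.Coprime r C) (hr : r < C) :
    iv C (iv C r) = r := by
  have h1 := iv_mul hC h
  have h2 := iv_mul hC (iv_coprime hC h)
  have h3 : (C : ℤ) ∣ (iv C (iv C r) : ℤ) - r := by
    have h4 := dvd_sub (h2.mul_right (r : ℤ)) (h1.mul_left (iv C (iv C r) : ℤ))
    rwa [show ((iv C (iv C r) : ℤ) * (iv C r : ℤ) - 1) * r -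
      (iv C (iv C r) : ℤ) * ((iv C r : ℤ) * r - 1) = (iv C (iv C r) : ℤ) - r by ring] at h4
  have h5 := iv_lt hC (iv C r)
  obtain ⟨q, hq⟩ := h3
  have h6 : (C : ℤ) * q < C * 1 := by rw [← hq]; omega
  have h7 : (C : ℤ) * (-1) < C * q := by rw [← hq]; omega
  have hC' : (0 : ℤ) < C := by exact_mod_cast hC
  have h8 := lt_of_mul_lt_mul_left h6 hC'.le
  have h9 := lt_of_mul_lt_mul_left h7 hC'.le
  have h10 : q = 0 := by omega
  rw [h10] at hq
  omega

/-- sums over inverses -/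
lemma sum_iv {C : ℕ} (hC : 0 < C) (F : ℕ → ℂ) :
    ∑ r ∈ (Finset.range C).filter (fun r => Nat.Coprime r C), F (iv C r) =
      ∑ r ∈ (Finset.range C).filter (fun r => Nat.Coprime r C), F r := by
  refine Finset.sum_nbij' (iv C) (iv C) ?_ ?_ ?_ ?_ ?_
  · intro r hr
    rw [Finset.mem_filter, Finset.mem_range] at hr ⊢
    exact ⟨iv_lt hC r, iv_coprime hC hr.2⟩
  · intro r hr
    rw [Finset.mem_filter, Finset.mem_range] at hr ⊢
    exact ⟨iv_lt hC r, iv_coprime hC hr.2⟩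
  · intro r hr
    rw [Finset.mem_filter, Finset.mem_range] at hr
    exact iv_iv hC hr.2 hr.1
  · intro r hr
    rw [Finset.mem_filter, Finset.mem_range] at hr
    exact iv_iv hC hr.2 hr.1
  · intro r _
    rfl

lemma chi_congr {D : ℕ} {a b : ℤ} (h : (D : ℤ) ∣ a - b) : jacobiSym a D = jacobiSym b D :=
  jacobiSym.mod_left' (Int.emod_eq_emod_iff_emod_sub_eq_zero.2 (Int.emod_eq_zero_of_dvd h))

lemma chi_iv {D c : ℕ} (hD : Ok D) (hc : 1 ≤ c) {r : ℕ} (h : Nat.Coprime r (D * c)) :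
    jacobiSym (iv (D * c) r : ℤ) D = jacobiSym (r : ℤ) D := by
  have hC : 0 < D * c := Nat.mul_pos (okpos hD) hc
  have h1 := iv_mul hC h
  have h2 : (D : ℤ) ∣ (iv (D * c) r : ℤ) * r - 1 := by
    refine dvd_trans ?_ h1
    push_cast
    exact dvd_mul_right _ _
  have h3 := chi_congr h2
  rw [jacobiSym.mul_left, jacobiSym.one_left] at h3
  rcases jacobiSym.trichotomy (r : ℤ) D with h4 | h4 | h4
  · rw [h4] at h3; simp at h3
  · rw [h4] at h3 ⊢; linarith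
  · rw [h4] at h3 ⊢; linarith

/-- the exponential sums of the Poincaré series -/
lemma KS_eq {D c n m : ℕ} (hD : Ok D) (hc : 1 ≤ c) :
    ∑ r ∈ Finset.range (D * c), (if Nat.Coprime r (D * c) then
      (jacobiSym (r : ℤ) D : ℂ) * SS D c n m (Int.gcdB (D * c : ℕ) r) else 0) = KS D c n m := by
  have hC : 0 < D * c := Nat.mul_pos (okpos hD) hc
  unfold KS
  rw [← Finset.sum_filter, ← Finset.sum_filter]
  refine Eq.trans ?_ (sum_iv hC (fun a => (jacobiSym (a : ℤ) D : ℂ) * SS D c n m a))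
  refine Finset.sum_congr rfl fun r hr => ?_
  rw [Finset.mem_filter] at hr
  rw [chi_iv hD hc hr.2, SS_congr (okpos hD) hc (iv_dvd hC r)]

end PFAux

end LC

end Pool.Agent.Lib.MP_7c5fb9_nt
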