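import Mathlib
import Pool.Agent.Lib.MP_7c5fb9_nt.LC.PFA

set_option autoImplicit false

/-!
Project LC (MP_7c5fb9_nt), module PF: the coefficients of index `D n ^ 2` of the Poincaré series.
-/

namespace Pool.Agent.Lib.MP_7c5fb9_nt

namespace LC

open MeasureTheory UpperHalfPlane Set Pool.Agent.Lib.MP_7c08ba_nt.RZ
open LO (Mat disc act mir qv mb)
open scoped MatrixGroups ComplexConjugate

namespace PFAux

/-! ### sums over the integers -/

lemma tsum_residue {C : ℕ} (hC : 0 < C) (f : ℤ → ℂ) (hf : Summable f) :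
    ∑' d, f d = ∑ r ∈ Finset.range C, ∑' l : ℤ, f (r + C * l) := by
  have : NeZero C := ⟨hC.ne'⟩
  set e : Fin C × ℤ ≃ ℤ := (Equiv.prodComm _ _).trans (Int.divModEquiv C).symm with he
  have h1 : ∀ (r : Fin C) (l : ℤ), e (r, l) = (r : ℤ) + C * l := by
    intro r l
    simp only [he, Equiv.trans_apply, Equiv.prodComm_apply, Prod.swap_prod_mk,
      Int.divModEquiv_symm_apply]
    ring
  have hs : Summable (fun q => f (e q)) := (e.summable_iff (f := f)).2 hf
  rw [← e.tsum_eq f, hs.tsum_prod, tsum_fintype, Finset.sum_range]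
  refine Finset.sum_congr rfl fun r _ => tsum_congr fun l => ?_
  rw [h1]

lemma norm_ee (z : ℂ) : ‖ee z‖ = Real.exp (-(2 * Real.pi * z.im)) := by
  unfold ee
  rw [Complex.norm_exp]
  congr 1
  simp [Complex.mul_re, Complex.mul_im]

/-- the integrand -/
noncomputable def FF (D k m n : ℕ) (y : ℝ) (A : Mat) (x : ℝ) : ℂ :=
  pM D k m A (x + y * Complex.I) (pr n) * ee (-((D : ℂ) * n ^ 2) * (x + y * Complex.I) / 4)

lemma im_line (x y : ℝ) : ((x : ℂ) + y * Complex.I).im = y := by simp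

lemma re_line (x y : ℝ) : ((x : ℂ) + y * Complex.I).re = x := by simp

lemma ee_cont : Continuous ee := by unfold ee; fun_prop

lemma FF_cont (h2 : StUm) {D k m n : ℕ} (hD : Ok D) {y : ℝ} (hy : 0 < y) {A : Mat}
    (hA : A.det = 1) (hDA : (D : ℤ) ∣ A 1 0) : Continuous (FF D k m n y A) := by
  unfold FF
  refine Continuous.mul ?_ (ee_cont.comp (by fun_prop))
  exact (pM_cont h2 hD hA hDA (pr n)).comp_continuous (by fun_prop) fun x => by
    rw [Set.mem_ofPred_eq, im_line]; exact hy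

lemma norm_FF (D k m n : ℕ) (y : ℝ) (A : Mat) (x : ℝ) : ‖FF D k m n y A x‖ =
    ‖pM D k m A (x + y * Complex.I) (pr n)‖ * Real.exp (Real.pi * (D * n ^ 2 * y) / 2) := by
  unfold FF
  rw [norm_mul, norm_ee]
  congr 2
  have : (-((D : ℂ) * n ^ 2) * (x + y * Complex.I) / 4) =
      ((-(D * n ^ 2 * x / 4) : ℝ) : ℂ) + ((-(D * n ^ 2 * y / 4) : ℝ) : ℂ) * Complex.I := by
    push_cast; ring
  rw [this, im_line]
  ring

/-- the coefficient, as a sum over pairs -/
lemma hasSum_pairs (h2 : StUm) (h3 : StPtS) {D k m n : ℕ} {y : ℝ} (hD : Ok D) (hk : 4 ≤ k)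
    (hm : Adm m) (hm1 : 1 ≤ m) (hy : 0 < y) :
    HasSum (fun v : CopD D => ∫ x in (0 : ℝ)..1, FF D k m n y (vm v.1.1) x)
      (2 * ∫ x in (0 : ℝ)..1, PP D k m (x + y * Complex.I) (pr n) *
        ee (-((D : ℂ) * n ^ 2) * (x + y * Complex.I) / 4)) := by
  obtain ⟨C, hC0, hC⟩ := h3.2.1 D k hD hk
  set K : ℝ := Real.exp (Real.pi * (D * n ^ 2 * y) / 2) with hK
  set B : ℝ := C * (1 + y ^ (-((k : ℝ) / 2 + 7 / 4))) with hB
  have hcont : ∀ v : CopD D, Continuous (FF D k m n y (vm v.1.1)) := fun v =>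
    FF_cont h2 hD hy (vm_det v.1.2) (by rw [vm_10]; exact v.2)
  have hint : ∀ v : CopD D, Integrable (FF D k m n y (vm v.1.1))
      (volume.restrict (Ioc (0 : ℝ) 1)) := fun v =>
    ((hcont v).integrableOn_Icc).mono_set Ioc_subset_Icc_self
  have hsum : Summable fun v : CopD D => ∫ x in Ioc (0 : ℝ) 1, ‖FF D k m n y (vm v.1.1) x‖ := by
    refine summable_of_sum_le (c := B * K) (fun v => integral_nonneg fun x => norm_nonneg _)
      fun u => ?_
    rw [← integral_finsetSum u fun v _ => (hint v).norm]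
    have h4 : ∀ x ∈ Ioc (0 : ℝ) 1, ∑ v ∈ u, ‖FF D k m n y (vm v.1.1) x‖ ≤ B * K := by
      intro x hx
      have him : 0 < ((x : ℂ) + y * Complex.I).im := by rw [im_line]; exact hy
      have h5 := hC m (x + y * Complex.I) (pr n) hm hm1 him
        (by rw [re_line, abs_of_pos hx.1]; exact hx.2)
      rw [im_line] at h5
      have h6 := (h3.1 D k m (x + y * Complex.I) (pr n) hD hk hm hm1 him).sum_le_tsum u
        (fun _ _ => norm_nonneg _)
      simp only [norm_FF]
      rw [← Finset.sum_mul]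
      exact mul_le_mul_of_nonneg_right (h6.trans h5) (Real.exp_pos _).le
    calc ∫ x in Ioc (0 : ℝ) 1, ∑ v ∈ u, ‖FF D k m n y (vm v.1.1) x‖
        ≤ ∫ x in Ioc (0 : ℝ) 1, B * K :=
          setIntegral_mono_on (integrable_finsetSum u fun v _ => (hint v).norm)
            (integrableOn_const (by simp)) measurableSet_Ioc h4
      _ = B * K := by simp
  have h7 := hasSum_integral_of_summable_integral_norm hint hsum
  have h8 : 2 * ∫ x in (0 : ℝ)..1, PP D k m (x + y * Complex.I) (pr n) *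
        ee (-((D : ℂ) * n ^ 2) * (x + y * Complex.I) / 4) =
      ∫ x in Ioc (0 : ℝ) 1, ∑' v : CopD D, FF D k m n y (vm v.1.1) x := by
    rw [← intervalIntegral.integral_const_mul, intervalIntegral.integral_of_le zero_le_one]
    congr 1
    funext x
    unfold FF PP
    rw [tsum_mul_right]
    ring
  rw [h8]
  simp only [intervalIntegral.integral_of_le (zero_le_one : (0 : ℝ) ≤ 1)]
  exact h7

/-- the integrals, as a function on all pairs -/
noncomputable def II (D k m n : ℕ) (y : ℝ) (p : ℤ × ℤ) : ℂ :=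
  if IsCoprime p.1 p.2 ∧ (D : ℤ) ∣ p.1 then ∫ x in (0 : ℝ)..1, FF D k m n y (vm p) x else 0

lemma hasSum_II (h2 : StUm) (h3 : StPtS) {D k m n : ℕ} {y : ℝ} (hD : Ok D) (hk : 4 ≤ k)
    (hm : Adm m) (hm1 : 1 ≤ m) (hy : 0 < y) :
    HasSum (II D k m n y) (2 * ∫ x in (0 : ℝ)..1, PP D k m (x + y * Complex.I) (pr n) *
        ee (-((D : ℂ) * n ^ 2) * (x + y * Complex.I) / 4)) := by
  have h := hasSum_pairs h2 h3 (n := n) hD hk hm hm1 hy
  have hinj : Function.Injective fun v : CopD D => v.1.1 := fun a b hab =>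
    Subtype.ext (Subtype.ext hab)
  refine (hinj.hasSum_iff ?_).1 ?_
  · intro p hp
    unfold II
    rw [if_neg]
    rintro ⟨h5, h6⟩
    exact hp ⟨⟨⟨p, h5⟩, h6⟩, rfl⟩
  · convert h using 1
    funext v
    simp only [Function.comp_apply]
    unfold II
    rw [if_pos ⟨v.1.2, v.2⟩]

lemma II_neg (h2 : StUm) (h4 : StPInv) {D k m n : ℕ} {y : ℝ} (hD : Ok D) (hk : Even k)
    (hm : Adm m) (hy : 0 < y) (c d : ℤ) : II D k m n y (-c, -d) = II D k m n y (c, d) := by
  unfold II
  simp only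
  have e1 : (IsCoprime (-c) (-d) ∧ (D : ℤ) ∣ -c) ↔ (IsCoprime c d ∧ (D : ℤ) ∣ c) := by
    rw [IsCoprime.neg_left_iff, IsCoprime.neg_right_iff, dvd_neg]
  by_cases h : IsCoprime c d ∧ (D : ℤ) ∣ c
  · rw [if_pos (e1.2 h), if_pos h]
    refine intervalIntegral.integral_congr fun x _ => ?_
    unfold FF
    congr 1
    have hτ : 0 < ((x : ℂ) + y * Complex.I).im := by rw [im_line]; exact hy
    have h5 : (D : ℤ) ∣ (vm (c, d)) 1 0 := by rw [vm_10]; exact h.2
    have h6 : (D : ℤ) ∣ (-vm (c, d)) 1 0 := by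
      rw [Matrix.neg_apply, dvd_neg]; exact h5
    have h7 : (-vm (c, d)).det = 1 := by
      have := vm_det (v := (c, d)) h.1
      rw [Matrix.det_fin_two] at this ⊢
      simp only [Matrix.neg_apply]
      linarith
    rw [pM_row h4 hD hm h7 (vm_det (e1.2 h).1) (by rw [Matrix.neg_apply, vm_10, vm_10])
      (by rw [Matrix.neg_apply, vm_11, vm_11]) h6 hτ, pM_neg h2 hD hk h5]
  · rw [if_neg (fun h' => h (e1.1 h')), if_neg h]

/-- a value of the exponential integral -/
lemma int_ee (q : ℤ) (y : ℝ) : ∫ x in (0 : ℝ)..1, ee ((q : ℂ) * (x + y * Complex.I)) =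
    if q = 0 then 1 else 0 := by
  split_ifs with h
  · rw [h]
    have : ∀ x : ℝ, ee (((0 : ℤ) : ℂ) * (x + y * Complex.I)) = 1 := by
      intro x
      rw [Int.cast_zero, zero_mul]
      exact_mod_cast ee_int 0
    simp only [this]
    simp
  · have e : ∀ x : ℝ, ee ((q : ℂ) * (x + y * Complex.I)) =
        ee ((q : ℂ) * (y * Complex.I)) * Complex.exp (2 * Real.pi * Complex.I * q * x) := by
      intro x
      unfold ee
      rw [← Complex.exp_add]
      congr 1
      ring
    have hc : 2 * Real.pi * Complex.I * q ≠ 0 := by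
      have : (Real.pi : ℂ) ≠ 0 := Complex.ofReal_ne_zero.2 Real.pi_ne_zero
      have h' : (q : ℂ) ≠ 0 := Int.cast_ne_zero.2 h
      simp [this, h']
    simp only [e]
    rw [intervalIntegral.integral_const_mul, integral_exp_mul_complex hc]
    have h1 : Complex.exp (2 * Real.pi * Complex.I * q * (1 : ℝ)) = 1 := by
      rw [Complex.exp_eq_one_iff]
      exact ⟨q, by push_cast; ring⟩
    rw [h1]
    simp

/-- the term of the identity -/
lemma II_one (h2 : StUm) {D k m n : ℕ} {y : ℝ} (hD : Ok D) (hm : Adm m) :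
    II D k m n y (0, 1) = dl D m n := by
  unfold II
  rw [if_pos ⟨isCoprime_one_right, dvd_zero _⟩]
  have hmod := hD.mod
  have hD4 : (D : ℤ) = 4 * (D / 4 : ℕ) + 1 := by omega
  by_cases hp : pr m = pr n
  · have hpar : m % 2 = n % 2 := by
      have h5 := congrArg (fun z : Fin 2 => ((z : ℕ) : ℤ)) hp
      simp only [pr_cast] at h5
      omega
    obtain ⟨q, hq⟩ : (4 : ℤ) ∣ (m : ℤ) - D * n ^ 2 := by
      rw [hD4]
      rcases hm with h | h
      · have e2 : (m : ℤ) = 4 * (m / 4 : ℕ) := by omega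
        have e3 : (n : ℤ) = 2 * (n / 2 : ℕ) := by omega
        rw [e2, e3]
        exact ⟨(m / 4 : ℕ) - (4 * (D / 4 : ℕ) + 1) * (n / 2 : ℕ) ^ 2, by ring⟩
      · have e2 : (m : ℤ) = 4 * (m / 4 : ℕ) + 1 := by omega
        have e3 : (n : ℤ) = 2 * (n / 2 : ℕ) + 1 := by omega
        rw [e2, e3]
        exact ⟨(m / 4 : ℕ) - (4 * (D / 4 : ℕ) + 1) * ((n / 2 : ℕ) ^ 2 + (n / 2 : ℕ)) -
          (D / 4 : ℕ), by ring⟩
    have e : ∀ x : ℝ, FF D k m n y (vm (0, 1)) x = ee ((q : ℂ) * (x + y * Complex.I)) := by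
      intro x
      unfold FF
      rw [pM_one h2, if_pos hp, ← ee_add]
      congr 1
      have h6 : (m : ℂ) - D * n ^ 2 = 4 * q := by exact_mod_cast congrArg (fun z : ℤ => (z : ℂ)) hq
      linear_combination ((x + y * Complex.I) / 4) * h6
    simp only [e]
    rw [int_ee]
    unfold dl
    have h7 : q = 0 ↔ m = D * n ^ 2 := by
      constructor
      · intro h
        rw [h] at hq
        have : (m : ℤ) = D * n ^ 2 := by linarith
        exact_mod_cast this
      · intro h
        have : (m : ℤ) = D * n ^ 2 := by exact_mod_cast h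
        rw [this] at hq
        omega
    simp only [h7]
  · have e : ∀ x : ℝ, FF D k m n y (vm (0, 1)) x = 0 := by
      intro x
      unfold FF
      rw [pM_one h2, if_neg hp, zero_mul]
    simp only [e]
    unfold dl
    rw [if_neg]
    · simp
    · intro h
      apply hp
      unfold pr
      have h8 : m % 2 = n % 2 := by
        rw [h, Nat.mul_mod, Nat.pow_mod, show D % 2 = 1 by omega]
        rcases Nat.mod_two_eq_zero_or_one n with h9 | h9 <;> simp [h9]
      rw [h8]

lemma II_zero (h2 : StUm) (h4 : StPInv) {D k m n : ℕ} {y : ℝ} (hD : Ok D) (hk : Even k)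
    (hm : Adm m) (hy : 0 < y) : ∑' d : ℤ, II D k m n y (0, d) = 2 * dl D m n := by
  rw [tsum_eq_sum (s := {1, -1})]
  · rw [Finset.sum_pair (by norm_num)]
    have := II_neg h2 h4 (n := n) hD hk hm hy 0 1
    rw [neg_zero] at this
    rw [this, II_one h2 hD hm]
    ring
  · intro d hd
    unfold II
    rw [if_neg]
    rintro ⟨h5, -⟩
    simp only [isCoprime_zero_left] at h5
    rcases Int.isUnit_iff.1 h5 with h6 | h6 <;> simp [h6] at hd

/-- the terms with given `c` and given residue class of `d` -/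
lemma II_res (h1 : StGs) (h5 : StHan) {D k m n c : ℕ} {y : ℝ} (hD : Ok D)
    (hk : Even k) (hk1 : 1 ≤ k) (hm : Adm m) (hc : 1 ≤ c) (hn : 1 ≤ n) (hy : 0 < y) (r : ℕ) :
    ∑' l : ℤ, II D k m n y ((D : ℤ) * c, r + (D * c : ℕ) * l) =
      (Real.sqrt (D / 2) : ℂ) * (-1) ^ (k / 2) * (((D : ℂ) * c) ^ (k + 1))⁻¹ *
      (if Nat.Coprime r (D * c) then
        (jacobiSym (r : ℤ) D : ℂ) * SS D c n m (Int.gcdB (D * c : ℕ) r) else 0) *
      (Hk k (m / (4 * (D * c) ^ 2)) (D * n ^ 2 / 4) : ℝ) := by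
  have hDp := okpos hD
  have hC : 0 < D * c := Nat.mul_pos hDp hc
  have hcop : ∀ l : ℤ, IsCoprime ((D : ℤ) * c) (r + (D * c : ℕ) * l) ↔ Nat.Coprime r (D * c) := by
    intro l
    rw [← Nat.isCoprime_iff_coprime, isCoprime_comm]
    push_cast
    exact IsCoprime.add_mul_left_left_iff
  by_cases hr : Nat.Coprime r (D * c)
  · rw [if_pos hr]
    set K0 : ℂ := (Real.sqrt (D / 2) : ℂ) * (-1) ^ (k / 2) * (((D : ℂ) * c) ^ (k + 1))⁻¹ *
      ((jacobiSym (r : ℤ) D : ℂ) * SS D c n m (Int.gcdB (D * c : ℕ) r)) with hK0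
    set f : ℝ → ℂ := fun x => hh k (m / (4 * (D * c) ^ 2)) (D * n ^ 2 / 4) (x + y * Complex.I)
      with hf
    have hHan := h5 k (m / (4 * (D * c) ^ 2)) (D * n ^ 2 / 4) y hk1 (by positivity)
      (by positivity) hy
    have hfi : Integrable f := hHan.1
    have hfv : ∫ x, f x = (Hk k (m / (4 * (D * c) ^ 2)) (D * n ^ 2 / 4) : ℝ) := hHan.2
    have hgi : Integrable fun x : ℝ => f (x + r / (D * c)) := hfi.comp_add_right _
    have hgv : ∫ x, f (x + r / (D * c)) = ∫ x, f x :=
      integral_add_right_eq_self f ((r : ℝ) / (D * c))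
    have hsum := (hgi.hasSum_intervalIntegral_comp_add_int).mul_left K0
    rw [hgv, hfv] at hsum
    have key : ∀ l : ℤ, II D k m n y ((D : ℤ) * c, r + (D * c : ℕ) * l) =
        K0 * ∫ x in (0 : ℝ)..1, f (x + l + r / (D * c)) := by
      intro l
      have hco := (hcop l).2 hr
      unfold II
      rw [if_pos ⟨hco, dvd_mul_right _ _⟩, ← intervalIntegral.integral_const_mul]
      refine intervalIntegral.integral_congr fun x _ => ?_
      have hτ : 0 < ((x : ℂ) + y * Complex.I).im := by rw [im_line]; exact hy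
      unfold FF
      rw [term h1 hD hk hm hc _ (vm_det hco) (vm_10 _) hτ, vm_11, hK0, hf]
      have e1 : jacobiSym (r + (D * c : ℕ) * l) D = jacobiSym (r : ℤ) D := by
        refine chi_congr ?_
        rw [add_sub_cancel_left]
        push_cast
        exact ⟨c * l, by ring⟩
      have e2 : SS D c n m ((vm ((D : ℤ) * c, r + (D * c : ℕ) * l)) 0 0) =
          SS D c n m (Int.gcdB (D * c : ℕ) r) := by
        refine SS_congr hDp hc ?_
        have g1 : (vm ((D : ℤ) * c, r + (D * c : ℕ) * l)) 0 0 =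
          Int.gcdB (D * c : ℕ) (r + (D * c : ℕ) * l) := by
          push_cast; rfl
        rw [g1]
        have hco' : IsCoprime ((D * c : ℕ) : ℤ) (r + (D * c : ℕ) * l) := by
          rw [show ((D * c : ℕ) : ℤ) = (D : ℤ) * c by push_cast; rfl] at hco ⊢
          exact hco
        have hrc : IsCoprime ((D * c : ℕ) : ℤ) r := (Nat.isCoprime_iff_coprime.2 hr).symm
        have g2 := gcdB_mul hco'
        have g3 := gcdB_mul hrc
        refine hrc.dvd_of_dvd_mul_right ?_
        set X := Int.gcdB (D * c : ℕ) (r + (D * c : ℕ) * l)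
        set Y := Int.gcdB (D * c : ℕ) r
        obtain ⟨u, hu⟩ := g2
        obtain ⟨v, hv⟩ := g3
        exact ⟨u - v - X * l, by linear_combination hu - hv⟩
      rw [e1, e2]
      congr 2
      have hD0 : (D : ℂ) ≠ 0 := okne hD
      have hc0 : (c : ℂ) ≠ 0 := Nat.cast_ne_zero.2 (by omega)
      push_cast
      field_simp
      ring
    rw [← hsum.tsum_eq]
    exact tsum_congr key
  · rw [if_neg hr]
    have : ∀ l : ℤ, II D k m n y ((D : ℤ) * c, r + (D * c : ℕ) * l) = 0 := by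
      intro l
      unfold II
      rw [if_neg]
      rintro ⟨h6, -⟩
      exact hr ((hcop l).1 h6)
    simp only [this]
    simp

lemma ne_const {D k : ℕ} (hD : Ok D) : (-1 : ℂ) ^ (k / 2) * (Real.sqrt (D / 2) : ℂ) ≠ 0 := by
  have h1 : 0 < (D : ℝ) := by exact_mod_cast okpos hD
  have h2 : Real.sqrt ((D : ℝ) / 2) ≠ 0 := (Real.sqrt_pos.2 (by positivity)).ne'
  exact mul_ne_zero (pow_ne_zero _ (by norm_num)) (Complex.ofReal_ne_zero.2 h2)

end PFAux

open PFAux in
theorem stPF (h1 : StGs) (h2 : StUm) (h3 : StPtS) (h4 : StPInv) (h5 : StHan) (_h6 : StPoiS) :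
    StPF := by
  intro D k m n y hD hk hke hm hm1 hn hy
  have hDp := okpos hD
  have hII := hasSum_II h2 h3 (n := n) hD (by omega : 4 ≤ k) hm hm1 hy
  set V : ℂ := ∫ x in (0 : ℝ)..1, PP D k m (x + y * Complex.I) (pr n) *
        ee (-((D : ℂ) * n ^ 2) * (x + y * Complex.I) / 4) with hV
  have hsI := hII.summable
  -- the sums over `d`
  set J : ℤ → ℂ := fun c => ∑' d : ℤ, II D k m n y (c, d) with hJ
  have hJS : HasSum J (2 * V) := hII.prod_fiberwise fun c => (hsI.prod_factor c).hasSum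
  have hJe : J.Even := by
    intro c
    simp only [hJ]
    rw [← (Equiv.neg ℤ).tsum_eq]
    refine tsum_congr fun d => ?_
    rw [Equiv.neg_apply]
    exact II_neg h2 h4 hD hke hm hy c d
  have hJ0 : J 0 = 2 * dl D m n := II_zero h2 h4 hD hke hm hy
  have h7 : 2 * V = 2 * dl D m n + 2 * ∑' c : ℕ, J ((c : ℤ) + 1) := by
    rw [← hJS.tsum_eq, tsum_int_eq_zero_add_two_mul_tsum_pnat hJe hJS.summable, hJ0]
    have := tsum_pnat_eq_tsum_succ (f := fun c : ℕ => J (c : ℤ))
    rw [this, nsmul_eq_mul, Nat.cast_ofNat]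
    push_cast
    rfl
  have hJnat : Summable fun c : ℕ => J ((c : ℤ) + 1) := by
    have hinj : Function.Injective fun c : ℕ => (c : ℤ) + 1 := fun a b h => by
      simpa using h
    exact hJS.summable.comp_injective hinj
  -- only multiples of `D` count
  set g : ℕ → ℕ := fun c => D * (c + 1) - 1 with hg
  have hg1 : ∀ c : ℕ, ((g c : ℕ) : ℤ) + 1 = (D : ℤ) * ((c + 1 : ℕ) : ℤ) := by
    intro c
    have : 1 ≤ D * (c + 1) := Nat.mul_pos hDp (by omega)
    have e : g c + 1 = D * (c + 1) := by simp only [hg]; omega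
    exact_mod_cast e
  have hginj : Function.Injective g := by
    intro a b h
    have h8 := hg1 a
    rw [h, hg1 b] at h8
    have h9 := mul_left_cancel₀ (by exact_mod_cast hDp.ne' : (D : ℤ) ≠ 0) h8
    have : b + 1 = a + 1 := by exact_mod_cast h9
    omega
  have hsupp : (Function.support fun c : ℕ => J ((c : ℤ) + 1)) ⊆ Set.range g := by
    intro c hc
    by_contra hcon
    apply hc
    simp only [hJ]
    have : ∀ d : ℤ, II D k m n y ((c : ℤ) + 1, d) = 0 := by
      intro d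
      unfold II
      rw [if_neg]
      rintro ⟨-, q, hq⟩
      simp only at hq
      apply hcon
      have hq0 : 0 < q := by
        by_contra h10
        have : (D : ℤ) * q ≤ 0 := mul_nonpos_of_nonneg_of_nonpos (by positivity) (by omega)
        omega
      refine ⟨(q - 1).toNat, ?_⟩
      have e : (((q - 1).toNat : ℕ) : ℤ) = q - 1 := Int.toNat_of_nonneg (by omega)
      have h11 := hg1 (q - 1).toNat
      push_cast at h11
      rw [e, sub_add_cancel, ← hq] at h11
      have : ((g (q - 1).toNat : ℕ) : ℤ) = c := by linarith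
      exact_mod_cast this
    simp only [this, tsum_zero]
  have h8 : ∑' c : ℕ, J ((c : ℤ) + 1) = ∑' c : ℕ, J ((D : ℤ) * ((c + 1 : ℕ) : ℤ)) := by
    rw [← hginj.tsum_eq hsupp]
    exact tsum_congr fun c => by rw [hg1]
  have hJD : Summable fun c : ℕ => J ((D : ℤ) * ((c + 1 : ℕ) : ℤ)) := by
    have := hJnat.comp_injective hginj
    refine this.congr fun c => ?_
    simp only [Function.comp_apply]
    rw [hg1]
  -- the value
  set t : ℕ → ℂ := fun c => (((D : ℂ) * (c + 1)) ^ (k + 1))⁻¹ * KS D (c + 1) n m *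
      (Hk k (m / (4 * (D * (c + 1)) ^ 2)) (D * n ^ 2 / 4) : ℝ) with ht
  have hval : ∀ c : ℕ, J ((D : ℤ) * ((c + 1 : ℕ) : ℤ)) =
      (-1) ^ (k / 2) * (Real.sqrt (D / 2) : ℂ) * t c := by
    intro c
    have hC : 0 < D * (c + 1) := Nat.mul_pos hDp (by omega)
    simp only [hJ]
    rw [tsum_residue hC _ (hsI.prod_factor _)]
    have e : ∀ r ∈ Finset.range (D * (c + 1)),
        ∑' l : ℤ, II D k m n y ((D : ℤ) * ((c + 1 : ℕ) : ℤ), r + (D * (c + 1) : ℕ) * l) =
        (if Nat.Coprime r (D * (c + 1)) then (jacobiSym (r : ℤ) D : ℂ) *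
          SS D (c + 1) n m (Int.gcdB (D * (c + 1) : ℕ) r) else 0) *
        ((Real.sqrt (D / 2) : ℂ) * (-1) ^ (k / 2) * (((D : ℂ) * (c + 1 : ℕ)) ^ (k + 1))⁻¹ *
        (Hk k (m / (4 * (D * (c + 1 : ℕ)) ^ 2)) (D * n ^ 2 / 4) : ℝ)) := by
      intro r _
      rw [II_res h1 h5 hD hke (by omega) hm (by omega) hn hy r]
      ring
    rw [Finset.sum_congr rfl e, ← Finset.sum_mul, KS_eq hD (by omega), ht]
    push_cast
    ring
  simp only [hval] at h8 hJD
  have hts : Summable t := (summable_mul_left_iff (ne_const hD)).1 hJD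
  refine ⟨hts, ?_⟩
  rw [tsum_mul_left] at h8
  rw [h8] at h7
  linear_combination h7 / 2

end LC

end Pool.Agent.Lib.MP_7c5fb9_nt
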