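import Mathlib
import Pool.Agent.Lib.MP_7c5fb9_nt.LC.St
import Pool.Agent.Lib.MP_7c08ba_nt.RZ.Poi
import Pool.Agent.Lib.MP_7c08ba_nt.RZ.EisLaw

set_option autoImplicit false

/-!
(PInv) transformation of the Poincaré series under `Γ₀(D)`.
-/

namespace Pool.Agent.Lib.MP_7c5fb9_nt

namespace LC

namespace PInvAux

open MeasureTheory UpperHalfPlane Set Pool.Agent.Lib.MP_7c08ba_nt.RZ
open LO (Mat mb)
open scoped MatrixGroups ComplexConjugate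

theorem det2 {M : Mat} (hM : M.det = 1) : M 0 0 * M 1 1 - M 0 1 * M 1 0 = 1 := by
  rwa [Matrix.det_fin_two] at hM

theorem detC {M : Mat} (hM : M.det = 1) : (M 0 0 : ℂ) * M 1 1 - M 0 1 * M 1 0 = 1 := by
  exact_mod_cast det2 hM

theorem jf_ne {M : Mat} (hM : M.det = 1) {τ : ℂ} (hτ : 0 < τ.im) : jf M τ ≠ 0 :=
  EisLaw.den_ne ⟨M, hM⟩ hτ

theorem im_mb {M : Mat} (hM : M.det = 1) {τ : ℂ} (hτ : 0 < τ.im) : 0 < (mb M τ).im :=
  EisLaw.gz_pos ⟨M, hM⟩ hτ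

theorem jf_mul (A : Mat) {M : Mat} {τ : ℂ} (h : jf M τ ≠ 0) :
    jf (A * M) τ = jf A (mb M τ) * jf M τ := by
  have h' : (M 1 0 : ℂ) * τ + M 1 1 ≠ 0 := h
  simp only [jf, mb, Matrix.mul_apply, Fin.sum_univ_two]
  rw [add_mul, mul_assoc, div_mul_cancel₀ _ h']
  push_cast
  ring

theorem mb_mul (A : Mat) {M : Mat} {τ : ℂ} (h : jf M τ ≠ 0) :
    mb (A * M) τ = mb A (mb M τ) := by
  have h' : (M 1 0 : ℂ) * τ + M 1 1 ≠ 0 := h
  have e1 : mb (A * M) τ = (((A 0 0 : ℂ) * M 0 0 + A 0 1 * M 1 0) * τ +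
      ((A 0 0 : ℂ) * M 0 1 + A 0 1 * M 1 1)) / (((A 1 0 : ℂ) * M 0 0 + A 1 1 * M 1 0) * τ +
      ((A 1 0 : ℂ) * M 0 1 + A 1 1 * M 1 1)) := by
    simp only [mb, Matrix.mul_apply, Fin.sum_univ_two]
    push_cast
    rfl
  have e2 : mb A (mb M τ) = (((A 0 0 : ℂ) * mb M τ + A 0 1) * ((M 1 0 : ℂ) * τ + M 1 1)) /
      (((A 1 0 : ℂ) * mb M τ + A 1 1) * ((M 1 0 : ℂ) * τ + M 1 1)) :=
    (mul_div_mul_right _ _ h').symm
  have e3 : mb M τ * ((M 1 0 : ℂ) * τ + M 1 1) = (M 0 0 : ℂ) * τ + M 0 1 := div_mul_cancel₀ _ h'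
  rw [e1, e2]
  congr 1
  · linear_combination (-(A 0 0 : ℂ)) * e3
  · linear_combination (-(A 1 0 : ℂ)) * e3

theorem cj_mul {D : ℕ} (hD : D ≠ 0) {A M : Mat} (hA : (D : ℤ) ∣ A 1 0) (hM : (D : ℤ) ∣ M 1 0) :
    cj D (A * M) = cj D A * cj D M := by
  obtain ⟨s, hs⟩ := hA
  obtain ⟨t, ht⟩ := hM
  have hD' : (D : ℤ) ≠ 0 := by exact_mod_cast hD
  have h1 : A 1 0 / D = s := by rw [hs, Int.mul_ediv_cancel_left _ hD']
  have h2 : M 1 0 / D = t := by rw [ht, Int.mul_ediv_cancel_left _ hD']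
  have h3 : (A * M) 1 0 / D = s * M 0 0 + A 1 1 * t := by
    have : (A * M) 1 0 = D * (s * M 0 0 + A 1 1 * t) := by
      simp only [Matrix.mul_apply, Fin.sum_univ_two]
      rw [hs, ht]
      ring
    rw [this, Int.mul_ediv_cancel_left _ hD']
  ext i j
  fin_cases i <;> fin_cases j
  · simp only [cj, Matrix.mul_apply, Fin.sum_univ_two, Fin.zero_eta, Fin.isValue, Fin.mk_one,
      Matrix.of_apply, Matrix.cons_val', Matrix.cons_val_zero, Matrix.cons_val_one,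
      Matrix.cons_val_fin_one]
    rw [h2, ht]
    ring
  · simp only [cj, Matrix.mul_apply, Fin.sum_univ_two, Fin.zero_eta, Fin.isValue, Fin.mk_one,
      Matrix.of_apply, Matrix.cons_val', Matrix.cons_val_zero, Matrix.cons_val_one,
      Matrix.cons_val_fin_one]
    ring
  · have e1 : cj D (A * M) 1 0 = (A * M) 1 0 / D := rfl
    have e2 : (cj D A * cj D M) 1 0 = A 1 0 / D * M 0 0 + A 1 1 * (M 1 0 / D) := by
      rw [Matrix.mul_apply, Fin.sum_univ_two]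
      rfl
    show cj D (A * M) 1 0 = (cj D A * cj D M) 1 0
    rw [e1, e2, h3, h1, h2]
  · have e1 : cj D (A * M) 1 1 = (A * M) 1 1 := rfl
    have e2 : (cj D A * cj D M) 1 1 = A 1 0 / D * (D * M 0 1) + A 1 1 * M 1 1 := by
      rw [Matrix.mul_apply, Fin.sum_univ_two]
      rfl
    show cj D (A * M) 1 1 = (cj D A * cj D M) 1 1
    rw [e1, e2, h1, Matrix.mul_apply, Fin.sum_univ_two, hs]
    ring

theorem cj_det {D : ℕ} (hD : D ≠ 0) {M : Mat} (h : M.det = 1) (hM : (D : ℤ) ∣ M 1 0) :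
    (cj D M).det = 1 := by
  obtain ⟨t, ht⟩ := hM
  have hD' : (D : ℤ) ≠ 0 := by exact_mod_cast hD
  have h2 : M 1 0 / D = t := by rw [ht, Int.mul_ediv_cancel_left _ hD']
  have h3 := det2 h
  rw [Matrix.det_fin_two]
  simp [cj, h2]
  rw [ht] at h3
  linear_combination h3

theorem jf_cj {D : ℕ} (hD : D ≠ 0) {M : Mat} (hM : (D : ℤ) ∣ M 1 0) (τ : ℂ) :
    jf (cj D M) (D * τ) = jf M τ := by
  obtain ⟨t, ht⟩ := hM
  have hD' : (D : ℤ) ≠ 0 := by exact_mod_cast hD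
  have h2 : M 1 0 / D = t := by rw [ht, Int.mul_ediv_cancel_left _ hD']
  have e1 : (cj D M) 1 0 = t := h2
  have e2 : (cj D M) 1 1 = M 1 1 := rfl
  rw [jf, jf, e1, e2, ht]
  push_cast
  ring

theorem mb_cj {D : ℕ} (hD : D ≠ 0) {M : Mat} (hM : (D : ℤ) ∣ M 1 0) (τ : ℂ) :
    mb (cj D M) (D * τ) = D * mb M τ := by
  have h1 := jf_cj hD hM τ
  simp only [jf] at h1
  simp only [mb]
  rw [h1, ← mul_div_assoc]
  congr 1
  simp [cj]
  ring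

theorem chi_mul (D : ℕ) {A : Mat} (M : Mat) (hA : (D : ℤ) ∣ A 1 0) :
    jacobiSym ((A * M) 1 1) D = jacobiSym (A 1 1) D * jacobiSym (M 1 1) D := by
  obtain ⟨s, hs⟩ := hA
  rw [← jacobiSym.mul_left]
  apply jacobiSym.mod_left'
  simp only [Matrix.mul_apply, Fin.sum_univ_two]
  rw [hs, mul_assoc, add_comm, Int.add_mul_emod_self_left]

theorem chi_sq (D : ℕ) {M : Mat} (h : M.det = 1) (hM : (D : ℤ) ∣ M 1 0) :
    (jacobiSym (M 1 1) D : ℂ) * (jacobiSym (M 1 1) D : ℂ) = 1 := by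
  obtain ⟨t, ht⟩ := hM
  have hd := det2 h
  have hcop : IsCoprime (M 1 1) (D : ℤ) := ⟨M 0 0, -(M 0 1 * t), by
    rw [ht] at hd
    linear_combination hd⟩
  rw [Int.isCoprime_iff_gcd_eq_one] at hcop
  have h2 := jacobiSym.sq_one hcop
  rw [← sq]
  exact_mod_cast h2

theorem D_ne {D : ℕ} (h : Ok D) : D ≠ 0 := by
  have := h.mod
  rintro rfl
  simp at this

theorem im_D {D : ℕ} (hD : D ≠ 0) {τ : ℂ} (hτ : 0 < τ.im) : 0 < ((D : ℂ) * τ).im := by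
  have h1 : ((D : ℂ) * τ).im = D * τ.im := by simp [Complex.mul_im]
  rw [h1]
  have : (0 : ℝ) < D := by exact_mod_cast Nat.pos_of_ne_zero hD
  positivity

/-- the sum over the second index -/
theorem sumU (U V : Matrix (Fin 2) (Fin 2) ℂ) (r : ℂ) (h : V * V.conjTranspose = r • 1)
    (μ ν : Fin 2) : ∑ ρ, V μ ρ * conj ((U * V) ν ρ) = r * conj (U ν μ) := by
  have e : (V * (U * V).conjTranspose) μ ν = r * conj (U ν μ) := by
    rw [Matrix.conjTranspose_mul, ← Matrix.mul_assoc, h, Matrix.smul_mul, Matrix.one_mul,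
      Matrix.smul_apply, Matrix.conjTranspose_apply, smul_eq_mul]
    rfl
  rw [← e, Matrix.mul_apply]
  rfl

/-- the first statement -/
theorem part1 (h1 : StUm) {D k m : ℕ} {M A : Mat} {τ : ℂ} (μ : Fin 2) (hD : Ok D)
    (hM : M.det = 1) (hA : A.det = 1) (dM : (D : ℤ) ∣ M 1 0) (dA : (D : ℤ) ∣ A 1 0)
    (hτ : 0 < τ.im) : pM D k m A (mb M τ) μ =
      (jacobiSym (M 1 1) D : ℂ) * jf M τ ^ k *
        ∑ ρ, Um (cj D M) (D * τ) μ ρ * pM D k m (A * M) τ ρ := by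
  have hD0 := D_ne hD
  have hj : jf M τ ≠ 0 := jf_ne hM hτ
  have hj2 : jf A (mb M τ) ≠ 0 := jf_ne hA (im_mb hM hτ)
  have hcoc : Um (cj D (A * M)) (D * τ) = Um (cj D A) (D * mb M τ) * Um (cj D M) (D * τ) := by
    rw [cj_mul hD0 dA dM, h1.2.1 _ _ _ (cj_det hD0 hA dA) (cj_det hD0 hM dM) (im_D hD0 hτ),
      mb_cj hD0 dM]
  have hun : Um (cj D M) (D * τ) * (Um (cj D M) (D * τ)).conjTranspose =
      ((‖jf M τ‖ : ℝ) : ℂ) • 1 := by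
    rw [(h1.2.2.1 _ _ (cj_det hD0 hM dM) (im_D hD0 hτ)).1, jf_cj hD0 dM]
  have hS := sumU (Um (cj D A) (D * mb M τ)) _ _ hun μ (pr m)
  have e : ∀ ρ, Um (cj D M) (D * τ) μ ρ * pM D k m (A * M) τ ρ =
      ((jacobiSym (A 1 1) D : ℂ) * (jacobiSym (M 1 1) D : ℂ) *
        ((jf A (mb M τ) * jf M τ) ^ k)⁻¹ * ((‖jf A (mb M τ) * jf M τ‖ : ℝ) : ℂ)⁻¹ *
        ee (m * mb A (mb M τ) / 4)) *
      (Um (cj D M) (D * τ) μ ρ *
        conj ((Um (cj D A) (D * mb M τ) * Um (cj D M) (D * τ)) (pr m) ρ)) := by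
    intro ρ
    rw [pM, jf_mul A hj, mb_mul A hj, chi_mul D M dA, hcoc]
    push_cast
    ring
  rw [Finset.sum_congr rfl fun ρ _ => e ρ, ← Finset.mul_sum, hS, pM, norm_mul, mul_pow]
  have hn : ((‖jf M τ‖ : ℝ) : ℂ) ≠ 0 := by
    exact_mod_cast norm_ne_zero_iff.mpr hj
  have hn2 : ((‖jf A (mb M τ)‖ : ℝ) : ℂ) ≠ 0 := by
    exact_mod_cast norm_ne_zero_iff.mpr hj2
  have hχ := chi_sq D hM dM
  have hjk : jf M τ ^ k * (jf M τ ^ k)⁻¹ = 1 := mul_inv_cancel₀ (pow_ne_zero k hj)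
  have hnn : ((‖jf M τ‖ : ℝ) : ℂ)⁻¹ * ((‖jf M τ‖ : ℝ) : ℂ) = 1 := inv_mul_cancel₀ hn
  rw [mul_inv, Complex.ofReal_mul, mul_inv]
  calc (jacobiSym (A 1 1) D : ℂ) * (jf A (mb M τ) ^ k)⁻¹ * ((‖jf A (mb M τ)‖ : ℝ) : ℂ)⁻¹ *
        conj (Um (cj D A) (D * mb M τ) (pr m) μ) * ee (m * mb A (mb M τ) / 4)
      = (jacobiSym (A 1 1) D : ℂ) * (jf A (mb M τ) ^ k)⁻¹ * ((‖jf A (mb M τ)‖ : ℝ) : ℂ)⁻¹ *
        conj (Um (cj D A) (D * mb M τ) (pr m) μ) * ee (m * mb A (mb M τ) / 4) *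
        ((jacobiSym (M 1 1) D : ℂ) * (jacobiSym (M 1 1) D : ℂ)) *
        (jf M τ ^ k * (jf M τ ^ k)⁻¹) * (((‖jf M τ‖ : ℝ) : ℂ)⁻¹ * ((‖jf M τ‖ : ℝ) : ℂ)) := by
        rw [hχ, hjk, hnn, mul_one, mul_one, mul_one]
    _ = _ := by ring

theorem ee_add (x y : ℂ) : ee (x + y) = ee x * ee y := by
  simp only [ee]
  rw [← Complex.exp_add]
  congr 1
  ring

theorem ee_int (n : ℤ) : ee (n : ℂ) = 1 := by
  have h := Poi.ee_add_int 0 n
  rw [zero_add] at h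
  rw [h]
  simp [ee]

theorem conj_ee (x : ℝ) : conj (ee (x : ℂ)) = ee (-(x : ℂ)) := by
  simp only [ee]
  rw [← Complex.exp_conj]
  congr 1
  simp only [map_mul, Complex.conj_ofReal, Complex.conj_I, map_ofNat]
  ring

/-- `m - D ν^2` is divisible by four -/
theorem four_dvd {D m : ℕ} (hD : Ok D) (hm : Adm m) :
    ∃ q : ℤ, (m : ℤ) - D * ((pr m : ℕ) : ℤ) ^ 2 = 4 * q := by
  have h1 := hD.mod
  rcases hm with h | h
  · have h2 : m % 2 = 0 := by omega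
    have h3 : pr m = 0 := by rw [pr, if_pos h2]
    rw [h3]
    refine ⟨(m / 4 : ℕ), ?_⟩
    have e0 : (((0 : Fin 2) : ℕ) : ℤ) = 0 := rfl
    rw [e0]
    norm_num
    omega
  · have h2 : ¬ m % 2 = 0 := by omega
    have h3 : pr m = 1 := by rw [pr, if_neg h2]
    rw [h3]
    refine ⟨((m : ℤ) - D) / 4, ?_⟩
    have e0 : (((1 : Fin 2) : ℕ) : ℤ) = 1 := rfl
    rw [e0]
    norm_num
    omega

/-- the second statement -/
theorem part2 (h1 : StUm) {D k m : ℕ} {A : Mat} (n : ℤ) {τ : ℂ} (μ : Fin 2) (hD : Ok D)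
    (hm : Adm m) (hA : A.det = 1) (dA : (D : ℤ) ∣ A 1 0) (hτ : 0 < τ.im) :
    pM D k m (!![1, n; 0, 1] * A) τ μ = pM D k m A τ μ := by
  have hD0 := D_ne hD
  have hj : jf A τ ≠ 0 := jf_ne hA hτ
  have hTd : (!![1, n; 0, 1] : Mat).det = 1 := by simp [Matrix.det_fin_two]
  have hT0 : (D : ℤ) ∣ (!![1, n; 0, 1] : Mat) 1 0 := by simp
  have hcT : cj D !![1, n; 0, 1] = !![1, D * n; 0, 1] := by
    ext i j
    fin_cases i <;> fin_cases j <;> simp [cj]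
  have hU : Um (cj D (!![1, n; 0, 1] * A)) (D * τ) (pr m) μ =
      ee (((D * n : ℤ) : ℂ) * ((pr m : ℕ) : ℂ) ^ 2 / 4) * Um (cj D A) (D * τ) (pr m) μ := by
    rw [cj_mul hD0 hT0 dA, h1.2.1 _ _ _ (cj_det hD0 hTd hT0) (cj_det hD0 hA dA) (im_D hD0 hτ),
      hcT, Matrix.mul_apply]
    simp only [h1.2.2.2.2.2, ite_mul, zero_mul, Finset.sum_ite_eq, Finset.mem_univ, if_true]
  have hjT : jf (!![1, n; 0, 1] * A) τ = jf A τ := by
    simp [jf, Matrix.mul_apply, Fin.sum_univ_two]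
  have hmT : mb (!![1, n; 0, 1] * A) τ = mb A τ + n := by
    rw [mb_mul _ hj]
    simp [mb]
  have h11 : (!![1, n; 0, 1] * A) 1 1 = A 1 1 := by
    simp [Matrix.mul_apply, Fin.sum_univ_two]
  obtain ⟨q, hq⟩ := four_dvd hD hm
  have hq' : (m : ℂ) - D * ((pr m : ℕ) : ℂ) ^ 2 = 4 * q := by exact_mod_cast hq
  have hcj : conj (ee (((D * n : ℤ) : ℂ) * ((pr m : ℕ) : ℂ) ^ 2 / 4)) =
      ee (-(((D * n : ℤ) : ℂ) * ((pr m : ℕ) : ℂ) ^ 2 / 4)) := by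
    have h := conj_ee ((D * n : ℤ) * ((pr m : ℕ) : ℝ) ^ 2 / 4)
    push_cast at h ⊢
    exact h
  have hee : ee (m * (mb A τ + n) / 4) =
      ee (m * mb A τ / 4) * ee (((D * n : ℤ) : ℂ) * ((pr m : ℕ) : ℂ) ^ 2 / 4) := by
    have e1 : (m : ℂ) * (mb A τ + n) / 4 =
        (m * mb A τ / 4 + ((D * n : ℤ) : ℂ) * ((pr m : ℕ) : ℂ) ^ 2 / 4) + ((q * n : ℤ) : ℂ) := by
      push_cast
      linear_combination (n : ℂ) / 4 * hq'
    rw [e1, ee_add, ee_int, mul_one, ee_add]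
  have hone : ee (-(((D * n : ℤ) : ℂ) * ((pr m : ℕ) : ℂ) ^ 2 / 4)) *
      ee (((D * n : ℤ) : ℂ) * ((pr m : ℕ) : ℂ) ^ 2 / 4) = 1 := by
    rw [← ee_add, neg_add_cancel]
    simp [ee]
  rw [pM, pM, h11, hjT, hU, hmT, hee, map_mul, hcj]
  linear_combination (jacobiSym (A 1 1) D : ℂ) * ((jf A τ) ^ k)⁻¹ * ((‖jf A τ‖ : ℝ) : ℂ)⁻¹ *
    conj (Um (cj D A) (D * τ) (pr m) μ) * ee (m * mb A τ / 4) * hone

/-- matrices with equal bottom rows -/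
theorem same_bot {A B : Mat} (hA : A.det = 1) (hB : B.det = 1) (h0 : A 1 0 = B 1 0)
    (h1 : A 1 1 = B 1 1) : A = !![1, A 0 1 * B 0 0 - A 0 0 * B 0 1; 0, 1] * B := by
  have dA := det2 hA
  have dB := det2 hB
  rw [h0, h1] at dA
  ext i j
  fin_cases i <;> fin_cases j
  · simp [Matrix.mul_apply, Fin.sum_univ_two]
    linear_combination B 0 0 * dA - A 0 0 * dB
  · simp [Matrix.mul_apply, Fin.sum_univ_two]
    linear_combination B 0 1 * dA - A 0 1 * dB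
  · simpa [Matrix.mul_apply, Fin.sum_univ_two] using h0
  · simpa [Matrix.mul_apply, Fin.sum_univ_two] using h1

theorem vm_det (v : Cop) : (vm v.1).det = 1 := by
  have h := Poi.bez v
  rw [Matrix.det_fin_two]
  simp [vm]
  linear_combination h

theorem dvd_iff {D : ℕ} {M : Mat} (hM : M.det = 1) (dM : (D : ℤ) ∣ M 1 0) (v : Cop) :
    (D : ℤ) ∣ v.1.1 ↔ (D : ℤ) ∣ (Poi.ac ⟨M, hM⟩ v).1.1 := by
  have hd := det2 hM
  obtain ⟨t, ht⟩ := dM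
  have e : (Poi.ac ⟨M, hM⟩ v).1.1 = v.1.1 * M 0 0 + v.1.2 * M 1 0 := rfl
  rw [e]
  constructor
  · rintro ⟨s, hs⟩
    exact ⟨s * M 0 0 + v.1.2 * t, by rw [hs, ht]; ring⟩
  · rintro ⟨s, hs⟩
    refine ⟨s * M 1 1 - v.1.2 * t * M 1 1 - v.1.1 * M 0 1 * t, ?_⟩
    rw [ht] at hs hd
    linear_combination (-v.1.1) * hd + M 1 1 * hs

/-- the permutation of the pairs -/
def eD {D : ℕ} {M : Mat} (hM : M.det = 1) (dM : (D : ℤ) ∣ M 1 0) : CopD D ≃ CopD D :=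
  Equiv.subtypeEquiv (Poi.ac ⟨M, hM⟩) fun v => dvd_iff hM dM v

theorem pM_act (h1 : StUm) {D k m : ℕ} {M : Mat} {τ : ℂ} (ρ : Fin 2) (hD : Ok D) (hm : Adm m)
    (hM : M.det = 1) (dM : (D : ℤ) ∣ M 1 0) (hτ : 0 < τ.im) (v : CopD D) :
    pM D k m (vm v.1.1 * M) τ ρ = pM D k m (vm (eD hM dM v).1.1) τ ρ := by
  have hdet : (vm v.1.1 * M).det = 1 := by rw [Matrix.det_mul, vm_det, hM, one_mul]
  have e0 : (vm v.1.1 * M) 1 0 = (vm (eD hM dM v).1.1) 1 0 := by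
    show _ = (Poi.av ⟨M, hM⟩ v.1.1).1
    simp [Matrix.mul_apply, Fin.sum_univ_two, vm, Poi.av]
  have e1 : (vm v.1.1 * M) 1 1 = (vm (eD hM dM v).1.1) 1 1 := by
    show _ = (Poi.av ⟨M, hM⟩ v.1.1).2
    simp [Matrix.mul_apply, Fin.sum_univ_two, vm, Poi.av]
  have hd2 : (D : ℤ) ∣ (vm (eD hM dM v).1.1) 1 0 := (eD hM dM v).2
  rw [same_bot hdet (vm_det (eD hM dM v).1) e0 e1]
  exact part2 h1 _ ρ hD hm (vm_det (eD hM dM v).1) hd2 hτ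

/-- the third statement -/
theorem part3 (h1 : StUm) (h2 : StPtS) {D k m : ℕ} {M : Mat} {τ : ℂ} (μ : Fin 2) (hD : Ok D)
    (hk : 4 ≤ k) (hm : Adm m) (hm1 : 1 ≤ m) (hM : M.det = 1) (dM : (D : ℤ) ∣ M 1 0)
    (hτ : 0 < τ.im) : PP D k m (mb M τ) μ =
      (jacobiSym (M 1 1) D : ℂ) * jf M τ ^ k *
        ∑ ρ, Um (cj D M) (D * τ) μ ρ * PP D k m τ ρ := by
  have hs : ∀ ρ, Summable fun v : CopD D => pM D k m (vm v.1.1) τ ρ := fun ρ =>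
    (h2.1 D k m τ ρ hD hk hm hm1 hτ).of_norm
  have hs2 : ∀ ρ, Summable fun v : CopD D =>
      Um (cj D M) (D * τ) μ ρ * pM D k m (vm (eD hM dM v).1.1) τ ρ := fun ρ =>
    (((eD hM dM).summable_iff (f := fun v : CopD D => pM D k m (vm v.1.1) τ ρ)).mpr
      (hs ρ)).mul_left _
  have e : ∀ v : CopD D, pM D k m (vm v.1.1) (mb M τ) μ =
      (jacobiSym (M 1 1) D : ℂ) * jf M τ ^ k *
        ∑ ρ, Um (cj D M) (D * τ) μ ρ * pM D k m (vm (eD hM dM v).1.1) τ ρ := by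
    intro v
    rw [part1 h1 μ hD hM (vm_det v.1) dM v.2 hτ]
    congr 1
    exact Finset.sum_congr rfl fun ρ _ => by rw [pM_act h1 ρ hD hm hM dM hτ v]
  rw [PP, tsum_congr e, tsum_mul_left, Summable.tsum_finsetSum fun ρ _ => hs2 ρ]
  simp only [PP]
  rw [mul_left_comm, Finset.mul_sum]
  congr 1
  refine Finset.sum_congr rfl fun ρ _ => ?_
  rw [tsum_mul_left, (eD hM dM).tsum_eq (fun v : CopD D => pM D k m (vm v.1.1) τ ρ)]
  ring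

end PInvAux

open Pool.Agent.Lib.MP_7c08ba_nt.RZ

theorem stPInv (h1 : StUm) (h2 : StPtS) (_h3 : StPoiS) : StPInv :=
  ⟨fun _ _ _ _ _ _ μ hD _ _ hM hA dM dA hτ => PInvAux.part1 h1 μ hD hM hA dM dA hτ,
    fun _ _ _ _ n _ μ hD hm hA dA hτ => PInvAux.part2 h1 n μ hD hm hA dA hτ,
    fun _ _ _ _ _ μ hD hk _ hm hm1 hM dM hτ => PInvAux.part3 h1 h2 μ hD hk hm hm1 hM dM hτ⟩

end LC

end Pool.Agent.Lib.MP_7c5fb9_nt
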