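import Mathlib
import Pool.Agent.Lib.MP_7c5fb9_nt.LC.St

set_option autoImplicit false

/-!
(PtS) Poincaré series of half integral weight: convergence, size, continuity.
-/

namespace Pool.Agent.Lib.MP_7c5fb9_nt

namespace LC

namespace PtSAux

open MeasureTheory UpperHalfPlane Set EisensteinSeries Pool.Agent.Lib.MP_7c08ba_nt.RZ
open LO (Mat disc act mir qv mb)
open scoped MatrixGroups ComplexConjugate

theorem bez (v : Cop) : v.1.1 * Int.gcdA v.1.1 v.1.2 + v.1.2 * Int.gcdB v.1.1 v.1.2 = 1 := by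
  have h := Int.gcd_eq_gcd_ab v.1.1 v.1.2
  rw [Int.isCoprime_iff_gcd_eq_one.mp v.2] at h
  exact_mod_cast h.symm

theorem ne0 (v : Cop) : v.1.1 ≠ 0 ∨ v.1.2 ≠ 0 := by
  by_contra h
  push Not at h
  have := bez v
  rw [h.1, h.2] at this
  simp at this

theorem den_ne (v : Cop) (z : ℂ) (hz : 0 < z.im) : (v.1.1 : ℂ) * z + v.1.2 ≠ 0 := by
  intro h
  have him : ((v.1.1 : ℂ) * z + v.1.2).im = 0 := by rw [h]; simp
  simp only [Complex.add_im, Complex.mul_im, Complex.intCast_re, Complex.intCast_im, zero_mul,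
    add_zero] at him
  have h1 : (v.1.1 : ℝ) = 0 := by
    rcases mul_eq_zero.mp him with h | h
    · exact h
    · exact absurd h hz.ne'
  have h1' : v.1.1 = 0 := by exact_mod_cast h1
  rw [h1'] at h
  simp only [Int.cast_zero, zero_mul, zero_add] at h
  have h2' : v.1.2 = 0 := by exact_mod_cast h
  rcases ne0 v with h3 | h3
  · exact h3 h1'
  · exact h3 h2'

theorem vm10 (p : ℤ × ℤ) : vm p 1 0 = p.1 := by simp [vm]

theorem vm11 (p : ℤ × ℤ) : vm p 1 1 = p.2 := by simp [vm]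

theorem vm_det (v : Cop) : (vm v.1).det = 1 := by
  rw [Matrix.det_fin_two]
  simp only [vm, Matrix.of_apply, Matrix.cons_val_zero, Matrix.cons_val_one, Matrix.cons_val',
    Matrix.cons_val_fin_one]
  have := bez v
  linear_combination this

theorem jf_vm (v : Cop) (τ : ℂ) : jf (vm v.1) τ = (v.1.1 : ℂ) * τ + v.1.2 := by
  rw [jf, vm10, vm11]

theorem mb_vm (v : Cop) (τ : ℂ) : mb (vm v.1) τ = mob v.1 τ := by
  simp [mb, vm, mob, sub_eq_add_neg]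

theorem Dpos {D : ℕ} (hD : Ok D) : 0 < D := by
  have := hD.mod
  omega

theorem cj_det (D : ℕ) (hD : Ok D) (A : Mat) (hA : A.det = 1) (h : (D : ℤ) ∣ A 1 0) :
    (cj D A).det = 1 := by
  obtain ⟨c, hc⟩ := h
  have hD0 : (D : ℤ) ≠ 0 := by
    have := Dpos hD
    positivity
  rw [Matrix.det_fin_two] at hA ⊢
  simp only [cj, Matrix.of_apply, Matrix.cons_val_zero, Matrix.cons_val_one, Matrix.cons_val',
    Matrix.cons_val_fin_one]
  rw [hc, Int.mul_ediv_cancel_left _ hD0]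
  rw [hc] at hA
  linear_combination hA

theorem jf_cj (D : ℕ) (hD : Ok D) (A : Mat) (h : (D : ℤ) ∣ A 1 0) (τ : ℂ) :
    jf (cj D A) (D * τ) = jf A τ := by
  obtain ⟨c, hc⟩ := h
  have hD0 : (D : ℤ) ≠ 0 := by
    have := Dpos hD
    positivity
  simp only [jf, cj, Matrix.of_apply, Matrix.cons_val_zero, Matrix.cons_val_one, Matrix.cons_val',
    Matrix.cons_val_fin_one]
  rw [hc, Int.mul_ediv_cancel_left _ hD0]
  push_cast
  ring

theorem norm_ee (x : ℂ) : ‖ee x‖ = Real.exp (-(2 * Real.pi * x.im)) := by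
  rw [ee, Complex.norm_exp]
  congr 1
  simp only [Complex.mul_re, Complex.re_ofNat, Complex.ofReal_re, Complex.im_ofNat,
    Complex.ofReal_im, mul_zero, sub_zero, Complex.I_re, Complex.mul_im, zero_mul, add_zero,
    Complex.I_im, mul_one, zero_sub]

theorem norm_jac (a : ℤ) (D : ℕ) : ‖((jacobiSym a D : ℤ) : ℂ)‖ ≤ 1 := by
  rcases jacobiSym.trichotomy a D with h | h | h <;> rw [h] <;> simp

/-- The bound of a term. -/
theorem pM_le (h1 : StUm) (h2 : StPoiS) {D k m : ℕ} (hD : Ok D) (hm : 1 ≤ m) (v : CopD D) {τ : ℂ}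
    (μ : Fin 2) (hτ : 0 < τ.im) :
    ‖pM D k m (vm v.1.1) τ μ‖ ≤ ‖(v.1.1.1 : ℂ) * τ + v.1.1.2‖ ^ (-((k : ℝ) + 1 / 2)) *
      Real.exp (-(τ.im / ‖(v.1.1.1 : ℂ) * τ + v.1.1.2‖ ^ 2)) := by
  have hdv : (D : ℤ) ∣ (vm v.1.1) 1 0 := by rw [vm10]; exact v.2
  have hdet := vm_det v.1
  have hdet' := cj_det D hD _ hdet hdv
  have hD0 : (0 : ℝ) < D := by exact_mod_cast Dpos hD
  have hDτ : 0 < ((D : ℂ) * τ).im := by
    simp only [Complex.mul_im, Complex.natCast_re, Complex.natCast_im, zero_mul, add_zero]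
    positivity
  have hU := (h1.2.2.1 (cj D (vm v.1.1)) (D * τ) hdet' hDτ).2.2 (pr m) μ
  rw [jf_cj D hD _ hdv, jf_vm] at hU
  set J : ℝ := ‖(v.1.1.1 : ℂ) * τ + v.1.1.2‖ with hJ
  have hJ0 : 0 < J := norm_pos_iff.mpr (den_ne v.1 τ hτ)
  have him := (h2.2 v.1 τ hτ)
  have hexp : ‖ee (m * mb (vm v.1.1) τ / 4)‖ ≤ Real.exp (-(τ.im / J ^ 2)) := by
    rw [norm_ee, mb_vm]
    apply Real.exp_le_exp.mpr
    have e1 : ((m : ℂ) * mob v.1.1 τ / 4).im = m * (mob v.1.1 τ).im / 4 := by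
      have e2 : (m : ℂ) * mob v.1.1 τ / 4 = ((m / 4 : ℝ) : ℂ) * mob v.1.1 τ := by
        push_cast
        ring
      rw [e2, Complex.im_ofReal_mul]
      ring
    rw [e1]
    have e3 : (mob v.1.1 τ).im = τ.im / J ^ 2 := by
      rw [him.2, Complex.normSq_eq_norm_sq]
    rw [e3]
    set X : ℝ := τ.im / J ^ 2 with hX
    have hX0 : 0 < X := by positivity
    have hm1 : (1 : ℝ) ≤ m := by exact_mod_cast hm
    have hpi : (3 : ℝ) < Real.pi := Real.pi_gt_three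
    have e4 : X ≤ 2 * Real.pi * (m * X / 4) := by
      have e5 : X ≤ m * X := by nlinarith
      have e6 : 0 ≤ (m : ℝ) * X := by positivity
      nlinarith
    linarith
  have hjac := norm_jac ((vm v.1.1) 1 1) D
  have hpow : (J ^ k)⁻¹ * J⁻¹ * J ^ (1 / 2 : ℝ) = J ^ (-((k : ℝ) + 1 / 2)) := by
    rw [← Real.rpow_natCast, ← Real.rpow_neg hJ0.le, ← Real.rpow_neg_one J, ← Real.rpow_add hJ0,
      ← Real.rpow_add hJ0]
    congr 1
    ring
  rw [pM, jf_vm, norm_mul, norm_mul, norm_mul, norm_mul, norm_inv, norm_pow, norm_inv, ← hJ,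
    Complex.norm_real, Real.norm_eq_abs, abs_of_pos hJ0, RCLike.norm_conj]
  calc ‖((jacobiSym ((vm v.1.1) 1 1) D : ℤ) : ℂ)‖ * (J ^ k)⁻¹ * J⁻¹ *
        ‖Um (cj D (vm v.1.1)) (D * τ) (pr m) μ‖ * ‖ee (m * mb (vm v.1.1) τ / 4)‖
      ≤ 1 * (J ^ k)⁻¹ * J⁻¹ * J ^ (1 / 2 : ℝ) * Real.exp (-(τ.im / J ^ 2)) := by
        gcongr
    _ = _ := by rw [one_mul, hpow]

/-- The vector attached to a pair. -/
def vc {D : ℕ} (v : CopD D) : Fin 2 → ℤ := ![v.1.1.1, v.1.1.2]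

theorem vc_inj {D : ℕ} : Function.Injective (vc (D := D)) := by
  intro v v' h
  have h0 := congrFun h 0
  have h1 := congrFun h 1
  simp only [vc, Matrix.cons_val_zero, Matrix.cons_val_one] at h0 h1
  exact Subtype.ext (Subtype.ext (Prod.ext h0 h1))

theorem vc_summable {D : ℕ} {s : ℝ} (hs : 2 < s) :
    Summable fun v : CopD D => ‖vc v‖ ^ (-s) :=
  (summable_one_div_norm_rpow hs).comp_injective vc_inj

/-- The bound of the size of the denominator. -/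
theorem J_le {D : ℕ} (v : CopD D) {A B s : ℝ} (hB : 0 < B) (hs : 0 ≤ s) {τ : ℂ} (hA : |τ.re| ≤ A)
    (hB' : B ≤ τ.im) : ‖(v.1.1.1 : ℂ) * τ + v.1.1.2‖ ^ (-s) ≤
      r ⟨⟨A, B⟩, hB⟩ ^ (-s) * ‖vc v‖ ^ (-s) := by
  have hz : 0 < τ.im := lt_of_lt_of_le hB hB'
  exact summand_bound_of_mem_verticalStrip (z := ⟨τ, hz⟩) hs (vc v) hB ⟨hA, hB'⟩

/-- The exponential beats powers. -/
theorem pow_exp_le {a x : ℝ} {n : ℕ} (ha : 0 ≤ a) (han : a ≤ n) (hx : 0 < x) :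
    x ^ a * Real.exp (-x) ≤ n.factorial := by
  have hn1 : (1 : ℝ) ≤ n.factorial := by exact_mod_cast Nat.one_le_iff_ne_zero.mpr n.factorial_ne_zero
  rcases le_or_gt x 1 with h | h
  · have e1 : x ^ a ≤ 1 := Real.rpow_le_one hx.le h ha
    have e2 : Real.exp (-x) ≤ 1 := by
      rw [Real.exp_le_one_iff]
      linarith
    calc x ^ a * Real.exp (-x) ≤ 1 * 1 := by gcongr
      _ ≤ n.factorial := by linarith
  · have e1 : x ^ a ≤ x ^ n := by
      rw [← Real.rpow_natCast]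
      exact Real.rpow_le_rpow_of_exponent_le h.le han
    have e2 : x ^ n / n.factorial ≤ Real.exp x := Real.pow_div_factorial_le_exp x hx.le n
    have e3 : x ^ n ≤ Real.exp x * n.factorial := by
      rwa [div_le_iff₀ (by positivity)] at e2
    calc x ^ a * Real.exp (-x) ≤ (Real.exp x * n.factorial) * Real.exp (-x) := by
          gcongr
          exact e1.trans e3
      _ = n.factorial * (Real.exp x * Real.exp (-x)) := by ring
      _ = n.factorial := by rw [← Real.exp_add]; simp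

/-- The second bound of a term. -/
theorem pM_le2 (h1 : StUm) (h2 : StPoiS) {D k m : ℕ} (hD : Ok D) (hk : 4 ≤ k) (hm : 1 ≤ m)
    (v : CopD D) {τ : ℂ} (μ : Fin 2) (hτ : 0 < τ.im) :
    ‖pM D k m (vm v.1.1) τ μ‖ ≤ k.factorial * τ.im ^ (5 / 4 - (k : ℝ) / 2) *
      ‖(v.1.1.1 : ℂ) * τ + v.1.1.2‖ ^ (-(3 : ℝ)) := by
  refine (pM_le h1 h2 hD hm v μ hτ).trans ?_
  set J : ℝ := ‖(v.1.1.1 : ℂ) * τ + v.1.1.2‖ with hJ
  have hJ0 : 0 < J := norm_pos_iff.mpr (den_ne v.1 τ hτ)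
  set X : ℝ := τ.im / J ^ 2 with hX
  have hX0 : 0 < X := by positivity
  have hk' : (4 : ℝ) ≤ k := by exact_mod_cast hk
  have e1 := pow_exp_le (a := (k : ℝ) / 2 - 5 / 4) (x := X) (n := k) (by linarith) (by linarith) hX0
  have e2 : J ^ (-((k : ℝ) + 1 / 2)) = τ.im ^ (5 / 4 - (k : ℝ) / 2) * J ^ (-(3 : ℝ)) *
      X ^ ((k : ℝ) / 2 - 5 / 4) := by
    rw [hX, Real.div_rpow hτ.le (by positivity), ← Real.rpow_natCast J 2, ← Real.rpow_mul hJ0.le,
      div_eq_mul_inv (τ.im ^ ((k : ℝ) / 2 - 5 / 4)), ← Real.rpow_neg hJ0.le]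
    have e3 : τ.im ^ (5 / 4 - (k : ℝ) / 2) * τ.im ^ ((k : ℝ) / 2 - 5 / 4) = 1 := by
      rw [← Real.rpow_add hτ]
      have : (5 / 4 - (k : ℝ) / 2) + ((k : ℝ) / 2 - 5 / 4) = 0 := by ring
      rw [this, Real.rpow_zero]
    have e4 : J ^ (-(3 : ℝ)) * J ^ (-(((2 : ℕ) : ℝ) * ((k : ℝ) / 2 - 5 / 4))) =
        J ^ (-((k : ℝ) + 1 / 2)) := by
      rw [← Real.rpow_add hJ0]
      congr 1
      push_cast
      ring
    rw [← e4]
    linear_combination (-(J ^ (-(3 : ℝ)) * J ^ (-(((2 : ℕ) : ℝ) * ((k : ℝ) / 2 - 5 / 4))))) * e3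
  rw [e2]
  calc τ.im ^ (5 / 4 - (k : ℝ) / 2) * J ^ (-(3 : ℝ)) * X ^ ((k : ℝ) / 2 - 5 / 4) * Real.exp (-X)
      = τ.im ^ (5 / 4 - (k : ℝ) / 2) * J ^ (-(3 : ℝ)) *
        (X ^ ((k : ℝ) / 2 - 5 / 4) * Real.exp (-X)) := by ring
    _ ≤ τ.im ^ (5 / 4 - (k : ℝ) / 2) * J ^ (-(3 : ℝ)) * k.factorial := by gcongr
    _ = _ := by ring

/-- The first bound with a dominating series. -/
theorem pM_dom (h1 : StUm) (h2 : StPoiS) {D k m : ℕ} (hD : Ok D) (hm : 1 ≤ m) (v : CopD D) {τ : ℂ}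
    (μ : Fin 2) {A B : ℝ} (hB : 0 < B) (hA : |τ.re| ≤ A) (hB' : B ≤ τ.im) :
    ‖pM D k m (vm v.1.1) τ μ‖ ≤ r ⟨⟨A, B⟩, hB⟩ ^ (-((k : ℝ) + 1 / 2)) *
      ‖vc v‖ ^ (-((k : ℝ) + 1 / 2)) := by
  have hτ : 0 < τ.im := lt_of_lt_of_le hB hB'
  have hk0 : (0 : ℝ) ≤ k := Nat.cast_nonneg k
  refine (pM_le h1 h2 hD hm v μ hτ).trans (le_trans ?_ (J_le v hB (by linarith) hA hB'))
  have e1 : Real.exp (-(τ.im / ‖(v.1.1.1 : ℂ) * τ + v.1.1.2‖ ^ 2)) ≤ 1 := by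
    rw [Real.exp_le_one_iff]
    have : 0 ≤ τ.im / ‖(v.1.1.1 : ℂ) * τ + v.1.1.2‖ ^ 2 := by positivity
    linarith
  exact mul_le_of_le_one_right (by positivity) e1

theorem pM_summable (h1 : StUm) (h2 : StPoiS) {D k m : ℕ} (hD : Ok D) (hk : 4 ≤ k) (hm : 1 ≤ m)
    {τ : ℂ} (μ : Fin 2) (hτ : 0 < τ.im) :
    Summable fun v : CopD D => ‖pM D k m (vm v.1.1) τ μ‖ := by
  have hk' : (4 : ℝ) ≤ k := by exact_mod_cast hk
  refine Summable.of_nonneg_of_le (fun _ => norm_nonneg _)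
    (fun v => pM_dom h1 h2 hD hm v μ hτ le_rfl le_rfl)
    ((vc_summable (s := (k : ℝ) + 1 / 2) (by linarith)).mul_left _)

theorem r_ge {y : ℝ} (hy : 0 < y) (hy1 : y ≤ 1) : y / 2 ≤ r ⟨⟨1, y⟩, hy⟩ := by
  rw [r]
  apply le_min
  · show y / 2 ≤ y
    linarith
  · apply Real.le_sqrt_of_sq_le
    rw [r1]
    show (y / 2) ^ 2 ≤ y ^ 2 / (1 ^ 2 + y ^ 2)
    rw [le_div_iff₀ (by positivity)]
    have e1 : y ^ 2 ≤ 1 := by nlinarith
    have e2 : 0 ≤ y ^ 2 := sq_nonneg y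
    nlinarith

theorem pM_bound (h1 : StUm) (h2 : StPoiS) {D k : ℕ} (hD : Ok D) (hk : 4 ≤ k) :
    ∃ C : ℝ, 0 ≤ C ∧ ∀ (m : ℕ) (τ : ℂ) (μ : Fin 2), Adm m → 1 ≤ m →
      0 < τ.im → |τ.re| ≤ 1 → ∑' v : CopD D, ‖pM D k m (vm v.1.1) τ μ‖ ≤
        C * (1 + τ.im ^ (-((k : ℝ) / 2 + 7 / 4))) := by
  have hk' : (4 : ℝ) ≤ k := by exact_mod_cast hk
  set S1 : ℝ := ∑' v : CopD D, ‖vc v‖ ^ (-((k : ℝ) + 1 / 2)) with hS1
  set S2 : ℝ := ∑' v : CopD D, ‖vc v‖ ^ (-(3 : ℝ)) with hS2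
  have hS1' : 0 ≤ S1 := tsum_nonneg fun v => by positivity
  have hS2' : 0 ≤ S2 := tsum_nonneg fun v => by positivity
  set R : ℝ := r ⟨⟨1, 1⟩, one_pos⟩ ^ (-((k : ℝ) + 1 / 2)) with hR
  have hR0 : 0 ≤ R := Real.rpow_nonneg (r_pos _).le _
  refine ⟨R * S1 + 8 * k.factorial * S2, by positivity, ?_⟩
  intro m τ μ _ hm hτ hre
  have hs := pM_summable h1 h2 (k := k) hD hk hm μ hτ
  have hY : 0 ≤ τ.im ^ (-((k : ℝ) / 2 + 7 / 4)) := by positivity
  rcases le_or_gt τ.im 1 with hy | hy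
  · -- near the real line
    have e1 : ∀ v : CopD D, ‖pM D k m (vm v.1.1) τ μ‖ ≤
        (8 * k.factorial * τ.im ^ (-((k : ℝ) / 2 + 7 / 4))) * ‖vc v‖ ^ (-(3 : ℝ)) := by
      intro v
      refine (pM_le2 h1 h2 hD hk hm v μ hτ).trans ?_
      have e2 := J_le v (A := 1) (B := τ.im) (s := 3) hτ (by norm_num) hre le_rfl
      have e3 : r ⟨⟨1, τ.im⟩, hτ⟩ ^ (-(3 : ℝ)) ≤ (τ.im / 2) ^ (-(3 : ℝ)) :=
        Real.rpow_le_rpow_of_nonpos (by positivity) (r_ge hτ hy) (by norm_num)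
      have e4 : (τ.im / 2) ^ (-(3 : ℝ)) = 8 * τ.im ^ (-(3 : ℝ)) := by
        rw [Real.div_rpow hτ.le (by norm_num), Real.rpow_neg (by norm_num : (0 : ℝ) ≤ 2)]
        norm_num
        ring
      have e5 : τ.im ^ (5 / 4 - (k : ℝ) / 2) * τ.im ^ (-(3 : ℝ)) =
          τ.im ^ (-((k : ℝ) / 2 + 7 / 4)) := by
        rw [← Real.rpow_add hτ]
        congr 1
        ring
      calc k.factorial * τ.im ^ (5 / 4 - (k : ℝ) / 2) * ‖(v.1.1.1 : ℂ) * τ + v.1.1.2‖ ^ (-(3 : ℝ))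
          ≤ k.factorial * τ.im ^ (5 / 4 - (k : ℝ) / 2) *
            ((8 * τ.im ^ (-(3 : ℝ))) * ‖vc v‖ ^ (-(3 : ℝ))) := by
            gcongr
            refine e2.trans ?_
            gcongr
            exact e3.trans e4.le
        _ = 8 * k.factorial * (τ.im ^ (5 / 4 - (k : ℝ) / 2) * τ.im ^ (-(3 : ℝ))) *
            ‖vc v‖ ^ (-(3 : ℝ)) := by ring
        _ = _ := by rw [e5]
    calc ∑' v : CopD D, ‖pM D k m (vm v.1.1) τ μ‖
        ≤ ∑' v : CopD D, (8 * k.factorial * τ.im ^ (-((k : ℝ) / 2 + 7 / 4))) *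
          ‖vc v‖ ^ (-(3 : ℝ)) :=
          hs.tsum_le_tsum e1 ((vc_summable (by norm_num)).mul_left _)
      _ = (8 * k.factorial * S2) * τ.im ^ (-((k : ℝ) / 2 + 7 / 4)) := by
          rw [tsum_mul_left, ← hS2]
          ring
      _ ≤ (R * S1 + 8 * k.factorial * S2) * (1 + τ.im ^ (-((k : ℝ) / 2 + 7 / 4))) := by
          gcongr
          · have := mul_nonneg hR0 hS1'
            linarith
          · linarith
  · -- far from the real line
    calc ∑' v : CopD D, ‖pM D k m (vm v.1.1) τ μ‖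
        ≤ ∑' v : CopD D, R * ‖vc v‖ ^ (-((k : ℝ) + 1 / 2)) :=
          hs.tsum_le_tsum (fun v => pM_dom h1 h2 hD hm v μ one_pos hre hy.le)
            ((vc_summable (by linarith)).mul_left _)
      _ = (R * S1) * 1 := by rw [tsum_mul_left, ← hS1, mul_one]
      _ ≤ (R * S1 + 8 * k.factorial * S2) * (1 + τ.im ^ (-((k : ℝ) / 2 + 7 / 4))) := by
          gcongr
          · have : 0 ≤ 8 * (k.factorial : ℝ) * S2 := by positivity
            linarith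
          · linarith

/-! ### Continuity -/

theorem pM_cont (h1 : StUm) {D k m : ℕ} (hD : Ok D) (v : CopD D) (μ : Fin 2) :
    ContinuousOn (fun τ => pM D k m (vm v.1.1) τ μ) {τ : ℂ | 0 < τ.im} := by
  have hdv : (D : ℤ) ∣ (vm v.1.1) 1 0 := by rw [vm10]; exact v.2
  have hdet' := cj_det D hD _ (vm_det v.1) hdv
  have hD0 : (0 : ℝ) < D := by exact_mod_cast Dpos hD
  have hne : ∀ τ ∈ {τ : ℂ | 0 < τ.im}, jf (vm v.1.1) τ ≠ 0 := fun τ hτ => by
    rw [jf_vm]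
    exact den_ne v.1 τ hτ
  have hj : ContinuousOn (fun τ => jf (vm v.1.1) τ) {τ : ℂ | 0 < τ.im} := by
    unfold jf
    fun_prop
  have hU : ContinuousOn (fun τ : ℂ => Um (cj D (vm v.1.1)) (D * τ) (pr m) μ)
      {τ : ℂ | 0 < τ.im} := by
    refine (h1.2.2.2.1 (cj D (vm v.1.1)) (pr m) μ hdet').comp
      (f := fun τ : ℂ => (D : ℂ) * τ) (by fun_prop) ?_
    intro τ hτ
    show 0 < ((D : ℂ) * τ).im
    have hτ' : 0 < τ.im := hτ
    simp only [Complex.mul_im, Complex.natCast_re, Complex.natCast_im, zero_mul, add_zero]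
    positivity
  have hmb : ContinuousOn (fun τ => mb (vm v.1.1) τ) {τ : ℂ | 0 < τ.im} := by
    unfold mb
    exact ContinuousOn.div (by fun_prop) (by fun_prop) hne
  have hee : Continuous ee := by
    unfold ee
    fun_prop
  have hmb4 : ContinuousOn (fun τ => ee (m * mb (vm v.1.1) τ / 4)) {τ : ℂ | 0 < τ.im} :=
    hee.comp_continuousOn ((continuousOn_const.mul hmb).div_const 4)
  have hji : ContinuousOn (fun τ => ((jf (vm v.1.1) τ) ^ k)⁻¹) {τ : ℂ | 0 < τ.im} :=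
    (hj.pow k).inv₀ fun τ hτ => pow_ne_zero k (hne τ hτ)
  have hjn : ContinuousOn (fun τ => ((‖jf (vm v.1.1) τ‖ : ℝ) : ℂ)⁻¹) {τ : ℂ | 0 < τ.im} := by
    refine (Complex.continuous_ofReal.comp_continuousOn hj.norm).inv₀ fun τ hτ => ?_
    have := hne τ hτ
    simpa using this
  unfold pM
  exact (((continuousOn_const.mul hji).mul hjn).mul
    (Complex.continuous_conj.comp_continuousOn hU)).mul hmb4

theorem PP_cont (h1 : StUm) (h2 : StPoiS) {D k m : ℕ} (hD : Ok D) (hk : 4 ≤ k) (hm : 1 ≤ m)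
    (μ : Fin 2) : ContinuousOn (fun τ => PP D k m τ μ) {τ : ℂ | 0 < τ.im} := by
  have hk' : (4 : ℝ) ≤ k := by exact_mod_cast hk
  intro z hz
  have hz' : 0 < z.im := hz
  set U : Set ℂ := {u : ℂ | |u.re| < |z.re| + 1 ∧ z.im / 2 < u.im} with hU
  have hUo : IsOpen U := by
    have h1 : IsOpen {u : ℂ | |u.re| < |z.re| + 1} :=
      isOpen_lt (continuous_abs.comp Complex.continuous_re) continuous_const
    have h2 : IsOpen {u : ℂ | z.im / 2 < u.im} :=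
      isOpen_lt continuous_const Complex.continuous_im
    exact h1.inter h2
  have hzU : z ∈ U := ⟨by linarith, by linarith⟩
  have hsub : U ⊆ {z : ℂ | 0 < z.im} := fun u hu => by
    have := hu.2
    show 0 < u.im
    linarith
  have hB : 0 < z.im / 2 := by linarith
  have h3 : ContinuousOn (fun τ => ∑' v : CopD D, pM D k m (vm v.1.1) τ μ) U :=
    continuousOn_tsum (fun v => (pM_cont h1 hD v μ).mono hsub)
      ((vc_summable (s := (k : ℝ) + 1 / 2) (by linarith)).mul_left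
        (r ⟨⟨|z.re| + 1, z.im / 2⟩, hB⟩ ^ (-((k : ℝ) + 1 / 2))))
      (fun v u hu => pM_dom h1 h2 hD hm v μ hB hu.1.le hu.2.le)
  have h4 : ContinuousAt (fun τ => ∑' v : CopD D, pM D k m (vm v.1.1) τ μ) z :=
    (h3 z hzU).continuousAt (hUo.mem_nhds hzU)
  exact (h4.const_mul (1 / 2)).continuousWithinAt

end PtSAux

open Pool.Agent.Lib.MP_7c08ba_nt.RZ in
/-- (PtS) Poincaré series: convergence, size, continuity -/
theorem stPtS (h1 : StUm) (h2 : StPoiS) : StPtS :=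
  ⟨fun _ _ _ _ μ hD hk _ hm hτ => PtSAux.pM_summable h1 h2 hD hk hm μ hτ,
    fun _ _ hD hk => PtSAux.pM_bound h1 h2 hD hk,
    fun _ _ _ μ hD hk _ hm => PtSAux.PP_cont h1 h2 hD hk hm μ⟩

end LC

end Pool.Agent.Lib.MP_7c5fb9_nt
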