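import Mathlib
import Pool.Agent.Lib.MP_7c5fb9_nt.LC.St

set_option autoImplicit false

/-!
Module Rec (project LC): a consequence of quadratic reciprocity.
-/

namespace Pool.Agent.Lib.MP_7c5fb9_nt

namespace LC

namespace RecAux

open scoped NumberTheorySymbols

/-- `(m / D) = 1` for odd `m` with `D j² = 1` modulo `m` -/
theorem odd_part {D m : ℕ} (hD : D % 4 = 1) (hm : Odd m) {j : ℤ}
    (h : (m : ℤ) ∣ D * j ^ 2 - 1) : J((m : ℤ) | D) = 1 := by
  have h1 : J((D : ℤ) * j ^ 2 | m) = 1 := by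
    rw [jacobiSym.mod_left' (Int.modEq_iff_dvd.2 h).symm, jacobiSym.one_left]
  rw [jacobiSym.mul_left, pow_two, jacobiSym.mul_left] at h1
  have h2 : J((D : ℤ) | m) = 1 := by
    rcases jacobiSym.trichotomy j m with h3 | h3 | h3
    · rw [h3] at h1
      simp at h1
    · rw [h3] at h1
      simpa using h1
    · rw [h3] at h1
      simpa using h1
  rw [← jacobiSym.quadratic_reciprocity_one_mod_four hD hm]
  exact h2

end RecAux

open RecAux in
open scoped NumberTheorySymbols in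
theorem stRec : StRec := by
  intro D g j C hD h
  have hD4 := hD.mod
  have hDodd : Odd D := Nat.odd_iff.2 (by omega)
  rcases eq_or_ne C 0 with rfl | hC
  · have h1 : (D : ℤ) ∣ 1 := ⟨j ^ 2, by linarith⟩
    have h2 : D ∣ 1 := by exact_mod_cast h1
    have h3 : D = 1 := Nat.dvd_one.1 h2
    rw [h3, jacobiSym.one_right]
  obtain ⟨e, m, hm, hem⟩ := Nat.exists_eq_two_pow_mul_odd (Int.natAbs_ne_zero.2 hC)
  have hneg : J(-1 | D) = 1 := by
    rw [jacobiSym.at_neg_one hDodd, ZMod.χ₄_nat_one_mod_four hD4]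
  have hmC : (m : ℤ) ∣ C := by
    rw [← Int.natAbs_dvd_natAbs, Int.natAbs_natCast, hem]
    exact dvd_mul_left _ _
  have h1 : J((m : ℤ) | D) = 1 := by
    refine odd_part hD4 hm (j := j) ?_
    have h2 : (D : ℤ) * j ^ 2 - 1 = 4 * g * C := by linarith
    rw [h2]
    exact hmC.mul_left _
  have h2 : J(2 | D) ^ e = 1 := by
    rcases Nat.eq_zero_or_pos e with he | he
    · rw [he, pow_zero]
    · have h3 : (2 : ℤ) ∣ C := by
        rw [← Int.natAbs_dvd_natAbs, hem]
        exact (dvd_pow_self 2 he.ne').mul_right m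
      obtain ⟨C', rfl⟩ := h3
      have h4 : (D : ℤ) * j ^ 2 = 8 * (g * C') + 1 := by linarith
      have h5 : D % 8 = 1 := by
        have h6 : ((D : ℤ) * j ^ 2) % 8 = 1 := by omega
        have h7 : (D : ℤ) % 8 = 1 ∨ (D : ℤ) % 8 = 5 := by omega
        have h8 : j % 8 = 0 ∨ j % 8 = 1 ∨ j % 8 = 2 ∨ j % 8 = 3 ∨ j % 8 = 4 ∨ j % 8 = 5 ∨
          j % 8 = 6 ∨ j % 8 = 7 := by omega
        have h9 : ((D : ℤ) * j ^ 2) % 8 = ((D : ℤ) % 8 * (j % 8) ^ 2) % 8 :=
          ((Int.mod_modEq (D : ℤ) 8).mul ((Int.mod_modEq j 8).pow 2)).symm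
        rw [h9] at h6
        rcases h7 with h7 | h7
        · omega
        · exfalso
          rw [h7] at h6
          rcases h8 with h8 | h8 | h8 | h8 | h8 | h8 | h8 | h8 <;> rw [h8] at h6 <;> norm_num at h6
      rw [jacobiSym.at_two hDodd, ZMod.χ₈_nat_eq_if_mod_eight]
      have h10 : ¬ D % 2 = 0 := by omega
      rw [if_neg h10, if_pos (Or.inl h5), one_pow]
  have h3 : J(((C.natAbs : ℕ) : ℤ) | D) = 1 := by
    rw [hem]
    push_cast
    rw [jacobiSym.mul_left, jacobiSym.pow_left, h2, h1, one_mul]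
  rcases Int.natAbs_eq C with h4 | h4
  · rw [h4]
    exact h3
  · rw [h4, ← neg_one_mul, jacobiSym.mul_left, hneg, one_mul]
    exact h3

end LC

end Pool.Agent.Lib.MP_7c5fb9_nt
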