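import Mathlib
import Pool.Agent.Lib.MP_7c5fb9_nt.LC.St

set_option autoImplicit false

/-!
Project LC, module Rep: representatives of the classes `Γ₀(D) g`.
-/

namespace Pool.Agent.Lib.MP_7c5fb9_nt

namespace LC

open MatrixGroups CongruenceSubgroup

theorem stRep : StRep := by
  intro D hD
  haveI : NeZero D := ⟨by omega⟩
  haveI : Finite (SL(2, ℤ) ⧸ Gamma0 D) := Subgroup.finite_quotient_of_finiteIndex
  refine ⟨SL(2, ℤ) ⧸ Gamma0 D, Fintype.ofFinite _, fun i => (Quotient.out i)⁻¹, ⟨fun g => ?_⟩⟩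
  have key : ∀ i : SL(2, ℤ) ⧸ Gamma0 D,
      (D : ℤ) ∣ (g * ((Quotient.out i)⁻¹)⁻¹) 1 0 ↔ ((g⁻¹ : SL(2, ℤ)) : SL(2, ℤ) ⧸ Gamma0 D) = i := by
    intro i
    rw [inv_inv]
    have h1 : ((Quotient.out i : SL(2, ℤ)) : SL(2, ℤ) ⧸ Gamma0 D) = i := Quotient.out_eq i
    conv_rhs => rw [← h1]
    rw [QuotientGroup.eq, inv_inv, Gamma0_mem, ZMod.intCast_zmod_eq_zero_iff_dvd]
  refine ⟨((g⁻¹ : SL(2, ℤ)) : SL(2, ℤ) ⧸ Gamma0 D), (key _).2 rfl, fun i hi => ((key i).1 hi).symm⟩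

end LC

end Pool.Agent.Lib.MP_7c5fb9_nt
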