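import Mathlib
import Pool.Agent.Lib.MP_7c5fb9_nt.LC.St
import Pool.Agent.Lib.MP_7c5fb9_nt.LO.Basic

set_option autoImplicit false

/-!
Level one (project LC): the automorphs of forms of discriminant `D`.
-/

namespace Pool.Agent.Lib.MP_7c5fb9_nt

namespace LC

open LO (Mat disc act Fund aut)
open scoped MatrixGroups

namespace StabAux

variable {D : ℕ} {Q : LO.Frm}

/-- The element of `SL(2, ℤ)` given by a solution. -/
def el (hD : disc Q = D) {t u : ℤ} (h : t ^ 2 - D * u ^ 2 = 4) : SL(2, ℤ) :=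
  ⟨aut Q t u, LO.det_aut hD h⟩

theorem sm_el (hD : disc Q = D) {t u : ℤ} (h : t ^ 2 - D * u ^ 2 = 4) :
    sm (el hD h) = aut Q t u := rfl

theorem sm_inj {g h : SL(2, ℤ)} (e : sm g = sm h) : g = h := Subtype.ext e

theorem sm_mul (g h : SL(2, ℤ)) : sm (g * h) = sm g * sm h := rfl

theorem four {x y : ℤ} (h : 4 * x = 4 * y) : x = y := by omega

/-- The product of two automorphs. -/
theorem aut_mul (hD : disc Q = D) {t u t' u' : ℤ} (h : t ^ 2 - D * u ^ 2 = 4)
    (h' : t' ^ 2 - D * u' ^ 2 = 4) : ∃ T U : ℤ, 2 * T = t * t' + D * (u * u') ∧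
      2 * U = t * u' + t' * u ∧ T ^ 2 - D * U ^ 2 = 4 ∧ aut Q t u * aut Q t' u' = aut Q T U := by
  obtain ⟨a1, a2⟩ := LO.aut_two hD h
  obtain ⟨b1, b2⟩ := LO.aut_two hD h'
  have h3 : (D : ℤ) = Q 1 ^ 2 - 4 * Q 0 * Q 2 := by rw [← hD]; rfl
  set p := (t - Q 1 * u) / 2 with hp
  set s := (t + Q 1 * u) / 2 with hs
  set p' := (t' - Q 1 * u') / 2 with hp'
  set s' := (t' + Q 1 * u') / 2 with hs'
  -- the candidates
  obtain ⟨T, hT⟩ : ∃ T, 2 * T = t * t' + D * (u * u') := by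
    refine ⟨p * p' + s * s' - 2 * Q 0 * Q 2 * (u * u'), ?_⟩
    apply four
    rw [h3]
    have e1 : 4 * (p * p') = (t - Q 1 * u) * (t' - Q 1 * u') := by rw [← a1, ← b1]; ring
    have e2 : 4 * (s * s') = (t + Q 1 * u) * (t' + Q 1 * u') := by rw [← a2, ← b2]; ring
    linear_combination 2 * e1 + 2 * e2
  obtain ⟨U, hU⟩ : ∃ U, 2 * U = t * u' + t' * u := by
    refine ⟨p * u' + s' * u, ?_⟩
    linear_combination u' * a1 + u * b2
  have hTU : T ^ 2 - D * U ^ 2 = 4 := by
    apply four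
    have e1 : 4 * (T ^ 2 - D * U ^ 2) = (2 * T) ^ 2 - D * (2 * U) ^ 2 := by ring
    rw [e1, hT, hU]
    have e2 : (t * t' + D * (u * u')) ^ 2 - D * (t * u' + t' * u) ^ 2 =
        (t ^ 2 - D * u ^ 2) * (t' ^ 2 - D * u' ^ 2) := by ring
    rw [e2, h, h']
  refine ⟨T, U, hT, hU, hTU, ?_⟩
  obtain ⟨c1, c2⟩ := LO.aut_two hD hTU
  simp only [aut, ← hp, ← hs, ← hp', ← hs']
  set P := (T - Q 1 * U) / 2 with hP
  set S := (T + Q 1 * U) / 2 with hS
  rw [Matrix.mul_fin_two]
  have k1 : p * p' + -Q 2 * u * (Q 0 * u') = P := by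
    apply four
    have e1 : 4 * (p * p') = (t - Q 1 * u) * (t' - Q 1 * u') := by rw [← a1, ← b1]; ring
    rw [h3] at hT
    linear_combination e1 - 2 * c1 - hT + Q 1 * hU
  have k2 : p * (-Q 2 * u') + -Q 2 * u * s' = -Q 2 * U := by
    apply four
    linear_combination (-2 * Q 2 * u') * a1 - (2 * Q 2 * u) * b2 + 2 * Q 2 * hU
  have k3 : Q 0 * u * p' + s * (Q 0 * u') = Q 0 * U := by
    apply four
    linear_combination (2 * Q 0 * u) * b1 + (2 * Q 0 * u') * a2 - 2 * Q 0 * hU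
  have k4 : Q 0 * u * (-Q 2 * u') + s * s' = S := by
    apply four
    have e1 : 4 * (s * s') = (t + Q 1 * u) * (t' + Q 1 * u') := by rw [← a2, ← b2]; ring
    rw [h3] at hT
    linear_combination e1 - 2 * c2 - hT - Q 1 * hU
  rw [k1, k2, k3, k4]

theorem aut_inv (hD : disc Q = D) {t u : ℤ} (h : t ^ 2 - D * u ^ 2 = 4)
    (h' : t ^ 2 - D * (-u) ^ 2 = 4) : (el hD h)⁻¹ = el hD h' := by
  apply sm_inj
  rw [sm_el]
  unfold sm
  rw [Matrix.SpecialLinearGroup.coe_inv]
  show (aut Q t u).adjugate = _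
  rw [Matrix.adjugate_fin_two]
  simp only [aut]
  ext i j
  fin_cases i <;> fin_cases j <;> simp [sub_eq_add_neg]

theorem aut_neg (hD : disc Q = D) {t u : ℤ} (h : t ^ 2 - D * u ^ 2 = 4)
    (h' : (-t) ^ 2 - D * (-u) ^ 2 = 4) : -el hD h = el hD h' := by
  apply sm_inj
  rw [sm_el]
  unfold sm
  rw [Matrix.SpecialLinearGroup.coe_neg]
  show -(aut Q t u) = _
  obtain ⟨a1, a2⟩ := LO.aut_two hD h
  obtain ⟨b1, b2⟩ := LO.aut_two hD h'
  simp only [aut]
  have e1 : -((t - Q 1 * u) / 2) = (-t - Q 1 * -u) / 2 := by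
    have : 2 * (-((t - Q 1 * u) / 2)) = 2 * ((-t - Q 1 * -u) / 2) := by
      rw [b1]
      linear_combination -a1
    omega
  have e2 : -((t + Q 1 * u) / 2) = (-t + Q 1 * -u) / 2 := by
    have : 2 * (-((t + Q 1 * u) / 2)) = 2 * ((-t + Q 1 * -u) / 2) := by
      rw [b2]
      linear_combination -a2
    omega
  rw [← e1, ← e2]
  ext i j
  fin_cases i <;> fin_cases j <;> simp

theorem aut_one (hD : disc Q = D) (h : (2 : ℤ) ^ 2 - D * 0 ^ 2 = 4) : el hD h = 1 := by
  apply sm_inj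
  rw [sm_el]
  ext i j
  fin_cases i <;> fin_cases j <;> simp [aut, sm]

theorem el_congr (hD : disc Q = D) {t u t' u' : ℤ} (h : t ^ 2 - D * u ^ 2 = 4)
    (h' : t' ^ 2 - D * u' ^ 2 = 4) (ht : t = t') (hu : u = u') : el hD h = el hD h' := by
  subst ht hu
  rfl

/-- Positive powers. -/
theorem pow_pos (hD : disc Q = D) {t u : ℤ} (h : t ^ 2 - D * u ^ 2 = 4) (ht : 0 < t) (hu : 0 < u)
    (n : ℕ) : ∃ (t' u' : ℤ) (h' : t' ^ 2 - D * u' ^ 2 = 4), 0 < t' ∧ 0 < u' ∧
      el hD h ^ (n + 1) = el hD h' := by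
  induction n with
  | zero => exact ⟨t, u, h, ht, hu, by rw [zero_add, pow_one]⟩
  | succ n ih =>
    obtain ⟨t', u', h', ht', hu', he⟩ := ih
    obtain ⟨T, U, hT, hU, hTU, hm⟩ := aut_mul hD h' h
    refine ⟨T, U, hTU, ?_, ?_, ?_⟩
    · have : 0 < 2 * T := by rw [hT]; positivity
      omega
    · have : 0 < 2 * U := by rw [hU]; positivity
      omega
    · rw [pow_succ, he]
      exact sm_inj hm

theorem el_ne (hD : disc Q = D) {t u : ℤ} (h : t ^ 2 - D * u ^ 2 = 4) (hQ : Q 0 ≠ 0)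
    (hu : u ≠ 0) : el hD h ≠ 1 ∧ el hD h ≠ -1 := by
  have h1 : sm (el hD h) 1 0 = Q 0 * u := by
    rw [sm_el]
    simp [aut]
  have h2 : Q 0 * u ≠ 0 := mul_ne_zero hQ hu
  constructor
  · intro he
    rw [he] at h1
    apply h2
    rw [← h1]
    simp [sm]
  · intro he
    rw [he] at h1
    apply h2
    rw [← h1]
    simp [sm]

/-- No nonzero power is `±1`. -/
theorem zpow_ne (hD : disc Q = D) {t u : ℤ} (h : t ^ 2 - D * u ^ 2 = 4) (ht : 0 < t) (hu : 0 < u)
    (hQ : Q 0 ≠ 0) (n : ℤ) (hn : n ≠ 0) : el hD h ^ n ≠ 1 ∧ el hD h ^ n ≠ -1 := by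
  have key : ∀ m : ℕ, el hD h ^ (m + 1) ≠ 1 ∧ el hD h ^ (m + 1) ≠ -1 := by
    intro m
    obtain ⟨t', u', h', -, hu', he⟩ := pow_pos hD h ht hu m
    rw [he]
    exact el_ne hD h' hQ hu'.ne'
  rcases Int.lt_or_lt_of_ne hn with hneg | hpos
  · obtain ⟨m, hm⟩ : ∃ m : ℕ, n = -((m + 1 : ℕ) : ℤ) := ⟨(-n - 1).toNat, by omega⟩
    rw [hm, zpow_neg, zpow_natCast]
    obtain ⟨k1, k2⟩ := key m
    refine ⟨fun he => k1 (inv_eq_one.1 he), fun he => k2 ?_⟩
    rw [← inv_inv (el hD h ^ (m + 1)), he, inv_neg, inv_one]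
  · obtain ⟨m, hm⟩ : ∃ m : ℕ, n = ((m + 1 : ℕ) : ℤ) := ⟨(n - 1).toNat, by omega⟩
    rw [hm, zpow_natCast]
    exact key m

/-- Descent. -/
theorem descent (hD : disc Q = D) (hD1 : 1 < D) {t u : ℤ} (hF : Fund D t u) :
    ∀ (m : ℕ) (t' u' : ℤ) (h' : t' ^ 2 - D * u' ^ 2 = 4), u'.toNat = m → 0 < t' → 0 ≤ u' →
      ∃ n : ℕ, el hD h' = el hD hF.eq ^ n := by
  intro m
  induction m using Nat.strong_induction_on with
  | _ m ih =>
    intro t' u' h' hm ht' hu'
    have hDp : (1 : ℤ) < D := by exact_mod_cast hD1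
    rcases hu'.eq_or_lt with h0 | hpos
    · subst h0
      have ht2 : t' = 2 := by
        have h1 : (t' - 2) * (t' + 2) = 0 := by linear_combination h'
        rcases mul_eq_zero.1 h1 with h2 | h2 <;> omega
      subst ht2
      exact ⟨0, by rw [pow_zero, aut_one]⟩
    · have hle := hF.min t' u' h' hpos
      have hF1 := hF.eq
      have htp := hF.pt
      have hup := hF.pu
      have hinv : t ^ 2 - D * (-u) ^ 2 = 4 := by rw [neg_sq]; exact hF.eq
      obtain ⟨T, U, hT, hU, hTU, hmul⟩ := aut_mul hD h' hinv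
      have ht2 : 2 < t := by
        by_contra hlt
        have h3 : t ^ 2 ≤ 4 := by nlinarith
        have h4 : 0 < D * u ^ 2 := by positivity
        linarith
      -- bounds
      have hT0 : 0 < T := by
        have h1 : 0 < 2 * T := by
          rw [hT]
          have h2 : (D * (u' * u)) ^ 2 < (t' * t) ^ 2 := by
            have e : (t' * t) ^ 2 = (4 + D * u' ^ 2) * (4 + D * u ^ 2) := by
              rw [mul_pow]
              have e1 : t' ^ 2 = 4 + D * u' ^ 2 := by linarith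
              have e2 : t ^ 2 = 4 + D * u ^ 2 := by linarith
              rw [e1, e2]
            rw [e]
            have e3 : (4 + D * u' ^ 2) * (4 + D * u ^ 2) =
              (D * (u' * u)) ^ 2 + (16 + 4 * D * u' ^ 2 + 4 * D * u ^ 2) := by ring
            rw [e3]
            have : 0 < 16 + 4 * D * u' ^ 2 + 4 * D * u ^ 2 := by positivity
            linarith
          have h3 := sq_lt_sq.1 h2
          rw [abs_of_nonneg (by positivity), abs_of_nonneg (by positivity)] at h3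
          linarith
        omega
      have hU0 : 0 ≤ U := by
        have h1 : 0 ≤ 2 * U := by
          rw [hU]
          have h2 : (t' * u) ^ 2 ≤ (t * u') ^ 2 := by
            have e1 : t' ^ 2 = 4 + D * u' ^ 2 := by linarith
            have e2 : t ^ 2 = 4 + D * u ^ 2 := by linarith
            rw [mul_pow, mul_pow, e1, e2]
            have : u ^ 2 ≤ u' ^ 2 := by nlinarith
            nlinarith
          have h3 := sq_le_sq.1 h2
          rw [abs_of_nonneg (by positivity), abs_of_nonneg (by positivity)] at h3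
          linarith
        omega
      have hUlt : U < u' := by
        have h1 : 2 * U < 2 * u' := by
          rw [hU]
          have h2 : ((t - 2) * u') ^ 2 < (t' * u) ^ 2 := by
            have e1 : t' ^ 2 = 4 + D * u' ^ 2 := by linarith
            have e2 : (t - 2) ^ 2 ≤ D * u ^ 2 := by nlinarith
            rw [mul_pow, mul_pow, e1]
            have e3 : (t - 2) ^ 2 * u' ^ 2 ≤ D * u ^ 2 * u' ^ 2 :=
              mul_le_mul_of_nonneg_right e2 (by positivity)
            nlinarith [sq_pos_of_pos hup]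
          have h3 := sq_lt_sq.1 h2
          rw [abs_of_nonneg (mul_nonneg (by linarith) hu'), abs_of_nonneg (by positivity)] at h3
          linarith
        omega
      obtain ⟨n, hn⟩ := ih U.toNat (by omega) T U hTU rfl hT0 hU0
      refine ⟨n + 1, ?_⟩
      have h5 : el hD h' * el hD hinv = el hD hTU := sm_inj hmul
      rw [← aut_inv hD hF.eq hinv] at h5
      rw [pow_succ, ← hn, ← h5, inv_mul_cancel_right]

theorem exists_pow (hD : disc Q = D) (hD1 : 1 < D) {t u : ℤ} (hF : Fund D t u) {t' u' : ℤ}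
    (h' : t' ^ 2 - D * u' ^ 2 = 4) :
    ∃ n : ℤ, el hD h' = el hD hF.eq ^ n ∨ el hD h' = -el hD hF.eq ^ n := by
  have hDp : (1 : ℤ) < D := by exact_mod_cast hD1
  have hpos : ∀ (t' u' : ℤ) (h' : t' ^ 2 - D * u' ^ 2 = 4), 0 < t' →
      ∃ n : ℤ, el hD h' = el hD hF.eq ^ n := by
    intro t' u' h' ht'
    by_cases hu' : 0 ≤ u'
    · obtain ⟨n, hn⟩ := descent hD hD1 hF _ t' u' h' rfl ht' hu'
      exact ⟨n, by rw [hn, zpow_natCast]⟩
    · have h'' : t' ^ 2 - D * (-u') ^ 2 = 4 := by rw [neg_sq]; exact h'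
      obtain ⟨n, hn⟩ := descent hD hD1 hF _ t' (-u') h'' rfl ht' (by omega)
      refine ⟨-(n : ℤ), ?_⟩
      rw [zpow_neg, zpow_natCast, ← hn, ← aut_inv hD h' h'', inv_inv]
  rcases lt_trichotomy t' 0 with h | h | h
  · have h'' : (-t') ^ 2 - D * (-u') ^ 2 = 4 := by rw [neg_sq, neg_sq]; exact h'
    obtain ⟨n, hn⟩ := hpos (-t') (-u') h'' (by omega)
    refine ⟨n, Or.inr ?_⟩
    rw [← hn, ← aut_neg hD h' h'', neg_neg]
  · exfalso
    rw [h] at h'
    have : 0 ≤ (D : ℤ) * u' ^ 2 := by positivity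
    linarith
  · obtain ⟨n, hn⟩ := hpos t' u' h' h
    exact ⟨n, Or.inl hn⟩

theorem sq_dvd (hsf : Squarefree D) {d : ℤ} (h : d * d ∣ D) : d = 1 ∨ d = -1 := by
  have h1 : d.natAbs * d.natAbs ∣ D := by
    have := Int.natAbs_dvd_natAbs.2 h
    rwa [Int.natAbs_mul, Int.natAbs_natCast] at this
  have h2 := Nat.isUnit_iff.1 (hsf _ h1)
  omega

theorem Q0_ne (hsf : Squarefree D) (hD1 : 1 < D) (hD : disc Q = D) : Q 0 ≠ 0 := by
  intro h
  have h1 : (D : ℤ) = Q 1 * Q 1 := by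
    rw [← hD, disc, h]
    ring
  have h2 := sq_dvd hsf (d := Q 1) (by rw [h1])
  have h3 : (D : ℤ) = 1 := by
    rw [h1]
    rcases h2 with h2 | h2 <;> rw [h2] <;> norm_num
  have h4 : D = 1 := by exact_mod_cast h3
  omega

theorem bezout (hsf : Squarefree D) (hD : disc Q = D) :
    ∃ x y z : ℤ, Q 0 * x + Q 1 * y + Q 2 * z = 1 := by
  have h1 := Int.gcd_eq_gcd_ab (Q 0) (Q 1)
  have h2 := Int.gcd_eq_gcd_ab ((Int.gcd (Q 0) (Q 1) : ℕ) : ℤ) (Q 2)
  set g : ℤ := ((Int.gcd ((Int.gcd (Q 0) (Q 1) : ℕ) : ℤ) (Q 2) : ℕ) : ℤ) with hg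
  have d12 : g ∣ ((Int.gcd (Q 0) (Q 1) : ℕ) : ℤ) := Int.gcd_dvd_left ..
  have d2 : g ∣ Q 2 := Int.gcd_dvd_right ..
  have d0 : g ∣ Q 0 := d12.trans (Int.gcd_dvd_left ..)
  have d1 : g ∣ Q 1 := d12.trans (Int.gcd_dvd_right ..)
  have h3 : g * g ∣ (D : ℤ) := by
    rw [← hD, disc]
    obtain ⟨a, ha⟩ := d0
    obtain ⟨b, hb⟩ := d1
    obtain ⟨c, hc⟩ := d2
    rw [ha, hb, hc]
    exact ⟨b ^ 2 - 4 * a * c, by ring⟩
  have h4 : g = 1 := by
    rcases sq_dvd hsf h3 with h | h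
    · exact h
    · have : 0 ≤ g := by rw [hg]; positivity
      omega
  rw [h4] at h2
  exact ⟨(Q 0).gcdA (Q 1) * Int.gcdA ((Int.gcd (Q 0) (Q 1) : ℕ) : ℤ) (Q 2),
    (Q 0).gcdB (Q 1) * Int.gcdA ((Int.gcd (Q 0) (Q 1) : ℕ) : ℤ) (Q 2),
    Int.gcdB ((Int.gcd (Q 0) (Q 1) : ℕ) : ℤ) (Q 2), by
    linear_combination (-Int.gcdA ((Int.gcd (Q 0) (Q 1) : ℕ) : ℤ) (Q 2)) * h1 - h2⟩

/-- The stabiliser consists of automorphs. -/
theorem stab_aut (hsf : Squarefree D) (hD1 : 1 < D) (hD : disc Q = D) (g : SL(2, ℤ))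
    (hg : act Q (sm g) = Q) : ∃ (t' u' : ℤ) (h' : t' ^ 2 - D * u' ^ 2 = 4), g = el hD h' := by
  have hQ0 := Q0_ne hsf hD1 hD
  obtain ⟨x, y, z, hxyz⟩ := bezout hsf hD
  have hdet : (sm g) 0 0 * (sm g) 1 1 - (sm g) 0 1 * (sm g) 1 0 = 1 := by
    have := g.2
    rwa [Matrix.det_fin_two] at this
  have g0 := congrFun hg 0
  have g1 := congrFun hg 1
  have g2 := congrFun hg 2
  simp only [act, Matrix.cons_val_zero, Matrix.cons_val_one, Matrix.cons_val] at g0 g1 g2
  have hgm : sm g = !![sm g 0 0, sm g 0 1; sm g 1 0, sm g 1 1] := Matrix.eta_fin_two _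
  generalize hp : sm g 0 0 = p at *
  generalize hq : sm g 0 1 = q at *
  generalize hr : sm g 1 0 = r at *
  generalize hs : sm g 1 1 = s at *
  have e1 : Q 0 * (s - p) = Q 1 * r := by
    have : 2 * (Q 0 * (s - p)) = 2 * (Q 1 * r) := by
      linear_combination (-2 * s) * g0 + r * g1 + (2 * Q 0 * p + Q 1 * r) * hdet
    linarith
  have e2 : Q 0 * (-q) = Q 2 * r := by
    have : 2 * (Q 0 * (-q)) = 2 * (Q 2 * r) := by
      linear_combination (2 * q) * g0 - p * g1 + (Q 1 * p + 2 * Q 2 * r) * hdet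
    linarith
  obtain ⟨u', hu'⟩ : ∃ u', r = Q 0 * u' :=
    ⟨r * x + y * (s - p) + z * (-q), by
      linear_combination (-r) * hxyz - y * e1 - z * e2⟩
  have e3 : s - p = Q 1 * u' := by
    have : Q 0 * (s - p) = Q 0 * (Q 1 * u') := by rw [e1, hu']; ring
    exact mul_left_cancel₀ hQ0 this
  have e4 : q = -Q 2 * u' := by
    have : Q 0 * q = Q 0 * (-Q 2 * u') := by
      rw [hu'] at e2
      linear_combination -e2
    exact mul_left_cancel₀ hQ0 this
  have hDd : (D : ℤ) = Q 1 ^ 2 - 4 * Q 0 * Q 2 := by rw [← hD]; rfl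
  have h' : (p + s) ^ 2 - D * u' ^ 2 = 4 := by
    rw [hDd]
    rw [e4, hu'] at hdet
    have : s = p + Q 1 * u' := by linarith
    rw [this] at hdet ⊢
    linear_combination 4 * hdet
  refine ⟨p + s, u', h', sm_inj ?_⟩
  rw [sm_el, hgm]
  unfold aut
  have f1 : (p + s - Q 1 * u') / 2 = p := by
    rw [← e3]
    have : p + s - (s - p) = 2 * p := by ring
    rw [this]
    omega
  have f2 : (p + s + Q 1 * u') / 2 = s := by
    rw [← e3]
    have : p + s + (s - p) = 2 * s := by ring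
    rw [this]
    omega
  rw [f1, f2, e4, hu']

end StabAux

open StabAux in
theorem stStab : StStab := by
  intro D t u Q hOk hD1 hD hF
  refine ⟨el hD hF.eq, rfl, ?_, ?_⟩
  · intro n
    have hA : act Q (sm (el hD hF.eq)) = Q := LO.act_aut hD hF.eq
    have hAi : act Q (sm (el hD hF.eq)⁻¹) = Q := by
      have h1 : sm (el hD hF.eq) * sm (el hD hF.eq)⁻¹ = 1 := by
        rw [← sm_mul, mul_inv_cancel]
        rfl
      calc act Q (sm (el hD hF.eq)⁻¹) = act (act Q (sm (el hD hF.eq))) (sm (el hD hF.eq)⁻¹) := by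
            rw [hA]
        _ = Q := by rw [LO.act_act, h1, LO.act_one]
    induction n using Int.induction_on with
    | zero =>
      rw [zpow_zero]
      exact LO.act_one Q
    | succ n ih =>
      rw [zpow_add_one, sm_mul, ← LO.act_act, ih, hA]
    | pred n ih =>
      rw [zpow_sub_one, sm_mul, ← LO.act_act, ih, hAi]
  · intro g hg
    obtain ⟨t', u', h', rfl⟩ := stab_aut hOk.sf hD1 hD g hg
    obtain ⟨n, hn⟩ := exists_pow hD hD1 hF h'
    have hQ0 := Q0_ne hOk.sf hD1 hD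
    set A := el hD hF.eq with hA
    have key : ∀ k : ℤ, k ≠ 0 → A ^ k ≠ 1 ∧ A ^ k ≠ -1 := fun k hk =>
      zpow_ne hD hF.eq hF.pt hF.pu hQ0 k hk
    have one_ne : (1 : SL(2, ℤ)) ≠ -1 := by
      intro he
      have := congrArg (fun g : SL(2, ℤ) => sm g 0 0) he
      simp [sm] at this
    have same : ∀ a b : ℤ, A ^ a = A ^ b → a = b := by
      intro a b hab
      by_contra hne
      apply (key (a - b) (sub_ne_zero.2 hne)).1
      rw [zpow_sub, hab, mul_inv_cancel]
    have diff : ∀ a b : ℤ, A ^ a ≠ -A ^ b := by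
      intro a b hab
      have h1 : A ^ (a - b) = -1 := by
        rw [zpow_sub, hab, neg_mul, mul_inv_cancel]
      rcases eq_or_ne (a - b) 0 with h0 | h0
      · rw [h0, zpow_zero] at h1
        exact one_ne h1
      · exact (key _ h0).2 h1
    rcases hn with hn | hn
    · refine ⟨(n, true), ?_, ?_⟩
      · simpa using hn
      · rintro ⟨m, b⟩ hm
        cases b with
        | true =>
          simp only [if_true] at hm
          rw [hn] at hm
          rw [same n m hm]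
        | false =>
          simp only [Bool.false_eq_true, if_false] at hm
          rw [hn] at hm
          exact absurd hm (diff n m)
    · refine ⟨(n, false), ?_, ?_⟩
      · simpa using hn
      · rintro ⟨m, b⟩ hm
        cases b with
        | true =>
          simp only [if_true] at hm
          rw [hn] at hm
          exact absurd hm.symm (diff m n)
        | false =>
          simp only [Bool.false_eq_true, if_false] at hm
          rw [hn] at hm
          rw [same n m (neg_injective hm)]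

end LC

end Pool.Agent.Lib.MP_7c5fb9_nt
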