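import Mathlib
import Pool.Agent.Lib.MP_7c5fb9_nt.LC.St

set_option autoImplicit false

/-!
Project LC, module Th: the transformation of the theta functions.
-/

namespace Pool.Agent.Lib.MP_7c5fb9_nt

namespace LC

open MeasureTheory UpperHalfPlane Set Pool.Agent.Lib.MP_7c08ba_nt.RZ
open LO (Mat disc act mir qv mb cyc Fund eps aut FormOf torPer NonVan)
open scoped MatrixGroups ComplexConjugate nonZeroDivisors

namespace ThAux

theorem hs_congr {a b : ℤ → ℂ} {s : ℂ} (h : HasSum b s) (hab : ∀ m, a m = b m) :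
    HasSum a s := by
  rwa [show a = b from funext hab]

theorem ee_add (x y : ℂ) : ee (x + y) = ee x * ee y := by
  unfold ee
  rw [← Complex.exp_add]
  congr 1
  ring

theorem ee_int (n : ℤ) : ee n = 1 := by
  unfold ee
  rw [Complex.exp_eq_one_iff]
  exact ⟨n, by ring⟩

/-- `ee` of two numbers with integral difference -/
theorem ee_eq_of {x y : ℂ} (n : ℤ) (h : x = y + n) : ee x = ee y := by
  rw [h, ee_add, ee_int, mul_one]

/-- splitting into residue classes -/
theorem split {c : ℕ} (hc : 0 < c) {f : ℤ → ℂ} {g : ℕ → ℂ}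
    (h : ∀ k ∈ Finset.range c, HasSum (fun s : ℤ => f (c * s + k)) (g k)) :
    HasSum f (∑ k ∈ Finset.range c, g k) := by
  classical
  have hc' : (c : ℤ) ≠ 0 := by exact_mod_cast hc.ne'
  have h1 : ∀ k ∈ Finset.range c,
      HasSum (fun i : ℤ => if i % c = k then f i else 0) (g k) := by
    intro k hk
    have hk' := Finset.mem_range.1 hk
    have hinj : Function.Injective (fun s : ℤ => (c : ℤ) * s + k) := by
      intro s t hst
      have h' : (c : ℤ) * s + k = c * t + k := hst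
      have h2 : (c : ℤ) * s = c * t := by linarith
      exact mul_left_cancel₀ hc' h2
    have hmod : ∀ s : ℤ, ((c : ℤ) * s + k) % c = k := by
      intro s
      rw [add_comm, Int.add_mul_emod_self_left]
      exact Int.emod_eq_of_lt (by positivity) (by exact_mod_cast hk')
    refine (hinj.hasSum_iff ?_).1 ?_
    · intro x hx
      rw [if_neg]
      intro h2
      refine hx ⟨x / c, ?_⟩
      show (c : ℤ) * (x / c) + k = x
      rw [← h2]
      exact Int.mul_ediv_add_emod x c
    · have h3 : (fun i : ℤ => if i % c = k then f i else 0) ∘ (fun s : ℤ => (c : ℤ) * s + k) =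
          fun s : ℤ => f (c * s + k) := by
        funext s
        exact if_pos (hmod s)
      rw [h3]
      exact h k hk
  refine hs_congr (hasSum_sum h1) fun i => ?_
  have h4 : 0 ≤ i % c := Int.emod_nonneg i hc'
  have h5 : i % c < c := Int.emod_lt_of_pos i (by exact_mod_cast hc)
  obtain ⟨k, hk⟩ := Int.eq_ofNat_of_zero_le h4
  have hk' : k < c := by
    have : (k : ℤ) < c := by rw [← hk]; exact h5
    exact_mod_cast this
  rw [Finset.sum_eq_single k]
  · rw [if_pos hk]
  · intro b _ hb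
    rw [if_neg]
    intro h6
    rw [hk] at h6
    exact hb (by exact_mod_cast h6.symm)
  · intro h6
    exact absurd (Finset.mem_range.2 hk') h6

theorem rt_ne {w : ℂ} (hw : 0 < w.im) : rt w ≠ 0 := by
  unfold rt
  have h0 : w ≠ 0 := by
    rintro rfl
    simp at hw
  rw [Ne, Complex.cpow_eq_zero_iff]
  intro h
  have h1 : -Complex.I * w ≠ 0 := mul_ne_zero (neg_ne_zero.2 Complex.I_ne_zero) h0
  exact h1 (by
    rcases div_eq_zero_iff.1 h.1 with h | h
    · exact h
    · norm_num at h)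

/-- the inversion formula -/
theorem inv {w : ℂ} (hw : 0 < w.im) (x : ℂ) :
    ∃ S : ℂ, HasSum (fun n : ℤ => ee ((n : ℂ) ^ 2 * w / 4 + n * x)) S ∧
      HasSum (fun s : ℤ => ee (-((s : ℂ) + x) ^ 2 / w)) (rt w * S) := by
  have hw0 : w ≠ 0 := by
    rintro rfl
    simp at hw
  have hw2 : 0 < (w / 2).im := by
    have : (w / 2).im = w.im / 2 := by
      rw [Complex.div_ofNat_im]
    rw [this]
    positivity
  refine ⟨jacobiTheta₂ x (w / 2), ?_, ?_⟩
  · refine hs_congr (hasSum_jacobiTheta₂_term x hw2) fun n => ?_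
    unfold ee jacobiTheta₂_term
    congr 1
    ring
  · have h1 : 0 < (-1 / (w / 2)).im := by
      have h2 : (-1 / (w / 2)).im = (w / 2).im / Complex.normSq (w / 2) := by
        rw [neg_div, one_div, Complex.neg_im, Complex.inv_im]
        ring
      rw [h2]
      refine div_pos hw2 (Complex.normSq_pos.2 ?_)
      exact div_ne_zero hw0 two_ne_zero
    have h3 := jacobiTheta₂_functional_equation x (w / 2)
    have h4 : (-Complex.I * (w / 2)) ^ (1 / 2 : ℂ) = rt w := by
      unfold rt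
      rw [mul_div_assoc]
    rw [h4] at h3
    have h5 := rt_ne hw
    have h6 : rt w * jacobiTheta₂ x (w / 2) = Complex.exp (-Real.pi * Complex.I * x ^ 2 / (w / 2)) *
        jacobiTheta₂ (x / (w / 2)) (-1 / (w / 2)) := by
      rw [h3]
      field_simp
    rw [h6]
    have h7 := (hasSum_jacobiTheta₂_term (x / (w / 2)) h1).mul_left
      (Complex.exp (-Real.pi * Complex.I * x ^ 2 / (w / 2)))
    rw [← (Equiv.neg ℤ).hasSum_iff] at h7
    refine hs_congr h7 fun s => ?_
    show _ = Complex.exp _ * jacobiTheta₂_term (-s) _ _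
    unfold ee jacobiTheta₂_term
    rw [← Complex.exp_add]
    congr 1
    push_cast
    field_simp
    ring

/-- the terms of the theta functions -/
theorem sum_tht (μ : ℕ) {τ : ℂ} (hτ : 0 < τ.im) (z : ℂ) :
    HasSum (fun r : ℤ => ee ((2 * (r : ℂ) + μ) ^ 2 * τ / 4 + (2 * (r : ℂ) + μ) * z))
      (∑' r : ℤ, ee ((2 * (r : ℂ) + μ) ^ 2 * τ / 4 + (2 * (r : ℂ) + μ) * z)) := by
  have h2 : 0 < (2 * τ).im := by
    have : (2 * τ).im = 2 * τ.im := by
      rw [Complex.mul_im]
      norm_num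
    rw [this]
    positivity
  have h1 := (hasSum_jacobiTheta₂_term (2 * z + μ * τ) h2).mul_left
    (ee ((μ : ℂ) ^ 2 * τ / 4 + μ * z))
  have h3 : HasSum (fun r : ℤ => ee ((2 * (r : ℂ) + μ) ^ 2 * τ / 4 + (2 * (r : ℂ) + μ) * z))
      (ee ((μ : ℂ) ^ 2 * τ / 4 + μ * z) * jacobiTheta₂ (2 * z + μ * τ) (2 * τ)) := by
    refine hs_congr h1 fun r => ?_
    unfold ee jacobiTheta₂_term
    rw [← Complex.exp_add]
    congr 1
    ring
  exact h3.summable.hasSum

/-- periodicity of the Gauss sums -/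
theorem gs_neg (h : StGs) {a b c d : ℤ} (ν : ℤ) (hdet : a * d - b * c = 1) (hc : 0 < c) (n : ℤ) :
    gs a c d ν (-n) = gs a c d ν n := by
  have hp : ∀ n : ℤ, gs a c d ν (n + 2) = gs a c d ν n := fun n => h.1 a b c d ν n hdet hc
  have h1 : ∀ (k : ℕ) (n : ℤ), gs a c d ν (n + 2 * k) = gs a c d ν n := by
    intro k
    induction k with
    | zero => intro n; simp
    | succ k ih =>
      intro n
      rw [show n + 2 * ((k + 1 : ℕ) : ℤ) = (n + 2 * k) + 2 by push_cast; ring, hp, ih]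
  rcases le_total 0 n with hn | hn
  · obtain ⟨k, rfl⟩ := Int.eq_ofNat_of_zero_le hn
    have := h1 k (-(k : ℤ))
    rw [← this]
    congr 1
    ring
  · obtain ⟨k, hk⟩ := Int.eq_ofNat_of_zero_le (neg_nonneg.2 hn)
    have := h1 k n
    rw [← this, hk]
    congr 1
    omega

theorem gs_two (h : StGs) {a b c d : ℤ} (ν : ℤ) (hdet : a * d - b * c = 1) (hc : 0 < c)
    (n μ : ℤ) : gs a c d ν (2 * n + μ) = gs a c d ν μ := by
  have hp : ∀ n : ℤ, gs a c d ν (n + 2) = gs a c d ν n := fun n => h.1 a b c d ν n hdet hc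
  induction n with
  | zero => simp
  | succ k ih => rw [show 2 * ((k : ℤ) + 1) + μ = (2 * k + μ) + 2 by ring, hp, ih]
  | pred k ih => rw [← ih, ← hp]; congr 1; ring

end ThAux

open ThAux in
/-- (Th) -/
theorem stTh (h : StGs) : StTh := by
  intro M τ z ν hM hc hτ
  rw [Matrix.det_fin_two] at hM
  set a : ℤ := M 0 0
  set b : ℤ := M 0 1
  set c : ℤ := M 1 0
  set d : ℤ := M 1 1
  have hdet : a * d - b * c = 1 := hM
  obtain ⟨C, hC⟩ := Int.eq_ofNat_of_zero_le hc.le
  have hC0 : 0 < C := by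
    have : (0 : ℤ) < C := by rw [← hC]; exact hc
    exact_mod_cast this
  have hcC : (c : ℂ) = C := by rw [hC]; simp
  have hc0 : (c : ℂ) ≠ 0 := by exact_mod_cast hc.ne'
  set w : ℂ := τ + d / c with hw
  have hwim : 0 < w.im := by
    have : w.im = τ.im := by
      rw [hw, Complex.add_im]
      have : ((d : ℂ) / c).im = 0 := by
        rw [show (d : ℂ) / c = (((d : ℝ) / c : ℝ) : ℂ) by push_cast; rfl]
        exact Complex.ofReal_im _
      rw [this, add_zero]
    rw [this]
    exact hτ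
  have hw0 : w ≠ 0 := by
    intro h0
    rw [h0] at hwim
    simp at hwim
  have hj : jf M τ = c * w := by
    show (c : ℂ) * τ + d = c * w
    rw [hw]
    field_simp
  have hj0 : jf M τ ≠ 0 := by
    rw [hj]
    exact mul_ne_zero hc0 hw0
  have hmb : mb M τ = a / c - 1 / (c ^ 2 * w) := by
    show ((a : ℂ) * τ + b) / ((c : ℂ) * τ + d) = a / c - 1 / (c ^ 2 * w)
    have h1 : (c : ℂ) * τ + d = c * w := hj
    rw [h1]
    have h2 : (a : ℂ) * d - b * c = 1 := by exact_mod_cast hdet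
    have h3 : (a : ℂ) * w = a * τ + a * d / c := by
      rw [hw]
      ring
    field_simp
    rw [hw]
    field_simp
    linear_combination (-1 : ℂ) * h2
  set N : ℕ := (ν : ℕ) with hN
  set X : ℕ → ℂ := fun k => (2 * (k : ℂ) + N) / (2 * c) - z with hX
  -- the left side
  choose S hS1 hS2 using fun k : ℕ => inv hwim (X k)
  have hL : HasSum (fun i : ℤ => ee ((2 * (i : ℂ) + N) ^ 2 * mb M τ / 4 +
      (2 * (i : ℂ) + N) * (z / jf M τ)) * ee (-(c : ℂ) * z ^ 2 / jf M τ))
      (∑ k ∈ Finset.range C, ee ((a : ℂ) * (2 * k + N) ^ 2 / (4 * c)) * (rt w * S k)) := by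
    refine split hC0 fun k _ => ?_
    refine hs_congr ((hS2 k).mul_left _) fun s => ?_
    rw [← ee_add, ← ee_add]
    refine ee_eq_of (a * s * (2 * k + N) + a * c * s ^ 2) ?_
    rw [hmb, hj]
    simp only [hX]
    push_cast
    rw [← hcC]
    field_simp
    ring
  have hL' : tht ν (mb M τ) (z / jf M τ) * ee (-(c : ℂ) * z ^ 2 / jf M τ) =
      ∑ k ∈ Finset.range C, ee ((a : ℂ) * (2 * k + N) ^ 2 / (4 * c)) * (rt w * S k) := by
    rw [← hL.tsum_eq, tsum_mul_right]
    rfl
  rw [hL']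
  -- the left side as a sum over n
  have hn : HasSum (fun n : ℤ => ∑ k ∈ Finset.range C,
      ee ((a : ℂ) * (2 * k + N) ^ 2 / (4 * c)) * (rt w * ee ((n : ℂ) ^ 2 * w / 4 + n * X k)))
      (∑ k ∈ Finset.range C, ee ((a : ℂ) * (2 * k + N) ^ 2 / (4 * c)) * (rt w * S k)) :=
    hasSum_sum fun k _ => ((hS1 k).mul_left _).mul_left _
  rw [← (Equiv.neg ℤ).hasSum_iff] at hn
  -- the right side as a sum over n
  have hR : HasSum (fun n : ℤ => rt w * (gs a c d N n * ee ((n : ℂ) ^ 2 * τ / 4 + n * z)))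
      (rt w * ∑ μ ∈ Finset.range 2, gs a c d N μ *
        ∑' r : ℤ, ee ((2 * (r : ℂ) + μ) ^ 2 * τ / 4 + (2 * (r : ℂ) + μ) * z)) := by
    refine HasSum.mul_left _ (split two_pos fun μ _ => ?_)
    refine hs_congr ((sum_tht μ hτ z).mul_left _) fun r => ?_
    push_cast
    rw [gs_two h (b := b) N hdet hc]
  have hfin : ∑ μ : Fin 2, rt w * gs a c d (N : ℤ) ((μ : ℕ) : ℤ) * tht μ τ z =
      rt w * ∑ μ ∈ Finset.range 2, gs a c d N μ *
        ∑' r : ℤ, ee ((2 * (r : ℂ) + μ) ^ 2 * τ / 4 + (2 * (r : ℂ) + μ) * z) := by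
    rw [Finset.mul_sum, Finset.sum_range]
    refine Finset.sum_congr rfl fun μ _ => ?_
    unfold tht
    rw [mul_assoc]
  rw [hfin]
  refine (hs_congr hR fun n => ?_).unique hn |>.symm
  show ∑ k ∈ Finset.range C, ee ((a : ℂ) * (2 * k + N) ^ 2 / (4 * c)) *
    (rt w * ee (((-n : ℤ) : ℂ) ^ 2 * w / 4 + ((-n : ℤ) : ℂ) * X k)) = _
  rw [← gs_neg h (b := b) N hdet hc n]
  unfold gs
  rw [Finset.sum_mul, Finset.mul_sum, hC, Int.natAbs_natCast]
  refine Finset.sum_congr rfl fun k _ => ?_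
  rw [mul_left_comm, ← ee_add, ← ee_add]
  congr 2
  rw [← hC]
  simp only [hX]
  rw [hw]
  push_cast
  field_simp
  ring

end LC

end Pool.Agent.Lib.MP_7c5fb9_nt
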