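import Mathlib
import Pool.Agent.Lib.MP_7c5fb9_nt.LC.St

set_option autoImplicit false

/-!
# Project LC (MP_7c5fb9_nt): the trace of the form attached to `1`
-/

namespace Pool.Agent.Lib.MP_7c5fb9_nt

namespace LC

open MeasureTheory UpperHalfPlane Set Pool.Agent.Lib.MP_7c08ba_nt.RZ
open LO (Mat disc act mir qv mb)
open scoped MatrixGroups ComplexConjugate

namespace TrAAux

lemma act_act (Q : LO.Frm) (M N : Mat) : act (act Q M) N = act Q (M * N) := by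
  funext i
  fin_cases i <;> simp [act, Matrix.mul_apply, Fin.sum_univ_two] <;> ring

lemma act_one (Q : LO.Frm) : act Q 1 = Q := by
  funext i
  fin_cases i <;> simp [act]

lemma disc_act (Q : LO.Frm) (M : Mat) : disc (act Q M) = disc Q * M.det ^ 2 := by
  simp [disc, act, Matrix.det_fin_two]
  ring

lemma det_sm (g : SL(2, ℤ)) : (sm g).det = 1 := g.2

lemma disc_sm (Q : LO.Frm) (g : SL(2, ℤ)) : disc (act Q (sm g)) = disc Q := by
  rw [disc_act, det_sm]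
  ring

lemma sm_mul (g h : SL(2, ℤ)) : sm (g * h) = sm g * sm h := rfl

lemma sm_one : sm (1 : SL(2, ℤ)) = 1 := rfl

lemma act_inv (Q : LO.Frm) (g : SL(2, ℤ)) : act (act Q (sm g)) (sm g⁻¹) = Q := by
  rw [act_act, ← sm_mul, mul_inv_cancel, sm_one, act_one]

lemma act_inv' (Q : LO.Frm) (g : SL(2, ℤ)) : act (act Q (sm g⁻¹)) (sm g) = Q := by
  rw [act_act, ← sm_mul, inv_mul_cancel, sm_one, act_one]

lemma act_zero (Q : LO.Frm) (M : Mat) :
    act Q M 0 = Q 0 * M 0 0 ^ 2 + Q 1 * (M 0 0 * M 1 0) + Q 2 * M 1 0 ^ 2 := rfl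

lemma act_fst (Q : LO.Frm) (M : Mat) : act Q M 1 = 2 * Q 0 * (M 0 0 * M 0 1) +
    Q 1 * (M 0 0 * M 1 1 + M 0 1 * M 1 0) + 2 * Q 2 * (M 1 0 * M 1 1) := rfl

/-- Division by the greatest common divisor. -/
lemma exists_gcd {m n : ℤ} (h : m ≠ 0 ∨ n ≠ 0) : ∃ e a f : ℤ, e ≠ 0 ∧ IsCoprime a f ∧
    m = a * e ∧ n = f * e := by
  have hne : 0 < Int.gcd m n := by
    rw [Nat.pos_iff_ne_zero, Ne, Int.gcd_eq_zero_iff]
    tauto
  obtain ⟨a, f, haf, ha, hf⟩ := Int.exists_gcd_one hne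
  exact ⟨(Int.gcd m n : ℤ), a, f, by exact_mod_cast hne.ne', Int.isCoprime_iff_gcd_eq_one.mpr haf,
    ha, hf⟩

/-- Completion of a primitive vector. -/
lemma exists_col {x y : ℤ} (h : IsCoprime x y) : ∃ g : SL(2, ℤ), sm g 0 0 = x ∧ sm g 1 0 = y := by
  obtain ⟨u, v, huv⟩ := h
  refine ⟨⟨!![x, -v; y, u], ?_⟩, rfl, rfl⟩
  rw [Matrix.det_fin_two]
  simp
  linarith

/-- The special forms. -/
def Sp (D : ℕ) (Q : LO.Frm) : Prop := disc Q = D ∧ (D : ℤ) ∣ Q 0 ∧ (D : ℤ) ∣ Q 1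

variable {D : ℕ}

lemma ok_pos (hD : Ok D) : 0 < D := by
  have := hD.mod
  omega

lemma ok_odd (hD : Ok D) : IsCoprime (2 : ℤ) D := by
  refine ⟨-(2 * (D / 4 : ℕ) : ℤ), 1, ?_⟩
  have h1 := hD.mod
  have h2 : (D : ℤ) = 4 * (D / 4 : ℕ) + 1 := by
    have := Nat.div_add_mod D 4
    push_cast
    omega
  rw [h2]
  push_cast
  have h3 : ((4 * ((D : ℤ) / 4) + 1 : ℤ)) = D := by
    push_cast at h2
    omega
  push_cast at h2 ⊢
  rw [← h2]
  nlinarith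

lemma ok_sq (hD : Ok D) : Squarefree (D : ℤ) := Int.squarefree_natCast.mpr hD.sf

lemma sp_sm {Q : LO.Frm} (hQ : Sp D Q) {δ : SL(2, ℤ)} (h : (D : ℤ) ∣ sm δ 1 0) :
    Sp D (act Q (sm δ)) := by
  obtain ⟨h1, ⟨a, ha⟩, ⟨b, hb⟩⟩ := hQ
  obtain ⟨c, hc⟩ := h
  refine ⟨by rw [disc_sm, h1], ?_, ?_⟩
  · rw [act_zero, ha, hb, hc]
    exact ⟨a * sm δ 0 0 ^ 2 + b * (sm δ 0 0 * (D * c)) + Q 2 * (D * c * c), by ring⟩
  · rw [act_fst, ha, hb, hc]
    exact ⟨2 * a * (sm δ 0 0 * sm δ 0 1) + b * (sm δ 0 0 * sm δ 1 1 + sm δ 0 1 * (D * c)) +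
      2 * Q 2 * (c * sm δ 1 1), by ring⟩

/-- The third coefficient of a special form is prime to `D`. -/
lemma sp_coprime (hD : Ok D) {Q : LO.Frm} (hQ : Sp D Q) : ∃ g j : ℤ, Q 0 = D * g ∧ Q 1 = D * j ∧
    D * j ^ 2 - 4 * g * Q 2 = 1 := by
  obtain ⟨h1, ⟨a, ha⟩, ⟨b, hb⟩⟩ := hQ
  refine ⟨a, b, ha, hb, ?_⟩
  have hD0 : (D : ℤ) ≠ 0 := by
    have := ok_pos hD
    positivity
  apply mul_left_cancel₀ hD0
  rw [disc, ha, hb] at h1
  linarith

/-- A form of discriminant `D` whose first coefficient is divisible by `D` is special. -/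
lemma sp_of_dvd (hD : Ok D) {Q : LO.Frm} (h1 : disc Q = D) (h0 : (D : ℤ) ∣ Q 0) : Sp D Q := by
  refine ⟨h1, h0, ?_⟩
  rw [← (ok_sq hD).dvd_pow_iff_dvd (n := 2) two_ne_zero]
  obtain ⟨a, ha⟩ := h0
  rw [disc, ha] at h1
  exact ⟨1 + 4 * a * Q 2, by linarith⟩

lemma inj_aux (hD : Ok D) {Q Q' : LO.Frm} (hQ : Sp D Q) (hQ' : Sp D Q') {g : SL(2, ℤ)}
    (h : act Q (sm g) = Q') : (D : ℤ) ∣ sm g 1 0 := by
  obtain ⟨a, j, h0, h1, h2⟩ := sp_coprime hD hQ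
  have h3 : (D : ℤ) ∣ Q 2 * sm g 1 0 ^ 2 := by
    have h4 := hQ'.2.1
    rw [← h, act_zero, h0, h1] at h4
    obtain ⟨c, hc⟩ := h4
    exact ⟨c - a * sm g 0 0 ^ 2 - j * (sm g 0 0 * sm g 1 0), by linarith⟩
  have h4 : IsCoprime (D : ℤ) (Q 2) := ⟨j ^ 2, -(4 * a), by linarith⟩
  exact ((ok_sq hD).dvd_pow_iff_dvd (n := 2) two_ne_zero).mp (h4.dvd_of_dvd_mul_left h3)

/-- Forms whose first coefficient is prime to `D`. -/
lemma exists_of_coprime (hD : Ok D) {P : LO.Frm} (hP : disc P = D) (h : IsCoprime (P 0) (D : ℤ)) :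
    ∃ g : SL(2, ℤ), Sp D (act P (sm g)) := by
  have hcop : IsCoprime (2 * P 0) (D : ℤ) := (ok_odd hD).mul_left h
  have hne : P 1 ≠ 0 ∨ 2 * P 0 ≠ 0 := by
    by_contra hcon
    rw [not_or, not_not, not_not] at hcon
    obtain ⟨h1, h2⟩ := hcon
    rw [disc, h1, show P 0 = 0 by linarith] at hP
    have := ok_pos hD
    have h3 : (D : ℤ) = 0 := by linarith
    omega
  obtain ⟨e, b, a, -, hab, hb, ha⟩ := exists_gcd hne
  obtain ⟨g, hg1, hg2⟩ := exists_col (x := -b) (y := a) hab.neg_left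
  refine ⟨g, sp_of_dvd hD (by rw [disc_sm, hP]) ?_⟩
  rw [act_zero, hg1, hg2]
  have he' : IsCoprime e (D : ℤ) := hcop.of_isCoprime_of_dvd_left ⟨a, by rw [ha]; ring⟩
  refine (he'.symm.pow_right (n := 2)).dvd_of_dvd_mul_left ?_
  refine ⟨-P 0, ?_⟩
  rw [disc] at hP
  have h1 : e ^ 2 * (P 0 * (-b) ^ 2 + P 1 * (-b * a) + P 2 * a ^ 2) =
      P 0 * (b * e) ^ 2 - P 1 * (b * e) * (a * e) + P 2 * (a * e) ^ 2 := by ring
  rw [h1, ← hb, ← ha]
  have h2 : P 0 * P 1 ^ 2 - P 1 * P 1 * (2 * P 0) + P 2 * (2 * P 0) ^ 2 =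
    -(P 0 * (P 1 ^ 2 - 4 * P 0 * P 2)) := by ring
  rw [h2, hP]
  ring

/-- Primitive representation of an integer prime to `D`. -/
lemma exists_coprime (hD : Ok D) {P : LO.Frm} (hP : disc P = D) :
    ∃ g : SL(2, ℤ), IsCoprime (act P (sm g) 0) (D : ℤ) := by
  have hne : P 0 ≠ 0 ∨ (D : ℤ) ≠ 0 := by
    right
    have := ok_pos hD
    omega
  obtain ⟨e, a, f, he0, haf, ha, hf⟩ := exists_gcd hne
  have hsq := ok_sq hD
  rw [hf, squarefree_mul_iff] at hsq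
  have hfe : IsCoprime f e := hsq.1.isCoprime
  obtain ⟨g, hg1, hg2⟩ := exists_col hfe.symm
  refine ⟨g, ?_⟩
  rw [act_zero, hg1, hg2]
  rw [disc] at hP
  -- `e` divides the middle coefficient
  have hb : e ∣ P 1 := by
    rw [← hsq.2.2.dvd_pow_iff_dvd (n := 2) two_ne_zero]
    refine ⟨f + 4 * a * P 2, ?_⟩
    have h1 : P 1 ^ 2 = D + 4 * P 0 * P 2 := by linarith
    rw [h1, hf, ha]
    ring
  obtain ⟨b, hb⟩ := hb
  have hfb : f = e * b ^ 2 - 4 * a * P 2 := by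
    apply mul_left_cancel₀ he0
    have h1 : e * f = (D : ℤ) := by rw [hf]; ring
    rw [h1, ← hP, hb, ha]
    ring
  have hce : IsCoprime (P 2) e := by
    obtain ⟨w, u, hwu⟩ := hfe
    rw [hfb] at hwu
    exact ⟨-(4 * a * w), w * b ^ 2 + u, by linarith⟩
  have h1 : IsCoprime (P 0 * e ^ 2 + P 1 * (e * f) + P 2 * f ^ 2) e := by
    have h2 : P 0 * e ^ 2 + P 1 * (e * f) + P 2 * f ^ 2 =
      P 2 * f ^ 2 + e * (P 0 * e + P 1 * f) := by ring
    rw [h2]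
    exact (hce.mul_left (hfe.pow_left)).add_mul_left_left _
  have h2 : IsCoprime (P 0 * e ^ 2 + P 1 * (e * f) + P 2 * f ^ 2) f := by
    have h3 : P 0 * e ^ 2 + P 1 * (e * f) + P 2 * f ^ 2 =
      P 0 * e ^ 2 + f * (P 1 * e + P 2 * f) := by ring
    rw [h3]
    refine IsCoprime.add_mul_left_left (IsCoprime.mul_left ?_ hfe.symm.pow_left) _
    rw [ha]
    exact haf.mul_left hfe.symm
  have h3 := h2.mul_right h1
  rwa [← hf] at h3

lemma exists_sp (hD : Ok D) {P : LO.Frm} (hP : disc P = D) :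
    ∃ g : SL(2, ℤ), Sp D (act P (sm g)) := by
  obtain ⟨g, hg⟩ := exists_coprime hD hP
  obtain ⟨h, hh⟩ := exists_of_coprime hD (P := act P (sm g)) (by rw [disc_sm, hP]) hg
  exact ⟨g * h, by rwa [sm_mul, ← act_act]⟩

variable {ι : Type} {R : ι → SL(2, ℤ)}

/-- The map from the pairs (class, special form) to the forms of discriminant `D`. -/
def mp (D : ℕ) (R : ι → SL(2, ℤ)) (p : ι × {Q : LO.Frm // Sp D Q}) : DQ D :=
  ⟨act p.2.1 (sm (R p.1)), by rw [disc_sm, p.2.2.1]⟩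

lemma mp_bij (hD : Ok D) (hR : IsRep D R) : Function.Bijective (mp D R) := by
  constructor
  · rintro ⟨i, Q, hQ⟩ ⟨j, Q', hQ'⟩ h
    have h1 : act Q (sm (R i)) = act Q' (sm (R j)) := congrArg Subtype.val h
    have h2 : act Q (sm (R i * (R j)⁻¹)) = Q' := by
      rw [sm_mul, ← act_act, h1, act_inv]
    have h3 := inj_aux hD hQ hQ' h2
    obtain ⟨k, -, hk⟩ := hR.ex (R i)
    have hi : i = k := hk i (by
      show (D : ℤ) ∣ (R i * (R i)⁻¹) 1 0
      rw [mul_inv_cancel]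
      simp)
    have hj : j = k := hk j h3
    have hij : i = j := hi.trans hj.symm
    subst hij
    have h4 : Q = Q' := by rw [← act_inv Q (R i), h1, act_inv]
    subst h4
    rfl
  · rintro ⟨P, hP⟩
    obtain ⟨g, hg⟩ := exists_sp hD hP
    obtain ⟨i, hi, -⟩ := hR.ex g⁻¹
    refine ⟨⟨i, act (act P (sm g)) (sm (g⁻¹ * (R i)⁻¹)), sp_sm hg hi⟩, ?_⟩
    apply Subtype.ext
    show act (act (act P (sm g)) (sm (g⁻¹ * (R i)⁻¹))) (sm (R i)) = P
    rw [act_act, act_act, ← sm_mul, ← sm_mul]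
    have h1 : g * (g⁻¹ * (R i)⁻¹ * R i) = 1 := by group
    rw [h1, sm_one, act_one]

end TrAAux

open TrAAux Classical in
theorem stTrA (h : StRec) : StTrA := by
  intro D ι _ R F hD hR hF
  have hW : ∀ Q : LO.Frm, WD D 1 Q = if Sp D Q then 1 else 0 := by
    intro Q
    unfold WD
    have h1 : (disc Q = D * ((1 : ℕ) : ℤ) ∧ (D : ℤ) ∣ Q 0 ∧ (D : ℤ) ∣ Q 1) ↔ Sp D Q := by
      rw [Nat.cast_one, mul_one]
      rfl
    by_cases hQ : Sp D Q
    · rw [if_pos (h1.mpr hQ), if_pos hQ]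
      obtain ⟨g, j, -, -, h2⟩ := sp_coprime hD hQ
      rw [h D g j (Q 2) hD h2]
      simp
    · rw [if_neg (fun h2 => hQ (h1.mp h2)), if_neg hQ]
  set e := Equiv.ofBijective (mp D R) (mp_bij hD hR) with he
  have hsum : Summable fun p : ι × {Q : LO.Frm // Sp D Q} => F (act p.2.1 (sm (R p.1))) :=
    (e.summable_iff (f := fun Q : DQ D => F Q.1)).mpr hF.of_norm
  have hsumn : Summable fun p : ι × {Q : LO.Frm // Sp D Q} => ‖F (act p.2.1 (sm (R p.1)))‖ :=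
    (e.summable_iff (f := fun Q : DQ D => ‖F Q.1‖)).mpr hF
  have hterm : ∀ i, (fun Q : LO.Frm => WD D 1 Q * F (act Q (sm (R i)))) =
      {Q : LO.Frm | Sp D Q}.indicator (fun Q => F (act Q (sm (R i)))) := by
    intro i
    funext Q
    rw [hW, Set.indicator_apply]
    by_cases hQ : Sp D Q
    · rw [if_pos hQ, if_pos (show Q ∈ {Q : LO.Frm | Sp D Q} from hQ), one_mul]
    · rw [if_neg hQ, if_neg (show Q ∉ {Q : LO.Frm | Sp D Q} from hQ), zero_mul]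
  constructor
  · intro i
    have h1 : Summable fun Q : {Q : LO.Frm // Sp D Q} => ‖F (act Q.1 (sm (R i)))‖ :=
      hsumn.prod_factor i
    have h2 := (summable_subtype_iff_indicator (s := {Q : LO.Frm | Sp D Q})
      (f := fun Q => ‖F (act Q (sm (R i)))‖)).mp h1
    refine h2.congr ?_
    intro Q
    have h3 := congrFun (hterm i) Q
    beta_reduce at h3
    rw [h3, Set.indicator_apply, Set.indicator_apply]
    split_ifs <;> simp
  · have h1 : ∀ i, ∑' Q : LO.Frm, WD D 1 Q * F (act Q (sm (R i))) =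
        ∑' Q : {Q : LO.Frm // Sp D Q}, F (act Q.1 (sm (R i))) := by
      intro i
      rw [hterm i]
      exact (tsum_subtype {Q : LO.Frm | Sp D Q} (fun Q => F (act Q (sm (R i))))).symm
    simp_rw [h1]
    rw [← e.tsum_eq (fun Q : DQ D => F Q.1)]
    have h2 := hsum.tsum_prod
    rw [tsum_fintype (L := SummationFilter.unconditional ι)] at h2
    exact h2.symm

end LC

end Pool.Agent.Lib.MP_7c5fb9_nt
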