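import Mathlib
import Pool.Agent.Lib.MP_7c5fb9_nt.LC.St

set_option autoImplicit false

/-!
# Project LC: the trace of the form attached to `D n^2`

Forms of square discriminant `N^2`, `N = D n`, divisible by `D` in the first two coefficients, are
`[0, N, C] ∘ δ` with `δ` in `Γ₀(D)`, exactly twice if `C` is reduced modulo `N`.
-/

namespace Pool.Agent.Lib.MP_7c5fb9_nt

namespace LC

open Set
open LO (Mat disc act)
open scoped MatrixGroups

namespace TrBAux

/-! ### sums over maps which are two to one -/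

theorem hasSum_two {E X Y : Type*} [NormedAddCommGroup E] (π : Y → X) (iv : Y → Y)
    (h1 : ∀ y, π (iv y) = π y) (h2 : ∀ y, iv y ≠ y)
    (h3 : ∀ y y', π y = π y' → y' = y ∨ y' = iv y) (G : X → E) (a : E)
    (hG : HasSum (fun Q : range π => G Q) a) : HasSum (fun y => G (π y)) (a + a) := by
  classical
  have hs : ∀ Q : range π, ∃ y, π y = Q := fun Q => Q.2
  choose s hs using hs
  have hinj : Function.Injective (Sum.elim s fun Q => iv (s Q)) := by
    rintro (Q | Q) (Q' | Q') h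
    · simp only [Sum.elim_inl] at h
      have : Q = Q' := Subtype.ext (by rw [← hs Q, ← hs Q', h])
      rw [this]
    · simp only [Sum.elim_inl, Sum.elim_inr] at h
      have : Q = Q' := Subtype.ext (by rw [← hs Q, ← hs Q', h, h1])
      subst this
      exact absurd h.symm (h2 _)
    · simp only [Sum.elim_inl, Sum.elim_inr] at h
      have : Q = Q' := Subtype.ext (by rw [← hs Q, ← hs Q', ← h, h1])
      subst this
      exact absurd h (h2 _)
    · simp only [Sum.elim_inr] at h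
      have : Q = Q' := Subtype.ext (by rw [← hs Q, ← hs Q', ← h1 (s Q), ← h1 (s Q'), h])
      rw [this]
  have hsurj : Function.Surjective (Sum.elim s fun Q => iv (s Q)) := by
    intro y
    have hy : π (s ⟨π y, mem_range_self y⟩) = π y := hs _
    rcases h3 _ _ hy with h | h
    · exact ⟨Sum.inl ⟨π y, mem_range_self y⟩, by rw [Sum.elim_inl]; exact h.symm⟩
    · exact ⟨Sum.inr ⟨π y, mem_range_self y⟩, by rw [Sum.elim_inr]; exact h.symm⟩
  let e := Equiv.ofBijective _ ⟨hinj, hsurj⟩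
  rw [← e.hasSum_iff]
  refine HasSum.sum ?_ ?_
  · convert hG using 1
    funext Q
    change G (π (s Q)) = G Q
    rw [hs]
  · convert hG using 1
    funext Q
    change G (π (iv (s Q))) = G Q
    rw [h1, hs]

/-! ### forms -/

theorem act_mul (Q : LO.Frm) (M N : Mat) : act (act Q M) N = act Q (M * N) := by
  funext i
  fin_cases i <;> simp [act, Matrix.mul_apply, Fin.sum_univ_two] <;> ring

theorem act_one (Q : LO.Frm) : act Q 1 = Q := by
  funext i
  fin_cases i <;> simp [act]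

theorem act_neg (Q : LO.Frm) (M : Mat) : act Q (-M) = act Q M := by
  funext i
  fin_cases i <;> simp [act]

theorem disc_act (Q : LO.Frm) (M : Mat) : disc (act Q M) = M.det ^ 2 * disc Q := by
  simp [act, disc, Matrix.det_fin_two]
  ring

theorem sm_mul (g h : SL(2, ℤ)) : sm (g * h) = sm g * sm h := rfl

theorem sm_neg (g : SL(2, ℤ)) : sm (-g) = -sm g := rfl

theorem sm_det (g : SL(2, ℤ)) : (sm g).det = 1 := g.2

theorem det_eq (g : SL(2, ℤ)) : sm g 0 0 * sm g 1 1 - sm g 0 1 * sm g 1 0 = 1 := by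
  rw [← Matrix.det_fin_two, sm_det]

theorem act_sm_mul (Q : LO.Frm) (g h : SL(2, ℤ)) : act (act Q (sm g)) (sm h) = act Q (sm (g * h)) :=
  act_mul _ _ _

theorem act_sm_one (Q : LO.Frm) : act Q (sm 1) = Q := act_one Q

theorem neg_ne (g : SL(2, ℤ)) : -g ≠ g := by
  intro h
  have h1 : sm (-g) = sm g := by rw [h]
  rw [sm_neg] at h1
  have h0 : ∀ i j, sm g i j = 0 := fun i j => by
    have := congrFun (congrFun h1 i) j
    rw [Matrix.neg_apply] at this
    omega
  have := det_eq g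
  rw [h0, h0 0 1] at this
  simp at this

/-- The form `[0, N, C]`. -/
def f0 (N C : ℤ) : LO.Frm := ![0, N, C]

theorem act_f0 (N C : ℤ) (M : Mat) : act (f0 N C) M =
    ![M 1 0 * (N * M 0 0 + C * M 1 0), N * (M 0 0 * M 1 1 + M 0 1 * M 1 0) +
      2 * C * (M 1 0 * M 1 1), M 1 1 * (N * M 0 1 + C * M 1 1)] := by
  funext i
  fin_cases i <;> simp [act, f0] <;> ring

theorem disc_act_f0 (N C : ℤ) (g : SL(2, ℤ)) : disc (act (f0 N C) (sm g)) = N ^ 2 := by
  rw [disc_act, sm_det]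
  simp [disc, f0]

/-- The forms `[0, N, C]` and `[0, N, C']` are equivalent only if they are equal modulo `N`. -/
theorem stab {N C C' : ℤ} (hN : N ≠ 0) {h : SL(2, ℤ)} (hh : act (f0 N C') (sm h) = f0 N C) :
    N ∣ C - C' ∧ (C = C' → h = 1 ∨ h = -1) := by
  rw [act_f0] at hh
  have e0 : sm h 1 0 * (N * sm h 0 0 + C' * sm h 1 0) = 0 := by
    simpa [f0] using congrFun hh 0
  have e1 : N * (sm h 0 0 * sm h 1 1 + sm h 0 1 * sm h 1 0) +
      2 * C' * (sm h 1 0 * sm h 1 1) = N := by simpa [f0] using congrFun hh 1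
  have e2 : sm h 1 1 * (N * sm h 0 1 + C' * sm h 1 1) = C := by
    simpa [f0] using congrFun hh 2
  have hd := det_eq h
  have h10 : sm h 1 0 = 0 := by
    by_contra hne
    have e3 : N * sm h 0 0 + C' * sm h 1 0 = 0 := by
      rcases mul_eq_zero.1 e0 with h | h
      · exact absurd h hne
      · exact h
    apply hN
    have : 2 * N = 0 := by linear_combination -e1 + N * hd + 2 * sm h 1 1 * e3 - 2 * N * hd
    omega
  rw [h10, mul_zero, sub_zero] at hd
  have h11 : sm h 1 1 * sm h 1 1 = 1 := by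
    rcases Int.mul_eq_one_iff_eq_one_or_neg_one.1 hd with ⟨_, h⟩ | ⟨_, h⟩ <;> rw [h] <;> norm_num
  refine ⟨⟨sm h 1 1 * sm h 0 1, by linear_combination -e2 + C' * h11⟩, ?_⟩
  rintro rfl
  have h01 : sm h 0 1 = 0 := by
    have h2 : N * (sm h 1 1 * sm h 0 1) = 0 := by linear_combination e2 - C * h11
    rcases mul_eq_zero.1 h2 with h | h
    · exact absurd h hN
    · rcases mul_eq_zero.1 h with h | h
      · rw [h] at h11
        simp at h11
      · exact h
  rcases Int.mul_eq_one_iff_eq_one_or_neg_one.1 hd with ⟨h00, h11⟩ | ⟨h00, h11⟩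
  · left
    ext i j
    fin_cases i <;> fin_cases j
    · exact h00
    · exact h01
    · exact h10
    · exact h11
  · right
    ext i j
    fin_cases i <;> fin_cases j
    · exact h00
    · exact h01
    · exact h10
    · exact h11

theorem fibre {N C C' : ℤ} (hN : N ≠ 0) {g g' : SL(2, ℤ)}
    (h : act (f0 N C) (sm g) = act (f0 N C') (sm g')) :
    N ∣ C - C' ∧ (C = C' → g' = g ∨ g' = -g) := by
  have h1 : act (f0 N C') (sm (g' * g⁻¹)) = f0 N C := by
    rw [← act_sm_mul, ← h, act_sm_mul, mul_inv_cancel, act_sm_one]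
  obtain ⟨h2, h3⟩ := stab hN h1
  refine ⟨h2, fun h4 => ?_⟩
  rcases h3 h4 with h5 | h5
  · left
    rwa [mul_inv_eq_one] at h5
  · right
    rw [mul_inv_eq_iff_eq_mul] at h5
    rw [h5]
    simp

/-! ### existence -/

theorem exists_root {Q : LO.Frm} {N : ℤ} (hQ : disc Q = N ^ 2) : ∃ g : SL(2, ℤ), ∃ C : ℤ,
    act Q (sm g) = f0 N C := by
  have hdet : (!![2 * Q 0, Q 1 + N; Q 1 - N, 2 * Q 2] : Matrix (Fin 2) (Fin 2) ℤ).det = 0 := by
    rw [Matrix.det_fin_two_of]
    unfold disc at hQ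
    linear_combination -hQ
  obtain ⟨v, hv, hv2⟩ := Matrix.exists_mulVec_eq_zero_iff.2 hdet
  have a0 : 2 * Q 0 * v 0 + (Q 1 + N) * v 1 = 0 := by
    have := congrFun hv2 0
    simpa [Matrix.mulVec, dotProduct, Fin.sum_univ_two] using this
  have a1 : (Q 1 - N) * v 0 + 2 * Q 2 * v 1 = 0 := by
    have := congrFun hv2 1
    simpa [Matrix.mulVec, dotProduct, Fin.sum_univ_two] using this
  -- divide by the greatest common divisor
  have hg : (Int.gcd (v 0) (v 1) : ℤ) ≠ 0 := by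
    intro h
    have h' : Int.gcd (v 0) (v 1) = 0 := by exact_mod_cast h
    rw [Int.gcd_eq_zero_iff] at h'
    apply hv
    funext i
    fin_cases i
    · exact h'.1
    · exact h'.2
  obtain ⟨x, hx⟩ := Int.gcd_dvd_left (v 0) (v 1)
  obtain ⟨y, hy⟩ := Int.gcd_dvd_right (v 0) (v 1)
  have hgcd := Int.gcd_eq_gcd_ab (v 0) (v 1)
  set G : ℤ := (Int.gcd (v 0) (v 1) : ℤ) with hG
  set p := Int.gcdA (v 0) (v 1) with hp
  set r := Int.gcdB (v 0) (v 1) with hr
  have hxy : x * p + y * r = 1 := by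
    have : G * (x * p + y * r) = G * 1 := by
      linear_combination (-p) * hx - r * hy - hgcd
    exact mul_left_cancel₀ hg this
  have b0 : 2 * Q 0 * x + (Q 1 + N) * y = 0 := by
    have : G * (2 * Q 0 * x + (Q 1 + N) * y) = G * 0 := by
      rw [mul_zero]
      rw [hx, hy] at a0
      linear_combination a0
    exact mul_left_cancel₀ hg this
  have b1 : (Q 1 - N) * x + 2 * Q 2 * y = 0 := by
    have : G * ((Q 1 - N) * x + 2 * Q 2 * y) = G * 0 := by
      rw [mul_zero]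
      rw [hx, hy] at a1
      linear_combination a1
    exact mul_left_cancel₀ hg this
  refine ⟨⟨!![x, -r; y, p], by rw [Matrix.det_fin_two_of]; linear_combination hxy⟩,
    Q 0 * r ^ 2 - Q 1 * (r * p) + Q 2 * p ^ 2, ?_⟩
  funext i
  fin_cases i
  · simp [act, sm, f0]
    have : 2 * (Q 0 * x ^ 2 + Q 1 * (x * y) + Q 2 * y ^ 2) = 0 := by
      linear_combination x * b0 + y * b1
    omega
  · simp [act, sm, f0]
    linear_combination (-r) * b0 + p * b1 + N * hxy
  · simp [act, sm, f0]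
    ring

theorem exists_rep {D n : ℕ} (hD : Squarefree D) (hn : 1 ≤ n) {Q : LO.Frm}
    (hQ : disc Q = ((D * n : ℕ) : ℤ) ^ 2) (h0 : (D : ℤ) ∣ Q 0) (h2 : IsCoprime (Q 2) (D : ℤ)) :
    ∃ C : ℕ, C < D * n ∧ ∃ g : SL(2, ℤ), (D : ℤ) ∣ sm g 1 0 ∧
      act (f0 ((D * n : ℕ) : ℤ) C) (sm g) = Q := by
  obtain ⟨g, C, hg⟩ := exists_root hQ
  set N : ℤ := ((D * n : ℕ) : ℤ) with hN
  have hDpos : 0 < D := Nat.pos_of_ne_zero hD.ne_zero
  have hNpos : 0 < N := by rw [hN]; exact_mod_cast Nat.mul_pos hDpos hn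
  set T : SL(2, ℤ) := ⟨!![1, -(C / N); 0, 1], by rw [Matrix.det_fin_two_of]; ring⟩ with hT
  have hT2 : act (f0 N C) (sm T) = f0 N (C % N) := by
    rw [act_f0]
    funext i
    fin_cases i
    · simp [sm, f0, hT]
    · simp [sm, f0, hT]
    · simp [sm, f0, hT]
      rw [Int.emod_def]
      ring
  have hgT : act Q (sm (g * T)) = f0 N (C % N) := by rw [← act_sm_mul, hg, hT2]
  have hC0 : 0 ≤ C % N := Int.emod_nonneg _ hNpos.ne'
  have hC1 : C % N < N := Int.emod_lt_of_pos _ hNpos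
  obtain ⟨c, hc⟩ := Int.eq_ofNat_of_zero_le hC0
  have hact : act (f0 N c) (sm (g * T)⁻¹) = Q := by
    rw [← hc, ← hgT, act_sm_mul, mul_inv_cancel, act_sm_one]
  refine ⟨c, ?_, (g * T)⁻¹, ?_, hact⟩
  · rw [hc, hN] at hC1
    exact_mod_cast hC1
  · set δ := (g * T)⁻¹ with hδ
    rw [act_f0] at hact
    have e0 : sm δ 1 0 * (N * sm δ 0 0 + c * sm δ 1 0) = Q 0 := by simpa using congrFun hact 0
    have e2 : sm δ 1 1 * (N * sm δ 0 1 + c * sm δ 1 1) = Q 2 := by simpa using congrFun hact 2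
    have hDN : (D : ℤ) ∣ N := ⟨n, by rw [hN]; push_cast; ring⟩
    obtain ⟨m, hm⟩ := hDN
    have hcop : IsCoprime (c : ℤ) (D : ℤ) := by
      have h3 : Q 2 = (c * sm δ 1 1 ^ 2) + (D : ℤ) * (m * sm δ 1 1 * sm δ 0 1) := by
        rw [← e2, hm]
        ring
      rw [h3] at h2
      have h4 : IsCoprime ((c : ℤ) * sm δ 1 1 ^ 2) (D : ℤ) := by
        exact (IsCoprime.add_mul_left_left_iff).1 h2
      exact h4.of_mul_left_left
    have h5 : (D : ℤ) ∣ c * sm δ 1 0 ^ 2 := by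
      have : (c : ℤ) * sm δ 1 0 ^ 2 = Q 0 - (D : ℤ) * (m * sm δ 0 0 * sm δ 1 0) := by
        rw [← e0, hm]
        ring
      rw [this]
      exact dvd_sub h0 (dvd_mul_right _ _)
    have h6 : (D : ℤ) ∣ sm δ 1 0 ^ 2 := hcop.symm.dvd_of_dvd_mul_left h5
    exact ((Int.squarefree_natCast.2 hD).dvd_pow_iff_dvd two_ne_zero).1 h6

theorem WD_f0 {D n : ℕ} (C : ℤ) {g : SL(2, ℤ)} (hg : (D : ℤ) ∣ sm g 1 0) :
    WD D (D * n ^ 2) (act (f0 ((D * n : ℕ) : ℤ) C) (sm g)) = (jacobiSym C D : ℂ) := by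
  have hd := det_eq g
  obtain ⟨m, hm⟩ := hg
  unfold WD
  rw [if_pos]
  · rw [act_f0]
    have h1 : (sm g 1 1 * (((D * n : ℕ) : ℤ) * sm g 0 1 + C * sm g 1 1)) % D =
        (C * sm g 1 1 ^ 2) % D := by
      have : sm g 1 1 * (((D * n : ℕ) : ℤ) * sm g 0 1 + C * sm g 1 1) =
          C * sm g 1 1 ^ 2 + D * (n * sm g 1 1 * sm g 0 1) := by push_cast; ring
      rw [this, Int.add_mul_emod_self_left]
    have h2 : (sm g 1 1).gcd (D : ℤ) = 1 := by
      rw [← Int.isCoprime_iff_gcd_eq_one]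
      exact ⟨sm g 0 0, -(sm g 0 1 * m), by rw [hm] at hd; linear_combination hd⟩
    have h3 : jacobiSym (sm g 1 1 ^ 2) D = 1 := by
      rw [jacobiSym.pow_left]
      exact jacobiSym.sq_one h2
    change ((jacobiSym (sm g 1 1 * (((D * n : ℕ) : ℤ) * sm g 0 1 + C * sm g 1 1)) D : ℤ) : ℂ) = _
    rw [jacobiSym.mod_left' h1, jacobiSym.mul_left, h3, mul_one]
  · refine ⟨?_, ?_, ?_⟩
    · rw [disc_act_f0]
      push_cast
      ring
    · rw [act_f0]
      change (D : ℤ) ∣ sm g 1 0 * (((D * n : ℕ) : ℤ) * sm g 0 0 + C * sm g 1 0)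
      exact Dvd.dvd.mul_right ⟨m, hm⟩ _
    · rw [act_f0]
      change (D : ℤ) ∣ ((D * n : ℕ) : ℤ) * (sm g 0 0 * sm g 1 1 + sm g 0 1 * sm g 1 0) +
        2 * C * (sm g 1 0 * sm g 1 1)
      refine ⟨n * (sm g 0 0 * sm g 1 1 + sm g 0 1 * sm g 1 0) + 2 * C * m * sm g 1 1, ?_⟩
      rw [hm]
      push_cast
      ring

theorem WD_norm (D m : ℕ) (Q : LO.Frm) : ‖WD D m Q‖ ≤ 1 := by
  unfold WD
  split_ifs
  · rcases jacobiSym.trichotomy (Q 2) D with h | h | h <;> rw [h] <;> simp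
  · simp

end TrBAux

open TrBAux

theorem stTrB : StTrB := by
  classical
  intro D n ι _ R F hD hn hR hF
  have hDpos : 0 < D := Nat.pos_of_ne_zero hD.sf.ne_zero
  have hNpos : 0 < D * n := Nat.mul_pos hDpos hn
  set N : ℤ := ((D * n : ℕ) : ℤ) with hN
  have hN0 : N ≠ 0 := by rw [hN]; exact_mod_cast hNpos.ne'
  have hNN : (((D * n : ℕ) ^ 2 : ℕ) : ℤ) = N ^ 2 := by rw [hN]; push_cast; ring
  -- the absolute values
  set FF : LO.Frm → ℝ := Set.indicator {Q | disc Q = N ^ 2} fun Q => ‖F Q‖ with hFF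
  have hFFs : Summable FF := by
    rw [hNN] at hF
    exact summable_subtype_iff_indicator.1 hF
  have hFF1 : ∀ Q, disc Q = N ^ 2 → FF Q = ‖F Q‖ := fun Q hQ => by
    rw [hFF]
    exact Set.indicator_of_mem (s := {Q | disc Q = N ^ 2}) hQ fun Q => ‖F Q‖
  have hFF0 : ∀ Q, 0 ≤ FF Q := fun Q => Set.indicator_nonneg (fun _ _ => norm_nonneg _) Q
  -- first part
  have P1 : ∀ C : ℕ, Summable fun g : SL(2, ℤ) => ‖F (act (f0 N C) (sm g))‖ := by
    intro C
    have h := hasSum_two (fun g : SL(2, ℤ) => act (f0 N C) (sm g)) (fun g => -g)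
      (fun g => by rw [sm_neg, act_neg]) neg_ne
      (fun g g' h => (fibre hN0 h).2 rfl) FF _ (hFFs.subtype _).hasSum
    refine h.summable.congr fun g => ?_
    exact hFF1 _ (disc_act_f0 N C g)
  -- the translates
  have hequiv : ∀ g : SL(2, ℤ), Summable fun Q : LO.Frm => FF (act Q (sm g)) := by
    intro g
    let e : LO.Frm ≃ LO.Frm :=
      ⟨fun Q => act Q (sm g), fun Q => act Q (sm g⁻¹),
        fun Q => by dsimp only; rw [act_sm_mul, mul_inv_cancel, act_sm_one],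
        fun Q => by dsimp only; rw [act_sm_mul, inv_mul_cancel, act_sm_one]⟩
    exact e.summable_iff.2 hFFs
  have hWD : ∀ Q, WD D (D * n ^ 2) Q ≠ 0 → disc Q = N ^ 2 ∧ (D : ℤ) ∣ Q 0 ∧
      IsCoprime (Q 2) (D : ℤ) := by
    intro Q hQ
    unfold WD at hQ
    split_ifs at hQ with hc
    · refine ⟨?_, hc.2.1, ?_⟩
      · rw [hc.1, hN]
        push_cast
        ring
      · rw [Int.isCoprime_iff_gcd_eq_one]
        by_contra hne
        have : NeZero D := ⟨hDpos.ne'⟩
        have := (jacobiSym.eq_zero_iff_not_coprime (a := Q 2) (b := D)).2 hne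
        rw [this] at hQ
        simp at hQ
    · exact absurd rfl hQ
  have P2 : ∀ i, Summable fun Q : LO.Frm => ‖WD D (D * n ^ 2) Q * F (act Q (sm (R i)))‖ := by
    intro i
    refine Summable.of_nonneg_of_le (fun _ => norm_nonneg _) (fun Q => ?_) (hequiv (R i))
    rcases eq_or_ne (WD D (D * n ^ 2) Q) 0 with h | h
    · rw [h, zero_mul, norm_zero]
      exact hFF0 _
    · obtain ⟨h1, -⟩ := hWD Q h
      rw [hFF1 _ (by rw [disc_act, sm_det, h1]; ring), norm_mul]
      exact mul_le_of_le_one_left (norm_nonneg _) (WD_norm _ _ _)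
  refine ⟨P1, P2, ?_⟩
  -- the decomposition of the group
  let Γ : Type := {δ : SL(2, ℤ) // (D : ℤ) ∣ sm δ 1 0}
  have hbij : Function.Bijective fun p : ι × Γ => p.2.1 * R p.1 := by
    constructor
    · rintro ⟨i, δ⟩ ⟨i', δ'⟩ h
      simp only at h
      have h1 : (D : ℤ) ∣ ((δ.1 * R i) * (R i)⁻¹) 1 0 := by
        rw [mul_inv_cancel_right]
        exact δ.2
      have h2 : (D : ℤ) ∣ ((δ.1 * R i) * (R i')⁻¹) 1 0 := by
        rw [h, mul_inv_cancel_right]
        exact δ'.2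
      have h3 : i = i' := (hR.ex (δ.1 * R i)).unique h1 h2
      subst h3
      have h4 : δ = δ' := Subtype.ext (mul_right_cancel h)
      rw [h4]
    · intro g
      obtain ⟨i, hi, -⟩ := hR.ex g
      exact ⟨(i, ⟨g * (R i)⁻¹, hi⟩), inv_mul_cancel_right _ _⟩
  let Θ : ι × Γ ≃ SL(2, ℤ) := Equiv.ofBijective _ hbij
  -- the sum over the group
  have hgrp : ∀ C : ℕ, ∑' g : SL(2, ℤ), F (act (f0 N C) (sm g)) =
      ∑ i, ∑' δ : Γ, F (act (act (f0 N C) (sm δ.1)) (sm (R i))) := by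
    intro C
    have hs : Summable fun g : SL(2, ℤ) => F (act (f0 N C) (sm g)) := (P1 C).of_norm
    have hs2 : Summable fun p : ι × Γ => F (act (f0 N C) (sm (Θ p))) := Θ.summable_iff.2 hs
    rw [← Θ.tsum_eq, hs2.tsum_prod, tsum_fintype]
    refine Finset.sum_congr rfl fun i _ => tsum_congr fun δ => ?_
    rw [act_sm_mul]
    rfl
  -- the two to one map
  have hmain : ∀ i, ∑ C : Fin (D * n), (jacobiSym (C : ℕ) D : ℂ) *
      ∑' δ : Γ, F (act (act (f0 N (C : ℕ)) (sm δ.1)) (sm (R i))) =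
      ∑' Q : LO.Frm, WD D (D * n ^ 2) Q * F (act Q (sm (R i))) +
        ∑' Q : LO.Frm, WD D (D * n ^ 2) Q * F (act Q (sm (R i))) := by
    intro i
    set G : LO.Frm → ℂ := fun Q => WD D (D * n ^ 2) Q * F (act Q (sm (R i))) with hG
    set π : Fin (D * n) × Γ → LO.Frm := fun p => act (f0 N (p.1 : ℕ)) (sm p.2.1) with hπ
    have hsup : Function.support G ⊆ range π := by
      intro Q hQ
      rw [Function.mem_support] at hQ
      obtain ⟨h1, h2, h3⟩ := hWD Q (left_ne_zero_of_mul hQ)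
      obtain ⟨C, hC, g, hg, hgQ⟩ := exists_rep hD.sf hn h1 h2 h3
      exact ⟨(⟨C, hC⟩, ⟨g, hg⟩), hgQ⟩
    have hGs : Summable G := (P2 i).of_norm
    have hGr : HasSum (fun Q : range π => G Q) (∑' Q, G Q) :=
      (hasSum_subtype_iff_of_support_subset hsup).2 hGs.hasSum
    have h := hasSum_two π (fun p => (p.1, ⟨-p.2.1, by
        rw [sm_neg, Matrix.neg_apply]; exact (dvd_neg).2 p.2.2⟩))
      (fun p => by simp only [hπ]; rw [sm_neg, act_neg])
      (fun p h => neg_ne p.2.1 (congrArg (fun y => (y.2 : Γ).1) h))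
      (fun p p' h => by
        obtain ⟨h1, h2⟩ := fibre hN0 h
        have h3 : ((p.1 : ℕ) : ℤ) = ((p'.1 : ℕ) : ℤ) := by
          have a1 : ((p.1 : ℕ) : ℤ) < N := by rw [hN]; exact_mod_cast p.1.2
          have a2 : ((p'.1 : ℕ) : ℤ) < N := by rw [hN]; exact_mod_cast p'.1.2
          have a3 : (((p.1 : ℕ) : ℤ) - ((p'.1 : ℕ) : ℤ)) = 0 :=
            Int.eq_zero_of_abs_lt_dvd h1 (by rw [abs_lt]; constructor <;> omega)
          omega
        have h4 : p.1 = p'.1 := Fin.ext (by exact_mod_cast h3)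
        rcases h2 h3 with h5 | h5
        · left
          exact Prod.ext h4.symm (Subtype.ext h5)
        · right
          exact Prod.ext h4.symm (Subtype.ext h5)) G _ hGr
    rw [← h.tsum_eq, h.summable.tsum_prod, tsum_fintype]
    refine Finset.sum_congr rfl fun C _ => ?_
    rw [← tsum_mul_left]
    refine tsum_congr fun δ => ?_
    simp only [hG, hπ]
    rw [hN, WD_f0 _ δ.2]
  -- conclusion
  change _ = (1 / 2) * ∑ C ∈ Finset.range (D * n), (jacobiSym C D : ℂ) *
        ∑' g : SL(2, ℤ), F (act (f0 N C) (sm g))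
  rw [Finset.sum_range]
  simp_rw [hgrp, Finset.mul_sum]
  rw [Finset.sum_comm]
  refine Finset.sum_congr rfl fun i _ => ?_
  have := hmain i
  simp_rw [mul_comm (1 / 2 : ℂ)]
  rw [← Finset.sum_mul, this]
  ring

end LC

end Pool.Agent.Lib.MP_7c5fb9_nt
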