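import Mathlib
import Pool.Agent.Lib.MP_7c5fb9_nt.LC.St

set_option autoImplicit false

/-!
Project LC, module Um: the theta multiplier.
-/

namespace Pool.Agent.Lib.MP_7c5fb9_nt.LC

open MeasureTheory UpperHalfPlane Set Pool.Agent.Lib.MP_7c08ba_nt.RZ
open LO (Mat disc act mir qv mb)
open scoped MatrixGroups ComplexConjugate

namespace UmAux

theorem ee_add (a b : ℂ) : ee (a + b) = ee a * ee b := by
  unfold ee
  rw [mul_add, Complex.exp_add]

theorem ee_int (n : ℤ) : ee n = 1 := by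
  unfold ee
  rw [Complex.exp_eq_one_iff]
  exact ⟨n, by ring⟩

theorem ee_norm (x : ℝ) : ‖ee (x : ℂ)‖ = 1 := by
  unfold ee
  rw [Complex.norm_exp]
  have : (2 * (Real.pi : ℂ) * Complex.I * (x : ℂ)).re = 0 := by simp
  rw [this, Real.exp_zero]

/-- `tht ν` is even -/
theorem tht_neg (ν : Fin 2) (τ z : ℂ) : tht ν τ (-z) = tht ν τ z := by
  unfold tht
  let e : ℤ ≃ ℤ := (Equiv.neg ℤ).trans (Equiv.subRight (((ν : ℕ) : ℤ)))
  rw [← e.tsum_eq]
  refine tsum_congr fun r => ?_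
  congr 1
  have he : ((e r : ℤ) : ℂ) = -(r : ℂ) - ((ν : ℕ) : ℂ) := by
    simp [e]
  rw [he]
  ring

theorem tht_mul_unit (ν : Fin 2) (τ z : ℂ) {d : ℤ} (hd : d = 1 ∨ d = -1) :
    tht ν τ (d * z) = tht ν τ z := by
  rcases hd with rfl | rfl
  · simp
  · simp [tht_neg]

/-- translation -/
theorem tht_add (ν : Fin 2) (τ z : ℂ) (n : ℤ) :
    tht ν (τ + n) z = ee ((n : ℂ) * ((ν : ℕ) : ℂ) ^ 2 / 4) * tht ν τ z := by
  unfold tht
  rw [← tsum_mul_left]
  refine tsum_congr fun r => ?_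
  rw [← ee_add]
  have h : (2 * (r : ℂ) + ((ν : ℕ) : ℂ)) ^ 2 * (τ + n) / 4 + (2 * (r : ℂ) + ((ν : ℕ) : ℂ)) * z =
      ((n * (r ^ 2 + r * ((ν : ℕ) : ℤ)) : ℤ) : ℂ) + ((n : ℂ) * ((ν : ℕ) : ℂ) ^ 2 / 4 +
        ((2 * (r : ℂ) + ((ν : ℕ) : ℂ)) ^ 2 * τ / 4 + (2 * (r : ℂ) + ((ν : ℕ) : ℂ)) * z)) := by
    push_cast
    ring
  rw [h, ee_add, ee_int, one_mul]

theorem det_eq (M : Mat) (h : M.det = 1) : M 0 0 * M 1 1 - M 0 1 * M 1 0 = 1 := by
  rw [← h, Matrix.det_fin_two]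

theorem mb_neg (M : Mat) (τ : ℂ) : mb (-M) τ = mb M τ := by
  unfold mb
  simp only [Matrix.neg_apply, Int.cast_neg]
  rw [← neg_div_neg_eq]
  congr 1 <;> ring

theorem jf_neg (M : Mat) (τ : ℂ) : jf (-M) τ = -jf M τ := by
  unfold jf
  simp only [Matrix.neg_apply, Int.cast_neg]
  ring

theorem Um_p {M : Mat} (hc : 0 < M 1 0) (τ : ℂ) (ν μ : Fin 2) : Um M τ ν μ =
    rt (τ + M 1 1 / M 1 0) *
      gs (M 0 0) (M 1 0) (M 1 1) ((ν : ℕ) : ℤ) ((μ : ℕ) : ℤ) := if_pos hc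

theorem Um_n {M : Mat} (hc : M 1 0 < 0) (τ : ℂ) (ν μ : Fin 2) : Um M τ ν μ =
    rt (τ + M 1 1 / M 1 0) *
      gs (-M 0 0) (-M 1 0) (-M 1 1) ((ν : ℕ) : ℤ) ((μ : ℕ) : ℤ) :=
  (if_neg (by omega)).trans (if_pos hc)

theorem Um_z {M : Mat} (hc : M 1 0 = 0) (τ : ℂ) (ν μ : Fin 2) : Um M τ ν μ =
    if ν = μ then ee ((M 0 1 : ℂ) * M 1 1 * ((ν : ℕ) : ℂ) ^ 2 / 4) else 0 :=
  (if_neg (by omega)).trans (if_neg (by omega))

theorem neg10 (M : Mat) : (-M) 1 0 = -(M 1 0) := rfl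
theorem neg11 (M : Mat) : (-M) 1 1 = -(M 1 1) := rfl
theorem neg00 (M : Mat) : (-M) 0 0 = -(M 0 0) := rfl
theorem neg01 (M : Mat) : (-M) 0 1 = -(M 0 1) := rfl

theorem Um_neg (M : Mat) (τ : ℂ) : Um (-M) τ = Um M τ := by
  funext ν μ
  rcases lt_trichotomy (M 1 0) 0 with h | h | h
  · rw [Um_n h, Um_p (by rw [neg10]; omega), neg10, neg11, neg00]
    push_cast
    rw [neg_div_neg_eq]
  · rw [Um_z h, Um_z (by rw [neg10]; omega), neg01, neg11]
    push_cast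
    rw [neg_mul_neg]
  · rw [Um_p h, Um_n (by rw [neg10]; omega), neg10, neg11, neg00]
    push_cast
    rw [neg_div_neg_eq, neg_neg, neg_neg, neg_neg]

/-- lower left entry zero -/
theorem d_unit {M : Mat} (h : M.det = 1) (hc : M 1 0 = 0) :
    M 0 0 = M 1 1 ∧ (M 1 1 = 1 ∨ M 1 1 = -1) := by
  have h1 := det_eq M h
  rw [hc, mul_zero, sub_zero] at h1
  rcases Int.eq_one_or_neg_one_of_mul_eq_one' h1 with ⟨h2, h3⟩ | ⟨h2, h3⟩
  · exact ⟨by rw [h2, h3], Or.inl h3⟩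
  · exact ⟨by rw [h2, h3], Or.inr h3⟩

theorem det_neg {M : Mat} (h : M.det = 1) : (-M).det = 1 := by
  rw [Matrix.det_fin_two] at h ⊢
  simp only [Matrix.neg_apply, neg_mul_neg]
  exact h

/-- reduction to nonnegative lower left entry -/
theorem reduce {P : Mat → Prop} (hneg : ∀ M, P (-M) → P M)
    (hpos : ∀ M : Mat, M.det = 1 → 0 < M 1 0 → P M)
    (hzero : ∀ M : Mat, M.det = 1 → M 1 0 = 0 → P M) (M : Mat) (h : M.det = 1) : P M := by
  rcases lt_trichotomy (M 1 0) 0 with h1 | h1 | h1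
  · refine hneg M (hpos _ (det_neg h) ?_)
    rw [Matrix.neg_apply]
    omega
  · exact hzero M h h1
  · exact hpos M h h1

theorem law (hT : StTh) (M : Mat) (h : M.det = 1) : ∀ (τ z : ℂ) (ν : Fin 2), 0 < τ.im →
    tht ν (mb M τ) (z / jf M τ) * ee (-(M 1 0 : ℂ) * z ^ 2 / jf M τ) =
      ∑ μ, Um M τ ν μ * tht μ τ z := by
  refine reduce (P := fun M => ∀ (τ z : ℂ) (ν : Fin 2), 0 < τ.im →
    tht ν (mb M τ) (z / jf M τ) * ee (-(M 1 0 : ℂ) * z ^ 2 / jf M τ) =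
      ∑ μ, Um M τ ν μ * tht μ τ z) ?_ ?_ ?_ M h
  · intro M hM τ z ν hτ
    have h1 := hM τ (-z) ν hτ
    rw [mb_neg, jf_neg, Um_neg] at h1
    simp only [tht_neg, neg_div_neg_eq, Matrix.neg_apply, Int.cast_neg, neg_neg] at h1
    rw [← h1]
    congr 2
    rw [div_neg]
    ring
  · intro M hd hc τ z ν hτ
    rw [hT M τ z ν hd hc hτ]
    refine Finset.sum_congr rfl fun μ _ => ?_
    rw [Um_p hc]
  · intro M hd hc τ z ν hτ
    obtain ⟨h1, h2⟩ := d_unit hd hc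
    have hdd : (M 1 1 : ℂ) * M 1 1 = 1 := by
      rcases h2 with h2 | h2 <;> rw [h2] <;> norm_num
    have hd0 : (M 1 1 : ℂ) ≠ 0 := left_ne_zero_of_mul_eq_one hdd
    have hinv : ((M 1 1 : ℂ))⁻¹ = M 1 1 := inv_eq_of_mul_eq_one_right hdd
    have hjf : jf M τ = M 1 1 := by
      unfold jf
      rw [hc]
      simp
    have hmb : mb M τ = τ + ((M 0 1 * M 1 1 : ℤ) : ℂ) := by
      unfold mb
      rw [hc, h1, Int.cast_zero, zero_mul, zero_add, div_eq_mul_inv, hinv, add_mul]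
      push_cast
      rw [mul_assoc, mul_comm τ, ← mul_assoc, hdd, one_mul]
    have hU : ∀ μ, Um M τ ν μ * tht μ τ z =
        if ν = μ then ee ((M 0 1 : ℂ) * M 1 1 * ((ν : ℕ) : ℂ) ^ 2 / 4) * tht ν τ z else 0 := by
      intro μ
      rw [Um_z hc]
      split_ifs with h3
      · rw [h3]
      · rw [zero_mul]
    rw [Finset.sum_congr rfl fun μ _ => hU μ, Finset.sum_ite_eq, if_pos (Finset.mem_univ _), hmb,
      hjf, hc, tht_add, div_eq_mul_inv z, hinv, mul_comm z, tht_mul_unit ν τ z h2]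
    have h3 : ee (-((0 : ℤ) : ℂ) * z ^ 2 / (M 1 1 : ℂ)) = 1 := by
      have : -((0 : ℤ) : ℂ) * z ^ 2 / (M 1 1 : ℂ) = ((0 : ℤ) : ℂ) := by simp
      rw [this, ee_int]
    rw [h3, mul_one]
    push_cast
    rfl

theorem jf_ne (M : Mat) (h : M.det = 1) (τ : ℂ) (hτ : 0 < τ.im) : jf M τ ≠ 0 := by
  intro h0
  unfold jf at h0
  have h1 := congrArg Complex.im h0
  have h2 := congrArg Complex.re h0
  simp only [Complex.add_im, Complex.mul_im, Complex.intCast_re, Complex.intCast_im, zero_mul,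
    add_zero, Complex.zero_im, Complex.add_re, Complex.mul_re, sub_zero, Complex.zero_re] at h1 h2
  have hc : (M 1 0 : ℝ) = 0 := by
    rcases mul_eq_zero.1 h1 with h3 | h3
    · exact h3
    · exact absurd h3 hτ.ne'
  rw [hc, zero_mul, zero_add] at h2
  have hc' : M 1 0 = 0 := by exact_mod_cast hc
  have hd' : M 1 1 = 0 := by exact_mod_cast h2
  have h3 := det_eq M h
  rw [hc', hd'] at h3
  omega

theorem mb_im (M : Mat) (h : M.det = 1) (τ : ℂ) (hτ : 0 < τ.im) : 0 < (mb M τ).im := by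
  have hj := jf_ne M h τ hτ
  have hn : 0 < Complex.normSq (jf M τ) := Complex.normSq_pos.2 hj
  have h1 : (mb M τ).im = τ.im / Complex.normSq (jf M τ) := by
    have h2 : mb M τ = (((M 0 0 : ℂ) * τ + M 0 1) * conj (jf M τ)) *
        ((Complex.normSq (jf M τ))⁻¹ : ℝ) := by
      unfold mb
      rw [div_eq_mul_inv, show (M 1 0 : ℂ) * τ + M 1 1 = jf M τ from rfl, Complex.inv_def]
      push_cast
      ring
    rw [h2, Complex.mul_im, Complex.ofReal_im, mul_zero, zero_add, Complex.ofReal_re,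
      ← div_eq_mul_inv]
    congr 1
    unfold jf
    have h3 : ((M 0 0 : ℝ)) * M 1 1 - M 0 1 * M 1 0 = 1 := by exact_mod_cast det_eq M h
    simp only [map_add, map_mul, map_intCast, Complex.mul_im, Complex.add_re,
      Complex.mul_re, Complex.intCast_re, Complex.intCast_im, zero_mul, sub_zero, Complex.conj_re,
      Complex.conj_im, Complex.add_im, add_zero]
    linear_combination τ.im * h3
  rw [h1]
  positivity

theorem jf_mul (M N : Mat) (hN : N.det = 1) (τ : ℂ) (hτ : 0 < τ.im) :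
    jf (M * N) τ = jf M (mb N τ) * jf N τ := by
  have hj := jf_ne N hN τ hτ
  unfold jf mb at *
  rw [add_mul, mul_assoc (M 1 0 : ℂ), div_mul_cancel₀ _ hj]
  simp only [Matrix.mul_apply, Fin.sum_univ_two]
  push_cast
  ring

theorem mb_mul (M N : Mat) (hN : N.det = 1) (τ : ℂ) (hτ : 0 < τ.im) :
    mb (M * N) τ = mb M (mb N τ) := by
  have hj := jf_ne N hN τ hτ
  have h1 : mb (M * N) τ = ((M * N : Mat) 0 0 * τ + (M * N : Mat) 0 1) / jf (M * N) τ := rfl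
  have h2 : mb M (mb N τ) = ((M 0 0 : ℂ) * mb N τ + M 0 1) / jf M (mb N τ) := rfl
  rw [h1, h2, jf_mul M N hN τ hτ]
  have h3 : ((M * N : Mat) 0 0 : ℂ) * τ + ((M * N : Mat) 0 1 : ℂ) =
      ((M 0 0 : ℂ) * mb N τ + M 0 1) * jf N τ := by
    unfold mb jf at *
    rw [add_mul, mul_assoc (M 0 0 : ℂ), div_mul_cancel₀ _ hj]
    simp only [Matrix.mul_apply, Fin.sum_univ_two]
    push_cast
    ring
  rw [h3, mul_div_mul_right _ _ hj]

theorem quot_id (M N : Mat) (hM : M.det = 1) (hN : N.det = 1) (τ : ℂ) (hτ : 0 < τ.im) :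
    ((M * N : Mat) 1 0 : ℂ) / jf (M * N) τ =
      (M 1 0 : ℂ) / (jf M (mb N τ) * jf N τ ^ 2) + (N 1 0 : ℂ) / jf N τ := by
  have hj := jf_ne N hN τ hτ
  have hj' := jf_ne M hM _ (mb_im N hN τ hτ)
  rw [jf_mul M N hN τ hτ]
  have h1 : ((M * N : Mat) 1 0 : ℂ) * jf N τ =
      (M 1 0 : ℂ) + (N 1 0 : ℂ) * (jf M (mb N τ) * jf N τ) := by
    rw [← jf_mul M N hN τ hτ]
    unfold jf
    have h3 : ((N 0 0 : ℂ)) * N 1 1 - N 0 1 * N 1 0 = 1 := by exact_mod_cast det_eq N hN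
    simp only [Matrix.mul_apply, Fin.sum_univ_two]
    push_cast
    linear_combination (M 1 0 : ℂ) * h3
  rw [div_add_div _ _ (mul_ne_zero hj' (pow_ne_zero 2 hj)) hj, div_eq_div_iff
    (mul_ne_zero hj' hj) (mul_ne_zero (mul_ne_zero hj' (pow_ne_zero 2 hj)) hj)]
  linear_combination (jf M (mb N τ) * jf N τ ^ 2) * h1

theorem cocycle (hT : StTh) (hI : StInd) (M N : Mat) (τ : ℂ) (hM : M.det = 1) (hN : N.det = 1)
    (hτ : 0 < τ.im) : Um (M * N) τ = Um M (mb N τ) * Um N τ := by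
  have hj := jf_ne N hN τ hτ
  have hτ' := mb_im N hN τ hτ
  have hMN : (M * N).det = 1 := by rw [Matrix.det_mul, hM, hN, one_mul]
  have key : ∀ ν : Fin 2, (fun μ => Um (M * N) τ ν μ - (Um M (mb N τ) * Um N τ) ν μ) = 0 := by
    intro ν
    refine hI τ _ hτ fun z => ?_
    simp only [sub_mul, Finset.sum_sub_distrib]
    rw [sub_eq_zero, ← law hT (M * N) hMN τ z ν hτ]
    have h1 := law hT M hM (mb N τ) (z / jf N τ) ν hτ'
    have h2 : ∑ μ, (Um M (mb N τ) * Um N τ) ν μ * tht μ τ z =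
        ∑ ρ, Um M (mb N τ) ν ρ * (tht ρ (mb N τ) (z / jf N τ) *
          ee (-(N 1 0 : ℂ) * z ^ 2 / jf N τ)) := by
      simp only [law hT N hN τ z _ hτ, Matrix.mul_apply, Finset.sum_mul, Finset.mul_sum]
      rw [Finset.sum_comm]
      refine Finset.sum_congr rfl fun ρ _ => Finset.sum_congr rfl fun μ _ => ?_
      ring
    have h3 : ∑ ρ, Um M (mb N τ) ν ρ * (tht ρ (mb N τ) (z / jf N τ) *
          ee (-(N 1 0 : ℂ) * z ^ 2 / jf N τ)) =
        (∑ ρ, Um M (mb N τ) ν ρ * tht ρ (mb N τ) (z / jf N τ)) *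
          ee (-(N 1 0 : ℂ) * z ^ 2 / jf N τ) := by
      rw [Finset.sum_mul]
      exact Finset.sum_congr rfl fun ρ _ => by ring
    rw [h2, h3, ← h1, mb_mul M N hN τ hτ, mul_assoc, ← ee_add]
    have hj' := jf_ne M hM _ hτ'
    have h4 : z / jf (M * N) τ = z / jf N τ / jf M (mb N τ) := by
      rw [jf_mul M N hN τ hτ, div_div, mul_comm (jf M (mb N τ))]
    have h5 := quot_id M N hM hN τ hτ
    have h6 : -((M * N : Mat) 1 0 : ℂ) * z ^ 2 / jf (M * N) τ =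
        -(M 1 0 : ℂ) * (z / jf N τ) ^ 2 / jf M (mb N τ) + -(N 1 0 : ℂ) * z ^ 2 / jf N τ := by
      calc -((M * N : Mat) 1 0 : ℂ) * z ^ 2 / jf (M * N) τ
          = -z ^ 2 * (((M * N : Mat) 1 0 : ℂ) / jf (M * N) τ) := by ring
        _ = _ := by
          rw [h5]
          field_simp
          ring
    rw [h4, h6]
  funext ν μ
  have h := congrFun (key ν) μ
  exact sub_eq_zero.1 h

theorem rt_sq (w : ℂ) : ‖rt w‖ ^ 2 = ‖w‖ / 2 := by
  have h1 : rt w ^ 2 = -Complex.I * w / 2 := by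
    unfold rt
    rw [← Complex.cpow_nat_mul]
    norm_num
  rw [← norm_pow, h1, norm_div, norm_mul, norm_neg, Complex.norm_I, one_mul]
  norm_num

theorem unit1 (hG : StGs) (M : Mat) (h : M.det = 1) : ∀ τ : ℂ,
    Um M τ * (Um M τ).conjTranspose = ((‖jf M τ‖ : ℝ) : ℂ) • (1 : Matrix (Fin 2) (Fin 2) ℂ) := by
  refine reduce (P := fun M => ∀ τ : ℂ,
    Um M τ * (Um M τ).conjTranspose = ((‖jf M τ‖ : ℝ) : ℂ) • (1 : Matrix (Fin 2) (Fin 2) ℂ))
    ?_ ?_ ?_ M h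
  · intro M hM τ
    have := hM τ
    rwa [Um_neg, jf_neg, norm_neg] at this
  · intro M hd hc τ
    have hc0 : (M 1 0 : ℂ) ≠ 0 := by exact_mod_cast hc.ne'
    have hw : ((‖jf M τ‖ : ℝ) : ℂ) = ((‖rt (τ + M 1 1 / M 1 0)‖ ^ 2 : ℝ) : ℂ) * (2 * (M 1 0 : ℂ)) := by
      rw [rt_sq]
      have h1 : jf M τ = (M 1 0 : ℂ) * (τ + M 1 1 / M 1 0) := by
        unfold jf
        field_simp
      have h2 : ‖(M 1 0 : ℂ)‖ = (M 1 0 : ℝ) := by
        rw [Complex.norm_intCast, abs_of_pos (by exact_mod_cast hc)]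
      rw [h1, norm_mul, h2]
      push_cast
      ring
    funext ν ν'
    rw [Matrix.mul_apply, Matrix.smul_apply, Matrix.one_apply, hw, smul_eq_mul]
    have h2 := hG.2 (M 0 0) (M 0 1) (M 1 0) (M 1 1) ν ν' (det_eq M hd) hc
    have h3 : ∀ μ, Um M τ ν μ * (Um M τ).conjTranspose μ ν' =
        ((‖rt (τ + M 1 1 / M 1 0)‖ ^ 2 : ℝ) : ℂ) *
          (gs (M 0 0) (M 1 0) (M 1 1) ((ν : ℕ) : ℤ) ((μ : ℕ) : ℤ) *
            conj (gs (M 0 0) (M 1 0) (M 1 1) ((ν' : ℕ) : ℤ) ((μ : ℕ) : ℤ))) := by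
      intro μ
      rw [Matrix.conjTranspose_apply, Um_p hc, Um_p hc, Complex.star_def, map_mul]
      have h4 : rt (τ + M 1 1 / M 1 0) * conj (rt (τ + M 1 1 / M 1 0)) =
          ((‖rt (τ + M 1 1 / M 1 0)‖ ^ 2 : ℝ) : ℂ) := by
        rw [Complex.mul_conj, Complex.normSq_eq_norm_sq]
      rw [← h4]
      ring
    rw [Finset.sum_congr rfl fun μ _ => h3 μ, ← Finset.mul_sum, h2]
    split_ifs <;> ring
  · intro M hd hc τ
    obtain ⟨h1, h2⟩ := d_unit hd hc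
    have hjf : ‖jf M τ‖ = 1 := by
      unfold jf
      rw [hc, Int.cast_zero, zero_mul, zero_add]
      rcases h2 with h2 | h2 <;> rw [h2] <;> norm_num
    funext ν ν'
    rw [Matrix.mul_apply, Matrix.smul_apply, Matrix.one_apply, hjf, smul_eq_mul,
      Complex.ofReal_one, one_mul]
    have h3 : ∀ μ, Um M τ ν μ * (Um M τ).conjTranspose μ ν' =
        if ν = μ then (if ν = ν' then 1 else 0) else 0 := by
      intro μ
      rw [Matrix.conjTranspose_apply, Um_z hc, Um_z hc]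
      by_cases h4 : ν = μ
      · rw [if_pos h4, if_pos h4]
        subst h4
        by_cases h5 : ν = ν'
        · subst h5
          rw [if_pos rfl, if_pos rfl, Complex.star_def, Complex.mul_conj,
            Complex.normSq_eq_norm_sq]
          have h6 : (M 0 1 : ℂ) * M 1 1 * ((ν : ℕ) : ℂ) ^ 2 / 4 =
              (((M 0 1 : ℝ) * M 1 1 * ((ν : ℕ) : ℝ) ^ 2 / 4 : ℝ) : ℂ) := by
            push_cast
            rfl
          rw [h6, ee_norm]
          norm_num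
        · rw [if_neg h5, if_neg (fun h => h5 h.symm), star_zero, mul_zero]
      · rw [if_neg h4, if_neg h4, zero_mul]
    rw [Finset.sum_congr rfl fun μ _ => h3 μ, Finset.sum_ite_eq, if_pos (Finset.mem_univ _)]

theorem cont (M : Mat) (h : M.det = 1) : ∀ ν μ : Fin 2,
    ContinuousOn (fun τ => Um M τ ν μ) {τ | 0 < τ.im} := by
  refine reduce (P := fun M => ∀ ν μ : Fin 2,
    ContinuousOn (fun τ => Um M τ ν μ) {τ | 0 < τ.im}) ?_ ?_ ?_ M h
  · intro M hM ν μ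
    have h1 : (fun τ => Um M τ ν μ) = fun τ => Um (-M) τ ν μ := by
      funext τ
      rw [Um_neg]
    rw [h1]
    exact hM ν μ
  · intro M _ hc ν μ
    have h1 : ∀ τ, Um M τ ν μ = rt (τ + M 1 1 / M 1 0) *
        gs (M 0 0) (M 1 0) (M 1 1) ((ν : ℕ) : ℤ) ((μ : ℕ) : ℤ) := by
      intro τ
      rw [Um_p hc]
    simp only [h1]
    refine ContinuousOn.mul ?_ continuousOn_const
    unfold rt
    refine ContinuousOn.cpow_const (by fun_prop) fun τ hτ => ?_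
    left
    have h2 : (M 1 1 : ℂ) / M 1 0 = (((M 1 1 : ℝ) / M 1 0 : ℝ) : ℂ) := by push_cast; rfl
    have h3 : (-Complex.I * (τ + M 1 1 / M 1 0) / 2).re = τ.im / 2 := by
      rw [h2, Complex.div_ofNat_re]
      simp
    rw [h3]
    have : 0 < τ.im := hτ
    positivity
  · intro M _ hc ν μ
    have h1 : ∀ τ, Um M τ ν μ =
        if ν = μ then ee ((M 0 1 : ℂ) * M 1 1 * ((ν : ℕ) : ℂ) ^ 2 / 4) else 0 := by
      intro τ
      rw [Um_z hc]
    simp only [h1]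
    exact continuousOn_const

end UmAux

open UmAux in
theorem stUm (hT : StTh) (hG : StGs) (hI : StInd) : StUm := by
  refine ⟨fun M τ z ν h hτ => law hT M h τ z ν hτ, fun M N τ hM hN hτ =>
    cocycle hT hI M N τ hM hN hτ, fun M τ h hτ => ?_, fun M ν μ h => cont M h ν μ, Um_neg,
    fun n τ ν μ => ?_⟩
  · have h1 := unit1 hG M h τ
    have hj : ((‖jf M τ‖ : ℝ) : ℂ) ≠ 0 := by
      exact_mod_cast (norm_pos_iff.2 (jf_ne M h τ hτ)).ne'
    have h2 : (Um M τ).conjTranspose * Um M τ =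
        ((‖jf M τ‖ : ℝ) : ℂ) • (1 : Matrix (Fin 2) (Fin 2) ℂ) := by
      have h3 : Um M τ * ((((‖jf M τ‖ : ℝ) : ℂ))⁻¹ • (Um M τ).conjTranspose) = 1 := by
        rw [Matrix.mul_smul, h1, smul_smul, inv_mul_cancel₀ hj, one_smul]
      have h4 := mul_eq_one_comm.1 h3
      rw [Matrix.smul_mul] at h4
      rw [← h4, smul_smul, mul_inv_cancel₀ hj, one_smul]
    refine ⟨h1, h2, fun ν μ => ?_⟩
    have h3 := congrFun (congrFun h1 ν) ν
    rw [Matrix.mul_apply, Matrix.smul_apply, Matrix.one_apply_eq, smul_eq_mul, mul_one] at h3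
    have h4 : ∀ ρ, Um M τ ν ρ * (Um M τ).conjTranspose ρ ν = ((‖Um M τ ν ρ‖ ^ 2 : ℝ) : ℂ) := by
      intro ρ
      rw [Matrix.conjTranspose_apply, Complex.star_def, Complex.mul_conj, Complex.normSq_eq_norm_sq]
    rw [Finset.sum_congr rfl fun ρ _ => h4 ρ, ← Complex.ofReal_sum] at h3
    have h5 : ∑ ρ, ‖Um M τ ν ρ‖ ^ 2 = ‖jf M τ‖ := by exact_mod_cast h3
    have h6 : ‖Um M τ ν μ‖ ^ 2 ≤ ‖jf M τ‖ := by
      rw [← h5]
      exact Finset.single_le_sum (f := fun ρ => ‖Um M τ ν ρ‖ ^ 2) (fun ρ _ => by positivity)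
        (Finset.mem_univ μ)
    rw [← Real.sqrt_eq_rpow]
    exact Real.le_sqrt_of_sq_le h6
  · unfold Um
    simp

end Pool.Agent.Lib.MP_7c5fb9_nt.LC
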