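import Mathlib
import Pool.Agent.Lib.MP_7c5fb9_nt.LC.St

set_option autoImplicit false

/-!
Project LC, module Ver: the kernel identity integrated along vertical lines.
-/

namespace Pool.Agent.Lib.MP_7c5fb9_nt

namespace LC

open MeasureTheory UpperHalfPlane Set Filter Pool.Agent.Lib.MP_7c08ba_nt.RZ
open LO (Mat disc act mir qv mb)
open scoped MatrixGroups ComplexConjugate

namespace VerAux

/-- integrability of the sum of a series -/
theorem integrable_tsum {ι : Type} [Countable ι] {μ : Measure ℝ} {F : ι → ℝ → ℂ}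
    (h1 : ∀ i, Integrable (F i) μ) (h2 : Summable fun i => ∫ y, ‖F i y‖ ∂μ) :
    Integrable (fun y => ∑' i, F i y) μ := by
  have hfin : ∑' i, ∫⁻ y, ‖F i y‖ₑ ∂μ ≠ ⊤ := by
    have (i : ι) : ∫⁻ a, ‖F i a‖ₑ ∂μ = ‖∫ a, ‖F i a‖ ∂μ‖ₑ := by
      dsimp [enorm]
      rw [lintegral_coe_eq_integral _ (h1 i).norm, ENNReal.coe_nnreal_eq, coe_nnnorm,
        Real.norm_of_nonneg (integral_nonneg (fun a ↦ norm_nonneg (F i a)))]
      simp only [coe_nnnorm]
    rw [funext this]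
    exact ENNReal.tsum_coe_ne_top_iff_summable.2 <| NNReal.summable_coe.1 h2.abs
  have hmeas : ∀ i, AEMeasurable (fun y => ‖F i y‖ₑ) μ := fun i => (h1 i).1.enorm
  have hl : ∫⁻ y, ∑' i, ‖F i y‖ₑ ∂μ = ∑' i, ∫⁻ y, ‖F i y‖ₑ ∂μ := lintegral_tsum hmeas
  have hae : ∀ᵐ y ∂μ, ∑' i, ‖F i y‖ₑ < ⊤ :=
    ae_lt_top' (AEMeasurable.tsum hmeas) (by rw [hl]; exact hfin)
  have hs : ∀ᵐ y ∂μ, Summable fun i => F i y := by
    filter_upwards [hae] with y hy
    have h3 : Summable fun i => ‖F i y‖₊ := ENNReal.tsum_coe_ne_top_iff_summable.1 hy.ne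
    exact Summable.of_nnnorm h3
  refine ⟨aestronglyMeasurable_of_tendsto_ae Filter.atTop
    (f := fun s : Finset ι => fun y => ∑ i ∈ s, F i y)
    (fun s => Finset.aestronglyMeasurable_fun_sum s fun i _ => (h1 i).1)
    (hs.mono fun y hy => hy.hasSum), ?_⟩
  unfold HasFiniteIntegral
  refine lt_of_le_of_lt (lintegral_mono fun y => ?_) (lt_top_iff_ne_top.2 (hl ▸ hfin))
  exact enorm_tsum_le_tsum_enorm

/-- a lower bound for linear forms -/
theorem lin_lb (z : ℂ) (hz : 0 < z.im) (a b : ℤ) (h : ¬ (a = 0 ∧ b = 0)) :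
    min z.im 1 ≤ ‖(a : ℂ) * z + b‖ := by
  rcases eq_or_ne a 0 with ha | ha
  · have hb : b ≠ 0 := fun hb => h ⟨ha, hb⟩
    have h1 : (1 : ℝ) ≤ |(b : ℝ)| := by
      have := Int.one_le_abs hb
      exact_mod_cast this
    refine (min_le_right _ _).trans (h1.trans ?_)
    rw [ha, Int.cast_zero, zero_mul, zero_add]
    have : ((b : ℤ) : ℂ) = ((b : ℝ) : ℂ) := by push_cast; rfl
    rw [this, Complex.norm_real, Real.norm_eq_abs]
  · have h1 : (1 : ℝ) ≤ |(a : ℝ)| := by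
      have := Int.one_le_abs ha
      exact_mod_cast this
    refine (min_le_left _ _).trans ?_
    have h2 : |((a : ℂ) * z + b).im| ≤ ‖(a : ℂ) * z + b‖ := Complex.abs_im_le_norm _
    refine le_trans ?_ h2
    have h3 : ((a : ℂ) * z + b).im = a * z.im := by simp
    rw [h3, abs_mul, abs_of_pos hz]
    nlinarith

/-- the first component -/
noncomputable def w1 (M : Mat) (z : ℂ) : ℂ := (M 0 0 : ℂ) * z + M 0 1

/-- the second component -/
noncomputable def w2 (M : Mat) (z : ℂ) : ℂ := (M 1 0 : ℂ) * z + M 1 1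

theorem det2 (M : Mat) : M.det = M 0 0 * M 1 1 - M 0 1 * M 1 0 := Matrix.det_fin_two M

theorem im_w (M : Mat) (z : ℂ) : (w1 M z * conj (w2 M z)).im = M.det * z.im := by
  rw [det2, w1, w2]
  simp only [map_add, map_mul, Complex.mul_im, Complex.add_re, Complex.add_im, Complex.mul_re,
    Complex.conj_re, Complex.conj_im, Complex.intCast_re, Complex.intCast_im]
  push_cast
  ring

/-- the adjugate -/
def adj (M : Mat) : Mat := !![M 1 1, -M 0 1; -M 1 0, M 0 0]

theorem det_adj (M : Mat) : (adj M).det = M.det := by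
  rw [det2, det2]
  simp [adj]
  ring

theorem adj_adj (M : Mat) : adj (adj M) = M := by
  ext i j
  fin_cases i <;> fin_cases j <;> simp [adj]

/-- the adjugate as an equivalence -/
def adjE (m : ℕ) : DetM m ≃ DetM m where
  toFun g := ⟨adj g.1, by rw [det_adj]; exact g.2⟩
  invFun g := ⟨adj g.1, by rw [det_adj]; exact g.2⟩
  left_inv g := Subtype.ext (adj_adj g.1)
  right_inv g := Subtype.ext (adj_adj g.1)

theorem bil_adj (M : Mat) (z y : ℂ) : bil (adj M) z 1 (-y) 1 = -(y * w2 M z + w1 M z) := by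
  simp only [bil, adj, w1, w2, Matrix.of_apply, Matrix.cons_val', Matrix.cons_val_zero,
    Matrix.cons_val_one, Matrix.cons_val_fin_one]
  push_cast
  ring

theorem act_mul2 (Q : LO.Frm) (A B : Mat) : act Q (A * B) = act (act Q A) B := by
  have e : ∀ i j, (A * B) i j = A i 0 * B 0 j + A i 1 * B 1 j := by
    intro i j
    rw [Matrix.mul_apply, Fin.sum_univ_two]
  ext i
  fin_cases i
  · simp [act, e]
    ring
  · simp [act, e]
    ring
  · simp [act, e]
    ring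

theorem qv_act' (N C : ℤ) (M : Mat) (z : ℂ) :
    qv (act ![0, N, C] M) z = w2 M z * (N * w1 M z + C * w2 M z) := by
  simp only [act, qv, w1, w2, Matrix.cons_val]
  push_cast
  ring

section main

variable (k N C m : ℕ) (z : ℂ)

/-- the second vector -/
noncomputable def pp (M : Mat) : ℂ := w1 M z + (C / N : ℂ) * w2 M z

theorem im_pp (M : Mat) : (pp N C z M * conj (w2 M z)).im = M.det * z.im := by
  rw [pp, add_mul, Complex.add_im, im_w, mul_assoc, Complex.mul_conj]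
  have : ((C : ℂ) / N) = ((C / N : ℝ) : ℂ) := by push_cast; rfl
  rw [this, ← Complex.ofReal_mul, Complex.ofReal_im, add_zero]

theorem lb2 (hz : 0 < z.im) (M : Mat) (hM : M.det = m) (hm : 1 ≤ m) :
    min z.im 1 ≤ ‖w2 M z‖ := by
  refine lin_lb z hz _ _ ?_
  rintro ⟨h1, h2⟩
  rw [det2, h1, h2] at hM
  simp at hM
  omega

theorem lb1 (hz : 0 < z.im) (hN : 1 ≤ N) (M : Mat) (hM : M.det = m) (hm : 1 ≤ m) :
    min z.im 1 ≤ ‖(N : ℂ) * pp N C z M‖ := by
  have hN0 : (N : ℂ) ≠ 0 := by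
    have : N ≠ 0 := by omega
    exact_mod_cast this
  have e : (N : ℂ) * pp N C z M = ((N * M 0 0 + C * M 1 0 : ℤ) : ℂ) * z +
      ((N * M 0 1 + C * M 1 1 : ℤ) : ℂ) := by
    rw [pp, w1, w2]
    push_cast
    field_simp
    ring
  rw [e]
  refine lin_lb z hz _ _ ?_
  rintro ⟨h1, h2⟩
  have h3 : (N : ℤ) * M.det = 0 := by
    rw [det2]
    linear_combination M 1 1 * h1 - M 1 0 * h2
  rw [hM] at h3
  rcases mul_eq_zero.1 h3 with h | h
  · have : N = 0 := by exact_mod_cast h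
    omega
  · have : m = 0 := by exact_mod_cast h
    omega

/-- convergence -/
theorem summ (hM : StMatS) (hk : 5 ≤ k) (hm : 1 ≤ m) (hN : 1 ≤ N) (hz : 0 < z.im) :
    Summable fun g : DetM m => (‖w2 g.1 z * pp N C z g.1‖ ^ k)⁻¹ := by
  have hN1 : (1 : ℝ) ≤ N := by exact_mod_cast hN
  have hN0 : (0 : ℝ) < N := by linarith
  set d : ℝ := min z.im 1 with hd
  have hd0 : 0 < d := lt_min hz one_pos
  have hdN : 0 < d / N := div_pos hd0 hN0
  obtain ⟨hne, h⟩ := hM k m z 1 (-(Complex.I + C / N)) 1 hk hm (by simpa using hz) (by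
    have : ((C : ℂ) / N) = ((C / N : ℝ) : ℂ) := by push_cast; rfl
    rw [this]
    simp)
  have e : ∀ g : DetM m, bil (adjE m g).1 z 1 (-(Complex.I + C / N)) 1 =
      -(Complex.I * w2 g.1 z + pp N C z g.1) := by
    intro g
    have := bil_adj g.1 z (Complex.I + C / N)
    rw [show (adjE m g).1 = adj g.1 from rfl, this, pp]
    ring
  have h' : Summable fun g : DetM m => (‖Complex.I * w2 g.1 z + pp N C z g.1‖ ^ k)⁻¹ := by
    refine ((adjE m).summable_iff.2 h).congr fun g => ?_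
    simp only [Function.comp_apply]
    rw [e, norm_inv, norm_pow, norm_neg]
  refine Summable.of_nonneg_of_le (fun g => by positivity) (fun g => ?_)
    (h'.mul_left ((2 / (d / N)) ^ k))
  have a1 : d ≤ ‖w2 g.1 z‖ := lb2 m z hz g.1 g.2 hm
  have a2 : d / N ≤ ‖pp N C z g.1‖ := by
    have := lb1 N C m z hz hN g.1 g.2 hm
    rw [norm_mul, Complex.norm_natCast] at this
    rw [div_le_iff₀ hN0]
    linarith
  have a1' : d / N ≤ ‖w2 g.1 z‖ := (div_le_self hd0.le hN1).trans a1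
  have hX : Complex.I * w2 g.1 z + pp N C z g.1 ≠ 0 := by
    intro h0
    refine hne (adjE m g) ?_
    rw [e, h0, neg_zero]
  have hX0 : 0 < ‖Complex.I * w2 g.1 z + pp N C z g.1‖ := norm_pos_iff.2 hX
  have a3 : ‖Complex.I * w2 g.1 z + pp N C z g.1‖ ≤ ‖w2 g.1 z‖ + ‖pp N C z g.1‖ := by
    refine (norm_add_le _ _).trans ?_
    rw [norm_mul, Complex.norm_I, one_mul]
  have b1 : 0 < ‖w2 g.1 z‖ := hdN.trans_le a1'
  have b2 : 0 < ‖pp N C z g.1‖ := hdN.trans_le a2
  have a4 : d / N * ‖Complex.I * w2 g.1 z + pp N C z g.1‖ ≤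
      2 * (‖w2 g.1 z‖ * ‖pp N C z g.1‖) := by
    have c1 : d / N * ‖w2 g.1 z‖ ≤ ‖pp N C z g.1‖ * ‖w2 g.1 z‖ :=
      mul_le_mul_of_nonneg_right a2 b1.le
    have c2 : d / N * ‖pp N C z g.1‖ ≤ ‖w2 g.1 z‖ * ‖pp N C z g.1‖ :=
      mul_le_mul_of_nonneg_right a1' b2.le
    have c3 := mul_le_mul_of_nonneg_left a3 hdN.le
    linarith
  rw [← inv_pow, ← inv_pow, ← mul_pow, norm_mul]
  refine pow_le_pow_left₀ (by positivity) ?_ k
  rw [inv_le_iff_one_le_mul₀ (mul_pos b1 b2)]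
  have : 2 / (d / N) * ‖Complex.I * w2 g.1 z + pp N C z g.1‖⁻¹ * (‖w2 g.1 z‖ * ‖pp N C z g.1‖) =
      (2 * (‖w2 g.1 z‖ * ‖pp N C z g.1‖)) /
        (d / N * ‖Complex.I * w2 g.1 z + pp N C z g.1‖) := by
    field_simp
  rw [this, one_le_div (mul_pos hdN hX0)]
  exact a4

/-- the integral of one sum -/
theorem key (hB : StBt) (hM : StMatS) (hk : 5 ≤ k) (hm : 1 ≤ m) (hN : 1 ≤ N) (hz : 0 < z.im) :
    IntegrableOn (fun t : ℝ => (∑' g : DetM m,
      ((bil g.1 z 1 (-(Complex.I * t + C / N)) 1) ^ (2 * k))⁻¹) * (t : ℂ) ^ (k - 1)) (Ioi 0) ∧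
    ∫ t in Ioi (0 : ℝ), (∑' g : DetM m,
      ((bil g.1 z 1 (-(Complex.I * t + C / N)) 1) ^ (2 * k))⁻¹) * (t : ℂ) ^ (k - 1) =
      ∑' g : DetM m, Bk k * ((Complex.I * w2 g.1 z * pp N C z g.1) ^ k)⁻¹ := by
  have hm0 : (0 : ℝ) < m := by exact_mod_cast hm
  have hpos : ∀ g : DetM m, 0 < (pp N C z g.1 * conj (w2 g.1 z)).im := by
    intro g
    rw [im_pp, g.2]
    push_cast
    positivity
  have hbt := fun g : DetM m => hB k (w2 g.1 z) (pp N C z g.1) (by omega) (hpos g)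
  have e : ∀ t : ℝ, (∑' g : DetM m,
      ((bil g.1 z 1 (-(Complex.I * t + C / N)) 1) ^ (2 * k))⁻¹) * (t : ℂ) ^ (k - 1) =
      ∑' g : DetM m, ((Complex.I * t * w2 g.1 z + pp N C z g.1) ^ (2 * k))⁻¹ *
        (t : ℂ) ^ (k - 1) := by
    intro t
    rw [tsum_mul_right, ← (adjE m).tsum_eq (fun g : DetM m =>
      ((bil g.1 z 1 (-(Complex.I * t + C / N)) 1) ^ (2 * k))⁻¹)]
    congr 1
    refine tsum_congr fun g => ?_
    have := bil_adj g.1 z (Complex.I * t + C / N)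
    rw [show (adjE m g).1 = adj g.1 from rfl, this, pp, Even.neg_pow (even_two_mul k)]
    congr 2
    ring
  have hint : ∀ g : DetM m, Integrable (fun t : ℝ =>
      ((Complex.I * t * w2 g.1 z + pp N C z g.1) ^ (2 * k))⁻¹ * (t : ℂ) ^ (k - 1))
      (volume.restrict (Ioi 0)) := fun g => (hbt g).1
  have hsum : Summable fun g : DetM m => ∫ t in Ioi (0 : ℝ),
      ‖((Complex.I * t * w2 g.1 z + pp N C z g.1) ^ (2 * k))⁻¹ * (t : ℂ) ^ (k - 1)‖ := by
    refine Summable.of_nonneg_of_le (fun g => ?_) (fun g => (hbt g).2.2)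
      ((summ k N C m z hM hk hm hN hz).mul_left (2 ^ k * Bk k))
    exact integral_nonneg fun t => norm_nonneg _
  have : Countable (DetM m) := by
    have : Countable (Matrix (Fin 2) (Fin 2) ℤ) := inferInstanceAs (Countable (Fin 2 → Fin 2 → ℤ))
    infer_instance
  constructor
  · have := integrable_tsum hint hsum
    unfold IntegrableOn
    refine this.congr ?_
    exact Filter.Eventually.of_forall fun t => (e t).symm
  · calc ∫ t in Ioi (0 : ℝ), (∑' g : DetM m,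
          ((bil g.1 z 1 (-(Complex.I * t + C / N)) 1) ^ (2 * k))⁻¹) * (t : ℂ) ^ (k - 1)
        = ∫ t in Ioi (0 : ℝ), ∑' g : DetM m,
          ((Complex.I * t * w2 g.1 z + pp N C z g.1) ^ (2 * k))⁻¹ * (t : ℂ) ^ (k - 1) :=
          integral_congr_ae (Filter.Eventually.of_forall fun t => e t)
      _ = ∑' g : DetM m, ∫ t in Ioi (0 : ℝ),
          ((Complex.I * t * w2 g.1 z + pp N C z g.1) ^ (2 * k))⁻¹ * (t : ℂ) ^ (k - 1) :=
          (hasSum_integral_of_summable_integral_norm hint hsum).tsum_eq.symm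
      _ = _ := tsum_congr fun g => (hbt g).2.1

/-- the sum over the cosets -/
theorem split (hC : StCos) (hm : 1 ≤ m) (G : Mat → ℂ) (hs : Summable fun g : DetM m => ‖G g.1‖) :
    ∑' g : DetM m, G g.1 = ∑ p ∈ UP m, ∑' g : SL(2, ℤ), G (sm g * um m p) := by
  obtain ⟨e, he⟩ := hC m hm
  rw [← e.tsum_eq (fun g : DetM m => G g.1)]
  have h1 : Summable fun q : UP m × SL(2, ℤ) => G (e q).1 := e.summable_iff.2 hs.of_norm
  rw [h1.tsum_prod, tsum_fintype, ← Finset.sum_coe_sort (UP m)]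
  refine Finset.sum_congr rfl fun p _ => ?_
  refine tsum_congr fun g => ?_
  rw [he]

/-- the sum in terms of forms -/
theorem forms (hM : StMatS) (hC : StCos) (hk : 5 ≤ k) (hm : 1 ≤ m) (hN : 1 ≤ N) (hz : 0 < z.im) :
    ∑' g : DetM m, (Bk k : ℂ) * ((Complex.I * w2 g.1 z * pp N C z g.1) ^ k)⁻¹ =
      Bk k * (Complex.I ^ k)⁻¹ * (N : ℂ) ^ k * ∑ p ∈ UP m,
        ∑' g : SL(2, ℤ), ((qv (act (act ![0, (N : ℤ), (C : ℤ)] (sm g)) (um m p)) z) ^ k)⁻¹ := by
  have hN0 : (N : ℂ) ≠ 0 := by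
    have : N ≠ 0 := by omega
    exact_mod_cast this
  have e : ∀ M : Mat, qv (act ![0, (N : ℤ), (C : ℤ)] M) z = N * (w2 M z * pp N C z M) := by
    intro M
    rw [qv_act', pp]
    push_cast
    field_simp
  have hs : Summable fun g : DetM m =>
      ‖((fun M : Mat => ((qv (act ![0, (N : ℤ), (C : ℤ)] M) z) ^ k)⁻¹) g.1)‖ := by
    refine ((summ k N C m z hM hk hm hN hz).mul_left (((N : ℝ) ^ k)⁻¹)).congr fun g => ?_
    simp only
    rw [e, norm_inv, norm_pow, norm_mul (N : ℂ), mul_pow, mul_inv, Complex.norm_natCast]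
  have h := split m hC hm (fun M : Mat => ((qv (act ![0, (N : ℤ), (C : ℤ)] M) z) ^ k)⁻¹) hs
  simp only [act_mul2] at h
  rw [← h, ← tsum_mul_left]
  refine tsum_congr fun g => ?_
  rw [e, mul_assoc Complex.I, mul_pow Complex.I, mul_pow (N : ℂ), mul_inv, mul_inv]
  have hNk : (N : ℂ) ^ k ≠ 0 := pow_ne_zero _ hN0
  calc (Bk k : ℂ) * ((Complex.I ^ k)⁻¹ * ((w2 g.1 z * pp N C z g.1) ^ k)⁻¹)
      = Bk k * (Complex.I ^ k)⁻¹ * ((N : ℂ) ^ k * ((N : ℂ) ^ k)⁻¹) *
          ((w2 g.1 z * pp N C z g.1) ^ k)⁻¹ := by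
        rw [mul_inv_cancel₀ hNk]
        ring
    _ = _ := by ring

end main

end VerAux

open VerAux in
/-- The kernel identity integrated along vertical lines. -/
theorem stVer (h1 : StBt) (h2 : StCos) (h3 : StMatS) : StVer := by
  intro k w N C f β z hw hk hkE hβ hK hN hz
  subst hw
  have e1 : ∀ t ∈ Ioi (0 : ℝ), β.sum (fun m b => b * ∑' g : DetM m,
      ((bil g.1 z 1 (-(Complex.I * t + C / N)) 1) ^ (2 * k))⁻¹) * (t : ℂ) ^ (k - 1) =
      2 * Cw (2 * k) * f (ofComplex z) *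
        (f (ofComplex (Complex.I * t + C / N)) * (t : ℂ) ^ (k - 1)) := by
    intro t ht
    have ht0 : 0 < t := ht
    have hc : ((C : ℂ) / N) = ((C / N : ℝ) : ℂ) := by push_cast; rfl
    have := hK z 1 (-(Complex.I * t + C / N)) 1 (by simpa using hz) (by
      rw [hc]
      simpa using ht0)
    rw [this, lf, lf]
    simp only [one_pow, inv_one, one_mul, div_one, neg_neg]
    ring
  have e2 : ∫ t in Ioi (0 : ℝ), β.sum (fun m b => b * ∑' g : DetM m,
      ((bil g.1 z 1 (-(Complex.I * t + C / N)) 1) ^ (2 * k))⁻¹) * (t : ℂ) ^ (k - 1) =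
      2 * Cw (2 * k) * f (ofComplex z) * Vt f k N C := by
    rw [setIntegral_congr_fun measurableSet_Ioi e1, integral_const_mul]
    rfl
  rw [← e2]
  have hpos : ∀ m ∈ β.support, 1 ≤ m := by
    intro m hm
    rcases Nat.eq_zero_or_pos m with h | h
    · subst h
      exact absurd hβ (Finsupp.mem_support_iff.1 hm)
    · exact h
  simp only [Finsupp.sum]
  have e3 : ∀ t : ℝ, (∑ m ∈ β.support, β m * ∑' g : DetM m,
      ((bil g.1 z 1 (-(Complex.I * t + C / N)) 1) ^ (2 * k))⁻¹) * (t : ℂ) ^ (k - 1) =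
      ∑ m ∈ β.support, β m * ((∑' g : DetM m,
      ((bil g.1 z 1 (-(Complex.I * t + C / N)) 1) ^ (2 * k))⁻¹) * (t : ℂ) ^ (k - 1)) := by
    intro t
    rw [Finset.sum_mul]
    exact Finset.sum_congr rfl fun m _ => mul_assoc _ _ _
  simp only [e3]
  rw [integral_finsetSum _ fun m hm =>
    ((key k N C m z h1 h3 (by omega) (hpos m hm) hN hz).1).const_mul _, Finset.mul_sum]
  refine Finset.sum_congr rfl fun m hm => ?_
  rw [integral_const_mul, (key k N C m z h1 h3 (by omega) (hpos m hm) hN hz).2,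
    forms k N C m z h3 h2 (by omega) (hpos m hm) hN hz]
  ring

end LC

end Pool.Agent.Lib.MP_7c5fb9_nt
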