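import Pool.Agent.Lib.MP_7c08ba_nt.RZ.All
import Pool.Agent.Lib.MP_7c5fb9_nt.LO.Gauss
import Pool.Agent.Lib.MP_7c5fb9_nt.LO.Discr
import Pool.Agent.Lib.MP_7c5fb9_nt.LC.Th
import Pool.Agent.Lib.MP_7c5fb9_nt.LC.Gs
import Pool.Agent.Lib.MP_7c5fb9_nt.LC.Ind
import Pool.Agent.Lib.MP_7c5fb9_nt.LC.Um
import Pool.Agent.Lib.MP_7c5fb9_nt.LC.PtS
import Pool.Agent.Lib.MP_7c5fb9_nt.LC.PInv
import Pool.Agent.Lib.MP_7c5fb9_nt.LC.Rep
import Pool.Agent.Lib.MP_7c5fb9_nt.LC.UnfD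
import Pool.Agent.Lib.MP_7c5fb9_nt.LC.Gram
import Pool.Agent.Lib.MP_7c5fb9_nt.LC.Hil
import Pool.Agent.Lib.MP_7c5fb9_nt.LC.Han
import Pool.Agent.Lib.MP_7c5fb9_nt.LC.ExS
import Pool.Agent.Lib.MP_7c5fb9_nt.LC.KSm
import Pool.Agent.Lib.MP_7c5fb9_nt.LC.PF
import Pool.Agent.Lib.MP_7c5fb9_nt.LC.Cm
import Pool.Agent.Lib.MP_7c5fb9_nt.LC.HC
import Pool.Agent.Lib.MP_7c5fb9_nt.LC.Lip
import Pool.Agent.Lib.MP_7c5fb9_nt.LC.HF
import Pool.Agent.Lib.MP_7c5fb9_nt.LC.HE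
import Pool.Agent.Lib.MP_7c5fb9_nt.LC.Rec
import Pool.Agent.Lib.MP_7c5fb9_nt.LC.TrA
import Pool.Agent.Lib.MP_7c5fb9_nt.LC.TrB
import Pool.Agent.Lib.MP_7c5fb9_nt.LC.Bt
import Pool.Agent.Lib.MP_7c5fb9_nt.LC.Cos
import Pool.Agent.Lib.MP_7c5fb9_nt.LC.Stab
import Pool.Agent.Lib.MP_7c5fb9_nt.LC.Geo
import Pool.Agent.Lib.MP_7c5fb9_nt.LC.Ver
import Pool.Agent.Lib.MP_7c5fb9_nt.LC.Dec
import Pool.Agent.Lib.MP_7c5fb9_nt.LC.Chi
import Pool.Agent.Lib.MP_7c5fb9_nt.LC.Lx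
import Pool.Agent.Lib.MP_7c5fb9_nt.LC.NaA
import Pool.Agent.Lib.MP_7c5fb9_nt.LC.NaB
import Pool.Agent.Lib.MP_7c5fb9_nt.LC.Nar
import Pool.Agent.Lib.MP_7c5fb9_nt.LC.Moe
import Pool.Agent.Lib.MP_7c5fb9_nt.LC.Pr
import Pool.Agent.Lib.MP_7c5fb9_nt.LC.GSx
import Pool.Agent.Lib.MP_7c5fb9_nt.LC.Fin
import Pool.Agent.Lib.MP_7c5fb9_nt.LC.Fin1

set_option autoImplicit false

/-!
# Project LC (MP_7c5fb9_nt): all modules together
-/

namespace Pool.Agent.Lib.MP_7c5fb9_nt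

namespace LC

open Pool.Agent.Lib.MP_7c08ba_nt.RZ

theorem lTh : StTh := stTh stGs

theorem lUm : StUm := stUm lTh stGs stInd

theorem lPtS : StPtS := stPtS lUm aPoiS

theorem lPInv : StPInv := stPInv lUm lPtS aPoiS

theorem lUnfD : StUnfD := stUnfD aUnf

theorem lGram : StGram := stGram lPInv lPtS lUm lUnfD aStrip aPoiS

theorem lHil : StHil := stHil lGram lPtS stRep

theorem lKS : StKS := stKS stExS

theorem lPF : StPF := stPF stGs lUm lPtS lPInv stHan aPoiS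

theorem lCm : StCm := stCm lPF lKS

theorem lHF : StHF := stHF stLip stHC

theorem lHE : StHE := stHE lHF stHC

theorem lDec : StDec := stDec aCoef

theorem lChi : StChi := stChi lDec aCoef

theorem lLx : StLx := stLx lDec aCoef

theorem lTrA : StTrA := stTrA stRec

theorem lGeo : StGeo := stGeo stBt stCos stStab

theorem lVer : StVer := stVer stBt stCos aMatS

theorem lNar : StNar := stNar stNaA stNaB

theorem lPr : StPr := stPr lHil lCm lHE

theorem lPrG : StPrG := stPrG lHil lCm lHE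

theorem lGSx : StGSx := stGSx LO.stGauss

/-- If the toric period of an eigenform of level one and weight `2k`, `k` even, over the real
quadratic field of discriminant `D = 1` modulo `4` does not vanish, then neither does the central
value of the `L`-function of the form twisted by the quadratic character modulo `D`. -/
theorem lFin : StFin :=
  stFin lPr lGSx stRep lTrA stTrB lGeo lVer lChi lLx lNar stHC aSpan aKer aW12 LO.stDiscr

/-- The same for the central value of the `L`-function of the form itself. -/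
theorem lFin1 : StFin1 :=
  stFin1 lPrG stTrB lGeo lVer lChi lLx lNar stHC aSpan aKer aW12 LO.stDiscr

end LC

end Pool.Agent.Lib.MP_7c5fb9_nt
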