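import Mathlib
import Pool.Agent.Lib.MP_7c5fb9_nt.LO.Defs

set_option autoImplicit false

/-!
Level one, weight `2k`, `k` even (project LC): toric periods over real quadratic fields of
discriminant `D = 1` modulo `4` and central values of twisted `L`-functions. Definitions.
-/

namespace Pool.Agent.Lib.MP_7c5fb9_nt

namespace LC

open MeasureTheory UpperHalfPlane Set Pool.Agent.Lib.MP_7c08ba_nt.RZ
open LO (Mat disc act mir qv mb)
open scoped MatrixGroups ComplexConjugate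

/-! ### the theta multiplier -/

/-- The factor of automorphy. -/
noncomputable def jf (M : Mat) (z : ℂ) : ℂ := (M 1 0 : ℂ) * z + M 1 1

/-- The two theta functions. -/
noncomputable def tht (ν : Fin 2) (τ z : ℂ) : ℂ :=
  ∑' r : ℤ, ee ((2 * (r : ℂ) + (ν : ℕ)) ^ 2 * τ / 4 + (2 * (r : ℂ) + (ν : ℕ)) * z)

/-- Gauss sums. -/
noncomputable def gs (a c d ν μ : ℤ) : ℂ :=
  ∑ j ∈ Finset.range c.natAbs,
    ee (((a * (2 * j + ν) ^ 2 + 2 * μ * (2 * j + ν) + d * μ ^ 2 : ℤ) : ℂ) / (4 * c))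

/-- The square root of `- i w / 2`. -/
noncomputable def rt (w : ℂ) : ℂ := (-Complex.I * w / 2) ^ (1 / 2 : ℂ)

/-- The theta multiplier (`M` of determinant one). -/
noncomputable def Um (M : Mat) (τ : ℂ) : Matrix (Fin 2) (Fin 2) ℂ := fun ν μ =>
  if 0 < M 1 0 then
    rt (τ + M 1 1 / M 1 0) * gs (M 0 0) (M 1 0) (M 1 1) ((ν : ℕ) : ℤ) ((μ : ℕ) : ℤ)
  else if M 1 0 < 0 then
    rt (τ + M 1 1 / M 1 0) * gs (-M 0 0) (-M 1 0) (-M 1 1) ((ν : ℕ) : ℤ) ((μ : ℕ) : ℤ)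
  else if ν = μ then ee ((M 0 1 : ℂ) * M 1 1 * ((ν : ℕ) : ℂ) ^ 2 / 4) else 0

/-! ### Poincaré series on `Γ₀(D)` -/

/-- Squarefree numbers congruent to `1` modulo `4`. -/
structure Ok (D : ℕ) : Prop where
  sf : Squarefree D
  mod : D % 4 = 1

/-- Discriminants. -/
def Adm (m : ℕ) : Prop := m % 4 = 0 ∨ m % 4 = 1

/-- The parity. -/
def pr (m : ℕ) : Fin 2 := if m % 2 = 0 then 0 else 1

/-- Pairs of coprime integers, the first one divisible by `D`. -/
abbrev CopD (D : ℕ) : Type := {v : Cop // (D : ℤ) ∣ v.1.1}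

/-- The matrix with bottom row `v`. -/
def vm (v : ℤ × ℤ) : Mat := !![Int.gcdB v.1 v.2, -Int.gcdA v.1 v.2; v.1, v.2]

/-- The matrix conjugated by the diagonal matrix `(D, 1)`. -/
def cj (D : ℕ) (M : Mat) : Mat := !![M 0 0, D * M 0 1; M 1 0 / D, M 1 1]

/-- The terms of the Poincaré series, as functions of the matrix. -/
noncomputable def pM (D k m : ℕ) (A : Mat) (τ : ℂ) (μ : Fin 2) : ℂ :=
  (jacobiSym (A 1 1) D : ℂ) * ((jf A τ) ^ k)⁻¹ * ((‖jf A τ‖ : ℝ) : ℂ)⁻¹ *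
    conj (Um (cj D A) (D * τ) (pr m) μ) * ee (m * mb A τ / 4)

/-- The Poincaré series. -/
noncomputable def PP (D k m : ℕ) (τ : ℂ) (μ : Fin 2) : ℂ :=
  (1 / 2) * ∑' v : CopD D, pM D k m (vm v.1.1) τ μ

/-- The matrices `R i` represent the classes `Γ₀(D) g`. -/
structure IsRep (D : ℕ) {ι : Type} (R : ι → SL(2, ℤ)) : Prop where
  ex : ∀ g : SL(2, ℤ), ∃! i, (D : ℤ) ∣ (g * (R i)⁻¹) 1 0

/-- The scalar product of two Poincaré series at a point. -/
noncomputable def GG (D k m m' : ℕ) (τ : ℂ) : ℂ :=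
  (∑ μ, PP D k m τ μ * conj (PP D k m' τ μ)) * ((τ.im ^ ((k : ℝ) + 1 / 2) : ℝ) : ℂ)

/-- The scalar product of two Poincaré series as an integral over the strip. -/
noncomputable def PI (D k m m' : ℕ) : ℂ :=
  ∫ y in Ioi (0 : ℝ), (∫ x in (0 : ℝ)..1, PP D k m (x + y * Complex.I) (pr m') *
    conj (ee (m' * (x + y * Complex.I) / 4))) * ((y ^ ((k : ℝ) - 3 / 2) : ℝ) : ℂ)

/-! ### explicit coefficients -/

/-- The value of the Gauss sum of the character modulo `D`. -/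
structure GS (D : ℕ) (G : ℂ) : Prop where
  sq : G ^ 2 = D
  eq : ∀ n : ℤ, ∑ a ∈ Finset.range D, (jacobiSym a D : ℂ) * ee ((a : ℂ) * n / D) =
    jacobiSym n D * G

/-- The entire function. -/
noncomputable def Phk (k : ℕ) (X : ℝ) : ℝ :=
  ∑' i : ℕ, (-(4 * Real.pi ^ 2 * X)) ^ i / (i.factorial * Real.Gamma (k + 1 / 2 + i))

/-- The value of the integral over a horizontal line. -/
noncomputable def Hk (k : ℕ) (A B : ℝ) : ℝ :=
  (2 * Real.pi) ^ ((k : ℝ) + 1 / 2) * B ^ ((k : ℝ) - 1 / 2) * Phk k (A * B)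

/-- Integers with the parity of `m`. -/
def jj (m : ℕ) (j : ℤ) : ℤ := 2 * j + (m % 2 : ℕ)

/-- `(m - D j^2) / 4`. -/
def tj (D m : ℕ) (j : ℤ) : ℤ := (m - D * jj m j ^ 2) / 4

/-- The sums over the residues modulo `g`. -/
noncomputable def AA (D g n m : ℕ) : ℂ :=
  ∑ j ∈ Finset.range g, if (g : ℤ) ∣ tj D m j then
    (jacobiSym (tj D m j / g) D : ℂ) * ee (-((n : ℂ) * (jj m j : ℤ)) / (2 * g)) else 0

/-- The exponential sums. -/
noncomputable def KS (D c n m : ℕ) : ℂ :=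
  ∑ a ∈ Finset.range (D * c), if Nat.Coprime a (D * c) then
    (jacobiSym a D : ℂ) * ∑ j ∈ Finset.range c, ee (-((n : ℂ) * (jj m j : ℤ)) / (2 * c)) *
      ee ((a : ℂ) * (tj D m j : ℤ) / (D * c)) else 0

/-- The main part of the coefficients. -/
noncomputable def bn (D k m n : ℕ) : ℂ :=
  (n : ℂ) ^ (2 * k - 1) * ∑' g : ℕ, (((g : ℂ) + 1) ^ k)⁻¹ * AA D (g + 1) n m *
    (Phk k (m * n ^ 2 / (16 * D * (g + 1) ^ 2)) : ℝ)

/-- The diagonal part. -/
noncomputable def dl (D m n : ℕ) : ℂ := if m = D * n ^ 2 then 1 else 0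

/-- The first constant. -/
noncomputable def c1 (D k : ℕ) : ℂ :=
  4 * Real.pi ^ (2 * k) * Real.sqrt Real.pi / (D ^ k * (k - 1).factorial)

/-- The second constant. -/
noncomputable def c2 (D k : ℕ) (G : ℂ) : ℂ :=
  (-1) ^ (k / 2) * G / D * 2 * (Real.pi / 2) ^ k * Real.sqrt Real.pi

/-- The third constant. -/
noncomputable def c3 (D k : ℕ) (G : ℂ) : ℂ :=
  2 * (-1) ^ (k / 2) * (2 * Real.pi) ^ k * G / (D ^ k * (k - 1).factorial)

/-- The coefficient of index `D n^2` of the Poincaré series of index `m`. -/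
noncomputable def cm (D k m : ℕ) (G : ℂ) (n : ℕ) : ℂ :=
  dl D m n + c2 D k G * ∑ h ∈ n.divisors, (ArithmeticFunction.moebius h : ℂ) *
    (jacobiSym h D : ℂ) * (h : ℂ) ^ (k - 1) * bn D k m (n / h)

/-- The `n`-th coefficient of the form of weight `2k` attached to `m`. -/
noncomputable def an (D k m : ℕ) (G : ℂ) (n : ℕ) : ℂ :=
  c3 D k G * ∑ h ∈ n.divisors, (jacobiSym h D : ℂ) * (h : ℂ) ^ (k - 1) * dl D m (n / h) +
    c1 D k * bn D k m n

/-! ### the forms of weight `2k` -/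

/-- The weights of the binary forms. -/
noncomputable def WD (D m : ℕ) (Q : LO.Frm) : ℂ :=
  if disc Q = D * m ∧ (D : ℤ) ∣ Q 0 ∧ (D : ℤ) ∣ Q 1 then (jacobiSym (Q 2) D : ℂ) else 0

/-- The form of weight `2k` attached to `m`. -/
noncomputable def hm (D k m : ℕ) (z : ℂ) : ℂ := ∑' Q : LO.Frm, WD D m Q * ((qv Q z) ^ k)⁻¹

/-- The forms with the discriminant `Δ`. -/
abbrev DQ (Δ : ℤ) : Type := {Q : LO.Frm // disc Q = Δ}

/-! ### Hecke operators and periods -/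

/-- Pairs `(d, b)`, `d` a divisor of `m`, `b` a residue modulo `d`. -/
def UP (m : ℕ) : Finset (ℕ × ℕ) := (m.divisors ×ˢ Finset.range m).filter fun p => p.2 < p.1

/-- The triangular matrices of determinant `m`. -/
def um (m : ℕ) (p : ℕ × ℕ) : Mat := !![(m / p.1 : ℕ), p.2; 0, p.1]

/-- The matrix of an element of `SL(2, ℤ)`. -/
def sm (g : SL(2, ℤ)) : Mat := (g : Matrix (Fin 2) (Fin 2) ℤ)

/-- The functional attached to a form (a combination of Poincaré series), followed by the trace. -/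
noncomputable def Lam (k : ℕ) {ι : Type} [Fintype ι] (R : ι → SL(2, ℤ)) (β : ℕ →₀ ℂ) (z₀ : ℂ)
    (h : ℂ → ℂ) : ℂ :=
  β.sum fun m b => b * ∑ p ∈ UP m, ∑ i, ((jf (sm (R i) * um m p) z₀) ^ (2 * k))⁻¹ *
    h (mb (sm (R i) * um m p) z₀)

/-- The class of a form. -/
def Orb (Q : LO.Frm) : Set LO.Frm := {Q' | ∃ g : SL(2, ℤ), Q' = act Q (sm g)}

/-- `B(k, k)`. -/
noncomputable def Bk (k : ℕ) : ℝ := ((k - 1).factorial : ℝ) ^ 2 / (2 * k - 1).factorial

section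

variable {w : ℕ}

/-- The integral along the vertical line with real part `C / N`. -/
noncomputable def Vt (f : CuspForm 𝒮ℒ (w : ℤ)) (k N C : ℕ) : ℂ :=
  ∫ t in Ioi (0 : ℝ), f (ofComplex (Complex.I * t + C / N)) * (t : ℂ) ^ (k - 1)

/-- The twisted sum of the integrals along vertical lines. -/
noncomputable def Lx (f : CuspForm 𝒮ℒ (w : ℤ)) (k D : ℕ) : ℂ :=
  ∑ a ∈ Finset.range D, (jacobiSym a D : ℂ) * Vt f k D a

end

end LC

end Pool.Agent.Lib.MP_7c5fb9_nt
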