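import Mathlib
import Pool.Agent.Lib.MP_7c5fb9_nt.LC.St

set_option autoImplicit false

/-!
# Project LC, module HE: Fourier expansion of the forms of weight `2k` on the whole upper half
plane, by the identity theorem
-/

namespace Pool.Agent.Lib.MP_7c5fb9_nt

namespace LC

open Set Filter Pool.Agent.Lib.MP_7c08ba_nt.RZ
open LO (Mat disc act mir qv mb)
open scoped Topology

namespace HEAux

theorem norm_ee (n : ℕ) (z : ℂ) :
    ‖ee (((n + 1 : ℕ) : ℂ) * z)‖ = Real.exp (-(2 * Real.pi * z.im) * ((n + 1 : ℕ) : ℝ)) := by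
  unfold ee
  rw [Complex.norm_exp]
  congr 1
  simp [Complex.mul_re, Complex.mul_im]
  ring

theorem norm_WD_le (D m : ℕ) (Q : LO.Frm) : ‖WD D m Q‖ ≤ 1 := by
  unfold WD
  split_ifs with h
  · rcases jacobiSym.trichotomy (Q 2) D with h | h | h <;> simp [h]
  · simp

section

variable {a : ℕ → ℂ} {C : ℝ} {A : ℕ} (ha : ∀ n : ℕ, 1 ≤ n → ‖a n‖ ≤ C * (n : ℝ) ^ A)

include ha

theorem C_nonneg : 0 ≤ C := by
  have h := ha 1 le_rfl
  have h2 := norm_nonneg (a 1)
  simp only [Nat.cast_one, one_pow, mul_one] at h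
  linarith

theorem term_le {δ : ℝ} {z : ℂ} (hz : δ ≤ z.im) (n : ℕ) :
    ‖a (n + 1) * ee (((n + 1 : ℕ) : ℂ) * z)‖ ≤
      C * (((n + 1 : ℕ) : ℝ) ^ A * Real.exp (-(2 * Real.pi * δ) * ((n + 1 : ℕ) : ℝ))) := by
  rw [norm_mul, norm_ee, ← mul_assoc]
  have h1 := ha (n + 1) (by omega)
  have h0 := C_nonneg ha
  have h2 : -(2 * Real.pi * z.im) * ((n + 1 : ℕ) : ℝ) ≤
      -(2 * Real.pi * δ) * ((n + 1 : ℕ) : ℝ) := by
    have h3 : 2 * Real.pi * δ ≤ 2 * Real.pi * z.im :=
      mul_le_mul_of_nonneg_left hz (by positivity)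
    have h4 : (0 : ℝ) ≤ ((n + 1 : ℕ) : ℝ) := Nat.cast_nonneg _
    nlinarith
  exact mul_le_mul h1 (Real.exp_le_exp.2 h2) (Real.exp_pos _).le (by positivity)

omit ha in
theorem summable_bd {δ : ℝ} (hδ : 0 < δ) :
    Summable fun n : ℕ =>
      C * (((n + 1 : ℕ) : ℝ) ^ A * Real.exp (-(2 * Real.pi * δ) * ((n + 1 : ℕ) : ℝ))) := by
  apply Summable.mul_left
  exact (summable_nat_add_iff 1).2
    (Real.summable_pow_mul_exp_neg_nat_mul A (r := 2 * Real.pi * δ) (by positivity))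

theorem summable_at {z : ℂ} (hz : 0 < z.im) :
    Summable fun n : ℕ => a (n + 1) * ee (((n + 1 : ℕ) : ℂ) * z) :=
  Summable.of_norm_bounded (summable_bd hz) (term_le ha le_rfl)

theorem diff : DifferentiableOn ℂ
    (fun z => ∑' n : ℕ, a (n + 1) * ee (((n + 1 : ℕ) : ℂ) * z)) {z | 0 < z.im} := by
  intro z hz
  have hz' : 0 < z.im := hz
  have hopen : IsOpen {w : ℂ | z.im / 2 < w.im} := isOpen_lt continuous_const Complex.continuous_im
  have h1 : DifferentiableOn ℂ
      (fun z => ∑' n : ℕ, a (n + 1) * ee (((n + 1 : ℕ) : ℂ) * z)) {w | z.im / 2 < w.im} := by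
    refine Complex.differentiableOn_tsum_of_summable_norm
      (u := fun n : ℕ => C * (((n + 1 : ℕ) : ℝ) ^ A *
        Real.exp (-(2 * Real.pi * (z.im / 2)) * ((n + 1 : ℕ) : ℝ))))
      (summable_bd (half_pos hz')) (fun n => ?_) hopen
      (fun n w hw => term_le ha (le_of_lt hw) n)
    unfold ee
    fun_prop
  exact (h1.differentiableAt (hopen.mem_nhds (show z.im / 2 < z.im by linarith))).differentiableWithinAt

end

end HEAux

/-- (HE) Fourier expansion of the forms of weight `2k` -/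
theorem stHE (h1 : StHF) (h2 : StHC) : StHE := by
  intro D k m G z hD hG hk hk2 hAdm hm1 hA hz
  obtain ⟨C, A, ha⟩ := hA
  have hD0 : 0 < D := Nat.pos_of_ne_zero fun h => by
    have := hD.mod
    rw [h] at this
    norm_num at this
  have hopen : IsOpen {w : ℂ | 0 < w.im} := isOpen_lt continuous_const Complex.continuous_im
  have hconv : IsPreconnected {w : ℂ | 0 < w.im} := (convex_halfSpace_im_gt 0).isPreconnected
  have d1 : DifferentiableOn ℂ (fun z => hm D k m z) {w | 0 < w.im} := by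
    refine h2.2.2 (D * m : ℕ) k (WD D m) (by exact_mod_cast Nat.mul_pos hD0 hm1) (by omega)
      (HEAux.norm_WD_le D m) (fun Q hQ => ?_)
    unfold WD
    rw [if_neg]
    rintro ⟨h3, -⟩
    exact hQ (by rw [h3]; push_cast; ring)
  have d2 := HEAux.diff ha
  have hz0 : ((m : ℂ) + 1) * Complex.I ∈ {w : ℂ | 0 < w.im} := by
    simp only [mem_ofPred_eq, Complex.mul_im, Complex.I_im, Complex.I_re, mul_zero, mul_one]
    simp
    positivity
  have hev : (fun z => ∑' n : ℕ, an D k m G (n + 1) * ee (((n + 1 : ℕ) : ℂ) * z))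
      =ᶠ[𝓝 (((m : ℂ) + 1) * Complex.I)] fun z => hm D k m z := by
    have hopen2 : IsOpen {w : ℂ | (m : ℝ) < w.im} :=
      isOpen_lt continuous_const Complex.continuous_im
    refine Filter.eventuallyEq_of_mem (hopen2.mem_nhds ?_) fun w hw => ?_
    · simp
    · exact (h1 D k m G w hD hG hk hk2 hAdm hm1 hw).tsum_eq
  have h3 := AnalyticOnNhd.eqOn_of_preconnected_of_eventuallyEq (d2.analyticOnNhd hopen)
    (d1.analyticOnNhd hopen) hconv hz0 hev hz
  have h4 := (HEAux.summable_at ha hz).hasSum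
  simp only at h3
  rw [h3] at h4
  exact h4

end LC

end Pool.Agent.Lib.MP_7c5fb9_nt
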