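import Mathlib
import Pool.Agent.Lib.MP_7c5fb9_nt.LC.St

set_option autoImplicit false

/-! (Lx) The twisted `L`-function. -/

namespace Pool.Agent.Lib.MP_7c5fb9_nt

namespace LC

open MeasureTheory UpperHalfPlane Set Filter Asymptotics Pool.Agent.Lib.MP_7c08ba_nt.RZ
open scoped MatrixGroups ComplexConjugate Topology

namespace LxAux

variable {w : ℕ}

/-- The function along a vertical line. -/
noncomputable def gl (f : CuspForm 𝒮ℒ (w : ℤ)) (D a : ℕ) (t : ℝ) : ℂ :=
  f (ofComplex (Complex.I * t + a / D))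

/-- The twisted sum. -/
noncomputable def Fl (f : CuspForm 𝒮ℒ (w : ℤ)) (D : ℕ) (t : ℝ) : ℂ :=
  ∑ a ∈ Finset.range D, (jacobiSym a D : ℂ) * gl f D a t

theorem gl_int (h1 : StDec) (f : CuspForm 𝒮ℒ (w : ℤ)) (D a : ℕ) (hD : 1 ≤ D) (s : ℂ) :
    IntegrableOn (fun t : ℝ => gl f D a t * (t : ℂ) ^ s) (Ioi 0) := by
  have h := (h1 w f D a hD).2 s
  simpa only [gl, Int.cast_natCast] using h

theorem gl_bd (h1 : StDec) (f : CuspForm 𝒮ℒ (w : ℤ)) (D a : ℕ) (hD : 1 ≤ D) :
    ∃ K δ : ℝ, 0 < δ ∧ ∀ t : ℝ, 0 < t → ‖gl f D a t‖ ≤ K * Real.exp (-(δ * (t + 1 / t))) := by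
  have h := (h1 w f D a hD).1
  simpa only [gl, Int.cast_natCast] using h

theorem gl_top (h1 : StDec) (f : CuspForm 𝒮ℒ (w : ℤ)) (D a : ℕ) (hD : 1 ≤ D) (b : ℝ) :
    gl f D a =O[atTop] fun t : ℝ => t ^ b := by
  obtain ⟨K, δ, hδ, h⟩ := gl_bd h1 f D a hD
  refine IsBigO.trans ?_ (isLittleO_exp_neg_mul_rpow_atTop hδ b).isBigO
  refine IsBigO.of_bound |K| ?_
  filter_upwards [eventually_gt_atTop 0] with t ht
  refine (h t ht).trans ?_
  rw [Real.norm_eq_abs, Real.abs_exp]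
  refine mul_le_mul (le_abs_self K) (Real.exp_le_exp.2 ?_) (Real.exp_pos _).le (abs_nonneg K)
  have : 0 < 1 / t := by positivity
  nlinarith

theorem gl_bot (h1 : StDec) (f : CuspForm 𝒮ℒ (w : ℤ)) (D a : ℕ) (hD : 1 ≤ D) (b : ℝ) :
    gl f D a =O[𝓝[>] 0] fun t : ℝ => t ^ b := by
  obtain ⟨K, δ, hδ, h⟩ := gl_bd h1 f D a hD
  have h2 := ((isLittleO_exp_neg_mul_rpow_atTop hδ (-b)).comp_tendsto
    (tendsto_inv_nhdsGT_zero (𝕜 := ℝ))).isBigO
  refine IsBigO.trans ?_ (h2.congr' (EventuallyEq.refl _ _) ?_)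
  · refine IsBigO.of_bound |K| ?_
    filter_upwards [self_mem_nhdsWithin] with t ht
    have ht : 0 < t := ht
    refine (h t ht).trans ?_
    rw [Function.comp_apply, Real.norm_eq_abs, Real.abs_exp]
    refine mul_le_mul (le_abs_self K) (Real.exp_le_exp.2 ?_) (Real.exp_pos _).le (abs_nonneg K)
    rw [one_div]
    nlinarith
  · filter_upwards [self_mem_nhdsWithin] with t ht
    have ht : 0 < t := ht
    rw [Function.comp_apply, Real.inv_rpow ht.le, Real.rpow_neg ht.le, inv_inv]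

theorem Fl_top (h1 : StDec) (f : CuspForm 𝒮ℒ (w : ℤ)) (D : ℕ) (hD : 1 ≤ D) (b : ℝ) :
    Fl f D =O[atTop] fun t : ℝ => t ^ b := by
  have h : Fl f D = ∑ a ∈ Finset.range D, fun t => (jacobiSym a D : ℂ) * gl f D a t := by
    funext t
    rw [Finset.sum_apply]
    rfl
  rw [h]
  exact IsBigO.sum fun a _ => (gl_top h1 f D a hD b).const_mul_left _

theorem Fl_bot (h1 : StDec) (f : CuspForm 𝒮ℒ (w : ℤ)) (D : ℕ) (hD : 1 ≤ D) (b : ℝ) :
    Fl f D =O[𝓝[>] 0] fun t : ℝ => t ^ b := by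
  have h : Fl f D = ∑ a ∈ Finset.range D, fun t => (jacobiSym a D : ℂ) * gl f D a t := by
    funext t
    rw [Finset.sum_apply]
    rfl
  rw [h]
  exact IsBigO.sum fun a _ => (gl_bot h1 f D a hD b).const_mul_left _

theorem Fl_loc (h1 : StDec) (f : CuspForm 𝒮ℒ (w : ℤ)) (D : ℕ) (hD : 1 ≤ D) :
    LocallyIntegrableOn (Fl f D) (Ioi 0) := by
  refine IntegrableOn.locallyIntegrableOn ?_
  have h : Fl f D = fun t => ∑ a ∈ Finset.range D, (jacobiSym a D : ℂ) * gl f D a t := rfl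
  rw [h]
  refine integrable_finsetSum _ fun a _ => Integrable.const_mul ?_ _
  have := gl_int h1 f D a hD 0
  simp only [Complex.cpow_zero, mul_one] at this
  exact this

theorem mellin_diff (h1 : StDec) (f : CuspForm 𝒮ℒ (w : ℤ)) (D : ℕ) (hD : 1 ≤ D) :
    Differentiable ℂ (mellin (Fl f D)) := fun s =>
  mellin_differentiableAt_of_isBigO_rpow (a := s.re + 1) (b := s.re - 1) (Fl_loc h1 f D hD)
    (Fl_top h1 f D hD _) (by linarith) (Fl_bot h1 f D hD _) (by linarith)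

theorem mellin_k (h1 : StDec) (f : CuspForm 𝒮ℒ (w : ℤ)) (k D : ℕ) (hk : 1 ≤ k) (hD : 1 ≤ D) :
    mellin (Fl f D) k = Lx f k D := by
  have e1 : ∀ t : ℝ, (t : ℂ) ^ ((k : ℂ) - 1) = (t : ℂ) ^ (k - 1) := fun t => by
    rw [← Complex.cpow_natCast]
    congr 1
    push_cast [Nat.cast_sub hk]
    rfl
  unfold mellin Lx Vt
  have e2 : ∀ t : ℝ, (t : ℂ) ^ ((k : ℂ) - 1) • Fl f D t = ∑ a ∈ Finset.range D,
      (jacobiSym a D : ℂ) * (gl f D a t * (t : ℂ) ^ (k - 1)) := fun t => by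
    rw [e1, smul_eq_mul, Fl, Finset.mul_sum]
    refine Finset.sum_congr rfl fun a _ => ?_
    ring
  simp_rw [e2]
  rw [integral_finsetSum]
  · refine Finset.sum_congr rfl fun a _ => ?_
    rw [integral_const_mul]
    rfl
  · intro a _
    refine Integrable.const_mul ?_ _
    have := gl_int h1 f D a hD ((k : ℂ) - 1)
    simp_rw [e1] at this
    exact this

theorem ee_split (n D a : ℕ) (t : ℝ) :
    ee (n * (Complex.I * t + a / D)) = (Real.exp (-(2 * Real.pi * n) * t) : ℂ) *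
      ee ((a : ℂ) * n / D) := by
  unfold ee
  push_cast
  rw [← Complex.exp_add]
  congr 1
  have : Complex.I * Complex.I = -1 := Complex.I_mul_I
  linear_combination (2 * Real.pi * n * t : ℂ) * this

theorem Fl_hasSum (h2 : StCoef) (f : CuspForm 𝒮ℒ (w : ℤ)) (D : ℕ) (G : ℂ)
    (hG : GS D G) (t : ℝ) (ht : 0 < t) :
    HasSum (fun n : ℕ => (jacobiSym ((n + 1 : ℕ) : ℤ) D : ℂ) * coef f (n + 1) * G *
      (Real.exp (-(2 * Real.pi * (n + 1 : ℕ)) * t) : ℂ)) (Fl f D t) := by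
  have h3 : HasSum (fun n : ℕ => (jacobiSym (n : ℤ) D : ℂ) * coef f n * G *
      (Real.exp (-(2 * Real.pi * n) * t) : ℂ)) (Fl f D t) := by
    have h4 : ∀ a ∈ Finset.range D, HasSum (fun n : ℕ => (jacobiSym a D : ℂ) *
        (coef f n * ee (n * (Complex.I * t + a / D)))) ((jacobiSym a D : ℂ) * gl f D a t) := by
      intro a _
      refine HasSum.mul_left _ ?_
      have him : 0 < (Complex.I * t + (a : ℂ) / D).im := by
        have : ((a : ℂ) / D) = ((a / D : ℝ) : ℂ) := by push_cast; rfl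
        rw [this]
        simpa using ht
      obtain ⟨h5, h6⟩ := (h2 w f).2.2.1 _ him
      rw [gl, h6]
      exact h5.of_norm.hasSum
    refine (hasSum_sum h4).congr_fun fun n => ?_
    have h5 := hG.eq n
    simp only [Int.cast_natCast] at h5
    rw [show (jacobiSym (n : ℤ) D : ℂ) * coef f n * G *
        (Real.exp (-(2 * Real.pi * n) * t) : ℂ) = coef f n *
        (Real.exp (-(2 * Real.pi * n) * t) : ℂ) * ((jacobiSym (n : ℤ) D : ℂ) * G) by ring, ← h5,
      Finset.mul_sum]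
    refine Finset.sum_congr rfl fun a _ => ?_
    rw [ee_split]
    ring
  have h4 := (hasSum_nat_add_iff' 1).2 h3
  simp only [Finset.range_one, Finset.sum_singleton, (h2 w f).1, mul_zero, zero_mul, sub_zero] at h4
  exact h4

end LxAux

open LxAux

theorem stLx (h1 : StDec) (h2 : StCoef) : StLx := by
  intro k w D f G hw hk hD hG
  have hD1 : 1 ≤ D := Nat.one_le_iff_ne_zero.2 hD.sf.ne_zero
  have hG0 : G ≠ 0 := by
    intro h
    have := hG.sq
    rw [h, zero_pow two_ne_zero] at this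
    have h3 : (D : ℂ) ≠ 0 := Nat.cast_ne_zero.2 (by omega)
    exact h3 this.symm
  have hpi : (2 * Real.pi : ℂ) ≠ 0 := by
    simp [Real.pi_ne_zero]
  refine ⟨fun s => (2 * Real.pi : ℂ) ^ s * mellin (Fl f D) s * (Complex.Gamma s)⁻¹ * G⁻¹, ?_, ?_, ?_⟩
  · refine Differentiable.mul_const ?_ _
    refine Differentiable.mul (Differentiable.mul ?_ (mellin_diff h1 f D hD1))
      Complex.differentiable_one_div_Gamma
    exact fun s => (differentiableAt_id.const_cpow (Or.inl hpi))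
  · intro s hs
    have hs0 : 0 < s.re := by
      have : (0 : ℝ) ≤ k := Nat.cast_nonneg k
      linarith
    obtain ⟨C, hC⟩ := (h2 w f).2.1
    have key := hasSum_mellin (a := fun n : ℕ => (jacobiSym ((n + 1 : ℕ) : ℤ) D : ℂ) *
        coef f (n + 1) * G) (p := fun n : ℕ => 2 * Real.pi * (n + 1 : ℕ)) (F := Fl f D) (s := s)
      (fun n => Or.inr (by positivity)) hs0
      (fun t ht => by
        have := Fl_hasSum h2 f D G hG t ht
        exact this) ?_
    · have h3 := (((key.mul_left ((2 * Real.pi : ℂ) ^ s)).mul_right ((Complex.Gamma s)⁻¹)).mul_right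
        G⁻¹)
      refine h3.congr_fun fun n => ?_
      have hΓ : Complex.Gamma s ≠ 0 := Complex.Gamma_ne_zero_of_re_pos hs0
      have h4 : ((2 * Real.pi * (n + 1 : ℕ) : ℝ) : ℂ) ^ s =
          (2 * Real.pi : ℂ) ^ s * ((n + 1 : ℕ) : ℂ) ^ s := by
        have := Complex.mul_cpow_ofReal_nonneg (a := 2 * Real.pi) (b := ((n + 1 : ℕ) : ℝ))
          (by positivity) (by positivity) s
        push_cast at this ⊢
        exact this
      have h5 : (2 * Real.pi : ℂ) ^ s ≠ 0 := by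
        rw [Complex.cpow_def_of_ne_zero hpi]
        exact Complex.exp_ne_zero _
      have h6 : ((n + 1 : ℕ) : ℂ) ^ s ≠ 0 := by
        rw [Complex.cpow_def_of_ne_zero (Nat.cast_ne_zero.2 (Nat.succ_ne_zero n))]
        exact Complex.exp_ne_zero _
      rw [h4, Complex.cpow_neg]
      field_simp
    · have h3 : Summable fun n : ℕ => ((n + 1 : ℕ) : ℝ) ^ ((k : ℝ) - s.re) :=
        (summable_nat_add_iff 1).2 (Real.summable_nat_rpow.2 (by linarith))
      refine Summable.of_nonneg_of_le (fun n => by positivity) (fun n => ?_)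
        (h3.mul_left (|C| * ‖G‖ * ((2 * Real.pi) ^ s.re)⁻¹))
      have hn : (0 : ℝ) < ((n + 1 : ℕ) : ℝ) := by positivity
      have hw2 : ((w : ℝ) / 2) = k := by
        rw [hw]
        push_cast
        ring
      have h4 : ‖(jacobiSym ((n + 1 : ℕ) : ℤ) D : ℂ)‖ ≤ 1 := by
        rcases jacobiSym.trichotomy ((n + 1 : ℕ) : ℤ) D with h | h | h <;> rw [h] <;> simp
      have h5 : ‖coef f (n + 1)‖ ≤ |C| * ((n + 1 : ℕ) : ℝ) ^ (k : ℝ) := by
        refine (hC (n + 1)).trans ?_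
        rw [hw2]
        exact mul_le_mul_of_nonneg_right (le_abs_self C) (by positivity)
      rw [norm_mul, norm_mul, Real.mul_rpow (by positivity) hn.le, Real.rpow_sub hn]
      have h6 : ‖(jacobiSym ((n + 1 : ℕ) : ℤ) D : ℂ)‖ * ‖coef f (n + 1)‖ ≤
          |C| * ((n + 1 : ℕ) : ℝ) ^ (k : ℝ) := by
        calc _ ≤ 1 * (|C| * ((n + 1 : ℕ) : ℝ) ^ (k : ℝ)) :=
              mul_le_mul h4 h5 (norm_nonneg _) zero_le_one
          _ = _ := one_mul _
      have h7 : |C| * ‖G‖ * ((2 * Real.pi) ^ s.re)⁻¹ *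
          (((n + 1 : ℕ) : ℝ) ^ (k : ℝ) / ((n + 1 : ℕ) : ℝ) ^ s.re) =
          (|C| * ((n + 1 : ℕ) : ℝ) ^ (k : ℝ)) * ‖G‖ /
            ((2 * Real.pi) ^ s.re * ((n + 1 : ℕ) : ℝ) ^ s.re) := by
        have : (0 : ℝ) < (2 * Real.pi) ^ s.re := by positivity
        have : (0 : ℝ) < ((n + 1 : ℕ) : ℝ) ^ s.re := by positivity
        field_simp
      rw [h7]
      refine div_le_div_of_nonneg_right ?_ (by positivity)
      exact mul_le_mul_of_nonneg_right h6 (norm_nonneg _)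
  · intro h
    simp only [mellin_k h1 f k D hk hD1] at h
    have hΓ : Complex.Gamma k ≠ 0 := Complex.Gamma_ne_zero_of_re_pos (by
      rw [Complex.natCast_re]
      exact_mod_cast hk)
    have h5 : (2 * Real.pi : ℂ) ^ (k : ℂ) ≠ 0 := by
      rw [Complex.cpow_def_of_ne_zero hpi]
      exact Complex.exp_ne_zero _
    rcases mul_eq_zero.1 h with h | h
    · rcases mul_eq_zero.1 h with h | h
      · rcases mul_eq_zero.1 h with h | h
        · exact absurd h h5
        · exact h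
      · exact absurd (inv_eq_zero.1 h) hΓ
    · exact absurd (inv_eq_zero.1 h) hG0

end LC

end Pool.Agent.Lib.MP_7c5fb9_nt
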