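import Pool.Agent.Lib.MP_7c5fb9_nt.LC.All
import Pool.Agent.Lib.MP_7c5fb9_nt.LO.AllB
import Pool.Agent.Lib.MP_7c5fb9_nt.LO.FieldB
import Pool.Agent.Lib.MP_7c5fb9_nt.LO.LamNe

set_option autoImplicit false

/-!
# Project LC (MP_7c5fb9_nt): central values of the twisted `L`-functions
-/

namespace Pool.Agent.Lib.MP_7c5fb9_nt

namespace LC

open Pool.Agent.Lib.MP_7c08ba_nt.RZ
open LO (NonVan Fund FD)
open scoped MatrixGroups

/-- `Λ` is an entire function, given for `Re s > c` by the Dirichlet series with the coefficients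
`a n`, `n ≥ 1`. -/
structure IsEntire (a : ℕ → ℂ) (c : ℝ) (Λ : ℂ → ℂ) : Prop where
  diff : Differentiable ℂ Λ
  ser : ∀ s : ℂ, c < s.re → HasSum (fun n : ℕ => a (n + 1) * ((n + 1 : ℕ) : ℂ) ^ (-s)) (Λ s)

theorem IsEntire.eq {a : ℕ → ℂ} {c : ℝ} {Λ Λ' : ℂ → ℂ} (h : IsEntire a c Λ)
    (h' : IsEntire a c Λ') : Λ = Λ' := by
  have h1 : AnalyticOnNhd ℂ Λ Set.univ := h.diff.differentiableOn.analyticOnNhd isOpen_univ
  have h2 : AnalyticOnNhd ℂ Λ' Set.univ := h'.diff.differentiableOn.analyticOnNhd isOpen_univ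
  refine h1.eq_of_eventuallyEq h2 (z₀ := ((c + 1 : ℝ) : ℂ)) ?_
  have ho : IsOpen {s : ℂ | c < s.re} := isOpen_lt continuous_const Complex.continuous_re
  filter_upwards [ho.mem_nhds (show ((c + 1 : ℝ) : ℂ) ∈ {s : ℂ | c < s.re} by simp)] with s hs
  exact (h.ser s hs).unique (h'.ser s hs)

/-- For the form `f` of weight `2 * k`: the Dirichlet series `∑ χ_D(n) a_n n^(-s)` (absolutely
convergent for `Re s > k + 1`), `χ_D` the Jacobi symbol modulo `D`, extends to an entire function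
whose value at the centre `k` is not zero. -/
def CentralNe {w : ℕ} (k : ℕ) (f : CuspForm 𝒮ℒ (w : ℤ)) (D : ℕ) : Prop :=
  (∃ Λ : ℂ → ℂ, IsEntire (fun n => (jacobiSym (n : ℤ) D : ℂ) * coef f n) (k + 1) Λ) ∧
    ∀ Λ : ℂ → ℂ, IsEntire (fun n => (jacobiSym (n : ℤ) D : ℂ) * coef f n) (k + 1) Λ → Λ k ≠ 0

/-- If the toric period of an eigenform `f` of level one and weight `2k`, `k` even, over the real
quadratic field of discriminant `D = 1` modulo `4` does not vanish, then the central value of the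
`L`-function of `f` twisted by the quadratic character modulo `D` does not vanish. -/
theorem main (k w : ℕ) (f : CuspForm 𝒮ℒ (w : ℤ)) (hk : Even k) (hw : w = 2 * k) (hf : IsEigen f)
    (D : ℕ) (K : Type) [Field K] [NumberField K] (s : K) (hD : Squarefree D) (h4 : D % 4 = 1)
    (h1 : 1 < D) (hK : Module.finrank ℚ K = 2) (hs : s ^ 2 = (D : K)) (hN : NonVan k f K) :
    CentralNe k f D := by
  obtain ⟨Λ, a1, a2, a3⟩ := lFin k w f hk hw hf D K s ⟨hD, h4⟩ h1 hK hs hN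
  have c1 : IsEntire (fun n => (jacobiSym (n : ℤ) D : ℂ) * coef f n) (k + 1) Λ := ⟨a1, a2⟩
  refine ⟨⟨Λ, c1⟩, fun M hM => ?_⟩
  rw [hM.eq c1]
  exact a3

/-- The same for the `L`-function of `f` itself. -/
theorem main1 (k w : ℕ) (f : CuspForm 𝒮ℒ (w : ℤ)) (hk : Even k) (hw : w = 2 * k) (hf : IsEigen f)
    (D : ℕ) (K : Type) [Field K] [NumberField K] (s : K) (hD : Squarefree D) (h4 : D % 4 = 1)
    (h1 : 1 < D) (hK : Module.finrank ℚ K = 2) (hs : s ^ 2 = (D : K)) (hN : NonVan k f K) :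
    CentralNe k f 1 := by
  obtain ⟨Λ, a1, a2, a3⟩ := lFin1 k w f hk hw hf D K s ⟨hD, h4⟩ h1 hK hs hN
  have c1 : IsEntire (fun n => (jacobiSym (n : ℤ) 1 : ℂ) * coef f n) (k + 1) Λ := by
    refine ⟨a1, fun z hz => ?_⟩
    have h2 := a2 z hz
    simp only [jacobiSym.one_right, Int.cast_one, one_mul]
    exact h2
  refine ⟨⟨Λ, c1⟩, fun M hM => ?_⟩
  rw [hM.eq c1]
  exact a3

theorem fd_of {D : ℕ} (hD : Squarefree D) (h4 : D % 4 = 1) (h1 : D ≠ 1) : FD D := by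
  left
  refine ⟨by omega, by simpa using hD, ?_⟩
  exact_mod_cast h1

theorem of_fd {D : ℕ} (hD : FD D) (h4 : D % 4 = 1) : Squarefree D ∧ D ≠ 1 := by
  rcases hD with ⟨-, h2, h3⟩ | ⟨h2, -⟩
  · exact ⟨by simpa using h2, by exact_mod_cast h3⟩
  · omega

/-- the field of discriminant `D` -/
theorem field_of {D : ℕ} (hD : Squarefree D) (h4 : D % 4 = 1) (h1 : D ≠ 1) :
    ∃ (K : Type) (_ : Field K) (_ : NumberField K), Module.finrank ℚ K = 2 ∧
      NumberField.discr K = D ∧ ∃ s : K, s ^ 2 = (D : K) := by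
  obtain ⟨K, i1, i2, hK, hd⟩ := LO.exists_field (fd_of hD h4 h1)
  obtain ⟨-, s, hs⟩ := LO.stDiscrB.1 K hK
  refine ⟨K, i1, i2, hK, hd, s, ?_⟩
  rw [hs, hd]
  simp

/-- all fields of discriminant `D` -/
theorem of_nonvan (k w : ℕ) (f : CuspForm 𝒮ℒ (w : ℤ)) (hk : Even k) (hw : w = 2 * k)
    (hf : IsEigen f) {D : ℕ} (hD : Squarefree D) (h4 : D % 4 = 1) (h1 : D ≠ 1)
    (hN : ∀ (K : Type) [Field K] [NumberField K], Module.finrank ℚ K = 2 →
      NumberField.discr K = D → NonVan k f K) : CentralNe k f D ∧ CentralNe k f 1 := by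
  obtain ⟨K, i1, i2, hK, hd, s, hs⟩ := field_of hD h4 h1
  have h1' : 1 < D := by
    have : D ≠ 0 := hD.ne_zero
    omega
  have h2 := hN K hK hd
  exact ⟨main k w f hk hw hf D K s hD h4 h1' hK hs h2,
    main1 k w f hk hw hf D K s hD h4 h1' hK hs h2⟩

/-- the first criterion -/
theorem crit1 (k w : ℕ) (f : CuspForm 𝒮ℒ (w : ℤ)) (hk : Even k) (hw : w = 2 * k)
    (hf : IsEigen f) {D : ℕ} (hD : Squarefree D) (h4 : D % 4 = 1) (h3 : D % 3 = 2)
    (hF : ∀ (F : Type) [Field F] [NumberField F] (s : F), Module.finrank ℚ F = 2 →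
      s ^ 2 = -((3 * D : ℕ) : F) →
        ¬ 3 ∣ Nat.card (ClassGroup (NumberField.RingOfIntegers F))) :
    CentralNe k f D ∧ CentralNe k f 1 := by
  refine of_nonvan k w f hk hw hf hD h4 (by omega) ?_
  intro K _ _ hK hd
  exact (LO.bMain k w f hk hw hf).1 K D hK hd h3 hF

/-- the second criterion -/
theorem crit2 (k w : ℕ) (f : CuspForm 𝒮ℒ (w : ℤ)) (hk : Even k) (hw : w = 2 * k)
    (hf : IsEigen f) {D : ℕ} (hD : Squarefree D) (h4 : D % 4 = 1) (h3 : D % 3 = 2)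
    (hF : ∀ (K : Type) [Field K] [NumberField K] (s : K), Module.finrank ℚ K = 2 →
      s ^ 2 = (D : K) → ¬ 3 ∣ Nat.card (ClassGroup (NumberField.RingOfIntegers K)))
    (hu : ∀ t u : ℤ, Fund D t u → ¬ (9 : ℤ) ∣ t * u * (t ^ 2 + D * u ^ 2)) :
    CentralNe k f D ∧ CentralNe k f 1 := by
  refine of_nonvan k w f hk hw hf hD h4 (by omega) ?_
  intro K _ _ hK hd
  obtain ⟨-, s, hs⟩ := LO.stDiscrB.1 K hK
  have hs' : s ^ 2 = (D : K) := by
    rw [hs, hd]
    simp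
  refine LO.aCrit k w f hk hw hf K hK ?_ ?_ (hF K s hK hs') ?_
  · rw [hd]
    have : 0 < D := by omega
    exact_mod_cast this
  · rw [hd]
    omega
  · intro D' t u hD' hFu
    have h5 : D' = D := by
      rw [hD'] at hd
      exact_mod_cast hd
    subst h5
    exact LO.lam_ne_zero (by omega) (hu t u hFu)

end LC

end Pool.Agent.Lib.MP_7c5fb9_nt
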