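import Mathlib
import Pool.Agent.Lib.MP_7c5fb9_nt.LC.St
import Pool.Agent.Lib.MP_7c08ba_nt.RZ.Unf

set_option autoImplicit false

/-!
Project LC, module UnfD: unfolding for the subgroup of level `D`, on the fundamental domain times
the set of classes.
-/

namespace Pool.Agent.Lib.MP_7c5fb9_nt

namespace LC

open MeasureTheory UpperHalfPlane Set Filter Pool.Agent.Lib.MP_7c08ba_nt.RZ
open scoped MatrixGroups ComplexConjugate

namespace UnfDAux

open Pool.Agent.Lib.MP_7c08ba_nt.RZ.UnfAux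

/-- the bottom row times a matrix -/
def rw1 (v : ℤ × ℤ) (g : SL(2, ℤ)) : ℤ × ℤ :=
  (v.1 * g 0 0 + v.2 * g 1 0, v.1 * g 0 1 + v.2 * g 1 1)

theorem mul_10 (g h : SL(2, ℤ)) : (g * h) 1 0 = g 1 0 * h 0 0 + g 1 1 * h 1 0 := by
  have : (g * h) 1 0 = ((g : Matrix (Fin 2) (Fin 2) ℤ) * (h : Matrix (Fin 2) (Fin 2) ℤ)) 1 0 := by
    rw [← Matrix.SpecialLinearGroup.coe_mul]
  rw [this, Matrix.mul_apply, Fin.sum_univ_two]

theorem mul_11 (g h : SL(2, ℤ)) : (g * h) 1 1 = g 1 0 * h 0 1 + g 1 1 * h 1 1 := by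
  have : (g * h) 1 1 = ((g : Matrix (Fin 2) (Fin 2) ℤ) * (h : Matrix (Fin 2) (Fin 2) ℤ)) 1 1 := by
    rw [← Matrix.SpecialLinearGroup.coe_mul]
  rw [this, Matrix.mul_apply, Fin.sum_univ_two]

theorem row_mul (g h : SL(2, ℤ)) : ((g * h) 1 0, (g * h) 1 1) = rw1 (g 1 0, g 1 1) h := by
  rw [rw1, mul_10, mul_11]

theorem cop_row (g : SL(2, ℤ)) : IsCoprime (g 1 0) (g 1 1) := by
  have h := g.det_coe
  rw [Matrix.det_fin_two] at h
  exact ⟨-g 0 1, g 0 0, by linarith⟩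

theorem rw1_cop (v : Cop) (g : SL(2, ℤ)) : IsCoprime (rw1 v.1 g).1 (rw1 v.1 g).2 := by
  have h := cop_row (gm v * g)
  have h2 := row_mul (gm v) g
  rw [gm_10, gm_11] at h2
  have h3 : rw1 v.1 g = ((gm v * g) 1 0, (gm v * g) 1 1) := h2.symm
  rw [h3]
  exact h

theorem rw1_inv (v : ℤ × ℤ) (g : SL(2, ℤ)) : rw1 (rw1 v g) g⁻¹ = v := by
  have h := g.det_coe
  rw [Matrix.det_fin_two] at h
  have e00 : g⁻¹ 0 0 = g 1 1 := by
    simp [Matrix.SpecialLinearGroup.SL2_inv_expl]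
  have e01 : g⁻¹ 0 1 = -g 0 1 := by
    simp [Matrix.SpecialLinearGroup.SL2_inv_expl]
  have e10 : g⁻¹ 1 0 = -g 1 0 := by
    simp [Matrix.SpecialLinearGroup.SL2_inv_expl]
  have e11 : g⁻¹ 1 1 = g 0 0 := by
    simp [Matrix.SpecialLinearGroup.SL2_inv_expl]
  unfold rw1
  rw [e00, e01, e10, e11]
  refine Prod.ext ?_ ?_
  · show (v.1 * g 0 0 + v.2 * g 1 0) * g 1 1 + (v.1 * g 0 1 + v.2 * g 1 1) * -g 1 0 = v.1
    linear_combination v.1 * h
  · show (v.1 * g 0 0 + v.2 * g 1 0) * -g 0 1 + (v.1 * g 0 1 + v.2 * g 1 1) * g 0 0 = v.2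
    linear_combination v.2 * h

theorem rw1_inv' (v : ℤ × ℤ) (g : SL(2, ℤ)) : rw1 (rw1 v g⁻¹) g = v := by
  have h := rw1_inv v g⁻¹
  rw [inv_inv] at h
  exact h

variable {D : ℕ} {ι : Type} {R : ι → SL(2, ℤ)}

/-- the map from pairs to coprime pairs -/
def cmap (R : ι → SL(2, ℤ)) (x : CopD D × ι) : Cop := ⟨rw1 x.1.1.1 (R x.2), rw1_cop _ _⟩

theorem cmap_bij (hR : IsRep D R) : Function.Bijective (cmap (D := D) R) := by
  constructor
  · rintro ⟨v, i⟩ ⟨v', i'⟩ h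
    have h1 : rw1 v.1.1 (R i) = rw1 v'.1.1 (R i') := congrArg Subtype.val h
    have key : ∀ (w : Cop) (j : ι), (D : ℤ) ∣ (rw1 w.1 (R j)⁻¹).1 →
        (D : ℤ) ∣ (gm w * (R j)⁻¹) 1 0 := by
      intro w j hw
      have h2 := row_mul (gm w) (R j)⁻¹
      rw [gm_10, gm_11] at h2
      have h3 : (gm w * (R j)⁻¹) 1 0 = (rw1 w.1 (R j)⁻¹).1 := congrArg Prod.fst h2
      rw [h3]
      exact hw
    let w : Cop := ⟨rw1 v.1.1 (R i), rw1_cop _ _⟩
    have hi : (D : ℤ) ∣ (gm w * (R i)⁻¹) 1 0 := by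
      refine key w i ?_
      show (D : ℤ) ∣ (rw1 (rw1 v.1.1 (R i)) (R i)⁻¹).1
      rw [rw1_inv]
      exact v.2
    have hi' : (D : ℤ) ∣ (gm w * (R i')⁻¹) 1 0 := by
      refine key w i' ?_
      show (D : ℤ) ∣ (rw1 (rw1 v.1.1 (R i)) (R i')⁻¹).1
      rw [h1, rw1_inv]
      exact v'.2
    have hii : i = i' := (hR.ex (gm w)).unique hi hi'
    subst hii
    have hv : v.1.1 = v'.1.1 := by
      rw [← rw1_inv v.1.1 (R i), h1, rw1_inv]
    have hv2 : v = v' := Subtype.ext (Subtype.ext hv)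
    rw [hv2]
  · intro w
    obtain ⟨i, hi, _⟩ := hR.ex (gm w)
    have h2 := row_mul (gm w) (R i)⁻¹
    rw [gm_10, gm_11] at h2
    have h3 : (gm w * (R i)⁻¹) 1 0 = (rw1 w.1 (R i)⁻¹).1 := congrArg Prod.fst h2
    refine ⟨(⟨⟨rw1 w.1 (R i)⁻¹, rw1_cop _ _⟩, ?_⟩, i), ?_⟩
    · show (D : ℤ) ∣ (rw1 w.1 (R i)⁻¹).1
      rw [← h3]
      exact hi
    · apply Subtype.ext
      show rw1 (rw1 w.1 (R i)⁻¹) (R i) = w.1
      exact rw1_inv' _ _

theorem term_eq {G : ℂ → ℂ} (hper : ∀ z : ℂ, 0 < z.im → G (z + 1) = G z) (x : CopD D × ι)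
    (z : ℍ) : G (mob x.1.1.1 ((R x.2 • z : ℍ) : ℂ)) = G (mob (cmap R x).1 z) := by
  obtain ⟨v, i⟩ := x
  obtain ⟨⟨w, n⟩, hw⟩ := par.surjective (gm v.1 * R i)
  rw [par_apply] at hw
  have hw0 : w = cmap R (v, i) := by
    apply Subtype.ext
    have h1 := row_mul (gm v.1) (R i)
    rw [gm_10, gm_11, ← hw, (T_mul _ _).2.2.1, (T_mul _ _).2.2.2, gm_10, gm_11] at h1
    exact h1
  rw [mob_eq, mob_eq, ← mul_smul, ← hw, ← hw0, mul_smul, coe_T_smul]
  exact per hper n _ (gm w • z : ℍ).im_pos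

theorem cont_term {G : ℂ → ℂ} (hG : ContinuousOn G {z | 0 < z.im}) (v : CopD D) (g : SL(2, ℤ)) :
    Continuous fun z : ℍ => G (mob v.1.1 ((g • z : ℍ) : ℂ)) := by
  have h : (fun z : ℍ => G (mob v.1.1 ((g • z : ℍ) : ℂ))) =
      (fun z : ℍ => G ((gm v.1 • (g • z) : ℍ) : ℂ)) := by
    funext z
    rw [mob_eq]
  rw [h]
  have h1 : Continuous fun z : ℍ => G z :=
    hG.comp_continuous UpperHalfPlane.continuous_coe fun z => z.im_pos
  exact h1.comp ((continuous_sl _).comp (continuous_sl g))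

end UnfDAux

open UnfDAux Pool.Agent.Lib.MP_7c08ba_nt.RZ.UnfAux in
theorem stUnfD (h : StUnf) : StUnfD := by
  intro D ι _ R hD hR G hG hper hint
  have hnG : ContinuousOn (fun z : ℂ => ((‖G z‖ : ℝ) : ℂ)) {z | 0 < z.im} :=
    Complex.continuous_ofReal.comp_continuousOn hG.norm
  have hnint : IntegrableOn (fun z : ℍ => ((‖G z‖ : ℝ) : ℂ)) strip := hint.norm.ofReal
  obtain ⟨hs1, _, hI1⟩ := h G hG hper hint
  obtain ⟨_, hi2, _⟩ := h (fun z => ((‖G z‖ : ℝ) : ℂ)) hnG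
    (fun z hz => by simp only [hper z hz]) hnint
  let e : CopD D × ι ≃ Cop := Equiv.ofBijective _ (cmap_bij hR)
  have he : ∀ x, e x = cmap R x := fun x => rfl
  have hsum : ∀ᵐ z : ℍ, (Summable fun x : CopD D × ι => G (mob x.1.1.1 ((R x.2 • z : ℍ) : ℂ))) ∧
      ∑' x : CopD D × ι, G (mob x.1.1.1 ((R x.2 • z : ℍ) : ℂ)) =
        ∑' v : Cop, G (mob v.1 z) := by
    filter_upwards [hs1] with z hz
    have h1 : (fun x : CopD D × ι => G (mob x.1.1.1 ((R x.2 • z : ℍ) : ℂ))) =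
        (fun v : Cop => G (mob v.1 z)) ∘ e := by
      funext x
      exact term_eq hper x z
    rw [h1]
    exact ⟨e.summable_iff.2 hz, e.tsum_eq (fun v : Cop => G (mob v.1 z))⟩
  have hinj : ∀ i : ι, Function.Injective fun v : CopD D => (v, i) := fun i v v' hv => by
    simpa using hv
  have hA : ∀ i, ∀ᵐ z : ℍ, Summable fun v : CopD D => G (mob v.1.1 ((R i • z : ℍ) : ℂ)) := by
    intro i
    filter_upwards [hsum] with z hz
    have h7 := hz.1.comp_injective (hinj i)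
    simp only [Function.comp_def] at h7
    exact h7
  have hB : ∀ i, IntegrableOn (fun z : ℍ => ∑' v : CopD D,
      G (mob v.1.1 ((R i • z : ℍ) : ℂ))) ModularGroup.fd := by
    intro i
    have hcount : Countable (CopD D) := inferInstance
    have hm : AEStronglyMeasurable (fun z : ℍ => ∑' v : CopD D,
        G (mob v.1.1 ((R i • z : ℍ) : ℂ))) volume := by
      refine aestronglyMeasurable_of_tendsto_ae (atTop : Filter (Finset (CopD D)))
        (f := fun s z => ∑ v ∈ s, G (mob v.1.1 ((R i • z : ℍ) : ℂ))) (fun s => ?_) ?_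
      · exact (continuous_finsetSum s fun v _ => cont_term hG v (R i)).aestronglyMeasurable
      · filter_upwards [hA i] with z hz using hz.hasSum
    refine Integrable.mono (hi2.norm) hm.restrict ?_
    refine ae_restrict_of_ae ?_
    filter_upwards [hsum, hs1] with z hz hz1
    rw [norm_norm]
    have h2 : Summable fun v : Cop => ‖G (mob v.1 z)‖ := hz1.norm
    have h3 : Summable fun v : CopD D => ‖G (mob v.1.1 ((R i • z : ℍ) : ℂ))‖ := by
      have h7 := (hz.1.comp_injective (hinj i)).norm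
      simp only [Function.comp_def] at h7
      exact h7
    have h4 : ∑' v : Cop, ((‖G (mob v.1 z)‖ : ℝ) : ℂ) =
        ((∑' v : Cop, ‖G (mob v.1 z)‖ : ℝ) : ℂ) := by
      rw [Complex.ofReal_tsum]
    rw [h4, Complex.norm_real, Real.norm_eq_abs, abs_of_nonneg (tsum_nonneg fun _ => norm_nonneg _)]
    refine (norm_tsum_le_tsum_norm h3).trans ?_
    have h5 : (fun v : CopD D => ‖G (mob v.1.1 ((R i • z : ℍ) : ℂ))‖) =
        (fun w : Cop => ‖G (mob w.1 z)‖) ∘ fun v : CopD D => e (v, i) := by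
      funext v
      show _ = ‖G (mob (e (v, i)).1 z)‖
      rw [he, ← term_eq hper (v, i) z]
    rw [h5]
    exact tsum_comp_le_tsum_of_inj h2 (fun _ => norm_nonneg _)
      (e.injective.comp (hinj i))
  refine ⟨hA, hB, ?_⟩
  rw [← hI1, ← integral_finsetSum _ fun i _ => hB i]
  refine integral_congr_ae (ae_restrict_of_ae ?_)
  filter_upwards [hsum] with z hz
  rw [← hz.2]
  have hz2 : Summable fun x : ι × CopD D => G (mob x.2.1.1 ((R x.1 • z : ℍ) : ℂ)) :=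
    (Equiv.prodComm ι (CopD D)).summable_iff.2 hz.1
  have h6 : ∑' x : CopD D × ι, G (mob x.1.1.1 ((R x.2 • z : ℍ) : ℂ)) =
      ∑' x : ι × CopD D, G (mob x.2.1.1 ((R x.1 • z : ℍ) : ℂ)) :=
    ((Equiv.prodComm ι (CopD D)).tsum_eq
      (fun x : CopD D × ι => G (mob x.1.1.1 ((R x.2 • z : ℍ) : ℂ)))).symm
  rw [h6, hz2.tsum_prod, tsum_fintype]

end LC

end Pool.Agent.Lib.MP_7c5fb9_nt
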